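import Pool.Agent.Lib.B5.Basic

/-! Dead states, holes and changes of unknowns. -/

set_option autoImplicit false

namespace Pool.Agent.Lib.B5

theorem stDEAD : St_DEAD := by
  rintro q S i j hi hj hne h1 h2 T hT ⟨o, b, α, w, -, h, -⟩
  refine (hne (congrArg Fin.val (hT (a₁ := ⟨i, hi⟩) (a₂ := ⟨j, hj⟩) ?_))).elim
  rw [h, h, dot_leq h1, dot_leq h2]

theorem phEq_spec {q : ℕ} (hq : 0 < q) {a b : List ℤ} (h : phEq q a b = true) (w : ℕ → ℝ) :
    ∃ m : ℤ, ev q w a = ev q w b + m := by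
  simp only [phEq, Bool.and_eq_true, beq_iff_eq] at h
  obtain ⟨m, hm⟩ := Int.dvd_of_emod_eq_zero h.1
  refine ⟨m, ?_⟩
  have h1 : ((a.headD 0 : ℤ) : ℝ) - (b.headD 0 : ℤ) = q * m := by exact_mod_cast hm
  have h2 : (q : ℝ) ≠ 0 := by positivity
  rw [ev_eq, ev_eq, dot_leq h.2]
  field_simp
  linear_combination h1

theorem rowEq_spec {q : ℕ} {u : ℤ} {r s : List (List ℤ)} {n : ℕ} (h : rowEq q u r s n = true) :
    ∀ k < n, phEq q (lsmul u (r.getD k [])) (s.getD k []) = true := by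
  induction n with
  | zero => exact fun k hk => absurd hk (Nat.not_lt_zero k)
  | succ n ih =>
    simp only [rowEq, Bool.and_eq_true] at h
    intro k hk
    rcases Nat.lt_succ_iff_lt_or_eq.1 hk with hk | rfl
    exacts [ih h.2 k hk, h.1]

theorem tabEq_spec {q : ℕ} {S : St} {es : List (ℕ × ℤ)} {l : List (List (List ℤ))}
    (h : tabEq q S es l = true) (i : ℕ) : l.getD i [] = [] ∨ ∃ c u,
      rowEq q u (S.row c) (l.getD i []) S.n = true ∧ (l.getD i []).length ≤ S.n := by
  induction l generalizing es i with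
  | nil => exact .inl rfl
  | cons s l ih =>
    cases es with
    | nil => simp [tabEq] at h
    | cons e es =>
      simp only [tabEq, Bool.and_eq_true, decide_eq_true_eq] at h
      cases i with
      | zero => exact .inr ⟨e.1, e.2, h.1.1, h.1.2⟩
      | succ i => exact ih h.2 i

theorem stHOLE : St_HOLE := by
  rintro q S H es h hH T hT ⟨o, b, α, w, h0, h1, h2⟩
  simp only [holeOK, ptEq, Bool.and_eq_true, decide_eq_true_eq, beq_iff_eq] at h
  obtain ⟨⟨⟨⟨⟨⟨⟨hq, hn⟩, p0⟩, p1⟩, p2⟩, p3⟩, p4⟩, ht⟩ := h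
  have key : ∀ i, ∃ a : ℝ, ∀ k, ∃ m : ℤ, a * b k = ev q w ((H.row i).getD k []) + m := fun i => by
    rcases tabEq_spec ht i with e | ⟨c, u, e1, e2⟩
    · exact ⟨0, fun k => ⟨0, by simp [St.row, e, ev, -List.getD_eq_getElem?_getD]⟩⟩
    refine ⟨u * α c, fun k => ?_⟩
    rcases lt_or_ge k S.n with hk | hk
    · obtain ⟨m, hm⟩ := h2 c k
      obtain ⟨m', hm'⟩ := phEq_spec hq (rowEq_spec e1 k hk) w
      rw [ev_lsmul] at hm'
      refine ⟨u * m + m', ?_⟩
      rw [St.row]
      push_cast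
      linear_combination (u : ℝ) * hm + hm'
    · refine ⟨0, ?_⟩
      rw [h0 k hk, St.row, List.getD_eq_default _ _ (e2.trans hk)]
      simp [ev]
  choose a ha using key
  refine hH T hT ⟨o, b, a, w, hn ▸ h0, fun j => ?_, ha⟩
  have : leq (S.pt j).1 (H.pt j).1 = true ∧ leq (S.pt j).2 (H.pt j).2 = true := by
    fin_cases j
    exacts [p0, p1, p2, p3, p4]
  rw [h1, dot_leq this.1, dot_leq this.2]

theorem combRows_getD (r M : List (List ℤ)) (k : ℕ) :
    (combRows r M).getD k [] = comb (M.getD k []) r := by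
  induction M generalizing k with
  | nil => simp [combRows, comb]
  | cons a M ih =>
    cases k with
    | zero => rfl
    | succ k => exact ih k

theorem combTab_getD (M : List (List ℤ)) (l : List (List (List ℤ))) (c k : ℕ) :
    ((combTab M l).getD c []).getD k [] = comb (M.getD k []) (l.getD c []) := by
  induction l generalizing c with
  | nil =>
    change [] = comb (M.getD k []) []
    cases M.getD k [] <;> rfl
  | cons r l ih =>
    cases c with
    | zero => exact combRows_getD r M k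
    | succ c => exact ih c

theorem permOK_spec {π : List ℕ} (h : permOK π = true) :
    ∃ σ : Equiv.Perm (Fin 5), ∀ j, (σ j : ℕ) = π.getD j 0 := by
  simp only [permOK, Bool.and_eq_true, beq_iff_eq, List.all_eq_true, decide_eq_true_eq,
    List.contains_iff_mem] at h
  obtain ⟨⟨⟨⟨⟨⟨hl, ha⟩, c0⟩, c1⟩, c2⟩, c3⟩, c4⟩ := h
  have h1 : ∀ j : Fin 5, π.getD j 0 < 5 := fun j => by
    rw [List.getD_eq_getElem _ _ (j.2.trans_eq hl.symm)]
    exact ha _ (List.getElem_mem _)
  have h2 : Function.Surjective fun j : Fin 5 => (⟨π.getD j 0, h1 j⟩ : Fin 5) := fun i => by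
    have : (i : ℕ) ∈ π := by
      fin_cases i
      exacts [c0, c1, c2, c3, c4]
    obtain ⟨j, hj, e⟩ := List.getElem_of_mem this
    exact ⟨⟨j, hj.trans_eq hl⟩, Fin.ext ((List.getD_eq_getElem _ _ hj).trans e)⟩
  exact ⟨Equiv.ofBijective _ (Finite.surjective_iff_bijective.1 h2), fun _ => rfl⟩

theorem stRE (hP : St_PERM) : St_RE := by
  rintro q S π M ch h hG T hT ⟨o, b, α, w, -, h1, h2⟩
  simp only [reOK, reAt, Bool.and_eq_true] at h
  obtain ⟨⟨⟨⟨⟨hπ, p0⟩, p1⟩, p2⟩, p3⟩, p4⟩ := h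
  obtain ⟨σ, hσ⟩ := permOK_spec hπ
  refine hP T σ (hG _ (hT.comp σ.injective) ⟨T (σ 0), fun k => dot (M.getD k []) b, α, w,
    fun k hk => ?_, fun j => ?_, fun c k => ?_⟩)
  · beta_reduce
    rw [List.getD_eq_default _ _ hk, dot_nil]
  · have : leq (S.pt (π.getD j 0)).1 (ladd (S.pt (π.getD 0 0)).1
        (comb (ch.getD j ([], [])).1 M)) = true ∧ leq (S.pt (π.getD j 0)).2
        (ladd (S.pt (π.getD 0 0)).2 (comb (ch.getD j ([], [])).2 M)) = true := by
      fin_cases j
      exacts [p0, p1, p2, p3, p4]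
    beta_reduce
    rw [h1, h1, hσ, hσ, dot_leq this.1, dot_leq this.2, dot_ladd, dot_ladd, dot_comb, dot_comb,
      add_assoc]
    rfl
  · rw [St.row, St.re, combTab_getD]
    exact ev_comb q w (α c) _ _ b (h2 c)

end Pool.Agent.Lib.B5
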