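import Pool.Agent.Lib.B5.BDefs
import Pool.Agent.Lib.B5.ST1

/-! Absurd products, generalised holes, combined multipliers and rescaled denominators. -/

set_option autoImplicit false

namespace Pool.Agent.Lib.B5

theorem ags_rowAdd (q : ℕ) (w : ℕ → ℝ) (r s : List (List ℤ)) (k : ℕ) :
    ev q w ((rowAdd r s).getD k []) = ev q w (r.getD k []) + ev q w (s.getD k []) := by
  induction r generalizing s k with
  | nil => simp [rowAdd, ev]
  | cons a r ih =>
    cases s with
    | nil => simp [rowAdd, ev]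
    | cons b s =>
      cases k with
      | zero => exact ev_ladd q w a b
      | succ k => exact ih s k

theorem ags_rowMul (q : ℕ) (w : ℕ → ℝ) (u : ℤ) (r : List (List ℤ)) (k : ℕ) :
    ev q w ((rowMul u r).getD k []) = u * ev q w (r.getD k []) := by
  induction r generalizing k with
  | nil => simp [rowMul, ev]
  | cons a r ih =>
    cases k with
    | zero => exact ev_lsmul q w u a
    | succ k => exact ih k

theorem ags_crow {q : ℕ} {S : St} {b : ℕ → ℤ} {α w : ℕ → ℝ}
    (h : ∀ c k, ∃ m : ℤ, α c * b k = ev q w ((S.row c).getD k []) + m) (l : List (ℕ × ℤ)) :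
    ∃ a : ℝ, ∀ k, ∃ m : ℤ, a * b k = ev q w ((S.crow l).getD k []) + m := by
  induction l with
  | nil => exact ⟨0, fun k => ⟨0, by simp [St.crow, ev]⟩⟩
  | cons e l ih =>
    obtain ⟨a, ha⟩ := ih
    refine ⟨e.2 * α e.1 + a, fun k => ?_⟩
    obtain ⟨m, hm⟩ := h e.1 k
    obtain ⟨m', hm'⟩ := ha k
    refine ⟨e.2 * m + m', ?_⟩
    rw [St.crow, ags_rowAdd, ags_rowMul]
    push_cast
    linear_combination (e.2 : ℝ) * hm + hm'

theorem ags_exact {q : ℕ} (hq : 0 < q) {w : ℕ → ℝ} {a : List ℤ} (h : lz a.tail = true) {x : ℝ}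
    {m : ℤ} (hx : x = ev q w a + m) : q * x = ((a.headD 0 + q * m : ℤ) : ℝ) := by
  have h2 : (q : ℝ) ≠ 0 := by positivity
  rw [hx, ev_eq, dot_lz h]
  push_cast
  field_simp
  ring

theorem stABS : St_ABS := by
  rintro q S G l l' x y h T - ⟨o, b, α, w, -, -, h2⟩
  simp only [absOK, absN, Bool.and_eq_true, decide_eq_true_eq, beq_iff_eq, Bool.not_eq_true',
    beq_eq_false_iff_ne, ne_eq] at h
  obtain ⟨hq, ⟨⟨⟨⟨⟨⟨⟨⟨⟨za, zb⟩, zc⟩, zd⟩, gq⟩, ga⟩, gb⟩, gc⟩, gd⟩, hne⟩⟩ := h
  obtain ⟨a, ha⟩ := ags_crow h2 l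
  obtain ⟨a', ha'⟩ := ags_crow h2 l'
  obtain ⟨u, hu⟩ := ev_comb q w a x _ b ha
  obtain ⟨v, hv⟩ := ev_comb q w a y _ b ha
  obtain ⟨u', hu'⟩ := ev_comb q w a' x _ b ha'
  obtain ⟨v', hv'⟩ := ev_comb q w a' y _ b ha'
  have e1 := ags_exact hq za hu
  have e2 := ags_exact hq zb hv
  have e3 := ags_exact hq zc hu'
  have e4 := ags_exact hq zd hv'
  generalize (comb x (S.crow l)).headD 0 = A at *
  generalize (comb y (S.crow l)).headD 0 = B at *
  generalize (comb x (S.crow l')).headD 0 = C at *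
  generalize (comb y (S.crow l')).headD 0 = D at *
  have e : (A + q * u) * (D + q * v') = (B + q * v) * (C + q * u') := by
    have : (((A + q * u) * (D + q * v') : ℤ) : ℝ) = ((B + q * v) * (C + q * u') : ℤ) := by
      rw [Int.cast_mul, Int.cast_mul, ← e1, ← e2, ← e3, ← e4]
      ring
    exact_mod_cast this
  obtain ⟨q1, hq1⟩ := Int.dvd_of_emod_eq_zero gq
  obtain ⟨A1, hA⟩ := Int.dvd_of_emod_eq_zero ga
  obtain ⟨B1, hB⟩ := Int.dvd_of_emod_eq_zero gb
  obtain ⟨C1, hC⟩ := Int.dvd_of_emod_eq_zero gc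
  obtain ⟨D1, hD⟩ := Int.dvd_of_emod_eq_zero gd
  refine (hne (Int.emod_eq_zero_of_dvd
    ⟨v * C1 + B1 * u' - u * D1 - A1 * v' + q1 * (v * u' - u * v'), ?_⟩)).elim
  linear_combination e + (q * v : ℤ) * hC + (q * u' : ℤ) * hB - (q * u : ℤ) * hD -
    (q * v' : ℤ) * hA + (q * (v * u' - u * v') : ℤ) * hq1

theorem ags_comb (q : ℕ) (w : ℕ → ℝ) (a : List ℤ) (σ : List (List ℤ)) :
    ev q w (comb a σ) = dot a fun i => ev q w (σ.getD i []) := by
  induction a generalizing σ with
  | nil => simp [comb, ev]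
  | cons x a ih =>
    cases σ with
    | nil =>
      have e : comb a [] = [] := by cases a <;> rfl
      have h := ih []
      rw [e] at h
      simp only [List.getD_nil] at h ⊢
      rw [dot_cons, ← h]
      simp [comb, ev]
    | cons r σ =>
      rw [comb, ev_ladd, ev_lsmul, ih, dot_cons]
      rfl

theorem ags_subst (q : ℕ) (w : ℕ → ℝ) (σ : List (List ℤ)) (a : List ℤ) :
    ev q w (subst σ a) = ev q (fun i => ev q w (σ.getD i [])) a := by
  rw [subst, ev_ladd, ags_comb, ev_eq q _ a]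
  simp [ev]

theorem ags_rowSub {q : ℕ} {σ r s : List (List ℤ)} {n : ℕ} (h : rowSub q σ r s n = true) :
    ∀ k < n, phEq q (r.getD k []) (subst σ (s.getD k [])) = true := by
  induction n with
  | zero => exact fun k hk => absurd hk (Nat.not_lt_zero k)
  | succ n ih =>
    simp only [rowSub, Bool.and_eq_true] at h
    intro k hk
    rcases Nat.lt_succ_iff_lt_or_eq.1 hk with hk | rfl
    exacts [ih h.2 k hk, h.1]

theorem ags_tabSub {q : ℕ} {S : St} {σ : List (List ℤ)} {es : List (List (ℕ × ℤ))}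
    {l : List (List (List ℤ))} (h : tabSub q S σ es l = true) (i : ℕ) : l.getD i [] = [] ∨ ∃ e,
      rowSub q σ (S.crow e) (l.getD i []) S.n = true ∧ (l.getD i []).length ≤ S.n := by
  induction l generalizing es i with
  | nil => exact .inl rfl
  | cons s l ih =>
    cases es with
    | nil => simp [tabSub] at h
    | cons e es =>
      simp only [tabSub, Bool.and_eq_true, decide_eq_true_eq] at h
      cases i with
      | zero => exact .inr ⟨e, h.1.1, h.1.2⟩
      | succ i => exact ih h.2 i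

theorem stGEN : St_GEN := by
  rintro q S H es σ h hH T hT ⟨o, b, α, w, h0, h1, h2⟩
  simp only [genOK, ptEq, Bool.and_eq_true, decide_eq_true_eq, beq_iff_eq] at h
  obtain ⟨⟨⟨⟨⟨⟨⟨hq, hn⟩, p0⟩, p1⟩, p2⟩, p3⟩, p4⟩, ht⟩ := h
  have key : ∀ i, ∃ a : ℝ, ∀ k, ∃ m : ℤ,
      a * b k = ev q (fun i => ev q w (σ.getD i [])) ((H.row i).getD k []) + m := fun i => by
    rcases ags_tabSub ht i with e | ⟨e, e1, e2⟩
    · exact ⟨0, fun k => ⟨0, by simp [St.row, e, ev, -List.getD_eq_getElem?_getD]⟩⟩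
    obtain ⟨a, ha⟩ := ags_crow h2 e
    refine ⟨a, fun k => ?_⟩
    rcases lt_or_ge k S.n with hk | hk
    · obtain ⟨m, hm⟩ := ha k
      obtain ⟨m', hm'⟩ := phEq_spec hq (ags_rowSub e1 k hk) w
      rw [ags_subst] at hm'
      refine ⟨m + m', ?_⟩
      rw [St.row]
      push_cast
      linear_combination hm + hm'
    · refine ⟨0, ?_⟩
      rw [h0 k hk, St.row, List.getD_eq_default _ _ (e2.trans hk)]
      simp [ev]
  choose a ha using key
  refine hH T hT ⟨o, b, a, _, hn ▸ h0, fun j => ?_, ha⟩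
  have : leq (S.pt j).1 (H.pt j).1 = true ∧ leq (S.pt j).2 (H.pt j).2 = true := by
    fin_cases j
    exacts [p0, p1, p2, p3, p4]
  rw [h1, dot_leq this.1, dot_leq this.2]

theorem ags_append {A : Type} (l : List (List A)) (r : List A) (c : ℕ) :
    (l ++ [r]).getD c [] = if c = l.length then r else l.getD c [] := by
  induction l generalizing c with
  | nil => cases c <;> simp
  | cons a l ih =>
    cases c with
    | zero => simp
    | succ c => simpa using ih c

theorem stCMB : St_CMB := by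
  rintro q S l hG T hT ⟨o, b, α, w, h0, h1, h2⟩
  obtain ⟨a, ha⟩ := ags_crow h2 l
  refine hG T hT ⟨o, b, fun c => if c = S.tab.length then a else α c, w, h0, h1, fun c k => ?_⟩
  rw [St.row, St.cmb, ags_append]
  beta_reduce
  split_ifs
  exacts [ha k, h2 c k]

theorem ags_rowScale (r : ℕ) (l : List (List ℤ)) (k : ℕ) :
    (rowScale r l).getD k [] = phScale r (l.getD k []) := by
  induction l generalizing k with
  | nil => rfl
  | cons a l ih =>
    cases k with
    | zero => rfl
    | succ k => exact ih k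

theorem ags_tabScale (r : ℕ) (l : List (List (List ℤ))) (c : ℕ) :
    (tabScale r l).getD c [] = rowScale r (l.getD c []) := by
  induction l generalizing c with
  | nil => rfl
  | cons a l ih =>
    cases c with
    | zero => rfl
    | succ c => exact ih c

theorem ags_phScale (q : ℕ) {r : ℕ} (hr : 0 < r) (w : ℕ → ℝ) (a : List ℤ) :
    ev (q * r) w (phScale r a) = ev q w a := by
  have h : (r : ℝ) ≠ 0 := by positivity
  cases a with
  | nil => rfl
  | cons x a =>
    simp only [phScale, ev]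
    push_cast
    rw [mul_div_mul_right _ _ h]

theorem stSCALE : St_SCALE := by
  rintro q r S hr hG T hT ⟨o, b, α, w, h0, h1, h2⟩
  refine hG T hT ⟨o, b, α, w, h0, h1, fun c k => ?_⟩
  rw [St.row, St.scale, ags_tabScale, ags_rowScale, ags_phScale q hr]
  exact h2 c k

end Pool.Agent.Lib.B5
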