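import Pool.Agent.Lib.B5.Basic

/-! Translation, renumbering, counting form and the reduction of collinear sets to a row. -/

set_option autoImplicit false

namespace Pool.Agent.Lib.B5

theorem stSHIFT : St_SHIFT := by
  rintro T o ⟨A, hA⟩
  refine ⟨fun g => {u | u + act g o ∈ A g}, fun z => ?_⟩
  have e : ∀ x : ℕ × Fin 5, z - act x.1 (o + T x.2) + act x.1 o = z - act x.1 (T x.2) := by
    intro x
    rw [act_add]
    abel
  simpa only [Set.mem_setOf_eq, e] using hA z

theorem stPERM : St_PERM := by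
  rintro T σ ⟨A, hA⟩
  refine ⟨A, fun z => ?_⟩
  obtain ⟨x, hx, hu⟩ := hA z
  refine ⟨(x.1, σ x.2), hx, fun y hy => ?_⟩
  have h := hu (y.1, σ.symm y.2) (by simpa using hy)
  rw [← h]
  simp

namespace COL

/-- the counting function of the orientation `g` -/
def pick (A B C D : Z2 → ℕ) : ℕ → Z2 → ℕ
  | 0 => A
  | 1 => B
  | 2 => C
  | 3 => D
  | _ => fun _ => 0

/-- the rotation that agrees with `act g` on the first axis -/
def rot : ℕ → ℕ
  | 1 => 1
  | 2 => 2
  | 3 => 3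
  | 5 => 1
  | 6 => 2
  | 7 => 3
  | _ => 0

theorem act_rot (g : ℕ) (t : ℤ) : act (rot g) (t, 0) = act g (t, 0) := by
  match g with
  | 0 => rfl
  | 1 => rfl
  | 2 => rfl
  | 3 => rfl
  | 4 => simp [act, rot]
  | 5 => simp [act, rot]
  | 6 => simp [act, rot]
  | 7 => simp [act, rot]
  | _ + 8 => rfl

/-- multiplication by the Gaussian integer `v` -/
def Phi (v : Z2) : Z2 →+ Z2 where
  toFun u := (u.1 * v.1 - u.2 * v.2, u.1 * v.2 + u.2 * v.1)
  map_zero' := by simp
  map_add' a b := by ext <;> simp <;> ring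

theorem phi_inj {v : Z2} (hv : v ≠ 0) : Function.Injective (Phi v) := by
  rw [injective_iff_map_eq_zero]
  rintro ⟨a, b⟩ h
  have h1 : a * v.1 - b * v.2 = 0 := congrArg Prod.fst h
  have h2 : a * v.2 + b * v.1 = 0 := congrArg Prod.snd h
  have hn : v.1 ^ 2 + v.2 ^ 2 ≠ 0 := by
    intro h0
    apply hv
    ext
    · show v.1 = 0
      nlinarith [sq_nonneg v.1, sq_nonneg v.2]
    · show v.2 = 0
      nlinarith [sq_nonneg v.1, sq_nonneg v.2]
  have ha : a * (v.1 ^ 2 + v.2 ^ 2) = 0 := by linear_combination v.1 * h1 + v.2 * h2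
  have hb : b * (v.1 ^ 2 + v.2 ^ 2) = 0 := by linear_combination v.1 * h2 - v.2 * h1
  rw [(mul_eq_zero.1 ha).resolve_right hn, (mul_eq_zero.1 hb).resolve_right hn]
  rfl

theorem phi_rot (v : Z2) (g : ℕ) (t : ℤ) : act (rot g) (t • v) = Phi v (act g (t, 0)) := by
  match g with
  | 0 => ext <;> simp [act, rot, Phi]
  | 1 => ext <;> simp [act, rot, Phi]
  | 2 => ext <;> simp [act, rot, Phi]
  | 3 => ext <;> simp [act, rot, Phi]
  | 4 => ext <;> simp [act, rot, Phi]
  | 5 => ext <;> simp [act, rot, Phi]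
  | 6 => ext <;> simp [act, rot, Phi]
  | 7 => ext <;> simp [act, rot, Phi]
  | _ + 8 => ext <;> simp [act, rot, Phi]

theorem rot_rot (g : ℕ) : rot (rot g) = rot g := by
  match g with
  | 0 => rfl
  | 1 => rfl
  | 2 => rfl
  | 3 => rfl
  | 4 => rfl
  | 5 => rfl
  | 6 => rfl
  | 7 => rfl
  | _ + 8 => rfl

theorem split {v : Z2} (hv : v ≠ 0) :
    ∃ u : Z2 → Z2, ∀ z w, u (z - Phi v w) = u z - w := by
  let rep : Z2 → Z2 := fun z => (QuotientAddGroup.mk z : Z2 ⧸ (Phi v).range).out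
  have h : ∀ z, ∃ u, Phi v u = z - rep z := fun z => by
    have h1 : (QuotientAddGroup.mk (rep z) : Z2 ⧸ (Phi v).range) = QuotientAddGroup.mk z :=
      QuotientAddGroup.out_eq' _
    have h2 := QuotientAddGroup.eq.1 h1
    rwa [neg_add_eq_sub] at h2
  choose u hu using h
  refine ⟨u, fun z w => phi_inj hv ?_⟩
  have h3 : rep (z - Phi v w) = rep z := by
    have : (QuotientAddGroup.mk (z - Phi v w) : Z2 ⧸ (Phi v).range) = QuotientAddGroup.mk z := by
      refine QuotientAddGroup.eq.2 ⟨w, ?_⟩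
      abel
    simp only [rep, this]
  rw [hu, h3, map_sub, hu]
  abel

end COL

open COL

theorem stCNT : St_CNT := by
  intro t A B C D h
  refine ⟨fun g => {u | pick A B C D g u ≠ 0}, fun z => ?_⟩
  let F : ℕ × Fin 5 → ℕ := fun x => pick A B C D x.1 (z - act x.1 (t x.2, 0))
  have hs : ∑ x ∈ Finset.range 4 ×ˢ Finset.univ, F x = 1 := by
    rw [Finset.sum_product, ← h z]
    simp only [Finset.sum_range_succ, Finset.sum_range_zero, zero_add, F, pick, act, neg_zero,
      Prod.mk_sub_mk, sub_eq_add_neg, Prod.neg_mk, neg_neg]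
  have hm : ∀ x, F x ≠ 0 → x ∈ Finset.range 4 ×ˢ (Finset.univ : Finset (Fin 5)) := by
    rintro ⟨g, j⟩ hx
    refine Finset.mem_product.2 ⟨Finset.mem_range.2 ?_, Finset.mem_univ _⟩
    match g with
    | 0 => simp
    | 1 => simp
    | 2 => simp
    | 3 => simp
    | _ + 4 => exact absurd rfl hx
  obtain ⟨x, -, hx⟩ := Finset.exists_ne_zero_of_sum_ne_zero (hs.trans_ne one_ne_zero)
  refine ⟨x, hx, fun y hy => ?_⟩
  by_contra hne
  have h1 : F y + F x ≤ 1 := by
    rw [← hs, ← Finset.sum_pair hne]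
    refine Finset.sum_le_sum_of_subset ?_
    intro a ha
    rcases Finset.mem_insert.1 ha with rfl | ha
    · exact hm _ hy
    · rw [Finset.mem_singleton.1 ha]
      exact hm _ hx
  have h2 : F y ≠ 0 := hy
  omega

theorem stCOL : St_COL := by
  rintro t o v hv ⟨A, hA⟩
  refine stSHIFT (fun j => t j • v) o ?_
  obtain ⟨u, hu⟩ := split hv
  refine ⟨fun g => {z | rot g = g ∧ ∃ g', rot g' = g ∧ u z ∈ A g'}, fun z => ?_⟩
  obtain ⟨x, hx, hq⟩ := hA (u z)
  refine ⟨(rot x.1, x.2), ⟨rot_rot _, x.1, rfl, ?_⟩, ?_⟩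
  · show u (z - act (rot x.1) (t x.2 • v)) ∈ _
    rw [phi_rot, hu]
    exact hx
  · rintro ⟨g, j⟩ ⟨-, g', hg', hy⟩
    have hg : rot g' = g := hg'
    subst hg
    have hy' : u (z - act (rot g') (t j • v)) ∈ A g' := hy
    rw [phi_rot, hu] at hy'
    rw [← hq (g', j) hy']

end Pool.Agent.Lib.B5
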