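import Pool.Agent.Lib.B5.Defs

/-! Five-blocks: from an exact cover of the grid to a tiling of the plane. -/

set_option autoImplicit false

open Set

namespace Pool.Agent.Lib.B5

namespace GEOM

def cell (c : Z2) : Set ℂ :=
  {p : ℂ | (c.1 : ℝ) ≤ p.re ∧ p.re ≤ (c.1 : ℝ) + 1 ∧ (c.2 : ℝ) ≤ p.im ∧ p.im ≤ (c.2 : ℝ) + 1}

lemma cell_unique {x : ℂ} (h1 : Irrational x.re) (h2 : Irrational x.im) {c d : Z2}
    (hc : x ∈ cell c) (hd : x ∈ cell d) : c = d := by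
  have key : ∀ {r : ℝ} {m : ℤ}, Irrational r → (m : ℝ) ≤ r → r ≤ m + 1 → ⌊r⌋ = m :=
    fun {r m} h a b => Int.floor_eq_iff.2 ⟨a, lt_of_le_of_ne b fun e =>
      h.ne_int (m + 1) (by push_cast; exact e)⟩
  exact Prod.ext ((key h1 hc.1 hc.2.1).symm.trans (key h1 hd.1 hd.2.1))
    ((key h2 hc.2.2.1 hc.2.2.2).symm.trans (key h2 hd.2.2.1 hd.2.2.2))

lemma exists_irr {U : Set ℂ} (hU : IsOpen U) (hn : U.Nonempty) :
    ∃ x ∈ U, Irrational x.re ∧ Irrational x.im := by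
  have hd : Dense (Complex.equivRealProdCLM ⁻¹' ({r | Irrational r} ×ˢ {r | Irrational r})) :=
    (dense_irrational.prod dense_irrational).preimage
      Complex.equivRealProdCLM.toHomeomorph.isOpenMap
  obtain ⟨x, h1, h2⟩ := hd.inter_open_nonempty U hU hn
  exact ⟨x, h1, h2.1, h2.2⟩

/-- the map of cells `σ` is induced by an isometry -/
def P (σ : Z2 → Z2) : Prop := ∃ ψ : ℂ ≃ᵢ ℂ, ∀ c x, ψ x ∈ cell c ↔ x ∈ cell (σ c)

lemma P_comp {σ τ ρ : Z2 → Z2} (h1 : P σ) (h2 : P τ) (e : ∀ c, ρ c = σ (τ c)) : P ρ := by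
  obtain ⟨a, ha⟩ := h1
  obtain ⟨b, hb⟩ := h2
  exact ⟨a.trans b, fun c x => by rw [IsometryEquiv.trans_apply, hb, ha, e]⟩

lemma P_id : P (fun c => c) := ⟨IsometryEquiv.refl ℂ, fun _ _ => Iff.rfl⟩

lemma P_add (a : Z2) : P (fun c => c + a) := by
  refine ⟨IsometryEquiv.addRight (⟨-(a.1 : ℝ), -(a.2 : ℝ)⟩ : ℂ), fun c x => ?_⟩
  simp only [IsometryEquiv.addRight_apply, cell, mem_ofPred_eq,
    Complex.add_re, Complex.add_im, Prod.fst_add, Prod.snd_add]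
  push_cast
  constructor <;> rintro ⟨_, _, _, _⟩ <;> refine ⟨?_, ?_, ?_, ?_⟩ <;> linarith

lemma P_flip : P (fun c => (c.1, -c.2)) := by
  refine ⟨⟨⟨fun x => ⟨x.re, 1 - x.im⟩, fun x => ⟨x.re, 1 - x.im⟩, fun x => ?_, fun x => ?_⟩,
    Isometry.of_dist_eq fun x y => ?_⟩, fun c x => ?_⟩
  · exact Complex.ext rfl (by simp)
  · exact Complex.ext rfl (by simp)
  · rw [Complex.dist_eq_re_im, Complex.dist_eq_re_im]
    exact congrArg Real.sqrt (by simp only [Equiv.coe_fn_mk]; ring)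
  · change ((c.1 : ℝ) ≤ x.re ∧ x.re ≤ (c.1 : ℝ) + 1 ∧ (c.2 : ℝ) ≤ 1 - x.im ∧
      1 - x.im ≤ (c.2 : ℝ) + 1) ↔ ((c.1 : ℝ) ≤ x.re ∧ x.re ≤ (c.1 : ℝ) + 1 ∧
      ((-c.2 : ℤ) : ℝ) ≤ x.im ∧ x.im ≤ ((-c.2 : ℤ) : ℝ) + 1)
    push_cast
    constructor <;> rintro ⟨_, _, _, _⟩ <;> refine ⟨?_, ?_, ?_, ?_⟩ <;> linarith

lemma P_swap : P (fun c => (c.2, c.1)) := by
  refine ⟨⟨⟨fun x => ⟨x.im, x.re⟩, fun x => ⟨x.im, x.re⟩, fun x => rfl, fun x => rfl⟩,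
    Isometry.of_dist_eq fun x y => ?_⟩, fun c x => ?_⟩
  · rw [Complex.dist_eq_re_im, Complex.dist_eq_re_im]
    exact congrArg Real.sqrt (by simp only [Equiv.coe_fn_mk]; ring)
  · change ((c.1 : ℝ) ≤ x.im ∧ x.im ≤ (c.1 : ℝ) + 1 ∧ (c.2 : ℝ) ≤ x.re ∧
      x.re ≤ (c.2 : ℝ) + 1) ↔ ((c.2 : ℝ) ≤ x.re ∧ x.re ≤ (c.2 : ℝ) + 1 ∧
      (c.1 : ℝ) ≤ x.im ∧ x.im ≤ (c.1 : ℝ) + 1)
    tauto

lemma P_act (g : ℕ) : P (act g) := by
  have h2 : P (act 2) := P_comp P_swap P_flip fun _ => rfl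
  have h3 : P (act 3) := P_comp P_flip P_swap fun _ => rfl
  have h5 : P (act 5) := P_comp h2 P_swap fun _ => rfl
  have h1 : P (act 1) := P_comp P_flip h5 fun _ => rfl
  have h7 : P (act 7) := P_comp P_swap h1 fun _ => rfl
  match g with
  | 0 => exact P_id
  | 1 => exact h1
  | 2 => exact h2
  | 3 => exact h3
  | 4 => exact P_flip
  | 5 => exact h5
  | 6 => exact P_swap
  | 7 => exact h7
  | _ + 8 => exact P_id

lemma exists_iso (g : ℕ) (a : Z2) (S : Finset Z2) :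
    ∃ φ : ℂ ≃ᵢ ℂ, ∀ x, x ∈ φ '' (⋃ c ∈ S, cell c) ↔ ∃ c ∈ S, x ∈ cell (act g c + a) := by
  obtain ⟨ψ, h⟩ : P (fun c => act g c + a) := P_comp (P_add a) (P_act g) fun _ => rfl
  refine ⟨ψ.symm, fun x => ?_⟩
  rw [IsometryEquiv.image_symm]
  simp only [mem_preimage, mem_iUnion, exists_prop, h]

end GEOM

open GEOM in
theorem stGEOM : St_GEOM := by
  rintro S T hS ⟨A, hA⟩
  choose φ hφ using fun g a => exists_iso g a S
  refine ⟨{t | ∃ g a, a ∈ A g ∧ t = φ g a '' (⋃ c ∈ S, cell c)}, ?_, ?_, ?_⟩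
  · rintro t ⟨g, a, -, rfl⟩
    exact ⟨_, rfl⟩
  · refine eq_univ_of_forall fun x => ?_
    have hx : x ∈ cell (⌊x.re⌋, ⌊x.im⌋) := ⟨Int.floor_le _, (Int.lt_floor_add_one _).le,
      Int.floor_le _, (Int.lt_floor_add_one _).le⟩
    generalize (⌊x.re⌋, ⌊x.im⌋) = z at hx
    obtain ⟨⟨g, j⟩, h, -⟩ := hA z
    exact ⟨_, ⟨g, _, h, rfl⟩, (hφ ..).2 ⟨T j, (hS _).2 ⟨j, rfl⟩, by simpa using hx⟩⟩
  · rintro s ⟨g, a, ha, rfl⟩ t ⟨g', b, hb, rfl⟩ hne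
    rw [Set.disjoint_iff_inter_eq_empty]
    by_contra hn
    obtain ⟨x, ⟨x1, x2⟩, i1, i2⟩ := exists_irr (isOpen_interior.inter isOpen_interior)
      (nonempty_iff_ne_empty.2 hn)
    obtain ⟨c, hc, y1⟩ := (hφ ..).1 (interior_subset x1)
    obtain ⟨d, hd, y2⟩ := (hφ ..).1 (interior_subset x2)
    obtain ⟨i, rfl⟩ := (hS _).1 hc
    obtain ⟨j, rfl⟩ := (hS _).1 hd
    have e := cell_unique i1 i2 y1 y2
    have u : ((g, i) : ℕ × Fin 5) = (g', j) := (hA (act g (T i) + a)).unique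
      (by simpa using ha) (by rw [e]; simpa using hb)
    obtain ⟨rfl, rfl⟩ := Prod.mk.inj u
    exact hne (by rw [add_left_cancel e])

end Pool.Agent.Lib.B5
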