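import Pool.Agent.Lib.B5.Defs

/-! Tower certificates give exact covers (digit map is a bijection). -/

set_option autoImplicit false

namespace Pool.Agent.Lib.B5

theorem kel_unique {ι : Type} [Fintype ι] (r : ℕ) (p : Fin r → ℕ) (hp : ∀ l, 0 < p l)
    (hc : Fintype.card ι = ∏ l, p l) (f : ι → Fin r → ℝ)
    (hf : ∀ x y : ι, x ≠ y → ∃ l, ∃ k : ℤ, ¬ ((p l : ℤ) ∣ k) ∧ f y l = f x l + k) :
    ∃! x : ι, ∀ l, (p l : ℤ) ∣ ⌊f x l⌋ := by
  classical
  have : ∀ l, NeZero (p l) := fun l => ⟨(hp l).ne'⟩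
  let d : ι → (l : Fin r) → ZMod (p l) := fun x l => ((⌊f x l⌋ : ℤ) : ZMod (p l))
  have hinj : Function.Injective d := by
    intro x y hxy
    by_contra hne
    obtain ⟨l, k, hk, hl⟩ := hf x y hne
    have h1 : ((⌊f x l⌋ : ℤ) : ZMod (p l)) = ((⌊f y l⌋ : ℤ) : ZMod (p l)) := congrFun hxy l
    rw [hl, Int.floor_add_intCast, Int.cast_add] at h1
    have h2 : ((k : ℤ) : ZMod (p l)) = 0 := by
      have := add_left_cancel (a := ((⌊f x l⌋ : ℤ) : ZMod (p l))) (b := 0)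
        (c := ((k : ℤ) : ZMod (p l))) (by rw [add_zero]; exact h1)
      exact this.symm
    exact hk ((ZMod.intCast_zmod_eq_zero_iff_dvd k (p l)).1 h2)
  have hbij : Function.Bijective d := by
    refine (Fintype.bijective_iff_injective_and_card d).2 ⟨hinj, ?_⟩
    rw [hc, Fintype.card_pi]
    exact Finset.prod_congr rfl fun l _ => (ZMod.card (p l)).symm
  obtain ⟨x, hx⟩ := hbij.2 (fun _ => 0)
  refine ⟨x, fun l => (ZMod.intCast_zmod_eq_zero_iff_dvd _ (p l)).1 (congrFun hx l), ?_⟩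
  intro y hy
  apply hinj
  rw [hx]
  funext l
  exact (ZMod.intCast_zmod_eq_zero_iff_dvd _ (p l)).2 (hy l)

theorem stKEL : St_KEL := by
  intro T m r p a b g θ hp hc hsep
  refine ⟨fun g0 => {z | ∃ i, g i = g0 ∧
    ∀ l, (p l : ℤ) ∣ ⌊(p l : ℝ) * ((a l * z.1 + b l * z.2) - θ i l)⌋}, fun z => ?_⟩
  let f : Fin m × Fin 5 → Fin r → ℝ := fun x l =>
    (p l : ℝ) * ((a l * ((z - act (g x.1) (T x.2)).1 : ℤ) +
      b l * ((z - act (g x.1) (T x.2)).2 : ℤ)) - θ x.1 l)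
  obtain ⟨x, hx, hu⟩ := kel_unique (ι := Fin m × Fin 5) r p hp
    (by rw [Fintype.card_prod, Fintype.card_fin, Fintype.card_fin, ← hc, mul_comm]) f
    (fun x y hxy => by
      obtain ⟨l, k, hk, hl⟩ := hsep x y hxy
      refine ⟨l, k, hk, ?_⟩
      simp only [f, Prod.fst_sub, Prod.snd_sub, Int.cast_sub]
      linear_combination hl)
  refine ⟨(g x.1, x.2), ⟨x.1, rfl, hx⟩, ?_⟩
  rintro ⟨g0, j⟩ ⟨i, hi, h⟩
  subst hi
  have e : (i, j) = x := hu (i, j) h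
  rw [← e]

end Pool.Agent.Lib.B5
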