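import Pool.Agent.Lib.B5.Basic

/-! Soundness of the tower certificates. -/

set_option autoImplicit false

namespace Pool.Agent.Lib.B5

namespace LEAF

abbrev Lv : Type := ℕ × List (ℕ × ℤ × ℤ)

def la (α : ℕ → ℝ) : List (ℕ × ℤ × ℤ) → ℝ
  | [] => 0
  | t :: ts => α t.1 * t.2.1 + la α ts

def lb (α : ℕ → ℝ) : List (ℕ × ℤ × ℤ) → ℝ
  | [] => 0
  | t :: ts => α t.1 * t.2.2 + lb α ts

theorem lvPh_ev {q : ℕ} {S : St} {b : ℕ → ℤ} {α w : ℕ → ℝ}
    (h : ∀ c k, ∃ m : ℤ, α c * b k = ev q w ((S.row c).getD k []) + m) (z : List ℤ × List ℤ) :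
    ∀ ts, ∃ m : ℤ, la α ts * ((dot z.1 b : ℤ) : ℝ) + lb α ts * ((dot z.2 b : ℤ) : ℝ) =
      ev q w (lvPh S z ts) + m
  | [] => ⟨0, by simp [la, lb, lvPh, ev]⟩
  | t :: ts => by
    obtain ⟨m, hm⟩ := lvPh_ev h z ts
    obtain ⟨m', hm'⟩ := ev_comb q w (α t.1) (ladd (lsmul t.2.1 z.1) (lsmul t.2.2 z.2)) (S.row t.1) b
      (h t.1)
    refine ⟨m + m', ?_⟩
    rw [dot_ladd, dot_lsmul, dot_lsmul] at hm'
    rw [lvPh, ev_ladd, la, lb]
    push_cast at hm' ⊢
    linarith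

theorem cellPh_getD (S : St) (z : List ℤ × List ℤ) : ∀ (ls : List Lv) (os : List (List ℤ)) (l : ℕ),
    l < ls.length → (cellPh S z ls os).getD l [] =
      ladd (os.getD l []) (lvPh S z (ls.getD l (0, [])).2)
  | [], _, _, h => absurd h (by simp)
  | x :: ls, os, 0, _ => by cases os <;> rfl
  | x :: ls, os, l + 1, h => by
    have := cellPh_getD S z ls os.tail l (by simpa using h)
    rw [cellPh, List.getD_cons_succ, this, List.getD_cons_succ]
    cases os <;> rfl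

theorem sepAny_ex {q : ℕ} : ∀ (ls : List Lv) (as bs : List (List ℤ)), sepAny q ls as bs = true →
    ∃ l < ls.length, sepAt q (ls.getD l (0, [])).1 (as.getD l []) (bs.getD l []) = true
  | [], _, _, h => by simp [sepAny] at h
  | _ :: _, [], _, h => by simp [sepAny] at h
  | _ :: _, _ :: _, [], h => by simp [sepAny] at h
  | x :: ls, a :: as, b :: bs, h => by
    rw [sepAny, Bool.or_eq_true] at h
    rcases h with h | h
    · exact ⟨0, by simp, h⟩
    · obtain ⟨l, h1, h2⟩ := sepAny_ex ls as bs h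
      exact ⟨l + 1, by simpa using h1, h2⟩

theorem sepAt_ev {q p : ℕ} (hq : 0 < q) (w : ℕ → ℝ) {a b : List ℤ} (h : sepAt q p a b = true) :
    ∃ k : ℤ, ¬((p : ℤ) ∣ k) ∧ (p : ℝ) * (ev q w a - ev q w b) = k := by
  simp only [sepAt, Bool.and_eq_true, beq_iff_eq, Bool.not_eq_true', beq_eq_false_iff_ne] at h
  obtain ⟨⟨h1, h2⟩, h3⟩ := h
  obtain ⟨k, hk⟩ := Int.dvd_of_emod_eq_zero h1
  have hq' : (q : ℤ) ≠ 0 := by exact_mod_cast hq.ne'
  have hq2 : (q : ℝ) ≠ 0 := by exact_mod_cast hq.ne'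
  rw [hk, Int.mul_ediv_cancel_left _ hq'] at h2
  refine ⟨k, fun hd => h2 (Int.emod_eq_zero_of_dvd hd), ?_⟩
  have h4 : (p : ℝ) * ((a.headD 0 : ℤ) - (b.headD 0 : ℤ)) = q * k := by exact_mod_cast hk
  rw [ev_eq, ev_eq, dot_leq h3]
  field_simp
  linarith

theorem sepAll_all {q : ℕ} {lv : List Lv} {c : List (List ℤ)} :
    ∀ ds, sepAll q lv c ds = true → ∀ d ∈ ds, sepAny q lv c d = true
  | [], _ => by simp
  | d :: ds, h => by
    rw [sepAll, Bool.and_eq_true] at h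
    exact List.forall_mem_cons.2 ⟨h.1, sepAll_all ds h.2⟩

theorem allPairs_pw {q : ℕ} {lv : List Lv} : ∀ cs, allPairs q lv cs = true →
    cs.Pairwise fun c d => sepAny q lv c d = true
  | [], _ => List.Pairwise.nil
  | c :: cs, h => by
    rw [allPairs, Bool.and_eq_true] at h
    exact List.Pairwise.cons (sepAll_all cs h.1) (allPairs_pw cs h.2)

theorem cells_length (S : St) (lv : List Lv) : ∀ tl, (cells S lv tl).length = 5 * tl.length
  | [] => rfl
  | t :: ts => by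
    simp only [cells, List.length_cons, cells_length S lv ts]
    ring

theorem cells_getD (S : St) (lv : List Lv) : ∀ (tl : List (ℕ × List (List ℤ))) (i j : ℕ),
    i < tl.length → j < 5 → (cells S lv tl).getD (5 * i + j) [] =
      cellPh S (actL (tl.getD i (0, [])).1 (S.pt j)) lv (tl.getD i (0, [])).2
  | [], _, _, h, _ => absurd h (by simp)
  | t :: ts, 0, j, _, hj => by interval_cases j <;> rfl
  | t :: ts, i + 1, j, h, hj => by
    rw [show 5 * (i + 1) + j = 5 * i + j + 1 + 1 + 1 + 1 + 1 by ring, List.getD_cons_succ,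
      ← cells_getD S lv ts i j (by simpa using h) hj]
    rfl

theorem prod_eq : ∀ ls : List Lv, ∏ l : Fin ls.length, (ls.getD l (0, [])).1 = prodP ls
  | [] => rfl
  | x :: ls => by
    rw [prodP, ← prod_eq ls]
    exact Fin.prod_univ_succ _

end LEAF

open LEAF in
theorem stLEAF (hK : St_KEL) (hS : St_SHIFT) : St_LEAF := by
  rintro q S C hc T - ⟨o, b, α, w, -, hT, h⟩
  simp only [chkCert, Bool.and_eq_true, decide_eq_true_eq, beq_iff_eq] at hc
  obtain ⟨⟨⟨hq, hp⟩, hm⟩, hpair⟩ := hc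
  rw [show T = fun j : Fin 5 => o + (dot (S.pt j).1 b, dot (S.pt j).2 b) from funext hT]
  refine hS (fun j : Fin 5 => (dot (S.pt j).1 b, dot (S.pt j).2 b)) o ?_
  rw [← prod_eq] at hp hm
  refine hK _ C.tl.length C.lv.length (fun l => (C.lv.getD l (0, [])).1)
    (fun l => la α (C.lv.getD l (0, [])).2) (fun l => lb α (C.lv.getD l (0, [])).2)
    (fun i => (C.tl.getD i (0, [])).1)
    (fun i l => ev q w ((C.tl.getD i (0, [])).2.getD l []))
    (fun l => Nat.pos_of_ne_zero (Finset.prod_ne_zero_iff.1 hp.ne' l (Finset.mem_univ _))) hm ?_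
  have pw := List.pairwise_iff_getElem.1 (allPairs_pw _ hpair)
  have key : ∀ x y : Fin C.tl.length × Fin 5, 5 * x.1.1 + x.2.1 < 5 * y.1.1 + y.2.1 →
      ∃ l : Fin C.lv.length, ∃ k : ℤ, ¬(((C.lv.getD l (0, [])).1 : ℤ) ∣ k) ∧
      ((C.lv.getD l (0, [])).1 : ℝ) * ((ev q w ((C.tl.getD x.1 (0, [])).2.getD l []) +
        (la α (C.lv.getD l (0, [])).2 *
          (act (C.tl.getD x.1 (0, [])).1 (dot (S.pt x.2).1 b, dot (S.pt x.2).2 b)).1 +
        lb α (C.lv.getD l (0, [])).2 *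
          (act (C.tl.getD x.1 (0, [])).1 (dot (S.pt x.2).1 b, dot (S.pt x.2).2 b)).2)) -
        (ev q w ((C.tl.getD y.1 (0, [])).2.getD l []) +
        (la α (C.lv.getD l (0, [])).2 *
          (act (C.tl.getD y.1 (0, [])).1 (dot (S.pt y.2).1 b, dot (S.pt y.2).2 b)).1 +
        lb α (C.lv.getD l (0, [])).2 *
          (act (C.tl.getD y.1 (0, [])).1 (dot (S.pt y.2).1 b, dot (S.pt y.2).2 b)).2))) = k := by
    intro x y hxy
    have hy : 5 * y.1.1 + y.2.1 < (cells S C.lv C.tl).length := by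
      rw [cells_length]
      have := y.1.2
      have := y.2.2
      omega
    have h1 := pw _ _ (hxy.trans hy) hy hxy
    rw [← List.getD_eq_getElem _ [], ← List.getD_eq_getElem _ [], cells_getD _ _ _ _ _ x.1.2 x.2.2,
      cells_getD _ _ _ _ _ y.1.2 y.2.2] at h1
    obtain ⟨l, hl, h2⟩ := sepAny_ex _ _ _ h1
    rw [cellPh_getD _ _ _ _ _ hl, cellPh_getD _ _ _ _ _ hl] at h2
    obtain ⟨k, h3, h4⟩ := sepAt_ev hq w h2
    obtain ⟨m, hm⟩ := lvPh_ev h (actL (C.tl.getD x.1 (0, [])).1 (S.pt x.2)) (C.lv.getD l (0, [])).2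
    obtain ⟨m', hm'⟩ := lvPh_ev h (actL (C.tl.getD y.1 (0, [])).1 (S.pt y.2)) (C.lv.getD l (0, [])).2
    refine ⟨⟨l, hl⟩, k + (C.lv.getD l (0, [])).1 * (m - m'), fun hd =>
      h3 ((dvd_add_left (dvd_mul_right _ _)).1 hd), ?_⟩
    rw [act_dot, act_dot]
    rw [ev_ladd, ev_ladd] at h4
    dsimp only
    rw [hm, hm']
    push_cast
    linarith
  intro x y hxy
  have hne : 5 * x.1.1 + x.2.1 ≠ 5 * y.1.1 + y.2.1 := fun e => hxy (by
    have := x.2.2
    have := y.2.2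
    exact Prod.ext (Fin.ext (by omega)) (Fin.ext (by omega)))
  rcases lt_or_gt_of_ne hne with h1 | h1
  · exact key x y h1
  · obtain ⟨l, k, h2, h3⟩ := key y x h1
    refine ⟨l, -k, fun hd => h2 (dvd_neg.1 hd), ?_⟩
    push_cast
    linarith

end Pool.Agent.Lib.B5
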