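import Pool.Agent.Lib.B5.Basic

/-! Case splits introducing a new real multiplier. -/

set_option autoImplicit false

namespace Pool.Agent.Lib.B5

theorem st2_dot_unit (i : ℕ) (w : ℕ → ℝ) : dot (unitPh i) w = w (i + 1) := by
  induction i generalizing w with
  | zero => simp [unitPh]
  | succ i ih => simp [unitPh, ih]

theorem st2_ev_unit (q i : ℕ) (w : ℕ → ℝ) : ev q w (unitPh i) = w i := by
  cases i with
  | zero => simp [unitPh, ev]
  | succ i => simp [unitPh, ev, st2_dot_unit]

theorem st2_newRow (q : ℕ) (a : List (Option ℤ)) (F : ℕ) (v w : ℕ → ℝ)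
    (h : ∀ k x, a.getD k none = some x → ∃ m : ℤ, v k = (x : ℝ) / q + m)
    (h' : ∀ k, a.length ≤ k → v k = 0) :
    ∃ w' : ℕ → ℝ, (∀ i < F, w' i = w i) ∧
      ∀ k, ∃ m : ℤ, v k = ev q w' ((newRow a F).getD k []) + m := by
  induction a generalizing F v w with
  | nil => exact ⟨w, fun _ _ => rfl, fun k => ⟨0, by simp [newRow, ev, h' k (Nat.zero_le k)]⟩⟩
  | cons y a ih =>
    have e1 : ∀ k x, a.getD k none = some x → ∃ m : ℤ, v (k + 1) = (x : ℝ) / q + m :=
      fun k x hk => h (k + 1) x hk
    have e2 : ∀ k, a.length ≤ k → v (k + 1) = 0 := fun k hk => h' (k + 1) (Nat.succ_le_succ hk)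
    cases y with
    | none =>
      obtain ⟨w', h1, h2⟩ := ih (F + 1) (fun k => v (k + 1)) (Function.update w F (v 0)) e1 e2
      refine ⟨w', fun i hi => ?_, fun k => ?_⟩
      · rw [h1 i (Nat.lt_succ_of_lt hi), Function.update_of_ne hi.ne]
      · cases k with
        | zero =>
          refine ⟨0, ?_⟩
          change v 0 = ev q w' (unitPh F) + ((0 : ℤ) : ℝ)
          rw [st2_ev_unit, h1 F (Nat.lt_succ_self F), Function.update_self]
          simp
        | succ k => exact h2 k
    | some x =>
      obtain ⟨w', h1, h2⟩ := ih F (fun k => v (k + 1)) w e1 e2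
      refine ⟨w', h1, fun k => ?_⟩
      cases k with
      | zero =>
        obtain ⟨m, hm⟩ := h 0 x rfl
        refine ⟨m, ?_⟩
        change v 0 = ev q w' [x] + (m : ℝ)
        rw [hm]
        simp [ev]
      | succ k => exact h2 k

theorem st2_rowShort {F : ℕ} {r : List (List ℤ)} (h : rowShort F r = true) (k : ℕ) :
    (r.getD k []).length ≤ F + 1 := by
  induction r generalizing k with
  | nil => exact Nat.zero_le _
  | cons a r ih =>
    simp only [rowShort, Bool.and_eq_true, decide_eq_true_eq] at h
    cases k with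
    | zero => exact h.1
    | succ k => exact ih h.2 k

theorem st2_tabShort {F : ℕ} {l : List (List (List ℤ))} (h : tabShort F l = true) (c k : ℕ) :
    ((l.getD c []).getD k []).length ≤ F + 1 := by
  induction l generalizing c with
  | nil => exact Nat.zero_le _
  | cons r l ih =>
    simp only [tabShort, Bool.and_eq_true] at h
    cases c with
    | zero => exact st2_rowShort h.1 k
    | succ c => exact ih h.2 c

theorem st2_getD_app {β : Type} (l : List (List β)) (x : List β) (c : ℕ) :
    (l ++ [x]).getD c [] = if c = l.length then x else l.getD c [] := by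
  induction l generalizing c with
  | nil =>
    cases c with
    | zero => rfl
    | succ c => simp
  | cons y l ih =>
    cases c with
    | zero => simp
    | succ c =>
      have := ih c
      simp only [List.cons_append, List.getD_cons_succ, List.length_cons, Nat.add_right_cancel_iff]
      exact this

theorem st2_add {q F : ℕ} {S : St} {T : Fin 5 → Z2} (hs : tabShort F S.tab = true)
    {o : Z2} {b : ℕ → ℤ} {α w : ℕ → ℝ} (h0 : ∀ k, S.n ≤ k → b k = 0)
    (h1 : ∀ j : Fin 5, T j = o + (dot (S.pt j).1 b, dot (S.pt j).2 b))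
    (h2 : ∀ c k, ∃ m : ℤ, α c * b k = ev q w ((S.row c).getD k []) + m)
    (β : ℝ) (a : List (Option ℤ)) (ha : a.length = S.n)
    (h : ∀ k x, a.getD k none = some x → ∃ m : ℤ, β * b k = (x : ℝ) / q + m) :
    (S.add F a).Holds q T := by
  obtain ⟨w', e1, e2⟩ := st2_newRow q a F (fun k => β * b k) w h fun k hk => by
    simp [h0 k (ha ▸ hk)]
  refine ⟨o, b, fun c => if c = S.tab.length then β else α c, w', h0, h1, fun c k => ?_⟩
  have e : (S.add F a).row c = if c = S.tab.length then newRow a F else S.row c :=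
    st2_getD_app S.tab _ c
  rw [e]
  beta_reduce
  split_ifs with hc
  · exact e2 k
  · obtain ⟨m, hm⟩ := h2 c k
    refine ⟨m, ?_⟩
    have hl := st2_tabShort hs c k
    rw [hm, ev_eq, ev_eq, dot_congr _ (w := w) (w' := w') fun i hi => (e1 i ?_).symm]
    rw [List.length_tail] at hi
    change i < ((S.tab.getD c []).getD k []).length - 1 at hi
    omega

theorem st2_zeroL (m : List Bool) (a : List ℤ) (b : ℕ → ℤ)
    (h : ∀ k, m.getD k false = true → b k = 0) : dot (zeroL m a) b = dot a b := by
  induction m generalizing a b with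
  | nil => cases a <;> rfl
  | cons x m ih =>
    cases a with
    | nil => cases x <;> rfl
    | cons y a =>
      have := ih a (fun i => b (i + 1)) fun k hk => h (k + 1) hk
      cases x with
      | false => simp only [zeroL, dot_cons, this]
      | true => simp [zeroL, this, h 0 rfl]

theorem st2_zeroCh (m : List Bool) (l : List (List ℤ × List ℤ)) (j : ℕ) :
    (zeroCh m l).getD j ([], []) =
      (zeroL m (l.getD j ([], [])).1, zeroL m (l.getD j ([], [])).2) := by
  induction l generalizing j with
  | nil =>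
    have : zeroL m [] = [] := by
      cases m with
      | nil => rfl
      | cons x m => cases x <;> rfl
    change ([], []) = (zeroL m [], zeroL m [])
    rw [this]
  | cons z l ih =>
    cases j with
    | zero => rfl
    | succ j => exact ih j

theorem st2_zero {q : ℕ} {S : St} {T : Fin 5 → Z2} (m : List Bool)
    {o : Z2} {b : ℕ → ℤ} {α w : ℕ → ℝ} (h0 : ∀ k, S.n ≤ k → b k = 0)
    (h1 : ∀ j : Fin 5, T j = o + (dot (S.pt j).1 b, dot (S.pt j).2 b))
    (h2 : ∀ c k, ∃ m : ℤ, α c * b k = ev q w ((S.row c).getD k []) + m)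
    (h : ∀ k, m.getD k false = true → b k = 0) : (S.zero m).Holds q T := by
  refine ⟨o, b, α, w, h0, fun j => ?_, h2⟩
  have e : (S.zero m).pt j = (zeroL m (S.pt j).1, zeroL m (S.pt j).2) := st2_zeroCh m S.ch j
  rw [e, h1]
  simp only [st2_zeroL _ _ _ h]

theorem st2_rep {β : Type} (x : β) (n k : ℕ) : (List.replicate n x).getD k x = x := by
  induction n generalizing k with
  | zero => rfl
  | succ n ih =>
    cases k with
    | zero => rfl
    | succ k => exact ih k

theorem st2_mask (n i k : ℕ) (h : (maskAt n i).getD k false = true) : k = i := by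
  induction n generalizing i k with
  | zero => simp [maskAt] at h
  | succ n ih =>
    cases i with
    | zero =>
      cases k with
      | zero => rfl
      | succ k =>
        change (List.replicate n false).getD k false = true at h
        rw [st2_rep] at h
        cases h
    | succ i =>
      cases k with
      | zero => simp [maskAt] at h
      | succ k => exact congrArg _ (ih i k h)

theorem st2_opt (s : ℤ) (n i k : ℕ) (x : ℤ) (h : (optAt s n i).getD k none = some x) :
    k = i ∧ x = s := by
  induction n generalizing i k with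
  | zero => simp [optAt] at h
  | succ n ih =>
    cases i with
    | zero =>
      cases k with
      | zero => exact ⟨rfl, (Option.some.inj h).symm⟩
      | succ k =>
        change (List.replicate n none).getD k none = some x at h
        rw [st2_rep] at h
        cases h
    | succ i =>
      cases k with
      | zero => simp [optAt] at h
      | succ k => exact ⟨congrArg _ (ih i k h).1, (ih i k h).2⟩

theorem st2_opt_len (s : ℤ) (n i : ℕ) : (optAt s n i).length = n := by
  induction n generalizing i with
  | zero => rfl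
  | succ n ih =>
    cases i with
    | zero => simp [optAt]
    | succ i => simp [optAt, ih]

theorem st2_div {q r : ℕ} (hq : 0 < q) (h : r ∣ q) :
    0 < r ∧ (((q / r : ℕ) : ℤ) : ℝ) / q = 1 / r := by
  obtain ⟨t, rfl⟩ := h
  have hr : 0 < r := Nat.pos_of_mul_pos_right hq
  have ht : 0 < t := Nat.pos_of_mul_pos_left hq
  refine ⟨hr, ?_⟩
  rw [Nat.mul_div_cancel_left _ hr]
  have h1 : (r : ℝ) ≠ 0 := by positivity
  have h2 : (t : ℝ) ≠ 0 := by positivity
  push_cast
  field_simp

theorem stFREE : St_FREE := by
  rintro q r i F S hq hr - hs hz hk T hT ⟨o, b, α, w, h0, h1, h2⟩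
  obtain ⟨hr0, e⟩ := st2_div hq hr
  by_cases hb : b i = 0
  · exact hz T hT (st2_zero _ h0 h1 h2 fun k hk => by rw [st2_mask _ _ _ hk, hb])
  refine hk T hT (st2_add hs h0 h1 h2 (1 / (r * b i)) _ (st2_opt_len _ _ _) fun k x hx => ?_)
  obtain ⟨rfl, rfl⟩ := st2_opt _ _ _ _ _ hx
  refine ⟨0, ?_⟩
  have h3 : (b k : ℝ) ≠ 0 := by exact_mod_cast hb
  have h4 : (r : ℝ) ≠ 0 := by positivity
  rw [e]
  push_cast
  field_simp
  simp

/-- the assignment with `r k * s` at the marked places -/
def st2A (s : ℤ) : List Bool → (ℕ → ℤ) → List (Option ℤ)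
  | [], _ => []
  | false :: m, r => none :: st2A s m (fun k => r (k + 1))
  | true :: m, r => some (r 0 * s) :: st2A s m (fun k => r (k + 1))

theorem st2A_len (s : ℤ) (m : List Bool) (r : ℕ → ℤ) : (st2A s m r).length = m.length := by
  induction m generalizing r with
  | nil => rfl
  | cons x m ih => cases x <;> simp [st2A, ih]

theorem st2A_get (s : ℤ) (m : List Bool) (r : ℕ → ℤ) (k : ℕ) (x : ℤ)
    (h : (st2A s m r).getD k none = some x) : m.getD k false = true ∧ x = r k * s := by
  induction m generalizing r k with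
  | nil => simp [st2A] at h
  | cons y m ih =>
    cases y with
    | false =>
      cases k with
      | zero => simp [st2A] at h
      | succ k => exact ih _ k h
    | true =>
      cases k with
      | zero => exact ⟨rfl, (Option.some.inj h).symm⟩
      | succ k => exact ih _ k h

theorem st2_consAll (x : Option ℤ) {a : List (Option ℤ)} {l : List (List (Option ℤ))}
    (h : a ∈ l) : x :: a ∈ consAll x l := by
  induction l with
  | nil => cases h
  | cons c l ih =>
    rcases List.mem_cons.1 h with rfl | h
    · exact List.mem_cons_self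
    · exact List.mem_cons_of_mem _ (ih h)

theorem st2_consUpTo (s : ℤ) {a : List (Option ℤ)} {l : List (List (Option ℤ))} (h : a ∈ l)
    {j i : ℕ} (hj : j < i) : some ((j : ℤ) * s) :: a ∈ consUpTo s l i := by
  induction i with
  | zero => exact absurd hj (Nat.not_lt_zero j)
  | succ i ih =>
    rcases Nat.lt_succ_iff_lt_or_eq.1 hj with hj | rfl
    · exact List.mem_append_left _ (ih hj)
    · exact List.mem_append_right _ (st2_consAll _ h)

theorem st2_allA (p : ℕ) (s : ℤ) (m : List Bool) (r : ℕ → ℤ) (h : ∀ k, 0 ≤ r k ∧ r k < p) :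
    st2A s m r ∈ allA p s m := by
  induction m generalizing r with
  | nil => exact List.mem_cons_self
  | cons x m ih =>
    have := ih (fun k => r (k + 1)) fun k => h (k + 1)
    cases x with
    | false => exact st2_consAll _ this
    | true =>
      obtain ⟨j, hj⟩ := Int.eq_ofNat_of_zero_le (h 0).1
      have h2 : j < p := by
        have := (h 0).2
        omega
      change some (r 0 * s) :: _ ∈ _
      rw [hj]
      exact st2_consUpTo s this h2

theorem st2_nzA (p : ℕ) (s : ℤ) (m : List Bool) (r : ℕ → ℤ) (h : ∀ k, 0 ≤ r k ∧ r k < p)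
    (i : ℕ) (hi : m.getD i false = true) (h1 : r i = 1)
    (h0 : ∀ k < i, m.getD k false = true → r k = 0) : st2A s m r ∈ nzA p s m := by
  induction m generalizing r i with
  | nil => simp at hi
  | cons x m ih =>
    cases i with
    | zero =>
      obtain rfl : x = true := hi
      refine List.mem_append_right _ ?_
      change some (r 0 * s) :: _ ∈ _
      rw [h1, one_mul]
      exact st2_consAll _ (st2_allA p s m _ fun k => h (k + 1))
    | succ i =>
      have := ih (fun k => r (k + 1)) (fun k => h (k + 1)) i hi h1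
        fun k hk => h0 (k + 1) (Nat.succ_lt_succ hk)
      cases x with
      | false => exact st2_consAll _ this
      | true =>
        refine List.mem_append_left _ ?_
        change some (r 0 * s) :: _ ∈ _
        rw [h0 0 (Nat.succ_pos i) rfl, zero_mul]
        exact st2_consAll _ this

theorem st2_addAll (S : St) (F : ℕ) {a : List (Option ℤ)} {l : List (List (Option ℤ))}
    (h : a ∈ l) : S.add F a ∈ addAll S F l := by
  induction l with
  | nil => cases h
  | cons c l ih =>
    rcases List.mem_cons.1 h with rfl | h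
    · exact List.mem_cons_self
    · exact List.mem_cons_of_mem _ (ih h)

theorem st2_divAll (r : ℕ) (e : List (List ℤ)) {a : List (Option ℤ)}
    {l : List (List (Option ℤ))} (h : a ∈ l) : divRow r a e ∈ divAll r e l := by
  induction l with
  | nil => cases h
  | cons c l ih =>
    rcases List.mem_cons.1 h with rfl | h
    · exact List.mem_cons_self
    · exact List.mem_cons_of_mem _ (ih h)

theorem st2_pow {p : ℕ} (hp : 1 < p) (P : ℕ → Prop) (b : ℕ → ℤ) (h : ∃ k, P k ∧ b k ≠ 0) :
    ∃ (e : ℕ) (c : ℕ → ℤ), (∀ k, P k → b k = (p : ℤ) ^ e * c k) ∧ ∃ k, P k ∧ ¬ (p : ℤ) ∣ c k := by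
  classical
  have hex : ∃ e : ℕ, ¬ ∀ k, P k → (p : ℤ) ^ (e + 1) ∣ b k := by
    obtain ⟨k, hk, hb⟩ := h
    refine ⟨(b k).natAbs, fun hh => ?_⟩
    have h1 := Int.natAbs_dvd_natAbs.2 (hh k hk)
    rw [Int.natAbs_pow, Int.natAbs_natCast] at h1
    have h2 := Nat.le_of_dvd (Int.natAbs_pos.2 hb) h1
    have h3 := Nat.lt_pow_self (n := (b k).natAbs + 1) hp
    omega
  have h1 : ∀ k, P k → (p : ℤ) ^ Nat.find hex ∣ b k := by
    cases he : Nat.find hex with
    | zero => simp
    | succ e => exact not_not.1 (Nat.find_min hex (he ▸ Nat.lt_succ_self e))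
  refine ⟨Nat.find hex, fun k => b k / (p : ℤ) ^ Nat.find hex,
    fun k hk => (Int.mul_ediv_cancel' (h1 k hk)).symm, ?_⟩
  by_contra hh
  refine Nat.find_spec hex fun k hk => ?_
  have h2 : (p : ℤ) ∣ b k / (p : ℤ) ^ Nat.find hex := by
    by_contra h3
    exact hh ⟨k, hk, h3⟩
  rw [← Int.mul_ediv_cancel' (h1 k hk), pow_succ]
  exact mul_dvd_mul_left _ h2

theorem stSTEP : St_STEP := by
  classical
  rintro q p F S m hp hq hr hm hs hz hk T hT ⟨o, b, α, w, h0, h1, h2⟩
  obtain ⟨hp0, e⟩ := st2_div hq hr
  by_cases hb : ∀ k, m.getD k false = true → b k = 0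
  · exact hz T hT (st2_zero _ h0 h1 h2 hb)
  obtain ⟨n, c, hc, hex⟩ := st2_pow hp.one_lt (fun k => m.getD k false = true) b (by
    by_contra hh
    exact hb fun k hk => not_not.1 fun h3 => hh ⟨k, hk, h3⟩)
  obtain ⟨hi, hn⟩ := Nat.find_spec hex
  have hpz : Prime (p : ℤ) := Nat.prime_iff_prime_int.1 hp
  obtain ⟨v, u, huv⟩ := (hpz.irreducible.coprime_iff_not_dvd).2 hn
  have hp1 : (1 : ℤ) < p := by exact_mod_cast hp.one_lt
  have hp2 : (0 : ℤ) < p := by omega
  refine hk _ (st2_addAll S F (st2_nzA p _ m (fun k => (u * c k) % p)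
    (fun k => ⟨Int.emod_nonneg _ hp2.ne', Int.emod_lt_of_pos _ hp2⟩) (Nat.find hex) hi ?_
    fun k hk hmk => ?_)) T hT (st2_add hs h0 h1 h2 (u / (p : ℝ) ^ (n + 1)) _
      ((st2A_len _ _ _).trans hm) fun k x hx => ?_)
  · have : u * c (Nat.find hex) = 1 + (p : ℤ) * (-v) := by linear_combination huv
    beta_reduce
    rw [this, Int.add_mul_emod_self_left, Int.emod_eq_of_lt zero_le_one hp1]
  · have : (p : ℤ) ∣ c k := not_not.1 fun h3 => Nat.find_min hex hk ⟨hmk, h3⟩
    exact Int.emod_eq_zero_of_dvd (this.mul_left u)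
  · obtain ⟨hmk, rfl⟩ := st2A_get _ _ _ _ _ hx
    refine ⟨u * c k / p, ?_⟩
    have h3 : (((u * c k) % p : ℤ) : ℝ) + p * ((u * c k / p : ℤ) : ℝ) = u * c k := by
      exact_mod_cast Int.emod_add_mul_ediv (u * c k) p
    have h4 : (p : ℝ) ≠ 0 := by positivity
    rw [hc k hmk, Int.cast_mul ((u * c k) % p), mul_div_assoc, e]
    push_cast at h3 ⊢
    field_simp
    linear_combination (-(p : ℝ) ^ (n + 1)) * h3

theorem st2_divRow_len (r : ℕ) (a : List (Option ℤ)) (e : List (List ℤ)) :
    (divRow r a e).length = a.length := by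
  induction a generalizing e with
  | nil => rfl
  | cons x a ih => cases x <;> simp [divRow, ih]

theorem st2_tail (e : List (List ℤ)) (k : ℕ) : e.tail.getD k [] = e.getD (k + 1) [] := by
  cases e <;> rfl

theorem st2_head (e : List (List ℤ)) : e.headD [] = e.getD 0 [] := by
  cases e <;> rfl

theorem st2_divRow (r : ℕ) (a : List (Option ℤ)) (e : List (List ℤ)) (k : ℕ) (x : ℤ)
    (h : (divRow r a e).getD k none = some x) :
    ∃ y, a.getD k none = some y ∧ x = (e.getD k []).headD 0 / r + y := by
  induction a generalizing e k with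
  | nil => simp [divRow] at h
  | cons y a ih =>
    cases y with
    | none =>
      cases k with
      | zero => simp [divRow] at h
      | succ k => exact st2_tail e k ▸ ih e.tail k h
    | some y =>
      cases k with
      | zero => exact ⟨y, rfl, st2_head e ▸ (Option.some.inj h).symm⟩
      | succ k => exact st2_tail e k ▸ ih e.tail k h

theorem st2_divOK (r : ℕ) (m : List Bool) (e : List (List ℤ)) (h : divOK r m e = true) (k : ℕ)
    (hk : m.getD k false = true) :
    lz (e.getD k []).tail = true ∧ (e.getD k []).headD 0 % r = 0 := by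
  induction m generalizing e k with
  | nil => simp at hk
  | cons x m ih =>
    cases x with
    | false =>
      cases k with
      | zero => simp at hk
      | succ k => exact st2_tail e k ▸ ih e.tail h k hk
    | true =>
      simp only [divOK, Bool.and_eq_true, beq_iff_eq] at h
      cases k with
      | zero => exact st2_head e ▸ h.1
      | succ k => exact st2_tail e k ▸ ih e.tail h.2 k hk

theorem stDIV : St_DIV := by
  rintro q c r F S m hq hr hm hs hd hk T hT ⟨o, b, α, w, h0, h1, h2⟩
  obtain ⟨hr0, e⟩ := st2_div hq hr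
  choose t ht using h2 c
  have hr2 : (0 : ℤ) < r := by exact_mod_cast hr0
  refine hk _ (st2_addAll S F (st2_divAll r _ (st2_allA r _ m (fun k => t k % r)
    fun k => ⟨Int.emod_nonneg _ hr2.ne', Int.emod_lt_of_pos _ hr2⟩))) T hT
    (st2_add hs h0 h1 h2 (α c / r) _
      ((st2_divRow_len _ _ _).trans ((st2A_len _ _ _).trans hm)) fun k x hx => ?_)
  obtain ⟨y, hy, rfl⟩ := st2_divRow _ _ _ _ _ hx
  obtain ⟨hmk, rfl⟩ := st2A_get _ _ _ _ _ hy
  obtain ⟨d1, d2⟩ := st2_divOK r m _ hd k hmk
  refine ⟨t k / r, ?_⟩
  have h3 := ht k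
  rw [ev_eq, dot_lz d1] at h3
  have h4 : ((t k % r : ℤ) : ℝ) + r * ((t k / r : ℤ) : ℝ) = t k := by
    exact_mod_cast Int.emod_add_mul_ediv (t k) r
  have h5 : (r : ℝ) * ((((S.row c).getD k []).headD 0 / r : ℤ) : ℝ) =
      ((((S.row c).getD k []).headD 0 : ℤ) : ℝ) := by
    exact_mod_cast Int.mul_ediv_cancel' (Int.dvd_of_emod_eq_zero d2)
  have h6 : (r : ℝ) ≠ 0 := by positivity
  have h7 : (q : ℝ) ≠ 0 := by positivity
  rw [Int.cast_add, add_div, Int.cast_mul (t k % r), mul_div_assoc, e, div_mul_eq_mul_div, h3,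
    ← h4, ← h5]
  field_simp
  ring

end Pool.Agent.Lib.B5
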