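import Pool.Agent.Lib.B5.TREE
import Pool.Agent.Lib.B5.ST1
import Pool.Agent.Lib.B5.ST2
import Pool.Agent.Lib.B5.LEAF
import Pool.Agent.Lib.B5.KEL
import Pool.Agent.Lib.B5.COL
import Pool.Agent.Lib.B5.GEOM

/-! Glue: closed trees, residue types of horizontal five-point sets. -/

set_option autoImplicit false

namespace Pool.Agent.Lib.B5

theorem goodTree (q : ℕ) (Hs : List St) (t : Tr) (S : St) (hH : ∀ H ∈ Hs, Good q H)
    (hc : t.chain = false) (h : chk q Hs t S [] = true) : Good q S :=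
  stTREE (stLEAF stKEL stSHIFT) stDEAD stHOLE (stRE stPERM) stSTEP stFREE stDIV q Hs t S hH hc h

/-- every horizontal set whose residues modulo five are an affine image of `f` is an exact cover -/
def TypeOK (f : Fin 5 → ℤ) : Prop :=
  ∀ (t : Fin 5 → ℤ) (u : ℤ), Function.Injective t → ¬ (5 : ℤ) ∣ u →
    (∀ j, (5 : ℤ) ∣ t j - t 0 - f j * u) → Cov (fun j => (t j, 0))

theorem inj_h {t : Fin 5 → ℤ} (h : Function.Injective t) :
    Function.Injective (fun j => ((t j, 0) : Z2)) := fun _ _ e => h (congrArg Prod.fst e)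

theorem holds_type (n : ℕ) (hn : 0 < n) (ch : List (List ℤ × List ℤ)) (T : Fin 5 → Z2) (o : Z2)
    (b0 b1 b2 b3 : ℤ) (h0 : ¬ (5 : ℤ) ∣ b0) (h1 : (5 : ℤ) ∣ b1) (h2 : (5 : ℤ) ∣ b2)
    (h3 : (5 : ℤ) ∣ b3)
    (hT : ∀ j : Fin 5, T j = o + (dot (ch.getD j ([], [])).1 (fun k => [b0, b1, b2, b3].getD k 0),
      dot (ch.getD j ([], [])).2 (fun k => [b0, b1, b2, b3].getD k 0))) :
    St.Holds (5 * n) ⟨4, ch, [[[(n : ℤ)], [0], [0], [0]]]⟩ T := by
  have hf : (5 : ℤ) ∣ b0 ^ 4 - 1 := by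
    have : b0 % 5 = 1 ∨ b0 % 5 = 2 ∨ b0 % 5 = 3 ∨ b0 % 5 = 4 := by omega
    rw [Int.dvd_iff_emod_eq_zero]
    rcases this with h | h | h | h <;> simp [Int.sub_emod, pow_succ, Int.mul_emod, h]
  obtain ⟨m0, e0⟩ := hf
  obtain ⟨m1, e1⟩ := h1
  obtain ⟨m2, e2⟩ := h2
  obtain ⟨m3, e3⟩ := h3
  have hn' : (n : ℝ) ≠ 0 := by exact_mod_cast hn.ne'
  refine ⟨o, fun k => [b0, b1, b2, b3].getD k 0,
    fun c => if c = 0 then (b0 : ℝ) ^ 3 / 5 else 0, fun _ => 0, ?_, hT, ?_⟩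
  · intro k hk
    obtain ⟨k, rfl⟩ : ∃ i, k = i + 4 := ⟨k - 4, by simp only at hk; omega⟩
    simp
  · intro c k
    match c, k with
    | 0, 0 =>
      refine ⟨m0, ?_⟩
      have : (b0 : ℝ) ^ 4 - 1 = 5 * m0 := by exact_mod_cast e0
      simp only [St.row, List.getD_cons_zero, ev, dot_nil, if_true]
      push_cast
      field_simp
      linear_combination this
    | 0, 1 => exact ⟨b0 ^ 3 * m1, by simp [St.row, ev, e1]; ring⟩
    | 0, 2 => exact ⟨b0 ^ 3 * m2, by simp [St.row, ev, e2]; ring⟩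
    | 0, 3 => exact ⟨b0 ^ 3 * m3, by simp [St.row, ev, e3]; ring⟩
    | 0, k + 4 => exact ⟨0, by simp [St.row, ev]⟩
    | c + 1, k => exact ⟨0, by simp [St.row, ev]⟩

theorem tiles_of_cov (t : Fin 5 → ℤ) (o v : Z2) (hv : v ≠ 0) (h : Cov (fun j => (t j, 0))) :
    Tiles (Finset.univ.image fun j => o + t j • v) :=
  stGEOM _ (fun j => o + t j • v) (fun c => by simp) (stCOL t o v hv h)

theorem cov_perm (t : Fin 5 → ℤ) (σ : Equiv.Perm (Fin 5)) (f : Fin 5 → ℤ) (hf : TypeOK f) (u : ℤ)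
    (ht : Function.Injective t) (hu : ¬ (5 : ℤ) ∣ u)
    (h : ∀ j, (5 : ℤ) ∣ t (σ j) - t (σ 0) - f j * u) : Cov (fun j => (t j, 0)) :=
  stPERM (fun j => (t j, 0)) σ (hf (fun j => t (σ j)) u (ht.comp σ.injective) hu h)

end Pool.Agent.Lib.B5
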