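import Pool.Agent.Lib.B5.BDefs
import Pool.Agent.Lib.B5.LEAF

/-! Soundness of the box certificates. -/

set_option autoImplicit false

namespace Pool.Agent.Lib.B5

namespace BLEAF

open LEAF

abbrev Ar : Type := List ℤ × List ℤ
abbrev Ce : Type := ℕ × List Ar
abbrev Tl : Type := ℕ × List ℤ × List Ar

def Rl (q : ℕ) (B : Bd) (c d : Ce) : Prop := c.1 ≠ d.1 ∨ sepArcs q B c.2 d.2 = true

theorem bsepAll_all {q : ℕ} {B : Bd} {c : Ce} :
    ∀ ds, bsepAll q B c ds = true → ∀ d ∈ ds, Rl q B c d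
  | [], _ => by simp
  | d :: ds, h => by
    rw [bsepAll, Bool.and_eq_true, Bool.or_eq_true] at h
    refine List.forall_mem_cons.2 ⟨h.1.imp_left fun h1 e => ?_, bsepAll_all ds h.2⟩
    rw [e, Nat.beq_refl] at h1
    exact absurd h1 (by simp)

theorem bpairs_pw {q : ℕ} {B : Bd} : ∀ cs, bpairs q B cs = true → cs.Pairwise (Rl q B)
  | [], _ => List.Pairwise.nil
  | c :: cs, h => by
    rw [bpairs, Bool.and_eq_true] at h
    exact List.Pairwise.cons (bsepAll_all cs h.1) (bpairs_pw cs h.2)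

theorem mem_half {r : ℕ} {d : Ce} : ∀ l : List Ce, d ∈ l → d.1 % 2 = r → (d.1 / 2, d.2) ∈ half r l
  | [], h, _ => absurd h (by simp)
  | c :: l, h, e => by
    rw [half]
    rcases List.mem_cons.1 h with rfl | h
    · rw [if_pos (e ▸ Nat.beq_refl _)]
      exact List.mem_cons_self
    · split
      · exact List.mem_cons_of_mem _ (mem_half l h e)
      · exact mem_half l h e

theorem half_head {q : ℕ} {B : Bd} {r : ℕ} {c : Ce} {l : List Ce} (e : c.1 % 2 = r)
    (h : (half r (c :: l)).Pairwise (Rl q B)) : ∀ d ∈ l, Rl q B c d := by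
  rw [half, if_pos (e ▸ Nat.beq_refl _), List.pairwise_cons] at h
  intro d hd
  by_cases e1 : d.1 % 2 = r
  · exact (h.1 _ (mem_half l hd e1)).imp_left fun h1 e2 => h1 (by rw [e2])
  · exact Or.inl fun e2 => e1 (e2 ▸ e)

theorem half_tail {q : ℕ} {B : Bd} {r : ℕ} {c : Ce} {l : List Ce}
    (h : (half r (c :: l)).Pairwise (Rl q B)) : (half r l).Pairwise (Rl q B) := by
  rw [half] at h
  split at h
  · exact (List.pairwise_cons.1 h).2
  · exact h

theorem half_pw {q : ℕ} {B : Bd} : ∀ l : List Ce, (half 0 l).Pairwise (Rl q B) →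
    (half 1 l).Pairwise (Rl q B) → l.Pairwise (Rl q B)
  | [], _, _ => List.Pairwise.nil
  | c :: l, h0, h1 => by
    refine List.Pairwise.cons ?_ (half_pw l (half_tail h0) (half_tail h1))
    rcases Nat.mod_two_eq_zero_or_one c.1 with e | e
    · exact half_head e h0
    · exact half_head e h1

theorem bk_pw {q : ℕ} {B : Bd} : ∀ (d : ℕ) (l : List Ce), bk q B d l = true → l.Pairwise (Rl q B)
  | 0, l, h => bpairs_pw l h
  | d + 1, l, h => by
    rw [bk, Bool.or_eq_true, Bool.and_eq_true] at h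
    rcases h with h | h
    · rw [List.isEmpty_iff.1 h]
      exact List.Pairwise.nil
    · exact half_pw l (bk_pw d _ h.1) (bk_pw d _ h.2)

theorem bcells_length (q : ℕ) (S : St) (C : BCert) : ∀ tl, (bcells q S C tl).length = 5 * tl.length
  | [] => rfl
  | t :: ts => by
    simp only [bcells, List.length_cons, bcells_length q S C ts]
    ring

theorem bcells_getD (q : ℕ) (S : St) (C : BCert) : ∀ (tl : List Tl) (i j : ℕ),
    i < tl.length → j < 5 → (bcells q S C tl).getD (5 * i + j) (0, []) =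
      bcell q S C (tl.getD i (0, [], [])) j
  | [], _, _, h, _ => absurd h (by simp)
  | t :: ts, 0, j, _, hj => by interval_cases j <;> rfl
  | t :: ts, i + 1, j, h, hj => by
    rw [show 5 * (i + 1) + j = 5 * i + j + 1 + 1 + 1 + 1 + 1 by ring, List.getD_cons_succ,
      ← bcells_getD q S C ts i j (by simpa using h) hj]
    rfl

/-- the digit of a cell at an exact level -/
def dg (q : ℕ) (S : St) (z : Ar) (x : Lv) (d : ℤ) : ℤ :=
  d + (lvPh S z x.2).headD 0 / ((q / x.1 : ℕ) : ℤ)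

theorem exKey_ne {q : ℕ} {S : St} {z z' : Ar} : ∀ (ls : List Lv) (ds ds' : List ℤ),
    exKey q S z ls ds ≠ exKey q S z' ls ds' → ∃ l < ls.length,
      dg q S z (ls.getD l (0, [])) (ds.getD l 0) % (ls.getD l (0, [])).1 ≠
        dg q S z' (ls.getD l (0, [])) (ds'.getD l 0) % (ls.getD l (0, [])).1
  | [], _, _, h => absurd rfl h
  | x :: ls, ds, ds', h => by
    by_cases e : exKey q S z ls ds.tail = exKey q S z' ls ds'.tail
    · refine ⟨0, by simp, fun e1 => h ?_⟩
      have h1 : ds.getD 0 0 = ds.headD 0 := by cases ds <;> rfl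
      have h2 : ds'.getD 0 0 = ds'.headD 0 := by cases ds' <;> rfl
      rw [List.getD_cons_zero, h1, h2, dg, dg] at e1
      rw [exKey, exKey, e, e1]
    · obtain ⟨l, h1, h2⟩ := exKey_ne ls _ _ e
      refine ⟨l + 1, by simpa using h1, ?_⟩
      have h3 : ds.getD (l + 1) 0 = ds.tail.getD l 0 := by cases ds <;> rfl
      have h4 : ds'.getD (l + 1) 0 = ds'.tail.getD l 0 := by cases ds' <;> rfl
      rw [List.getD_cons_succ, h3, h4]
      exact h2

theorem exOK_at {q : ℕ} {S : St} {z : Ar} : ∀ (ls : List Lv) (l : ℕ), exOK q S z ls = true →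
    l < ls.length → lz (lvPh S z (ls.getD l (0, [])).2).tail = true ∧
      (lvPh S z (ls.getD l (0, [])).2).headD 0 % ((q / (ls.getD l (0, [])).1 : ℕ) : ℤ) = 0
  | [], _, _, h => absurd h (by simp)
  | x :: ls, l, h, hl => by
    simp only [exOK, Bool.and_eq_true, beq_iff_eq] at h
    cases l with
    | zero => exact h.1
    | succ l => exact exOK_at ls l h.2 (by simpa using hl)

theorem exDiv_at {q : ℕ} : ∀ (ls : List Lv) (l : ℕ), exDiv q ls = true → l < ls.length →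
    0 < (ls.getD l (0, [])).1 ∧ (ls.getD l (0, [])).1 ∣ q
  | [], _, _, h => absurd h (by simp)
  | x :: ls, l, h, hl => by
    simp only [exDiv, Bool.and_eq_true, beq_iff_eq, decide_eq_true_eq] at h
    cases l with
    | zero => exact ⟨h.1.1, Nat.dvd_of_mod_eq_zero h.1.2⟩
    | succ l => exact exDiv_at ls l h.2 (by simpa using hl)

theorem dg_ev {q : ℕ} (hq : 0 < q) (w : ℕ → ℝ) {S : St} {z : Ar} {x : Lv} (d : ℤ) (hp : 0 < x.1)
    (hd : x.1 ∣ q) (h1 : lz (lvPh S z x.2).tail = true)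
    (h2 : (lvPh S z x.2).headD 0 % ((q / x.1 : ℕ) : ℤ) = 0) :
    (d : ℝ) / x.1 + ev q w (lvPh S z x.2) = (dg q S z x d : ℝ) / x.1 := by
  obtain ⟨r, hr⟩ := hd
  have e : q / x.1 = r := by rw [hr, Nat.mul_div_cancel_left _ hp]
  have hr0 : r ≠ 0 := by
    rintro rfl
    omega
  obtain ⟨k, hk⟩ := Int.dvd_of_emod_eq_zero h2
  have hr1 : (r : ℤ) ≠ 0 := by exact_mod_cast hr0
  have hr2 : (r : ℝ) ≠ 0 := by exact_mod_cast hr0
  have hp2 : (x.1 : ℝ) ≠ 0 := by exact_mod_cast hp.ne'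
  rw [ev_eq, dot_lz h1, dg, hk, e, Int.mul_ediv_cancel_left _ hr1, hr]
  push_cast
  field_simp
  ring

theorem dg_sep {p : ℕ} (hp : 0 < p) {u v : ℤ} (h : u % p ≠ v % p) :
    ∃ k : ℤ, (u : ℝ) / p + 1 / p ≤ (v : ℝ) / p + k ∧ (v : ℝ) / p + k + 1 / p ≤ (u : ℝ) / p + 1 := by
  have hp1 : (0 : ℤ) < p := by exact_mod_cast hp
  have hp2 : (0 : ℝ) < p := by exact_mod_cast hp
  have h0 : (v - u) % p ≠ 0 := fun e => h (Int.emod_eq_emod_iff_emod_sub_eq_zero.2 e).symm
  have h1 := Int.emod_nonneg (v - u) hp1.ne'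
  have h2 := Int.emod_lt_of_pos (v - u) hp1
  have h3 := Int.emod_add_mul_ediv (v - u) p
  have h4 : u + 1 ≤ v + (-((v - u) / p)) * p := by linarith [lt_of_le_of_ne h1 h0.symm]
  have h5 : v + (-((v - u) / p)) * p + 1 ≤ u + p := by linarith
  refine ⟨-((v - u) / p), ?_, ?_⟩
  · have h6 : (u : ℝ) + 1 ≤ v + ((-((v - u) / p) : ℤ) : ℝ) * p := by exact_mod_cast h4
    rw [← add_div, div_le_iff₀ hp2, add_mul, div_mul_cancel₀ _ hp2.ne']
    exact h6
  · have h6 : (v : ℝ) + ((-((v - u) / p) : ℤ) : ℝ) * p + 1 ≤ u + p := by exact_mod_cast h5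
    have e : (v : ℝ) / p + ((-((v - u) / p) : ℤ) : ℝ) + 1 / p =
        (v + ((-((v - u) / p) : ℤ) : ℝ) * p + 1) / p := by field_simp
    rw [e, div_le_iff₀ hp2, add_mul, div_mul_cancel₀ _ hp2.ne', one_mul]
    exact h6

/-- the arc of a cell at an arc level -/
def arc (S : St) (z : Ar) (x : List (ℕ × ℤ × ℤ)) (o : Ar) : Ar :=
  (ladd o.1 (lvPh S z x), lsmul (-1) (ladd (ladd o.1 (lvPh S z x)) o.2))

theorem sepArcs_ex {q : ℕ} {B : Bd} {S : St} {z z' : Ar} :
    ∀ (ls : List (List (ℕ × ℤ × ℤ))) (os os' : List Ar),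
      sepArcs q B (arcs S z ls os) (arcs S z' ls os') = true → ∃ l < ls.length,
        sepArc q B (arc S z (ls.getD l []) (os.getD l ([], [])))
          (arc S z' (ls.getD l []) (os'.getD l ([], []))) = true
  | [], _, _, h => by simp [arcs, sepArcs] at h
  | x :: ls, os, os', h => by
    rw [arcs, arcs, sepArcs, Bool.or_eq_true] at h
    rcases h with h | h
    · refine ⟨0, by simp, ?_⟩
      have h1 : os.getD 0 ([], []) = os.headD ([], []) := by cases os <;> rfl
      have h2 : os'.getD 0 ([], []) = os'.headD ([], []) := by cases os' <;> rfl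
      rw [List.getD_cons_zero, h1, h2]
      exact h
    · obtain ⟨l, h1, h2⟩ := sepArcs_ex ls _ _ h
      refine ⟨l + 1, by simpa using h1, ?_⟩
      have h3 : os.getD (l + 1) ([], []) = os.tail.getD l ([], []) := by cases os <;> rfl
      have h4 : os'.getD (l + 1) ([], []) = os'.tail.getD l ([], []) := by cases os' <;> rfl
      rw [List.getD_cons_succ, h3, h4]
      exact h2

theorem sepArc_ev (hL : St_LOW) {q : ℕ} (hq : 0 < q) {w : ℕ → ℝ} {B : Bd} (hw : BdOK q w B)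
    {a b : Ar} (h : sepArc q B a b = true) :
    ∃ k : ℤ, -ev q w a.2 ≤ ev q w b.1 + k ∧ -ev q w b.2 + k ≤ ev q w a.1 + 1 := by
  unfold sepArc at h
  cases e1 : low B (ladd b.1 a.2) with
  | none => rw [e1] at h; simp [sepO] at h
  | some x =>
    cases e2 : low B (ladd a.1 b.2) with
    | none => rw [e1, e2] at h; simp [sepO] at h
    | some y =>
      rw [e1, e2, sepO, decide_eq_true_eq] at h
      have h1 := hL q w B _ x hq hw e1
      have h2 := hL q w B _ y hq hw e2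
      have hq1 : (0 : ℤ) < q := by exact_mod_cast hq
      have hq2 : (0 : ℝ) < q := by exact_mod_cast hq
      have h3 : (y + q) / q * q ≤ y + q := Int.ediv_mul_le _ hq1.ne'
      have h4 : (0 : ℝ) ≤ x + (((y + q) / q : ℤ) : ℝ) * q := by exact_mod_cast h
      have h5 : (((y + q) / q : ℤ) : ℝ) * q ≤ y + q := by exact_mod_cast h3
      rw [ev_ladd, div_le_iff₀ hq2] at h1 h2
      refine ⟨(y + q) / q, ?_, ?_⟩
      · refine le_of_mul_le_mul_right ?_ hq2
        linarith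
      · refine le_of_mul_le_mul_right ?_ hq2
        linarith

theorem lens_getD : ∀ (os : List Ar) (l : ℕ), (lens os).getD l [] = (os.getD l ([], [])).2
  | [], _ => rfl
  | _ :: _, 0 => rfl
  | _ :: os, l + 1 => lens_getD os l

theorem lensOK_all {q K : ℕ} {B : Bd} : ∀ l : List (List ℤ), lensOK q K B l = true →
    ∀ a ∈ l, lenOK q K B a = true
  | [], _ => by simp
  | a :: l, h => by
    rw [lensOK, Bool.and_eq_true] at h
    exact List.forall_mem_cons.2 ⟨h.1, lensOK_all l h.2⟩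

theorem mem_lens : ∀ (os : List Ar) (l : ℕ), l < os.length → (os.getD l ([], [])).2 ∈ lens os
  | [], _, h => absurd h (by simp)
  | _ :: _, 0, _ => List.mem_cons_self
  | _ :: os, l + 1, h => List.mem_cons_of_mem _ (mem_lens os l (by simpa using h))

theorem nonneg_ev (hL : St_LOW) {q : ℕ} (hq : 0 < q) {w : ℕ → ℝ} {B : Bd} (hw : BdOK q w B)
    {a : List ℤ} (h : nonnegO (low B a) = true) : 0 ≤ ev q w a := by
  cases e : low B a with
  | none => rw [e] at h; simp [nonnegO] at h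
  | some x =>
    rw [e, nonnegO, decide_eq_true_eq] at h
    have h1 : (0 : ℝ) ≤ x := by exact_mod_cast h
    exact (div_nonneg h1 (Nat.cast_nonneg q)).trans (hL q w B a x hq hw e)

theorem lenOK_ev (hL : St_LOW) {q K : ℕ} (hq : 0 < q) {w : ℕ → ℝ} {B : Bd} (hw : BdOK q w B)
    {a : List ℤ} (h : lenOK q K B a = true) :
    (0 ≤ ev q w a ∧ ev q w a ≤ 1) ∧ a.length ≤ K + 1 := by
  simp only [lenOK, Bool.and_eq_true, decide_eq_true_eq] at h
  refine ⟨⟨nonneg_ev hL hq hw h.1.1, ?_⟩, h.2⟩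
  have h1 := nonneg_ev hL hq hw h.1.2
  have hq2 : (q : ℝ) ≠ 0 := by exact_mod_cast hq.ne'
  have e : ev q w [(q : ℤ)] = 1 := by simp [ev, hq2]
  rw [ev_ladd, ev_lsmul, e] at h1
  push_cast at h1
  linarith

theorem tilesOK_all {q : ℕ} {S : St} {B : Bd} {C : BCert} : ∀ l : List Tl,
    tilesOK q S B C l = true → ∀ t ∈ l, tileOK q S B C t = true
  | [], _ => by simp
  | a :: l, h => by
    rw [tilesOK, Bool.and_eq_true] at h
    exact List.forall_mem_cons.2 ⟨h.1, tilesOK_all l h.2⟩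

theorem tileOK_spec {q : ℕ} {S : St} {B : Bd} {C : BCert} {t : Tl} (h : tileOK q S B C t = true) :
    t.2.2.length = C.lv.length ∧ lensOK q C.K B (lens t.2.2) = true ∧
      ∀ j < 5, exOK q S (actL t.1 (S.pt j)) C.ex = true := by
  simp only [tileOK, Bool.and_eq_true, beq_iff_eq] at h
  obtain ⟨⟨⟨⟨⟨⟨h1, h2⟩, h3⟩, h4⟩, h5⟩, h6⟩, h7⟩ := h
  refine ⟨h1, h2, fun j hj => ?_⟩
  interval_cases j <;> assumption

theorem mem_volL : ∀ (tl : List Tl) (e : ℤ × List (List ℤ)), e ∈ volL tl →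
    ∃ t ∈ tl, e = (5, lens t.2.2)
  | [], _, h => absurd h (by simp [volL])
  | t :: tl, e, h => by
    rcases List.mem_cons.1 h with h | h
    · exact ⟨t, List.mem_cons_self, h⟩
    · obtain ⟨u, hu, h⟩ := mem_volL tl e h
      exact ⟨u, List.mem_cons_of_mem _ hu, h⟩

theorem volL_sum (f : ℤ × List (List ℤ) → ℝ) : ∀ tl : List Tl, ((volL tl).map f).sum =
    ∑ i : Fin tl.length, f (5, lens (tl.getD i (0, [], [])).2.2)
  | [] => rfl
  | t :: tl => by
    rw [volL, List.map_cons, List.sum_cons, volL_sum f tl]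
    exact (Fin.sum_univ_succ (fun i : Fin (tl.length + 1) =>
      f (5, lens ((t :: tl).getD i (0, [], [])).2.2))).symm

theorem getD_mem {α : Type} (l : List α) (d : α) {i : ℕ} (h : i < l.length) : l.getD i d ∈ l := by
  rw [List.getD_eq_getElem _ _ h]
  exact List.getElem_mem h

end BLEAF

open LEAF BLEAF in
theorem stBLEAF (hB : St_BOX) (hL : St_LOW) (hV : St_VOL) (hS : St_SHIFT) : St_BLEAF := by
  rintro q S B C hc T - ⟨o, b, α, w, hw, -, hT, h⟩
  simp only [chkB, Bool.and_eq_true, decide_eq_true_eq] at hc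
  obtain ⟨⟨⟨⟨hq, hd⟩, ht⟩, hv⟩, hk⟩ := hc
  rw [show T = fun j : Fin 5 => o + (dot (S.pt j).1 b, dot (S.pt j).2 b) from funext hT]
  refine hS (fun j : Fin 5 => (dot (S.pt j).1 b, dot (S.pt j).2 b)) o ?_
  have htl : ∀ i : Fin C.tl.length, _ := fun i =>
    tileOK_spec (tilesOK_all _ ht _ (getD_mem C.tl (0, [], []) i.2))
  have hex : ∀ l : Fin C.ex.length, _ := fun l => exDiv_at _ l hd l.2
  let a : Fin C.ex.length ⊕ Fin C.lv.length → ℝ :=
    Sum.elim (fun l => la α (C.ex.getD l (0, [])).2) (fun l => la α (C.lv.getD l []))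
  let a' : Fin C.ex.length ⊕ Fin C.lv.length → ℝ :=
    Sum.elim (fun l => lb α (C.ex.getD l (0, [])).2) (fun l => lb α (C.lv.getD l []))
  let g : Fin C.tl.length → ℕ := fun i => (C.tl.getD i (0, [], [])).1
  let θ : Fin C.tl.length → Fin C.ex.length ⊕ Fin C.lv.length → ℝ := fun i =>
    Sum.elim (fun l => (((C.tl.getD i (0, [], [])).2.1.getD l 0 : ℤ) : ℝ) / (C.ex.getD l (0, [])).1)
      (fun l => ev q w ((C.tl.getD i (0, [], [])).2.2.getD l ([], [])).1)
  let len : Fin C.tl.length → Fin C.ex.length ⊕ Fin C.lv.length → ℝ := fun i =>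
    Sum.elim (fun l => 1 / ((C.ex.getD l (0, [])).1 : ℝ))
      (fun l => ev q w ((C.tl.getD i (0, [], [])).2.2.getD l ([], [])).2)
  let Φ : Fin C.tl.length × Fin 5 → Fin C.ex.length ⊕ Fin C.lv.length → ℝ := fun x l =>
    θ x.1 l + (a l * (act (g x.1) (dot (S.pt x.2).1 b, dot (S.pt x.2).2 b)).1 +
      a' l * (act (g x.1) (dot (S.pt x.2).1 b, dot (S.pt x.2).2 b)).2)
  refine hB _ _ C.tl.length a a' g θ len ?_ ?_ ?_
  · rintro i (l | l)
    · have h1 : (1 : ℝ) ≤ (C.ex.getD l (0, [])).1 := by exact_mod_cast (hex l).1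
      exact ⟨div_nonneg zero_le_one (Nat.cast_nonneg _), (div_le_one (by linarith)).2 h1⟩
    · exact (lenOK_ev hL hq hw (lensOK_all _ (htl i).2.1 _
        (mem_lens _ l ((htl i).1.symm ▸ l.2)))).1
  · have h1 := hV q C.K C.lv.length w (volL C.tl) (prodP C.ex) hq (fun e he x hx => by
      obtain ⟨t, ht1, rfl⟩ := mem_volL _ _ he
      exact (lenOK_ev hL hq hw (lensOK_all _ (tileOK_spec (tilesOK_all _ ht t ht1)).2.1 x hx)).2) hv
    rw [volL_sum, ← prod_eq] at h1
    have h2 : (∏ l : Fin C.ex.length, ((C.ex.getD l (0, [])).1 : ℝ)) ≠ 0 :=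
      Finset.prod_ne_zero_iff.2 fun l _ => by exact_mod_cast (hex l).1.ne'
    have h3 : ∀ i, ∏ l, len i l = (∏ l : Fin C.ex.length, ((C.ex.getD l (0, [])).1 : ℝ))⁻¹ *
        ∏ l : Fin C.lv.length, ev q w ((lens (C.tl.getD i (0, [], [])).2.2).getD l []) := fun i => by
      rw [Fintype.prod_sum_type, ← Finset.prod_inv_distrib]
      simp only [len, Sum.elim_inl, Sum.elim_inr, one_div, lens_getD]
    simp only [h3]
    push_cast at h1
    rw [← Finset.mul_sum] at h1 ⊢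
    rw [mul_left_comm, h1, inv_mul_cancel₀ h2]
  have pw := List.pairwise_iff_getElem.1 (bk_pw _ _ hk)
  have key : ∀ x y : Fin C.tl.length × Fin 5, 5 * x.1.1 + x.2.1 < 5 * y.1.1 + y.2.1 →
      ∃ l, ∃ k : ℤ, Φ x l + len x.1 l ≤ Φ y l + k ∧ Φ y l + k + len y.1 l ≤ Φ x l + 1 := by
    intro x y hxy
    have hy : 5 * y.1.1 + y.2.1 < (bcells q S C C.tl).length := by
      rw [bcells_length]
      have := y.1.2
      have := y.2.2
      omega
    have h1 := pw _ _ (hxy.trans hy) hy hxy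
    rw [← List.getD_eq_getElem _ (0, []), ← List.getD_eq_getElem _ (0, []),
      bcells_getD _ _ _ _ _ _ x.1.2 x.2.2, bcells_getD _ _ _ _ _ _ y.1.2 y.2.2] at h1
    rcases h1 with h1 | h1
    · obtain ⟨l, hl, h2⟩ := exKey_ne _ _ _ h1
      obtain ⟨hp, hpq⟩ := hex ⟨l, hl⟩
      obtain ⟨k, h3, h4⟩ := dg_sep hp h2
      obtain ⟨hx1, hx2⟩ := exOK_at _ l ((htl x.1).2.2 x.2 x.2.2) hl
      obtain ⟨hy1, hy2⟩ := exOK_at _ l ((htl y.1).2.2 y.2 y.2.2) hl
      rw [← dg_ev hq w _ hp hpq hx1 hx2, ← dg_ev hq w _ hp hpq hy1 hy2] at h3 h4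
      obtain ⟨m, hm⟩ := lvPh_ev h (actL (g x.1) (S.pt x.2)) (C.ex.getD l (0, [])).2
      obtain ⟨m', hm'⟩ := lvPh_ev h (actL (g y.1) (S.pt y.2)) (C.ex.getD l (0, [])).2
      refine ⟨Sum.inl ⟨l, hl⟩, k + m - m', ?_⟩
      simp only [Φ, θ, len, a, a', Sum.elim_inl, act_dot, hm, hm']
      push_cast
      constructor <;> linarith
    · obtain ⟨l, hl, h2⟩ := sepArcs_ex _ _ _ h1
      obtain ⟨k, h3, h4⟩ := sepArc_ev hL hq hw h2
      simp only [arc, ev_ladd, ev_lsmul] at h3 h4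
      obtain ⟨m, hm⟩ := lvPh_ev h (actL (g x.1) (S.pt x.2)) (C.lv.getD l [])
      obtain ⟨m', hm'⟩ := lvPh_ev h (actL (g y.1) (S.pt y.2)) (C.lv.getD l [])
      refine ⟨Sum.inr ⟨l, hl⟩, k + m - m', ?_⟩
      simp only [Φ, θ, len, a, a', Sum.elim_inr, act_dot, hm, hm']
      push_cast at h3 h4 ⊢
      constructor <;> linarith
  intro x y hxy
  have hne : 5 * x.1.1 + x.2.1 ≠ 5 * y.1.1 + y.2.1 := fun e => hxy (by
    have := x.2.2
    have := y.2.2
    exact Prod.ext (Fin.ext (by omega)) (Fin.ext (by omega)))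
  rcases lt_or_gt_of_ne hne with h1 | h1
  · exact key x y h1
  · obtain ⟨l, k, h2, h3⟩ := key y x h1
    refine ⟨l, 1 - k, ?_⟩
    show Φ x l + len x.1 l ≤ Φ y l + ((1 - k : ℤ) : ℝ) ∧
      Φ y l + ((1 - k : ℤ) : ℝ) + len y.1 l ≤ Φ x l + 1
    push_cast
    constructor <;> linarith

end Pool.Agent.Lib.B5
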