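import Pool.Agent.Lib.B5.BDefs

/-! Disjoint boxes of total volume one cover the torus; box certificates give exact covers. -/

set_option autoImplicit false

namespace Pool.Agent.Lib.B5

open MeasureTheory Set

namespace BOX

theorem sep_one {u s s' a a' : ℝ} {k : ℤ} (h1 : s + a ≤ s' + k) (h2 : s' + k + a' ≤ s + 1)
    (hx : Int.fract (u - s) < a) (hy : Int.fract (u - s') < a') : False := by
  have e1 := Int.floor_add_fract (u - s)
  have p1 := Int.fract_nonneg (u - s)
  have e : Int.fract (u - s') = Int.fract (u - s) - (s' + k - s) + 1 := by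
    rw [Int.fract_eq_iff]
    refine ⟨by linarith [Int.fract_nonneg (u - s')], by linarith, ⌊u - s⌋ + k - 1, ?_⟩
    push_cast
    linarith
  linarith

/-- the part of the unit interval where `fract (t + x) < a` -/
def G (t a : ℝ) : Set ℝ := Ico 0 (a - t) ∪ Ico (1 - t) (1 - t + min t a)

theorem G_meas (t a : ℝ) : MeasurableSet (G t a) := measurableSet_Ico.union measurableSet_Ico

theorem G_vol {t a : ℝ} (ht : 0 ≤ t) (ha1 : a ≤ 1) :
    ENNReal.ofReal a ≤ volume (G t a) := by
  have hd : Disjoint (Ico (0 : ℝ) (a - t)) (Ico (1 - t) (1 - t + min t a)) := by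
    rw [Set.disjoint_left]
    intro x h1 h2
    linarith [h1.2, h2.1]
  rw [G, measure_union hd measurableSet_Ico, Real.volume_Ico, Real.volume_Ico]
  have e : 1 - t + min t a - (1 - t) = min t a := by ring
  rw [e, sub_zero]
  rcases le_total t a with h | h
  · rw [min_eq_left h, ← ENNReal.ofReal_add (by linarith) ht]
    exact ENNReal.ofReal_le_ofReal (by linarith)
  · rw [min_eq_right h]
    exact le_add_self

theorem G_sub {t a x : ℝ} (ht : 0 ≤ t) (ht1 : t < 1) (ha1 : a ≤ 1) (hx : x ∈ G t a) :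
    x ∈ Ico (0 : ℝ) 1 := by
  rcases hx with h | h
  · exact ⟨h.1, by linarith [h.2]⟩
  · exact ⟨by linarith [h.1], by linarith [h.2, min_le_left t a]⟩

theorem G_fract {v a x : ℝ} (ha1 : a ≤ 1) (hx : x ∈ G (Int.fract v) a) :
    Int.fract (v + x) < a := by
  have e1 := Int.floor_add_fract v
  have p1 := Int.fract_nonneg v
  have p2 := Int.fract_lt_one v
  rcases hx with h | h
  · have e : Int.fract (v + x) = Int.fract v + x := by
      rw [Int.fract_eq_iff]
      exact ⟨by linarith [h.1], by linarith [h.2], ⌊v⌋, by linarith⟩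
    linarith [h.2]
  · have e : Int.fract (v + x) = Int.fract v + x - 1 := by
      rw [Int.fract_eq_iff]
      refine ⟨by linarith [h.1], by linarith [h.2, min_le_left (Int.fract v) a], ⌊v⌋ + 1, ?_⟩
      push_cast
      linarith
    linarith [h.2, min_le_right (Int.fract v) a]

theorem G_far {t a x : ℝ} (h : a ≤ t) (hx : x ∈ G t a) : 1 - t ≤ x := by
  rcases hx with h1 | h1
  · linarith [h1.1, h1.2]
  · exact h1.1

theorem box_unique {κ ι : Type} [Fintype κ] [Fintype ι] (s len : κ → ι → ℝ)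
    (hl : ∀ c l, 0 ≤ len c l ∧ len c l ≤ 1) (hv : ∑ c, ∏ l, len c l = 1)
    (hs : ∀ x y : κ, x ≠ y → ∃ l, ∃ k : ℤ, s x l + len x l ≤ s y l + k ∧
      s y l + k + len y l ≤ s x l + 1) (u : ι → ℝ) :
    ∃! c, ∀ l, Int.fract (u l - s c l) < len c l := by
  have uniq : ∀ (v : ι → ℝ) (x y : κ), (∀ l, Int.fract (v l - s x l) < len x l) →
      (∀ l, Int.fract (v l - s y l) < len y l) → x = y := by
    intro v x y hx hy
    by_contra hne
    obtain ⟨l, k, h1, h2⟩ := hs x y hne
    exact sep_one h1 h2 (hx l) (hy l)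
  refine existsUnique_of_exists_of_unique ?_ (uniq u)
  by_contra hno
  have hno' : ∀ c, ∃ l, len c l ≤ Int.fract (u l - s c l) := by
    intro c
    by_contra h
    exact hno ⟨c, fun l => lt_of_not_ge fun h' => h ⟨l, h'⟩⟩
  obtain ⟨δ, ⟨hδ, hδ1⟩, hδ0⟩ : ∃ δ : ℝ, ((∀ p : κ × ι, δ ≤ 1 - Int.fract (u p.2 - s p.1 p.2)) ∧
      δ ≤ 1) ∧ δ ∈ Ioi (0 : ℝ) := by
    have h1 : ∀ᶠ δ in nhdsWithin (0 : ℝ) (Ioi 0),
        ∀ p : κ × ι, δ ≤ 1 - Int.fract (u p.2 - s p.1 p.2) :=
      Filter.eventually_all.2 fun p => mem_nhdsWithin_of_mem_nhds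
        (Iic_mem_nhds (by linarith [Int.fract_lt_one (u p.2 - s p.1 p.2)]))
    have h2 : ∀ᶠ δ in nhdsWithin (0 : ℝ) (Ioi 0), δ ≤ 1 :=
      mem_nhdsWithin_of_mem_nhds (Iic_mem_nhds one_pos)
    exact ((h1.and h2).and self_mem_nhdsWithin).exists
  let E : κ → Set (ι → ℝ) := fun c => Set.pi univ fun l => G (Int.fract (u l - s c l)) (len c l)
  let D : Set (ι → ℝ) := Set.pi univ fun _ => Ico 0 δ
  have hEm : ∀ c, MeasurableSet (E c) := fun c => MeasurableSet.univ_pi fun l => G_meas _ _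
  have hDm : MeasurableSet D := MeasurableSet.univ_pi fun _ => measurableSet_Ico
  have hin : ∀ c x, x ∈ E c → ∀ l, Int.fract ((u l + x l) - s c l) < len c l := by
    intro c x hx l
    have e : u l + x l - s c l = (u l - s c l) + x l := by ring
    rw [e]
    exact G_fract (hl c l).2 (hx l trivial)
  have hEd : Pairwise (Function.onFun Disjoint E) := by
    intro x y hxy
    rw [Function.onFun, Set.disjoint_left]
    intro v h1 h2
    exact hxy (uniq (fun l => u l + v l) x y (hin x v h1) (hin y v h2))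
  have hDd : Disjoint (⋃ c, E c) D := by
    rw [Set.disjoint_left]
    intro v h1 h2
    obtain ⟨c, hc⟩ := mem_iUnion.1 h1
    obtain ⟨l, hl'⟩ := hno' c
    have a1 := G_far hl' (hc l trivial)
    have a2 : v l < δ := (h2 l trivial).2
    have a3 := hδ (c, l)
    simp only at a3
    linarith
  have hsub : (⋃ c, E c) ∪ D ⊆ Set.pi univ fun _ : ι => Ico (0 : ℝ) 1 := by
    rintro v (h | h) l _
    · obtain ⟨c, hc⟩ := mem_iUnion.1 h
      exact G_sub (Int.fract_nonneg _) (Int.fract_lt_one _) (hl c l).2 (hc l trivial)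
    · exact ⟨(h l trivial).1, lt_of_lt_of_le (h l trivial).2 hδ1⟩
  have m1 := measure_mono (μ := volume) hsub
  have m0 : volume (Set.pi univ fun _ : ι => Ico (0 : ℝ) 1) = 1 := by
    rw [volume_pi_pi]
    simp
  rw [measure_union hDd hDm, measure_iUnion hEd hEm, tsum_fintype, m0] at m1
  have m2 : (1 : ENNReal) ≤ ∑ c, volume (E c) := by
    rw [← ENNReal.ofReal_one, ← hv, ENNReal.ofReal_sum_of_nonneg
      (fun c _ => Finset.prod_nonneg fun l _ => (hl c l).1)]
    refine Finset.sum_le_sum fun c _ => ?_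
    rw [ENNReal.ofReal_prod_of_nonneg (fun l _ => (hl c l).1), volume_pi_pi]
    exact Finset.prod_le_prod' fun l _ => G_vol (Int.fract_nonneg _) (hl c l).2
  have m3 : volume D ≠ 0 := by
    rw [volume_pi_pi]
    refine Finset.prod_ne_zero_iff.2 fun l _ => ?_
    rw [Real.volume_Ico, sub_zero]
    exact (ENNReal.ofReal_pos.2 hδ0).ne'
  have m4 : (1 : ENNReal) + volume D ≤ 1 + 0 := by
    rw [add_zero]
    exact le_trans (add_le_add_left m2 _) m1
  exact m3 (le_antisymm ((ENNReal.add_le_add_iff_left ENNReal.one_ne_top).1 m4) bot_le)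

end BOX

theorem stBOX : St_BOX := by
  intro ι _ T m a b g θ len hl hv hsep
  refine ⟨fun g0 => {z | ∃ i, g i = g0 ∧
    ∀ l, Int.fract ((a l * z.1 + b l * z.2) - θ i l) < len i l}, fun z => ?_⟩
  obtain ⟨x, hx, hu⟩ := BOX.box_unique (κ := Fin m × Fin 5)
    (fun x l => θ x.1 l + (a l * (act (g x.1) (T x.2)).1 + b l * (act (g x.1) (T x.2)).2))
    (fun x l => len x.1 l) (fun c l => hl c.1 l)
    (by
      rw [Fintype.sum_prod_type, ← hv, Finset.mul_sum]
      refine Finset.sum_congr rfl fun i _ => ?_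
      simp) hsep (fun l => a l * z.1 + b l * z.2)
  have key : ∀ (i : Fin m) (j : Fin 5) (l : ι),
      (a l * ((z - act (g i) (T j)).1 : ℤ) + b l * ((z - act (g i) (T j)).2 : ℤ)) - θ i l =
      (a l * z.1 + b l * z.2) -
        (θ i l + (a l * (act (g i) (T j)).1 + b l * (act (g i) (T j)).2)) := by
    intro i j l
    simp only [Prod.fst_sub, Prod.snd_sub, Int.cast_sub]
    ring
  refine ⟨(g x.1, x.2), ⟨x.1, rfl, fun l => ?_⟩, ?_⟩
  · rw [key]
    exact hx l
  · rintro ⟨g0, j⟩ ⟨i, hi, h⟩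
    subst hi
    have e : (i, j) = x := hu (i, j) fun l => by
      have := h l
      rw [key] at this
      exact this
    rw [← e]

end Pool.Agent.Lib.B5
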