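import Pool.Agent.Lib.B5.BDefs

/-! Lower bounds of formal phases and the volume check. -/

set_option autoImplicit false

namespace Pool.Agent.Lib.B5

namespace LOWV

theorem look_mem {i : ℕ} {s : Bool} {c : ℤ} : ∀ {B : Bd}, look i s B = some c → (i, s, c) ∈ B
  | [], h => by simp [look] at h
  | e :: B, h => by
    rw [look] at h
    split at h
    · rename_i h1
      simp only [Bool.and_eq_true, beq_iff_eq] at h1
      obtain ⟨a, b, d⟩ := e
      obtain ⟨rfl, rfl⟩ := h1
      obtain rfl := Option.some.inj h
      exact List.mem_cons_self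
    · exact List.mem_cons_of_mem _ (look_mem h)

theorem lowT_le {q : ℕ} {w : ℕ → ℝ} {B : Bd} (hB : BdOK q w B) (h : ℤ) (a : List ℤ) :
    ∀ (i : ℕ) (x : ℤ), lowT B h i a = some x →
      (x : ℝ) / q ≤ (h : ℝ) / q + dot a fun k => w (i + k) := by
  induction a with
  | nil =>
    intro i x e
    obtain rfl := Option.some.inj e
    simp [dot]
  | cons y a ih =>
    intro i x e
    have sh : (fun k => w (i + (k + 1))) = fun k => w (i + 1 + k) :=
      funext fun k => by rw [show i + (k + 1) = i + 1 + k by omega]
    rw [lowT] at e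
    rw [dot, sh]
    split at e
    · rename_i h0
      rw [beq_iff_eq.1 h0]
      simpa using ih _ _ e
    · cases h1 : look i (decide (0 < y)) B with
      | none => rw [h1] at e; simp [omul] at e
      | some c =>
        cases h2 : lowT B h (i + 1) a with
        | none => rw [h1, h2] at e; simp [omul] at e
        | some r =>
          rw [h1, h2, omul] at e
          obtain rfl := Option.some.inj e
          have h3 := ih _ _ h2
          have h4 := hB _ (look_mem h1)
          have h5 : (y : ℝ) * ((c : ℝ) / q) ≤ y * w i := by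
            by_cases hy : 0 < y
            · simp only [hy, decide_true, if_true] at h4
              exact mul_le_mul_of_nonneg_left h4 (by exact_mod_cast hy.le)
            · simp only [hy, decide_false, Bool.false_eq_true, if_false] at h4
              exact mul_le_mul_of_nonpos_left h4 (by exact_mod_cast not_lt.1 hy)
          push_cast
          rw [add_div, mul_div_assoc, Nat.add_zero]
          linarith

theorem dot_sum (a : List ℤ) : ∀ (K : ℕ) (w : ℕ → ℝ), a.length ≤ K →
    dot a w = ∑ k ∈ Finset.range K, (a.getD k 0 : ℤ) * w k := by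
  induction a with
  | nil => intro K w _; simp [dot]
  | cons x a ih =>
    intro K w h
    obtain ⟨K, rfl⟩ : ∃ J, K = J + 1 := ⟨K - 1, by simp at h; omega⟩
    rw [dot, Finset.sum_range_succ', ih K _ (by simpa using h), add_comm]
    simp

theorem ev_sum (q K : ℕ) (w : ℕ → ℝ) (a : List ℤ) (h : a.length ≤ K + 1) :
    ev q w a = (a.getD 0 0 : ℤ) / (q : ℝ) + ∑ k ∈ Finset.range K, (a.getD (k + 1) 0 : ℤ) * w k := by
  cases a with
  | nil => simp [ev]
  | cons x a => rw [ev, dot_sum a K w (by simpa using h)]; simp

theorem allTo_lt {f : ℕ → Bool} : ∀ {K : ℕ}, allTo f K = true → ∀ k < K, f k = true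
  | 0, _, _, h => absurd h (Nat.not_lt_zero _)
  | K + 1, e, k, h => by
    rw [allTo, Bool.and_eq_true] at e
    rcases Nat.lt_succ_iff_lt_or_eq.1 h with h | rfl
    · exact allTo_lt e.2 k h
    · exact e.1

theorem volAt_len {K k : ℕ} : ∀ {l : List (ℤ × List (List ℤ))},
    (∀ e ∈ l, ∀ a ∈ e.2, a.length ≤ K + 1) → ∀ e ∈ volAt k l, ∀ a ∈ e.2, a.length ≤ K + 1
  | [], _, e, he => by simp [volAt] at he
  | d :: l, h, e, he => by
    have ih := volAt_len (k := k) (l := l) fun e he => h e (List.mem_cons_of_mem _ he)
    rw [volAt] at he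
    split at he
    · exact ih e he
    · rcases List.mem_cons.1 he with rfl | he
      · exact fun a ha => h d List.mem_cons_self a (List.mem_of_mem_tail ha)
      · exact ih e he

theorem volAt_sum (k : ℕ) (P : List (List ℤ) → ℝ) : ∀ l : List (ℤ × List (List ℤ)),
    ((volAt k l).map fun e => (e.1 : ℝ) * P e.2).sum =
      (l.map fun e => (e.1 : ℝ) * ((e.2.headD []).getD k 0 : ℤ) * P e.2.tail).sum
  | [] => rfl
  | d :: l => by
    rw [volAt, List.map_cons, List.sum_cons, ← volAt_sum k P l]
    split
    · rename_i h
      rw [beq_iff_eq.1 h]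
      simp
    · rw [List.map_cons, List.sum_cons]
      push_cast
      rfl

theorem volSum_eq : ∀ l : List (ℤ × List (List ℤ)),
    (l.map fun e => (e.1 : ℝ)).sum = volSum l
  | [] => by simp [volSum]
  | d :: l => by rw [volSum, List.map_cons, List.sum_cons, volSum_eq l]; push_cast; rfl

theorem split_sum (q K : ℕ) (w : ℕ → ℝ) (P : List (List ℤ) → ℝ) : ∀ l : List (ℤ × List (List ℤ)),
    (∀ e ∈ l, ∀ a ∈ e.2, a.length ≤ K + 1) →
    (l.map fun e => (e.1 : ℝ) * (ev q w (e.2.headD []) * P e.2.tail)).sum =
      (l.map fun e => (e.1 : ℝ) * ((e.2.headD []).getD 0 0 : ℤ) * P e.2.tail).sum / q +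
      ∑ k ∈ Finset.range K,
        (l.map fun e => (e.1 : ℝ) * ((e.2.headD []).getD (k + 1) 0 : ℤ) * P e.2.tail).sum * w k
  | [], _ => by simp
  | d :: l, h => by
    have hd : (d.2.headD []).length ≤ K + 1 := by
      have := h d List.mem_cons_self
      cases e : d.2 with
      | nil => simp
      | cons a t => exact this a (by rw [e]; exact List.mem_cons_self)
    simp only [List.map_cons, List.sum_cons]
    rw [split_sum q K w P l fun e he => h e (List.mem_cons_of_mem _ he), ev_sum q K w _ hd]
    simp only [add_mul, Finset.sum_add_distrib, mul_add, Finset.sum_mul, Finset.mul_sum]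
    have : ∀ k, (d.1 : ℝ) * (((d.2.headD []).getD (k + 1) 0 : ℤ) * w k * P d.2.tail) =
        (d.1 : ℝ) * ((d.2.headD []).getD (k + 1) 0 : ℤ) * P d.2.tail * w k := fun k => by ring
    simp only [this]
    ring

end LOWV

open LOWV in
theorem stLOW : St_LOW := by
  intro q w B a x _ hB e
  cases a with
  | nil =>
    obtain rfl := Option.some.inj e
    simp [ev]
  | cons h a => simpa [ev] using lowT_le hB h a 0 x e

open LOWV in
theorem stVOL : St_VOL := by
  intro q K r w l t hq
  induction r generalizing l t with
  | zero =>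
    intro _ e
    rw [volChk, beq_iff_eq] at e
    simp [volSum_eq, e]
  | succ r ih =>
    intro hl e
    rw [volChk] at e
    split at e
    · rename_i h
      rw [List.isEmpty_iff.1 h, beq_iff_eq.1 e]
      simp
    · rw [Bool.and_eq_true] at e
      have hP : ∀ L : List (List ℤ), ∏ i : Fin (r + 1), ev q w (L.getD i []) =
          ev q w (L.headD []) * ∏ i : Fin r, ev q w (L.tail.getD i []) := fun L => by
        rw [Fin.prod_univ_succ]
        cases L <;> simp
      simp only [hP]
      rw [split_sum q K w (fun L => ∏ i : Fin r, ev q w (L.getD i [])) l hl,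
        ← volAt_sum 0 (fun L => ∏ i : Fin r, ev q w (L.getD i [])), ih _ _ (volAt_len hl) e.1,
        Finset.sum_eq_zero fun k hk => ?_]
      · have : (q : ℝ) ≠ 0 := by exact_mod_cast hq.ne'
        push_cast
        field_simp
        simp
      · rw [← volAt_sum (k + 1) (fun L => ∏ i : Fin r, ev q w (L.getD i [])),
          ih _ _ (volAt_len hl) (allTo_lt e.2 k (Finset.mem_range.1 hk))]
        simp

end Pool.Agent.Lib.B5
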