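import Pool.Agent.Lib.B5.Defs

/-! Soundness of case trees. -/

set_option autoImplicit false

namespace Pool.Agent.Lib.B5

theorem tree_aux (hL : St_LEAF) (hD : St_DEAD) (hH : St_HOLE) (hR : St_RE) (hS : St_STEP)
    (hF : St_FREE) (hV : St_DIV) (q : ℕ) (Hs : List St) (hHs : ∀ H ∈ Hs, Good q H) (t : Tr) :
    ∀ (S : St) (l : List St), chk q Hs t S l = true →
      (t.chain = true → ∀ c ∈ l, Good q c) ∧ (t.chain = false → Good q S) := by
  induction t with
  | leaf C =>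
    intro S l h
    exact ⟨fun h' => absurd h' (by simp [Tr.chain]), fun _ => hL q S C h⟩
  | dead i j =>
    intro S l h
    refine ⟨fun h' => absurd h' (by simp [Tr.chain]), fun _ => ?_⟩
    simp only [chk, Bool.and_eq_true, decide_eq_true_eq, Bool.not_eq_true', beq_eq_false_iff_ne]
      at h
    exact hD q S i j h.1.1.1.1 h.1.1.1.2 h.1.1.2 h.1.2 h.2
  | hole i es =>
    intro S l h
    refine ⟨fun h' => absurd h' (by simp [Tr.chain]), fun _ => ?_⟩
    simp only [chk, Bool.and_eq_true, decide_eq_true_eq] at h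
    refine hH q S _ es h.2 (hHs _ ?_)
    rw [List.getD_eq_getElem _ _ h.1]
    exact List.getElem_mem _
  | re π M ch t ih =>
    intro S l h
    refine ⟨fun h' => absurd h' (by simp [Tr.chain]), fun _ => ?_⟩
    simp only [chk, Bool.and_eq_true, Bool.not_eq_true'] at h
    exact hR q S π M ch h.1.1 ((ih _ _ h.2).2 h.1.2)
  | step p m F z k ihz ihk =>
    intro S l h
    refine ⟨fun h' => absurd h' (by simp [Tr.chain]), fun _ => ?_⟩
    simp only [chk, Bool.and_eq_true, decide_eq_true_eq, Bool.not_eq_true', beq_iff_eq,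
      Bool.or_eq_true] at h
    obtain ⟨⟨⟨⟨⟨⟨⟨⟨hp, hq⟩, hqp⟩, hm⟩, hT⟩, hz⟩, hk⟩, cz⟩, ck⟩ := h
    have hpp : p.Prime := by
      rcases hp with (rfl | rfl) | rfl <;> norm_num
    exact hS q p F S m hpp hq (Nat.dvd_of_mod_eq_zero hqp) hm hT ((ihz _ _ cz).2 hz)
      ((ihk _ _ ck).1 hk)
  | free r i F z k ihz ihk =>
    intro S l h
    refine ⟨fun h' => absurd h' (by simp [Tr.chain]), fun _ => ?_⟩
    simp only [chk, Bool.and_eq_true, decide_eq_true_eq, Bool.not_eq_true', beq_iff_eq] at h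
    obtain ⟨⟨⟨⟨⟨⟨⟨hq, hqr⟩, hi⟩, hT⟩, hz⟩, hk⟩, cz⟩, ck⟩ := h
    exact hF q r i F S hq (Nat.dvd_of_mod_eq_zero hqr) hi hT ((ihz _ _ cz).2 hz)
      ((ihk _ _ ck).2 hk)
  | div c r m F k ihk =>
    intro S l h
    refine ⟨fun h' => absurd h' (by simp [Tr.chain]), fun _ => ?_⟩
    simp only [chk, Bool.and_eq_true, decide_eq_true_eq, beq_iff_eq] at h
    obtain ⟨⟨⟨⟨⟨⟨hq, hqr⟩, hm⟩, hT⟩, hd⟩, hk⟩, ck⟩ := h
    exact hV q c r F S m hq (Nat.dvd_of_mod_eq_zero hqr) hm hT hd ((ihk _ _ ck).1 hk)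
  | nil =>
    intro S l h
    refine ⟨fun _ c hc => ?_, fun h' => absurd h' (by simp [Tr.chain])⟩
    simp only [chk, List.isEmpty_iff] at h
    rw [h] at hc
    exact absurd hc List.not_mem_nil
  | cons a t iha iht =>
    intro S l h
    refine ⟨fun _ => ?_, fun h' => absurd h' (by simp [Tr.chain])⟩
    cases l with
    | nil => simp [chk] at h
    | cons c l =>
      simp only [chk, Bool.and_eq_true, Bool.not_eq_true'] at h
      obtain ⟨⟨⟨ha, ht⟩, ca⟩, ct⟩ := h
      intro c' hc'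
      rcases List.mem_cons.1 hc' with rfl | hc'
      · exact (iha _ _ ca).2 ha
      · exact (iht _ _ ct).1 ht c' hc'

theorem stTREE (hL : St_LEAF) (hD : St_DEAD) (hH : St_HOLE) (hR : St_RE) (hS : St_STEP)
    (hF : St_FREE) (hV : St_DIV) : St_TREE :=
  fun q Hs t S hHs ht h => (tree_aux hL hD hH hR hS hF hV q Hs hHs t S [] h).2 ht

end Pool.Agent.Lib.B5
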