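import Pool.Agent.Lib.B5.TDefs
import Pool.Agent.Lib.B5.ST2
import Pool.Agent.Lib.B5.TREE

/-! Soundness of tie steps. -/

set_option autoImplicit false

namespace Pool.Agent.Lib.B5

theorem tie_phEq {q : ℕ} (hq : 0 < q) (w : ℕ → ℝ) {a b : List ℤ} (h : phEq q a b = true) :
    ∃ m : ℤ, ev q w a = ev q w b + m := by
  simp only [phEq, Bool.and_eq_true, beq_iff_eq] at h
  obtain ⟨m, hm⟩ := Int.dvd_of_emod_eq_zero h.1
  refine ⟨m, ?_⟩
  have h1 : ((a.headD 0 : ℤ) : ℝ) = (b.headD 0 : ℤ) + q * m := by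
    have : a.headD 0 = b.headD 0 + q * m := by linear_combination hm
    exact_mod_cast this
  have h2 : (q : ℝ) ≠ 0 := by positivity
  rw [ev_eq, ev_eq, dot_leq h.2, h1]
  field_simp
  ring

theorem tie_head {q : ℕ} (w : ℕ → ℝ) {a b : List ℤ} (h : phEq q a b = true) (hb : b.tail = []) :
    ev q w a = ((a.headD 0 : ℤ) : ℝ) / q := by
  simp only [phEq, Bool.and_eq_true] at h
  rw [ev_eq, dot_leq h.2, hb]
  simp

theorem tie_half {q : ℕ} (hq : 0 < q) (h2 : q % 2 = 0) (w : ℕ → ℝ) :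
    ev q w [((q / 2 : ℕ) : ℤ)] = 1 / 2 := by
  have := (st2_div hq (Nat.dvd_of_mod_eq_zero h2)).2
  simp only [ev, dot_nil, add_zero]
  rw [this]
  norm_num

theorem tie_mark (q : ℕ) (m : List Bool) (e f : List (List ℤ)) (h : tieMark q m e f = true)
    (k : ℕ) (hk : m.getD k false = true) :
    (phEq q (e.getD k []) [] = true ∨ phEq q (e.getD k []) [((q / 2 : ℕ) : ℤ)] = true) ∧
      phEq q (f.getD k []) [] = true := by
  induction m generalizing e f k with
  | nil => simp at hk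
  | cons x m ih =>
    cases x with
    | false =>
      cases k with
      | zero => simp at hk
      | succ k => exact st2_tail e k ▸ st2_tail f k ▸ ih e.tail f.tail h k hk
    | true =>
      simp only [tieMark, Bool.and_eq_true, Bool.or_eq_true] at h
      cases k with
      | zero => exact st2_head e ▸ st2_head f ▸ h.1
      | succ k => exact st2_tail e k ▸ st2_tail f k ▸ ih e.tail f.tail h.2 k hk

theorem tie_some (q : ℕ) (m : List Bool) (e : List (List ℤ)) (h : tieSome q m e = true) :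
    ∃ k, m.getD k false = true ∧ phEq q (e.getD k []) [((q / 2 : ℕ) : ℤ)] = true := by
  induction m generalizing e with
  | nil => simp [tieSome] at h
  | cons x m ih =>
    cases x with
    | false =>
      obtain ⟨k, h1, h2⟩ := ih e.tail h
      exact ⟨k + 1, h1, st2_tail e k ▸ h2⟩
    | true =>
      simp only [tieSome, Bool.or_eq_true] at h
      rcases h with h | h
      · exact ⟨0, rfl, st2_head e ▸ h⟩
      · obtain ⟨k, h1, h2⟩ := ih e.tail h
        exact ⟨k + 1, h1, st2_tail e k ▸ h2⟩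

theorem tie_opt_len (s : Bool) (m : List Bool) (e : List (List ℤ)) :
    (tieOpt s m e).length = m.length := by
  induction m generalizing e with
  | nil => rfl
  | cons x m ih => cases x <;> simp [tieOpt, ih]

theorem tie_opt (s : Bool) (m : List Bool) (e : List (List ℤ)) (k : ℕ) (x : ℤ)
    (h : (tieOpt s m e).getD k none = some x) :
    m.getD k false = true ∧ x = if s then (e.getD k []).headD 0 else 0 := by
  induction m generalizing e k with
  | nil => simp [tieOpt] at h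
  | cons y m ih =>
    cases y with
    | false =>
      cases k with
      | zero => simp [tieOpt] at h
      | succ k => exact st2_tail e k ▸ ih e.tail k h
    | true =>
      cases k with
      | zero => exact ⟨rfl, st2_head e ▸ (Option.some.inj h).symm⟩
      | succ k => exact st2_tail e k ▸ ih e.tail k h

theorem tie_addMul (q : ℕ) (w : ℕ → ℝ) (d e : List ℤ) (r : List (List ℤ)) (k : ℕ) :
    ∃ x : ℤ, ev q w ((addMul d e r).getD k []) = ev q w (r.getD k []) + x * ev q w d := by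
  induction e generalizing r k with
  | nil => exact ⟨0, by simp [addMul]⟩
  | cons x e ih =>
    cases r with
    | nil => exact ⟨0, by simp [addMul]⟩
    | cons a r =>
      cases k with
      | zero =>
        refine ⟨x, ?_⟩
        change ev q w (ladd a (lsmul x d)) = ev q w a + x * ev q w d
        rw [ev_ladd, ev_lsmul]
      | succ k => exact ih r k

theorem tie_unit_len (i : ℕ) : (unitPh i).length = i + 2 := by
  induction i with
  | zero => rfl
  | succ i ih => simp [unitPh, ih]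

theorem tie_newRow_len (a : List (Option ℤ)) (F k : ℕ) :
    ((newRow a F).getD k []).length ≤ F + a.length + 1 := by
  induction a generalizing F k with
  | nil => exact Nat.zero_le _
  | cons y a ih =>
    cases y with
    | none =>
      cases k with
      | zero =>
        change (unitPh F).length ≤ F + (a.length + 1) + 1
        rw [tie_unit_len]
        omega
      | succ k =>
        have := ih (F + 1) k
        change ((newRow a (F + 1)).getD k []).length ≤ F + (a.length + 1) + 1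
        omega
    | some x =>
      cases k with
      | zero =>
        change 1 ≤ F + (a.length + 1) + 1
        omega
      | succ k =>
        have := ih F k
        change ((newRow a F).getD k []).length ≤ F + (a.length + 1) + 1
        omega

theorem tie_ev_congr (q G : ℕ) {w w' : ℕ → ℝ} (h : ∀ i < G, w' i = w i) {a : List ℤ}
    (ha : a.length ≤ G + 1) : ev q w' a = ev q w a := by
  rw [ev_eq, ev_eq, dot_congr _ (w := w') (w' := w) fun i hi => h i ?_]
  rw [List.length_tail] at hi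
  omega

theorem tie_two {x : ℤ} (hx : x ≠ 0) : ∃ (s : ℕ) (y : ℤ), x = 2 ^ s * (2 * y + 1) := by
  obtain ⟨e, c, h1, k, -, h2⟩ := st2_pow (p := 2) one_lt_two (fun _ => True) (fun _ => x)
    ⟨0, trivial, hx⟩
  refine ⟨e, c k / 2, ?_⟩
  have h3 := h1 k trivial
  have h4 : c k = 2 * (c k / 2) + 1 := by
    push_cast at h2
    omega
  rw [← h4]
  exact_mod_cast h3

/-- the parity lemma -/
theorem tie_par {a : ℝ} {x y u v x1 : ℤ} {s : ℕ} (hx : a * x = 1 / 2 + u) (hy : 2 * (a * y) = v)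
    (h1 : x = 2 ^ s * (2 * x1 + 1)) : ∃ z : ℤ, y = 2 ^ s * (v + 2 * z) := by
  have e : (2 * u + 1) * y = v * x := by
    have : (2 * u + 1 : ℝ) * y = v * x := by
      rw [← hy]
      linear_combination (-2 * (y : ℝ)) * hx
    exact_mod_cast this
  have hc : IsCoprime ((2 : ℤ) ^ s) (2 * u + 1) :=
    IsCoprime.pow_left ⟨-u, 1, by ring⟩
  have hd : (2 : ℤ) ^ s ∣ (2 * u + 1) * y := ⟨v * (2 * x1 + 1), by rw [e, h1]; ring⟩
  obtain ⟨y1, hy1⟩ := hc.dvd_of_dvd_mul_left hd
  have h2 : (2 * u + 1) * y1 = v * (2 * x1 + 1) := by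
    have h3 : (2 : ℤ) ^ s ≠ 0 := by positivity
    refine mul_left_cancel₀ h3 ?_
    rw [hy1, h1] at e
    linear_combination e
  refine ⟨v * x1 - u * y1, ?_⟩
  rw [hy1]
  linear_combination (2 : ℤ) ^ s * h2

theorem tie_solve {a : ℝ} {B N1 N2 B1 u v m : ℤ} {V : ℕ} (j : ℤ) (hB : B = 2 ^ V * (2 * B1 + 1))
    (h0 : a * B = m) (h2 : a * N2 = 1 / 2 + u) (h1 : 2 * (a * N1) = v) :
    ∃ t r : ℤ, N1 + (v + 2 * t) * N2 = j * 2 ^ V + 2 ^ (V + 1) * r := by
  have hN : N2 ≠ 0 := by
    rintro rfl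
    have h3 : (2 * u + 1 : ℝ) = 0 := by
      push_cast at h2
      linear_combination (-2) * h2
    have h4 : 2 * u + 1 = 0 := by exact_mod_cast h3
    omega
  obtain ⟨s, x1, hs⟩ := tie_two hN
  obtain ⟨z, hz⟩ := tie_par h2 h1 hs
  obtain ⟨z', hz'⟩ := tie_par (v := 2 * m) h2 (by rw [h0]; push_cast; ring) hs
  have hlt : s + 1 ≤ V := by
    by_contra hh
    obtain ⟨d, rfl⟩ := Nat.exists_eq_add_of_le (show V ≤ s by omega)
    have h3 : (2 : ℤ) ^ V ≠ 0 := by positivity
    have h4 : 2 * B1 + 1 = 2 * (2 ^ d * (m + z')) := by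
      refine mul_left_cancel₀ h3 ?_
      rw [← hB, hz']
      ring
    omega
  obtain ⟨d, rfl⟩ := Nat.exists_eq_add_of_le hlt
  have hc : IsCoprime ((2 : ℤ) ^ (d + 1)) (2 * x1 + 1) :=
    IsCoprime.pow_left ⟨-x1, 1, by ring⟩
  obtain ⟨g, i, hgi⟩ := hc
  refine ⟨i * (j * 2 ^ d - z - v * (x1 + 1)), -(g * (j * 2 ^ d - z - v * (x1 + 1))), ?_⟩
  rw [hz, hs]
  linear_combination (2 ^ (s + 1) * (j * 2 ^ d - z - v * (x1 + 1))) * hgi

/-- the two multipliers -/
theorem tie_mult {a : ℝ} {B N1 N2 B1 u1 u2 m : ℤ} {V : ℕ} (j : ℤ) (s1 s2 : Bool)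
    (hs : s1 = true ∨ s2 = true) (hB : B = 2 ^ V * (2 * B1 + 1)) (h0 : a * B = m)
    (h1 : a * N1 = (if s2 then 1 / 2 else 0) + u1) (h2 : a * N2 = (if s1 then 1 / 2 else 0) + u2) :
    ∃ t1 t2 r : ℤ, ((if s1 then 1 else 0) + 2 * t1) * N1 + ((if s2 then 1 else 0) + 2 * t2) * N2 =
      j * 2 ^ V + 2 ^ (V + 1) * r := by
  cases s1 with
  | true =>
    obtain ⟨t, r, h⟩ := tie_solve (N1 := N1) (v := (if s2 then 1 else 0) + 2 * u1) j hB h0
      (by simpa using h2) (by rw [h1]; cases s2 <;> simp; ring)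
    refine ⟨0, u1 + t, r, ?_⟩
    simp only [if_true]
    linear_combination h
  | false =>
    obtain rfl : s2 = true := by simpa using hs
    obtain ⟨t, r, h⟩ := tie_solve (N1 := N2) (v := 2 * u2) j hB h0
      (by simpa using h1) (by rw [h2]; simp)
    refine ⟨u2 + t, 0, r, ?_⟩
    simp only [if_true, Bool.false_eq_true, if_false]
    linear_combination h

theorem stTIE : St_TIE := by
  rintro q S X hok hG T hT ⟨o, b, α, w, h0, h1, h2⟩
  simp only [tieOK, Bool.and_eq_true, decide_eq_true_eq, beq_iff_eq, Bool.or_eq_true] at hok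
  obtain ⟨⟨⟨⟨⟨⟨⟨⟨⟨hq, hq2⟩, hm⟩, hs⟩, hmk⟩, hso⟩, hss⟩, hn1⟩, hn2⟩, hκ⟩ := hok
  have hq0 : (q : ℝ) ≠ 0 := by positivity
  obtain ⟨k0, hk0, hk1⟩ := tie_some _ _ _ hso
  obtain ⟨u, hu⟩ : ∃ u : ℤ, α X.c * b k0 = 1 / 2 + u := by
    obtain ⟨m1, e1⟩ := h2 X.c k0
    obtain ⟨m2, e2⟩ := tie_phEq hq w hk1
    exact ⟨m2 + m1, by rw [e1, e2, tie_half hq hq2]; push_cast; ring⟩
  have hB0 : b k0 ≠ 0 := by
    intro hb
    rw [hb] at hu
    have h3 : (2 * u + 1 : ℝ) = 0 := by
      push_cast at hu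
      linear_combination (-2) * hu
    have h4 : 2 * u + 1 = 0 := by exact_mod_cast h3
    omega
  obtain ⟨V, B1, hB⟩ := tie_two hB0
  obtain ⟨m0, hm0⟩ : ∃ m0 : ℤ, α X.c0 * b k0 = m0 := by
    obtain ⟨m1, e1⟩ := h2 X.c0 k0
    obtain ⟨m2, e2⟩ := tie_phEq hq w (tie_mark _ _ _ _ hmk k0 hk0).2
    exact ⟨m2 + m1, by rw [e1, e2]; simp [ev]⟩
  have hN : ∀ (n : List ℤ) (s : Bool),
      phEq q (comb n (S.row X.c0)) (if s then [((q / 2 : ℕ) : ℤ)] else []) = true →
      ∃ u : ℤ, α X.c0 * ((dot n b : ℤ) : ℝ) = (if s then 1 / 2 else 0) + u := by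
    intro n s h
    obtain ⟨m1, e1⟩ := ev_comb q w (α X.c0) n _ b (h2 X.c0)
    obtain ⟨m2, e2⟩ := tie_phEq hq w h
    refine ⟨m2 + m1, ?_⟩
    rw [e1, e2]
    cases s with
    | true => simp only [if_true]; rw [tie_half hq hq2]; push_cast; ring
    | false => simp [ev]
  obtain ⟨u1, hu1⟩ := hN _ _ hn1
  obtain ⟨u2, hu2⟩ := hN _ _ hn2
  obtain ⟨j, hj⟩ := Int.dvd_of_emod_eq_zero hκ
  obtain ⟨t1, t2, r, hr⟩ := tie_mult j X.s1 X.s2 hss hB hm0 hu1 hu2
  have hP : (2 : ℝ) ^ V ≠ 0 := by positivity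
  have hrow : ∀ (s : Bool) (t : ℤ) (k : ℕ) (x : ℤ),
      (tieOpt s X.m (S.row X.c)).getD k none = some x → ∃ m : ℤ,
        (((if s then 1 else 0) + 2 * t : ℤ) : ℝ) / 2 ^ (V + 1) * b k = (x : ℝ) / q + m := by
    intro s t k x hx
    obtain ⟨hk, rfl⟩ := tie_opt _ _ _ _ _ hx
    obtain ⟨m1, e1⟩ := h2 X.c k
    have hmk' := (tie_mark _ _ _ _ hmk k hk).1
    have e3 : ev q w ((S.row X.c).getD k []) = ((((S.row X.c).getD k []).headD 0 : ℤ) : ℝ) / q := by
      rcases hmk' with h | h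
      · exact tie_head w h rfl
      · exact tie_head w h rfl
    obtain ⟨v, hv⟩ : ∃ v : ℤ, 2 * ev q w ((S.row X.c).getD k []) = v := by
      rcases hmk' with h | h
      · obtain ⟨m2, e2⟩ := tie_phEq hq w h
        exact ⟨2 * m2, by rw [e2]; simp [ev]⟩
      · obtain ⟨m2, e2⟩ := tie_phEq hq w h
        exact ⟨1 + 2 * m2, by rw [e2, tie_half hq hq2]; push_cast; ring⟩
    obtain ⟨z, hz⟩ := tie_par (y := b k) (v := v + 2 * m1) hu
      (by rw [e1]; push_cast; linear_combination hv) hB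
    have hz' : (b k : ℝ) = 2 ^ V * (v + 2 * m1 + 2 * z) := by exact_mod_cast hz
    cases s with
    | true =>
      refine ⟨m1 + z + t * (v + 2 * m1 + 2 * z), ?_⟩
      simp only [if_true]
      rw [← e3, hz']
      push_cast
      have : ev q w ((S.row X.c).getD k []) = v / 2 := by linear_combination hv / 2
      rw [this]
      field_simp
      ring
    | false =>
      refine ⟨t * (v + 2 * m1 + 2 * z), ?_⟩
      simp only [Bool.false_eq_true, if_false]
      rw [hz']
      push_cast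
      field_simp
      ring
  set β1 : ℝ := (((if X.s1 then 1 else 0) + 2 * t1 : ℤ) : ℝ) / 2 ^ (V + 1) with hβ1
  set β2 : ℝ := (((if X.s2 then 1 else 0) + 2 * t2 : ℤ) : ℝ) / 2 ^ (V + 1) with hβ2
  obtain ⟨w1, a1, a2⟩ := st2_newRow q (tieOpt X.s1 X.m (S.row X.c)) X.F (fun k => β1 * b k) w
    (hrow X.s1 t1) fun k hk => by
      rw [tie_opt_len, hm] at hk
      simp [h0 k hk]
  obtain ⟨w2, a3, a4⟩ := st2_newRow q (tieOpt X.s2 X.m (S.row X.c)) (X.F + S.n)
    (fun k => β2 * b k) w1 (hrow X.s2 t2) fun k hk => by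
      rw [tie_opt_len, hm] at hk
      simp [h0 k hk]
  have a5 : ∀ k, ∃ m : ℤ, β1 * b k = ev q w2 ((X.r1 S).getD k []) + m := by
    intro k
    obtain ⟨m, hm'⟩ := a2 k
    refine ⟨m, ?_⟩
    have hl := tie_newRow_len (tieOpt X.s1 X.m (S.row X.c)) X.F k
    rw [tie_opt_len, hm] at hl
    rw [Tie.r1, tie_ev_congr q _ a3 hl]
    exact hm'
  have a6 : ∀ k, ∃ m : ℤ, β2 * b k = ev q w2 ((X.r2 S).getD k []) + m := a4
  obtain ⟨D, hD⟩ : ∃ D : ℤ, ev q w2 (X.d S) = D := by
    obtain ⟨m1, e1⟩ := ev_comb q w2 β1 X.n1 _ b a5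
    obtain ⟨m2, e2⟩ := ev_comb q w2 β2 X.n2 _ b a6
    refine ⟨m1 + m2 - r, ?_⟩
    have e3 : β1 * ((dot X.n1 b : ℤ) : ℝ) + β2 * ((dot X.n2 b : ℤ) : ℝ) = j / 2 + r := by
      have e4 : (((if X.s1 then 1 else 0) + 2 * t1 : ℤ) : ℝ) * ((dot X.n1 b : ℤ) : ℝ) +
          (((if X.s2 then 1 else 0) + 2 * t2 : ℤ) : ℝ) * ((dot X.n2 b : ℤ) : ℝ) =
          j * 2 ^ V + 2 ^ (V + 1) * r := by exact_mod_cast hr
      rw [hβ1, hβ2, div_mul_eq_mul_div, div_mul_eq_mul_div, ← add_div, e4]
      field_simp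
      ring
    have e5 : ev q w2 [X.κ] = j / 2 := by
      have e6 : (2 : ℝ) * X.κ = q * j := by exact_mod_cast hj
      simp only [ev, dot_nil, add_zero]
      field_simp
      linear_combination e6
    rw [Tie.d, ev_ladd, ev_lsmul, ev_ladd, e5]
    push_cast
    linear_combination e1 + e2 - e3
  have a7 : ∀ (β : ℝ) (e : List ℤ) (ρ : List (List ℤ)),
      (∀ k, ∃ m : ℤ, β * b k = ev q w2 (ρ.getD k []) + m) →
      ∀ k, ∃ m : ℤ, β * b k = ev q w2 ((addMul (X.d S) e ρ).getD k []) + m := by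
    intro β e ρ h k
    obtain ⟨m, hm'⟩ := h k
    obtain ⟨x, hx⟩ := tie_addMul q w2 (X.d S) e ρ k
    refine ⟨m - x * D, ?_⟩
    rw [hx, hD, hm']
    push_cast
    ring
  refine hG T hT ⟨o, b, fun c => if c = S.tab.length + 1 then β2 else
    if c = S.tab.length then β1 else α c, w2, h0, h1, fun c k => ?_⟩
  have e : (S.tie X).row c = if c = S.tab.length + 1 then addMul (X.d S) X.e2 (X.r2 S) else
      if c = S.tab.length then addMul (X.d S) X.e1 (X.r1 S) else S.row c := by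
    have e1 := st2_getD_app (S.tab ++ [addMul (X.d S) X.e1 (X.r1 S)])
      (addMul (X.d S) X.e2 (X.r2 S)) c
    rw [List.append_assoc, List.length_append, st2_getD_app S.tab] at e1
    exact e1
  rw [e]
  beta_reduce
  split_ifs with hc hc'
  · exact a7 _ _ _ a6 k
  · exact a7 _ _ _ a5 k
  · obtain ⟨m, hm'⟩ := h2 c k
    refine ⟨m, ?_⟩
    have hl : ((S.row c).getD k []).length ≤ X.F + 1 := st2_tabShort hs c k
    rw [tie_ev_congr q X.F (w := w) (fun i hi => ?_) hl, hm']
    rw [a3 i (by omega), a1 i hi]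

theorem tie_all (q : ℕ) (l : List Tie) (S : St) (h : tiesOK q S l = true)
    (hG : Good q (tieAll S l)) : Good q S := by
  induction l generalizing S with
  | nil => exact hG
  | cons X l ih =>
    simp only [tiesOK, Bool.and_eq_true] at h
    exact stTIE q S X h.1 (ih _ h.2 hG)

theorem stTIES (hT : St_TREE) : St_TIES := by
  intro q Hs l hHs h
  induction l with
  | nil => intro H hH; cases hH
  | cons e l ih =>
    simp only [chkTies, Bool.and_eq_true, Bool.not_eq_true'] at h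
    intro H hH
    rcases List.mem_cons.1 hH with rfl | hH
    · exact tie_all q _ _ h.1.1.1 (hT q Hs _ _ hHs h.1.1.2 h.1.2)
    · exact ih h.2 H hH

end Pool.Agent.Lib.B5
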