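import Pool.Agent.Lib.B5.BDefs
import Pool.Agent.Lib.B5.TIE

/-! Soundness of steering steps and of box trees. -/

set_option autoImplicit false

namespace Pool.Agent.Lib.B5

namespace STEER

theorem row (q : ℕ) (d : List ℤ) (a : List (Option ℤ)) (r : List (List ℤ)) (G : ℕ)
    (v w : ℕ → ℝ) (hd : d.length ≤ G + 1) (hr : ∀ k, (r.getD k []).length ≤ G + 1)
    (h : ∀ k x, a.getD k none = some x →
      ∃ m : ℤ, v k = ev q w (r.getD k []) + x * ev q w d + m)
    (h' : ∀ k, a.length ≤ k → v k = 0) :
    ∃ w' : ℕ → ℝ, (∀ i < G, w' i = w i) ∧ ∀ u : ℕ → ℝ, (∀ i < G + a.length, u i = w' i) →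
      ∀ k, ∃ m : ℤ, v k = ev q u ((stRow d a r G).getD k []) + m := by
  induction a generalizing r G v w with
  | nil => exact ⟨w, fun _ _ => rfl, fun u _ k => ⟨0, by simp [stRow, ev, h' k (Nat.zero_le k)]⟩⟩
  | cons y a ih =>
    have e1 : ∀ k, (r.tail.getD k []).length ≤ G + 1 := fun k => st2_tail r k ▸ hr (k + 1)
    have e2 : ∀ k, a.length ≤ k → v (k + 1) = 0 := fun k hk => h' _ (Nat.succ_le_succ hk)
    cases y with
    | some x =>
      obtain ⟨w', h1, h2⟩ := ih r.tail G (fun k => v (k + 1)) w hd e1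
        (fun k y hk => st2_tail r k ▸ h (k + 1) y hk) e2
      refine ⟨w', h1, fun u hu k => ?_⟩
      cases k with
      | zero =>
        obtain ⟨m, hm⟩ := h 0 x rfl
        have e3 : ∀ i < G, u i = w i := fun i hi => (hu i (by omega)).trans (h1 i hi)
        refine ⟨m, ?_⟩
        change v 0 = ev q u (ladd (r.headD []) (lsmul x d)) + m
        rw [ev_ladd, ev_lsmul, st2_head, tie_ev_congr q G e3 (hr 0), tie_ev_congr q G e3 hd, hm]
      | succ k => exact h2 u (fun i hi => hu i (by rw [List.length_cons]; omega)) k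
    | none =>
      have e3 : ∀ i < G, Function.update w G (v 0) i = w i := fun i hi =>
        Function.update_of_ne hi.ne _ _
      obtain ⟨w', h1, h2⟩ := ih r.tail (G + 1) (fun k => v (k + 1)) (Function.update w G (v 0))
        (by omega) (fun k => (e1 k).trans (by omega)) (fun k y hk => by
          rw [tie_ev_congr q G e3 (e1 k), tie_ev_congr q G e3 hd]
          exact st2_tail r k ▸ h (k + 1) y hk) e2
      refine ⟨w', fun i hi => (h1 i (by omega)).trans (e3 i hi), fun u hu k => ?_⟩
      cases k with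
      | zero =>
        refine ⟨0, ?_⟩
        change v 0 = ev q u (unitPh G) + ((0 : ℤ) : ℝ)
        rw [st2_ev_unit, hu G (by rw [List.length_cons]; omega), h1 G (by omega)]
        simp
      | succ k => exact h2 u (fun i hi => hu i (by rw [List.length_cons]; omega)) k

theorem rows (q : ℕ) (S : St) (d : List ℤ) (b : ℕ → ℤ) (h0 : ∀ k, S.n ≤ k → b k = 0)
    (β : ℕ × ℕ × List (Option ℤ) → ℝ) (l : List (ℕ × ℕ × List (Option ℤ))) (G : ℕ) (w : ℕ → ℝ)
    (hd : d.length ≤ G + 1) (hr : ∀ c k, ((S.row c).getD k []).length ≤ G + 1)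
    (h : ∀ e ∈ l, e.2.2.length = S.n ∧ ∀ k x, e.2.2.getD k none = some x →
      ∃ m : ℤ, β e * b k = ev q w ((S.row e.1).getD k []) + x * ev q w d + m) :
    ∃ w' α : ℕ → ℝ, (∀ i < G, w' i = w i) ∧
      ∀ j k, ∃ m : ℤ, α j * b k = ev q w' (((stRows S d l G).getD j []).getD k []) + m := by
  induction l generalizing G w with
  | nil => exact ⟨w, fun _ => 0, fun _ _ => rfl, fun j k => ⟨0, by simp [stRows, ev]⟩⟩
  | cons e l ih =>
    obtain ⟨h1, h2⟩ := h e List.mem_cons_self
    obtain ⟨w₁, a1, a2⟩ := row q d e.2.2 (S.row e.1) G (fun k => β e * b k) w hd (hr _) h2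
      fun k hk => by simp [h0 k (h1 ▸ hk)]
    obtain ⟨w₂, α, a3, a4⟩ := ih (G + S.n) w₁ (by omega) (fun c k => (hr c k).trans (by omega))
      fun e' he => ⟨(h e' (List.mem_cons_of_mem _ he)).1, fun k x hk => by
        rw [tie_ev_congr q G a1 (hr _ _), tie_ev_congr q G a1 hd]
        exact (h e' (List.mem_cons_of_mem _ he)).2 k x hk⟩
    refine ⟨w₂, fun j => Nat.casesOn j (β e) α,
      fun i hi => (a3 i (by omega)).trans (a1 i hi), fun j k => ?_⟩
    cases j with
    | zero => exact a2 w₂ (h1 ▸ a3) k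
    | succ j => exact a4 j k

theorem mark (q : ℕ) (s : ℤ) (a : List (Option ℤ)) (r : List (List ℤ))
    (h : stMark q s a r = true) (k : ℕ) (x : ℤ) (hk : a.getD k none = some x) :
    phEq q (r.getD k []) [x * s] = true := by
  induction a generalizing r k with
  | nil => simp at hk
  | cons y a ih =>
    cases y with
    | none =>
      cases k with
      | zero => simp at hk
      | succ k => exact st2_tail r k ▸ ih r.tail h k hk
    | some y =>
      simp only [stMark, Bool.and_eq_true] at h
      cases k with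
      | zero =>
        obtain rfl : y = x := Option.some.inj hk
        exact st2_head r ▸ h.1
      | succ k => exact st2_tail r k ▸ ih r.tail h.2 k hk

theorem marks (q : ℕ) (S : St) (s : ℤ) (l : List (ℕ × ℕ × List (Option ℤ)))
    (h : stMarks q S s l = true) :
    ∀ e ∈ l, e.2.2.length = S.n ∧ stMark q s e.2.2 (S.row e.2.1) = true := by
  induction l with
  | nil => exact fun e he => absurd he List.not_mem_nil
  | cons a l ih =>
    simp only [stMarks, Bool.and_eq_true, beq_iff_eq] at h
    intro e he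
    rcases List.mem_cons.1 he with rfl | he
    exacts [h.1, ih h.2 e he]

theorem short (F : ℕ) (B : Bd) (h : bdShort F B = true) : ∀ e ∈ B, e.1 < F := by
  induction B with
  | nil => exact fun e he => absurd he List.not_mem_nil
  | cons a l ih =>
    simp only [bdShort, Bool.and_eq_true, decide_eq_true_eq] at h
    intro e he
    rcases List.mem_cons.1 he with rfl | he
    exacts [h.1, ih h.2 e he]

theorem len_ladd (a b : List ℤ) : (ladd a b).length = max a.length b.length := by
  induction a generalizing b with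
  | nil => simp [ladd]
  | cons x a ih =>
    cases b with
    | nil => simp [ladd]
    | cons y b => simp [ladd, ih]

theorem len_lsmul (c : ℤ) (a : List ℤ) : (lsmul c a).length = a.length := by
  induction a with
  | nil => rfl
  | cons x a ih => simp [lsmul, ih]

end STEER

open STEER in
theorem stSTEER : St_STEER := by
  rintro q S B X hok hG T hT ⟨o, b, α, w, hB, h0, h1, h2⟩
  simp only [steerOK, Bool.and_eq_true, decide_eq_true_eq] at hok
  obtain ⟨⟨⟨⟨⟨hq, hs⟩, ht⟩, hE⟩, hb⟩, hm⟩ := hok
  have q0 : (0 : ℝ) < q := by exact_mod_cast hq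
  have s0 : (0 : ℝ) < X.s := by exact_mod_cast hs
  obtain ⟨N, n1, n2⟩ : ∃ N : ℤ, (X.lo : ℝ) / q ≤ ev q w X.E + N * X.s / q ∧
      ev q w X.E + N * X.s / q ≤ ((X.lo + X.s : ℤ) : ℝ) / q := by
    have a1 := Int.le_ceil ((X.lo - q * ev q w X.E) / X.s)
    have a2 := (Int.ceil_lt_add_one ((X.lo - q * ev q w X.E) / X.s)).le
    rw [div_le_iff₀ s0] at a1
    rw [div_add_one s0.ne', le_div_iff₀ s0] at a2
    refine ⟨⌈(X.lo - q * ev q w X.E) / X.s⌉, ?_, ?_⟩
    · rw [← sub_le_iff_le_add, ← sub_div, div_le_iff₀ q0]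
      linarith
    · rw [← le_sub_iff_add_le, ← sub_div, le_div_iff₀ q0]
      push_cast
      linarith
  have e1 : ∀ i < X.F, Function.update w X.F (ev q w X.E + N * X.s / q) i = w i := fun i hi =>
    Function.update_of_ne hi.ne _ _
  have e2 : ∀ c k, ((S.row c).getD k []).length ≤ X.F + 1 := st2_tabShort ht
  obtain ⟨w', α', a1, a2⟩ := rows q S (ladd (unitPh X.F) (lsmul (-1) X.E)) b h0
    (fun e => α e.1 + N * α e.2.1) X.rows (X.F + 1)
    (Function.update w X.F (ev q w X.E + N * X.s / q))
    (by rw [len_ladd, len_lsmul, tie_unit_len]; omega) (fun c k => (e2 c k).trans (by omega))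
    fun e he => ⟨(marks q S X.s _ hm e he).1, fun k x hk => by
      obtain ⟨m1, k1⟩ := h2 e.1 k
      obtain ⟨m2, k2⟩ := h2 e.2.1 k
      obtain ⟨m3, k3⟩ := tie_phEq hq w (mark q X.s _ _ (marks q S X.s _ hm e he).2 k x hk)
      refine ⟨m1 + N * (m3 + m2), ?_⟩
      rw [tie_ev_congr q X.F e1 (e2 _ _), ev_ladd, ev_lsmul, st2_ev_unit, Function.update_self,
        tie_ev_congr q X.F e1 hE, add_mul, mul_assoc, k1, k2, k3]
      simp only [ev, dot_nil]
      push_cast
      ring⟩
  have e3 : ∀ i < X.F, w' i = w i := fun i hi => (a1 i (by omega)).trans (e1 i hi)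
  have e4 : w' X.F = ev q w X.E + N * X.s / q := by
    rw [a1 _ (by omega), Function.update_self]
  refine hG T hT ⟨o, b, fun c => if c < S.tab.length then α c else α' (c - S.tab.length), w',
    fun e he => ?_, h0, h1, fun c k => ?_⟩
  · rcases List.mem_cons.1 he with rfl | he
    · exact (if_pos rfl).mpr (e4 ▸ n1)
    rcases List.mem_cons.1 he with rfl | he
    · exact (if_neg Bool.false_ne_true).mpr (e4 ▸ n2)
    rw [e3 _ (short _ _ hb e he)]
    exact hB e he
  · change ∃ m : ℤ, _ = ev q w' (((S.tab ++ _).getD c []).getD k []) + m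
    beta_reduce
    split_ifs with hc
    · rw [List.getD_append _ _ _ _ hc, tie_ev_congr q X.F e3 (st2_tabShort ht c k)]
      exact h2 c k
    · rw [List.getD_append_right _ _ _ _ (not_lt.1 hc)]
      exact a2 _ k

theorem stTB (hL : St_BLEAF) (hS : St_STEER) : St_TB := by
  have key : ∀ (q : ℕ) (t : Tb) (S : St) (B : Bd), chkTb q t S B = true → GoodB q S B := by
    intro q t
    induction t with
    | box C => exact fun S B h => hL q S B C h
    | steer X t ih =>
      intro S B h
      simp only [chkTb, Bool.and_eq_true] at h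
      exact hS q S B X h.1 (ih _ _ h.2)
    | split i c t u iht ihu =>
      rintro S B h T hT ⟨o, b, α, w, hB, hr⟩
      simp only [chkTb, Bool.and_eq_true] at h
      rcases le_total (w i) ((c : ℝ) / q) with k | k
      · refine iht _ _ h.1 T hT ⟨o, b, α, w, fun e he => ?_, hr⟩
        rcases List.mem_cons.1 he with rfl | he
        exacts [(if_neg Bool.false_ne_true).mpr k, hB e he]
      · refine ihu _ _ h.2 T hT ⟨o, b, α, w, fun e he => ?_, hr⟩
        rcases List.mem_cons.1 he with rfl | he
        exacts [(if_pos rfl).mpr k, hB e he]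
  rintro q t S h T hT ⟨o, b, α, w, hr⟩
  exact key q t S [] h T hT ⟨o, b, α, w, fun e he => absurd he List.not_mem_nil, hr⟩

end Pool.Agent.Lib.B5
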