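import Pool.Agent.Lib.B5.BDefs
import Pool.Agent.Lib.B5.TREE
import Pool.Agent.Lib.B5.ST2

/-! Soundness of the second case tree. -/

set_option autoImplicit false

namespace Pool.Agent.Lib.B5

theorem stSTEPN : St_STEPN := by
  classical
  rintro q p F c0 i S m hp hq hr hm hs hz hk T hT ⟨o, b, α, w, h0, h1, h2⟩
  obtain ⟨hp0, e⟩ := st2_div hq hr
  have hb : ∃ k, m.getD k false = true ∧ b k ≠ 0 := by
    simp only [nzAt, Bool.and_eq_true, Bool.not_eq_true', beq_eq_false_iff_ne] at hz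
    refine ⟨i, hz.1.1, fun h3 => hz.2 ?_⟩
    obtain ⟨t, ht⟩ := h2 c0 i
    rw [h3, ev_eq, dot_lz hz.1.2] at ht
    have h7 : (q : ℝ) ≠ 0 := by positivity
    have h8 : ((((S.row c0).getD i []).headD 0 : ℤ) : ℝ) = q * (-t) := by
      field_simp at ht
      push_cast at ht
      linarith
    exact Int.emod_eq_zero_of_dvd ⟨-t, by exact_mod_cast h8⟩
  obtain ⟨n, c, hc, hex⟩ := st2_pow hp.one_lt (fun k => m.getD k false = true) b hb
  obtain ⟨hi, hn⟩ := Nat.find_spec hex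
  have hpz : Prime (p : ℤ) := Nat.prime_iff_prime_int.1 hp
  obtain ⟨v, u, huv⟩ := (hpz.irreducible.coprime_iff_not_dvd).2 hn
  have hp1 : (1 : ℤ) < p := by exact_mod_cast hp.one_lt
  have hp2 : (0 : ℤ) < p := by omega
  refine hk _ (st2_addAll S F (st2_nzA p _ m (fun k => (u * c k) % p)
    (fun k => ⟨Int.emod_nonneg _ hp2.ne', Int.emod_lt_of_pos _ hp2⟩) (Nat.find hex) hi ?_
    fun k hk hmk => ?_)) T hT (st2_add hs h0 h1 h2 (u / (p : ℝ) ^ (n + 1)) _
      ((st2A_len _ _ _).trans hm) fun k x hx => ?_)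
  · have : u * c (Nat.find hex) = 1 + (p : ℤ) * (-v) := by linear_combination huv
    beta_reduce
    rw [this, Int.add_mul_emod_self_left, Int.emod_eq_of_lt zero_le_one hp1]
  · have : (p : ℤ) ∣ c k := not_not.1 fun h3 => Nat.find_min hex hk ⟨hmk, h3⟩
    exact Int.emod_eq_zero_of_dvd (this.mul_left u)
  · obtain ⟨hmk, rfl⟩ := st2A_get _ _ _ _ _ hx
    refine ⟨u * c k / p, ?_⟩
    have h3 : (((u * c k) % p : ℤ) : ℝ) + p * ((u * c k / p : ℤ) : ℝ) = u * c k := by
      exact_mod_cast Int.emod_add_mul_ediv (u * c k) p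
    have h4 : (p : ℝ) ≠ 0 := by positivity
    rw [hc k hmk, Int.cast_mul ((u * c k) % p), mul_div_assoc, e]
    push_cast at h3 ⊢
    field_simp
    linear_combination (-(p : ℝ) ^ (n + 1)) * h3

theorem tree2_aux (hT : St_TREE) (hB : St_TB) (hA : St_ABS) (hG : St_GEN) (hR : St_RE)
    (hS : St_STEP) (hF : St_FREE) (hV : St_DIV) (hI : St_TIE) (hC : St_CMB) (hK : St_SCALE)
    (t : T2) : ∀ (q : ℕ) (Hs : List St) (S : St) (l : List St), (∀ H ∈ Hs, Good q H) →
      chk2 t q Hs S l = true →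
      (t.chain = true → ∀ c ∈ l, Good q c) ∧ (t.chain = false → Good q S) := by
  induction t with
  | old t =>
    intro q Hs S l hHs h
    refine ⟨fun h' => absurd h' (by simp [T2.chain]), fun _ => ?_⟩
    simp only [chk2, Bool.and_eq_true, Bool.not_eq_true'] at h
    exact hT q Hs t S hHs h.1 h.2
  | bx t =>
    intro q Hs S l _ h
    exact ⟨fun h' => absurd h' (by simp [T2.chain]), fun _ => hB q t S h⟩
  | abs G e e' x y =>
    intro q Hs S l _ h
    exact ⟨fun h' => absurd h' (by simp [T2.chain]), fun _ => hA q S G e e' x y h⟩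
  | gen i es σ =>
    intro q Hs S l hHs h
    refine ⟨fun h' => absurd h' (by simp [T2.chain]), fun _ => ?_⟩
    simp only [chk2, Bool.and_eq_true, decide_eq_true_eq] at h
    refine hG q S _ es σ h.2 (hHs _ ?_)
    rw [List.getD_eq_getElem _ _ h.1]
    exact List.getElem_mem _
  | re π M ch t ih =>
    intro q Hs S l hHs h
    refine ⟨fun h' => absurd h' (by simp [T2.chain]), fun _ => ?_⟩
    simp only [chk2, Bool.and_eq_true, Bool.not_eq_true'] at h
    exact hR q S π M ch h.1.1 ((ih _ _ _ _ hHs h.2).2 h.1.2)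
  | step p m F z k ihz ihk =>
    intro q Hs S l hHs h
    refine ⟨fun h' => absurd h' (by simp [T2.chain]), fun _ => ?_⟩
    simp only [chk2, Bool.and_eq_true, decide_eq_true_eq, Bool.not_eq_true', beq_iff_eq,
      Bool.or_eq_true] at h
    obtain ⟨⟨⟨⟨⟨⟨⟨⟨hp, hq⟩, hqp⟩, hm⟩, hT⟩, hz⟩, hk⟩, cz⟩, ck⟩ := h
    have hpp : p.Prime := by
      rcases hp with (rfl | rfl) | rfl <;> norm_num
    exact hS q p F S m hpp hq (Nat.dvd_of_mod_eq_zero hqp) hm hT ((ihz _ _ _ _ hHs cz).2 hz)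
      ((ihk _ _ _ _ hHs ck).1 hk)
  | free r i F z k ihz ihk =>
    intro q Hs S l hHs h
    refine ⟨fun h' => absurd h' (by simp [T2.chain]), fun _ => ?_⟩
    simp only [chk2, Bool.and_eq_true, decide_eq_true_eq, Bool.not_eq_true', beq_iff_eq] at h
    obtain ⟨⟨⟨⟨⟨⟨⟨hq, hqr⟩, hi⟩, hT⟩, hz⟩, hk⟩, cz⟩, ck⟩ := h
    exact hF q r i F S hq (Nat.dvd_of_mod_eq_zero hqr) hi hT ((ihz _ _ _ _ hHs cz).2 hz)
      ((ihk _ _ _ _ hHs ck).2 hk)
  | div c r m F k ihk =>
    intro q Hs S l hHs h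
    refine ⟨fun h' => absurd h' (by simp [T2.chain]), fun _ => ?_⟩
    simp only [chk2, Bool.and_eq_true, decide_eq_true_eq, beq_iff_eq] at h
    obtain ⟨⟨⟨⟨⟨⟨hq, hqr⟩, hm⟩, hT⟩, hd⟩, hk⟩, ck⟩ := h
    exact hV q c r F S m hq (Nat.dvd_of_mod_eq_zero hqr) hm hT hd ((ihk _ _ _ _ hHs ck).1 hk)
  | tie X t ih =>
    intro q Hs S l hHs h
    refine ⟨fun h' => absurd h' (by simp [T2.chain]), fun _ => ?_⟩
    simp only [chk2, Bool.and_eq_true, Bool.not_eq_true'] at h
    exact hI q S X h.1.1 ((ih _ _ _ _ hHs h.2).2 h.1.2)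
  | cmb e t ih =>
    intro q Hs S l hHs h
    refine ⟨fun h' => absurd h' (by simp [T2.chain]), fun _ => ?_⟩
    simp only [chk2, Bool.and_eq_true, Bool.not_eq_true'] at h
    exact hC q S e ((ih _ _ _ _ hHs h.2).2 h.1)
  | scale r t ih =>
    intro q Hs S l _ h
    refine ⟨fun h' => absurd h' (by simp [T2.chain]), fun _ => ?_⟩
    simp only [chk2, Bool.and_eq_true, decide_eq_true_eq, Bool.not_eq_true'] at h
    exact hK q r S h.1.1 ((ih _ _ _ _ (fun H hH => absurd hH List.not_mem_nil) h.2).2 h.1.2)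
  | stepn p m F c i k ihk =>
    intro q Hs S l hHs h
    refine ⟨fun h' => absurd h' (by simp [T2.chain]), fun _ => ?_⟩
    simp only [chk2, Bool.and_eq_true, decide_eq_true_eq, beq_iff_eq, Bool.or_eq_true] at h
    obtain ⟨⟨⟨⟨⟨⟨⟨hp, hq⟩, hqp⟩, hm⟩, hT⟩, hk⟩, hz⟩, ck⟩ := h
    have hpp : p.Prime := by
      rcases hp with (rfl | rfl) | rfl <;> norm_num
    exact stSTEPN q p F c i S m hpp hq (Nat.dvd_of_mod_eq_zero hqp) hm hT hz
      ((ihk _ _ _ _ hHs ck).1 hk)
  | nil =>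
    intro q Hs S l _ h
    refine ⟨fun _ c hc => ?_, fun h' => absurd h' (by simp [T2.chain])⟩
    simp only [chk2, List.isEmpty_iff] at h
    rw [h] at hc
    exact absurd hc List.not_mem_nil
  | cons a t iha iht =>
    intro q Hs S l hHs h
    refine ⟨fun _ => ?_, fun h' => absurd h' (by simp [T2.chain])⟩
    cases l with
    | nil => simp [chk2] at h
    | cons c l =>
      simp only [chk2, Bool.and_eq_true, Bool.not_eq_true'] at h
      obtain ⟨⟨⟨ha, ht⟩, ca⟩, ct⟩ := h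
      intro c' hc'
      rcases List.mem_cons.1 hc' with rfl | hc'
      · exact (iha _ _ _ _ hHs ca).2 ha
      · exact (iht _ _ _ _ hHs ct).1 ht c' hc'

theorem stTREE2 (hT : St_TREE) (hB : St_TB) (hA : St_ABS) (hG : St_GEN) (hR : St_RE)
    (hS : St_STEP) (hF : St_FREE) (hV : St_DIV) (hI : St_TIE) (hC : St_CMB) (hK : St_SCALE) :
    St_TREE2 :=
  fun t q Hs S hHs ht h => (tree2_aux hT hB hA hG hR hS hF hV hI hC hK t q Hs S [] hHs h).2 ht

end Pool.Agent.Lib.B5
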