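import Pool.Agent.Lib.B5.All
import Pool.Agent.Lib.B5.TREE2
import Pool.Agent.Lib.B5.BOX
import Pool.Agent.Lib.B5.LOWV
import Pool.Agent.Lib.B5.BLEAF
import Pool.Agent.Lib.B5.STEER
import Pool.Agent.Lib.B5.AGS
import Pool.Agent.Lib.B5.TIE

/-! Glue for the second case trees. -/

set_option autoImplicit false

namespace Pool.Agent.Lib.B5

theorem stTREE0 : St_TREE :=
  stTREE (stLEAF stKEL stSHIFT) stDEAD stHOLE (stRE stPERM) stSTEP stFREE stDIV

theorem good2 (t : T2) (q : ℕ) (Hs : List St) (S : St) (l : List St) (hH : ∀ H ∈ Hs, Good q H)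
    (h : chk2 t q Hs S l = true) :
    (t.chain = true → ∀ c ∈ l, Good q c) ∧ (t.chain = false → Good q S) :=
  tree2_aux stTREE0 (stTB (stBLEAF stBOX stLOW stVOL stSHIFT) stSTEER) stABS stGEN (stRE stPERM)
    stSTEP stFREE stDIV stTIE stCMB stSCALE t q Hs S l hH h

end Pool.Agent.Lib.B5
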