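import Pool.Agent.Lib.B5.TDefs

/-! Box certificates: arcs of formal length, bounded reals, steering, and the second case tree. -/

set_option autoImplicit false

namespace Pool.Agent.Lib.B5

/-- `(i, true, c)` is `c / q ≤ w i`, and `(i, false, c)` is `w i ≤ c / q` -/
abbrev Bd : Type := List (ℕ × Bool × ℤ)

def BdOK (q : ℕ) (w : ℕ → ℝ) (B : Bd) : Prop :=
  ∀ e ∈ B, if e.2.1 = true then (e.2.2 : ℝ) / q ≤ w e.1 else w e.1 ≤ (e.2.2 : ℝ) / q

def St.HoldsB (q : ℕ) (S : St) (B : Bd) (T : Fin 5 → Z2) : Prop :=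
  ∃ (o : Z2) (b : ℕ → ℤ) (α w : ℕ → ℝ), BdOK q w B ∧ (∀ k, S.n ≤ k → b k = 0) ∧
    (∀ j : Fin 5, T j = o + (dot (S.pt j).1 b, dot (S.pt j).2 b)) ∧
    ∀ c k, ∃ m : ℤ, α c * b k = ev q w ((S.row c).getD k []) + m

def GoodB (q : ℕ) (S : St) (B : Bd) : Prop :=
  ∀ T : Fin 5 → Z2, Function.Injective T → S.HoldsB q B T → Cov T

def look (i : ℕ) (s : Bool) : Bd → Option ℤ
  | [] => none
  | e :: B => if e.1 == i && e.2.1 == s then some e.2.2 else look i s B

def omul (x : ℤ) : Option ℤ → Option ℤ → Option ℤ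
  | some c, some r => some (x * c + r)
  | _, _ => none

/-- lower bound, as a numerator over `q`, of `h / q + dot a (fun k => w (i + k))` -/
def lowT (B : Bd) (h : ℤ) : ℕ → List ℤ → Option ℤ
  | _, [] => some h
  | i, x :: a => if x == 0 then lowT B h (i + 1) a else
      omul x (look i (decide (0 < x)) B) (lowT B h (i + 1) a)

def low (B : Bd) : List ℤ → Option ℤ
  | [] => some 0
  | h :: a => lowT B h 0 a

def sepO (q : ℕ) : Option ℤ → Option ℤ → Bool
  | some x, some y => decide (0 ≤ x + (y + q) / q * q)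
  | _, _ => false

/-- arcs are pairs (start, minus the end); the two arcs are disjoint modulo one -/
def sepArc (q : ℕ) (B : Bd) (a b : List ℤ × List ℤ) : Bool :=
  sepO q (low B (ladd b.1 a.2)) (low B (ladd a.1 b.2))

def sepArcs (q : ℕ) (B : Bd) : List (List ℤ × List ℤ) → List (List ℤ × List ℤ) → Bool
  | a :: as, b :: bs => sepArc q B a b || sepArcs q B as bs
  | _, _ => false

def nonnegO : Option ℤ → Bool
  | some x => decide (0 ≤ x)
  | none => false

/-- the length lies between zero and one and uses at most `K` reals -/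
def lenOK (q K : ℕ) (B : Bd) (a : List ℤ) : Bool :=
  nonnegO (low B a) && nonnegO (low B (ladd [(q : ℤ)] (lsmul (-1) a))) && decide (a.length ≤ K + 1)

/-- Exact levels `(p, terms)`, arc levels `terms`; tiles `(g, digits, arcs)` with one digit per
exact level and one pair (start, length) per arc level. -/
structure BCert where
  K : ℕ
  ex : List (ℕ × List (ℕ × ℤ × ℤ))
  lv : List (List (ℕ × ℤ × ℤ))
  tl : List (ℕ × List ℤ × List (List ℤ × List ℤ))

def exOK (q : ℕ) (S : St) (z : List ℤ × List ℤ) : List (ℕ × List (ℕ × ℤ × ℤ)) → Bool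
  | [] => true
  | l :: ls => lz (lvPh S z l.2).tail && (lvPh S z l.2).headD 0 % ((q / l.1 : ℕ) : ℤ) == 0 &&
      exOK q S z ls

def exKey (q : ℕ) (S : St) (z : List ℤ × List ℤ) : List (ℕ × List (ℕ × ℤ × ℤ)) → List ℤ → ℕ
  | [], _ => 0
  | l :: ls, ds => ((ds.headD 0 + (lvPh S z l.2).headD 0 / ((q / l.1 : ℕ) : ℤ)) % l.1).toNat +
      l.1 * exKey q S z ls ds.tail

def arcs (S : St) (z : List ℤ × List ℤ) :
    List (List (ℕ × ℤ × ℤ)) → List (List ℤ × List ℤ) → List (List ℤ × List ℤ)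
  | [], _ => []
  | l :: ls, os => (ladd (os.headD ([], [])).1 (lvPh S z l),
      lsmul (-1) (ladd (ladd (os.headD ([], [])).1 (lvPh S z l)) (os.headD ([], [])).2)) ::
      arcs S z ls os.tail

def bcell (q : ℕ) (S : St) (C : BCert) (t : ℕ × List ℤ × List (List ℤ × List ℤ)) (j : ℕ) :
    ℕ × List (List ℤ × List ℤ) :=
  (exKey q S (actL t.1 (S.pt j)) C.ex t.2.1, arcs S (actL t.1 (S.pt j)) C.lv t.2.2)

def bcells (q : ℕ) (S : St) (C : BCert) :
    List (ℕ × List ℤ × List (List ℤ × List ℤ)) → List (ℕ × List (List ℤ × List ℤ))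
  | [] => []
  | t :: ts => bcell q S C t 0 :: bcell q S C t 1 :: bcell q S C t 2 :: bcell q S C t 3 ::
      bcell q S C t 4 :: bcells q S C ts

def bsepAll (q : ℕ) (B : Bd) (c : ℕ × List (List ℤ × List ℤ)) :
    List (ℕ × List (List ℤ × List ℤ)) → Bool
  | [] => true
  | d :: ds => (!(Nat.beq c.1 d.1) || sepArcs q B c.2 d.2) && bsepAll q B c ds

def bpairs (q : ℕ) (B : Bd) : List (ℕ × List (List ℤ × List ℤ)) → Bool
  | [] => true
  | c :: cs => bsepAll q B c cs && bpairs q B cs

/-- the cells whose key has last binary digit `r`, with that digit removed -/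
def half (r : ℕ) : List (ℕ × List (List ℤ × List ℤ)) → List (ℕ × List (List ℤ × List ℤ))
  | [] => []
  | c :: l => if Nat.beq (c.1 % 2) r then (c.1 / 2, c.2) :: half r l else half r l

/-- `bpairs` after sorting the cells into buckets by `d` binary digits of the key -/
def bk (q : ℕ) (B : Bd) : ℕ → List (ℕ × List (List ℤ × List ℤ)) → Bool
  | 0, l => bpairs q B l
  | d + 1, l => l.isEmpty || (bk q B d (half 0 l) && bk q B d (half 1 l))

def exDiv (q : ℕ) : List (ℕ × List (ℕ × ℤ × ℤ)) → Bool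
  | [] => true
  | l :: ls => decide (0 < l.1) && q % l.1 == 0 && exDiv q ls

def lens : List (List ℤ × List ℤ) → List (List ℤ)
  | [] => []
  | a :: l => a.2 :: lens l

def lensOK (q K : ℕ) (B : Bd) : List (List ℤ) → Bool
  | [] => true
  | a :: l => lenOK q K B a && lensOK q K B l

def tileOK (q : ℕ) (S : St) (B : Bd) (C : BCert) (t : ℕ × List ℤ × List (List ℤ × List ℤ)) : Bool :=
  t.2.2.length == C.lv.length && lensOK q C.K B (lens t.2.2) &&
    exOK q S (actL t.1 (S.pt 0)) C.ex && exOK q S (actL t.1 (S.pt 1)) C.ex &&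
    exOK q S (actL t.1 (S.pt 2)) C.ex && exOK q S (actL t.1 (S.pt 3)) C.ex &&
    exOK q S (actL t.1 (S.pt 4)) C.ex

def tilesOK (q : ℕ) (S : St) (B : Bd) (C : BCert) :
    List (ℕ × List ℤ × List (List ℤ × List ℤ)) → Bool
  | [] => true
  | t :: ts => tileOK q S B C t && tilesOK q S B C ts

def volAt (k : ℕ) : List (ℤ × List (List ℤ)) → List (ℤ × List (List ℤ))
  | [] => []
  | e :: l => if (e.2.headD []).getD k 0 == 0 then volAt k l else
      (e.1 * (e.2.headD []).getD k 0, e.2.tail) :: volAt k l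

def volSum : List (ℤ × List (List ℤ)) → ℤ
  | [] => 0
  | e :: l => e.1 + volSum l

def allTo (f : ℕ → Bool) : ℕ → Bool
  | 0 => true
  | k + 1 => f k && allTo f k

/-- the sum of weight times product of the first `r` formal lengths is `t` -/
def volChk (q K : ℕ) : ℕ → List (ℤ × List (List ℤ)) → ℤ → Bool
  | 0, l, t => volSum l == t
  | r + 1, l, t => if l.isEmpty then t == 0 else
      volChk q K r (volAt 0 l) (t * q) && allTo (fun k => volChk q K r (volAt (k + 1) l) 0) K

def volL : List (ℕ × List ℤ × List (List ℤ × List ℤ)) → List (ℤ × List (List ℤ))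
  | [] => []
  | t :: ts => (5, lens t.2.2) :: volL ts

def chkB (q : ℕ) (S : St) (B : Bd) (C : BCert) : Bool :=
  decide (0 < q) && exDiv q C.ex && tilesOK q S B C C.tl &&
    volChk q C.K C.lv.length (volL C.tl) (prodP C.ex) &&
    bk q B (Nat.log2 (prodP C.ex) + 1) (bcells q S C C.tl)

/-! ### Steering -/

/-- the real number `F` becomes `E` plus a multiple of `s / q` and lies in `[lo, lo + s] / q`;
each entry `(c, c', a)` adds the multiplier `α c + N * α c'`, where row `c'` is `a k * s / q` at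
the places with `a k` given; the other places get fresh reals -/
structure Steer where
  s : ℤ
  lo : ℤ
  E : List ℤ
  F : ℕ
  rows : List (ℕ × ℕ × List (Option ℤ))

def stRow (d : List ℤ) : List (Option ℤ) → List (List ℤ) → ℕ → List (List ℤ)
  | [], _, _ => []
  | some x :: a, r, G => ladd (r.headD []) (lsmul x d) :: stRow d a r.tail G
  | none :: a, r, G => unitPh G :: stRow d a r.tail (G + 1)

def stRows (S : St) (d : List ℤ) : List (ℕ × ℕ × List (Option ℤ)) → ℕ → List (List (List ℤ))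
  | [], _ => []
  | e :: l, G => stRow d e.2.2 (S.row e.1) G :: stRows S d l (G + S.n)

def St.steer (S : St) (X : Steer) : St :=
  ⟨S.n, S.ch, S.tab ++ stRows S (ladd (unitPh X.F) (lsmul (-1) X.E)) X.rows (X.F + 1)⟩

def stMark (q : ℕ) (s : ℤ) : List (Option ℤ) → List (List ℤ) → Bool
  | [], _ => true
  | some x :: a, r => phEq q (r.headD []) [x * s] && stMark q s a r.tail
  | none :: a, r => stMark q s a r.tail

def stMarks (q : ℕ) (S : St) (s : ℤ) : List (ℕ × ℕ × List (Option ℤ)) → Bool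
  | [] => true
  | e :: l => e.2.2.length == S.n && stMark q s e.2.2 (S.row e.2.1) && stMarks q S s l

def bdShort (F : ℕ) : Bd → Bool
  | [] => true
  | e :: B => decide (e.1 < F) && bdShort F B

def steerOK (q : ℕ) (S : St) (B : Bd) (X : Steer) : Bool :=
  decide (0 < q) && decide (0 < X.s) && tabShort X.F S.tab && decide (X.E.length ≤ X.F + 1) &&
    bdShort X.F B && stMarks q S X.s X.rows

inductive Tb where
  | box : BCert → Tb
  | steer : Steer → Tb → Tb
  | split : ℕ → ℤ → Tb → Tb → Tb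

def chkTb (q : ℕ) : Tb → St → Bd → Bool
  | .box C, S, B => chkB q S B C
  | .steer X t, S, B => steerOK q S B X &&
      chkTb q t (S.steer X) ((X.F, true, X.lo) :: (X.F, false, X.lo + X.s) :: B)
  | .split i c t u, S, B => chkTb q t S ((i, false, c) :: B) && chkTb q u S ((i, true, c) :: B)

/-! ### Further steps -/

def rowAdd : List (List ℤ) → List (List ℤ) → List (List ℤ)
  | [], s => s
  | a :: r, [] => a :: r
  | a :: r, b :: s => ladd a b :: rowAdd r s

def rowMul (u : ℤ) : List (List ℤ) → List (List ℤ)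
  | [] => []
  | a :: r => lsmul u a :: rowMul u r

/-- the row of the multiplier `∑ u * α c` -/
def St.crow (S : St) : List (ℕ × ℤ) → List (List ℤ)
  | [] => []
  | e :: l => rowAdd (rowMul e.2 (S.row e.1)) (S.crow l)

def St.cmb (S : St) (l : List (ℕ × ℤ)) : St := ⟨S.n, S.ch, S.tab ++ [S.crow l]⟩

/-- the four values `α x, α y, α' x, α' y` are exact and contradict `(α x)(α' y) = (α y)(α' x)` -/
def absN (q : ℕ) (G : ℤ) (a b c d : List ℤ) : Bool :=
  lz a.tail && lz b.tail && lz c.tail && lz d.tail && (q : ℤ) % G == 0 && a.headD 0 % G == 0 &&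
    b.headD 0 % G == 0 && c.headD 0 % G == 0 && d.headD 0 % G == 0 &&
    !((a.headD 0 * d.headD 0 - b.headD 0 * c.headD 0) % (q * G) == 0)

def absOK (q : ℕ) (S : St) (G : ℤ) (l l' : List (ℕ × ℤ)) (x y : List ℤ) : Bool :=
  decide (0 < q) && absN q G (comb x (S.crow l)) (comb y (S.crow l)) (comb x (S.crow l'))
    (comb y (S.crow l'))

/-- substitute formal phases for the reals -/
def subst (σ : List (List ℤ)) (a : List ℤ) : List ℤ := ladd [a.headD 0] (comb a.tail σ)

def rowSub (q : ℕ) (σ : List (List ℤ)) (r s : List (List ℤ)) : ℕ → Bool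
  | 0 => true
  | k + 1 => phEq q (r.getD k []) (subst σ (s.getD k [])) && rowSub q σ r s k

def tabSub (q : ℕ) (S : St) (σ : List (List ℤ)) : List (List (ℕ × ℤ)) → List (List (List ℤ)) → Bool
  | e :: es, s :: l => rowSub q σ (S.crow e) s S.n && decide (s.length ≤ S.n) && tabSub q S σ es l
  | _, [] => true
  | [], _ :: _ => false

def genOK (q : ℕ) (S H : St) (es : List (List (ℕ × ℤ))) (σ : List (List ℤ)) : Bool :=
  decide (0 < q) && S.n == H.n && ptEq S H 0 && ptEq S H 1 && ptEq S H 2 && ptEq S H 3 &&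
    ptEq S H 4 && tabSub q S σ es H.tab

def phScale (r : ℕ) : List ℤ → List ℤ
  | [] => []
  | x :: a => (x * r) :: a

def rowScale (r : ℕ) : List (List ℤ) → List (List ℤ)
  | [] => []
  | a :: l => phScale r a :: rowScale r l

def tabScale (r : ℕ) : List (List (List ℤ)) → List (List (List ℤ))
  | [] => []
  | a :: l => rowScale r a :: tabScale r l

def St.scale (S : St) (r : ℕ) : St := ⟨S.n, S.ch, tabScale r S.tab⟩

/-- the marked unknown `i` is not zero, because row `c` is a non-zero constant there -/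
def nzAt (q : ℕ) (S : St) (m : List Bool) (c i : ℕ) : Bool :=
  m.getD i false && lz ((S.row c).getD i []).tail && !(((S.row c).getD i []).headD 0 % q == 0)

inductive T2 where
  | old : Tr → T2
  | bx : Tb → T2
  | abs : ℤ → List (ℕ × ℤ) → List (ℕ × ℤ) → List ℤ → List ℤ → T2
  | gen : ℕ → List (List (ℕ × ℤ)) → List (List ℤ) → T2
  | re : List ℕ → List (List ℤ) → List (List ℤ × List ℤ) → T2 → T2
  | step : ℕ → List Bool → ℕ → T2 → T2 → T2
  | free : ℕ → ℕ → ℕ → T2 → T2 → T2
  | div : ℕ → ℕ → List Bool → ℕ → T2 → T2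
  | tie : Tie → T2 → T2
  | cmb : List (ℕ × ℤ) → T2 → T2
  | scale : ℕ → T2 → T2
  | stepn : ℕ → List Bool → ℕ → ℕ → ℕ → T2 → T2
  | nil : T2
  | cons : T2 → T2 → T2

def T2.chain : T2 → Bool
  | .nil => true
  | .cons _ _ => true
  | _ => false

def chk2 : T2 → ℕ → List St → St → List St → Bool
  | .old t, q, Hs, S, _ => !t.chain && chk q Hs t S []
  | .bx t, q, _, S, _ => chkTb q t S []
  | .abs G l l' x y, q, _, S, _ => absOK q S G l l' x y
  | .gen i es σ, q, Hs, S, _ => decide (i < Hs.length) && genOK q S (Hs.getD i S) es σ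
  | .re π M ch t, q, Hs, S, _ => reOK S π M ch && !t.chain && chk2 t q Hs (S.re M ch) []
  | .step p m F z k, q, Hs, S, _ => (p == 2 || p == 3 || p == 5) && decide (0 < q) && q % p == 0 &&
      m.length == S.n && tabShort F S.tab && !z.chain && k.chain && chk2 z q Hs (S.zero m) [] &&
      chk2 k q Hs S (addAll S F (nzA p ((q / p : ℕ) : ℤ) m))
  | .free r i F z k, q, Hs, S, _ => decide (0 < q) && q % r == 0 && decide (i < S.n) &&
      tabShort F S.tab && !z.chain && !k.chain && chk2 z q Hs (S.zero (maskAt S.n i)) [] &&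
      chk2 k q Hs (S.add F (optAt ((q / r : ℕ) : ℤ) S.n i)) []
  | .div c r m F k, q, Hs, S, _ => decide (0 < q) && q % r == 0 && m.length == S.n &&
      tabShort F S.tab && divOK r m (S.row c) && k.chain &&
      chk2 k q Hs S (addAll S F (divAll r (S.row c) (allA r ((q / r : ℕ) : ℤ) m)))
  | .tie X t, q, Hs, S, _ => tieOK q S X && !t.chain && chk2 t q Hs (S.tie X) []
  | .cmb l t, q, Hs, S, _ => !t.chain && chk2 t q Hs (S.cmb l) []
  | .scale r t, q, _, S, _ => decide (0 < r) && !t.chain && chk2 t (q * r) [] (S.scale r) []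
  | .stepn p m F c i k, q, Hs, S, _ => (p == 2 || p == 3 || p == 5) && decide (0 < q) &&
      q % p == 0 && m.length == S.n && tabShort F S.tab && k.chain && nzAt q S m c i &&
      chk2 k q Hs S (addAll S F (nzA p ((q / p : ℕ) : ℤ) m))
  | .nil, _, _, _, l => l.isEmpty
  | .cons _ _, _, _, _, [] => false
  | .cons a t, q, Hs, S, c :: l => !a.chain && t.chain && chk2 a q Hs c [] && chk2 t q Hs S l

/-! ### Blocks -/

def St_BOX : Prop := ∀ (ι : Type) [Fintype ι] (T : Fin 5 → Z2) (m : ℕ) (a b : ι → ℝ)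
  (g : Fin m → ℕ) (θ len : Fin m → ι → ℝ), (∀ i l, 0 ≤ len i l ∧ len i l ≤ 1) →
  5 * ∑ i, ∏ l, len i l = 1 →
  (∀ x y : Fin m × Fin 5, x ≠ y → ∃ l, ∃ k : ℤ,
    θ x.1 l + (a l * (act (g x.1) (T x.2)).1 + b l * (act (g x.1) (T x.2)).2) + len x.1 l ≤
      θ y.1 l + (a l * (act (g y.1) (T y.2)).1 + b l * (act (g y.1) (T y.2)).2) + k ∧
    θ y.1 l + (a l * (act (g y.1) (T y.2)).1 + b l * (act (g y.1) (T y.2)).2) + k + len y.1 l ≤
      θ x.1 l + (a l * (act (g x.1) (T x.2)).1 + b l * (act (g x.1) (T x.2)).2) + 1) → Cov T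

def St_LOW : Prop := ∀ (q : ℕ) (w : ℕ → ℝ) (B : Bd) (a : List ℤ) (x : ℤ), 0 < q → BdOK q w B →
  low B a = some x → (x : ℝ) / q ≤ ev q w a

def St_VOL : Prop := ∀ (q K r : ℕ) (w : ℕ → ℝ) (l : List (ℤ × List (List ℤ))) (t : ℤ), 0 < q →
  (∀ e ∈ l, ∀ a ∈ e.2, a.length ≤ K + 1) → volChk q K r l t = true →
  (l.map fun e => (e.1 : ℝ) * ∏ i : Fin r, ev q w (e.2.getD i [])).sum = t

def St_BLEAF : Prop := ∀ (q : ℕ) (S : St) (B : Bd) (C : BCert), chkB q S B C = true → GoodB q S B

def St_STEER : Prop := ∀ (q : ℕ) (S : St) (B : Bd) (X : Steer), steerOK q S B X = true →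
  GoodB q (S.steer X) ((X.F, true, X.lo) :: (X.F, false, X.lo + X.s) :: B) → GoodB q S B

def St_TB : Prop := ∀ (q : ℕ) (t : Tb) (S : St), chkTb q t S [] = true → Good q S

def St_ABS : Prop := ∀ (q : ℕ) (S : St) (G : ℤ) (l l' : List (ℕ × ℤ)) (x y : List ℤ),
  absOK q S G l l' x y = true → Good q S

def St_GEN : Prop := ∀ (q : ℕ) (S H : St) (es : List (List (ℕ × ℤ))) (σ : List (List ℤ)),
  genOK q S H es σ = true → Good q H → Good q S

def St_CMB : Prop := ∀ (q : ℕ) (S : St) (l : List (ℕ × ℤ)), Good q (S.cmb l) → Good q S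

def St_SCALE : Prop := ∀ (q r : ℕ) (S : St), 0 < r → Good (q * r) (S.scale r) → Good q S

def St_STEPN : Prop := ∀ (q p F c i : ℕ) (S : St) (m : List Bool), p.Prime → 0 < q → p ∣ q →
  m.length = S.n → tabShort F S.tab = true → nzAt q S m c i = true →
  (∀ c ∈ addAll S F (nzA p ((q / p : ℕ) : ℤ) m), Good q c) → Good q S

def St_TREE2 : Prop := ∀ (t : T2) (q : ℕ) (Hs : List St) (S : St), (∀ H ∈ Hs, Good q H) →
  t.chain = false → chk2 t q Hs S [] = true → Good q S

end Pool.Agent.Lib.B5
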