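import Pool.Agent.Lib.B5.Defs

/-! Evaluation lemmas for integer lists and formal phases. -/

set_option autoImplicit false

namespace Pool.Agent.Lib.B5

section
variable {R : Type} [CommRing R]

@[simp] theorem dot_nil (w : ℕ → R) : dot [] w = 0 := rfl

@[simp] theorem dot_cons (x : ℤ) (a : List ℤ) (w : ℕ → R) :
    dot (x :: a) w = (x : R) * w 0 + dot a (fun i => w (i + 1)) := rfl

theorem dot_ladd (a b : List ℤ) (w : ℕ → R) : dot (ladd a b) w = dot a w + dot b w := by
  induction a generalizing b w with
  | nil => simp [ladd]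
  | cons x a ih =>
    cases b with
    | nil => simp [ladd]
    | cons y b => simp only [ladd, dot_cons, ih]; push_cast; ring

theorem dot_lsmul (c : ℤ) (a : List ℤ) (w : ℕ → R) : dot (lsmul c a) w = c * dot a w := by
  induction a generalizing w with
  | nil => simp [lsmul]
  | cons x a ih => simp only [lsmul, dot_cons, ih]; push_cast; ring

theorem dot_lz {a : List ℤ} (h : lz a = true) (w : ℕ → R) : dot a w = 0 := by
  induction a generalizing w with
  | nil => rfl
  | cons x a ih =>
    simp only [lz, Bool.and_eq_true, beq_iff_eq] at h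
    simp [h.1, ih h.2]

theorem dot_leq {a b : List ℤ} (h : leq a b = true) (w : ℕ → R) : dot a w = dot b w := by
  induction a generalizing b w with
  | nil => simp only [leq] at h; rw [dot_lz h]; rfl
  | cons x a ih =>
    cases b with
    | nil => simp only [leq] at h; rw [dot_lz h]; rfl
    | cons y b =>
      simp only [leq, Bool.and_eq_true, beq_iff_eq] at h
      simp [h.1, ih h.2]

theorem dot_congr (a : List ℤ) {w w' : ℕ → R} (h : ∀ i, i < a.length → w i = w' i) :
    dot a w = dot a w' := by
  induction a generalizing w w' with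
  | nil => rfl
  | cons x a ih =>
    simp only [dot_cons]
    rw [h 0 (by simp), ih (w' := fun i => w' (i + 1)) fun i hi => h (i + 1) (by simpa using hi)]

theorem dot_comb (a : List ℤ) (M : List (List ℤ)) (w : ℕ → R) :
    dot (comb a M) w = dot a (fun k => dot (M.getD k []) w) := by
  induction a generalizing M with
  | nil => simp [comb]
  | cons x a ih =>
    cases M with
    | nil =>
      have : ∀ a : List ℤ, dot a (fun _ => (0 : R)) = 0 := fun a => by
        induction a with
        | nil => rfl
        | cons y a ih => simp [ih]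
      simp [comb, this]
    | cons r M => simp [comb, dot_ladd, dot_lsmul, ih]

end

theorem dot_cast (a : List ℤ) (b : ℕ → ℤ) :
    ((dot a b : ℤ) : ℝ) = dot a (fun k => (b k : ℝ)) := by
  induction a generalizing b with
  | nil => simp
  | cons x a ih => simp [ih]

theorem ev_eq (q : ℕ) (w : ℕ → ℝ) (a : List ℤ) :
    ev q w a = (a.headD 0 : ℤ) / (q : ℝ) + dot a.tail w := by
  cases a <;> simp [ev]

theorem ev_ladd (q : ℕ) (w : ℕ → ℝ) (a b : List ℤ) :
    ev q w (ladd a b) = ev q w a + ev q w b := by
  cases a with
  | nil => simp [ladd, ev]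
  | cons x a =>
    cases b with
    | nil => simp [ladd, ev]
    | cons y b => simp only [ladd, ev, dot_ladd]; push_cast; ring

theorem ev_lsmul (q : ℕ) (w : ℕ → ℝ) (c : ℤ) (a : List ℤ) :
    ev q w (lsmul c a) = c * ev q w a := by
  cases a with
  | nil => simp [lsmul, ev]
  | cons x a => simp only [lsmul, ev, dot_lsmul]; push_cast; ring

/-- a multiplier applied to a linear form in the unknowns -/
theorem ev_comb (q : ℕ) (w : ℕ → ℝ) (α : ℝ) (a : List ℤ) (r : List (List ℤ)) (b : ℕ → ℤ)
    (h : ∀ k, ∃ m : ℤ, α * b k = ev q w (r.getD k []) + m) :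
    ∃ m : ℤ, α * ((dot a b : ℤ) : ℝ) = ev q w (comb a r) + m := by
  induction a generalizing r b with
  | nil => exact ⟨0, by simp [comb, ev]⟩
  | cons x a ih =>
    obtain ⟨m0, h0⟩ := h 0
    cases r with
    | nil =>
      obtain ⟨m, hm⟩ := ih [] (fun i => b (i + 1)) fun k => by simpa using h (k + 1)
      refine ⟨x * m0 + m, ?_⟩
      have e : comb a [] = [] := by cases a <;> rfl
      simp only [e, ev, List.getD_nil, zero_add] at hm h0
      simp only [comb, ev, dot_cons, Int.cast_id]
      push_cast
      linear_combination (x : ℝ) * h0 + hm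
    | cons s r =>
      obtain ⟨m, hm⟩ := ih r (fun i => b (i + 1)) fun k => by simpa using h (k + 1)
      refine ⟨x * m0 + m, ?_⟩
      simp only [List.getD_cons_zero] at h0
      simp only [comb, ev_ladd, ev_lsmul, dot_cons, Int.cast_id]
      push_cast
      linear_combination (x : ℝ) * h0 + hm

theorem act_add (g : ℕ) (x y : Z2) : act g (x + y) = act g x + act g y := by
  unfold act
  split <;> ext <;> simp <;> ring

theorem act_dot (g : ℕ) (z : List ℤ × List ℤ) (b : ℕ → ℤ) :
    act g (dot z.1 b, dot z.2 b) = (dot (actL g z).1 b, dot (actL g z).2 b) := by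
  match g with
  | 0 => rfl
  | 1 => simp [act, actL, dot_lsmul]
  | 2 => simp [act, actL, dot_lsmul]
  | 3 => simp [act, actL, dot_lsmul]
  | 4 => simp [act, actL, dot_lsmul]
  | 5 => simp [act, actL, dot_lsmul]
  | 6 => simp [act, actL]
  | 7 => simp [act, actL, dot_lsmul]
  | _ + 8 => rfl

end Pool.Agent.Lib.B5
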