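import Pool.Agent.Lib.B5.GDefs

/-! Checker for `Covers`: executable part. -/

set_option autoImplicit false

namespace Pool.Agent.Lib.B5.CV

noncomputable section

/-- evaluate before use -/
def fz {α : Type} (n : ℕ) (k : ℕ → α) : α := Nat.rec (k 0) (fun m _ => k (Nat.succ m)) n

def fi {α : Type} (x : ℤ) (k : ℤ → α) : α :=
  Int.rec (fun n => fz n fun n => k (Int.ofNat n)) (fun n => fz n fun n => k (Int.negSucc n)) x

def an (a b : Bool) : Bool := Bool.rec false b a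

def ile (a b : ℤ) : Bool := Int.rec (fun _ => true) (fun _ => false) (Int.sub b a)

def ilt (a b : ℤ) : Bool := Int.rec (fun _ => false) (fun _ => true) (Int.sub a b)

def iz (a : ℤ) : Bool := Int.rec (fun n => Nat.beq n 0) (fun _ => false) a

def sb (m n : ℕ) : ℤ := Nat.rec (Int.ofNat (m.sub n)) (fun k _ => Int.negSucc k) (n.sub m)

def ad (a b : ℤ) : ℤ :=
  Int.rec (fun m => Int.rec (fun n => Int.ofNat (m.add n)) (fun n => sb m (n.add 1)) b)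
    (fun m => Int.rec (fun n => sb n (m.add 1)) (fun n => Int.negSucc ((m.add n).add 1)) b) a

def ml (a b : ℤ) : ℤ :=
  Int.rec (fun m => Int.rec (fun n => Int.ofNat (m.mul n)) (fun n => sb 0 (m.mul (n.add 1))) b)
    (fun m => Int.rec (fun n => sb 0 ((m.add 1).mul n))
      (fun n => Int.ofNat ((m.add 1).mul (n.add 1))) b) a

def ieq (a b : ℤ) : Bool :=
  Int.rec (fun m => Int.rec (fun n => Nat.beq m n) (fun _ => false) b)
    (fun m => Int.rec (fun _ => false) (fun n => Nat.beq m n) b) a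

/-- positive part -/
def ip (a : ℤ) : ℕ := Int.rec (fun m => m) (fun _ => 0) a

/-- negative part -/
def im (a : ℤ) : ℕ := Int.rec (fun _ => 0) (fun m => m.add 1) a

/-- continue if `n = 0` -/
def z0 (n : ℕ) (b : Bool) : Bool := Nat.rec b (fun _ _ => false) n

def look {α : Type} (d : α) (L : List α) (i : ℕ) : α :=
  List.rec (fun _ => d) (fun a _ ih i => Nat.rec a (fun m _ => ih m) i) L i

structure V where
  x : ℤ
  y : ℤ
  z : ℤ

def V.dot (a b : V) : ℤ := ad (ad (ml a.x b.x) (ml a.y b.y)) (ml a.z b.z)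

def V.cross (a b : V) : V :=
  ⟨a.y * b.z - a.z * b.y, a.z * b.x - a.x * b.z, a.x * b.y - a.y * b.x⟩

structure Mx where
  a : V
  b : V
  c : V

def Mx.ap (A : Mx) (v : V) : V := ⟨A.a.dot v, A.b.dot v, A.c.dot v⟩

/-- the transpose applied to `w` -/
def Mx.tp (A : Mx) (w : V) : V :=
  ⟨w.x * A.a.x + w.y * A.b.x + w.z * A.c.x, w.x * A.a.y + w.y * A.b.y + w.z * A.c.y,
    w.x * A.a.z + w.y * A.b.z + w.z * A.c.z⟩

/-- the cofactor matrix -/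
def Mx.co (A : Mx) : Mx := ⟨A.b.cross A.c, A.c.cross A.a, A.a.cross A.b⟩

def Mx.det (A : Mx) : ℤ := A.a.dot (A.b.cross A.c)

def V.eq (a b : V) : Bool := an (ieq a.x b.x) <| an (ieq a.y b.y) (ieq a.z b.z)

def Mx.eq (A B : Mx) : Bool := an (A.a.eq B.a) <| an (A.b.eq B.b) (A.c.eq B.c)

def fv {α : Type} (a : V) (k : V → α) : α :=
  fi a.x fun x => fi a.y fun y => fi a.z fun z => k ⟨x, y, z⟩

def lv (r : List ℤ) : V := ⟨r.getD 0 0, r.getD 1 0, r.getD 2 0⟩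

/-- exceptions: a list of matrices and a list of systems of relations -/
structure Ex where
  gs : List Mx
  es : List (List (List ℤ))

def idM : Mx := ⟨⟨1, 0, 0⟩, ⟨0, 1, 0⟩, ⟨0, 0, 1⟩⟩

/-- an integer vector as a difference -/
structure U where
  p0 : ℕ
  p1 : ℕ
  p2 : ℕ
  n0 : ℕ
  n1 : ℕ
  n2 : ℕ

def U.v (u : U) : V := ⟨(u.p0 : ℤ) - u.n0, (u.p1 : ℤ) - u.n1, (u.p2 : ℤ) - u.n2⟩

def U.neg (u : U) : U := ⟨u.n0, u.n1, u.n2, u.p0, u.p1, u.p2⟩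

def dp (u v : U) : ℕ :=
  (((u.p0.mul v.p0).add (u.p1.mul v.p1)).add ((u.p2.mul v.p2).add (u.n0.mul v.n0))).add
    ((u.n1.mul v.n1).add (u.n2.mul v.n2))

def dn (u v : U) : ℕ :=
  (((u.p0.mul v.n0).add (u.p1.mul v.n1)).add ((u.p2.mul v.n2).add (u.n0.mul v.p0))).add
    ((u.n1.mul v.p1).add (u.n2.mul v.p2))

def ap6 (r0 r1 r2 a : U) : U := ⟨dp r0 a, dp r1 a, dp r2 a, dn r0 a, dn r1 a, dn r2 a⟩

def V.u (a : V) : U :=
  ⟨ip a.x, ip a.y, ip a.z, im a.x, im a.y, im a.z⟩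

/-- all rows of a lifted polyhedron, in lanes of 96 bits -/
structure Pk where
  j : ℕ
  p0 : ℕ
  p1 : ℕ
  p2 : ℕ
  pc : ℕ
  one : ℕ
  hi : ℕ

/-- zero if the point `(xp - xn, yp - yn, zp - zn) / q` satisfies all rows -/
def Pk.chk (e : Pk) (xp yp zp xn yn zn q : ℕ) : ℕ :=
  ((((((xp.add yp).add (zp.add q)).add ((xn.add yn).add zn)).sub 17592186044416).add
    (Nat.sub 1 q))).add
  (e.hi.sub (((((((e.p0.mul xp).add (e.p1.mul yp)).add ((e.p2.mul zp).add (e.pc.mul q))).add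
      ((e.one.mul ((xn.add yn).add zn)).add e.hi)).sub
    ((((e.p0.mul xn).add (e.p1.mul yn)).add (e.p2.mul zn)).add
      (e.one.mul ((xp.add yp).add (zp.add q)))))).land e.hi))

/-- tables: lifted polyhedra, exceptional planes, exceptions -/
structure Tb where
  L : List Pk
  nL : ℕ
  X : List U
  nX : ℕ
  E : Ex

def Tb.g (T : Tb) (l : ℕ) : Pk := look ⟨0, 0, 0, 0, 0, 0, 0⟩ T.L l

/-- data of a plane: token format, basis `a`, `b`, the form `E x^2 + 2 F x y + G y^2`,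
the threshold `k`, the segments -/
structure Pl where
  w : ℕ
  W : ℕ
  H : ℕ
  a : U
  b : U
  E : ℕ
  Fp : ℕ
  Fn : ℕ
  G : ℕ
  k : ℕ
  sg : ℕ
  ns : ℕ
  o1 : ℕ
  o2 : ℕ
  o3 : ℕ
  o4 : ℕ

def Pl.neg (P : Pl) : Pl := { P with a := P.a.neg, b := P.b.neg }

def Pl.rot (P : Pl) : Pl :=
  { P with a := P.b, b := P.a.neg, E := P.G, G := P.E, Fp := P.Fn, Fn := P.Fp,
           o1 := P.o2, o2 := P.o3, o3 := P.o4, o4 := P.o1 }

/-- zero if the point `(x a + y b) / q - m` lies in the lifted polyhedron `l` -/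
def pt (T : Tb) (P : Pl) (l x y q m0 m1 m2 : ℕ) : ℕ :=
  ((l.add 1).sub T.nL).add ((T.g l).chk
    (((x.mul P.a.p0).add (y.mul P.b.p0)).add (q.mul P.H))
    (((x.mul P.a.p1).add (y.mul P.b.p1)).add (q.mul P.H))
    (((x.mul P.a.p2).add (y.mul P.b.p2)).add (q.mul P.H))
    (((x.mul P.a.n0).add (y.mul P.b.n0)).add (q.mul m0))
    (((x.mul P.a.n1).add (y.mul P.b.n1)).add (q.mul m1))
    (((x.mul P.a.n2).add (y.mul P.b.n2)).add (q.mul m2)) q)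

/-- record of the segment `i` -/
def Pl.r (P : Pl) (i : ℕ) : ℕ := P.sg.shiftRight ((P.w.mul 10).mul i)

def Pl.q (P : Pl) (r : ℕ) : ℕ := r.mod P.W

def Pl.lp (P : Pl) (r x y : ℕ) : ℕ :=
  (x.mul ((r.shiftRight P.o1).mod P.W)).add (y.mul ((r.shiftRight P.o2).mod P.W))

def Pl.ln (P : Pl) (r x y : ℕ) : ℕ :=
  (x.mul ((r.shiftRight P.o3).mod P.W)).add (y.mul ((r.shiftRight P.o4).mod P.W))

def Pl.bp (P : Pl) (x y x' y' : ℕ) : ℕ :=
  ((P.E.mul (x.mul x')).add (P.Fp.mul ((x.mul y').add (y.mul x')))).add (P.G.mul (y.mul y'))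

def Pl.bn (P : Pl) (x y x' y' : ℕ) : ℕ := P.Fn.mul ((x.mul y').add (y.mul x'))

def Pl.R (P : Pl) (x y : ℕ) : U :=
  ⟨(x.mul P.a.p0).add (y.mul P.b.p0), (x.mul P.a.p1).add (y.mul P.b.p1),
    (x.mul P.a.p2).add (y.mul P.b.p2), (x.mul P.a.n0).add (y.mul P.b.n0),
    (x.mul P.a.n1).add (y.mul P.b.n1), (x.mul P.a.n2).add (y.mul P.b.n2)⟩

/-- zero if `q ≤ |p - n|` -/
def far (q p n : ℕ) : ℕ := ((q.add n).sub p).mul ((q.add p).sub n)

def df (a b : ℕ) : ℕ := (a.sub b).add (b.sub a)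

def rHit (T : Tb) (P : Pl) (x y l b q m0 m1 m2 : ℕ) (k : Bool) : Bool :=
  fz l fun l => z0 (pt T P l (b.mul x) (b.mul y) q m0 m1 m2) k

def rFar (P : Pl) (x y i r : ℕ) (k : Bool) : Bool :=
  z0 (((i.add 1).sub P.ns).add (far (P.q r) (P.lp r x y) (P.ln r x y))) k

def rPl (T : Tb) (R : U) (i : ℕ) (k : Bool) : Bool :=
  fz i fun i => z0 (((i.add 1).sub T.nX).add
    (df (dp (look ⟨0, 0, 0, 0, 0, 0⟩ T.X i) R) (dn (look ⟨0, 0, 0, 0, 0, 0⟩ T.X i) R))) k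

def rEx (T : Tb) (R : U) (g i : ℕ) (k : Bool) : Bool :=
  z0 (((g.add 1).sub T.E.gs.length).add ((i.add 1).sub T.E.es.length)) <|
    fv ((look idM T.E.gs g).ap R.v) fun u =>
      an ((look [] T.E.es i).all fun r => iz ((lv r).dot u)) k

def ray (T : Tb) (P : Pl) (x y s : ℕ) (k : ℕ → Bool) : Bool :=
  Nat.rec
    (z0 ((((P.bp x y x y).mul 4).add 1).sub (P.k.add ((P.bn x y x y).mul 4)))
      (k (s.shiftRight P.w)))
    (fun t _ => Nat.rec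
      (rFar P x y ((s.shiftRight P.w).mod P.W) (P.r ((s.shiftRight P.w).mod P.W))
        (k (s.shiftRight (P.w.mul 2))))
      (fun t _ => Nat.rec
        (rHit T P x y ((s.shiftRight P.w).mod P.W) ((s.shiftRight (P.w.mul 2)).mod P.W)
          ((s.shiftRight (P.w.mul 3)).mod P.W) ((s.shiftRight (P.w.mul 4)).mod P.W)
          ((s.shiftRight (P.w.mul 5)).mod P.W) ((s.shiftRight (P.w.mul 6)).mod P.W)
          (k (s.shiftRight (P.w.mul 7))))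
        (fun t _ => Nat.rec
          (rPl T (P.R x y) ((s.shiftRight P.w).mod P.W) (k (s.shiftRight (P.w.mul 2))))
          (fun _ _ => rEx T (P.R x y) ((s.shiftRight P.w).mod P.W)
            ((s.shiftRight (P.w.mul 2)).mod P.W) (k (s.shiftRight (P.w.mul 3)))) t) t) t)
    (s.mod P.W)

def cHit (T : Tb) (P : Pl) (x1 y1 x2 y2 l1 b1 q1 l2 b2 q2 m0 m1 m2 : ℕ) (k : Bool) : Bool :=
  fz l1 fun l1 => fz l2 fun l2 =>
    z0 (((pt T P l1 (b1.mul x1) (b1.mul y1) q1 m0 m1 m2).add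
      (pt T P l2 (b2.mul x2) (b2.mul y2) q2 m0 m1 m2)).add
      ((df (T.g l1).j (T.g l2).j).add (Nat.sub 1 (b1.mul b2)))) k

def cHit' (T : Tb) (P : Pl) (x1 y1 x2 y2 r : ℕ) (k : Bool) : Bool :=
  cHit T P x1 y1 x2 y2 ((r.shiftRight P.w).mod P.W) ((r.shiftRight (P.w.mul 2)).mod P.W)
    ((r.shiftRight (P.w.mul 3)).mod P.W) ((r.shiftRight (P.w.mul 4)).mod P.W)
    ((r.shiftRight (P.w.mul 5)).mod P.W) ((r.shiftRight (P.w.mul 6)).mod P.W)
    ((r.shiftRight (P.w.mul 7)).mod P.W) ((r.shiftRight (P.w.mul 8)).mod P.W)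
    ((r.shiftRight (P.w.mul 9)).mod P.W) k

def cF (ns i q p1 n1 p2 n2 : ℕ) (k : Bool) : Bool :=
  z0 (((i.add 1).sub ns).add
    ((((n1.sub p1).add (n2.sub p2)).add ((q.add (n1.add n2)).sub (p1.add p2))).mul
      (((p1.sub n1).add (p2.sub n2)).add ((q.add (p1.add p2)).sub (n1.add n2))))) k

def cFar (P : Pl) (x1 y1 x2 y2 i r : ℕ) (k : Bool) : Bool :=
  cF P.ns i (P.q r) (P.lp r x1 y1) (P.ln r x1 y1) (P.lp r x2 y2) (P.ln r x2 y2) k

def cQ (P : Pl) (x1 y1 x2 y2 i c l1 l2 sg : ℕ) (k : Bool) : Bool :=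
  z0 (((((i.add 1).sub P.ns).add sg).add (Nat.sub 1 P.k)).add
    ((((c.mul (P.bp x1 y1 x1 y1)).sub ((P.k.mul (l1.mul l1)).add (c.mul (P.bn x1 y1 x1 y1)))).add
      ((c.mul (P.bp x2 y2 x2 y2)).sub ((P.k.mul (l2.mul l2)).add (c.mul (P.bn x2 y2 x2 y2))))).add
      ((c.mul (P.bp x1 y1 x2 y2)).sub ((P.k.mul (l1.mul l2)).add (c.mul (P.bn x1 y1 x2 y2)))))) k

def cQ1 (P : Pl) (x1 y1 x2 y2 i q p1 n1 p2 n2 : ℕ) (k : Bool) : Bool :=
  cQ P x1 y1 x2 y2 i ((q.mul q).mul 4) (df p1 n1) (df p2 n2)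
    (((n1.sub p1).add (n2.sub p2)).mul ((p1.sub n1).add (p2.sub n2))) k

def cQ2 (P : Pl) (x1 y1 x2 y2 i r : ℕ) (k : Bool) : Bool :=
  cQ1 P x1 y1 x2 y2 i (P.q r) (P.lp r x1 y1) (P.ln r x1 y1) (P.lp r x2 y2) (P.ln r x2 y2) k

def step (T : Tb) (P : Pl) (rc : ℕ → ℕ → ℕ → ℕ → ℕ → (ℕ → Bool) → Bool)
    (x1 y1 x2 y2 s : ℕ) (k : ℕ → Bool) : Bool :=
  Nat.rec
    (rc x1 y1 (x1.add x2) (y1.add y2) (s.shiftRight P.w) fun s =>
      rc (x1.add x2) (y1.add y2) x2 y2 s k)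
    (fun t _ => Nat.rec
      (cFar P x1 y1 x2 y2 ((s.shiftRight P.w).mod P.W) (P.r ((s.shiftRight P.w).mod P.W))
        (ray T P x1 y1 (s.shiftRight (P.w.mul 2)) k))
      (fun t _ => Nat.rec
        (cQ2 P x1 y1 x2 y2 ((s.shiftRight P.w).mod P.W) (P.r ((s.shiftRight P.w).mod P.W))
          (k (s.shiftRight (P.w.mul 2))))
        (fun t _ => Nat.rec
          (cHit' T P x1 y1 x2 y2 (s.mod (Nat.pow 2 (P.w.mul 10))) (k (s.shiftRight (P.w.mul 10))))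
          (fun _ _ => cHit' T P.neg x1 y1 x2 y2 (s.mod (Nat.pow 2 (P.w.mul 10)))
            (k (s.shiftRight (P.w.mul 10)))) t) t) t)
    (s.mod P.W)

def tree (T : Tb) (P : Pl) (n : ℕ) : ℕ → ℕ → ℕ → ℕ → ℕ → (ℕ → Bool) → Bool :=
  Nat.rec (fun _ _ _ _ _ _ => false) (fun _ rc => step T P rc) n

def sg1 (T : Tb) (P : Pl) (q m0 m1 m2 l1 x1 y1 l2 x2 y2 : ℕ) (k : Bool) : Bool :=
  fz l1 fun l1 => fz l2 fun l2 =>
    z0 (((pt T P l1 x1 y1 q m0 m1 m2).add (pt T P l2 x2 y2 q m0 m1 m2)).add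
      (df (T.g l1).j (T.g l2).j)) k

def sg2 (T : Tb) (P : Pl) (r : ℕ) (k : Bool) : Bool :=
  sg1 T P (P.q r) ((r.shiftRight P.w).mod P.W) ((r.shiftRight (P.w.mul 2)).mod P.W)
    ((r.shiftRight (P.w.mul 3)).mod P.W) ((r.shiftRight (P.w.mul 4)).mod P.W)
    ((r.shiftRight P.o2).mod P.W) ((r.shiftRight P.o3).mod P.W)
    ((r.shiftRight (P.w.mul 7)).mod P.W) ((r.shiftRight P.o4).mod P.W)
    ((r.shiftRight P.o1).mod P.W) k

def segs (T : Tb) (P : Pl) (k : Bool) (n : ℕ) : Bool :=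
  Nat.rec k (fun i rc => sg2 T P (P.r i) rc) n

def plane1 (T : Tb) (P : Pl) (s : ℕ) (k : Bool) : Bool :=
  segs T P (tree T P 1000 1 0 0 1 s fun s => tree T P.rot 1000 1 0 0 1 s fun _ => k) P.ns

/-- all primitive vectors of a plane; `c` starts with the number of segments -/
def plane (T : Tb) (w W : ℕ) (a b : U) (E Fp Fn G kp c : ℕ) (k : Bool) : Bool :=
  plane1 T ⟨w, W, W.div 2, a, b, E, Fp, Fn, G, kp,
      (c.shiftRight w).mod (Nat.pow 2 ((w.mul 10).mul (c.mod W))), c.mod W,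
      w.mul 9, w.mul 5, w.mul 6, w.mul 8⟩
    (c.shiftRight (w.add ((w.mul 10).mul (c.mod W)))) k

/-- global data in dimension three: a form, its cofactor form, half of the denominator,
the centres, the symmetries, half spaces of long vectors, the box -/
structure Gl where
  Q : Mx
  R : Mx
  h2 : ℕ
  c0 : V × ℕ
  cs : List (V × ℕ)
  sy : List Mx
  gn : List (V × ℤ)
  W0 : ℕ
  W1 : ℕ
  W2 : ℕ

def key (w : V) : ℤ := w.x * 1099511627776 + w.y * 1048576 + w.z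

def kv : V := ⟨1099511627776, 1048576, 1⟩

/-- the half space `m ≤ l · w` in coordinates shifted by 4096 -/
structure Ln where
  u : U
  cl : ℕ
  cr : ℕ

def mkLn (l : V) (m : ℤ) : Ln :=
  ⟨l.u, (m + 4096 * (l.x + l.y + l.z)).toNat, (-(m + 4096 * (l.x + l.y + l.z))).toNat⟩

def Gl.lns (G : Gl) : List Ln :=
  mkLn ⟨-kv.x, -kv.y, -kv.z⟩ 1 ::
    (G.sy.map (fun A => mkLn ⟨(A.ap kv).x - kv.x, (A.ap kv).y - kv.y, (A.ap kv).z - kv.z⟩ 1) ++
      G.gn.map fun g => mkLn g.1 g.2)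

structure Cn where
  c0 : ℕ
  c1 : ℕ
  c2 : ℕ
  c3 : ℕ
  r : ℕ

def mkCn (h : ℤ) (c : V × ℕ) : Cn :=
  ⟨(c.1.x % h).toNat, (c.1.y % h).toNat, (c.1.z % h).toNat,
    ((-4096 * (c.1.x + c.1.y + c.1.z)) % h).toNat, 3 * c.2⟩

/-- tables for the normal vectors -/
structure Tw where
  ln : List Ln
  nl : ℕ
  cn : List Cn
  nc : ℕ
  d : U
  o : U
  l : U
  cp : ℕ
  cm : ℕ
  r0 : U
  r1 : U
  r2 : U
  h2 : ℕ
  h : ℕ

def Gl.tw (G : Gl) : Tw :=
  ⟨G.lns, G.lns.length, G.cs.map (mkCn (2 * G.h2)), G.cs.length,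
    V.u ⟨G.Q.a.x, G.Q.b.y, G.Q.c.z⟩, V.u ⟨2 * G.Q.a.y, 2 * G.Q.a.z, 2 * G.Q.b.z⟩,
    V.u (G.Q.ap ⟨-8192, -8192, -8192⟩),
    (V.dot ⟨4096, 4096, 4096⟩ (G.Q.ap ⟨4096, 4096, 4096⟩)).toNat,
    (-V.dot ⟨4096, 4096, 4096⟩ (G.Q.ap ⟨4096, 4096, 4096⟩)).toNat,
    G.R.a.u, G.R.b.u, G.R.c.u, G.h2, 2 * G.h2⟩

def Tw.np (S : Tw) (x y z : ℕ) : ℕ :=
  ((((S.d.p0.mul (x.mul x)).add (S.d.p1.mul (y.mul y))).add (S.d.p2.mul (z.mul z))).add
    (((S.o.p0.mul (x.mul y)).add (S.o.p1.mul (x.mul z))).add (S.o.p2.mul (y.mul z)))).add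
    ((((S.l.p0.mul x).add (S.l.p1.mul y)).add (S.l.p2.mul z)).add S.cp)

def Tw.nm (S : Tw) (x y z : ℕ) : ℕ :=
  ((((S.d.n0.mul (x.mul x)).add (S.d.n1.mul (y.mul y))).add (S.d.n2.mul (z.mul z))).add
    (((S.o.n0.mul (x.mul y)).add (S.o.n1.mul (x.mul z))).add (S.o.n2.mul (y.mul z)))).add
    ((((S.l.n0.mul x).add (S.l.n1.mul y)).add (S.l.n2.mul z)).add S.cm)

def wL (e : Ln) (x0 x1 y0 y1 z0' z1 : ℕ) : ℕ :=
  ((((e.u.n0.mul x1).add (e.u.n1.mul y1)).add (e.u.n2.mul z1)).add e.cl).sub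
    ((((e.u.p0.mul x0).add (e.u.p1.mul y0)).add (e.u.p2.mul z0')).add e.cr)

def wLin (S : Tw) (i x0 x1 y0 y1 z0' z1 : ℕ) (k : Bool) : Bool :=
  z0 (((i.add 1).sub S.nl).add (wL (look ⟨⟨0, 0, 0, 0, 0, 0⟩, 0, 0⟩ S.ln i) x0 x1 y0 y1 z0' z1)) k

def wB2 (S : Tw) (u r x y z : ℕ) : ℕ :=
  ((((((u.mul u).mul 3).add (S.h.mul S.h)).mul S.h).add (r.mul (S.nm x y z)))).sub
    (r.mul (S.np x y z))

def wB1 (S : Tw) (e : Cn) (x y z : ℕ) : ℕ :=
  wB2 S (S.h2.sub (df (((((e.c0.mul x).add (e.c1.mul y)).add (e.c2.mul z)).add e.c3).mod S.h)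
    S.h2)) e.r x y z

def wBab (S : Tw) (i x y z : ℕ) (k : Bool) : Bool :=
  z0 (((i.add 1).sub S.nc).add (wB1 S (look ⟨0, 0, 0, 0, 0⟩ S.cn i) x y z)) k

def cr (p1 n1 q2 m2 p2 n2 q1 m1 x : ℕ) : ℕ :=
  df ((((p1.mul q2).add (n1.mul m2)).add ((p2.mul m1).add (n2.mul q1))).add 4096)
    ((((p1.mul m2).add (n1.mul q2)).add ((p2.mul q1).add (n2.mul m1))).add x)

def bu (H x y z : ℕ) : U := ⟨x.sub H, y.sub H, z.sub H, H.sub x, H.sub y, H.sub z⟩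

def wT3 (T : Tb) (w W : ℕ) (a b A B : U) (N c : ℕ) (k : Bool) : Bool :=
  plane T w W a b ((dp a A).sub (dn a A)) ((dp a B).sub (dn a B)) ((dn a B).sub (dp a B))
    ((dp b B).sub (dn b B)) ((N.mul N).mul 3) c k

def wT2 (T : Tb) (S : Tw) (x y z w W : ℕ) (a b : U) (c : ℕ) (k : Bool) : Bool :=
  z0 (((cr a.p1 a.n1 b.p2 b.n2 a.p2 a.n2 b.p1 b.n1 x).add
      (cr a.p2 a.n2 b.p0 b.n0 a.p0 a.n0 b.p2 b.n2 y)).add
      (cr a.p0 a.n0 b.p1 b.n1 a.p1 a.n1 b.p0 b.n0 z))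
    (wT3 T w W a b (ap6 S.r0 S.r1 S.r2 a) (ap6 S.r0 S.r1 S.r2 b)
      ((S.np x y z).sub (S.nm x y z)) c k)

def wT1 (T : Tb) (S : Tw) (x y z w W c : ℕ) (k : Bool) : Bool :=
  wT2 T S x y z w W
    (bu (W.div 2) (c.mod W) ((c.shiftRight w).mod W) ((c.shiftRight (w.mul 2)).mod W))
    (bu (W.div 2) ((c.shiftRight (w.mul 3)).mod W) ((c.shiftRight (w.mul 4)).mod W)
      ((c.shiftRight (w.mul 5)).mod W)) (c.shiftRight (w.mul 6)) k

def wTree (T : Tb) (S : Tw) (x y z c : ℕ) (k : Bool) : Bool :=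
  fz (c.mod 64) fun w => fz (Nat.pow 2 w) fun W => wT1 T S x y z w W (c.shiftRight 6) k

def wv (x y z : ℕ) : V := ⟨(x : ℤ) - 4096, (y : ℤ) - 4096, (z : ℤ) - 4096⟩

def wEx (T : Tb) (x y z i : ℕ) (k : Bool) : Bool :=
  z0 ((i.add 1).sub T.nX) <|
    an (((wv x y z).cross (look ⟨0, 0, 0, 0, 0, 0⟩ T.X i).v).eq ⟨0, 0, 0⟩) k

/-- one normal vector -/
def one (T : Tb) (S : Tw) (t x y z s : ℕ) (ts : List ℕ) (k : ℕ → List ℕ → Bool) : Bool :=
  Nat.rec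
    (Bool.rec (k s ts) false (Nat.beq (((df x 4096).gcd (df y 4096)).gcd (df z 4096)) 1))
    (fun t _ => Nat.rec
      (List.rec false (fun c ts _ => wTree T S x y z c (k s ts)) ts)
      (fun t _ => Nat.rec
        (wEx T x y z (s.mod 256) (k (s.shiftRight 8) ts))
        (fun i _ => wBab S i x y z (k s ts)) t) t) t

def kstep (T : Tb) (S : Tw)
    (rc : ℕ → ℕ → ℕ → ℕ → ℕ → ℕ → ℕ → List ℕ → (ℕ → List ℕ → Bool) → Bool)
    (x0 x1 y0 y1 z0' z1 s : ℕ) (ts : List ℕ) (k : ℕ → List ℕ → Bool) : Bool :=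
  Bool.rec
    (z0 (((x1.sub x0).add (y1.sub y0)).add (z1.sub z0'))
      (one T S ((s.mod 256).sub 104) x0 y0 z0' (s.shiftRight 8) ts k))
    (Nat.rec
      (fz ((x0.add x1).div 2) fun m => rc x0 m y0 y1 z0' z1 (s.shiftRight 8) ts fun s ts =>
        rc (m.add 1) x1 y0 y1 z0' z1 s ts k)
      (fun t _ => Nat.rec
        (fz ((y0.add y1).div 2) fun m => rc x0 x1 y0 m z0' z1 (s.shiftRight 8) ts fun s ts =>
          rc x0 x1 (m.add 1) y1 z0' z1 s ts k)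
        (fun t _ => Nat.rec
          (fz ((z0'.add z1).div 2) fun m => rc x0 x1 y0 y1 z0' m (s.shiftRight 8) ts fun s ts =>
            rc x0 x1 y0 y1 (m.add 1) z1 s ts k)
          (fun t _ => Nat.rec
            (List.rec false (fun c ts _ => rc x0 x1 y0 y1 z0' z1 c ts k) ts)
            (fun i _ => wLin S i x0 x1 y0 y1 z0' z1 (k (s.shiftRight 8) ts)) t) t) t)
      (s.mod 256))
    (Nat.ble (s.mod 256) 103)

def kd (T : Tb) (S : Tw) (n : ℕ) :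
    ℕ → ℕ → ℕ → ℕ → ℕ → ℕ → ℕ → List ℕ → (ℕ → List ℕ → Bool) → Bool :=
  Nat.rec (fun _ _ _ _ _ _ _ _ _ => false) (fun _ rc => kstep T S rc) n

/-! ### lifts -/

/-- a row `A0 x + A1 y + A2 z ≤ C` -/
structure Row where
  A : V
  C : ℤ

def base (d : ℕ) (h : ℤ) : List Row := [⟨⟨h, 0, 0⟩, 0⟩, ⟨⟨0, h, 0⟩, 0⟩, ⟨⟨0, 0, h⟩, 0⟩].take d

/-- a lift: polyhedron, denominator, free coordinates as affine functions -/
structure Lf where
  j : ℕ
  h : ℕ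
  fr : List Row

def axpy (x : ℤ) (r t : Row) : Row :=
  ⟨⟨ad (ml x r.A.x) t.A.x, ad (ml x r.A.y) t.A.y, ad (ml x r.A.z) t.A.z⟩, ad (ml x r.C) t.C⟩

def cmb (a : List ℤ) : List Row → Row :=
  List.rec (fun _ => ⟨⟨0, 0, 0⟩, 0⟩)
    (fun x _ ih L => List.rec ⟨⟨0, 0, 0⟩, 0⟩
      (fun r rs _ => Bool.rec (axpy x r (ih rs)) (ih rs) (iz x)) L) a

def rowOf1 (M h c : ℤ) (t : Row) : Row :=
  ⟨⟨ml M t.A.x, ml M t.A.y, ml M t.A.z⟩, ad (ml c h) (ml (ml M (Int.negSucc 0)) t.C)⟩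

def rowOf (M : ℕ) (h : ℤ) (Lm : List Row) (r : List ℤ × ℤ) : Row :=
  rowOf1 (Int.ofNat M) h r.2 (cmb r.1 Lm)

def Lf.rows (d M : ℕ) (Ps : List (List (List ℤ × ℤ))) (f : Lf) : List Row :=
  (look [] Ps f.j).map (rowOf M (Int.ofNat f.h) (base d (Int.ofNat f.h) ++ f.fr))

def Lf.ok (Ps : List (List (List ℤ × ℤ))) (f : Lf) : Bool :=
  Nat.ble 1 f.h && Nat.blt f.j Ps.length

def Row.sm (r : Row) : Bool :=
  Nat.ble ((((ip r.A.x).add (im r.A.x)).add ((ip r.A.y).add (im r.A.y))).add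
    (((ip r.A.z).add (im r.A.z)).add ((ip r.C).add (im r.C)))) 1125899906842624

def push (O B H : ℕ) (r : Row) (e : Pk) : Pk :=
  ⟨e.j, (((im r.A.x).add O).sub (ip r.A.x)).add (e.p0.mul B),
    (((im r.A.y).add O).sub (ip r.A.y)).add (e.p1.mul B),
    (((im r.A.z).add O).sub (ip r.A.z)).add (e.p2.mul B),
    (((ip r.C).add O).sub (im r.C)).add (e.pc.mul B), (e.one.mul B).add O, (e.hi.mul B).add H⟩

def pack (j : ℕ) (R : List Row) : Pk :=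
  R.foldr (push 1125899906842624 79228162514264337593543950336 39614081257132168796771975168)
    ⟨j, 0, 0, 0, 0, 0, 0⟩

def packs (d M : ℕ) (Ps : List (List (List ℤ × ℤ))) (F : List Lf) : List Pk :=
  F.map fun f => pack f.j (f.rows d M Ps)

def lfs (d M : ℕ) (Ps : List (List (List ℤ × ℤ))) (F : List Lf) : Bool :=
  F.all fun f => f.ok Ps && (f.rows d M Ps).all Row.sm

/-- images of the exceptional planes -/
def Ex.pl (X : Ex) : List U :=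
  X.gs.flatMap fun h => X.es.flatMap fun e =>
    match e with
    | [r] => [(h.tp (lv r)).u]
    | _ => []

def mkTb (d M : ℕ) (Ps : List (List (List ℤ × ℤ))) (F : List Lf) (X : Ex) (np : ℕ) : Tb :=
  ⟨packs d M Ps F, F.length, Ex.pl ⟨X.gs, X.es.take np⟩, (Ex.pl ⟨X.gs, X.es.take np⟩).length, X⟩

/-- the ellipsoid of the centre `c` satisfies the rows of the lift `f` -/
def cen (M : ℕ) (Ps : List (List (List ℤ × ℤ))) (G : Gl) (f : Lf) (c : V × ℕ) : Bool :=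
  f.ok Ps && (f.rows 3 M Ps).all fun r => fv r.A fun A => fi (r.C * (2 * G.h2) - A.dot c.1) fun u =>
    an (ile 0 u) (ile (c.2 * A.dot (G.Q.ap A)) (2 * G.h2 * (u * u)))

def cens (M : ℕ) (Ps : List (List (List ℤ × ℤ))) (G : Gl) :
    List Lf → List (V × ℕ) → Bool
  | _, [] => true
  | [], _ :: _ => false
  | f :: F, c :: cs => cen M Ps G f c && cens M Ps G F cs

/-- the form is positive and the box contains all short normal vectors -/
def box (G : Gl) : Bool :=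
  fi (12 * G.c0.2 * G.Q.det) fun D => fi (56 * (G.h2 * G.h2 * G.h2)) fun T =>
    ilt 0 G.h2 && ilt 0 G.c0.2 && G.Q.co.eq G.R &&
    iz (G.Q.a.y - G.Q.b.x) && iz (G.Q.a.z - G.Q.c.x) && iz (G.Q.b.z - G.Q.c.y) &&
    ilt 0 G.Q.a.x && ilt 0 G.R.a.x && ilt 0 G.R.b.y && ilt 0 G.R.c.z && ilt 0 G.Q.det &&
    ile (G.R.a.x * T) ((G.W0 + 1) * (G.W0 + 1) * D) &&
    ile (G.R.b.y * T) ((G.W1 + 1) * (G.W1 + 1) * D) &&
    ile (G.R.c.z * T) ((G.W2 + 1) * (G.W2 + 1) * D) &&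
    Nat.ble G.W0 4000 && Nat.ble G.W1 4000 && Nat.ble G.W2 4000 &&
    G.gn.all fun g => an (ilt 0 g.2) (ile (g.1.dot (G.R.ap g.1) * T) (g.2 * g.2 * D))

def excOK (d : ℕ) (E : List (List (List ℤ))) : Bool :=
  Nat.ble 1 E.length && E.all fun e => e.all fun r => Nat.ble r.length d

def V.l (a : V) : List ℤ := [a.x, a.y, a.z]

def lxp (x : ℤ) (r : List ℤ) : List ℤ → List ℤ :=
  List.rec (fun t => t)
    (fun y _ ih t => List.rec (ml x y :: ih []) (fun u t _ => ad (ml x y) u :: ih t) t) r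

def cmL (a : List ℤ) : List (List ℤ) → List ℤ :=
  List.rec (fun _ => [])
    (fun x _ ih L => List.rec [] (fun r rs _ => Bool.rec (lxp x r (ih rs)) (ih rs) (iz x)) L) a

def dtL (a : List ℤ) : List ℤ → ℤ :=
  List.rec (fun _ => 0)
    (fun x _ ih t => List.rec 0 (fun u t _ => ad (ml x u) (ih t)) t) a

def lqz (a : List ℤ) : Bool := List.rec true (fun x _ ih => an (iz x) ih) a

def lq (a : List ℤ) : List ℤ → Bool :=
  List.rec lqz (fun x a ih b => List.rec (lqz (x :: a)) (fun y b _ => an (ieq x y) (ih b)) b) a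

def symR (P : List (List ℤ × ℤ)) (a : List ℤ) (u : ℤ) : Bool :=
  P.any fun p => an (lq p.1 a) (ile p.2 u)

/-- the map `Z ↦ T Z + t` sends every polyhedron into a polyhedron -/
def symP (M : ℕ) (Ps : List (List (List ℤ × ℤ))) (T : List (List ℤ)) :
    List (List (List ℤ × ℤ)) → List (ℕ × List ℤ) → Bool
  | [], _ => true
  | _ :: _, [] => false
  | P :: Ps', c :: cs => Nat.blt c.1 Ps.length &&
      ((look [] Ps c.1).all fun r =>
        symR P (cmL r.1 T) (ad r.2 (ml (sb 0 M) (dtL r.1 c.2)))) && symP M Ps T Ps' cs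

/-- rows of `h * adj A` -/
def Mx.ma (h A : Mx) : Mx := ⟨A.co.ap h.a, A.co.ap h.b, A.co.ap h.c⟩

def sym (M : ℕ) (Ps : List (List (List ℤ × ℤ))) (Exc : Ex) (Q A : Mx)
    (c : List (List ℤ) × List (ℕ × List ℤ)) : Bool :=
  iz (A.det * A.det - 1) &&
  Mx.eq ⟨A.ap (Q.ap A.a), A.ap (Q.ap A.b), A.ap (Q.ap A.c)⟩ Q &&
  (Exc.gs.all fun h => fv (h.ma A).a fun a => fv (h.ma A).b fun b => fv (h.ma A).c fun c =>
    Exc.gs.any fun h' => Mx.eq ⟨a, b, c⟩ h') &&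
  symP M Ps ([A.a.l, A.b.l, A.c.l] ++ c.1) Ps c.2

def syms (M : ℕ) (Ps : List (List (List ℤ × ℤ))) (Exc : Ex) (Q : Mx) :
    List Mx → List (List (List ℤ) × List (ℕ × List ℤ)) → Bool
  | [], _ => true
  | _ :: _, [] => false
  | A :: As, c :: cs => sym M Ps Exc Q A c && syms M Ps Exc Q As cs

/-- the part of the check that does not depend on the slabs -/
def head3 (M : ℕ) (Ps : List (List (List ℤ × ℤ))) (Exc : Ex) (G : Gl) (F Fc : List Lf)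
    (Sc : List (List (List ℤ) × List (ℕ × List ℤ))) : Bool :=
  Nat.ble 1 M && Nat.ble 1 Exc.gs.length && excOK 3 Exc.es && box G && lfs 3 M Ps F &&
    cens M Ps G Fc (G.c0 :: G.cs) && syms M Ps Exc G.Q G.sy Sc

/-- the normal vectors with `x0 ≤ 4096 + w.x ≤ x1` -/
def body3 (M : ℕ) (Ps : List (List (List ℤ × ℤ))) (Exc : Ex) (G : Gl) (F : List Lf)
    (np x0 x1 : ℕ) (ts : List ℕ) : Bool :=
  kd (mkTb 3 M Ps F Exc np) G.tw 100 x0 x1 (4096 - G.W1) (4096 + G.W1) (4096 - G.W2)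
    (4096 + G.W2) 3 ts fun _ _ => true

def chk2 (M : ℕ) (Ps : List (List (List ℤ × ℤ))) (E : List (List (List ℤ))) (F : List Lf)
    (w c : ℕ) : Bool :=
  Nat.ble 1 M && excOK 2 E && lfs 2 M Ps F &&
    plane (mkTb 2 M Ps F ⟨[idM], E⟩ 0) w (Nat.pow 2 w) ⟨1, 0, 0, 0, 0, 0⟩ ⟨0, 1, 0, 0, 0, 0⟩
      0 0 0 0 0 c true

/-- the list of all images of the exceptions -/
def Ex.all (X : Ex) : List (List (List ℤ)) :=
  X.gs.flatMap fun h => X.es.map fun e => e.map fun r => (h.tp (lv r)).l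

/-- concatenation of chunks of 32000 bits -/
def cat (l : List ℕ) : ℕ := l.foldr (fun a b => Nat.add a (Nat.shiftLeft b 32000)) 0

end

end Pool.Agent.Lib.B5.CV
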