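import Pool.Agent.Lib.B5.CV1

/-! Checker for `Covers`: arithmetic lemmas and the packed rows. -/

set_option autoImplicit false

namespace Pool.Agent.Lib.B5.CV

@[simp] theorem fz_eq {α : Type} (n : ℕ) (k : ℕ → α) : fz n k = k n := by cases n <;> rfl

@[simp] theorem fi_eq {α : Type} (x : ℤ) (k : ℤ → α) : fi x k = k x := by
  cases x <;> simp [fi]

@[simp] theorem fv_eq {α : Type} (a : V) (k : V → α) : fv a k = k a := by simp [fv]

@[simp] theorem an_iff (a b : Bool) : an a b = true ↔ a = true ∧ b = true := by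
  cases a <;> simp [an]

@[simp] theorem z0_iff (n : ℕ) (b : Bool) : z0 n b = true ↔ n = 0 ∧ b = true := by
  cases n <;> simp [z0]

@[simp] theorem ile_iff (a b : ℤ) : ile a b = true ↔ a ≤ b := by
  have h : ∀ x : ℤ, (Int.rec (fun _ => true) (fun _ => false) x : Bool) = true ↔ 0 ≤ x := by
    intro x; cases x <;> simp [Int.negSucc_not_nonneg]
  unfold ile; rw [h]; exact sub_nonneg (a := b)

@[simp] theorem ilt_iff (a b : ℤ) : ilt a b = true ↔ a < b := by
  have h : ∀ x : ℤ, (Int.rec (fun _ => false) (fun _ => true) x : Bool) = true ↔ x < 0 := by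
    intro x; cases x <;> simp [Int.negSucc_lt_zero]
  unfold ilt; rw [h]; exact sub_neg (a := a)

@[simp] theorem iz_iff (a : ℤ) : iz a = true ↔ a = 0 := by
  cases a <;> simp [iz, Int.negSucc_ne_zero]

@[simp] theorem ieq_iff (a b : ℤ) : ieq a b = true ↔ a = b := by
  cases a <;> cases b <;> simp [ieq]

@[simp] theorem sb_eq (m n : ℕ) : sb m n = (m : ℤ) - n := by
  unfold sb
  rcases h : n.sub m with _ | k
  · have : n - m = 0 := h
    show ((m - n : ℕ) : ℤ) = _
    omega
  · have : n - m = k + 1 := h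
    show Int.negSucc k = _
    omega

@[simp] theorem ad_eq (a b : ℤ) : ad a b = a + b := by
  cases a <;> cases b <;> simp [ad, Int.negSucc_eq] <;> ring

@[simp] theorem ml_eq (a b : ℤ) : ml a b = a * b := by
  cases a <;> cases b <;> simp [ml, Int.negSucc_eq] <;> ring

theorem ip_im (a : ℤ) : ((ip a : ℕ) : ℤ) - im a = a := by
  cases a <;> simp [ip, im, Int.negSucc_eq]

theorem look_mem {α : Type} (d : α) (L : List α) (i : ℕ) (h : i < L.length) : look d L i ∈ L := by
  induction L generalizing i with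
  | nil => simp at h
  | cons a L ih =>
    cases i with
    | zero => exact List.mem_cons_self
    | succ i => exact List.mem_cons_of_mem _ (ih i (by simpa using h))

theorem df_zero {a b : ℕ} : df a b = 0 ↔ a = b := by
  simp only [df, Nat.add_eq, Nat.sub_eq]; omega

theorem df_cast (a b : ℕ) : ((df a b : ℕ) : ℤ) = |(a : ℤ) - b| := by
  simp only [df, Nat.add_eq, Nat.sub_eq]
  rcases le_total a b with h | h
  · rw [abs_of_nonpos (by omega)]; omega
  · rw [abs_of_nonneg (by omega)]; omega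

theorem V.dot_eq (a b : V) : a.dot b = a.x * b.x + a.y * b.y + a.z * b.z := by simp [V.dot]

@[simp] theorem V.eq_iff (a b : V) : a.eq b = true ↔ a = b := by
  cases a; cases b; simp [V.eq]

@[simp] theorem Mx.eq_iff (a b : Mx) : a.eq b = true ↔ a = b := by
  cases a; cases b; simp [Mx.eq]

@[simp] theorem V.u_v (a : V) : a.u.v = a := by
  cases a; simp [V.u, U.v, ip_im]

theorem dp_dn (u v : U) : ((dp u v : ℕ) : ℤ) - dn u v = u.v.dot v.v := by
  simp only [dp, dn, V.dot_eq, U.v, Nat.add_eq, Nat.mul_eq]; push_cast; ring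

theorem ap6_v (r0 r1 r2 a : U) : (ap6 r0 r1 r2 a).v = Mx.ap ⟨r0.v, r1.v, r2.v⟩ a.v := by
  simp only [ap6, Mx.ap, ← dp_dn]; rfl

/-- lanes -/
def lanes (B : ℕ) (f : Row → ℕ) : List Row → ℕ
  | [] => 0
  | r :: R => f r + B * lanes B f R

theorem lanes_land (n B H : ℕ) (e : B = 2 ^ n) (hH : H < B) (f : Row → ℕ) (R : List Row)
    (hf : ∀ r ∈ R, f r < B)
    (h : lanes B f R &&& lanes B (fun _ => H) R = lanes B (fun _ => H) R) : ∀ r ∈ R, H ≤ f r := by
  induction R with
  | nil => simp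
  | cons r R ih =>
    have h0 := hf r List.mem_cons_self
    simp only [lanes] at h
    have h1 := congrArg (· % 2 ^ n) h
    have h2 := congrArg (· / 2 ^ n) h
    simp only [Nat.and_mod_two_pow] at h1
    simp only [Nat.and_div_two_pow] at h2
    rw [← e] at h1 h2
    rw [Nat.add_mul_mod_self_left, Nat.add_mul_mod_self_left, Nat.mod_eq_of_lt h0,
      Nat.mod_eq_of_lt hH] at h1
    rw [Nat.add_mul_div_left _ _ (by omega), Nat.add_mul_div_left _ _ (by omega),
      Nat.div_eq_of_lt h0, Nat.div_eq_of_lt hH, zero_add, zero_add] at h2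
    intro r' hr'
    rcases List.mem_cons.1 hr' with rfl | hr'
    · rw [← h1]; exact Nat.and_le_left
    · exact ih (fun r hr => hf r (List.mem_cons_of_mem _ hr)) h2 r' hr'

theorem push_eq (O B H : ℕ) (r : Row) (e : Pk) :
    (push O B H r e).p0 = im r.A.x + O - ip r.A.x + e.p0 * B ∧
    (push O B H r e).p1 = im r.A.y + O - ip r.A.y + e.p1 * B ∧
    (push O B H r e).p2 = im r.A.z + O - ip r.A.z + e.p2 * B ∧
    (push O B H r e).pc = ip r.C + O - im r.C + e.pc * B ∧
    (push O B H r e).one = e.one * B + O ∧ (push O B H r e).hi = e.hi * B + H :=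
  ⟨rfl, rfl, rfl, rfl, rfl, rfl⟩

noncomputable def pk (O B H j : ℕ) (R : List Row) : Pk := R.foldr (push O B H) ⟨j, 0, 0, 0, 0, 0, 0⟩

theorem pk_cons (O B H j : ℕ) (r : Row) (R : List Row) :
    pk O B H j (r :: R) = push O B H r (pk O B H j R) := rfl

theorem pack_j (j : ℕ) (R : List Row) : (pack j R).j = j := by
  have : ∀ O B H, (pk O B H j R).j = j := fun O B H => by
    induction R with
    | nil => rfl
    | cons r R ih => exact ih
  exact this _ _ _

theorem pk_hi (O B H j : ℕ) (R : List Row) : (pk O B H j R).hi = lanes B (fun _ => H) R := by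
  induction R with
  | nil => rfl
  | cons r R ih => rw [pk_cons, (push_eq ..).2.2.2.2.2, ih, lanes]; ring

theorem abs_le_of_sm {r : Row} (h : r.sm = true) :
    ((ip r.A.x : ℕ) : ℤ) + im r.A.x + ip r.A.y + im r.A.y + ip r.A.z + im r.A.z + ip r.C + im r.C
      ≤ 1125899906842624 := by
  simp only [Row.sm, Nat.ble_eq, Nat.add_eq] at h
  omega

theorem pk_val (O B H j : ℕ) (R : List Row) (hR : ∀ r ∈ R,
      ((ip r.A.x : ℕ) : ℤ) + im r.A.x + ip r.A.y + im r.A.y + ip r.A.z + im r.A.z + ip r.C + im r.C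
      ≤ O) (xp yp zp xn yn zn q : ℕ) (f : Row → ℕ) (hf : ∀ r ∈ R, (f r : ℤ) = H + (r.C * q -
      (r.A.x * ((xp : ℤ) - xn) + r.A.y * ((yp : ℤ) - yn) + r.A.z * ((zp : ℤ) - zn)))) :
    (pk O B H j R).p0 * xp + (pk O B H j R).p1 * yp +
      ((pk O B H j R).p2 * zp + (pk O B H j R).pc * q) +
      ((pk O B H j R).one * (xn + yn + zn) + (pk O B H j R).hi) =
    (pk O B H j R).p0 * xn + (pk O B H j R).p1 * yn + (pk O B H j R).p2 * zn +
      (pk O B H j R).one * (xp + yp + (zp + q)) + lanes B f R := by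
  induction R with
  | nil => simp [pk, lanes]
  | cons r R ih =>
    have ih := ih (fun r hr => hR r (List.mem_cons_of_mem _ hr))
      (fun r hr => hf r (List.mem_cons_of_mem _ hr))
    have h0 := hf r List.mem_cons_self
    have hs := hR r List.mem_cons_self
    rw [pk_cons]
    generalize pk O B H j R = e at ih ⊢
    obtain ⟨e0, e1, e2, e3, e4, e5⟩ := push_eq O B H r e
    rw [e0, e1, e2, e3, e4, e5, lanes]
    have a0 := ip_im r.A.x
    have a1 := ip_im r.A.y
    have a2 := ip_im r.A.z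
    have a3 := ip_im r.C
    have b0 : ((im r.A.x + O - ip r.A.x : ℕ) : ℤ) = O - r.A.x := by omega
    have b1 : ((im r.A.y + O - ip r.A.y : ℕ) : ℤ) = O - r.A.y := by omega
    have b2 : ((im r.A.z + O - ip r.A.z : ℕ) : ℤ) = O - r.A.z := by omega
    have b3 : ((ip r.C + O - im r.C : ℕ) : ℤ) = O + r.C := by omega
    generalize im r.A.x + O - ip r.A.x = c0 at b0 ⊢
    generalize im r.A.y + O - ip r.A.y = c1 at b1 ⊢
    generalize im r.A.z + O - ip r.A.z = c2 at b2 ⊢
    generalize ip r.C + O - im r.C = c3 at b3 ⊢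
    have ih' := congrArg (Nat.cast : ℕ → ℤ) ih
    apply Nat.cast_injective (R := ℤ)
    push_cast at ih' ⊢
    rw [b0, b1, b2, b3, h0]
    linear_combination B * ih'

theorem mul_bd (a p n : ℕ) (b : ℕ) (x : ℤ) (hx : (a : ℤ) - b = x) :
    |x * ((p : ℤ) - n)| ≤ ((a : ℤ) + b) * (p + n) := by
  rw [abs_mul]
  apply mul_le_mul _ _ (abs_nonneg _) (by positivity) <;> rw [abs_le] <;> constructor <;> omega

theorem pack_ok (j : ℕ) (R : List Row) (hR : ∀ r ∈ R, r.sm = true) (xp yp zp xn yn zn q : ℕ)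
    (h : (pack j R).chk xp yp zp xn yn zn q = 0) : 1 ≤ q ∧ ∀ r ∈ R,
      r.A.x * ((xp : ℤ) - xn) + r.A.y * ((yp : ℤ) - yn) + r.A.z * ((zp : ℤ) - zn) ≤ r.C * q := by
  simp only [Pk.chk, Nat.add_eq, Nat.mul_eq, Nat.sub_eq, Nat.land_eq] at h
  have hs : xp + yp + (zp + q) + (xn + yn + zn) ≤ 17592186044416 := by omega
  refine ⟨by omega, ?_⟩
  have hb : ∀ r ∈ R, |r.C * q - (r.A.x * ((xp : ℤ) - xn) + r.A.y * ((yp : ℤ) - yn) +
      r.A.z * ((zp : ℤ) - zn))| ≤ 19807040628566084398385987584 := by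
    intro r hr
    have h0 := abs_le_of_sm (hR r hr)
    have h1 := abs_le.1 (mul_bd _ xp xn _ _ (ip_im r.A.x))
    have h2 := abs_le.1 (mul_bd _ yp yn _ _ (ip_im r.A.y))
    have h3 := abs_le.1 (mul_bd _ zp zn _ _ (ip_im r.A.z))
    have h4 := abs_le.1 (mul_bd _ q 0 _ _ (ip_im r.C))
    have hs' : (xp : ℤ) + yp + (zp + q) + (xn + yn + zn) ≤ 17592186044416 := by exact_mod_cast hs
    have k : ∀ (a b p n : ℕ), (p : ℤ) + n ≤ 17592186044416 →
        ((a : ℤ) + b) * (p + n) ≤ ((a : ℤ) + b) * 17592186044416 := fun a b p n h =>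
      mul_le_mul_of_nonneg_left h (by positivity)
    have k1 := k (ip r.A.x) (im r.A.x) xp xn (by omega)
    have k2 := k (ip r.A.y) (im r.A.y) yp yn (by omega)
    have k3 := k (ip r.A.z) (im r.A.z) zp zn (by omega)
    have k4 := k (ip r.C) (im r.C) q 0 (by omega)
    simp only [Nat.cast_zero, sub_zero] at h4 k4
    rw [abs_le]; constructor <;> linarith [h1.1, h1.2, h2.1, h2.2, h3.1, h3.2, h4.1, h4.2]
  let f : Row → ℕ := fun r => (39614081257132168796771975168 + (r.C * q -
      (r.A.x * ((xp : ℤ) - xn) + r.A.y * ((yp : ℤ) - yn) + r.A.z * ((zp : ℤ) - zn)))).toNat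
  have hf : ∀ r ∈ R, (f r : ℤ) = 39614081257132168796771975168 + (r.C * q -
      (r.A.x * ((xp : ℤ) - xn) + r.A.y * ((yp : ℤ) - yn) + r.A.z * ((zp : ℤ) - zn))) := by
    intro r hr
    have := abs_le.1 (hb r hr)
    exact Int.toNat_of_nonneg (by linarith [this.1])
  have e : pack j R = pk 1125899906842624 79228162514264337593543950336
    39614081257132168796771975168 j R := rfl
  rw [e, pk_val _ _ _ j R (fun r hr => abs_le_of_sm (hR r hr)) xp yp zp xn yn zn q f hf,
    Nat.add_sub_cancel_left, pk_hi] at h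
  have h2 := lanes_land 96 79228162514264337593543950336 39614081257132168796771975168
    (by norm_num) (by norm_num) f R (fun r hr => by
      have := abs_le.1 (hb r hr)
      have := hf r hr
      omega) (le_antisymm Nat.and_le_right (by omega))
  intro r hr
  have := h2 r hr
  have := hf r hr
  omega

end Pool.Agent.Lib.B5.CV
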