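import Pool.Agent.Lib.B5.CV2

/-! Checker for `Covers`: the vectors of one plane. -/

set_option autoImplicit false

namespace Pool.Agent.Lib.B5.CV

def Cvx (K : ℕ → ℝ → ℝ → ℝ → Prop) : Prop :=
  ∀ j x y z x' y' z' (t : ℝ), 0 ≤ t → t ≤ 1 → K j x y z → K j x' y' z' →
    K j (x + t * (x' - x)) (y + t * (y' - y)) (z + t * (z' - z))

def Hh (K : ℕ → ℝ → ℝ → ℝ → Prop) (v : V) : Prop :=
  ∃ (β : ℝ) (j : ℕ) (m : V), K j (β * v.x - m.x) (β * v.y - m.y) (β * v.z - m.z)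

def Xx (E : Ex) (v : V) : Prop := ∃ h ∈ E.gs, ∃ e ∈ E.es, ∀ r ∈ e, (lv r).dot (h.ap v) = 0

def HX (K : ℕ → ℝ → ℝ → ℝ → Prop) (E : Ex) (v : V) : Prop := Hh K v ∨ Xx E v

def TbOK (K : ℕ → ℝ → ℝ → ℝ → Prop) (T : Tb) : Prop :=
  (∀ l, l < T.nL → ∀ xp yp zp xn yn zn q : ℕ, (T.g l).chk xp yp zp xn yn zn q = 0 → 1 ≤ q ∧
    K (T.g l).j (((xp : ℝ) - xn) / q) (((yp : ℝ) - yn) / q) (((zp : ℝ) - zn) / q)) ∧
  ∀ i, i < T.nX → ∀ v, (look ⟨0, 0, 0, 0, 0, 0⟩ T.X i).v.dot v = 0 → Xx T.E v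

def lc (x y : ℤ) (a b : V) : V := ⟨x * a.x + y * b.x, x * a.y + y * b.y, x * a.z + y * b.z⟩

def V.sm (g : ℤ) (v : V) : V := ⟨g * v.x, g * v.y, g * v.z⟩

variable {K : ℕ → ℝ → ℝ → ℝ → Prop} {T : Tb} {P : Pl}

theorem Hh.of {v : V} (β : ℝ) (m : V) {j : ℕ} {x y z : ℝ} (h : K j x y z)
    (ex : β * v.x - m.x = x) (ey : β * v.y - m.y = y) (ez : β * v.z - m.z = z) : Hh K v :=
  ⟨β, j, m, by rw [ex, ey, ez]; exact h⟩

theorem Hh.sm {v : V} {g : ℤ} (hg : g ≠ 0) (h : Hh K v) : Hh K (v.sm g) := by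
  obtain ⟨β, j, m, h⟩ := h
  have : (g : ℝ) ≠ 0 := by exact_mod_cast hg
  refine ⟨β / g, j, m, ?_⟩
  have e : ∀ x : ℤ, β / g * ((g * x : ℤ) : ℝ) = β * x := fun x => by push_cast; field_simp
  simpa only [V.sm, e] using h

theorem Xx.sm {E : Ex} {v : V} (g : ℤ) (h : Xx E v) : Xx E (v.sm g) := by
  obtain ⟨h, hh, e, he, H⟩ := h
  refine ⟨h, hh, e, he, fun r hr => ?_⟩
  have := H r hr
  simp only [V.dot_eq, Mx.ap, V.sm] at this ⊢
  linear_combination g * this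

theorem HX.sm {E : Ex} {v : V} {g : ℤ} (hg : g ≠ 0) (h : HX K E v) : HX K E (v.sm g) :=
  h.imp (Hh.sm hg) (Xx.sm g)

theorem pt_ok (hT : TbOK K T) {l x y q m0 m1 m2 : ℕ} (h : pt T P l x y q m0 m1 m2 = 0) :
    (0 : ℝ) < q ∧ K (T.g l).j (((lc x y P.a.v P.b.v).x : ℝ) / q - (((m0 : ℤ) - P.H : ℤ) : ℝ))
      (((lc x y P.a.v P.b.v).y : ℝ) / q - (((m1 : ℤ) - P.H : ℤ) : ℝ))
      (((lc x y P.a.v P.b.v).z : ℝ) / q - (((m2 : ℤ) - P.H : ℤ) : ℝ)) := by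
  simp only [pt, Nat.add_eq, Nat.sub_eq, Nat.mul_eq] at h
  obtain ⟨hq, hK⟩ := hT.1 l (by omega) _ _ _ _ _ _ _ (Nat.eq_zero_of_add_eq_zero_left h)
  have hq' : (0 : ℝ) < q := by exact_mod_cast hq
  refine ⟨hq', ?_⟩
  have e : ∀ p n p' n' m : ℕ, (((x * p + y * p' + q * P.H : ℕ) : ℝ) -
      ((x * n + y * n' + q * m : ℕ) : ℝ)) / q =
      (((x : ℤ) * ((p : ℤ) - n) + y * ((p' : ℤ) - n') : ℤ) : ℝ) / q -
        (((m : ℤ) - P.H : ℤ) : ℝ) := fun p n p' n' m => by push_cast; field_simp; ring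
  simp only [e] at hK
  exact hK

def tz (P : Pl) (r o : ℕ) : ℤ := ((r.shiftRight o).mod P.W : ℕ)

def ell (P : Pl) (r : ℕ) (x y : ℤ) : ℤ :=
  x * tz P r P.o1 + y * tz P r P.o2 - (x * tz P r P.o3 + y * tz P r P.o4)

theorem lp_ln (r x y : ℕ) : ((P.lp r x y : ℕ) : ℤ) - P.ln r x y = ell P r x y := by
  simp only [Pl.lp, Pl.ln, ell, tz, Nat.add_eq, Nat.mul_eq]; push_cast; ring

def bz (P : Pl) (x y x' y' : ℤ) : ℤ :=
  P.E * (x * x') + ((P.Fp : ℤ) - P.Fn) * (x * y' + y * x') + P.G * (y * y')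

theorem bp_bn (x y x' y' : ℕ) :
    ((P.bp x y x' y' : ℕ) : ℤ) - P.bn x y x' y' = bz P x y x' y' := by
  simp only [Pl.bp, Pl.bn, bz, Nat.add_eq, Nat.mul_eq]; push_cast; ring

def Sg1 (K : ℕ → ℝ → ℝ → ℝ → Prop) (P : Pl) (r : ℕ) : Prop :=
  1 ≤ P.q r ∧ ∀ x y s t : ℤ, x * s + y * t = 1 → (P.q r : ℤ) ≤ |ell P r x y| →
    Hh K (lc x y P.a.v P.b.v)

def SgOK (K : ℕ → ℝ → ℝ → ℝ → Prop) (P : Pl) : Prop := ∀ i, i < P.ns → Sg1 K P (P.r i)

theorem exists_int (f d : ℝ) (h : 1 ≤ |d|) : ∃ (t : ℝ) (n : ℤ), 0 ≤ t ∧ t ≤ 1 ∧ f + t * d = n := by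
  rcases le_abs.1 h with h | h
  · refine ⟨(⌈f⌉ - f) / d, ⌈f⌉, div_nonneg (by linarith [Int.le_ceil f]) (by linarith), ?_, ?_⟩
    · rw [div_le_one (by linarith)]; linarith [Int.ceil_lt_add_one f]
    · have : d ≠ 0 := by linarith
      field_simp; ring
  · refine ⟨(f - ⌊f⌋) / (-d), ⌊f⌋, div_nonneg (by linarith [Int.floor_le f]) (by linarith), ?_, ?_⟩
    · rw [div_le_one (by linarith)]; linarith [Int.lt_floor_add_one f]
    · have : d ≠ 0 := by linarith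
      field_simp; ring

theorem sg2_ok (hK : Cvx K) (hT : TbOK K T) {r : ℕ} {k : Bool} (h : sg2 T P r k = true) :
    Sg1 K P r ∧ k = true := by
  simp only [sg2, sg1, fz_eq, z0_iff, Nat.add_eq, Nat.add_eq_zero_iff, df_zero] at h
  obtain ⟨⟨⟨h1, h2⟩, h3⟩, hk⟩ := h
  obtain ⟨hq, h1⟩ := pt_ok hT h1
  obtain ⟨-, h2⟩ := pt_ok hT h2
  refine ⟨⟨by exact_mod_cast hq, fun x y s t hst hl => ?_⟩, hk⟩
  rw [← h3] at h2
  simp only [ell, tz] at hl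
  generalize (r.shiftRight P.o1).mod P.W = y2 at *
  generalize (r.shiftRight P.o2).mod P.W = x1 at *
  generalize (r.shiftRight P.o3).mod P.W = y1 at *
  generalize (r.shiftRight P.o4).mod P.W = x2 at *
  generalize (((r.shiftRight P.w).mod P.W : ℕ) : ℤ) - P.H = m0 at *
  generalize (((r.shiftRight (P.w.mul 2)).mod P.W : ℕ) : ℤ) - P.H = m1 at *
  generalize (((r.shiftRight (P.w.mul 3)).mod P.W : ℕ) : ℤ) - P.H = m2 at *
  generalize P.q r = q at *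
  have hl' : (q : ℝ) ≤ |(x : ℝ) * y2 + y * x1 - (x * y1 + y * x2)| := by exact_mod_cast hl
  obtain ⟨u, n, u0, u1, hn⟩ := exists_int (((x : ℝ) * y1 - y * x1) / q)
    (((x : ℝ) * y2 + y * x1 - (x * y1 + y * x2)) / q)
    (by rw [abs_div, abs_of_pos hq, le_div_iff₀ hq]; linarith)
  have H := hK _ _ _ _ _ _ _ u u0 u1 h1 h2
  have hst' : (x : ℝ) * s + y * t = 1 := by exact_mod_cast hst
  have e : ∀ a b m : ℤ, (s * (x1 + u * (x2 - x1)) + t * (y1 + u * (y2 - y1))) / q *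
      ((x * a + y * b : ℤ) : ℝ) - ((m - n * (-t * a + s * b) : ℤ) : ℝ) =
      (((x1 : ℤ) * a + (y1 : ℤ) * b : ℤ) : ℝ) / q - m +
        u * ((((x2 : ℤ) * a + (y2 : ℤ) * b : ℤ) : ℝ) / q - m -
          ((((x1 : ℤ) * a + (y1 : ℤ) * b : ℤ) : ℝ) / q - m)) := fun a b m => by
    push_cast
    rw [← hn]
    field_simp
    linear_combination ((x1 + u * (x2 - x1)) * a + (y1 + u * (y2 - y1)) * b) * hst'
  exact Hh.of _ ⟨m0 - n * (-t * P.a.v.x + s * P.b.v.x), m1 - n * (-t * P.a.v.y + s * P.b.v.y),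
      m2 - n * (-t * P.a.v.z + s * P.b.v.z)⟩ H (e ..) (e ..) (e ..)

theorem segs_ok (hK : Cvx K) (hT : TbOK K T) {k : Bool} {n : ℕ} (h : segs T P k n = true) :
    (∀ i, i < n → Sg1 K P (P.r i)) ∧ k = true := by
  induction n with
  | zero => exact ⟨by simp, h⟩
  | succ n ih =>
    obtain ⟨h1, h2⟩ := sg2_ok hK hT (show sg2 T P (P.r n) (segs T P k n) = true from h)
    refine ⟨fun i hi => ?_, (ih h2).2⟩
    rcases Nat.lt_succ_iff_lt_or_eq.1 hi with hi | rfl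
    · exact (ih h2).1 i hi
    · exact h1

theorem U.neg_v (u : U) : u.neg.v = u.v.sm (-1) := by simp [U.neg, U.v, V.sm]

theorem lc_rot (x y : ℤ) : lc x y P.rot.a.v P.rot.b.v = lc (-y) x P.a.v P.b.v := by
  simp only [Pl.rot, U.neg_v, lc, V.sm, V.mk.injEq]; refine ⟨?_, ?_, ?_⟩ <;> ring

theorem SgOK.rot (h : SgOK K P) : SgOK K P.rot := by
  intro i hi
  obtain ⟨h1, h2⟩ := h i hi
  refine ⟨h1, fun x y s t hst hl => ?_⟩
  rw [lc_rot]
  refine h2 (-y) x (-t) s (by linarith) ?_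
  have : ell P (P.r i) (-y) x = ell P.rot (P.rot.r i) x y := by
    simp only [ell, tz, Pl.rot, Pl.r]; ring
  rw [this]; exact hl

def Good (K : ℕ → ℝ → ℝ → ℝ → Prop) (T : Tb) (P : Pl) (x y : ℤ) : Prop :=
  ∀ s t : ℤ, x * s + y * t = 1 → (P.k : ℤ) ≤ 4 * bz P x y x y → HX K T.E (lc x y P.a.v P.b.v)

def Cone (K : ℕ → ℝ → ℝ → ℝ → Prop) (T : Tb) (P : Pl) (x1 y1 x2 y2 : ℕ) : Prop :=
  ∀ α β : ℕ, 1 ≤ α → Good K T P (α * x1 + β * x2) (α * y1 + β * y2)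

theorem R_v (x y : ℕ) : (P.R x y).v = lc x y P.a.v P.b.v := by
  simp only [Pl.R, U.v, lc, Nat.add_eq, Nat.mul_eq, V.mk.injEq]
  push_cast; refine ⟨?_, ?_, ?_⟩ <;> ring

theorem far_zero {q p n : ℕ} (h : far q p n = 0) : (q : ℤ) ≤ |(p : ℤ) - n| := by
  simp only [far, Nat.add_eq, Nat.sub_eq, Nat.mul_eq, Nat.mul_eq_zero] at h
  rw [le_abs]; omega

theorem ray_ok (hT : TbOK K T) (hS : SgOK K P) {x y s : ℕ} {k : ℕ → Bool}
    (h : ray T P x y s k = true) : Good K T P x y ∧ ∃ s, k s = true := by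
  unfold ray at h
  generalize s.mod P.W = t at h
  rcases t with _ | _ | _ | _ | t
  · simp only [Nat.rec_zero, z0_iff, Nat.add_eq, Nat.sub_eq, Nat.mul_eq] at h
    refine ⟨fun _ _ _ hk => ?_, _, h.2⟩
    have := bp_bn (P := P) x y x y
    omega
  · have h : rFar P x y _ _ _ = true := h
    simp only [rFar, z0_iff, Nat.add_eq, Nat.sub_eq, Nat.add_eq_zero_iff] at h
    refine ⟨fun s t hst _ => Or.inl ((hS _ (Nat.sub_eq_zero_iff_le.1 h.1.1)).2 _ _ s t hst ?_),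
      _, h.2⟩
    rw [← lp_ln]; exact far_zero h.1.2
  · have h : rHit T P x y _ _ _ _ _ _ _ = true := h
    simp only [rHit, fz_eq, z0_iff, Nat.mul_eq] at h
    obtain ⟨hq, h1⟩ := pt_ok hT h.1
    have e : ∀ (b q : ℕ) (a a' : ℤ), (b : ℝ) / q * (((x : ℤ) * a + y * a' : ℤ) : ℝ) =
        ((((b * x : ℕ) : ℤ) * a + ((b * y : ℕ) : ℤ) * a' : ℤ) : ℝ) / q := fun b q a a' => by
      push_cast; ring
    exact ⟨fun _ _ _ _ => Or.inl (Hh.of _ ⟨_, _, _⟩ h1 (congrArg (· - _) (e ..))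
      (congrArg (· - _) (e ..)) (congrArg (· - _) (e ..))), _, h.2⟩
  · have h : rPl T _ _ _ = true := h
    simp only [rPl, fz_eq, z0_iff, Nat.add_eq, Nat.sub_eq, Nat.add_eq_zero_iff, df_zero] at h
    refine ⟨fun _ _ _ _ => Or.inr (hT.2 _ (Nat.sub_eq_zero_iff_le.1 h.1.1) _ ?_), _, h.2⟩
    rw [← R_v, ← dp_dn, h.1.2, sub_self]
  · have h : rEx T _ _ _ _ = true := h
    simp only [rEx, fv_eq, z0_iff, an_iff, Nat.add_eq, Nat.sub_eq, Nat.add_eq_zero_iff,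
      List.all_eq_true, iz_iff, R_v] at h
    exact ⟨fun _ _ _ _ => Or.inr ⟨_, look_mem _ _ _ (Nat.sub_eq_zero_iff_le.1 h.1.1), _,
      look_mem _ _ _ (Nat.sub_eq_zero_iff_le.1 h.1.2), h.2.1⟩, _, h.2.2⟩

theorem cHit_ok (hK : Cvx K) (hT : TbOK K T) {x1 y1 x2 y2 r : ℕ} {k : Bool}
    (h : cHit' T P x1 y1 x2 y2 r k = true) :
    (∀ α β : ℕ, 1 ≤ α → Hh K (lc (α * x1 + β * x2) (α * y1 + β * y2) P.a.v P.b.v)) ∧ k = true := by
  simp only [cHit', cHit, fz_eq, z0_iff, Nat.add_eq, Nat.sub_eq, Nat.add_eq_zero_iff, df_zero,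
    Nat.mul_eq] at h
  obtain ⟨⟨⟨h1, h2⟩, h3, h4⟩, hk⟩ := h
  obtain ⟨q1, h1⟩ := pt_ok hT h1
  obtain ⟨q2, h2⟩ := pt_ok hT h2
  refine ⟨fun α β hα => ?_, hk⟩
  rw [← h3] at h2
  generalize (r.shiftRight (P.w * 2)).mod P.W = b1 at *
  generalize (r.shiftRight (P.w * 3)).mod P.W = c1 at *
  generalize (r.shiftRight (P.w * 5)).mod P.W = b2 at *
  generalize (r.shiftRight (P.w * 6)).mod P.W = c2 at *
  have hb : 0 < b1 * b2 := by omega
  have p1 : (0 : ℝ) < b1 := by exact_mod_cast Nat.pos_of_mul_pos_right hb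
  have p2 : (0 : ℝ) < b2 := by exact_mod_cast Nat.pos_of_mul_pos_left hb
  have pα : (0 : ℝ) < α := by exact_mod_cast hα
  have hD : (0 : ℝ) < α * b2 * c1 + β * b1 * c2 := by positivity
  have H := hK _ _ _ _ _ _ _ (β * b1 * c2 / (α * b2 * c1 + β * b1 * c2)) (by positivity)
    (by rw [div_le_one hD]; have : (0 : ℝ) < α * b2 * c1 := by positivity
        linarith) h1 h2
  have e : ∀ (a a' : ℤ) (m : ℝ), (b1 * b2 / (α * b2 * c1 + β * b1 * c2) : ℝ) *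
      ((((α : ℤ) * x1 + β * x2) * a + ((α : ℤ) * y1 + β * y2) * a' : ℤ) : ℝ) - m =
      ((((b1 * x1 : ℕ) : ℤ) * a + ((b1 * y1 : ℕ) : ℤ) * a' : ℤ) : ℝ) / c1 - m +
        β * b1 * c2 / (α * b2 * c1 + β * b1 * c2) *
        (((((b2 * x2 : ℕ) : ℤ) * a + ((b2 * y2 : ℕ) : ℤ) * a' : ℤ) : ℝ) / c2 - m -
          (((((b1 * x1 : ℕ) : ℤ) * a + ((b1 * y1 : ℕ) : ℤ) * a' : ℤ) : ℝ) / c1 - m)) :=
    fun a a' m => by push_cast; field_simp; ring
  exact Hh.of _ ⟨_, _, _⟩ H (e ..) (e ..) (e ..)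

theorem ell_add (r : ℕ) (α β x1 y1 x2 y2 : ℤ) : ell P r (α * x1 + β * x2) (α * y1 + β * y2) =
    α * ell P r x1 y1 + β * ell P r x2 y2 := by simp only [ell]; ring

theorem cFar_ok (hS : SgOK K P) {x1 y1 x2 y2 i : ℕ} {k : Bool}
    (h : cFar P x1 y1 x2 y2 i (P.r i) k = true) :
    (∀ α β : ℕ, 1 ≤ α → 1 ≤ β → Good K T P (α * x1 + β * x2) (α * y1 + β * y2)) ∧ k = true := by
  simp only [cFar, cF, z0_iff, Nat.add_eq, Nat.sub_eq, Nat.add_eq_zero_iff, Nat.mul_eq,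
    Nat.mul_eq_zero] at h
  refine ⟨fun α β hα hβ s t hst _ => Or.inl ((hS i (by omega)).2 _ _ s t hst ?_), h.2⟩
  rw [ell_add, ← lp_ln, ← lp_ln, le_abs]
  have a1 : (1 : ℤ) ≤ α := by exact_mod_cast hα
  have a2 : (1 : ℤ) ≤ β := by exact_mod_cast hβ
  generalize P.lp (P.r i) x1 y1 = p1 at *
  generalize P.ln (P.r i) x1 y1 = n1 at *
  generalize P.lp (P.r i) x2 y2 = p2 at *
  generalize P.ln (P.r i) x2 y2 = n2 at *
  rcases h.1.2 with h | h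
  · left
    have b1 : (0 : ℤ) ≤ (p1 : ℤ) - n1 := by omega
    have b2 : (0 : ℤ) ≤ (p2 : ℤ) - n2 := by omega
    have b3 : (P.q (P.r i) : ℤ) ≤ ((p1 : ℤ) - n1) + ((p2 : ℤ) - n2) := by omega
    nlinarith
  · right
    have b1 : (p1 : ℤ) - n1 ≤ 0 := by omega
    have b2 : (p2 : ℤ) - n2 ≤ 0 := by omega
    have b3 : (P.q (P.r i) : ℤ) ≤ -(((p1 : ℤ) - n1) + ((p2 : ℤ) - n2)) := by omega
    nlinarith

theorem cQ_ok (hS : SgOK K P) {x1 y1 x2 y2 i : ℕ} {k : Bool}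
    (h : cQ2 P x1 y1 x2 y2 i (P.r i) k = true) : Cone K T P x1 y1 x2 y2 ∧ k = true := by
  simp only [cQ2, cQ1, cQ, z0_iff, Nat.add_eq, Nat.sub_eq, Nat.add_eq_zero_iff, Nat.mul_eq,
    Nat.mul_eq_zero, Nat.sub_eq_zero_iff_le] at h
  obtain ⟨⟨⟨⟨h1, h2⟩, h3⟩, ⟨h4, h5⟩, h6⟩, hk⟩ := h
  obtain ⟨hq, hS⟩ := hS i (by omega)
  refine ⟨fun α β hα s t hst hQ => Or.inl (hS _ _ s t hst ?_), hk⟩
  have e : bz P (α * x1 + β * x2) (α * y1 + β * y2) (α * x1 + β * x2) (α * y1 + β * y2) =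
      α * α * bz P x1 y1 x1 y1 + 2 * (α * β) * bz P x1 y1 x2 y2 + β * β * bz P x2 y2 x2 y2 := by
    simp only [bz]; ring
  rw [e, ← bp_bn, ← bp_bn, ← bp_bn] at hQ
  rw [ell_add, ← lp_ln, ← lp_ln]
  have d1 := df_cast (P.lp (P.r i) x1 y1) (P.ln (P.r i) x1 y1)
  have d2 := df_cast (P.lp (P.r i) x2 y2) (P.ln (P.r i) x2 y2)
  zify at h3 h4 h5 h6 hq
  generalize (df (P.lp (P.r i) x1 y1) (P.ln (P.r i) x1 y1) : ℤ) = l1 at *
  generalize (df (P.lp (P.r i) x2 y2) (P.ln (P.r i) x2 y2) : ℤ) = l2 at *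
  have hl : |(α : ℤ) * ((P.lp (P.r i) x1 y1 : ℕ) - (P.ln (P.r i) x1 y1 : ℕ)) +
      β * ((P.lp (P.r i) x2 y2 : ℕ) - (P.ln (P.r i) x2 y2 : ℕ))| = α * l1 + β * l2 := by
    rw [d1, d2]
    rcases h2 with h2 | h2
    · rw [abs_of_nonneg (by omega : (0 : ℤ) ≤ (P.lp (P.r i) x1 y1 : ℕ) - (P.ln (P.r i) x1 y1 : ℕ)),
        abs_of_nonneg (by omega : (0 : ℤ) ≤ (P.lp (P.r i) x2 y2 : ℕ) - (P.ln (P.r i) x2 y2 : ℕ))]
      apply abs_of_nonneg
      apply add_nonneg <;> apply mul_nonneg <;> omega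
    · rw [abs_of_nonpos (by omega : ((P.lp (P.r i) x1 y1 : ℕ) : ℤ) - (P.ln (P.r i) x1 y1 : ℕ) ≤ 0),
        abs_of_nonpos (by omega : ((P.lp (P.r i) x2 y2 : ℕ) : ℤ) - (P.ln (P.r i) x2 y2 : ℕ) ≤ 0),
        abs_of_nonpos]
      · ring
      · apply add_nonpos <;> apply mul_nonpos_of_nonneg_of_nonpos <;> omega
  rw [hl]
  have l10 : 0 ≤ l1 := d1 ▸ abs_nonneg _
  have l20 : 0 ≤ l2 := d2 ▸ abs_nonneg _
  generalize (P.q (P.r i) : ℤ) = q at *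
  by_contra hc
  have hc := not_le.1 hc
  have a0 : (0 : ℤ) ≤ α := by omega
  have b0 : (0 : ℤ) ≤ β := by omega
  have s0 : 0 ≤ α * l1 + β * l2 := by positivity
  have s1 : (α * l1 + β * l2) * (α * l1 + β * l2) < q * q := by nlinarith
  have s2 := mul_lt_mul_of_pos_left s1 (by omega : (0 : ℤ) < P.k)
  have t1 := mul_le_mul_of_nonneg_left h4 (mul_nonneg a0 a0)
  have t2 := mul_le_mul_of_nonneg_left h5 (mul_nonneg b0 b0)
  have t3 := mul_le_mul_of_nonneg_left h6 (mul_nonneg a0 b0)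
  have t4 := mul_le_mul_of_nonneg_left hQ (mul_self_nonneg q)
  linarith

theorem Cone.split {x1 y1 x2 y2 : ℕ} (h1 : Cone K T P x1 y1 (x1 + x2) (y1 + y2))
    (h2 : Cone K T P (x1 + x2) (y1 + y2) x2 y2) : Cone K T P x1 y1 x2 y2 := by
  intro α β hα
  rcases lt_or_ge β α with h | h
  · obtain ⟨γ, rfl⟩ := Nat.exists_eq_add_of_lt h
    have := h1 (γ + 1) β (by omega)
    push_cast at this ⊢
    rwa [show ((γ : ℤ) + 1) * x1 + β * (x1 + x2) = (β + γ + 1) * x1 + β * x2 by ring,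
      show ((γ : ℤ) + 1) * y1 + β * (y1 + y2) = (β + γ + 1) * y1 + β * y2 by ring] at this
  · obtain ⟨γ, rfl⟩ := Nat.exists_eq_add_of_le h
    have := h2 α γ hα
    push_cast at this ⊢
    rwa [show (α : ℤ) * (x1 + x2) + γ * x2 = α * x1 + (α + γ) * x2 by ring,
      show (α : ℤ) * (y1 + y2) + γ * y2 = α * y1 + (α + γ) * y2 by ring] at this

theorem tree_ok (hK : Cvx K) (hT : TbOK K T) (hS : SgOK K P) (n : ℕ) :
    ∀ (x1 y1 x2 y2 s : ℕ) (k : ℕ → Bool), tree T P n x1 y1 x2 y2 s k = true →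
      Cone K T P x1 y1 x2 y2 ∧ ∃ s, k s = true := by
  induction n with
  | zero => intro _ _ _ _ _ _ h; cases h
  | succ n ih =>
    intro x1 y1 x2 y2 s k h
    have h : step T P (tree T P n) x1 y1 x2 y2 s k = true := h
    unfold step at h
    generalize s.mod P.W = t at h
    rcases t with _ | _ | _ | _ | t
    · obtain ⟨h1, s, h⟩ := ih _ _ _ _ _ _ h
      obtain ⟨h2, h⟩ := ih _ _ _ _ _ _ h
      exact ⟨h1.split h2, h⟩
    · obtain ⟨h1, h⟩ := cFar_ok (T := T) hS h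
      obtain ⟨h2, h⟩ := ray_ok hT hS h
      refine ⟨fun α β hα => ?_, h⟩
      rcases Nat.eq_zero_or_pos β with rfl | hβ
      · intro s t hst
        have : (α : ℤ) = 1 := Int.eq_one_of_mul_eq_one_right (b := x1 * s + y1 * t) (by omega)
          (by rw [← hst]; push_cast; ring)
        have e : α = 1 := by omega
        subst e
        simp only [Nat.cast_one, one_mul, Nat.cast_zero, zero_mul, add_zero] at hst ⊢
        exact h2 s t hst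
      · exact h1 α β hα hβ
    · obtain ⟨h1, h⟩ := cQ_ok (T := T) hS h
      exact ⟨h1, _, h⟩
    · obtain ⟨h1, h⟩ := cHit_ok hK hT h
      exact ⟨fun α β hα _ _ _ _ => Or.inl (h1 α β hα), _, h⟩
    · obtain ⟨h1, h⟩ := cHit_ok hK hT h
      refine ⟨fun α β hα _ _ _ _ => Or.inl ?_, _, h⟩
      have := (h1 α β hα).sm (g := -1) (by norm_num)
      simp only [Pl.neg, U.neg_v, lc, V.sm] at this ⊢
      simpa only [neg_mul, one_mul, mul_neg, neg_add, neg_neg] using this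

theorem Good.neg {x y : ℤ} (h : Good K T P (-x) (-y)) : Good K T P x y := by
  intro s t hst hk
  have := (h (-s) (-t) (by linarith) (by simpa only [bz, neg_mul_neg] using hk)).sm (g := -1)
    (by norm_num)
  simp only [lc, V.sm] at this ⊢
  simpa only [neg_mul, one_mul, mul_neg, neg_add, neg_neg] using this

theorem plane1_ok (hK : Cvx K) (hT : TbOK K T) {s : ℕ} {k : Bool} (h : plane1 T P s k = true) :
    (∀ x y, Good K T P x y) ∧ k = true := by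
  obtain ⟨hS, h⟩ := segs_ok hK hT h
  obtain ⟨h1, s, h⟩ := tree_ok hK hT hS _ _ _ _ _ _ _ h
  obtain ⟨h2, -, h⟩ := tree_ok hK hT (SgOK.rot hS) _ _ _ _ _ _ _ h
  have a1 : ∀ x y : ℤ, 1 ≤ x → 0 ≤ y → Good K T P x y := fun x y hx hy => by
    have := h1 x.toNat y.toNat (by omega)
    simpa [Int.toNat_of_nonneg hy, Int.toNat_of_nonneg (by omega : 0 ≤ x)] using this
  have a2 : ∀ x y : ℤ, x ≤ 0 → 1 ≤ y → Good K T P x y := fun x y hx hy s t hst hk => by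
    have := h2 y.toNat (-x).toNat (by omega)
    simp only [Nat.cast_one, mul_one, Nat.cast_zero, mul_zero, add_zero, zero_add,
      Int.toNat_of_nonneg (by omega : 0 ≤ y), Int.toNat_of_nonneg (by omega : 0 ≤ -x)] at this
    have := this t (-s) (by linarith) (by
      have : bz P.rot y (-x) y (-x) = bz P x y x y := by simp only [bz, Pl.rot]; ring
      rw [this]; exact hk)
    rwa [lc_rot, neg_neg] at this
  refine ⟨fun x y => ?_, h⟩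
  rcases lt_trichotomy y 0 with hy | rfl | hy
  · rcases le_or_gt 0 x with hx | hx
    · exact (a2 _ _ (by omega) (by omega)).neg
    · exact (a1 _ _ (by omega) (by omega)).neg
  · rcases lt_trichotomy x 0 with hx | rfl | hx
    · exact (a1 _ _ (by omega) (by omega)).neg
    · intro s t hst; simp at hst
    · exact a1 _ _ (by omega) le_rfl
  · rcases le_or_gt x 0 with hx | hx
    · exact a2 _ _ hx (by omega)
    · exact a1 _ _ (by omega) (by omega)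

theorem plane_ok (hK : Cvx K) (hT : TbOK K T) {w W E Fp Fn G kp c : ℕ} {a b : U} {k : Bool}
    (h : plane T w W a b E Fp Fn G kp c k = true) :
    (∀ x y s t : ℤ, x * s + y * t = 1 →
      (kp : ℤ) ≤ 4 * (E * (x * x) + ((Fp : ℤ) - Fn) * (x * y + y * x) + G * (y * y)) →
      HX K T.E (lc x y a.v b.v)) ∧ k = true :=
  ⟨fun x y => (plane1_ok hK hT h).1 x y, (plane1_ok hK hT h).2⟩

end Pool.Agent.Lib.B5.CV
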