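import Pool.Agent.Lib.B5.CV3

/-! Checker for `Covers`: lifts, centres and symmetries. -/

set_option autoImplicit false

namespace Pool.Agent.Lib.B5.CV

def p3 {α : Type} (x y z : α) (i : ℕ) : α := if i = 0 then x else if i = 1 then y else z

/-- the projection of the polyhedron number `j` -/
def KK (d M : ℕ) (Ps : List (List (List ℤ × ℤ))) (j : ℕ) (x y z : ℝ) : Prop :=
  j < Ps.length ∧ ∃ Z : ℕ → ℝ, (∀ i, i < d → Z i = p3 x y z i) ∧
    ∀ r ∈ look [] Ps j, dot r.1 Z ≤ (r.2 : ℝ) / M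

theorem dot_lin (a : List ℤ) (s t : ℝ) (u v : ℕ → ℝ) :
    dot a (fun i => s * u i + t * v i) = s * dot a u + t * dot a v := by
  induction a generalizing u v with
  | nil => simp
  | cons x a ih => simp only [dot_cons, ih]; ring

theorem dot_zero (a : List ℤ) : dot a (fun _ => (0 : ℝ)) = 0 := by
  induction a with
  | nil => rfl
  | cons x a ih => simp [ih]

variable {d M : ℕ} {Ps : List (List (List ℤ × ℤ))}

theorem KK_cvx : Cvx (KK d M Ps) := by
  rintro j x y z x' y' z' t t0 t1 ⟨hj, Z, h1, h2⟩ ⟨-, Z', h1', h2'⟩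
  refine ⟨hj, fun i => (1 - t) * Z i + t * Z' i, fun i hi => ?_, fun r hr => ?_⟩
  · simp only [h1 i hi, h1' i hi, p3]; split_ifs <;> ring
  · rw [dot_lin]
    have a := mul_le_mul_of_nonneg_left (h2 r hr) (sub_nonneg.2 t1)
    have b := mul_le_mul_of_nonneg_left (h2' r hr) t0
    linarith

def Row.ev (r : Row) (x y z : ℝ) : ℝ := r.A.x * x + r.A.y * y + r.A.z * z + r.C

def Row.sat (r : Row) (x y z : ℝ) : Prop := r.A.x * x + r.A.y * y + r.A.z * z ≤ r.C

theorem cmb_ev (a : List ℤ) (L : List Row) (x y z : ℝ) :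
    (cmb a L).ev x y z = dot a fun k => (L.getD k ⟨⟨0, 0, 0⟩, 0⟩).ev x y z := by
  induction a generalizing L with
  | nil => simp [cmb, Row.ev]
  | cons c a ih =>
    cases L with
    | nil => simp [cmb, Row.ev, dot_zero]
    | cons r L =>
      have e : cmb (c :: a) (r :: L) = Bool.rec (axpy c r (cmb a L)) (cmb a L) (iz c) := rfl
      have ih := ih L
      simp only [dot_cons, List.getD_cons_zero, List.getD_cons_succ]
      rw [e, ← ih]
      rcases h : iz c with _ | _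
      · simp only [axpy, Row.ev, ad_eq, ml_eq]; push_cast; ring
      · simp [(iz_iff c).1 h]

theorem lift_ok (hd : d ≤ 3) (hM : 1 ≤ M) {f : Lf} (hf : f.ok Ps = true) {x y z : ℝ}
    (h : ∀ r ∈ f.rows d M Ps, r.sat x y z) : KK d M Ps f.j x y z := by
  simp only [Lf.ok, Bool.and_eq_true, Nat.ble_eq, Nat.blt_eq] at hf
  have hh : (0 : ℝ) < f.h := by exact_mod_cast hf.1
  have hM' : (0 : ℝ) < M := by exact_mod_cast hM
  refine ⟨hf.2, fun k => (1 / f.h) * ((base d (Int.ofNat f.h) ++ f.fr).getD k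
    ⟨⟨0, 0, 0⟩, 0⟩).ev x y z + 0 * 0, fun i hi => ?_, fun r hr => ?_⟩
  · interval_cases d <;> interval_cases i <;> simp [base, Row.ev, p3] <;> field_simp
  · rw [dot_lin r.1 _ _ _ fun _ => 0, ← cmb_ev]
    have := h _ (List.mem_map_of_mem hr)
    simp only [Row.sat, rowOf, rowOf1, ad_eq, ml_eq, Int.negSucc_eq, Int.ofNat_eq_natCast] at this
    simp only [Row.ev, Int.ofNat_eq_natCast]
    push_cast at this
    rw [zero_mul, add_zero, le_div_iff₀ hM', one_div, inv_mul_eq_div, div_mul_eq_mul_div,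
      div_le_iff₀ hh]
    linarith

theorem tp_dot (h : Mx) (r v : V) : (h.tp r).dot v = r.dot (h.ap v) := by
  simp only [V.dot_eq, Mx.tp, Mx.ap]; ring

theorem mkTb_ok (hd : d ≤ 3) (hM : 1 ≤ M) {F : List Lf} (hF : lfs d M Ps F = true) (X : Ex)
    (np : ℕ) : TbOK (KK d M Ps) (mkTb d M Ps F X np) := by
  simp only [lfs, List.all_eq_true, Bool.and_eq_true] at hF
  refine ⟨fun l hl xp yp zp xn yn zn q h => ?_, fun i hi v hv => ?_⟩
  · have : (mkTb d M Ps F X np).g l ∈ packs d M Ps F :=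
      look_mem _ _ _ (by simpa [mkTb, packs] using hl)
    obtain ⟨f, hf, e⟩ := List.mem_map.1 this
    rw [← e] at h ⊢
    obtain ⟨hq, h⟩ := pack_ok _ _ (hF f hf).2 _ _ _ _ _ _ _ h
    rw [pack_j]
    refine ⟨hq, lift_ok hd hM (hF f hf).1 fun r hr => ?_⟩
    have hq' : (0 : ℝ) < q := by exact_mod_cast hq
    have : (r.A.x : ℝ) * ((xp : ℝ) - xn) + r.A.y * ((yp : ℝ) - yn) + r.A.z * ((zp : ℝ) - zn) ≤
      r.C * q := by exact_mod_cast h r hr
    unfold Row.sat
    rw [← mul_div_assoc, ← mul_div_assoc, ← mul_div_assoc, ← add_div, ← add_div, div_le_iff₀ hq']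
    exact this
  · have := look_mem ⟨0, 0, 0, 0, 0, 0⟩ (Ex.pl ⟨X.gs, X.es.take np⟩) i hi
    simp only [Ex.pl, List.mem_flatMap] at this
    obtain ⟨h, hh, e, he, hu⟩ := this
    refine ⟨h, hh, e, List.mem_of_mem_take he, fun r hr => ?_⟩
    match e, hu, hr with
    | [r'], hu, hr =>
      simp only [List.mem_singleton] at hu hr
      subst hr
      have hv : (look ⟨0, 0, 0, 0, 0, 0⟩ (Ex.pl ⟨X.gs, X.es.take np⟩) i).v.dot v = 0 := hv
      simp only [Ex.pl] at hv
      rwa [hu, V.u_v, tp_dot] at hv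
    | [], hu, _ => simp at hu
    | _ :: _ :: _, hu, _ => simp at hu

theorem dot_lxp (x : ℤ) (r t : List ℤ) (w : ℕ → ℝ) :
    dot (lxp x r t) w = x * dot r w + dot t w := by
  induction r generalizing t w with
  | nil => simp [lxp]
  | cons y r ih =>
    cases t with
    | nil =>
      have e : lxp x (y :: r) [] = ml x y :: lxp x r [] := rfl
      rw [e]; simp [ih]; ring
    | cons u t =>
      have e : lxp x (y :: r) (u :: t) = ad (ml x y) u :: lxp x r t := rfl
      rw [e]; simp [ih]; ring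

theorem dot_cmL (a : List ℤ) (L : List (List ℤ)) (w : ℕ → ℝ) :
    dot (cmL a L) w = dot a fun k => dot (L.getD k []) w := by
  induction a generalizing L with
  | nil => simp [cmL]
  | cons c a ih =>
    cases L with
    | nil => simp [cmL, dot_zero]
    | cons r L =>
      have e : cmL (c :: a) (r :: L) = Bool.rec (lxp c r (cmL a L)) (cmL a L) (iz c) := rfl
      have ih := ih L
      simp only [dot_cons, List.getD_cons_zero, List.getD_cons_succ]
      rw [e, ← ih]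
      rcases h : iz c with _ | _
      · exact dot_lxp ..
      · simp [(iz_iff c).1 h]

theorem dtL_eq (a t : List ℤ) : ((dtL a t : ℤ) : ℝ) = dot a fun k => ((t.getD k 0 : ℤ) : ℝ) := by
  induction a generalizing t with
  | nil => simp [dtL]
  | cons c a ih =>
    cases t with
    | nil => simp [dtL, dot_zero]
    | cons u t =>
      have e : dtL (c :: a) (u :: t) = ad (ml c u) (dtL a t) := rfl
      rw [e]; simp [ih]

theorem dot_lqz {a : List ℤ} (h : lqz a = true) (w : ℕ → ℝ) : dot a w = 0 := by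
  induction a generalizing w with
  | nil => rfl
  | cons x a ih =>
    have h : an (iz x) (lqz a) = true := h
    simp only [an_iff, iz_iff] at h
    simp [h.1, ih h.2]

theorem dot_lq {a b : List ℤ} (h : lq a b = true) (w : ℕ → ℝ) : dot a w = dot b w := by
  induction a generalizing b w with
  | nil => rw [dot_lqz (a := b) h]; rfl
  | cons x a ih =>
    cases b with
    | nil => rw [dot_lqz (a := x :: a) h]; rfl
    | cons y b =>
      have h : an (ieq x y) (lq a b) = true := h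
      simp only [an_iff, ieq_iff] at h
      simp [h.1, ih h.2]

theorem symP_mem {T : List (List ℤ)} {Q : List (List (List ℤ × ℤ))} {cs : List (ℕ × List ℤ)}
    (h : symP M Ps T Q cs = true) : ∀ P ∈ Q, ∃ c : ℕ × List ℤ, c.1 < Ps.length ∧
      ∀ r ∈ look [] Ps c.1, ∃ p ∈ P, lq p.1 (cmL r.1 T) = true ∧
        p.2 ≤ r.2 + (0 - M) * dtL r.1 c.2 := by
  induction Q generalizing cs with
  | nil => simp
  | cons P Q ih =>
    cases cs with
    | nil => simp [symP] at h
    | cons c cs =>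
      simp only [symP, Bool.and_eq_true, Nat.blt_eq, List.all_eq_true, symR, List.any_eq_true,
        an_iff, ile_iff, ad_eq, ml_eq, sb_eq, Nat.cast_zero] at h
      intro P' hP
      rcases List.mem_cons.1 hP with rfl | hP
      · exact ⟨c, h.1.1, h.1.2⟩
      · exact ih h.2 P' hP

theorem sym_hit (hM : 1 ≤ M) {A : Mx} {Tf : List (List ℤ)} {cs : List (ℕ × List ℤ)}
    (h : symP M Ps ([A.a.l, A.b.l, A.c.l] ++ Tf) Ps cs = true) {v : V} (hv : Hh (KK 3 M Ps) v) :
    Hh (KK 3 M Ps) (A.ap v) := by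
  obtain ⟨β, j, m, hj, Z, h1, h2⟩ := hv
  obtain ⟨c, hc, H⟩ := symP_mem h _ (look_mem [] Ps j hj)
  have hM' : (0 : ℝ) < M := by exact_mod_cast hM
  refine ⟨β, c.1, ⟨(A.ap m).x - c.2.getD 0 0, (A.ap m).y - c.2.getD 1 0,
    (A.ap m).z - c.2.getD 2 0⟩, hc,
    fun k => 1 * dot (([A.a.l, A.b.l, A.c.l] ++ Tf).getD k []) Z + 1 * ((c.2.getD k 0 : ℤ) : ℝ),
    fun i hi => ?_, fun r hr => ?_⟩
  · have e0 := h1 0 (by norm_num)
    have e1 := h1 1 (by norm_num)
    have e2 := h1 2 (by norm_num)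
    simp only [p3] at e0 e1 e2
    interval_cases i <;> simp [V.l, p3, e0, e1, e2, Mx.ap, V.dot_eq] <;> ring
  · obtain ⟨p, hp, e, hle⟩ := H r hr
    rw [dot_lin, ← dot_cmL, ← dtL_eq, ← dot_lq e]
    have a := h2 p hp
    have b : (p.2 : ℝ) ≤ r.2 + (0 - M) * dtL r.1 c.2 := by exact_mod_cast hle
    rw [le_div_iff₀ hM'] at a ⊢
    linarith

/-- the bilinear form of `Q` -/
def bl (Q : Mx) (x y z x' y' z' : ℝ) : ℝ :=
  x * (Q.a.x * x' + Q.a.y * y' + Q.a.z * z') + y * (Q.b.x * x' + Q.b.y * y' + Q.b.z * z') +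
    z * (Q.c.x * x' + Q.c.y * y' + Q.c.z * z')

structure PD (Q : Mx) : Prop where
  s1 : Q.b.x = Q.a.y
  s2 : Q.c.x = Q.a.z
  s3 : Q.c.y = Q.b.z
  p1 : 0 < Q.a.x
  p2 : 0 < Q.co.c.z
  p3 : 0 < Q.det

theorem PD.nonneg {Q : Mx} (h : PD Q) (x y z : ℝ) : 0 ≤ bl Q x y z x y z := by
  obtain ⟨⟨a, b, c⟩, ⟨b', d, e⟩, ⟨c', e', f⟩⟩ := Q
  obtain ⟨s1, s2, s3, p1, p2, p3⟩ := h
  simp only [Mx.co, Mx.det, V.cross, V.dot_eq] at s1 s2 s3 p1 p2 p3
  subst s1 s2 s3
  have q1 : (0 : ℝ) < a := by exact_mod_cast p1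
  have q2 : (0 : ℝ) < a * d - b' * b' := by exact_mod_cast p2
  have q3 : (0 : ℝ) < a * (d * f - e' * e') + b' * (e' * c' - b' * f) + c' * (b' * e' - d * c') := by
    exact_mod_cast p3
  simp only [bl]
  refine nonneg_of_mul_nonneg_right (a := (a : ℝ) * (a * d - b' * b')) ?_ (by positivity)
  have : (a : ℝ) * (a * d - b' * b') * (x * (a * x + b' * y + c' * z) + y * (b' * x + d * y + e' * z)
      + z * (c' * x + e' * y + f * z)) = (a * d - b' * b') * (a * x + b' * y + c' * z) ^ 2 +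
      ((a * d - b' * b') * y + (a * e' - b' * c') * z) ^ 2 + a * (a * (d * f - e' * e') +
        b' * (e' * c' - b' * f) + c' * (b' * e' - d * c')) * z ^ 2 := by ring
  rw [this]; positivity

theorem PD.symm {Q : Mx} (h : PD Q) (x y z x' y' z' : ℝ) :
    bl Q x y z x' y' z' = bl Q x' y' z' x y z := by
  simp only [bl, h.s1, h.s2, h.s3]; ring

theorem PD.cs {Q : Mx} (h : PD Q) (x y z x' y' z' : ℝ) :
    bl Q x y z x' y' z' ^ 2 ≤ bl Q x y z x y z * bl Q x' y' z' x' y' z' := by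
  have := discrim_le_zero (a := bl Q x y z x y z) (b := 2 * bl Q x y z x' y' z')
    (c := bl Q x' y' z' x' y' z') fun t => by
      have := h.nonneg (t * x + x') (t * y + y') (t * z + z')
      simp only [bl, h.s1, h.s2, h.s3] at this ⊢
      linarith
  simp only [discrim] at this
  linarith

theorem bl_cast (Q : Mx) (a b : V) : ((a.dot (Q.ap b) : ℤ) : ℝ) = bl Q a.x a.y a.z b.x b.y b.z := by
  simp only [bl, V.dot_eq, Mx.ap]; push_cast; ring

def CenOK (K : ℕ → ℝ → ℝ → ℝ → Prop) (Q : Mx) (h : ℝ) (c : V × ℕ) : Prop :=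
  ∀ x y z : ℝ, bl Q x y z x y z * h ^ 3 ≤ c.2 → ∃ j, K j (c.1.x / h + bl Q 1 0 0 x y z)
    (c.1.y / h + bl Q 0 1 0 x y z) (c.1.z / h + bl Q 0 0 1 x y z)

theorem cen_ok (hM : 1 ≤ M) {G : Gl} (hQ : PD G.Q) (h2 : 0 < G.h2) {f : Lf} {c : V × ℕ}
    (h : cen M Ps G f c = true) : CenOK (KK 3 M Ps) G.Q (2 * G.h2) c := by
  simp only [cen, Bool.and_eq_true, List.all_eq_true, fv_eq, fi_eq, an_iff, ile_iff] at h
  intro x y z hη
  refine ⟨f.j, lift_ok le_rfl hM h.1 fun r hr => ?_⟩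
  obtain ⟨a, b⟩ := h.2 r hr
  have hh : (0 : ℝ) < 2 * G.h2 := by positivity
  have a' : (0 : ℝ) ≤ r.C * (2 * G.h2) - (r.A.x * c.1.x + r.A.y * c.1.y + r.A.z * c.1.z) := by
    rw [V.dot_eq] at a; exact_mod_cast a
  have b' : (c.2 : ℝ) * bl G.Q r.A.x r.A.y r.A.z r.A.x r.A.y r.A.z ≤ 2 * G.h2 *
      ((r.C * (2 * G.h2) - (r.A.x * c.1.x + r.A.y * c.1.y + r.A.z * c.1.z)) *
        (r.C * (2 * G.h2) - (r.A.x * c.1.x + r.A.y * c.1.y + r.A.z * c.1.z))) := by
    rw [← bl_cast]; rw [V.dot_eq r.A c.1] at b; exact_mod_cast b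
  generalize (2 * G.h2 : ℝ) = h at *
  have cs := hQ.cs r.A.x r.A.y r.A.z x y z
  have n1 := hQ.nonneg r.A.x r.A.y r.A.z
  have e : r.A.x * (c.1.x / h + bl G.Q 1 0 0 x y z) + r.A.y * (c.1.y / h + bl G.Q 0 1 0 x y z) +
      r.A.z * (c.1.z / h + bl G.Q 0 0 1 x y z) = r.C - ((r.C * h - (r.A.x * c.1.x + r.A.y * c.1.y +
        r.A.z * c.1.z)) - bl G.Q r.A.x r.A.y r.A.z x y z * h) / h := by
    simp only [bl]; field_simp; ring
  unfold Row.sat
  rw [e, sub_le_self_iff]
  refine div_nonneg (sub_nonneg.2 ?_) hh.le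
  generalize r.C * h - (r.A.x * c.1.x + r.A.y * c.1.y + r.A.z * c.1.z : ℝ) = u at *
  refine le_trans (le_abs_self _) (abs_le_of_sq_le_sq' ?_ a').2
  rw [sq_abs]
  refine le_of_mul_le_mul_left ?_ hh
  have t1 := mul_le_mul_of_nonneg_left hη n1
  have t2 := mul_le_mul_of_nonneg_right cs (pow_pos hh 3).le
  nlinarith

theorem cens_ok (hM : 1 ≤ M) {G : Gl} (hQ : PD G.Q) (h2 : 0 < G.h2) {F : List Lf}
    {cs : List (V × ℕ)} (h : cens M Ps G F cs = true) :
    ∀ c ∈ cs, CenOK (KK 3 M Ps) G.Q (2 * G.h2) c := by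
  induction cs generalizing F with
  | nil => simp
  | cons c cs ih =>
    cases F with
    | nil => simp [cens] at h
    | cons f F =>
      simp only [cens, Bool.and_eq_true] at h
      intro c' hc
      rcases List.mem_cons.1 hc with rfl | hc
      · exact cen_ok hM hQ h2 h.1
      · exact ih h.2 c' hc

end Pool.Agent.Lib.B5.CV
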