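import Pool.Agent.Lib.B5.CV4

/-! Checker for `Covers`: normal vectors. -/

set_option autoImplicit false

namespace Pool.Agent.Lib.B5.CV

variable {K : ℕ → ℝ → ℝ → ℝ → Prop} {E : Ex} {Q : Mx}

noncomputable def bq (Q : Mx) (a b : V) : ℤ := a.dot (Q.ap b)

def PlaneOK (K : ℕ → ℝ → ℝ → ℝ → Prop) (E : Ex) (Q : Mx) (w : V) : Prop :=
  ∀ u s : V, s.dot (w.cross u) = 1 →
    3 * (bq Q w w * bq Q w w) ≤ 4 * (bq Q w w * bq Q u u - bq Q w u * bq Q w u) →
    HX K E (w.cross u)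

def Step (K : ℕ → ℝ → ℝ → ℝ → Prop) (E : Ex) (Q : Mx) (w : V) : Prop :=
  (∀ w', key w < key w' → PlaneOK K E Q w') → PlaneOK K E Q w

theorem lift3 {j : ℕ} {x y z : ℝ} (h : K j x y z) {w u s : V} {k l : ℤ}
    (h1 : w.x * x + w.y * y + w.z * z = k) (h2 : u.x * x + u.y * y + u.z * z = l)
    (hs : s.dot (w.cross u) = 1) : Hh K (w.cross u) := by
  have hs' : ((s.dot (w.cross u) : ℤ) : ℝ) = 1 := by exact_mod_cast hs
  simp only [V.dot_eq, V.cross] at hs'
  push_cast at hs'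
  refine Hh.of (s.x * x + s.y * y + s.z * z) ⟨-(k * (u.cross s).x + l * (s.cross w).x),
    -(k * (u.cross s).y + l * (s.cross w).y), -(k * (u.cross s).z + l * (s.cross w).z)⟩ h ?_ ?_ ?_
  all_goals simp only [V.cross]; push_cast; rw [← h1, ← h2]
  · linear_combination x * hs'
  · linear_combination y * hs'
  · linear_combination z * hs'

theorem bq_nonneg (hQ : PD Q) (w : V) : 0 ≤ bq Q w w := by
  have := hQ.nonneg w.x w.y w.z
  rw [← bl_cast] at this; exact_mod_cast this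

theorem bab (hQ : PD Q) {h : ℤ} (hh : 0 < h) {c : V × ℕ} (hc : CenOK K Q h c) {w : V} {τ k : ℤ}
    (hk : w.dot c.1 - τ = k * h) (hb : (3 * (τ * τ) + h * h) * h ≤ 3 * c.2 * bq Q w w) :
    PlaneOK K E Q w := by
  intro u s hs hD
  left
  have hN0 := bq_nonneg hQ w
  have hN : 0 < bq Q w w := by
    rcases hN0.lt_or_eq with h | h0
    · exact h
    · rw [← h0] at hb; nlinarith [mul_self_nonneg τ, mul_pos hh hh]
  have hh' : (0 : ℝ) < h := by exact_mod_cast hh
  have hk' : (w.x : ℝ) * c.1.x + w.y * c.1.y + w.z * c.1.z - τ = k * h := by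
    rw [V.dot_eq] at hk; exact_mod_cast hk
  have hN' : (0 : ℝ) < bq Q w w := by exact_mod_cast hN
  have hb' : (3 * ((τ : ℝ) * τ) + h * h) * h ≤ 3 * c.2 * bq Q w w := by exact_mod_cast hb
  have hD' : 3 * ((bq Q w w : ℝ) * bq Q w w) ≤
    4 * (bq Q w w * bq Q u u - bq Q w u * bq Q w u) := by exact_mod_cast hD
  have e1 : bl Q w.x w.y w.z w.x w.y w.z = bq Q w w := (bl_cast ..).symm
  have e2 : bl Q u.x u.y u.z u.x u.y u.z = bq Q u u := (bl_cast ..).symm
  have e3 : bl Q w.x w.y w.z u.x u.y u.z = bq Q w u := (bl_cast ..).symm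
  have e4 : bl Q u.x u.y u.z w.x w.y w.z = bq Q w u := by rw [hQ.symm, e3]
  generalize (bq Q w w : ℝ) = N at *
  generalize (bq Q u u : ℝ) = N2 at *
  generalize (bq Q w u : ℝ) = p at *
  have hD0 : 0 < N * N2 - p * p := by nlinarith
  set f : ℝ := (u.x * c.1.x + u.y * c.1.y + u.z * c.1.z) / h - τ / h * p / N with hf
  have hr := abs_le.1 (abs_sub_round f)
  set t : ℝ := round f - f with ht
  set b : ℝ := t * N / (N * N2 - p * p) with hb
  set a : ℝ := -(τ / h) / N - b * p / N with ha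
  have l : ∀ x y z : ℝ, bl Q x y z (a * w.x + b * u.x) (a * w.y + b * u.y) (a * w.z + b * u.z) =
      a * bl Q x y z w.x w.y w.z + b * bl Q x y z u.x u.y u.z := fun x y z => by
    simp only [bl]; ring
  have l' : ∀ x y z : ℝ, bl Q (a * w.x + b * u.x) (a * w.y + b * u.y) (a * w.z + b * u.z) x y z =
      a * bl Q w.x w.y w.z x y z + b * bl Q u.x u.y u.z x y z := fun x y z => by
    simp only [bl]; ring
  have g1 : a * N + b * p = -(τ / h) := by rw [ha]; field_simp; ring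
  have hbD : b * (N * N2 - p * p) = t * N := by rw [hb, div_mul_cancel₀ _ hD0.ne']
  have g2 : a * p + b * N2 = t - τ / h * p / N := by
    apply mul_right_cancel₀ hN'.ne'
    rw [sub_mul t, div_mul_cancel₀ _ hN'.ne']
    linear_combination p * g1 + hbD
  obtain ⟨j, hj⟩ := hc (a * w.x + b * u.x) (a * w.y + b * u.y) (a * w.z + b * u.z) (by
    rw [l', l, l, e1, e2, e3, e4, g1, g2]
    have : (a * -(τ / h) + b * (t - τ / h * p / N)) * (h : ℝ) ^ 3 =
        τ * τ * h / N + t * t * N / (N * N2 - p * p) * h ^ 3 := by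
      rw [ha, hb]; field_simp; ring
    rw [this]
    have t2 : t * t ≤ 1 / 4 := by nlinarith [hr.1, hr.2]
    have t3 : t * t * N / (N * N2 - p * p) ≤ 1 / (3 * N) := by
      rw [div_le_div_iff₀ hD0 (by positivity)]
      nlinarith [mul_le_mul_of_nonneg_right t2 (mul_pos hN' hN').le]
    have t4 := mul_le_mul_of_nonneg_right t3 (pow_pos hh' 3).le
    have t5 : (τ : ℝ) * τ * h / N + 1 / (3 * N) * h ^ 3 ≤ c.2 := by
      rw [show (τ : ℝ) * τ * h / N + 1 / (3 * N) * h ^ 3 = (3 * (τ * τ) + h * h) * h / (3 * N) by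
        field_simp, div_le_iff₀ (by positivity)]
      linarith
    linarith)
  have m : ∀ (v : V) (x y z : ℝ), v.x * (c.1.x / h + bl Q 1 0 0 x y z) +
      v.y * (c.1.y / h + bl Q 0 1 0 x y z) + v.z * (c.1.z / h + bl Q 0 0 1 x y z) =
      (v.x * c.1.x + v.y * c.1.y + v.z * c.1.z) / h + bl Q v.x v.y v.z x y z := fun v x y z => by
    simp only [bl]; ring
  refine lift3 hj (k := k) (l := round f) ?_ ?_ hs
  · rw [m, l, e1, e3, g1, ← sub_eq_add_neg, ← sub_div, hk']; field_simp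
  · rw [m, l, e4, e2, g2, ht, hf]; ring

theorem gen (hQ : PD Q) {h2 : ℕ} (hh : 0 < h2) {c : V × ℕ} (hc : CenOK K Q (2 * h2) c) {w : V}
    (hb : 56 * ((h2 : ℤ) * h2 * h2) ≤ 12 * c.2 * bq Q w w) : PlaneOK K E Q w := by
  have h0 : (0 : ℤ) < 2 * h2 := by omega
  have r0 := Int.emod_nonneg (w.dot c.1 + h2) h0.ne'
  have r1 := Int.emod_lt_of_pos (w.dot c.1 + h2) h0
  have r2 := Int.emod_add_mul_ediv (w.dot c.1 + h2) (2 * h2)
  refine bab hQ h0 (by exact_mod_cast hc) (τ := (w.dot c.1 + h2) % (2 * h2) - h2)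
    (k := (w.dot c.1 + h2) / (2 * h2)) (by linarith) ?_
  generalize (w.dot c.1 + h2) % (2 * h2) = r at *
  have : (r - h2) * (r - h2) ≤ h2 * h2 := by nlinarith
  nlinarith

theorem coord (hQ : PD Q) (g w : V) : Q.det * (g.dot w * g.dot w) ≤ bq Q.co g g * bq Q w w := by
  have h := hQ.cs (Q.co.ap g).x (Q.co.ap g).y (Q.co.ap g).z w.x w.y w.z
  rw [← bl_cast, ← bl_cast, ← bl_cast] at h
  have e1 : (Q.co.ap g).dot (Q.ap w) = Q.det * g.dot w := by
    simp only [V.dot_eq, Mx.ap, Mx.co, Mx.det, V.cross, hQ.s1, hQ.s2, hQ.s3]; ring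
  have e2 : (Q.co.ap g).dot (Q.ap (Q.co.ap g)) = Q.det * bq Q.co g g := by
    simp only [bq, V.dot_eq, Mx.ap, Mx.co, Mx.det, V.cross, hQ.s1, hQ.s2, hQ.s3]; ring
  rw [e1, e2] at h
  have h' : (Q.det * g.dot w) ^ 2 ≤ Q.det * bq Q.co g g * bq Q w w := by exact_mod_cast h
  exact le_of_mul_le_mul_left (by nlinarith) hQ.p3

theorem long (hQ : PD Q) {h2 : ℕ} (hh : 0 < h2) {c : V × ℕ} (hc : CenOK K Q (2 * h2) c)
    {g w : V} {m : ℤ} (hm : 0 < m) (hw : m ≤ g.dot w)
    (h : bq Q.co g g * (56 * ((h2 : ℤ) * h2 * h2)) ≤ m * m * (12 * c.2 * Q.det)) :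
    PlaneOK K E Q w := by
  refine gen hQ hh hc ?_
  have h1 := coord hQ g w
  have h3 := bq_nonneg hQ w
  have h4 : m * m ≤ g.dot w * g.dot w := by nlinarith
  have h5 := mul_le_mul_of_nonneg_left h4 hQ.p3.le
  have h6 : 0 < bq Q.co g g := by
    by_contra hn
    nlinarith [mul_pos hQ.p3 (mul_pos hm hm), mul_nonneg (neg_nonneg.2 (not_lt.1 hn)) h3]
  refine le_of_mul_le_mul_left ?_ h6
  nlinarith [mul_le_mul_of_nonneg_left (h5.trans h1) (by positivity : (0 : ℤ) ≤ 12 * c.2)]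

theorem bq_pos (hQ : PD Q) {w u : V} (h : w.cross u ≠ ⟨0, 0, 0⟩) : 0 < bq Q w w := by
  rcases (bq_nonneg hQ w).lt_or_eq with h0 | h0
  · exact h0
  · exfalso
    have a : ∀ g : V, g.dot w = 0 := fun g => by
      have := coord hQ g w
      rw [← h0, mul_zero] at this
      exact mul_self_eq_zero.1 (le_antisymm (by nlinarith [hQ.p3]) (mul_self_nonneg _))
    have a1 := a ⟨1, 0, 0⟩
    have a2 := a ⟨0, 1, 0⟩
    have a3 := a ⟨0, 0, 1⟩
    simp only [V.dot_eq] at a1 a2 a3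
    apply h
    simp [V.cross, show w.x = 0 by omega, show w.y = 0 by omega, show w.z = 0 by omega]

theorem reduce (hQ : PD Q) (n : ℕ) : ∀ w u : V, bq Q w w ≤ n → w.cross u ≠ ⟨0, 0, 0⟩ →
    ∃ w' u' : V, w'.cross u' = w.cross u ∧ 3 * (bq Q w' w' * bq Q w' w') ≤
      4 * (bq Q w' w' * bq Q u' u' - bq Q w' u' * bq Q w' u') := by
  induction n with
  | zero => intro w u h1 h2; have := bq_pos hQ h2; omega
  | succ n ih =>
    intro w u h1 h2
    have hN := bq_pos hQ h2
    have h0 : 0 < 2 * bq Q w w := by omega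
    have r0 := Int.emod_nonneg (2 * bq Q w u + bq Q w w) h0.ne'
    have r1 := Int.emod_lt_of_pos (2 * bq Q w u + bq Q w w) h0
    have r2 := Int.emod_add_mul_ediv (2 * bq Q w u + bq Q w w) (2 * bq Q w w)
    generalize (2 * bq Q w u + bq Q w w) / (2 * bq Q w w) = k at r2
    have c1 : w.cross (lc 1 (-k) u w) = w.cross u := by
      simp only [V.cross, lc, V.mk.injEq]; refine ⟨?_, ?_, ?_⟩ <;> ring
    have p1 : bq Q w (lc 1 (-k) u w) = bq Q w u - k * bq Q w w := by
      simp only [bq, V.dot_eq, Mx.ap, lc]; ring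
    generalize lc 1 (-k) u w = u' at c1 p1
    rcases lt_or_ge (bq Q u' u') (bq Q w w) with h | h
    · have c2 : u'.cross (w.sm (-1)) = w.cross u := by
        rw [← c1]; simp only [V.cross, V.sm, V.mk.injEq]; refine ⟨?_, ?_, ?_⟩ <;> ring
      rw [← c2] at h2 ⊢
      exact ih _ _ (by omega) h2
    · refine ⟨w, u', c1, ?_⟩
      have a1 : 2 * bq Q w u' ≤ bq Q w w := by rw [p1]; linarith
      have a2 : -bq Q w w ≤ 2 * bq Q w u' := by rw [p1]; linarith
      nlinarith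

theorem PlaneOK.neg {w : V} (h : PlaneOK K E Q (w.sm (-1))) : PlaneOK K E Q w := by
  intro u s hs hD
  have c : (w.sm (-1)).cross (u.sm (-1)) = w.cross u := by simp [V.cross, V.sm]
  have b : ∀ a b : V, bq Q (a.sm (-1)) (b.sm (-1)) = bq Q a b := fun a b => by
    simp only [bq, V.dot_eq, Mx.ap, V.sm]; ring
  have := h (u.sm (-1)) s
  rw [c, b, b, b] at this
  exact this hs hD

theorem sym_ok {M : ℕ} {Ps : List (List (List ℤ × ℤ))} (hQ : PD Q) (hM : 1 ≤ M) {A : Mx}
    {c : List (List ℤ) × List (ℕ × List ℤ)} (h : sym M Ps E Q A c = true) {w : V}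
    (hw : PlaneOK (KK 3 M Ps) E Q (A.tp w)) : PlaneOK (KK 3 M Ps) E Q w := by
  simp only [sym, Bool.and_eq_true, iz_iff, Mx.eq_iff, List.all_eq_true, fv_eq,
    List.any_eq_true] at h
  obtain ⟨⟨⟨h1, h2⟩, h3⟩, h4⟩ := h
  intro u s hs hD
  have b : ∀ a b : V, bq Q (A.tp a) (A.tp b) = bq Q a b := fun a b => by
    conv_rhs => rw [← h2]
    simp only [bq, V.dot_eq, Mx.ap, Mx.tp, hQ.s1, hQ.s2, hQ.s3]; ring
  have := hw (A.tp u) ((A.tp s).sm A.det) (by
    have : ((A.tp s).sm A.det).dot ((A.tp w).cross (A.tp u)) =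
        A.det * A.det * s.dot (w.cross u) := by
      generalize hd : A.det = d
      have : d * d = d * A.det := by rw [hd]
      rw [this]
      simp only [V.dot_eq, Mx.tp, V.sm, V.cross, Mx.det]; ring
    rw [this, hs]; omega) (by rw [b, b, b]; exact hD)
  rcases this with h | ⟨g, hg, e, he, H⟩
  · left
    have hd : A.det ≠ 0 := by rintro h0; rw [h0] at h1; omega
    have := (sym_hit hM h4 h).sm hd
    have e : (A.ap ((A.tp w).cross (A.tp u))) = (w.cross u).sm A.det := by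
      simp only [V.dot_eq, Mx.tp, V.sm, V.cross, Mx.det, Mx.ap, V.mk.injEq]
      refine ⟨?_, ?_, ?_⟩ <;> ring
    rw [e] at this
    have e' : ((w.cross u).sm A.det).sm A.det = w.cross u := by
      have : A.det * A.det = 1 := by omega
      simp only [V.sm, ← mul_assoc, this, one_mul]
    rwa [e'] at this
  · right
    obtain ⟨g', hg', e'⟩ := h3 g hg
    refine ⟨g', hg', e, he, fun r hr => ?_⟩
    rw [← H r hr, ← e']
    simp only [V.dot_eq, Mx.tp, V.cross, Mx.ap, Mx.ma, Mx.co]; ring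

theorem tree_plane (hQ : PD Q) {w a b : V} (h : a.cross b = w) {E' F G k : ℤ}
    (hE : bq Q.co a a ≤ E') (hF : F = bq Q.co a b) (hG : bq Q.co b b ≤ G)
    (hk : k = 3 * (bq Q w w * bq Q w w))
    (H : ∀ x y s t : ℤ, x * s + y * t = 1 →
      k ≤ 4 * (E' * (x * x) + F * (x * y + y * x) + G * (y * y)) → HX K E (lc x y a b)) :
    PlaneOK K E Q w := by
  intro u s hs hD
  have ht : (u.cross s).dot (a.cross b) = 1 := by
    rw [h, ← hs]; simp only [V.dot_eq, V.cross]; ring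
  have hv : (w.cross u).dot (a.cross b) = 0 := by
    rw [h]; simp only [V.dot_eq, V.cross]; ring
  have hd : bq Q w w * bq Q u u - bq Q w u * bq Q w u = bq Q.co (w.cross u) (w.cross u) := by
    simp only [bq, V.dot_eq, Mx.ap, Mx.co, V.cross, hQ.s1, hQ.s2, hQ.s3]; ring
  rw [hd] at hD
  generalize u.cross s = t at ht
  generalize w.cross u = v at *
  have e : lc (v.dot (b.cross t)) (v.dot (t.cross a)) a b = v := by
    obtain ⟨x, y, z⟩ := v
    simp only [V.dot_eq, V.cross, lc, V.mk.injEq] at ht hv ⊢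
    exact ⟨by linear_combination x * ht - t.x * hv, by linear_combination y * ht - t.y * hv,
      by linear_combination z * ht - t.z * hv⟩
  generalize v.dot (b.cross t) = x at e
  generalize v.dot (t.cross a) = y at e
  subst e
  refine H x y (s.dot a) (s.dot b) ?_ ?_
  · rw [← hs]; simp only [V.dot_eq, lc]; ring
  · have : bq Q.co (lc x y a b) (lc x y a b) =
        bq Q.co a a * (x * x) + bq Q.co a b * (x * y + y * x) + bq Q.co b b * (y * y) := by
      simp only [bq, V.dot_eq, Mx.ap, Mx.co, V.cross, lc, hQ.s1, hQ.s2, hQ.s3]; ring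
    rw [this] at hD
    have a1 := mul_le_mul_of_nonneg_right hE (mul_self_nonneg x)
    have a2 := mul_le_mul_of_nonneg_right hG (mul_self_nonneg y)
    rw [hk, hF]; linarith

end Pool.Agent.Lib.B5.CV
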