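import Pool.Agent.Lib.B5.CV5

/-! Checker for `Covers`: soundness. -/

set_option autoImplicit false

namespace Pool.Agent.Lib.B5.CV

structure Hd (K : ℕ → ℝ → ℝ → ℝ → Prop) (E : Ex) (G : Gl) : Prop where
  pd : PD G.Q
  r : G.R = G.Q.co
  h2 : 0 < G.h2
  c0 : CenOK K G.Q (2 * G.h2) G.c0
  cs : ∀ c ∈ G.cs, CenOK K G.Q (2 * G.h2) c
  sy : ∀ A ∈ G.sy, ∀ w, PlaneOK K E G.Q (A.tp w) → PlaneOK K E G.Q w
  gn : ∀ g ∈ G.gn, ∀ w, g.2 ≤ g.1.dot w → PlaneOK K E G.Q w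
  b0 : ∀ w : V, (G.W0 : ℤ) < |w.x| → PlaneOK K E G.Q w
  b1 : ∀ w : V, (G.W1 : ℤ) < |w.y| → PlaneOK K E G.Q w
  b2 : ∀ w : V, (G.W2 : ℤ) < |w.z| → PlaneOK K E G.Q w
  w0 : G.W0 ≤ 4000
  w1 : G.W1 ≤ 4000
  w2 : G.W2 ≤ 4000

variable {K : ℕ → ℝ → ℝ → ℝ → Prop} {T : Tb} {G : Gl}

theorem np_nm (hQ : PD G.Q) (x y z : ℕ) :
    ((G.tw.np x y z : ℕ) : ℤ) - G.tw.nm x y z = bq G.Q (wv x y z) (wv x y z) := by
  have d := V.u_v ⟨G.Q.a.x, G.Q.b.y, G.Q.c.z⟩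
  have o := V.u_v ⟨2 * G.Q.a.y, 2 * G.Q.a.z, 2 * G.Q.b.z⟩
  have l := V.u_v (G.Q.ap ⟨-8192, -8192, -8192⟩)
  have c := Int.toNat_sub_toNat_neg (V.dot ⟨4096, 4096, 4096⟩ (G.Q.ap ⟨4096, 4096, 4096⟩))
  simp only [Tw.np, Tw.nm, Gl.tw, Nat.add_eq, Nat.mul_eq]
  generalize V.u ⟨G.Q.a.x, G.Q.b.y, G.Q.c.z⟩ = d' at d ⊢
  generalize V.u ⟨2 * G.Q.a.y, 2 * G.Q.a.z, 2 * G.Q.b.z⟩ = o' at o ⊢
  generalize V.u (G.Q.ap ⟨-8192, -8192, -8192⟩) = l' at l ⊢
  generalize (V.dot ⟨4096, 4096, 4096⟩ (G.Q.ap ⟨4096, 4096, 4096⟩)).toNat = cp at c ⊢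
  generalize (-V.dot ⟨4096, 4096, 4096⟩ (G.Q.ap ⟨4096, 4096, 4096⟩)).toNat = cm at c ⊢
  simp only [U.v, Mx.ap, V.dot_eq, V.mk.injEq, hQ.s1, hQ.s2, hQ.s3] at d o l c
  simp only [bq, wv, Mx.ap, V.dot_eq, hQ.s1, hQ.s2, hQ.s3]
  push_cast
  linear_combination (x * x) * d.1 + (y * y) * d.2.1 + (z * z) * d.2.2 + (x * y) * o.1 +
    (x * z) * o.2.1 + (y * z) * o.2.2 + x * l.1 + y * l.2.1 + z * l.2.2 + c

theorem wL_ok {l : V} {m : ℤ} {x0 x1 y0 y1 z0' z1 x y z : ℕ}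
    (h : wL (mkLn l m) x0 x1 y0 y1 z0' z1 = 0) (a0 : x0 ≤ x) (a1 : x ≤ x1) (b0 : y0 ≤ y)
    (b1 : y ≤ y1) (c0 : z0' ≤ z) (c1 : z ≤ z1) : m ≤ l.dot (wv x y z) := by
  have u := V.u_v l
  have c := Int.toNat_sub_toNat_neg (m + 4096 * (l.x + l.y + l.z))
  simp only [wL, mkLn, Nat.add_eq, Nat.mul_eq, Nat.sub_eq, Nat.sub_eq_zero_iff_le] at h
  generalize (m + 4096 * (l.x + l.y + l.z)).toNat = cp at c h
  generalize (-(m + 4096 * (l.x + l.y + l.z))).toNat = cm at c h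
  generalize l.u = u' at u h
  subst u
  have e1 := Nat.mul_le_mul_left u'.p0 a0
  have e2 := Nat.mul_le_mul_left u'.p1 b0
  have e3 := Nat.mul_le_mul_left u'.p2 c0
  have e4 := Nat.mul_le_mul_left u'.n0 a1
  have e5 := Nat.mul_le_mul_left u'.n1 b1
  have e6 := Nat.mul_le_mul_left u'.n2 c1
  zify at h e1 e2 e3 e4 e5 e6
  simp only [U.v, wv, V.dot_eq] at c ⊢
  linarith

def BoxOK (K : ℕ → ℝ → ℝ → ℝ → Prop) (E : Ex) (Q : Mx) (x0 x1 y0 y1 z0' z1 : ℕ) : Prop :=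
  ∀ x y z : ℕ, x0 ≤ x → x ≤ x1 → y0 ≤ y → y ≤ y1 → z0' ≤ z → z ≤ z1 → Step K E Q (wv x y z)

theorem wLin_ok (H : Hd K T.E G) {i x0 x1 y0 y1 z0' z1 : ℕ} {k : Bool}
    (h : wLin G.tw i x0 x1 y0 y1 z0' z1 k = true) :
    BoxOK K T.E G.Q x0 x1 y0 y1 z0' z1 ∧ k = true := by
  simp only [wLin, z0_iff, Nat.add_eq, Nat.sub_eq, Nat.add_eq_zero_iff] at h
  refine ⟨fun x y z a0 a1 b0 b1 c0 c1 ih => ?_, h.2⟩
  have hm : look ⟨⟨0, 0, 0, 0, 0, 0⟩, 0, 0⟩ G.tw.ln i ∈ G.lns :=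
    look_mem _ _ _ (Nat.sub_eq_zero_iff_le.1 h.1.1)
  have h := h.1.2
  simp only [Gl.lns, List.mem_cons, List.mem_append, List.mem_map] at hm
  rcases hm with e | ⟨A, hA, e⟩ | ⟨g, hg, e⟩
  · rw [e] at h
    have := wL_ok h a0 a1 b0 b1 c0 c1
    refine (ih _ ?_).neg
    simp only [V.dot_eq, kv, key, V.sm] at this ⊢
    linarith
  · rw [← e] at h
    have := wL_ok h a0 a1 b0 b1 c0 c1
    refine H.sy A hA _ (ih _ ?_)
    simp only [V.dot_eq, kv, key, Mx.tp, Mx.ap] at this ⊢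
    linarith
  · rw [← e] at h
    exact H.gn g hg _ (wL_ok h a0 a1 b0 b1 c0 c1)

theorem wBab_ok (H : Hd K T.E G) {i x y z : ℕ} {k : Bool} (h : wBab G.tw i x y z k = true) :
    PlaneOK K T.E G.Q (wv x y z) ∧ k = true := by
  simp only [wBab, z0_iff, Nat.add_eq, Nat.sub_eq, Nat.add_eq_zero_iff] at h
  refine ⟨?_, h.2⟩
  have hm : look ⟨0, 0, 0, 0, 0⟩ G.tw.cn i ∈ G.cs.map (mkCn (2 * G.h2)) :=
    look_mem _ _ _ (by rw [List.length_map]; exact Nat.sub_eq_zero_iff_le.1 h.1.1)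
  obtain ⟨c, hc, e⟩ := List.mem_map.1 hm
  have h := h.1.2
  rw [← e] at h
  have h2 := H.h2
  have h0 : (0 : ℤ) < 2 * G.h2 := by omega
  have n := np_nm H.pd x y z
  have eh : G.tw.h = 2 * G.h2 := rfl
  have eh2 : G.tw.h2 = G.h2 := rfl
  have em : ∀ a b : ℕ, a.mod b = a % b := fun _ _ => rfl
  simp only [wB1, wB2, mkCn, Nat.add_eq, Nat.mul_eq, Nat.sub_eq, em, eh, eh2,
    Nat.sub_eq_zero_iff_le] at h
  have t0 := Int.toNat_of_nonneg (Int.emod_nonneg c.1.x h0.ne')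
  have t1 := Int.toNat_of_nonneg (Int.emod_nonneg c.1.y h0.ne')
  have t2 := Int.toNat_of_nonneg (Int.emod_nonneg c.1.z h0.ne')
  have t3 := Int.toNat_of_nonneg (Int.emod_nonneg (-4096 * (c.1.x + c.1.y + c.1.z)) h0.ne')
  have s0 := Int.emod_add_mul_ediv c.1.x (2 * G.h2)
  have s1 := Int.emod_add_mul_ediv c.1.y (2 * G.h2)
  have s2 := Int.emod_add_mul_ediv c.1.z (2 * G.h2)
  have s3 := Int.emod_add_mul_ediv (-4096 * (c.1.x + c.1.y + c.1.z)) (2 * G.h2)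
  rw [← t0] at s0
  rw [← t1] at s1
  rw [← t2] at s2
  rw [← t3] at s3
  generalize (c.1.x % (2 * G.h2)).toNat = c0 at *
  generalize (c.1.y % (2 * G.h2)).toNat = c1 at *
  generalize (c.1.z % (2 * G.h2)).toNat = c2 at *
  generalize ((-4096 * (c.1.x + c.1.y + c.1.z)) % (2 * G.h2)).toNat = c3 at *
  have r1 := Nat.mod_lt (c0 * x + c1 * y + c2 * z + c3) (by omega : 0 < 2 * G.h2)
  have r2 := Nat.mod_add_div (c0 * x + c1 * y + c2 * z + c3) (2 * G.h2)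
  generalize (c0 * x + c1 * y + c2 * z + c3) % (2 * G.h2) = r at *
  generalize (c0 * x + c1 * y + c2 * z + c3) / (2 * G.h2) = q at *
  zify at r2
  have key : ∀ (τ k : ℤ), (r : ℤ) - τ = k * (2 * G.h2) →
      τ * τ = ((G.h2 - df r G.h2 : ℕ) : ℤ) * ((G.h2 - df r G.h2 : ℕ) : ℤ) →
      PlaneOK K T.E G.Q (wv x y z) := fun τ k hk hτ => by
    refine bab H.pd h0 (by exact_mod_cast H.cs c hc) (τ := τ)
      (k := k + q + x * (c.1.x / (2 * G.h2)) + y * (c.1.y / (2 * G.h2)) + z * (c.1.z / (2 * G.h2)) +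
        (-4096 * (c.1.x + c.1.y + c.1.z)) / (2 * G.h2)) ?_ ?_
    · simp only [V.dot_eq, wv]
      linear_combination hk - r2 - x * s0 - y * s1 - z * s2 - s3
    · rw [hτ, ← n]
      generalize G.h2 - df r G.h2 = u at h
      zify at h
      linarith
  have d := df_cast r G.h2
  rcases le_total r G.h2 with hr | hr
  · rw [abs_of_nonpos (by omega)] at d
    exact key r 0 (by simp) (by rw [show ((G.h2 - df r G.h2 : ℕ) : ℤ) = r by omega])
  · rw [abs_of_nonneg (by omega)] at d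
    exact key (r - 2 * G.h2) 1 (by ring)
      (by rw [show ((G.h2 - df r G.h2 : ℕ) : ℤ) = -(r - 2 * G.h2) by omega]; ring)

theorem cr_ok {p1 n1 q2 m2 p2 n2 q1 m1 x : ℕ} (h : cr p1 n1 q2 m2 p2 n2 q1 m1 x = 0) :
    ((p1 : ℤ) - n1) * (q2 - m2) - ((p2 : ℤ) - n2) * (q1 - m1) = x - 4096 := by
  simp only [cr, df_zero, Nat.add_eq, Nat.mul_eq] at h
  zify at h
  linarith

theorem wTree_ok (hK : Cvx K) (hT : TbOK K T) (H : Hd K T.E G) {x y z c : ℕ} {k : Bool}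
    (h : wTree T G.tw x y z c k = true) : PlaneOK K T.E G.Q (wv x y z) ∧ k = true := by
  simp only [wTree, fz_eq, wT1] at h
  generalize bu _ _ _ _ = a at h
  generalize bu _ _ _ _ = b at h
  simp only [wT2, wT3, z0_iff, Nat.add_eq, Nat.add_eq_zero_iff] at h
  obtain ⟨⟨⟨h1, h2⟩, h3⟩, h⟩ := h
  obtain ⟨h, hk⟩ := plane_ok hK hT h
  refine ⟨?_, hk⟩
  have e : ∀ u v : U, ((dp u (ap6 G.tw.r0 G.tw.r1 G.tw.r2 v) : ℕ) : ℤ) -
      dn u (ap6 G.tw.r0 G.tw.r1 G.tw.r2 v) = bq G.Q.co u.v v.v := fun u v => by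
    rw [dp_dn, ap6_v, ← H.r]; simp only [Gl.tw, V.u_v]; rfl
  have n := np_nm H.pd x y z
  have n0 := bq_nonneg H.pd (wv x y z)
  have e1 := e a a
  have e2 := e a b
  have e3 := e b b
  refine tree_plane H.pd (a := a.v) (b := b.v) ?_ ?_ ?_ ?_ ?_ h
  · simp only [V.cross, U.v, wv, V.mk.injEq]
    exact ⟨cr_ok h1, cr_ok h2, cr_ok h3⟩
  · simp only [Nat.sub_eq]; omega
  · simp only [Nat.sub_eq]; omega
  · simp only [Nat.sub_eq]; omega
  · simp only [Nat.sub_eq, Nat.mul_eq]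
    rw [← show ((G.tw.np x y z - G.tw.nm x y z : ℕ) : ℤ) = bq G.Q (wv x y z) (wv x y z) by omega]
    push_cast; ring

theorem wEx_ok (hT : TbOK K T) {x y z i : ℕ} {k : Bool} (h : wEx T x y z i k = true) :
    PlaneOK K T.E G.Q (wv x y z) ∧ k = true := by
  simp only [wEx, z0_iff, an_iff, V.eq_iff, Nat.add_eq, Nat.sub_eq] at h
  refine ⟨fun u s hs _ => Or.inr (hT.2 i (Nat.sub_eq_zero_iff_le.1 h.1) _ ?_), h.2.2⟩
  have h := h.2.1
  generalize (look ⟨0, 0, 0, 0, 0, 0⟩ T.X i).v = r at *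
  generalize wv x y z = w at *
  simp only [V.dot_eq, V.cross, V.mk.injEq] at h hs ⊢
  linear_combination (-(r.x * (w.y * u.z - w.z * u.y) + r.y * (w.z * u.x - w.x * u.z) +
      r.z * (w.x * u.y - w.y * u.x))) * hs -
    ((w.z * u.x - w.x * u.z) * (u.x * s.y - u.y * s.x) -
      (w.x * u.y - w.y * u.x) * (u.z * s.x - u.x * s.z)) * h.1 -
    ((w.x * u.y - w.y * u.x) * (u.y * s.z - u.z * s.y) -
      (w.y * u.z - w.z * u.y) * (u.x * s.y - u.y * s.x)) * h.2.1 -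
    ((w.y * u.z - w.z * u.y) * (u.z * s.x - u.x * s.z) -
      (w.z * u.x - w.x * u.z) * (u.y * s.z - u.z * s.y)) * h.2.2

theorem np_ok {x y z : ℕ} (h : ((df x 4096).gcd (df y 4096)).gcd (df z 4096) ≠ 1) :
    PlaneOK K T.E G.Q (wv x y z) := by
  intro u s hs _
  exfalso
  apply h
  have a : ∀ {g x : ℕ}, g ∣ df x 4096 → (g : ℤ) ∣ (x : ℤ) - 4096 := fun {g x} h => by
    have := Int.natCast_dvd_natCast.2 h
    rw [df_cast, dvd_abs] at this
    exact this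
  have a1 := a ((Nat.gcd_dvd_left _ (df z 4096)).trans (Nat.gcd_dvd_left (df x 4096) (df y 4096)))
  have a2 := a ((Nat.gcd_dvd_left _ (df z 4096)).trans (Nat.gcd_dvd_right (df x 4096) (df y 4096)))
  have a3 := a (Nat.gcd_dvd_right ((df x 4096).gcd (df y 4096)) (df z 4096))
  have := dvd_add (dvd_add (a1.mul_right (u.cross s).x) (a2.mul_right (u.cross s).y))
    (a3.mul_right (u.cross s).z)
  rw [show ((x : ℤ) - 4096) * (u.cross s).x + (y - 4096) * (u.cross s).y +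
      (z - 4096) * (u.cross s).z = 1 by
    rw [← hs]; simp only [V.dot_eq, V.cross, wv]; ring] at this
  exact Nat.dvd_one.1 (Int.natCast_dvd_natCast.1 this)

theorem one_ok (hK : Cvx K) (hT : TbOK K T) (H : Hd K T.E G) {t x y z s : ℕ} {ts : List ℕ}
    {k : ℕ → List ℕ → Bool} (h : one T G.tw t x y z s ts k = true) :
    PlaneOK K T.E G.Q (wv x y z) ∧ ∃ s ts, k s ts = true := by
  unfold one at h
  rcases t with _ | _ | _ | t
  · rcases e : Nat.beq (((df x 4096).gcd (df y 4096)).gcd (df z 4096)) 1 with _ | _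
    · rw [e] at h
      exact ⟨np_ok (Nat.ne_of_beq_eq_false e), _, _, h⟩
    · rw [e] at h; cases h
  · cases ts with
    | nil => cases h
    | cons c ts => exact ⟨(wTree_ok hK hT H h).1, _, _, (wTree_ok hK hT H h).2⟩
  · exact ⟨(wEx_ok hT h).1, _, _, (wEx_ok (G := G) hT h).2⟩
  · exact ⟨(wBab_ok H h).1, _, _, (wBab_ok H h).2⟩

theorem kd_ok (hK : Cvx K) (hT : TbOK K T) (H : Hd K T.E G) (n : ℕ) :
    ∀ (x0 x1 y0 y1 z0' z1 s : ℕ) (ts : List ℕ) (k : ℕ → List ℕ → Bool),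
      kd T G.tw n x0 x1 y0 y1 z0' z1 s ts k = true →
      BoxOK K T.E G.Q x0 x1 y0 y1 z0' z1 ∧ ∃ s ts, k s ts = true := by
  induction n with
  | zero => intro _ _ _ _ _ _ _ _ _ h; cases h
  | succ n ih =>
    intro x0 x1 y0 y1 z0' z1 s ts k h
    have h : kstep T G.tw (kd T G.tw n) x0 x1 y0 y1 z0' z1 s ts k = true := h
    unfold kstep at h
    generalize s.mod 256 = t at h
    generalize Nat.ble t 103 = b at h
    cases b with
    | false =>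
      simp only [z0_iff, Nat.add_eq, Nat.sub_eq, Nat.add_eq_zero_iff] at h
      obtain ⟨h1, h⟩ := one_ok hK hT H h.2 |>.imp_left fun p => (⟨p, h.1⟩ : _ ∧ _)
      refine ⟨fun x y z a0 a1 b0 b1 c0 c1 _ => ?_, h⟩
      rw [show x = x0 by omega, show y = y0 by omega, show z = z0' by omega]
      exact h1.1
    | true =>
      rcases t with _ | _ | _ | _ | t
      · simp only [Nat.rec_zero, fz_eq, Nat.add_eq] at h
        obtain ⟨h1, s, ts, h⟩ := ih _ _ _ _ _ _ _ _ _ h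
        obtain ⟨h2, h⟩ := ih _ _ _ _ _ _ _ _ _ h
        refine ⟨fun x y z a0 a1 => ?_, h⟩
        rcases le_or_gt x ((x0 + x1).div 2) with a | a
        · exact h1 x y z a0 a
        · exact h2 x y z a a1
      · have h : fz _ _ = true := h
        simp only [fz_eq, Nat.add_eq] at h
        obtain ⟨h1, s, ts, h⟩ := ih _ _ _ _ _ _ _ _ _ h
        obtain ⟨h2, h⟩ := ih _ _ _ _ _ _ _ _ _ h
        refine ⟨fun x y z a0 a1 b0 b1 => ?_, h⟩
        rcases le_or_gt y ((y0 + y1).div 2) with a | a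
        · exact h1 x y z a0 a1 b0 a
        · exact h2 x y z a0 a1 a b1
      · have h : fz _ _ = true := h
        simp only [fz_eq, Nat.add_eq] at h
        obtain ⟨h1, s, ts, h⟩ := ih _ _ _ _ _ _ _ _ _ h
        obtain ⟨h2, h⟩ := ih _ _ _ _ _ _ _ _ _ h
        refine ⟨fun x y z a0 a1 b0 b1 c0 c1 => ?_, h⟩
        rcases le_or_gt z ((z0' + z1).div 2) with a | a
        · exact h1 x y z a0 a1 b0 b1 c0 a
        · exact h2 x y z a0 a1 b0 b1 a c1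
      · cases ts with
        | nil => cases h
        | cons c ts => exact ih _ _ _ _ _ _ _ _ _ h
      · exact ⟨(wLin_ok H h).1, _, _, (wLin_ok H h).2⟩

variable {M : ℕ} {Ps : List (List (List ℤ × ℤ))} {X : Ex} {F Fc : List Lf}
  {Sc : List (List (List ℤ) × List (ℕ × List ℤ))}

theorem syms_ok {Q : Mx} (hQ : PD Q) (hM : 1 ≤ M) {As : List Mx} (h : syms M Ps X Q As Sc = true) :
    ∀ A ∈ As, ∀ w, PlaneOK (KK 3 M Ps) X Q (A.tp w) → PlaneOK (KK 3 M Ps) X Q w := by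
  induction As generalizing Sc with
  | nil => simp
  | cons A As ih =>
    cases Sc with
    | nil => simp [syms] at h
    | cons c cs =>
      simp only [syms, Bool.and_eq_true] at h
      intro A' hA w
      rcases List.mem_cons.1 hA with rfl | hA
      · exact sym_ok hQ hM h.1
      · exact ih h.2 A' hA w

theorem head_ok (h : head3 M Ps X G F Fc Sc = true) : 1 ≤ M ∧ 1 ≤ X.gs.length ∧
    excOK 3 X.es = true ∧ lfs 3 M Ps F = true ∧ Hd (KK 3 M Ps) X G := by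
  simp only [head3, Bool.and_eq_true, Nat.ble_eq] at h
  obtain ⟨⟨⟨⟨⟨⟨hM, h1⟩, h2⟩, hb⟩, h3⟩, h4⟩, h5⟩ := h
  simp only [box, fi_eq, Bool.and_eq_true, ilt_iff, ile_iff, iz_iff, Mx.eq_iff, Nat.ble_eq,
    List.all_eq_true, an_iff] at hb
  obtain ⟨⟨⟨⟨⟨⟨⟨⟨⟨⟨⟨⟨⟨⟨⟨⟨⟨a1, -⟩, a3⟩, a4⟩, a5⟩, a6⟩, a7⟩, -⟩, -⟩, a8⟩, a9⟩, b0⟩, b1⟩, b2⟩, w0⟩,
    w1⟩, w2⟩, g⟩ := hb
  have hQ : PD G.Q := ⟨by omega, by omega, by omega, a7, a3 ▸ a8, a9⟩
  have hh : 0 < G.h2 := by omega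
  have c := cens_ok hM hQ hh h4
  have c0 := c _ List.mem_cons_self
  rw [← a3] at b0 b1 b2 g
  refine ⟨hM, h1, h2, h3, hQ, a3.symm, hh, c0, fun c' hc => c c' (List.mem_cons_of_mem _ hc),
    syms_ok hQ hM h5, fun g' hg w hw => long hQ hh c0 (g g' hg).1 hw (g g' hg).2,
    fun w hw => ?_, fun w hw => ?_, fun w hw => ?_, w0, w1, w2⟩
  · rcases lt_abs.1 hw with hw | hw
    · exact long hQ hh c0 (g := ⟨1, 0, 0⟩) (m := G.W0 + 1) (by omega)
        (by simp only [V.dot_eq]; omega) (by simpa [bq, V.dot_eq, Mx.ap] using b0)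
    · exact long hQ hh c0 (g := ⟨-1, 0, 0⟩) (m := G.W0 + 1) (by omega)
        (by simp only [V.dot_eq]; omega) (by simpa [bq, V.dot_eq, Mx.ap] using b0)
  · rcases lt_abs.1 hw with hw | hw
    · exact long hQ hh c0 (g := ⟨0, 1, 0⟩) (m := G.W1 + 1) (by omega)
        (by simp only [V.dot_eq]; omega) (by simpa [bq, V.dot_eq, Mx.ap] using b1)
    · exact long hQ hh c0 (g := ⟨0, -1, 0⟩) (m := G.W1 + 1) (by omega)
        (by simp only [V.dot_eq]; omega) (by simpa [bq, V.dot_eq, Mx.ap] using b1)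
  · rcases lt_abs.1 hw with hw | hw
    · exact long hQ hh c0 (g := ⟨0, 0, 1⟩) (m := G.W2 + 1) (by omega)
        (by simp only [V.dot_eq]; omega) (by simpa [bq, V.dot_eq, Mx.ap] using b2)
    · exact long hQ hh c0 (g := ⟨0, 0, -1⟩) (m := G.W2 + 1) (by omega)
        (by simp only [V.dot_eq]; omega) (by simpa [bq, V.dot_eq, Mx.ap] using b2)

/-- the slabs below `n` are done -/
def Sl (M : ℕ) (Ps : List (List (List ℤ × ℤ))) (X : Ex) (G : Gl) (n : ℕ) : Prop :=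
  ∀ x y z : ℕ, 4096 - G.W0 ≤ x → x < n → 4096 - G.W1 ≤ y → y ≤ 4096 + G.W1 → 4096 - G.W2 ≤ z →
    z ≤ 4096 + G.W2 → Step (KK 3 M Ps) X G.Q (wv x y z)

theorem Sl.zero (_ : head3 M Ps X G F Fc Sc = true) : Sl M Ps X G (4096 - G.W0) :=
  fun x _ _ h1 h2 => absurd h2 (by omega)

theorem Sl.add (hd : head3 M Ps X G F Fc Sc = true) {n np x0 x1 : ℕ} {ts : List ℕ}
    (h : Sl M Ps X G n) (hb : body3 M Ps X G F np x0 x1 ts = true) (hn : x0 ≤ n) :
    Sl M Ps X G (x1 + 1) := by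
  obtain ⟨hM, -, -, hF, H⟩ := head_ok hd
  have := (kd_ok (T := mkTb 3 M Ps F X np) KK_cvx (mkTb_ok le_rfl hM hF X np) H _ _ _ _ _ _ _ _ _ _
    hb).1
  intro x y z a0 a1 b0 b1 c0 c1
  rcases lt_or_ge x n with a | a
  · exact h x y z a0 a b0 b1 c0 c1
  · exact this x y z (by omega) (by omega) b0 b1 c0 c1

theorem all_planes (H : Hd (KK 3 M Ps) X G) {n : ℕ} (h : Sl M Ps X G n) (hn : 4096 + G.W0 < n)
    (w : V) : PlaneOK (KK 3 M Ps) X G.Q w := by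
  have w0 := H.w0
  have w1 := H.w1
  have w2 := H.w2
  have : ∀ m : ℕ, ∀ w : V, 10000000000000000 - key w ≤ m → PlaneOK (KK 3 M Ps) X G.Q w := by
    intro m
    induction m using Nat.strong_induction_on with
    | _ m ih =>
      intro w hw
      rcases lt_or_ge (G.W0 : ℤ) |w.x| with a | a
      · exact H.b0 w a
      rcases lt_or_ge (G.W1 : ℤ) |w.y| with b | b
      · exact H.b1 w b
      rcases lt_or_ge (G.W2 : ℤ) |w.z| with c | c
      · exact H.b2 w c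
      rw [abs_le] at a b c
      have e : wv (w.x + 4096).toNat (w.y + 4096).toNat (w.z + 4096).toNat = w := by
        cases w; simp only [wv, V.mk.injEq] at *; omega
      have := h (w.x + 4096).toNat (w.y + 4096).toNat (w.z + 4096).toNat (by omega) (by omega)
        (by omega) (by omega) (by omega) (by omega)
      rw [e] at this
      have k : key w < 10000000000000000 := by simp only [key]; omega
      exact this fun w' hw' => ih (m - 1) (by omega) w' (by omega)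
  exact this (10000000000000000 - key w).toNat w (by omega)

theorem exists_cross (v : V) : ∃ w u : V, w.cross u = v := by
  obtain ⟨a, b, c⟩ := v
  rcases Nat.eq_zero_or_pos (Int.gcd a b) with h | h
  · obtain ⟨rfl, rfl⟩ := Int.gcd_eq_zero_iff.1 h
    exact ⟨⟨1, 0, 0⟩, ⟨0, c, 0⟩, by simp [V.cross]⟩
  · obtain ⟨g, a', b', -, hg, rfl, rfl⟩ := Int.exists_gcd_one' h
    have := Int.gcd_eq_gcd_ab a' b'
    rw [hg] at this
    refine ⟨⟨b', -a', 0⟩, ⟨c * a'.gcdA b', c * a'.gcdB b', -g⟩, ?_⟩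
    simp only [V.cross, V.mk.injEq]
    push_cast at this
    exact ⟨by ring, by ring, by linear_combination (-c) * this⟩

theorem exists_prim (v : V) (h : v ≠ ⟨0, 0, 0⟩) :
    ∃ (g : ℤ) (u s : V), g ≠ 0 ∧ u.sm g = v ∧ s.dot u = 1 := by
  obtain ⟨a, b, c⟩ := v
  have h0 : ((Int.gcd (Int.gcd a b) c : ℕ) : ℤ) ≠ 0 := by
    intro h0
    have := Int.gcd_eq_zero_iff.1 (by exact_mod_cast h0 : Int.gcd (Int.gcd a b) c = 0)
    have h1 := Int.gcd_eq_zero_iff.1 (by exact_mod_cast this.1 : Int.gcd a b = 0)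
    exact h (by rw [h1.1, h1.2, this.2])
  have e1 := Int.gcd_eq_gcd_ab a b
  have e2 := Int.gcd_eq_gcd_ab (Int.gcd a b) c
  obtain ⟨a', ha⟩ := (Int.gcd_dvd_left (Int.gcd a b) c).trans (Int.gcd_dvd_left a b)
  obtain ⟨b', hb⟩ := (Int.gcd_dvd_left (Int.gcd a b) c).trans (Int.gcd_dvd_right a b)
  obtain ⟨c', hc⟩ := Int.gcd_dvd_right (Int.gcd a b) c
  generalize ((Int.gcd (Int.gcd a b) c : ℕ) : ℤ) = g at *
  generalize Int.gcdA (Int.gcd a b) c = p at *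
  generalize Int.gcdB (Int.gcd a b) c = q at *
  generalize Int.gcdA a b = r at *
  generalize Int.gcdB a b = t at *
  refine ⟨g, ⟨a', b', c'⟩, ⟨r * p, t * p, q⟩, h0, by simp only [V.sm, ← ha, ← hb, ← hc], ?_⟩
  apply mul_left_cancel₀ h0
  simp only [V.dot_eq]
  linear_combination -e2 - p * e1 - r * p * ha - t * p * hb - q * hc

theorem Xx_zero (h1 : 1 ≤ X.gs.length) (h2 : 1 ≤ X.es.length) : Xx X ⟨0, 0, 0⟩ :=
  ⟨_, look_mem idM _ 0 h1, _, look_mem [] _ 0 h2, fun r _ => by simp [V.dot_eq, Mx.ap]⟩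

theorem hit_of {d : ℕ} {v : ℕ → ℤ} {u : V} (e : ∀ i, i < d → v i = p3 u.x u.y u.z i)
    (h : Hh (KK d M Ps) u) : Hit d M Ps v := by
  obtain ⟨β, j, m, hj, Z, h1, h2⟩ := h
  refine ⟨β, Z, fun i hi => ⟨p3 m.x m.y m.z i, ?_⟩, _, look_mem [] _ _ hj, h2⟩
  rw [h1 i hi, e i hi]
  simp only [p3]; split_ifs <;> ring

theorem covers3 (hd : head3 M Ps X G F Fc Sc = true) {n : ℕ} (h : Sl M Ps X G n)
    (hn : 4096 + G.W0 < n) : Covers 3 M Ps X.all := by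
  obtain ⟨-, h1, h2, -, H⟩ := head_ok hd
  simp only [excOK, Bool.and_eq_true, Nat.ble_eq] at h2
  intro v
  have : HX (KK 3 M Ps) X ⟨v 0, v 1, v 2⟩ := by
    by_cases h0 : (⟨v 0, v 1, v 2⟩ : V) = ⟨0, 0, 0⟩
    · rw [h0]; exact Or.inr (Xx_zero h1 h2.1)
    · obtain ⟨g, u, s, hg, e, hs⟩ := exists_prim _ h0
      obtain ⟨w, t, rfl⟩ := exists_cross u
      obtain ⟨w', t', e', hD⟩ := reduce H.pd (bq G.Q w w).toNat w t (by omega)
        (by intro h; rw [h] at hs; simp [V.dot_eq] at hs)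
      rw [← e, ← e']
      exact (all_planes H h hn w' t' s (e' ▸ hs) hD).sm hg
  refine this.imp (hit_of fun i hi => by interval_cases i <;> rfl) ?_
  rintro ⟨g, hg, e, he, H⟩
  refine ⟨_, List.mem_flatMap.2 ⟨g, hg, List.mem_map_of_mem he⟩, fun r hr => ?_⟩
  obtain ⟨r, hr', rfl⟩ := List.mem_map.1 hr
  have := H r hr'
  rw [← tp_dot, V.dot_eq] at this
  simp only [V.l, dot_cons, dot_nil, Int.cast_id]
  linear_combination this

theorem dot_lv {r : List ℤ} (h : r.length ≤ 2) (v : ℕ → ℤ) :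
    dot r v = (lv r).dot (idM.ap ⟨v 0, v 1, 0⟩) := by
  match r, h with
  | [], _ => simp [lv, V.dot_eq]
  | [a], _ => simp [lv, V.dot_eq, idM, Mx.ap]
  | [a, b], _ => simp [lv, V.dot_eq, idM, Mx.ap]

theorem covers2 {E : List (List (List ℤ))} {w c : ℕ} (h : chk2 M Ps E F w c = true) :
    Covers 2 M Ps E := by
  simp only [chk2, excOK, Bool.and_eq_true, Nat.ble_eq, List.all_eq_true] at h
  obtain ⟨⟨⟨hM, h1, h2⟩, hF⟩, h⟩ := h
  have H := (plane_ok KK_cvx (mkTb_ok (by norm_num) hM hF ⟨[idM], E⟩ 0) h).1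
  intro v
  have : HX (KK 2 M Ps) ⟨[idM], E⟩ ⟨v 0, v 1, 0⟩ := by
    rcases Nat.eq_zero_or_pos (Int.gcd (v 0) (v 1)) with h0 | h0
    · obtain ⟨a, b⟩ := Int.gcd_eq_zero_iff.1 h0
      rw [a, b]; exact Or.inr (Xx_zero le_rfl h1)
    · obtain ⟨g, a, b, hg, hab, e1, e2⟩ := Int.exists_gcd_one' h0
      have e := Int.gcd_eq_gcd_ab a b
      rw [hab] at e
      have := (H a b _ _ (by exact_mod_cast e.symm) (by simp)).sm (g := g) (by omega)
      rw [e1, e2]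
      simpa [lc, V.sm, U.v, mul_comm, mkTb] using this
  refine this.imp (hit_of fun i hi => by interval_cases i <;> rfl) ?_
  rintro ⟨g, hg, e, he, H⟩
  rw [List.mem_singleton.1 hg] at H
  exact ⟨e, he, fun r hr => by rw [dot_lv (h2 e he r hr), H r hr]⟩

end Pool.Agent.Lib.B5.CV
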