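import Pool.Agent.Lib.B5.CV6

/-! Replacing the list of exceptions of a covering by a shorter one. -/

set_option autoImplicit false

namespace Pool.Agent.Lib.B5.CV

noncomputable section

def V.isz (a : V) : Bool := an (iz a.x) <| an (iz a.y) (iz a.z)

/-- the relations `e` force the relation `s` -/
def imp1 (e : List (List ℤ)) (s : List ℤ) : Bool :=
  Nat.ble s.length 3 && match e with
  | [r] => Nat.ble r.length 3 && !(lv r).isz && ((lv r).cross (lv s)).isz
  | [r, r'] => Nat.ble r.length 3 && Nat.ble r'.length 3 && !((lv r).cross (lv r')).isz &&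
      iz (((lv r).cross (lv r')).dot (lv s))
  | _ => false

/-- every exception of the second list implies the exception of `E'` given by the index -/
def subI (E' : List (List (List ℤ))) : List (List (List ℤ)) → List ℕ → Bool
  | [], _ => true
  | _ :: _, [] => false
  | e :: E, i :: I => (look [[0, 0, 0, 0]] E' i).all (imp1 e) && subI E' E I

end

theorem dot_lv3 {r : List ℤ} (h : r.length ≤ 3) (v : ℕ → ℤ) :
    dot r v = (lv r).x * v 0 + (lv r).y * v 1 + (lv r).z * v 2 := by
  rcases r with _ | ⟨a, _ | ⟨b, _ | ⟨c, _ | ⟨d, r⟩⟩⟩⟩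
  · simp [dot, lv]
  · simp [dot, lv]
  · simp [dot, lv]
  · simp [dot, lv, add_assoc]
  · simp only [List.length_cons] at h; omega

theorem isz_iff (a : V) : a.isz = true ↔ a.x = 0 ∧ a.y = 0 ∧ a.z = 0 := by simp [V.isz]

theorem zero_of {a : V} {t : ℤ} (h : ¬ a.isz = true) (h1 : a.x * t = 0) (h2 : a.y * t = 0)
    (h3 : a.z * t = 0) : t = 0 := by
  by_contra ht
  exact h ((isz_iff a).2 ⟨(mul_eq_zero.1 h1).resolve_right ht, (mul_eq_zero.1 h2).resolve_right ht,
    (mul_eq_zero.1 h3).resolve_right ht⟩)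

theorem imp1_ok {e : List (List ℤ)} {s : List ℤ} (h : imp1 e s = true) (v : ℕ → ℤ)
    (H : ∀ r ∈ e, dot r v = 0) : dot s v = 0 := by
  rcases e with _ | ⟨r, _ | ⟨r', _ | ⟨r'', e⟩⟩⟩
  · simp [imp1] at h
  · simp only [imp1, Bool.and_eq_true, Nat.ble_eq, Bool.not_eq_true', ← Bool.not_eq_true] at h
    obtain ⟨hs, ⟨hr, hn⟩, hc⟩ := h
    have h1 := H r (by simp)
    rw [dot_lv3 hr] at h1
    rw [dot_lv3 hs]
    rw [isz_iff] at hc
    simp only [V.cross] at hc
    obtain ⟨cx, cy, cz⟩ := hc
    refine zero_of hn ?_ ?_ ?_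
    · linear_combination (lv s).x * h1 + v 1 * cz - v 2 * cy
    · linear_combination (lv s).y * h1 + v 2 * cx - v 0 * cz
    · linear_combination (lv s).z * h1 + v 0 * cy - v 1 * cx
  · simp only [imp1, Bool.and_eq_true, Nat.ble_eq, Bool.not_eq_true', ← Bool.not_eq_true,
      iz_iff] at h
    obtain ⟨hs, ⟨⟨hr, hr'⟩, hn⟩, hc⟩ := h
    have h1 := H r (by simp)
    have h2 := H r' (by simp)
    rw [dot_lv3 hr] at h1
    rw [dot_lv3 hr'] at h2
    rw [dot_lv3 hs]
    simp only [V.dot_eq, V.cross] at hc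
    refine zero_of hn ?_ ?_ ?_ <;> simp only [V.cross]
    · linear_combination v 0 * hc + ((lv s).z * (lv r).y - (lv s).y * (lv r).z) * h2 -
        ((lv s).z * (lv r').y - (lv s).y * (lv r').z) * h1
    · linear_combination v 1 * hc + ((lv s).x * (lv r).z - (lv s).z * (lv r).x) * h2 -
        ((lv s).x * (lv r').z - (lv s).z * (lv r').x) * h1
    · linear_combination v 2 * hc + ((lv s).y * (lv r).x - (lv s).x * (lv r).y) * h2 -
        ((lv s).y * (lv r').x - (lv s).x * (lv r').y) * h1
  · simp [imp1] at h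

theorem look_or {α : Type} (d : α) (L : List α) (i : ℕ) : look d L i = d ∨ look d L i ∈ L := by
  by_cases h : i < L.length
  · exact Or.inr (look_mem d L i h)
  · left
    induction L generalizing i with
    | nil => rfl
    | cons a L ih =>
      cases i with
      | zero => simp at h
      | succ i => exact ih i (by simpa using h)

theorem subI_ok {E' : List (List (List ℤ))} : ∀ (E : List (List (List ℤ))) (I : List ℕ),
    subI E' E I = true → ∀ e ∈ E, ∃ e' ∈ E', e'.all (imp1 e) = true
  | [], _, _, e, he => by simp at he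
  | _ :: _, [], h, _, _ => by simp [subI] at h
  | e0 :: E, i :: I, h, e, he => by
    simp only [subI, Bool.and_eq_true] at h
    rcases List.mem_cons.1 he with rfl | he
    · rcases look_or [[0, 0, 0, 0]] E' i with h1 | h1
      · rw [h1] at h
        simp [imp1] at h
      · exact ⟨_, h1, h.1⟩
    · exact subI_ok E I h.2 e he

theorem covers_sub {d M : ℕ} {Ps : List (List (List ℤ × ℤ))} {E E' : List (List (List ℤ))}
    {I : List ℕ} (h : Covers d M Ps E) (hs : subI E' E I = true) : Covers d M Ps E' := by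
  intro v
  rcases h v with h | ⟨e, he, H⟩
  · exact Or.inl h
  · obtain ⟨e', he', h'⟩ := subI_ok E I hs e he
    exact Or.inr ⟨e', he', fun s hs => imp1_ok (List.all_eq_true.1 h' s hs) v H⟩

end Pool.Agent.Lib.B5.CV
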