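import Pool.Agent.Lib.B5.Types

/-! The eight residue types modulo five. -/

set_option autoImplicit false

namespace Pool.Agent.Lib.B5

def tyL : ℕ → List ℤ
  | 0 => [0, 1, 2, -2, -1]
  | 1 => [0, 0, 1, 2, -1]
  | 2 => [0, 0, 1, 1, 2]
  | 3 => [0, 1, 1, -1, -1]
  | 4 => [0, 0, 0, 1, 2]
  | 5 => [0, 0, 0, 1, -1]
  | 6 => [0, 0, 0, 1, 1]
  | _ => [0, 0, 0, 0, 1]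

def clsTab : List (ℕ × ℤ × List ℕ) :=
  [(0, 0, []), (7, 1, [0, 2, 3, 4, 1]), (7, 2, [0, 2, 3, 4, 1]), (7, 3, [0, 2, 3, 4, 1]), (7, 4, [0, 2, 3, 4, 1]),
   (7, 1, [0, 1, 3, 4, 2]), (6, 1, [0, 3, 4, 1, 2]), (4, 1, [0, 3, 4, 2, 1]), (4, 3, [0, 3, 4, 1, 2]), (5, 4, [0, 3, 4, 1, 2]),
   (7, 2, [0, 1, 3, 4, 2]), (4, 1, [0, 3, 4, 1, 2]), (6, 2, [0, 3, 4, 1, 2]), (5, 3, [0, 3, 4, 1, 2]), (4, 2, [0, 3, 4, 2, 1]),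
   (7, 3, [0, 1, 3, 4, 2]), (4, 3, [0, 3, 4, 2, 1]), (5, 2, [0, 3, 4, 1, 2]), (6, 3, [0, 3, 4, 1, 2]), (4, 4, [0, 3, 4, 1, 2]),
   (7, 4, [0, 1, 3, 4, 2]), (5, 1, [0, 3, 4, 1, 2]), (4, 2, [0, 3, 4, 1, 2]), (4, 4, [0, 3, 4, 2, 1]), (6, 4, [0, 3, 4, 1, 2]),
   (7, 1, [0, 1, 2, 4, 3]), (6, 1, [0, 2, 4, 1, 3]), (4, 1, [0, 2, 4, 3, 1]), (4, 3, [0, 2, 4, 1, 3]), (5, 4, [0, 2, 4, 1, 3]),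
   (6, 1, [0, 1, 4, 2, 3]), (6, 4, [1, 2, 3, 0, 4]), (2, 1, [0, 4, 2, 3, 1]), (3, 2, [1, 0, 4, 2, 3]), (2, 4, [2, 3, 0, 4, 1]),
   (4, 1, [0, 1, 4, 3, 2]), (2, 1, [0, 4, 1, 3, 2]), (3, 4, [3, 0, 4, 1, 2]), (1, 3, [0, 4, 1, 3, 2]), (1, 1, [0, 4, 3, 2, 1]),
   (4, 3, [0, 1, 4, 2, 3]), (3, 2, [2, 0, 4, 1, 3]), (1, 3, [0, 4, 2, 3, 1]), (2, 3, [0, 4, 1, 2, 3]), (1, 4, [0, 4, 1, 2, 3]),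
   (5, 4, [0, 1, 4, 2, 3]), (2, 4, [1, 3, 0, 4, 2]), (1, 1, [0, 4, 3, 1, 2]), (1, 4, [0, 4, 2, 1, 3]), (2, 1, [1, 2, 0, 4, 3]),
   (7, 2, [0, 1, 2, 4, 3]), (4, 1, [0, 2, 4, 1, 3]), (6, 2, [0, 2, 4, 1, 3]), (5, 3, [0, 2, 4, 1, 3]), (4, 2, [0, 2, 4, 3, 1]),
   (4, 1, [0, 1, 4, 2, 3]), (2, 1, [0, 4, 1, 2, 3]), (3, 4, [2, 0, 4, 1, 3]), (1, 3, [0, 4, 1, 2, 3]), (1, 1, [0, 4, 2, 3, 1]),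
   (6, 2, [0, 1, 4, 2, 3]), (3, 4, [1, 0, 4, 2, 3]), (6, 3, [1, 2, 3, 0, 4]), (2, 3, [2, 3, 0, 4, 1]), (2, 2, [0, 4, 2, 3, 1]),
   (5, 3, [0, 1, 4, 2, 3]), (1, 3, [0, 4, 2, 1, 3]), (2, 3, [1, 3, 0, 4, 2]), (2, 2, [1, 2, 0, 4, 3]), (1, 2, [0, 4, 3, 1, 2]),
   (4, 2, [0, 1, 4, 3, 2]), (1, 1, [0, 4, 1, 3, 2]), (2, 2, [0, 4, 1, 3, 2]), (1, 2, [0, 4, 3, 2, 1]), (3, 3, [3, 0, 4, 1, 2]),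
   (7, 3, [0, 1, 2, 4, 3]), (4, 3, [0, 2, 4, 3, 1]), (5, 2, [0, 2, 4, 1, 3]), (6, 3, [0, 2, 4, 1, 3]), (4, 4, [0, 2, 4, 1, 3]),
   (4, 3, [0, 1, 4, 3, 2]), (3, 2, [3, 0, 4, 1, 2]), (1, 3, [0, 4, 3, 2, 1]), (2, 3, [0, 4, 1, 3, 2]), (1, 4, [0, 4, 1, 3, 2]),
   (5, 2, [0, 1, 4, 2, 3]), (1, 3, [0, 4, 3, 1, 2]), (2, 3, [1, 2, 0, 4, 3]), (2, 2, [1, 3, 0, 4, 2]), (1, 2, [0, 4, 2, 1, 3]),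
   (6, 3, [0, 1, 4, 2, 3]), (2, 3, [0, 4, 2, 3, 1]), (2, 2, [2, 3, 0, 4, 1]), (6, 2, [1, 2, 3, 0, 4]), (3, 1, [1, 0, 4, 2, 3]),
   (4, 4, [0, 1, 4, 2, 3]), (1, 4, [0, 4, 2, 3, 1]), (1, 2, [0, 4, 1, 2, 3]), (3, 1, [2, 0, 4, 1, 3]), (2, 4, [0, 4, 1, 2, 3]),
   (7, 4, [0, 1, 2, 4, 3]), (5, 1, [0, 2, 4, 1, 3]), (4, 2, [0, 2, 4, 1, 3]), (4, 4, [0, 2, 4, 3, 1]), (6, 4, [0, 2, 4, 1, 3]),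
   (5, 1, [0, 1, 4, 2, 3]), (2, 4, [1, 2, 0, 4, 3]), (1, 1, [0, 4, 2, 1, 3]), (1, 4, [0, 4, 3, 1, 2]), (2, 1, [1, 3, 0, 4, 2]),
   (4, 2, [0, 1, 4, 2, 3]), (1, 1, [0, 4, 1, 2, 3]), (2, 2, [0, 4, 1, 2, 3]), (1, 2, [0, 4, 2, 3, 1]), (3, 3, [2, 0, 4, 1, 3]),
   (4, 4, [0, 1, 4, 3, 2]), (1, 4, [0, 4, 3, 2, 1]), (1, 2, [0, 4, 1, 3, 2]), (3, 1, [3, 0, 4, 1, 2]), (2, 4, [0, 4, 1, 3, 2]),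
   (6, 4, [0, 1, 4, 2, 3]), (2, 1, [2, 3, 0, 4, 1]), (3, 3, [1, 0, 4, 2, 3]), (2, 4, [0, 4, 2, 3, 1]), (6, 1, [1, 2, 3, 0, 4]),
   (7, 1, [0, 1, 2, 3, 4]), (6, 1, [0, 2, 3, 1, 4]), (4, 1, [0, 2, 3, 4, 1]), (4, 3, [0, 2, 3, 1, 4]), (5, 4, [0, 2, 3, 1, 4]),
   (6, 1, [0, 1, 3, 2, 4]), (6, 4, [1, 2, 4, 0, 3]), (2, 1, [0, 3, 2, 4, 1]), (3, 2, [1, 0, 3, 2, 4]), (2, 4, [2, 4, 0, 3, 1]),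
   (4, 1, [0, 1, 3, 4, 2]), (2, 1, [0, 3, 1, 4, 2]), (3, 4, [4, 0, 3, 1, 2]), (1, 3, [0, 3, 1, 4, 2]), (1, 1, [0, 3, 4, 2, 1]),
   (4, 3, [0, 1, 3, 2, 4]), (3, 2, [2, 0, 3, 1, 4]), (1, 3, [0, 3, 2, 4, 1]), (2, 3, [0, 3, 1, 2, 4]), (1, 4, [0, 3, 1, 2, 4]),
   (5, 4, [0, 1, 3, 2, 4]), (2, 4, [1, 4, 0, 3, 2]), (1, 1, [0, 3, 4, 1, 2]), (1, 4, [0, 3, 2, 1, 4]), (2, 1, [1, 2, 0, 3, 4]),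
   (6, 1, [0, 1, 2, 3, 4]), (6, 4, [1, 3, 4, 0, 2]), (2, 1, [0, 2, 3, 4, 1]), (3, 2, [1, 0, 2, 3, 4]), (2, 4, [3, 4, 0, 2, 1]),
   (6, 4, [2, 3, 4, 0, 1]), (7, 4, [1, 2, 3, 4, 0]), (5, 4, [2, 3, 4, 0, 1]), (4, 2, [2, 3, 4, 1, 0]), (4, 4, [2, 3, 4, 0, 1]),
   (2, 1, [0, 1, 3, 4, 2]), (5, 4, [1, 3, 4, 0, 2]), (2, 4, [1, 2, 3, 4, 0]), (1, 1, [3, 4, 2, 1, 0]), (1, 4, [3, 4, 0, 1, 2]),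
   (3, 2, [2, 0, 1, 3, 4]), (4, 2, [1, 3, 4, 2, 0]), (1, 1, [3, 4, 1, 2, 0]), (2, 2, [3, 4, 1, 2, 0]), (1, 2, [3, 4, 2, 0, 1]),
   (2, 4, [3, 4, 0, 1, 2]), (4, 4, [1, 3, 4, 0, 2]), (1, 4, [3, 4, 0, 2, 1]), (1, 2, [3, 4, 1, 0, 2]), (3, 4, [0, 1, 2, 3, 4]),
   (4, 1, [0, 1, 2, 4, 3]), (2, 1, [0, 2, 1, 4, 3]), (3, 4, [4, 0, 2, 1, 3]), (1, 3, [0, 2, 1, 4, 3]), (1, 1, [0, 2, 4, 3, 1]),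
   (2, 1, [0, 1, 2, 4, 3]), (5, 4, [1, 2, 4, 0, 3]), (2, 4, [1, 3, 2, 4, 0]), (1, 1, [2, 4, 3, 1, 0]), (1, 4, [2, 4, 0, 1, 3]),
   (3, 4, [4, 0, 1, 2, 3]), (2, 4, [2, 3, 1, 4, 0]), (4, 4, [1, 2, 3, 4, 0]), (1, 4, [2, 3, 4, 0, 1]), (1, 2, [2, 3, 1, 4, 0]),
   (1, 3, [0, 1, 2, 4, 3]), (1, 1, [1, 4, 3, 2, 0]), (1, 4, [1, 3, 4, 0, 2]), (1, 2, [1, 2, 0, 3, 4]), (0, 4, [0, 1, 2, 3, 4]),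
   (1, 1, [0, 1, 4, 3, 2]), (1, 4, [1, 4, 0, 2, 3]), (1, 2, [1, 3, 2, 4, 0]), (0, 3, [0, 1, 4, 2, 3]), (1, 3, [1, 2, 3, 0, 4]),
   (4, 3, [0, 1, 2, 3, 4]), (3, 2, [3, 0, 2, 1, 4]), (1, 3, [0, 2, 3, 4, 1]), (2, 3, [0, 2, 1, 3, 4]), (1, 4, [0, 2, 1, 3, 4]),
   (3, 2, [3, 0, 1, 2, 4]), (4, 2, [1, 2, 4, 3, 0]), (1, 1, [2, 4, 1, 3, 0]), (2, 2, [2, 4, 1, 3, 0]), (1, 2, [2, 4, 3, 0, 1]),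
   (1, 3, [0, 1, 3, 4, 2]), (1, 1, [1, 4, 2, 3, 0]), (1, 4, [1, 2, 4, 0, 3]), (1, 2, [1, 3, 0, 2, 4]), (0, 4, [0, 1, 3, 2, 4]),
   (2, 3, [0, 1, 2, 3, 4]), (2, 2, [1, 4, 2, 3, 0]), (1, 2, [2, 3, 0, 1, 4]), (5, 2, [1, 2, 3, 0, 4]), (1, 3, [2, 3, 4, 1, 0]),
   (1, 4, [0, 1, 2, 3, 4]), (1, 2, [1, 4, 3, 0, 2]), (0, 2, [0, 1, 2, 4, 3]), (1, 3, [1, 3, 4, 2, 0]), (1, 1, [1, 2, 0, 4, 3]),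
   (5, 4, [0, 1, 2, 3, 4]), (2, 4, [1, 4, 0, 2, 3]), (1, 1, [0, 2, 4, 1, 3]), (1, 4, [0, 2, 3, 1, 4]), (2, 1, [1, 3, 0, 2, 4]),
   (2, 4, [2, 4, 0, 1, 3]), (4, 4, [1, 2, 4, 0, 3]), (1, 4, [2, 4, 0, 3, 1]), (1, 2, [2, 4, 1, 0, 3]), (3, 4, [0, 1, 3, 2, 4]),
   (1, 1, [0, 1, 4, 2, 3]), (1, 4, [1, 4, 0, 3, 2]), (1, 2, [1, 2, 3, 4, 0]), (0, 3, [0, 1, 4, 3, 2]), (1, 3, [1, 3, 2, 0, 4]),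
   (1, 4, [0, 1, 3, 2, 4]), (1, 2, [1, 4, 2, 0, 3]), (0, 2, [0, 1, 3, 4, 2]), (1, 3, [1, 2, 4, 3, 0]), (1, 1, [1, 3, 0, 4, 2]),
   (2, 1, [2, 3, 0, 1, 4]), (3, 1, [0, 1, 4, 2, 3]), (1, 3, [2, 3, 1, 0, 4]), (1, 1, [2, 3, 0, 4, 1]), (4, 1, [1, 2, 3, 0, 4]),
   (7, 2, [0, 1, 2, 3, 4]), (4, 1, [0, 2, 3, 1, 4]), (6, 2, [0, 2, 3, 1, 4]), (5, 3, [0, 2, 3, 1, 4]), (4, 2, [0, 2, 3, 4, 1]),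
   (4, 1, [0, 1, 3, 2, 4]), (2, 1, [0, 3, 1, 2, 4]), (3, 4, [2, 0, 3, 1, 4]), (1, 3, [0, 3, 1, 2, 4]), (1, 1, [0, 3, 2, 4, 1]),
   (6, 2, [0, 1, 3, 2, 4]), (3, 4, [1, 0, 3, 2, 4]), (6, 3, [1, 2, 4, 0, 3]), (2, 3, [2, 4, 0, 3, 1]), (2, 2, [0, 3, 2, 4, 1]),
   (5, 3, [0, 1, 3, 2, 4]), (1, 3, [0, 3, 2, 1, 4]), (2, 3, [1, 4, 0, 3, 2]), (2, 2, [1, 2, 0, 3, 4]), (1, 2, [0, 3, 4, 1, 2]),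
   (4, 2, [0, 1, 3, 4, 2]), (1, 1, [0, 3, 1, 4, 2]), (2, 2, [0, 3, 1, 4, 2]), (1, 2, [0, 3, 4, 2, 1]), (3, 3, [4, 0, 3, 1, 2]),
   (4, 1, [0, 1, 2, 3, 4]), (2, 1, [0, 2, 1, 3, 4]), (3, 4, [3, 0, 2, 1, 4]), (1, 3, [0, 2, 1, 3, 4]), (1, 1, [0, 2, 3, 4, 1]),
   (2, 1, [0, 1, 2, 3, 4]), (5, 4, [1, 2, 3, 0, 4]), (2, 4, [1, 4, 2, 3, 0]), (1, 1, [2, 3, 4, 1, 0]), (1, 4, [2, 3, 0, 1, 4]),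
   (3, 4, [3, 0, 1, 2, 4]), (2, 4, [2, 4, 1, 3, 0]), (4, 4, [1, 2, 4, 3, 0]), (1, 4, [2, 4, 3, 0, 1]), (1, 2, [2, 4, 1, 3, 0]),
   (1, 3, [0, 1, 2, 3, 4]), (1, 1, [1, 3, 4, 2, 0]), (1, 4, [1, 4, 3, 0, 2]), (1, 2, [1, 2, 0, 4, 3]), (0, 4, [0, 1, 2, 4, 3]),
   (1, 1, [0, 1, 3, 4, 2]), (1, 4, [1, 3, 0, 2, 4]), (1, 2, [1, 4, 2, 3, 0]), (0, 3, [0, 1, 3, 2, 4]), (1, 3, [1, 2, 4, 0, 3]),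
   (6, 2, [0, 1, 2, 3, 4]), (3, 4, [1, 0, 2, 3, 4]), (6, 3, [1, 3, 4, 0, 2]), (2, 3, [3, 4, 0, 2, 1]), (2, 2, [0, 2, 3, 4, 1]),
   (3, 4, [2, 0, 1, 3, 4]), (2, 4, [3, 4, 1, 2, 0]), (4, 4, [1, 3, 4, 2, 0]), (1, 4, [3, 4, 2, 0, 1]), (1, 2, [3, 4, 1, 2, 0]),
   (6, 3, [2, 3, 4, 0, 1]), (4, 4, [2, 3, 4, 1, 0]), (7, 3, [1, 2, 3, 4, 0]), (4, 3, [2, 3, 4, 0, 1]), (5, 3, [2, 3, 4, 0, 1]),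
   (2, 3, [3, 4, 0, 1, 2]), (1, 4, [3, 4, 1, 0, 2]), (4, 3, [1, 3, 4, 0, 2]), (3, 3, [0, 1, 2, 3, 4]), (1, 3, [3, 4, 0, 2, 1]),
   (2, 2, [0, 1, 3, 4, 2]), (1, 2, [3, 4, 2, 1, 0]), (5, 3, [1, 3, 4, 0, 2]), (1, 3, [3, 4, 0, 1, 2]), (2, 3, [1, 2, 3, 4, 0]),
   (5, 3, [0, 1, 2, 3, 4]), (1, 3, [0, 2, 3, 1, 4]), (2, 3, [1, 4, 0, 2, 3]), (2, 2, [1, 3, 0, 2, 4]), (1, 2, [0, 2, 4, 1, 3]),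
   (1, 3, [0, 1, 3, 2, 4]), (1, 1, [1, 2, 4, 3, 0]), (1, 4, [1, 4, 2, 0, 3]), (1, 2, [1, 3, 0, 4, 2]), (0, 4, [0, 1, 3, 4, 2]),
   (2, 3, [2, 4, 0, 1, 3]), (1, 4, [2, 4, 1, 0, 3]), (4, 3, [1, 2, 4, 0, 3]), (3, 3, [0, 1, 3, 2, 4]), (1, 3, [2, 4, 0, 3, 1]),
   (2, 2, [2, 3, 0, 1, 4]), (1, 2, [2, 3, 0, 4, 1]), (3, 2, [0, 1, 4, 2, 3]), (4, 2, [1, 2, 3, 0, 4]), (1, 1, [2, 3, 1, 0, 4]),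
   (1, 2, [0, 1, 4, 2, 3]), (0, 1, [0, 1, 4, 3, 2]), (1, 3, [1, 4, 0, 3, 2]), (1, 1, [1, 3, 2, 0, 4]), (1, 4, [1, 2, 3, 4, 0]),
   (4, 2, [0, 1, 2, 4, 3]), (1, 1, [0, 2, 1, 4, 3]), (2, 2, [0, 2, 1, 4, 3]), (1, 2, [0, 2, 4, 3, 1]), (3, 3, [4, 0, 2, 1, 3]),
   (1, 1, [0, 1, 2, 4, 3]), (1, 4, [1, 2, 0, 3, 4]), (1, 2, [1, 4, 3, 2, 0]), (0, 3, [0, 1, 2, 3, 4]), (1, 3, [1, 3, 4, 0, 2]),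
   (2, 2, [0, 1, 2, 4, 3]), (1, 2, [2, 4, 3, 1, 0]), (5, 3, [1, 2, 4, 0, 3]), (1, 3, [2, 4, 0, 1, 3]), (2, 3, [1, 3, 2, 4, 0]),
   (1, 2, [0, 1, 4, 3, 2]), (0, 1, [0, 1, 4, 2, 3]), (1, 3, [1, 4, 0, 2, 3]), (1, 1, [1, 2, 3, 0, 4]), (1, 4, [1, 3, 2, 4, 0]),
   (3, 3, [4, 0, 1, 2, 3]), (1, 3, [2, 3, 4, 0, 1]), (2, 3, [2, 3, 1, 4, 0]), (1, 4, [2, 3, 1, 4, 0]), (4, 3, [1, 2, 3, 4, 0]),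
   (7, 3, [0, 1, 2, 3, 4]), (4, 3, [0, 2, 3, 4, 1]), (5, 2, [0, 2, 3, 1, 4]), (6, 3, [0, 2, 3, 1, 4]), (4, 4, [0, 2, 3, 1, 4]),
   (4, 3, [0, 1, 3, 4, 2]), (3, 2, [4, 0, 3, 1, 2]), (1, 3, [0, 3, 4, 2, 1]), (2, 3, [0, 3, 1, 4, 2]), (1, 4, [0, 3, 1, 4, 2]),
   (5, 2, [0, 1, 3, 2, 4]), (1, 3, [0, 3, 4, 1, 2]), (2, 3, [1, 2, 0, 3, 4]), (2, 2, [1, 4, 0, 3, 2]), (1, 2, [0, 3, 2, 1, 4]),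
   (6, 3, [0, 1, 3, 2, 4]), (2, 3, [0, 3, 2, 4, 1]), (2, 2, [2, 4, 0, 3, 1]), (6, 2, [1, 2, 4, 0, 3]), (3, 1, [1, 0, 3, 2, 4]),
   (4, 4, [0, 1, 3, 2, 4]), (1, 4, [0, 3, 2, 4, 1]), (1, 2, [0, 3, 1, 2, 4]), (3, 1, [2, 0, 3, 1, 4]), (2, 4, [0, 3, 1, 2, 4]),
   (4, 3, [0, 1, 2, 4, 3]), (3, 2, [4, 0, 2, 1, 3]), (1, 3, [0, 2, 4, 3, 1]), (2, 3, [0, 2, 1, 4, 3]), (1, 4, [0, 2, 1, 4, 3]),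
   (3, 2, [4, 0, 1, 2, 3]), (4, 2, [1, 2, 3, 4, 0]), (1, 1, [2, 3, 1, 4, 0]), (2, 2, [2, 3, 1, 4, 0]), (1, 2, [2, 3, 4, 0, 1]),
   (1, 3, [0, 1, 4, 3, 2]), (1, 1, [1, 3, 2, 4, 0]), (1, 4, [1, 2, 3, 0, 4]), (1, 2, [1, 4, 0, 2, 3]), (0, 4, [0, 1, 4, 2, 3]),
   (2, 3, [0, 1, 2, 4, 3]), (2, 2, [1, 3, 2, 4, 0]), (1, 2, [2, 4, 0, 1, 3]), (5, 2, [1, 2, 4, 0, 3]), (1, 3, [2, 4, 3, 1, 0]),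
   (1, 4, [0, 1, 2, 4, 3]), (1, 2, [1, 3, 4, 0, 2]), (0, 2, [0, 1, 2, 3, 4]), (1, 3, [1, 4, 3, 2, 0]), (1, 1, [1, 2, 0, 3, 4]),
   (5, 2, [0, 1, 2, 3, 4]), (1, 3, [0, 2, 4, 1, 3]), (2, 3, [1, 3, 0, 2, 4]), (2, 2, [1, 4, 0, 2, 3]), (1, 2, [0, 2, 3, 1, 4]),
   (1, 3, [0, 1, 4, 2, 3]), (1, 1, [1, 2, 3, 4, 0]), (1, 4, [1, 3, 2, 0, 4]), (1, 2, [1, 4, 0, 3, 2]), (0, 4, [0, 1, 4, 3, 2]),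
   (2, 3, [2, 3, 0, 1, 4]), (1, 4, [2, 3, 1, 0, 4]), (4, 3, [1, 2, 3, 0, 4]), (3, 3, [0, 1, 4, 2, 3]), (1, 3, [2, 3, 0, 4, 1]),
   (2, 2, [2, 4, 0, 1, 3]), (1, 2, [2, 4, 0, 3, 1]), (3, 2, [0, 1, 3, 2, 4]), (4, 2, [1, 2, 4, 0, 3]), (1, 1, [2, 4, 1, 0, 3]),
   (1, 2, [0, 1, 3, 2, 4]), (0, 1, [0, 1, 3, 4, 2]), (1, 3, [1, 3, 0, 4, 2]), (1, 1, [1, 4, 2, 0, 3]), (1, 4, [1, 2, 4, 3, 0]),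
   (6, 3, [0, 1, 2, 3, 4]), (2, 3, [0, 2, 3, 4, 1]), (2, 2, [3, 4, 0, 2, 1]), (6, 2, [1, 3, 4, 0, 2]), (3, 1, [1, 0, 2, 3, 4]),
   (2, 3, [0, 1, 3, 4, 2]), (2, 2, [1, 2, 3, 4, 0]), (1, 2, [3, 4, 0, 1, 2]), (5, 2, [1, 3, 4, 0, 2]), (1, 3, [3, 4, 2, 1, 0]),
   (2, 2, [3, 4, 0, 1, 2]), (1, 2, [3, 4, 0, 2, 1]), (3, 2, [0, 1, 2, 3, 4]), (4, 2, [1, 3, 4, 0, 2]), (1, 1, [3, 4, 1, 0, 2]),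
   (6, 2, [2, 3, 4, 0, 1]), (5, 2, [2, 3, 4, 0, 1]), (4, 2, [2, 3, 4, 0, 1]), (7, 2, [1, 2, 3, 4, 0]), (4, 1, [2, 3, 4, 1, 0]),
   (3, 1, [2, 0, 1, 3, 4]), (1, 3, [3, 4, 1, 2, 0]), (1, 1, [3, 4, 2, 0, 1]), (4, 1, [1, 3, 4, 2, 0]), (2, 1, [3, 4, 1, 2, 0]),
   (4, 4, [0, 1, 2, 3, 4]), (1, 4, [0, 2, 3, 4, 1]), (1, 2, [0, 2, 1, 3, 4]), (3, 1, [3, 0, 2, 1, 4]), (2, 4, [0, 2, 1, 3, 4]),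
   (1, 4, [0, 1, 3, 4, 2]), (1, 2, [1, 2, 4, 0, 3]), (0, 2, [0, 1, 3, 2, 4]), (1, 3, [1, 4, 2, 3, 0]), (1, 1, [1, 3, 0, 2, 4]),
   (1, 2, [0, 1, 2, 3, 4]), (0, 1, [0, 1, 2, 4, 3]), (1, 3, [1, 2, 0, 4, 3]), (1, 1, [1, 4, 3, 0, 2]), (1, 4, [1, 3, 4, 2, 0]),
   (3, 1, [3, 0, 1, 2, 4]), (1, 3, [2, 4, 1, 3, 0]), (1, 1, [2, 4, 3, 0, 1]), (4, 1, [1, 2, 4, 3, 0]), (2, 1, [2, 4, 1, 3, 0]),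
   (2, 4, [0, 1, 2, 3, 4]), (1, 1, [2, 3, 0, 1, 4]), (1, 4, [2, 3, 4, 1, 0]), (2, 1, [1, 4, 2, 3, 0]), (5, 1, [1, 2, 3, 0, 4]),
   (7, 4, [0, 1, 2, 3, 4]), (5, 1, [0, 2, 3, 1, 4]), (4, 2, [0, 2, 3, 1, 4]), (4, 4, [0, 2, 3, 4, 1]), (6, 4, [0, 2, 3, 1, 4]),
   (5, 1, [0, 1, 3, 2, 4]), (2, 4, [1, 2, 0, 3, 4]), (1, 1, [0, 3, 2, 1, 4]), (1, 4, [0, 3, 4, 1, 2]), (2, 1, [1, 4, 0, 3, 2]),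
   (4, 2, [0, 1, 3, 2, 4]), (1, 1, [0, 3, 1, 2, 4]), (2, 2, [0, 3, 1, 2, 4]), (1, 2, [0, 3, 2, 4, 1]), (3, 3, [2, 0, 3, 1, 4]),
   (4, 4, [0, 1, 3, 4, 2]), (1, 4, [0, 3, 4, 2, 1]), (1, 2, [0, 3, 1, 4, 2]), (3, 1, [4, 0, 3, 1, 2]), (2, 4, [0, 3, 1, 4, 2]),
   (6, 4, [0, 1, 3, 2, 4]), (2, 1, [2, 4, 0, 3, 1]), (3, 3, [1, 0, 3, 2, 4]), (2, 4, [0, 3, 2, 4, 1]), (6, 1, [1, 2, 4, 0, 3]),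
   (5, 1, [0, 1, 2, 3, 4]), (2, 4, [1, 3, 0, 2, 4]), (1, 1, [0, 2, 3, 1, 4]), (1, 4, [0, 2, 4, 1, 3]), (2, 1, [1, 4, 0, 2, 3]),
   (2, 4, [2, 3, 0, 1, 4]), (4, 4, [1, 2, 3, 0, 4]), (1, 4, [2, 3, 0, 4, 1]), (1, 2, [2, 3, 1, 0, 4]), (3, 4, [0, 1, 4, 2, 3]),
   (1, 1, [0, 1, 3, 2, 4]), (1, 4, [1, 3, 0, 4, 2]), (1, 2, [1, 2, 4, 3, 0]), (0, 3, [0, 1, 3, 4, 2]), (1, 3, [1, 4, 2, 0, 3]),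
   (1, 4, [0, 1, 4, 2, 3]), (1, 2, [1, 3, 2, 0, 4]), (0, 2, [0, 1, 4, 3, 2]), (1, 3, [1, 2, 3, 4, 0]), (1, 1, [1, 4, 0, 3, 2]),
   (2, 1, [2, 4, 0, 1, 3]), (3, 1, [0, 1, 3, 2, 4]), (1, 3, [2, 4, 1, 0, 3]), (1, 1, [2, 4, 0, 3, 1]), (4, 1, [1, 2, 4, 0, 3]),
   (4, 2, [0, 1, 2, 3, 4]), (1, 1, [0, 2, 1, 3, 4]), (2, 2, [0, 2, 1, 3, 4]), (1, 2, [0, 2, 3, 4, 1]), (3, 3, [3, 0, 2, 1, 4]),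
   (1, 1, [0, 1, 2, 3, 4]), (1, 4, [1, 2, 0, 4, 3]), (1, 2, [1, 3, 4, 2, 0]), (0, 3, [0, 1, 2, 4, 3]), (1, 3, [1, 4, 3, 0, 2]),
   (2, 2, [0, 1, 2, 3, 4]), (1, 2, [2, 3, 4, 1, 0]), (5, 3, [1, 2, 3, 0, 4]), (1, 3, [2, 3, 0, 1, 4]), (2, 3, [1, 4, 2, 3, 0]),
   (1, 2, [0, 1, 3, 4, 2]), (0, 1, [0, 1, 3, 2, 4]), (1, 3, [1, 3, 0, 2, 4]), (1, 1, [1, 2, 4, 0, 3]), (1, 4, [1, 4, 2, 3, 0]),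
   (3, 3, [3, 0, 1, 2, 4]), (1, 3, [2, 4, 3, 0, 1]), (2, 3, [2, 4, 1, 3, 0]), (1, 4, [2, 4, 1, 3, 0]), (4, 3, [1, 2, 4, 3, 0]),
   (4, 4, [0, 1, 2, 4, 3]), (1, 4, [0, 2, 4, 3, 1]), (1, 2, [0, 2, 1, 4, 3]), (3, 1, [4, 0, 2, 1, 3]), (2, 4, [0, 2, 1, 4, 3]),
   (1, 4, [0, 1, 4, 3, 2]), (1, 2, [1, 2, 3, 0, 4]), (0, 2, [0, 1, 4, 2, 3]), (1, 3, [1, 3, 2, 4, 0]), (1, 1, [1, 4, 0, 2, 3]),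
   (1, 2, [0, 1, 2, 4, 3]), (0, 1, [0, 1, 2, 3, 4]), (1, 3, [1, 2, 0, 3, 4]), (1, 1, [1, 3, 4, 0, 2]), (1, 4, [1, 4, 3, 2, 0]),
   (3, 1, [4, 0, 1, 2, 3]), (1, 3, [2, 3, 1, 4, 0]), (1, 1, [2, 3, 4, 0, 1]), (4, 1, [1, 2, 3, 4, 0]), (2, 1, [2, 3, 1, 4, 0]),
   (2, 4, [0, 1, 2, 4, 3]), (1, 1, [2, 4, 0, 1, 3]), (1, 4, [2, 4, 3, 1, 0]), (2, 1, [1, 3, 2, 4, 0]), (5, 1, [1, 2, 4, 0, 3]),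
   (6, 4, [0, 1, 2, 3, 4]), (2, 1, [3, 4, 0, 2, 1]), (3, 3, [1, 0, 2, 3, 4]), (2, 4, [0, 2, 3, 4, 1]), (6, 1, [1, 3, 4, 0, 2]),
   (2, 1, [3, 4, 0, 1, 2]), (3, 1, [0, 1, 2, 3, 4]), (1, 3, [3, 4, 1, 0, 2]), (1, 1, [3, 4, 0, 2, 1]), (4, 1, [1, 3, 4, 0, 2]),
   (3, 3, [2, 0, 1, 3, 4]), (1, 3, [3, 4, 2, 0, 1]), (2, 3, [3, 4, 1, 2, 0]), (1, 4, [3, 4, 1, 2, 0]), (4, 3, [1, 3, 4, 2, 0]),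
   (2, 4, [0, 1, 3, 4, 2]), (1, 1, [3, 4, 0, 1, 2]), (1, 4, [3, 4, 2, 1, 0]), (2, 1, [1, 2, 3, 4, 0]), (5, 1, [1, 3, 4, 0, 2]),
   (6, 1, [2, 3, 4, 0, 1]), (4, 1, [2, 3, 4, 0, 1]), (4, 3, [2, 3, 4, 1, 0]), (5, 1, [2, 3, 4, 0, 1]), (7, 1, [1, 2, 3, 4, 0])]

def clsAt (R : List ℤ) (e : ℕ × ℤ × List ℕ) (j : ℕ) : Bool :=
  (R.getD (e.2.2.getD j 0) 0 - R.getD (e.2.2.getD 0 0) 0 - (tyL e.1).getD j 0 * e.2.1) % 5 == 0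

def clsOK (R : List ℤ) (e : ℕ × ℤ × List ℕ) : Bool :=
  permOK e.2.2 && decide (e.1 < 8) && !(e.2.1 % 5 == 0) && clsAt R e 0 && clsAt R e 1 &&
    clsAt R e 2 && clsAt R e 3 && clsAt R e 4

def clsAll : ℕ → List (ℕ × ℤ × List ℕ) → Bool
  | _, [] => true
  | i, e :: l => (i == 0 || clsOK [0, ((i % 5 : ℕ) : ℤ), ((i / 5 % 5 : ℕ) : ℤ),
      ((i / 25 % 5 : ℕ) : ℤ), ((i / 125 : ℕ) : ℤ)] e) && clsAll (i + 1) l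

theorem clsAll_get (l : List (ℕ × ℤ × List ℕ)) (i : ℕ) (h : clsAll i l = true) (k : ℕ)
    (hk : k < l.length) : i + k = 0 ∨ clsOK [0, (((i + k) % 5 : ℕ) : ℤ), (((i + k) / 5 % 5 : ℕ) : ℤ),
      (((i + k) / 25 % 5 : ℕ) : ℤ), (((i + k) / 125 : ℕ) : ℤ)] l[k] = true := by
  induction l generalizing i k with
  | nil => simp at hk
  | cons e l ih =>
    simp only [clsAll, Bool.and_eq_true, Bool.or_eq_true, beq_iff_eq] at h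
    cases k with
    | zero => simpa using h.1
    | succ k =>
      have := ih (i + 1) h.2 k (by simpa using hk)
      rw [show i + 1 + k = i + (k + 1) by ring] at this
      exact this

theorem clsTab_ok : clsAll 0 clsTab = true := by decide +kernel

theorem clsTab_len : clsTab.length = 625 := by decide +kernel

theorem classify (t : Fin 5 → ℤ) : (∀ j, (5 : ℤ) ∣ t j - t 0) ∨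
    ∃ (k : ℕ) (σ : Equiv.Perm (Fin 5)) (u : ℤ), k < 8 ∧ ¬ (5 : ℤ) ∣ u ∧
      ∀ j : Fin 5, (5 : ℤ) ∣ t (σ j) - t (σ 0) - (tyL k).getD j 0 * u := by
  obtain ⟨a, ha, ea⟩ : ∃ a : ℕ, a < 5 ∧ (5 : ℤ) ∣ t 1 - t 0 - a :=
    ⟨((t 1 - t 0) % 5).toNat, by omega, by omega⟩
  obtain ⟨b, hb, eb⟩ : ∃ a : ℕ, a < 5 ∧ (5 : ℤ) ∣ t 2 - t 0 - a :=
    ⟨((t 2 - t 0) % 5).toNat, by omega, by omega⟩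
  obtain ⟨c, hc, ec⟩ : ∃ a : ℕ, a < 5 ∧ (5 : ℤ) ∣ t 3 - t 0 - a :=
    ⟨((t 3 - t 0) % 5).toNat, by omega, by omega⟩
  obtain ⟨d, hd, ed⟩ : ∃ a : ℕ, a < 5 ∧ (5 : ℤ) ∣ t 4 - t 0 - a :=
    ⟨((t 4 - t 0) % 5).toNat, by omega, by omega⟩
  have hR : ∀ j : Fin 5, (5 : ℤ) ∣ t j - t 0 - [0, (a : ℤ), b, c, d].getD j 0 := by
    intro j
    fin_cases j
    · simp
    exacts [ea, eb, ec, ed]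
  have hk : a + 5 * b + 25 * c + 125 * d < clsTab.length := by rw [clsTab_len]; omega
  rcases clsAll_get clsTab 0 clsTab_ok _ hk with h | h
  · left
    intro j
    have := hR j
    obtain ⟨rfl, rfl, rfl, rfl⟩ : a = 0 ∧ b = 0 ∧ c = 0 ∧ d = 0 := by omega
    fin_cases j <;> simpa using this
  · right
    rw [zero_add, show (a + 5 * b + 25 * c + 125 * d) % 5 = a by omega,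
      show (a + 5 * b + 25 * c + 125 * d) / 5 % 5 = b by omega,
      show (a + 5 * b + 25 * c + 125 * d) / 25 % 5 = c by omega,
      show (a + 5 * b + 25 * c + 125 * d) / 125 = d by omega] at h
    generalize clsTab[a + 5 * b + 25 * c + 125 * d] = e at h
    simp only [clsOK, Bool.and_eq_true, decide_eq_true_eq, Bool.not_eq_true', beq_eq_false_iff_ne]
      at h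
    obtain ⟨⟨⟨⟨⟨⟨⟨hπ, h8⟩, hu⟩, p0⟩, p1⟩, p2⟩, p3⟩, p4⟩ := h
    obtain ⟨σ, hσ⟩ := permOK_spec hπ
    refine ⟨e.1, σ, e.2.1, h8, by omega, fun j => ?_⟩
    have hj : clsAt [0, (a : ℤ), b, c, d] e j = true := by
      fin_cases j
      exacts [p0, p1, p2, p3, p4]
    simp only [clsAt, beq_iff_eq] at hj
    have x1 := hR (σ j)
    have x0 := hR (σ 0)
    rw [hσ] at x1 x0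
    have z : ((0 : Fin 5) : ℕ) = 0 := rfl
    rw [z] at x0
    generalize (tyL e.1).getD j 0 * e.2.1 = y at hj ⊢
    omega

theorem tyL_ok {k : ℕ} {a b c d e : ℤ} (h : tyL k = [a, b, c, d, e]) (j : Fin 5) :
    (tyL k).getD j 0 = ![a, b, c, d, e] j := by
  rw [h]; fin_cases j <;> rfl

/-- a set of type `k` is covered once the type is closed -/
theorem cov_of_ty (t : Fin 5 → ℤ) (ht : Function.Injective t) {k : ℕ} {a b c d e : ℤ}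
    (hk : tyL k = [a, b, c, d, e]) (hf : TypeOK ![a, b, c, d, e]) (σ : Equiv.Perm (Fin 5)) (u : ℤ)
    (hu : ¬ (5 : ℤ) ∣ u) (h : ∀ j : Fin 5, (5 : ℤ) ∣ t (σ j) - t (σ 0) - (tyL k).getD j 0 * u) :
    Cov (fun j => (t j, 0)) :=
  cov_perm t σ _ hf u ht hu fun j => tyL_ok hk j ▸ h j

end Pool.Agent.Lib.B5
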