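import Pool.Agent.Lib.B5.Defs

set_option autoImplicit false

namespace Pool.Agent.Lib.B5

def sT11111 : St := ⟨4, [([], []), ([1], []), ([2, 1], []), ([-2, 0, 1], []), ([-1, 0, 0, 1], [])], [[[4], [0], [0], [0]]]⟩

def hT11111 : List St := []

def tT11111 : Tr := (.leaf ⟨[(5, [(0, 1, 0)])], [(0, [[]])]⟩)

theorem cT11111 : chk 20 hT11111 tT11111 sT11111 [] = true := by decide +kernel

end Pool.Agent.Lib.B5
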