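import Pool.Agent.Lib.B5.Defs

set_option autoImplicit false

namespace Pool.Agent.Lib.B5

def sT221n : St := ⟨4, [([], []), ([0, 1], []), ([1], []), ([1, 0, 1], []), ([2, 0, 0, 1], [])], [[[4], [0], [0], [0]]]⟩

def hT221n : List St := []

def tT221n : Tr := (.step 2 [true, true, true, true] 0 (.dead 1 0) (.cons (.step 2 [false, true, true, false] 0 (.dead 1 0) (.cons (.step 2 [false, true, false, false] 2 (.dead 1 0) (.cons (.leaf ⟨[(5, [(0, 1, 1)]), (2, [(2, 1, 1)]), (2, [(3, 1, -1)])], [(0, [[], [], []]), (2, [[], [10], [10, 0, 0, 2, 1]]), (3, [[16], [0, 4, 2], [10]]), (1, [[16], [10, 4, 2], [0, 0, 0, 2, 1]])]⟩)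
 .nil))
 (.cons (.step 2 [false, false, true, false] 2 (.dead 3 2) (.cons (.leaf ⟨[(5, [(0, 1, 1)]), (2, [(2, 1, 1)]), (2, [(3, 1, -1)])], [(0, [[], [], []]), (2, [[], [10], [10, 0, 0, 0, 1]]), (3, [[16], [0, 4, 2], [10]]), (1, [[16], [10, 4, 2], [0, 0, 0, 0, 1]])]⟩)
 .nil))
 (.cons (.re [0, 1, 2, 3, 4] [[1], [0, 1], [0, -1, 1], [0, 0, 0, 1]] [([], []), ([0, 1], []), ([1], []), ([1, 1, 1], []), ([2, 0, 0, 1], [])] (.leaf ⟨[(5, [(0, 1, 0)]), (2, [(2, 1, 1)])], [(0, [[], []]), (1, [[16], [10, 4, 2]])]⟩))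
 .nil))))
 (.cons (.step 2 [false, true, false, true] 0 (.dead 1 0) (.cons (.step 2 [false, true, false, false] 2 (.dead 1 0) (.cons (.leaf ⟨[(2, [(1, 1, 1)]), (5, [(0, 1, 1)]), (2, [(3, 1, -1)])], [(0, [[], [], []]), (2, [[10], [], [10, 0, 0, 2, 1]]), (3, [[], [16], [10]]), (1, [[10], [16], [0, 0, 0, 2, 1]])]⟩)
 .nil))
 (.cons (.leaf ⟨[(2, [(1, 1, 1)]), (5, [(0, 1, 1)]), (2, [(2, 1, -1)])], [(0, [[], [], []]), (2, [[10], [], [10, 2, 1]]), (3, [[], [16], [10]]), (1, [[10], [16], [0, 2, 1]])]⟩)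
 (.cons (.re [0, 1, 2, 3, 4] [[1], [0, 1], [0, 0, 1], [0, -1, 0, 1]] [([], []), ([0, 1], []), ([1], []), ([1, 0, 1], []), ([2, 1, 0, 1], [])] (.leaf ⟨[(2, [(1, 1, 1)]), (5, [(0, 1, 1)]), (2, [(2, 1, -1)])], [(0, [[], [], []]), (2, [[10], [], [10, 2, 1]]), (3, [[], [16], [10]]), (1, [[10], [16], [0, 2, 1]])]⟩))
 .nil))))
 (.cons (.re [0, 1, 2, 3, 4] [[1], [0, 1], [0, 0, 1], [0, 0, -1, 1]] [([], []), ([0, 1], []), ([1], []), ([1, 0, 1], []), ([2, 0, 1, 1], [])] (.step 2 [false, true, false, true] 0 (.dead 1 0) (.cons (.step 2 [false, true, false, false] 2 (.dead 1 0) (.cons (.leaf ⟨[(2, [(1, 1, 1)]), (5, [(0, 1, 1)]), (2, [(3, 1, -1)])], [(0, [[], [], []]), (2, [[10], [], [10, 0, 0, 2, 1]]), (1, [[10], [16], [0, 0, 0, 2, 1]]), (3, [[], [16], [10]])]⟩)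
 .nil))
 (.cons (.leaf ⟨[(2, [(1, 1, 1)]), (5, [(0, 1, 1)]), (2, [(2, 1, -1)])], [(0, [[], [], []]), (2, [[10], [], [10, 2, 1]]), (1, [[10], [16], [0, 2, 1]]), (3, [[], [16], [10]])]⟩)
 (.cons (.re [0, 1, 2, 3, 4] [[1], [0, 1], [0, 0, 1], [0, -1, 0, 1]] [([], []), ([0, 1], []), ([1], []), ([1, 0, 1], []), ([2, 1, 1, 1], [])] (.leaf ⟨[(2, [(1, 1, 1)]), (5, [(0, 1, 1)]), (2, [(2, 1, -1)])], [(0, [[], [], []]), (2, [[10], [], [10, 2, 1]]), (1, [[10], [16], [0, 2, 1]]), (3, [[], [16], [10]])]⟩))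
 .nil)))))
 (.cons (.step 2 [false, false, true, true] 0 (.dead 3 2) (.cons (.step 2 [false, false, true, false] 2 (.dead 3 2) (.cons (.leaf ⟨[(2, [(1, 1, 1)]), (5, [(0, 1, 1)]), (2, [(3, 1, -1)])], [(0, [[], [], []]), (2, [[10], [], [10, 0, 0, 0, 1]]), (3, [[], [16], [10]]), (1, [[10], [16], [0, 0, 0, 0, 1]])]⟩)
 .nil))
 (.cons (.leaf ⟨[(2, [(1, 1, 1)]), (5, [(0, 1, 1)]), (2, [(2, 1, -1)])], [(0, [[], [], []]), (2, [[10], [], [10, 0, 1]]), (3, [[], [16], [10]]), (1, [[10], [16], [0, 0, 1]])]⟩)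
 (.cons (.re [0, 1, 2, 3, 4] [[1], [0, 1], [0, 0, 1], [0, 0, -1, 1]] [([], []), ([0, 1], []), ([1], []), ([1, 0, 1], []), ([2, 0, 1, 1], [])] (.leaf ⟨[(2, [(1, 1, 1)]), (5, [(0, 1, 1)]), (2, [(2, 1, -1)])], [(0, [[], [], []]), (2, [[10], [], [10, 0, 1]]), (3, [[], [16], [10]]), (1, [[10], [16], [0, 0, 1]])]⟩))
 .nil))))
 (.cons (.re [0, 1, 2, 3, 4] [[1], [0, 1], [0, 0, 1], [0, -1, 0, 1]] [([], []), ([0, 1], []), ([1], []), ([1, 0, 1], []), ([2, 1, 0, 1], [])] (.step 2 [false, false, true, true] 0 (.dead 3 2) (.cons (.step 2 [false, false, true, false] 2 (.dead 3 2) (.cons (.leaf ⟨[(2, [(1, 1, 1)]), (5, [(0, 1, 1)]), (2, [(3, 1, -1)])], [(0, [[], [], []]), (2, [[10], [], [10, 0, 0, 0, 1]]), (1, [[10], [16], [0, 0, 0, 0, 1]]), (3, [[], [16], [10]])]⟩)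
 .nil))
 (.cons (.leaf ⟨[(2, [(1, 1, 1)]), (5, [(0, 1, 1)]), (2, [(2, 1, -1)])], [(0, [[], [], []]), (2, [[10], [], [10, 0, 1]]), (1, [[10], [16], [0, 0, 1]]), (3, [[], [16], [10]])]⟩)
 (.cons (.re [0, 1, 2, 3, 4] [[1], [0, 1], [0, 0, 1], [0, 0, -1, 1]] [([], []), ([0, 1], []), ([1], []), ([1, 0, 1], []), ([2, 1, 1, 1], [])] (.leaf ⟨[(2, [(1, 1, 1)]), (5, [(0, 1, 1)]), (2, [(2, 1, -1)])], [(0, [[], [], []]), (2, [[10], [], [10, 0, 1]]), (1, [[10], [16], [0, 0, 1]]), (3, [[], [16], [10]])]⟩))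
 .nil)))))
 (.cons (.re [0, 1, 2, 3, 4] [[1], [0, 1], [0, -1, 1], [0, 0, 0, 1]] [([], []), ([0, 1], []), ([1], []), ([1, 1, 1], []), ([2, 0, 0, 1], [])] (.leaf ⟨[(2, [(1, 1, 1)]), (5, [(0, 1, 0)])], [(0, [[], []]), (1, [[10], [16]])]⟩))
 (.cons (.re [0, 1, 2, 3, 4] [[1], [0, 1], [0, -1, 1], [0, -1, 0, 1]] [([], []), ([0, 1], []), ([1], []), ([1, 1, 1], []), ([2, 1, 0, 1], [])] (.leaf ⟨[(2, [(1, 1, 1)]), (5, [(0, 1, 0)])], [(0, [[], []]), (1, [[10], [16]])]⟩))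
 (.cons (.step 2 [false, true, true, true] 0 (.dead 1 0) (.cons (.step 2 [false, true, true, false] 1 (.dead 1 0) (.cons (.step 2 [false, true, false, false] 3 (.dead 1 0) (.cons (.leaf ⟨[(5, [(0, 1, 1)]), (2, [(3, 1, 1)]), (2, [(4, 1, -1)])], [(0, [[], [], []]), (2, [[], [10], [10, 0, 0, 0, 2, 1]]), (3, [[16], [0, 0, 4, 2], [10]]), (1, [[16], [10, 0, 4, 2], [0, 0, 0, 0, 2, 1]])]⟩)
 .nil))
 (.cons (.step 2 [false, false, true, false] 3 (.dead 3 2) (.cons (.leaf ⟨[(5, [(0, 1, 1)]), (2, [(3, 1, 1)]), (2, [(4, 1, -1)])], [(0, [[], [], []]), (2, [[], [10], [10, 0, 0, 0, 0, 1]]), (3, [[16], [0, 0, 4, 2], [10]]), (1, [[16], [10, 0, 4, 2], [0, 0, 0, 0, 0, 1]])]⟩)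
 .nil))
 (.cons (.re [0, 1, 2, 3, 4] [[1], [0, 1], [0, -1, 1], [0, 0, 0, 1]] [([], []), ([0, 1], []), ([1], []), ([1, 1, 1], []), ([2, 0, 0, 1], [])] (.leaf ⟨[(5, [(0, 1, 0)]), (2, [(3, 1, 1)])], [(0, [[], []]), (1, [[16], [10, 0, 4, 2]])]⟩))
 .nil))))
 (.cons (.step 2 [false, true, false, true] 1 (.dead 1 0) (.cons (.step 2 [false, true, false, false] 3 (.dead 1 0) (.cons (.leaf ⟨[(5, [(0, 1, 1)]), (2, [(2, 1, 1)]), (2, [(4, 1, -1)])], [(0, [[], [], []]), (2, [[], [10], [10, 0, 0, 0, 2, 1]]), (3, [[16], [0, 4], [10]]), (1, [[16], [10, 4], [0, 0, 0, 0, 2, 1]])]⟩)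
 .nil))
 (.cons (.leaf ⟨[(5, [(0, 1, 1)]), (2, [(2, 1, 1)]), (2, [(3, 1, -1)])], [(0, [[], [], []]), (2, [[], [10], [10, 0, 2, 1]]), (3, [[16], [0, 4], [10]]), (1, [[16], [10, 4], [0, 0, 2, 1]])]⟩)
 (.cons (.re [0, 1, 2, 3, 4] [[1], [0, 1], [0, 0, 1], [0, -1, 0, 1]] [([], []), ([0, 1], []), ([1], []), ([1, 0, 1], []), ([2, 1, 0, 1], [])] (.leaf ⟨[(5, [(0, 1, 1)]), (2, [(2, 1, 1)]), (2, [(3, 1, -1)])], [(0, [[], [], []]), (2, [[], [10], [10, 0, 2, 1]]), (3, [[16], [0, 4], [10]]), (1, [[16], [10, 4], [0, 0, 2, 1]])]⟩))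
 .nil))))
 (.cons (.re [0, 1, 2, 3, 4] [[1], [0, 1], [0, 0, 1], [0, 0, -1, 1]] [([], []), ([0, 1], []), ([1], []), ([1, 0, 1], []), ([2, 0, 1, 1], [])] (.step 2 [false, true, false, true] 1 (.dead 1 0) (.cons (.step 2 [false, true, false, false] 3 (.dead 1 0) (.cons (.leaf ⟨[(5, [(0, 1, 1)]), (2, [(2, 1, 1)]), (2, [(4, 1, -1)])], [(0, [[], [], []]), (2, [[], [10], [10, 0, 0, 0, 2, 1]]), (3, [[16], [0, 4], [10]]), (1, [[16], [10, 4], [0, 0, 0, 0, 2, 1]])]⟩)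
 .nil))
 (.cons (.leaf ⟨[(5, [(0, 1, 1)]), (2, [(2, 1, 1)]), (2, [(3, 1, -1)])], [(0, [[], [], []]), (2, [[], [10], [10, 0, 2, 1]]), (3, [[16], [0, 4], [10]]), (1, [[16], [10, 4], [0, 0, 2, 1]])]⟩)
 (.cons (.re [0, 1, 2, 3, 4] [[1], [0, 1], [0, 0, 1], [0, -1, 0, 1]] [([], []), ([0, 1], []), ([1], []), ([1, 0, 1], []), ([2, 1, 1, 1], [])] (.leaf ⟨[(5, [(0, 1, 1)]), (2, [(2, 1, 1)]), (2, [(3, 1, -1)])], [(0, [[], [], []]), (2, [[], [10], [10, 0, 2, 1]]), (3, [[16], [0, 4], [10]]), (1, [[16], [10, 4], [0, 0, 2, 1]])]⟩))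
 .nil)))))
 (.cons (.step 2 [false, false, true, true] 1 (.dead 3 2) (.cons (.step 2 [false, false, true, false] 3 (.dead 3 2) (.cons (.leaf ⟨[(5, [(0, 1, 1)]), (2, [(2, 1, 1)]), (2, [(4, 1, -1)])], [(0, [[], [], []]), (2, [[], [10], [10, 0, 0, 0, 0, 1]]), (3, [[16], [0, 4], [10]]), (1, [[16], [10, 4], [0, 0, 0, 0, 0, 1]])]⟩)
 .nil))
 (.cons (.leaf ⟨[(5, [(0, 1, 1)]), (2, [(2, 1, 1)]), (2, [(3, 1, -1)])], [(0, [[], [], []]), (2, [[], [10], [10, 0, 0, 1]]), (3, [[16], [0, 4], [10]]), (1, [[16], [10, 4], [0, 0, 0, 1]])]⟩)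
 (.cons (.re [0, 1, 2, 3, 4] [[1], [0, 1], [0, 0, 1], [0, 0, -1, 1]] [([], []), ([0, 1], []), ([1], []), ([1, 0, 1], []), ([2, 0, 1, 1], [])] (.leaf ⟨[(5, [(0, 1, 1)]), (2, [(2, 1, 1)]), (2, [(3, 1, -1)])], [(0, [[], [], []]), (2, [[], [10], [10, 0, 0, 1]]), (3, [[16], [0, 4], [10]]), (1, [[16], [10, 4], [0, 0, 0, 1]])]⟩))
 .nil))))
 (.cons (.re [0, 1, 2, 3, 4] [[1], [0, 1], [0, 0, 1], [0, -1, 0, 1]] [([], []), ([0, 1], []), ([1], []), ([1, 0, 1], []), ([2, 1, 0, 1], [])] (.step 2 [false, false, true, true] 1 (.dead 3 2) (.cons (.step 2 [false, false, true, false] 3 (.dead 3 2) (.cons (.leaf ⟨[(5, [(0, 1, 1)]), (2, [(2, 1, 1)]), (2, [(4, 1, -1)])], [(0, [[], [], []]), (2, [[], [10], [10, 0, 0, 0, 0, 1]]), (3, [[16], [0, 4], [10]]), (1, [[16], [10, 4], [0, 0, 0, 0, 0, 1]])]⟩)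
 .nil))
 (.cons (.leaf ⟨[(5, [(0, 1, 1)]), (2, [(2, 1, 1)]), (2, [(3, 1, -1)])], [(0, [[], [], []]), (2, [[], [10], [10, 0, 0, 1]]), (3, [[16], [0, 4], [10]]), (1, [[16], [10, 4], [0, 0, 0, 1]])]⟩)
 (.cons (.re [0, 1, 2, 3, 4] [[1], [0, 1], [0, 0, 1], [0, 0, -1, 1]] [([], []), ([0, 1], []), ([1], []), ([1, 0, 1], []), ([2, 1, 1, 1], [])] (.leaf ⟨[(5, [(0, 1, 1)]), (2, [(2, 1, 1)]), (2, [(3, 1, -1)])], [(0, [[], [], []]), (2, [[], [10], [10, 0, 0, 1]]), (3, [[16], [0, 4], [10]]), (1, [[16], [10, 4], [0, 0, 0, 1]])]⟩))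
 .nil)))))
 (.cons (.re [0, 1, 2, 3, 4] [[1], [0, 1], [0, -1, 1], [0, 0, 0, 1]] [([], []), ([0, 1], []), ([1], []), ([1, 1, 1], []), ([2, 0, 0, 1], [])] (.leaf ⟨[(5, [(0, 1, 0)]), (2, [(2, 1, 1)])], [(0, [[], []]), (1, [[16], [10, 4]])]⟩))
 (.cons (.re [0, 1, 2, 3, 4] [[1], [0, 1], [0, -1, 1], [0, -1, 0, 1]] [([], []), ([0, 1], []), ([1], []), ([1, 1, 1], []), ([2, 1, 0, 1], [])] (.leaf ⟨[(5, [(0, 1, 0)]), (2, [(2, 1, 1)])], [(0, [[], []]), (1, [[16], [10, 4]])]⟩))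
 .nil))))))))
 (.cons (.re [0, 1, 2, 3, 4] [[1, 0, 0, -1], [0, 1], [0, 0, 1], [0, 0, 0, 1]] [([], []), ([0, 1], []), ([1, 0, 0, 1], []), ([1, 0, 1, 1], []), ([2, 0, 0, 3], [])] (.step 2 [false, true, true, false] 0 (.dead 1 0) (.cons (.step 2 [false, true, false, false] 2 (.dead 1 0) (.cons (.leaf ⟨[(5, [(0, 1, 1)]), (2, [(2, 1, 1)]), (2, [(3, 1, -1)])], [(0, [[], [], []]), (2, [[], [10], [10, 0, 0, 2, 1, 2]]), (3, [[16], [0, 4, 6], [10]]), (1, [[16], [10, 4, 6], [0, 0, 0, 2, 1, 2]])]⟩)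
 .nil))
 (.cons (.step 2 [false, false, true, false] 2 (.dead 3 2) (.cons (.leaf ⟨[(5, [(0, 1, 1)]), (2, [(2, 1, 1)]), (2, [(3, 1, -1)])], [(0, [[], [], []]), (2, [[], [10], [10, 0, 0, 0, 1]]), (3, [[16], [0, 4, 6], [10]]), (1, [[16], [10, 4, 6], [0, 0, 0, 0, 1]])]⟩)
 .nil))
 (.cons (.re [0, 1, 2, 3, 4] [[1], [0, 1], [0, -1, 1], [0, 0, 0, 1]] [([], []), ([0, 1], []), ([1, 0, 0, 1], []), ([1, 1, 1, 1], []), ([2, 0, 0, 3], [])] (.leaf ⟨[(5, [(0, 1, 0)]), (2, [(2, 1, 1)])], [(0, [[], []]), (1, [[16], [10, 4, 6]])]⟩))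
 .nil)))))
 (.cons (.re [0, 1, 2, 3, 4] [[1, 0, -1], [0, 1], [0, 0, 1], [0, 0, 0, 1]] [([], []), ([0, 1], []), ([1, 0, 1], []), ([1, 0, 2], []), ([2, 0, 2, 1], [])] (.step 2 [false, true, false, true] 0 (.dead 1 0) (.cons (.step 2 [false, true, false, false] 2 (.dead 1 0) (.cons (.leaf ⟨[(2, [(1, 1, 1)]), (5, [(0, 1, 1)]), (2, [(3, 1, -1)])], [(0, [[], [], []]), (2, [[10], [], [10, 0, 0, 2, 3]]), (3, [[], [16], [10]]), (1, [[10], [16], [0, 0, 0, 2, 3]])]⟩)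
 .nil))
 (.cons (.leaf ⟨[(2, [(1, 1, 1)]), (5, [(0, 1, 1)]), (2, [(2, 1, -1)])], [(0, [[], [], []]), (2, [[10], [], [10, 2, 3]]), (3, [[], [16], [10]]), (1, [[10], [16], [0, 2, 3]])]⟩)
 (.cons (.re [0, 1, 2, 3, 4] [[1], [0, 1], [0, 0, 1], [0, -1, 0, 1]] [([], []), ([0, 1], []), ([1, 0, 1], []), ([1, 0, 2], []), ([2, 1, 2, 1], [])] (.leaf ⟨[(2, [(1, 1, 1)]), (5, [(0, 1, 1)]), (2, [(2, 1, -1)])], [(0, [[], [], []]), (2, [[10], [], [10, 2, 3]]), (3, [[], [16], [10]]), (1, [[10], [16], [0, 2, 3]])]⟩))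
 .nil)))))
 (.cons (.re [0, 1, 2, 3, 4] [[1, 0, -1], [0, 1], [0, 0, 1], [0, 0, -1, 1]] [([], []), ([0, 1], []), ([1, 0, 1], []), ([1, 0, 2], []), ([2, 0, 3, 1], [])] (.step 2 [false, true, false, true] 0 (.dead 1 0) (.cons (.step 2 [false, true, false, false] 2 (.dead 1 0) (.cons (.leaf ⟨[(2, [(1, 1, 1)]), (5, [(0, 1, 1)]), (2, [(3, 1, -1)])], [(0, [[], [], []]), (2, [[10], [], [10, 0, 0, 2, 3]]), (1, [[10], [16], [0, 0, 0, 2, 3]]), (3, [[], [16], [10]])]⟩)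
 .nil))
 (.cons (.leaf ⟨[(2, [(1, 1, 1)]), (5, [(0, 1, 1)]), (2, [(2, 1, -1)])], [(0, [[], [], []]), (2, [[10], [], [10, 2, 3]]), (1, [[10], [16], [0, 2, 3]]), (3, [[], [16], [10]])]⟩)
 (.cons (.re [0, 1, 2, 3, 4] [[1], [0, 1], [0, 0, 1], [0, -1, 0, 1]] [([], []), ([0, 1], []), ([1, 0, 1], []), ([1, 0, 2], []), ([2, 1, 3, 1], [])] (.leaf ⟨[(2, [(1, 1, 1)]), (5, [(0, 1, 1)]), (2, [(2, 1, -1)])], [(0, [[], [], []]), (2, [[10], [], [10, 2, 3]]), (1, [[10], [16], [0, 2, 3]]), (3, [[], [16], [10]])]⟩))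
 .nil)))))
 (.cons (.re [0, 1, 2, 3, 4] [[1, -1], [0, 1], [0, 0, 1], [0, 0, 0, 1]] [([], []), ([0, 1], []), ([1, 1], []), ([1, 1, 1], []), ([2, 2, 0, 1], [])] (.step 2 [false, false, true, true] 0 (.dead 3 2) (.cons (.step 2 [false, false, true, false] 2 (.dead 3 2) (.cons (.leaf ⟨[(2, [(1, 1, 1)]), (5, [(0, 1, 1)]), (2, [(3, 1, -1)])], [(0, [[], [], []]), (2, [[10], [], [10, 0, 0, 0, 1]]), (3, [[], [16], [10]]), (1, [[10], [16], [0, 0, 0, 0, 1]])]⟩)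
 .nil))
 (.cons (.leaf ⟨[(2, [(1, 1, 1)]), (5, [(0, 1, 1)]), (2, [(2, 1, -1)])], [(0, [[], [], []]), (2, [[10], [], [10, 0, 1]]), (3, [[], [16], [10]]), (1, [[10], [16], [0, 0, 1]])]⟩)
 (.cons (.re [0, 1, 2, 3, 4] [[1], [0, 1], [0, 0, 1], [0, 0, -1, 1]] [([], []), ([0, 1], []), ([1, 1], []), ([1, 1, 1], []), ([2, 2, 1, 1], [])] (.leaf ⟨[(2, [(1, 1, 1)]), (5, [(0, 1, 1)]), (2, [(2, 1, -1)])], [(0, [[], [], []]), (2, [[10], [], [10, 0, 1]]), (3, [[], [16], [10]]), (1, [[10], [16], [0, 0, 1]])]⟩))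
 .nil)))))
 (.cons (.re [0, 1, 2, 3, 4] [[1, -1], [0, 1], [0, 0, 1], [0, -1, 0, 1]] [([], []), ([0, 1], []), ([1, 1], []), ([1, 1, 1], []), ([2, 3, 0, 1], [])] (.step 2 [false, false, true, true] 0 (.dead 3 2) (.cons (.step 2 [false, false, true, false] 2 (.dead 3 2) (.cons (.leaf ⟨[(2, [(1, 1, 1)]), (5, [(0, 1, 1)]), (2, [(3, 1, -1)])], [(0, [[], [], []]), (2, [[10], [], [10, 0, 0, 0, 1]]), (1, [[10], [16], [0, 0, 0, 0, 1]]), (3, [[], [16], [10]])]⟩)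
 .nil))
 (.cons (.leaf ⟨[(2, [(1, 1, 1)]), (5, [(0, 1, 1)]), (2, [(2, 1, -1)])], [(0, [[], [], []]), (2, [[10], [], [10, 0, 1]]), (1, [[10], [16], [0, 0, 1]]), (3, [[], [16], [10]])]⟩)
 (.cons (.re [0, 1, 2, 3, 4] [[1], [0, 1], [0, 0, 1], [0, 0, -1, 1]] [([], []), ([0, 1], []), ([1, 1], []), ([1, 1, 1], []), ([2, 3, 1, 1], [])] (.leaf ⟨[(2, [(1, 1, 1)]), (5, [(0, 1, 1)]), (2, [(2, 1, -1)])], [(0, [[], [], []]), (2, [[10], [], [10, 0, 1]]), (1, [[10], [16], [0, 0, 1]]), (3, [[], [16], [10]])]⟩))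
 .nil)))))
 (.cons (.re [0, 1, 2, 3, 4] [[1, -1], [0, 1], [0, -1, 1], [0, 0, 0, 1]] [([], []), ([0, 1], []), ([1, 1], []), ([1, 2, 1], []), ([2, 2, 0, 1], [])] (.leaf ⟨[(2, [(1, 1, 1)]), (5, [(0, 1, 0)])], [(0, [[], []]), (1, [[10], [16]])]⟩))
 (.cons (.re [0, 1, 2, 3, 4] [[1, -1], [0, 1], [0, -1, 1], [0, -1, 0, 1]] [([], []), ([0, 1], []), ([1, 1], []), ([1, 2, 1], []), ([2, 3, 0, 1], [])] (.leaf ⟨[(2, [(1, 1, 1)]), (5, [(0, 1, 0)])], [(0, [[], []]), (1, [[10], [16]])]⟩))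
 .nil))))))))))))))))

theorem cT221n : chk 20 hT221n tT221n sT221n [] = true := by decide +kernel

end Pool.Agent.Lib.B5
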