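import Pool.Agent.Lib.B5.Types
import Pool.Agent.Lib.B5.T11111
import Pool.Agent.Lib.B5.T2111
import Pool.Agent.Lib.B5.T221n

/-! The three residue types closed by two-adic flag trees. -/

set_option autoImplicit false

namespace Pool.Agent.Lib.B5

theorem ok11111 : TypeOK ![0, 1, 2, -2, -1] :=
  ty1 4 (by norm_num) 2 (-2) (-1)
    (goodTree 20 hT11111 tT11111 sT11111 (by simp [hT11111]) rfl cT11111)

theorem ok2111 : TypeOK ![0, 0, 1, 2, -1] :=
  ty2 4 (by norm_num) 2 (-1) (goodTree 20 hT2111 tT2111 sT2111 (by simp [hT2111]) rfl cT2111)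

theorem ok221n : TypeOK ![0, 0, 1, 1, 2] :=
  ty2 4 (by norm_num) 1 2 (goodTree 20 hT221n tT221n sT221n (by simp [hT221n]) rfl cT221n)

end Pool.Agent.Lib.B5
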