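import Pool.Agent.Lib.B5.Cls
import Pool.Agent.Lib.B5.OKA

/-! Collinear five-point sets: descent along powers of five, and the types closed so far. -/

set_option autoImplicit false

namespace Pool.Agent.Lib.B5

/-- if all sets that are not constant modulo five are covered, then all sets are -/
theorem cov_descent (h : ∀ t : Fin 5 → ℤ, Function.Injective t → ¬ (∀ j, (5 : ℤ) ∣ t j - t 0) →
    Cov (fun j => (t j, 0))) (t : Fin 5 → ℤ) (ht : Function.Injective t) :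
    Cov (fun j => (t j, 0)) := by
  induction hn : (t 1 - t 0).natAbs using Nat.strong_induction_on generalizing t with
  | _ n ih =>
    by_cases h5 : ∀ j, (5 : ℤ) ∣ t j - t 0
    · choose s hs using h5
      have hs' : Function.Injective s := fun i j e => ht (by
        have := hs i; have := hs j; omega)
      have h1 : t 1 ≠ t 0 := fun e => absurd (ht e) (by decide)
      have := ih (s 1 - s 0).natAbs (by have := hs 1; have := hs 0; omega) s hs' rfl
      have h2 := stCOL s (t 0, 0) (5, 0) (by simp) this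
      convert h2 using 2 with j
      have := hs j
      ext
      · simp; omega
      · simp
    · exact h t ht h5

theorem colAll (h0 : TypeOK ![0, 1, 1, -1, -1]) (h1 : TypeOK ![0, 0, 0, 1, 2])
    (h2 : TypeOK ![0, 0, 0, 1, -1]) (h3 : TypeOK ![0, 0, 0, 1, 1]) (h4 : TypeOK ![0, 0, 0, 0, 1])
    (t : Fin 5 → ℤ) (ht : Function.Injective t) : Cov (fun j => (t j, 0)) := by
  refine cov_descent (fun t ht h5 => ?_) t ht
  obtain ⟨k, σ, u, hk, hu, h⟩ := (classify t).resolve_left h5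
  interval_cases k
  · exact cov_of_ty t ht rfl ok11111 σ u hu h
  · exact cov_of_ty t ht rfl ok2111 σ u hu h
  · exact cov_of_ty t ht rfl ok221n σ u hu h
  · exact cov_of_ty t ht rfl h0 σ u hu h
  · exact cov_of_ty t ht rfl h1 σ u hu h
  · exact cov_of_ty t ht rfl h2 σ u hu h
  · exact cov_of_ty t ht rfl h3 σ u hu h
  · exact cov_of_ty t ht rfl h4 σ u hu h

theorem colA (t : Fin 5 → ℤ) (ht : Function.Injective t)
    (h3 : ∀ i j k, i ≠ j → i ≠ k → j ≠ k → ¬ (t i ≡ t j [ZMOD 5] ∧ t i ≡ t k [ZMOD 5]))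
    (hm : ∀ σ : Equiv.Perm (Fin 5), ¬ (t (σ 1) ≡ t (σ 2) [ZMOD 5] ∧ t (σ 3) ≡ t (σ 4) [ZMOD 5] ∧
      t (σ 1) + t (σ 3) ≡ 2 * t (σ 0) [ZMOD 5])) : Cov (fun j => (t j, 0)) := by
  have tri : ∀ σ : Equiv.Perm (Fin 5), (5 : ℤ) ∣ t (σ 1) - t (σ 0) → (5 : ℤ) ∣ t (σ 2) - t (σ 0) →
      False := fun σ a b =>
    h3 (σ 0) (σ 1) (σ 2) (σ.injective.ne (by decide)) (σ.injective.ne (by decide))
      (σ.injective.ne (by decide)) ⟨(Int.modEq_iff_dvd).2 a, (Int.modEq_iff_dvd).2 b⟩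
  rcases classify t with h5 | ⟨k, σ, u, hk, hu, h⟩
  · exact (tri 1 (h5 1) (h5 2)).elim
  interval_cases k
  · exact cov_of_ty t ht rfl ok11111 σ u hu h
  · exact cov_of_ty t ht rfl ok2111 σ u hu h
  · exact cov_of_ty t ht rfl ok221n σ u hu h
  · have e1 : (5 : ℤ) ∣ t (σ 1) - t (σ 0) - 1 * u := h 1
    have e2 : (5 : ℤ) ∣ t (σ 2) - t (σ 0) - 1 * u := h 2
    have e3 : (5 : ℤ) ∣ t (σ 3) - t (σ 0) - (-1) * u := h 3
    have e4 : (5 : ℤ) ∣ t (σ 4) - t (σ 0) - (-1) * u := h 4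
    exact (hm σ ⟨(Int.modEq_iff_dvd).2 (by omega), (Int.modEq_iff_dvd).2 (by omega),
      (Int.modEq_iff_dvd).2 (by omega)⟩).elim
  all_goals
    have e1 : (5 : ℤ) ∣ t (σ 1) - t (σ 0) - 0 * u := h 1
    have e2 : (5 : ℤ) ∣ t (σ 2) - t (σ 0) - 0 * u := h 2
    exact (tri σ (by omega) (by omega)).elim

end Pool.Agent.Lib.B5
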