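import Pool.Agent.Lib.B5.GDefs

/-! The parity gauge gives a row structure. -/

set_option autoImplicit false

namespace Pool.Agent.Lib.B5

namespace VPAR

theorem floor_shift (a : ℝ) (y d m : ℤ) (p : Bool)
    (h : a * (d : ℝ) = (if p then 1 / 2 else 0) + m) :
    (Even ⌊2 * a * ((y + d : ℤ) : ℝ)⌋ ↔ (Even ⌊2 * a * (y : ℝ)⌋ ↔ p = false)) ∧
    (Even ⌊2 * a * ((y - d : ℤ) : ℝ)⌋ ↔ (Even ⌊2 * a * (y : ℝ)⌋ ↔ p = false)) := by
  cases p with
  | false =>
    simp only [Bool.false_eq_true, if_false, zero_add] at h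
    have h1 : 2 * a * ((y + d : ℤ) : ℝ) = 2 * a * (y : ℝ) + ((2 * m : ℤ) : ℝ) := by
      push_cast; linear_combination 2 * h
    have h2 : 2 * a * ((y - d : ℤ) : ℝ) = 2 * a * (y : ℝ) - ((2 * m : ℤ) : ℝ) := by
      push_cast; linear_combination (-2) * h
    rw [h1, h2, Int.floor_add_intCast, Int.floor_sub_intCast]
    simp [Int.even_add, Int.even_sub]
  | true =>
    simp only [if_true] at h
    have h1 : 2 * a * ((y + d : ℤ) : ℝ) = 2 * a * (y : ℝ) + ((2 * m + 1 : ℤ) : ℝ) := by
      push_cast; linear_combination 2 * h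
    have h2 : 2 * a * ((y - d : ℤ) : ℝ) = 2 * a * (y : ℝ) - ((2 * m + 1 : ℤ) : ℝ) := by
      push_cast; linear_combination (-2) * h
    rw [h1, h2, Int.floor_add_intCast, Int.floor_sub_intCast]
    simp only [Int.even_iff, Bool.true_eq_false, iff_false]
    constructor <;> omega

theorem neg_idx (B : ℤ → ℝ) (hB : ∀ i, B (i + 5) = B i + 1) (i : Fin 5) :
    ∃ m : ℤ, B (-((i : ℕ) : ℤ)) = B (((-i : Fin 5) : ℕ) : ℤ) + m := by
  have h : ∀ k : ℤ, B k = B (k + 5) + ((-1 : ℤ) : ℝ) := fun k => by
    rw [hB]; push_cast; ring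
  fin_cases i
  · exact ⟨0, by simp⟩
  · exact ⟨-1, h _⟩
  · exact ⟨-1, h _⟩
  · exact ⟨-1, h _⟩
  · exact ⟨-1, h _⟩

end VPAR

theorem stVPAR : St_VPAR := by
  intro t lam par a β c B σ ha hB hφ hgap
  refine ⟨fun s ρ => if s then Even ⌊2 * a * ((ρ + t 0 : ℤ) : ℝ)⌋
      else ¬ Even ⌊2 * a * ((ρ - t 0 : ℤ) : ℝ)⌋,
    fun s ρ => if s then -β * ((ρ + t 0 : ℤ) : ℝ) else c - β * ((ρ - t 0 : ℤ) : ℝ), fun y => ?_⟩
  have hP : ∀ (s : Bool) (j : Fin 5),
      (if s then Even ⌊2 * a * (((if s then y - t j else y + t j) + t 0 : ℤ) : ℝ)⌋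
        else ¬ Even ⌊2 * a * (((if s then y - t j else y + t j) - t 0 : ℤ) : ℝ)⌋) ↔
      (Even ⌊2 * a * (y : ℝ)⌋ ↔ s = !par j) := by
    intro s j
    obtain ⟨m, hm⟩ := ha j
    obtain ⟨h1, h2⟩ := VPAR.floor_shift a y (t j - t 0) m (par j) hm
    cases s with
    | true =>
      simp only [if_true]
      rw [show y - t j + t 0 = y - (t j - t 0) by ring, h2]
      cases par j <;> simp
    | false =>
      simp only [Bool.false_eq_true, if_false]
      rw [show y + t j - t 0 = y + (t j - t 0) by ring, h1]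
      cases par j <;> simp
  by_cases hy : Even ⌊2 * a * (y : ℝ)⌋
  · refine ⟨fun i => (!par (σ i), σ i), fun k => B k - β * y, ?_, ?_, ?_, ?_, ?_⟩
    · intro i j hij
      exact σ.injective (congrArg Prod.snd hij)
    · intro s j
      refine (hP s j).trans ?_
      constructor
      · intro h
        refine ⟨σ.symm j, ?_⟩
        simp [h.1 hy]
      · rintro ⟨i, hi⟩
        obtain ⟨h1, h2⟩ := Prod.mk.inj hi
        subst h2
        simp [hy, h1]
    · intro k
      simp only [hB]; ring
    · intro i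
      obtain ⟨m, hm⟩ := hφ i
      refine ⟨m, ?_⟩
      cases hp : par (σ i) with
      | true =>
        simp only [hp, if_true] at hm
        simp only [hp, Bool.not_true, Bool.false_eq_true, if_false]
        rw [hm]; push_cast; ring
      | false =>
        simp only [hp, Bool.false_eq_true, if_false] at hm
        simp only [hp, Bool.not_false, if_true]
        rw [hm]; push_cast; ring
    · intro k h0 h5 i
      have := hgap k h0 h5 i
      linarith
  · refine ⟨fun i => (par (σ (-i)), σ (-i)), fun k => c - B (-k) - β * y, ?_, ?_, ?_, ?_, ?_⟩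
    · intro i j hij
      exact neg_injective (σ.injective (congrArg Prod.snd hij))
    · intro s j
      refine (hP s j).trans ?_
      constructor
      · intro h
        refine ⟨-σ.symm j, ?_⟩
        have : s = par j := by
          cases s <;> cases hj : par j <;> simp_all
        simp [this]
      · rintro ⟨i, hi⟩
        obtain ⟨h1, h2⟩ := Prod.mk.inj hi
        subst h2
        simp [hy, ← h1]
    · intro k
      have := hB (-(k + 5))
      rw [show -(k + 5) + 5 = -k by ring] at this
      simp only [this]; ring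
    · intro i
      obtain ⟨m, hm⟩ := hφ (-i)
      obtain ⟨m', hm'⟩ := VPAR.neg_idx B hB i
      refine ⟨-(m + m'), ?_⟩
      cases hp : par (σ (-i)) with
      | true =>
        simp only [hp, if_true] at hm
        simp only [hp, if_true]
        rw [hm', hm]; push_cast; ring
      | false =>
        simp only [hp, Bool.false_eq_true, if_false] at hm
        simp only [hp, Bool.false_eq_true, if_false]
        rw [hm', hm]; push_cast; ring
    · intro k h0 h5 i
      have := hgap k h0 h5 (-(i + k))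
      rw [show -(i + (k : ℤ)) + k = -i by ring] at this
      linarith

end Pool.Agent.Lib.B5
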