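import Pool.Agent.Lib.B5.VDefs
import Pool.Agent.Lib.B5.VPAR

/-! Six-colourings in the parity gauge give a row structure. -/

set_option autoImplicit false

namespace Pool.Agent.Lib.B5

namespace VCOL

theorem miss (c : Fin 5 → ZMod 6) (hc : Function.Injective c) :
    ∃ μ : ZMod 6, ∀ i : Fin 5, ∃ j, c j = μ + 1 + ((i : ℕ) : ZMod 6) := by
  have hcard : (Finset.univ.image c).card = 5 := by
    rw [Finset.card_image_of_injective _ hc]; simp
  obtain ⟨μ, hμ⟩ : ∃ μ : ZMod 6, μ ∉ Finset.univ.image c := by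
    by_contra h
    push Not at h
    have : (Finset.univ.image c) = Finset.univ := Finset.eq_univ_of_forall h
    rw [this] at hcard
    simp at hcard
  have hsub : Finset.univ.image c ⊆ Finset.univ.erase μ := by
    intro x hx
    refine Finset.mem_erase.2 ⟨?_, Finset.mem_univ _⟩
    rintro rfl
    exact hμ hx
  have heq : Finset.univ.image c = Finset.univ.erase μ := by
    refine Finset.eq_of_subset_of_card_le hsub ?_
    rw [hcard, Finset.card_erase_of_mem (Finset.mem_univ _)]
    simp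
  refine ⟨μ, fun i => ?_⟩
  have hne : ∀ (ν : ZMod 6) (k : Fin 5), ν + 1 + ((k : ℕ) : ZMod 6) ≠ ν := by decide
  have : μ + 1 + ((i : ℕ) : ZMod 6) ∈ Finset.univ.image c := by
    rw [heq]
    exact Finset.mem_erase.2 ⟨hne μ i, Finset.mem_univ _⟩
  obtain ⟨j, _, hj⟩ := Finset.mem_image.1 this
  exact ⟨j, hj⟩

theorem lam_le (k : ℕ) (h0 : 0 < k) (h5 : k < 5) : lam6 k = (k : ℝ) / 6 := by
  unfold lam6 lamF
  interval_cases k <;> simp <;> norm_num

theorem sorted (c : Fin 5 → ZMod 6) (hc : Function.Injective c) :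
    ∃ (σ : Fin 5 → Fin 5) (B : ℤ → ℝ), Function.Bijective σ ∧ (∀ a, B (a + 5) = B a + 1) ∧
      (∀ i : Fin 5, ∃ m : ℤ, B (i : ℕ) = ((c (σ i)).val : ℝ) / 6 + m) ∧
      ∀ k : ℕ, 0 < k → k < 5 → ∀ a, lam6 k ≤ B (a + k) - B a := by
  obtain ⟨μ, hμ⟩ := miss c hc
  choose σ hσ using hμ
  have hinj : ∀ (ν : ZMod 6) (i j : Fin 5),
      ν + 1 + ((i : ℕ) : ZMod 6) = ν + 1 + ((j : ℕ) : ZMod 6) → i = j := by decide
  have hval : ∀ (ν : ZMod 6) (i : Fin 5), (ν + 1 + ((i : ℕ) : ZMod 6)).val = ν.val + 1 + i ∨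
      (ν + 1 + ((i : ℕ) : ZMod 6)).val + 6 = ν.val + 1 + i := by decide
  have hσi : Function.Injective σ := by
    intro i j hij
    apply hinj μ
    rw [← hσ i, ← hσ j, hij]
  refine ⟨σ, fun a => (((μ.val : ℤ) + 1 + a + a / 5 : ℤ) : ℝ) / 6,
    Finite.injective_iff_bijective.1 hσi, ?_, ?_, ?_⟩
  · intro a
    have : (a + 5) / 5 = a / 5 + 1 := by omega
    simp only [this]
    push_cast
    ring
  · intro i
    have h0 : ((i : ℕ) : ℤ) / 5 = 0 := by have := i.2; omega
    simp only [h0]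
    rw [hσ i]
    rcases hval μ i with h | h
    · refine ⟨0, ?_⟩
      rw [h]; push_cast; ring
    · refine ⟨1, ?_⟩
      have h' : (((μ + 1 + ((i : ℕ) : ZMod 6)).val : ℕ) : ℝ) + 6 = (μ.val : ℝ) + 1 + ((i : ℕ) : ℝ) := by
        exact_mod_cast h
      push_cast
      linarith
  · intro k h0 h5 a
    rw [lam_le k h0 h5]
    have : a / 5 ≤ (a + k) / 5 := by omega
    have h' : ((a / 5 : ℤ) : ℝ) ≤ (((a + k) / 5 : ℤ) : ℝ) := by exact_mod_cast this
    push_cast
    linarith

end VCOL

theorem stVCOL : St_VCOL := by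
  intro t a par F G ha h1 h2
  refine ⟨fun s ρ => if s then Even ⌊2 * a * ((ρ + t 0 : ℤ) : ℝ)⌋
      else ¬ Even ⌊2 * a * ((ρ - t 0 : ℤ) : ℝ)⌋,
    fun s ρ => if s then ((F ρ).val : ℝ) / 6 else ((G ρ).val : ℝ) / 6, fun y => ?_⟩
  have hP : ∀ (s : Bool) (j : Fin 5),
      (if s then Even ⌊2 * a * (((if s then y - t j else y + t j) + t 0 : ℤ) : ℝ)⌋
        else ¬ Even ⌊2 * a * (((if s then y - t j else y + t j) - t 0 : ℤ) : ℝ)⌋) ↔
      (Even ⌊2 * a * (y : ℝ)⌋ ↔ s = !par j) := by
    intro s j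
    obtain ⟨m, hm⟩ := ha j
    obtain ⟨k1, k2⟩ := VPAR.floor_shift a y (t j - t 0) m (par j) hm
    cases s with
    | true =>
      simp only [if_true]
      rw [show y - t j + t 0 = y - (t j - t 0) by ring, k2]
      cases par j <;> simp
    | false =>
      simp only [Bool.false_eq_true, if_false]
      rw [show y + t j - t 0 = y + (t j - t 0) by ring, k1]
      cases par j <;> simp
  by_cases hy : Even ⌊2 * a * (y : ℝ)⌋
  · obtain ⟨σ, B, hσ, hB, hφ, hgap⟩ := VCOL.sorted _ (h1 y)
    refine ⟨fun i => (!par (σ i), σ i), B, ?_, ?_, hB, ?_, hgap⟩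
    · intro i j hij
      exact hσ.1 (congrArg Prod.snd hij)
    · intro s j
      refine (hP s j).trans ?_
      constructor
      · intro h
        obtain ⟨i, hi⟩ := hσ.2 j
        refine ⟨i, ?_⟩
        simp [h.1 hy, hi]
      · rintro ⟨i, hi⟩
        obtain ⟨k1, k2⟩ := Prod.mk.inj hi
        subst k2
        simp [hy, k1]
    · intro i
      obtain ⟨m, hm⟩ := hφ i
      refine ⟨m, ?_⟩
      cases hp : par (σ i) with
      | true =>
        simp only [hp, if_true] at hm
        simp only [hp, Bool.not_true, Bool.false_eq_true, if_false]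
        exact hm
      | false =>
        simp only [hp, Bool.false_eq_true, if_false] at hm
        simp only [hp, Bool.not_false, if_true]
        exact hm
  · obtain ⟨σ, B, hσ, hB, hφ, hgap⟩ := VCOL.sorted _ (h2 y)
    refine ⟨fun i => (par (σ i), σ i), B, ?_, ?_, hB, ?_, hgap⟩
    · intro i j hij
      exact hσ.1 (congrArg Prod.snd hij)
    · intro s j
      refine (hP s j).trans ?_
      constructor
      · intro h
        obtain ⟨i, hi⟩ := hσ.2 j
        refine ⟨i, ?_⟩
        have : s = par j := by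
          cases s <;> cases hj : par j <;> simp_all
        simp [this, hi]
      · rintro ⟨i, hi⟩
        obtain ⟨k1, k2⟩ := Prod.mk.inj hi
        subst k2
        simp [hy, ← k1]
    · intro i
      obtain ⟨m, hm⟩ := hφ i
      refine ⟨m, ?_⟩
      cases hp : par (σ i) with
      | true =>
        simp only [hp, if_true] at hm
        simp only [hp, if_true]
        exact hm
      | false =>
        simp only [hp, Bool.false_eq_true, if_false] at hm
        simp only [hp, Bool.false_eq_true, if_false]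
        exact hm

theorem stVPERM : St_VPERM := by
  intro t lam σ ⟨P, ω, h⟩
  refine ⟨P, ω, fun y => ?_⟩
  obtain ⟨e, B, he, hP, hB, hφ, hgap⟩ := h y
  refine ⟨fun i => ((e i).1, σ (e i).2), B, ?_, ?_, hB, hφ, hgap⟩
  · intro i j hij
    obtain ⟨k1, k2⟩ := Prod.mk.inj hij
    exact he (Prod.ext k1 (σ.injective k2))
  · intro s j
    have := hP s (σ.symm j)
    simp only [Equiv.apply_symm_apply] at this
    refine this.trans ?_
    constructor
    · rintro ⟨i, hi⟩
      exact ⟨i, by simp [hi]⟩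
    · rintro ⟨i, hi⟩
      obtain ⟨k1, k2⟩ := Prod.mk.inj hi
      refine ⟨i, Prod.ext k1 ?_⟩
      simp [← k2]

end Pool.Agent.Lib.B5
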