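import Pool.Agent.Lib.B5.VDefs

/-! Six-colourings for the planar families of the parity type 3-2. -/

set_option autoImplicit false

namespace Pool.Agent.Lib.B5

namespace VPLx

/-- colour with a binary and a ternary digit -/
def col (p c : ℤ) : ZMod 6 := ((3 * p + 2 * c : ℤ) : ZMod 6)

lemma col_ne {p c p' c' : ℤ} (h : ¬ (6 : ℤ) ∣ (3 * p' + 2 * c') - (3 * p + 2 * c)) :
    col p c ≠ col p' c' := by
  intro h1
  exact h ((ZMod.intCast_eq_intCast_iff_dvd_sub _ _ 6).1 h1)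

/-- integer part of a multiple -/
def fl (θ : ℚ) (z : ℤ) : ℤ := ⌊θ * z⌋

lemma fl_add (θ : ℚ) (u v n : ℤ) (h : θ * ((u - v : ℤ) : ℚ) = n) : fl θ u = fl θ v + n := by
  unfold fl
  have : θ * (u : ℚ) = θ * v + n := by
    rw [← h]; push_cast; ring
  rw [this, Int.floor_add_intCast]

lemma fl_add' (θ : ℚ) (u v n : ℤ) (r : ℚ) (h : θ * ((u - v : ℤ) : ℚ) = n + r) (h0 : 0 ≤ r)
    (h1 : r ≤ 1) : fl θ u = fl θ v + n ∨ fl θ u = fl θ v + n + 1 := by
  unfold fl
  have : θ * (u : ℚ) = (θ * v + r) + n := by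
    have h' : θ * ((u : ℚ) - v) = n + r := by rw [← h]; push_cast; ring
    linarith
  rw [this, Int.floor_add_intCast]
  have a1 : ⌊θ * (v : ℚ)⌋ ≤ ⌊θ * (v : ℚ) + r⌋ := Int.floor_le_floor (by linarith)
  have a2 : ⌊θ * (v : ℚ) + r⌋ ≤ ⌊θ * (v : ℚ) + 1⌋ := Int.floor_le_floor (by linarith)
  rw [Int.floor_add_one] at a2
  omega

lemma split (x y : ℤ) (hx : x ≠ 0) :
    ∃ g a b : ℤ, 0 < g ∧ x = g * a ∧ y = g * b ∧ IsCoprime a b := by
  have hg : 0 < Int.gcd x y := Int.gcd_pos_of_ne_zero_left y hx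
  obtain ⟨a, b, hab, ha, hb⟩ := Int.exists_gcd_one hg
  refine ⟨(Int.gcd x y : ℤ), a, b, by exact_mod_cast hg, by rw [mul_comm]; exact ha,
    by rw [mul_comm]; exact hb, Int.isCoprime_iff_gcd_eq_one.2 hab⟩

lemma third (d1 d2 lo : ℤ) (h : d1 ≠ 0) :
    (∃ (θ r : ℚ) (i j : ℤ), θ * (d1 : ℚ) = ((1 + 3 * i : ℤ) : ℚ) ∧
      θ * (d2 : ℚ) = ((3 * j + lo : ℤ) : ℚ) + r ∧ 0 ≤ r ∧ r ≤ 1) ∨
    ∃ n : ℤ, d2 = d1 * (3 * n + lo + 2) := by
  obtain ⟨g, a, b, hg, ha, hb, u, v, huv⟩ := split d1 d2 h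
  have ha0 : a ≠ 0 := by rintro rfl; exact h (by rw [ha, mul_zero])
  have key : ∀ N : ℤ, (3 : ℤ) ∣ N - b → 0 ≤ (N : ℚ) / a - lo → (N : ℚ) / a - lo ≤ 1 →
      ∃ (θ r : ℚ) (i j : ℤ), θ * (d1 : ℚ) = ((1 + 3 * i : ℤ) : ℚ) ∧
      θ * (d2 : ℚ) = ((3 * j + lo : ℤ) : ℚ) + r ∧ 0 ≤ r ∧ r ≤ 1 := by
    rintro N ⟨n, hn⟩ h0 h1
    have hq : (a : ℚ) ≠ 0 := by exact_mod_cast ha0
    have hgq : (g : ℚ) ≠ 0 := by exact_mod_cast hg.ne'
    refine ⟨((1 + 3 * (n * v) : ℤ) : ℚ) / (d1 : ℚ), (N : ℚ) / a - lo, n * v, -(n * u), ?_, ?_,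
      h0, h1⟩
    · have : (d1 : ℚ) ≠ 0 := by exact_mod_cast h
      field_simp
    · have e1 : (N : ℚ) = b + 3 * n := by
        have : N = b + 3 * n := by linarith
        exact_mod_cast this
      have e2 : (u : ℚ) * a + v * b = 1 := by exact_mod_cast huv
      rw [ha, hb, e1]
      push_cast
      field_simp
      linear_combination (3 * (n : ℚ)) * e2
  have rng : ∀ e : ℤ, 0 ≤ e → e ≤ |a| → ∀ N : ℤ, N = lo * a + e * Int.sign a →
      0 ≤ (N : ℚ) / a - lo ∧ (N : ℚ) / a - lo ≤ 1 := by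
    intro e e0 e1 N hN
    have hq : (a : ℚ) ≠ 0 := by exact_mod_cast ha0
    rcases lt_or_gt_of_ne ha0 with hneg | hpos
    · rw [Int.sign_eq_neg_one_of_neg hneg] at hN
      rw [abs_of_neg hneg] at e1
      have hq' : (0 : ℚ) < -a := by exact_mod_cast (by omega : (0 : ℤ) < -a)
      have : (N : ℚ) / a - lo = e / (-a) := by
        rw [hN]; push_cast; field_simp; ring
      rw [this]
      refine ⟨div_nonneg (by exact_mod_cast e0) hq'.le, (div_le_one hq').2 ?_⟩
      exact_mod_cast e1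
    · rw [Int.sign_eq_one_of_pos hpos] at hN
      rw [abs_of_pos hpos] at e1
      have hq' : (0 : ℚ) < a := by exact_mod_cast hpos
      have : (N : ℚ) / a - lo = e / a := by
        rw [hN]; push_cast; field_simp; ring
      rw [this]
      refine ⟨div_nonneg (by exact_mod_cast e0) hq'.le, (div_le_one hq').2 ?_⟩
      exact_mod_cast e1
  have hs : Int.sign a = 1 ∨ Int.sign a = -1 := by
    rcases lt_or_gt_of_ne ha0 with hneg | hpos
    · exact Or.inr (Int.sign_eq_neg_one_of_neg hneg)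
    · exact Or.inl (Int.sign_eq_one_of_pos hpos)
  have h1a : 1 ≤ |a| := Int.one_le_abs ha0
  by_cases c0 : (3 : ℤ) ∣ lo * a + 0 * Int.sign a - b
  · obtain ⟨r0, r1⟩ := rng 0 le_rfl (by omega) _ rfl
    exact Or.inl (key _ c0 r0 r1)
  by_cases c1 : (3 : ℤ) ∣ lo * a + 1 * Int.sign a - b
  · obtain ⟨r0, r1⟩ := rng 1 (by omega) h1a _ rfl
    exact Or.inl (key _ c1 r0 r1)
  have c2 : (3 : ℤ) ∣ lo * a + 2 * Int.sign a - b := by
    generalize lo * a = w at *
    rcases hs with hs | hs <;> rw [hs] at c0 c1 ⊢ <;> omega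
  by_cases h2 : 2 ≤ |a|
  · obtain ⟨r0, r1⟩ := rng 2 (by omega) h2 _ rfl
    exact Or.inl (key _ c2 r0 r1)
  right
  obtain ⟨n, hn⟩ := c2
  have : a = 1 ∨ a = -1 := by
    rcases abs_cases a with h3 | h3 <;> omega
  rcases this with h3 | h3
  · subst h3
    refine ⟨-n, ?_⟩
    rw [ha, hb]
    have : b = 3 * (-n) + lo + 2 := by
      rw [Int.sign_one] at hn; omega
    rw [this]; ring
  · subst h3
    refine ⟨n, ?_⟩
    rw [ha, hb]
    have : b = -(3 * n + lo + 2) := by
      rw [Int.sign_neg, Int.sign_one] at hn; omega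
    rw [this]; ring

/-- the colouring conditions -/
def Cond (x y : ℤ) (f H : ℤ → ZMod 6) : Prop :=
  (∀ u v, (u - v = x ∨ u - v = y ∨ u - v = x - y ∨ u - v = y - x ∨ u - v = x + y) →
    f u ≠ f v ∧ H u ≠ H v) ∧
  ∀ u v, (u - v = 0 ∨ u - v = x ∨ u - v = y ∨ u - v = x + y ∨ u - v = 2 * x + y ∨
    u - v = x + 2 * y) → H u ≠ f v

lemma Cond.symm {x y : ℤ} {f H : ℤ → ZMod 6} (h : Cond x y f H) : Cond y x f H :=
  ⟨fun u v huv => h.1 u v (by omega), fun u v huv => h.2 u v (by omega)⟩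

lemma inj5 (v0 v1 v2 v3 v4 : ZMod 6) (h01 : v0 ≠ v1) (h02 : v0 ≠ v2) (h03 : v0 ≠ v3)
    (h04 : v0 ≠ v4) (h12 : v1 ≠ v2) (h13 : v1 ≠ v3) (h14 : v1 ≠ v4) (h23 : v2 ≠ v3)
    (h24 : v2 ≠ v4) (h34 : v3 ≠ v4) :
    Function.Injective (![v0, v1, v2, v3, v4] : Fin 5 → ZMod 6) := by
  intro i j hij
  fin_cases i <;> fin_cases j <;> first | rfl | (exfalso; simp_all)

lemma core (h : St_VCOL) (t : Fin 5 → ℤ) (a : ℝ) (hP : Par a t p32)
    (hd : t 4 - t 3 = t 1 + t 2 - 2 * t 0) (f H : ℤ → ZMod 6)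
    (hc : Cond (t 1 - t 0) (t 2 - t 0) f H) : VStr t lam6 := by
  refine h t a p32 (fun ρ => f (ρ + t 0)) (fun w => H (w - t 3)) hP (fun y => ?_) (fun y => ?_)
  · have e : (fun j => if p32 j then H (y + t j - t 3) else f (y - t j + t 0)) =
        ![f (y - t 0 + t 0), f (y - t 1 + t 0), f (y - t 2 + t 0), H (y + t 3 - t 3),
          H (y + t 4 - t 3)] := by
      funext j
      fin_cases j <;> rfl
    rw [e]
    exact inj5 _ _ _ _ _ (hc.1 _ _ (by omega)).1 (hc.1 _ _ (by omega)).1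
      (hc.2 _ _ (by omega)).symm (hc.2 _ _ (by omega)).symm (hc.1 _ _ (by omega)).1
      (hc.2 _ _ (by omega)).symm (hc.2 _ _ (by omega)).symm (hc.2 _ _ (by omega)).symm
      (hc.2 _ _ (by omega)).symm (hc.1 _ _ (by omega)).2.symm
  · have e : (fun j => if p32 j then f (y - t j + t 0) else H (y + t j - t 3)) =
        ![H (y + t 0 - t 3), H (y + t 1 - t 3), H (y + t 2 - t 3), f (y - t 3 + t 0),
          f (y - t 4 + t 0)] := by
      funext j
      fin_cases j <;> rfl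
    rw [e]
    exact inj5 _ _ _ _ _ (hc.1 _ _ (by omega)).2.symm (hc.1 _ _ (by omega)).2.symm
      (hc.2 _ _ (by omega)) (hc.2 _ _ (by omega)) (hc.1 _ _ (by omega)).2
      (hc.2 _ _ (by omega)) (hc.2 _ _ (by omega)) (hc.2 _ _ (by omega))
      (hc.2 _ _ (by omega)) (hc.1 _ _ (by omega)).1

lemma bit (g a b : ℤ) (hg : 0 < g) (u v m n : ℤ) (h : u - v = m * (g * a) + n * (g * b)) :
    fl ((g : ℚ)⁻¹) u = fl ((g : ℚ)⁻¹) v + (m * a + n * b) := by
  apply fl_add
  have hgq : (g : ℚ) ≠ 0 := by exact_mod_cast hg.ne'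
  rw [h]; push_cast; field_simp

lemma mult (θ : ℚ) (s k : ℤ) (hs : θ * (s : ℚ) = (k : ℚ)) (u v n : ℤ) (h : u - v = n * s) :
    fl θ u = fl θ v + n * k := by
  apply fl_add
  rw [h]; push_cast; rw [← hs]; ring

lemma case1 (g a b : ℤ) (hg : 0 < g) (ha : a % 2 = 1) (hb : b % 2 = 0) (hb0 : b ≠ 0) :
    (∃ f H, Cond (g * a) (g * b) f H) ∨
      ∃ g' k : ℤ, g * b = 2 * g' ∧ g * a = g' * (6 * k + 1) := by
  rcases third (g * b) (-2 * (g * a)) 0 (mul_ne_zero hg.ne' hb0) with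
    ⟨θ, r, i, j, h1, h2, r0, r1⟩ | ⟨n, hn⟩
  · left
    refine ⟨fun z => col (fl ((g : ℚ)⁻¹) z) (fl θ z),
      fun z => col (fl ((g : ℚ)⁻¹) z) (fl θ z + 1), fun u v huv => ?_, fun u v huv => ?_⟩
    · rcases huv with e | e | e | e | e
      · have := bit g a b hg u v 1 0 (by omega)
        exact ⟨col_ne (by omega), col_ne (by omega)⟩
      · have := mult θ _ _ h1 u v 1 (by omega)
        exact ⟨col_ne (by omega), col_ne (by omega)⟩
      · have := bit g a b hg u v 1 (-1) (by omega)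
        exact ⟨col_ne (by omega), col_ne (by omega)⟩
      · have := bit g a b hg u v (-1) 1 (by omega)
        exact ⟨col_ne (by omega), col_ne (by omega)⟩
      · have := bit g a b hg u v 1 1 (by omega)
        exact ⟨col_ne (by omega), col_ne (by omega)⟩
    · rcases huv with e | e | e | e | e | e
      · have := mult θ _ _ h1 u v 0 (by omega)
        exact col_ne (by omega)
      · have := bit g a b hg u v 1 0 (by omega)
        exact col_ne (by omega)
      · have := mult θ _ _ h1 u v 1 (by omega)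
        exact col_ne (by omega)
      · have := bit g a b hg u v 1 1 (by omega)
        exact col_ne (by omega)
      · have a1 := mult θ _ _ h1 (v + g * b) v 1 (by omega)
        have a2 := fl_add' θ (v + g * b) u (3 * j + 0) r
          (by rw [← h2, show v + g * b - u = -2 * (g * a) by omega]) r0 r1
        exact col_ne (by omega)
      · have := bit g a b hg u v 1 2 (by omega)
        exact col_ne (by omega)
  · right
    obtain ⟨m, hm⟩ : ∃ m, b = 2 * m := ⟨b / 2, by omega⟩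
    subst hm
    have h3 : a = -(m * (3 * n + 2)) := by
      have : g * (2 * (a + m * (3 * n + 2))) = 0 := by linear_combination -hn
      rcases mul_eq_zero.1 this with h4 | h4
      · omega
      · omega
    have hn2 : n % 2 = 1 := by
      by_contra h4
      obtain ⟨p, hp⟩ : ∃ p, n = 2 * p := ⟨n / 2, by omega⟩
      have : a = 2 * (-(m * (3 * p + 1))) := by rw [h3, hp]; ring
      omega
    obtain ⟨k, hk⟩ : ∃ k, n = -(2 * k + 1) := ⟨-((n + 1) / 2), by omega⟩
    refine ⟨g * m, k, by ring, ?_⟩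
    rw [h3, hk]; ring

lemma case3 (x y N : ℤ) (hd : x + y ≠ 0) (hxy : x - y ≠ 0) (hN : x - y = (x + y) * (3 * N)) :
    ∃ f H, Cond x y f H := by
  have hdq : ((x + y : ℤ) : ℚ) ≠ 0 := by exact_mod_cast hd
  have hq : ((x - y : ℤ) : ℚ) ≠ 0 := by exact_mod_cast hxy
  have hNq : (x : ℚ) - y = (x + y) * (3 * N) := by exact_mod_cast hN
  have h1 : (2 / ((x + y : ℤ) : ℚ)) * (x : ℚ) = ((1 + 3 * N : ℤ) : ℚ) := by
    field_simp
    push_cast
    linear_combination hNq
  have h2 : (2 / ((x + y : ℤ) : ℚ)) * (y : ℚ) = ((1 - 3 * N : ℤ) : ℚ) := by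
    field_simp
    push_cast
    linear_combination -hNq
  have h3 : (((x - y : ℤ) : ℚ))⁻¹ * ((x - y : ℤ) : ℚ) = ((1 : ℤ) : ℚ) := by
    rw [inv_mul_cancel₀ hq]; simp
  generalize (2 / ((x + y : ℤ) : ℚ)) = θ at h1 h2
  generalize (((x - y : ℤ) : ℚ))⁻¹ = η at h3
  have T : ∀ u v m n : ℤ, u - v = m * x + n * y →
      fl θ u = fl θ v + (m * (1 + 3 * N) + n * (1 - 3 * N)) := by
    intro u v m n h
    apply fl_add
    rw [h]; push_cast at h1 h2 ⊢
    linear_combination (m : ℚ) * h1 + (n : ℚ) * h2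
  refine ⟨fun z => col (fl η z) (fl θ z), fun z => col (fl η (z - (x + y)) + 1) (fl θ z - 2),
    fun u v huv => ?_, fun u v huv => ?_⟩
  · rcases huv with e | e | e | e | e
    · have := T u v 1 0 (by omega)
      exact ⟨col_ne (by omega), col_ne (by omega)⟩
    · have := T u v 0 1 (by omega)
      exact ⟨col_ne (by omega), col_ne (by omega)⟩
    · have a1 := mult η _ _ h3 u v 1 (by omega)
      have a2 := mult η _ _ h3 (u - (x + y)) (v - (x + y)) 1 (by omega)
      exact ⟨col_ne (by omega), col_ne (by omega)⟩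
    · have a1 := mult η _ _ h3 u v (-1) (by omega)
      have a2 := mult η _ _ h3 (u - (x + y)) (v - (x + y)) (-1) (by omega)
      exact ⟨col_ne (by omega), col_ne (by omega)⟩
    · have := T u v 1 1 (by omega)
      exact ⟨col_ne (by omega), col_ne (by omega)⟩
  · rcases huv with e | e | e | e | e | e
    · have := T u v 0 0 (by omega)
      exact col_ne (by omega)
    · have := T u v 1 0 (by omega)
      exact col_ne (by omega)
    · have := T u v 0 1 (by omega)
      exact col_ne (by omega)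
    · have := mult η _ _ h3 (u - (x + y)) v 0 (by omega)
      exact col_ne (by omega)
    · have := T u v 2 1 (by omega)
      exact col_ne (by omega)
    · have := T u v 1 2 (by omega)
      exact col_ne (by omega)

lemma case2 (g a b : ℤ) (hg : 0 < g) (ha : a % 2 = 1) (hb : b % 2 = 1)
    (hd : g * a + g * b ≠ 0) (hxy : g * a - g * b ≠ 0) : ∃ f H, Cond (g * a) (g * b) f H := by
  rcases third (g * a + g * b) (g * a - g * b) 1 hd with
    ⟨θ, r, i, j, h1, h2, r0, r1⟩ | ⟨n, hn⟩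
  · refine ⟨fun z => col (fl ((g : ℚ)⁻¹) z) (fl θ z),
      fun z => col (fl ((g : ℚ)⁻¹) z) (fl θ z + 1), fun u v huv => ?_, fun u v huv => ?_⟩
    · rcases huv with e | e | e | e | e
      · have := bit g a b hg u v 1 0 (by omega)
        exact ⟨col_ne (by omega), col_ne (by omega)⟩
      · have := bit g a b hg u v 0 1 (by omega)
        exact ⟨col_ne (by omega), col_ne (by omega)⟩
      · have := fl_add' θ u v (3 * j + 1) r (by rw [← h2, e]) r0 r1
        exact ⟨col_ne (by omega), col_ne (by omega)⟩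
      · have := fl_add' θ v u (3 * j + 1) r
          (by rw [← h2, show v - u = g * a - g * b by omega]) r0 r1
        exact ⟨col_ne (by omega), col_ne (by omega)⟩
      · have := mult θ _ _ h1 u v 1 (by omega)
        exact ⟨col_ne (by omega), col_ne (by omega)⟩
    · rcases huv with e | e | e | e | e | e
      · have := mult θ _ _ h1 u v 0 (by omega)
        exact col_ne (by omega)
      · have := bit g a b hg u v 1 0 (by omega)
        exact col_ne (by omega)
      · have := bit g a b hg u v 0 1 (by omega)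
        exact col_ne (by omega)
      · have := mult θ _ _ h1 u v 1 (by omega)
        exact col_ne (by omega)
      · have := bit g a b hg u v 2 1 (by omega)
        exact col_ne (by omega)
      · have := bit g a b hg u v 1 2 (by omega)
        exact col_ne (by omega)
  · exact case3 _ _ (n + 1) hd hxy (by rw [hn]; ring)

end VPLx

theorem stVPL (h : St_VCOL) (_hp : St_VPERM) : St_VPL := by
  intro t a ht hP hd
  have h10 : t 1 - t 0 ≠ 0 := fun e => absurd (ht (show t 1 = t 0 by omega)) (by decide)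
  have h20 : t 2 - t 0 ≠ 0 := fun e => absurd (ht (show t 2 = t 0 by omega)) (by decide)
  have h12 : t 1 - t 2 ≠ 0 := fun e => absurd (ht (show t 1 = t 2 by omega)) (by decide)
  have h43 : t 4 - t 3 ≠ 0 := fun e => absurd (ht (show t 4 = t 3 by omega)) (by decide)
  obtain ⟨g, p, q, hg, hp, hq, u, v, huv⟩ := VPLx.split (t 1 - t 0) (t 2 - t 0) h10
  have hp0 : p ≠ 0 := by rintro rfl; exact h10 (by rw [hp, mul_zero])
  have hq0 : q ≠ 0 := by rintro rfl; exact h20 (by rw [hq, mul_zero])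
  rcases Int.emod_two_eq_zero_or_one p with p2 | p2 <;>
    rcases Int.emod_two_eq_zero_or_one q with q2 | q2
  · exfalso
    obtain ⟨p', rfl⟩ : ∃ m, p = 2 * m := ⟨p / 2, by omega⟩
    obtain ⟨q', rfl⟩ : ∃ m, q = 2 * m := ⟨q / 2, by omega⟩
    have : 2 * (u * p' + v * q') = 1 := by linear_combination huv
    omega
  · rcases VPLx.case1 g q p hg q2 p2 hp0 with ⟨f, H, hc⟩ | ⟨g', k, e1, e2⟩
    · exact Or.inl (VPLx.core h t a hP hd f H (by rw [hp, hq]; exact hc.symm))
    · exact Or.inr ⟨g', k, Or.inl ⟨by rw [hp, e1], by rw [hq, e2]⟩⟩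
  · rcases VPLx.case1 g p q hg p2 q2 hq0 with ⟨f, H, hc⟩ | ⟨g', k, e1, e2⟩
    · exact Or.inl (VPLx.core h t a hP hd f H (by rw [hp, hq]; exact hc))
    · exact Or.inr ⟨g', k, Or.inr ⟨by rw [hq, e1], by rw [hp, e2]⟩⟩
  · obtain ⟨f, H, hc⟩ := VPLx.case2 g p q hg p2 q2 (by omega) (by omega)
    exact Or.inl (VPLx.core h t a hP hd f H (by rw [hp, hq]; exact hc))

end Pool.Agent.Lib.B5
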