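import Pool.Agent.Lib.B5.DDefs
import Pool.Agent.Lib.B5.VCOL
import Pool.Agent.Lib.B5.VPL

/-! A six-colouring in a second gauge for the exceptional family of parity type 3-2. -/

set_option autoImplicit false

namespace Pool.Agent.Lib.B5

namespace VE4x

open VPLx

/-- gauge-free form of the six-colouring lemma -/
theorem free (t : Fin 5 → ℤ) (P : Bool → ℤ → Prop) (C : Bool → ℤ → ZMod 6)
    (h : ∀ y : ℤ, ∃ e : Fin 5 → Bool × Fin 5,
      (∀ s j, P s (if s then y - t j else y + t j) ↔ ∃ i, e i = (s, j)) ∧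
      Function.Injective fun i =>
        C (e i).1 (if (e i).1 then y - t (e i).2 else y + t (e i).2)) :
    VStr t lam6 := by
  refine ⟨P, fun s ρ => ((C s ρ).val : ℝ) / 6, fun y => ?_⟩
  obtain ⟨e, hP, hc⟩ := h y
  obtain ⟨σ, B, hσ, hB, hφ, hgap⟩ := VCOL.sorted _ hc
  refine ⟨fun i => e (σ i), B, ?_, ?_, hB, hφ, hgap⟩
  · intro i j hij
    apply hσ.1
    apply hc
    have hij' : e (σ i) = e (σ j) := hij
    simp only [hij']
  · intro s j
    refine (hP s j).trans ?_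
    constructor
    · rintro ⟨i, hi⟩
      obtain ⟨i', rfl⟩ := hσ.2 i
      exact ⟨i', hi⟩
    · rintro ⟨i, hi⟩
      exact ⟨σ i, hi⟩

theorem all10 (Q : Bool → Fin 5 → Prop) (a0 : Q true 0) (a1 : Q true 1) (a2 : Q true 2)
    (a3 : Q true 3) (a4 : Q true 4) (b0 : Q false 0) (b1 : Q false 1) (b2 : Q false 2)
    (b3 : Q false 3) (b4 : Q false 4) : ∀ s j, Q s j := by
  intro s j
  cases s <;> fin_cases j <;> assumption

theorem yes {A B : Prop} (a : A) (b : B) : A ↔ B := ⟨fun _ => b, fun _ => a⟩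

theorem no {A B : Prop} (a : ¬ A) (b : ¬ B) : A ↔ B :=
  ⟨fun h => absurd h a, fun h => absurd h b⟩

theorem colp {p c p' c' : ℤ} (h : (p - p') % 2 = 1) : col p c ≠ col p' c' :=
  col_ne (by omega)

theorem colc {p c p' c' : ℤ} (h : (c - c') % 3 ≠ 0) : col p c ≠ col p' c' :=
  col_ne (by omega)

/-- the combinatorics of one row -/
theorem pure (β π γ : Bool → Fin 5 → ℤ)
    (b1 : (β true 1 - β true 0) % 2 = 0) (b2 : (β true 2 - β true 0) % 2 = 1)
    (b3 : (β true 4 - β true 3) % 2 = 1) (b4 : (β false 0 - β true 0) % 2 = 1)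
    (b5 : (β false 1 - β true 0) % 2 = 1) (b6 : (β false 2 - β true 0) % 2 = 0)
    (b7 : (β false 4 - β false 3) % 2 = 1)
    (p1 : (π true 1 - π true 0) % 2 = 0) (p2 : (π true 2 - π true 0) % 2 = 0)
    (p3 : (π true 3 - π true 0) % 2 = 1) (p4 : (π true 4 - π true 0) % 2 = 1)
    (p5 : (π false 0 - π true 0) % 2 = 0) (p6 : (π false 1 - π true 0) % 2 = 0)
    (p7 : (π false 2 - π true 0) % 2 = 0) (p8 : (π false 3 - π true 0) % 2 = 1)
    (p9 : (π false 4 - π true 0) % 2 = 1)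
    (c1 : (γ true 1 - γ true 0) % 3 = 1) (c2 : (γ true 2 - γ true 0) % 3 = 2)
    (c3 : (γ true 4 - γ true 3) % 3 = 0) (c4 : (γ false 0 - γ true 0) % 3 = 1)
    (c5 : (γ false 1 - γ true 0) % 3 = 0) (c6 : (γ false 2 - γ true 0) % 3 = 2)
    (c7 : (γ false 4 - γ false 3) % 3 = 0) (c8 : (γ false 3 - γ true 3) % 3 ≠ 0) :
    ∃ e : Fin 5 → Bool × Fin 5, (∀ s j, β s j % 2 = 0 ↔ ∃ i, e i = (s, j)) ∧
      Function.Injective fun i => col (π (e i).1 (e i).2) (γ (e i).1 (e i).2) := by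
  have key : ∀ e0 e1 e2 e3 e4 : Bool × Fin 5,
      (∀ s j, β s j % 2 = 0 ↔ ∃ i, (![e0, e1, e2, e3, e4] : Fin 5 → Bool × Fin 5) i = (s, j)) →
      Function.Injective (![col (π e0.1 e0.2) (γ e0.1 e0.2), col (π e1.1 e1.2) (γ e1.1 e1.2),
        col (π e2.1 e2.2) (γ e2.1 e2.2), col (π e3.1 e3.2) (γ e3.1 e3.2),
        col (π e4.1 e4.2) (γ e4.1 e4.2)] : Fin 5 → ZMod 6) →
      ∃ e : Fin 5 → Bool × Fin 5, (∀ s j, β s j % 2 = 0 ↔ ∃ i, e i = (s, j)) ∧
      Function.Injective fun i => col (π (e i).1 (e i).2) (γ (e i).1 (e i).2) := by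
    intro e0 e1 e2 e3 e4 h1 h2
    refine ⟨![e0, e1, e2, e3, e4], h1, ?_⟩
    have : (fun i => col (π ((![e0, e1, e2, e3, e4] : Fin 5 → Bool × Fin 5) i).1
        ((![e0, e1, e2, e3, e4] : Fin 5 → Bool × Fin 5) i).2)
        (γ ((![e0, e1, e2, e3, e4] : Fin 5 → Bool × Fin 5) i).1
        ((![e0, e1, e2, e3, e4] : Fin 5 → Bool × Fin 5) i).2)) =
        ![col (π e0.1 e0.2) (γ e0.1 e0.2), col (π e1.1 e1.2) (γ e1.1 e1.2),
        col (π e2.1 e2.2) (γ e2.1 e2.2), col (π e3.1 e3.2) (γ e3.1 e3.2),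
        col (π e4.1 e4.2) (γ e4.1 e4.2)] := by
      funext i
      fin_cases i <;> rfl
    rw [this]
    exact h2
  rcases Int.emod_two_eq_zero_or_one (β true 0) with h0 | h0 <;>
    rcases Int.emod_two_eq_zero_or_one (β true 3) with h3 | h3 <;>
    rcases Int.emod_two_eq_zero_or_one (β false 3) with h4 | h4
  · refine key (true, 0) (true, 1) (false, 2) (true, 3) (false, 3) ?_ ?_
    · clear p1 p2 p3 p4 p5 p6 p7 p8 p9 c1 c2 c3 c4 c5 c6 c7 c8 key
      apply all10 <;> first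
        | exact yes (by omega) (by decide)
        | exact no (by omega) (by decide)
    · clear b1 b2 b3 b4 b5 b6 b7 h0 h3 h4 key
      dsimp only
      refine inj5 _ _ _ _ _ (colc ?_) (colc ?_) (colp ?_) (colp ?_) (colc ?_) (colp ?_) (colp ?_)
        (colp ?_) (colp ?_) (colc ?_) <;> omega
  · refine key (true, 0) (true, 1) (false, 2) (true, 3) (false, 4) ?_ ?_
    · clear p1 p2 p3 p4 p5 p6 p7 p8 p9 c1 c2 c3 c4 c5 c6 c7 c8 key
      apply all10 <;> first
        | exact yes (by omega) (by decide)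
        | exact no (by omega) (by decide)
    · clear b1 b2 b3 b4 b5 b6 b7 h0 h3 h4 key
      dsimp only
      refine inj5 _ _ _ _ _ (colc ?_) (colc ?_) (colp ?_) (colp ?_) (colc ?_) (colp ?_) (colp ?_)
        (colp ?_) (colp ?_) (colc ?_) <;> omega
  · refine key (true, 0) (true, 1) (false, 2) (true, 4) (false, 3) ?_ ?_
    · clear p1 p2 p3 p4 p5 p6 p7 p8 p9 c1 c2 c3 c4 c5 c6 c7 c8 key
      apply all10 <;> first
        | exact yes (by omega) (by decide)
        | exact no (by omega) (by decide)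
    · clear b1 b2 b3 b4 b5 b6 b7 h0 h3 h4 key
      dsimp only
      refine inj5 _ _ _ _ _ (colc ?_) (colc ?_) (colp ?_) (colp ?_) (colc ?_) (colp ?_) (colp ?_)
        (colp ?_) (colp ?_) (colc ?_) <;> omega
  · refine key (true, 0) (true, 1) (false, 2) (true, 4) (false, 4) ?_ ?_
    · clear p1 p2 p3 p4 p5 p6 p7 p8 p9 c1 c2 c3 c4 c5 c6 c7 c8 key
      apply all10 <;> first
        | exact yes (by omega) (by decide)
        | exact no (by omega) (by decide)
    · clear b1 b2 b3 b4 b5 b6 b7 h0 h3 h4 key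
      dsimp only
      refine inj5 _ _ _ _ _ (colc ?_) (colc ?_) (colp ?_) (colp ?_) (colc ?_) (colp ?_) (colp ?_)
        (colp ?_) (colp ?_) (colc ?_) <;> omega
  · refine key (true, 2) (false, 0) (false, 1) (true, 3) (false, 3) ?_ ?_
    · clear p1 p2 p3 p4 p5 p6 p7 p8 p9 c1 c2 c3 c4 c5 c6 c7 c8 key
      apply all10 <;> first
        | exact yes (by omega) (by decide)
        | exact no (by omega) (by decide)
    · clear b1 b2 b3 b4 b5 b6 b7 h0 h3 h4 key
      dsimp only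
      refine inj5 _ _ _ _ _ (colc ?_) (colc ?_) (colp ?_) (colp ?_) (colc ?_) (colp ?_) (colp ?_)
        (colp ?_) (colp ?_) (colc ?_) <;> omega
  · refine key (true, 2) (false, 0) (false, 1) (true, 3) (false, 4) ?_ ?_
    · clear p1 p2 p3 p4 p5 p6 p7 p8 p9 c1 c2 c3 c4 c5 c6 c7 c8 key
      apply all10 <;> first
        | exact yes (by omega) (by decide)
        | exact no (by omega) (by decide)
    · clear b1 b2 b3 b4 b5 b6 b7 h0 h3 h4 key
      dsimp only
      refine inj5 _ _ _ _ _ (colc ?_) (colc ?_) (colp ?_) (colp ?_) (colc ?_) (colp ?_) (colp ?_)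
        (colp ?_) (colp ?_) (colc ?_) <;> omega
  · refine key (true, 2) (false, 0) (false, 1) (true, 4) (false, 3) ?_ ?_
    · clear p1 p2 p3 p4 p5 p6 p7 p8 p9 c1 c2 c3 c4 c5 c6 c7 c8 key
      apply all10 <;> first
        | exact yes (by omega) (by decide)
        | exact no (by omega) (by decide)
    · clear b1 b2 b3 b4 b5 b6 b7 h0 h3 h4 key
      dsimp only
      refine inj5 _ _ _ _ _ (colc ?_) (colc ?_) (colp ?_) (colp ?_) (colc ?_) (colp ?_) (colp ?_)
        (colp ?_) (colp ?_) (colc ?_) <;> omega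
  · refine key (true, 2) (false, 0) (false, 1) (true, 4) (false, 4) ?_ ?_
    · clear p1 p2 p3 p4 p5 p6 p7 p8 p9 c1 c2 c3 c4 c5 c6 c7 c8 key
      apply all10 <;> first
        | exact yes (by omega) (by decide)
        | exact no (by omega) (by decide)
    · clear b1 b2 b3 b4 b5 b6 b7 h0 h3 h4 key
      dsimp only
      refine inj5 _ _ _ _ _ (colc ?_) (colc ?_) (colp ?_) (colp ?_) (colc ?_) (colp ?_) (colp ?_)
        (colp ?_) (colp ?_) (colc ?_) <;> omega

theorem flr (a : ℝ) (u v n : ℤ) (h : 2 * a * ((u - v : ℤ) : ℝ) = n) :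
    ⌊2 * a * (u : ℝ)⌋ = ⌊2 * a * (v : ℝ)⌋ + n := by
  have : 2 * a * (u : ℝ) = 2 * a * v + n := by
    rw [← h]; push_cast; ring
  rw [this, Int.floor_add_intCast]

end VE4x

open VPLx in
theorem stVE4 : St_VE4 := by
  intro s a g k hs hP h1 h2 h4
  have hg : g ≠ 0 := by
    rintro rfl
    exact absurd (hs (show s 1 = s 0 by omega)) (by decide)
  obtain ⟨m1, hm1⟩ := hP 1
  obtain ⟨m2, hm2⟩ := hP 2
  obtain ⟨m3, hm3⟩ := hP 3
  have q1 : p32 1 = false := rfl
  have q2 : p32 2 = false := rfl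
  have q3 : p32 3 = true := rfl
  simp only [q1, q2, q3, Bool.false_eq_true, if_false, if_true, zero_add] at hm1 hm2 hm3
  obtain ⟨M, hM⟩ : ∃ M : ℤ, a * (g : ℝ) = M := by
    refine ⟨m2 - 3 * k * m1, ?_⟩
    rw [h1] at hm1
    rw [h2] at hm2
    push_cast at hm1 hm2 ⊢
    linear_combination hm2 - 3 * (k : ℝ) * hm1
  obtain ⟨th, hth⟩ : ∃ th, th = s 3 - s 0 := ⟨_, rfl⟩
  rw [← hth] at hm3 ⊢
  rcases third g (2 * th) 0 hg with ⟨θ, r, i, j, t1, t2, r0, r1⟩ | ⟨n, hn⟩
  · left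
    have hgq : (g : ℚ) ≠ 0 := by exact_mod_cast hg
    have hb : ((g : ℚ)⁻¹) * (g : ℚ) = ((1 : ℤ) : ℚ) := by
      rw [inv_mul_cancel₀ hgq]; simp
    generalize ((g : ℚ)⁻¹) = η at hb
    have Bm : ∀ u v n : ℤ, u - v = n * g → fl η u = fl η v + n := fun u v n h => by
      have := mult η g 1 hb u v n h
      omega
    have Cm : ∀ u v n : ℤ, u - v = n * g → (fl θ u - fl θ v - n) % 3 = 0 := fun u v n h => by
      have := mult θ g _ t1 u v n h
      have e : n * (1 + 3 * i) = n + 3 * (n * i) := by ring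
      omega
    have Pm : ∀ u v n l : ℤ, u - v = n * g + l * th →
        (⌊2 * a * (u : ℝ)⌋ - ⌊2 * a * (v : ℝ)⌋ - l) % 2 = 0 := fun u v n l h => by
      have := VE4x.flr a u v (2 * (n * M + l * m3) + l) (by
        rw [h]; push_cast
        linear_combination 2 * (n : ℝ) * hM + 2 * (l : ℝ) * hm3)
      omega
    refine VE4x.free s
      (fun σ ρ => (if σ then fl η (ρ + s 0) else fl η (ρ - s 0) + 1) % 2 = 0)
      (fun σ ρ => col (if σ then ⌊2 * a * ((ρ + s 0 : ℤ) : ℝ)⌋ else ⌊2 * a * ((ρ - s 0 : ℤ) : ℝ)⌋)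
        (if σ then fl θ (ρ + s 0) else fl θ (ρ - s 0) + 1)) (fun y => ?_)
    have e2 : g * (6 * k + 1) = (6 * k + 1) * g := by ring
    have e4 : g * (6 * k + 3) = (6 * k + 3) * g := by ring
    have n2 : -(6 * k + 1) * g = -((6 * k + 1) * g) := by ring
    have n4 : -(6 * k + 3) * g = -((6 * k + 3) * g) := by ring
    have w2 : (6 * k + 3) * g = (6 * k + 1) * g + 2 * g := by ring
    refine VE4x.pure
      (fun σ j => if σ then fl η ((if σ then y - s j else y + s j) + s 0)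
        else fl η ((if σ then y - s j else y + s j) - s 0) + 1)
      (fun σ j => if σ then ⌊2 * a * (((if σ then y - s j else y + s j) + s 0 : ℤ) : ℝ)⌋
        else ⌊2 * a * (((if σ then y - s j else y + s j) - s 0 : ℤ) : ℝ)⌋)
      (fun σ j => if σ then fl θ ((if σ then y - s j else y + s j) + s 0)
        else fl θ ((if σ then y - s j else y + s j) - s 0) + 1)
      ?_ ?_ ?_ ?_ ?_ ?_ ?_ ?_ ?_ ?_ ?_ ?_ ?_ ?_ ?_ ?_ ?_ ?_ ?_ ?_ ?_ ?_ ?_ ?_
    all_goals simp only [Bool.false_eq_true, if_false, if_true]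
    · have := Bm (y - s 1 + s 0) (y - s 0 + s 0) (-2) (by omega); omega
    · have := Bm (y - s 2 + s 0) (y - s 0 + s 0) (-(6 * k + 1)) (by omega); omega
    · have := Bm (y - s 4 + s 0) (y - s 3 + s 0) (-(6 * k + 3)) (by omega); omega
    · have := Bm (y + s 0 - s 0) (y - s 0 + s 0) 0 (by omega); omega
    · have := Bm (y + s 1 - s 0) (y - s 0 + s 0) 2 (by omega); omega
    · have := Bm (y + s 2 - s 0) (y - s 0 + s 0) (6 * k + 1) (by omega); omega
    · have := Bm (y + s 4 - s 0) (y + s 3 - s 0) (6 * k + 3) (by omega); omega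
    · have := Pm (y - s 1 + s 0) (y - s 0 + s 0) (-2) 0 (by omega); omega
    · have := Pm (y - s 2 + s 0) (y - s 0 + s 0) (-(6 * k + 1)) 0 (by omega); omega
    · have := Pm (y - s 3 + s 0) (y - s 0 + s 0) 0 (-1) (by omega); omega
    · have := Pm (y - s 4 + s 0) (y - s 0 + s 0) (-(6 * k + 3)) (-1) (by omega); omega
    · have := Pm (y + s 0 - s 0) (y - s 0 + s 0) 0 0 (by omega); omega
    · have := Pm (y + s 1 - s 0) (y - s 0 + s 0) 2 0 (by omega); omega
    · have := Pm (y + s 2 - s 0) (y - s 0 + s 0) (6 * k + 1) 0 (by omega); omega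
    · have := Pm (y + s 3 - s 0) (y - s 0 + s 0) 0 1 (by omega); omega
    · have := Pm (y + s 4 - s 0) (y - s 0 + s 0) (6 * k + 3) 1 (by omega); omega
    · have := Cm (y - s 1 + s 0) (y - s 0 + s 0) (-2) (by omega); omega
    · have := Cm (y - s 2 + s 0) (y - s 0 + s 0) (-(6 * k + 1)) (by omega); omega
    · have := Cm (y - s 4 + s 0) (y - s 3 + s 0) (-(6 * k + 3)) (by omega); omega
    · have := Cm (y + s 0 - s 0) (y - s 0 + s 0) 0 (by omega); omega
    · have := Cm (y + s 1 - s 0) (y - s 0 + s 0) 2 (by omega); omega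
    · have := Cm (y + s 2 - s 0) (y - s 0 + s 0) (6 * k + 1) (by omega); omega
    · have := Cm (y + s 4 - s 0) (y + s 3 - s 0) (6 * k + 3) (by omega); omega
    · have := fl_add' θ (y + s 3 - s 0) (y - s 3 + s 0) (3 * j + 0) r
        (by rw [← t2, show y + s 3 - s 0 - (y - s 3 + s 0) = 2 * th by omega]) r0 r1
      omega
  · right
    have hodd : M * (3 * n + 0 + 2) = 2 * m3 + 1 := by
      have hn' : (2 : ℝ) * th = g * (3 * n + 0 + 2) := by exact_mod_cast hn
      have : (M : ℝ) * (3 * n + 0 + 2) = 2 * m3 + 1 := by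
        rw [← hM]
        linear_combination 2 * hm3 - a * hn'
      exact_mod_cast this
    have hn2 : n % 2 = 1 := by
      by_contra h5
      obtain ⟨p, hp⟩ : ∃ p, n = 2 * p := ⟨n / 2, by omega⟩
      have : M * (3 * n + 0 + 2) = 2 * (M * (3 * p + 1)) := by rw [hp]; ring
      omega
    obtain ⟨j, hj⟩ : ∃ j, n = 2 * j + 1 := ⟨n / 2, by omega⟩
    have hg2 : g % 2 = 0 := by
      have : g * (3 * n + 0 + 2) = 2 * (g * (3 * j + 2)) + g := by rw [hj]; ring
      omega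
    obtain ⟨h, hh⟩ : ∃ h, g = 2 * h := ⟨g / 2, by omega⟩
    refine ⟨h, j, hh, ?_⟩
    have : g * (3 * n + 0 + 2) = 2 * (h * (6 * j + 5)) := by rw [hj, hh]; ring
    omega

end Pool.Agent.Lib.B5
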