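import Pool.Agent.Lib.B5.V311
import Pool.Agent.Lib.B5.VE4

/-! Collinear five-point sets: the types closed so far, with the type 3-1-1 without midpoint. -/

set_option autoImplicit false

namespace Pool.Agent.Lib.B5

theorem ok311n : TypeOK ![0, 0, 0, 1, 2] := ok311n_of stVE4

theorem colB (t : Fin 5 → ℤ) (ht : Function.Injective t)
    (h1 : ∀ σ : Equiv.Perm (Fin 5), ¬ (t (σ 1) ≡ t (σ 2) [ZMOD 5] ∧ t (σ 3) ≡ t (σ 4) [ZMOD 5] ∧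
      t (σ 1) + t (σ 3) ≡ 2 * t (σ 0) [ZMOD 5]))
    (h2 : ∀ σ : Equiv.Perm (Fin 5), t (σ 0) ≡ t (σ 1) [ZMOD 5] → t (σ 0) ≡ t (σ 2) [ZMOD 5] →
      ¬ t (σ 0) ≡ t (σ 3) [ZMOD 5] ∧ ¬ t (σ 3) ≡ t (σ 4) [ZMOD 5] ∧
        ¬ t (σ 3) + t (σ 4) ≡ 2 * t (σ 0) [ZMOD 5]) : Cov (fun j => (t j, 0)) := by
  simp only [Int.modEq_iff_dvd] at h1 h2
  rcases classify t with h5 | ⟨k, σ, u, hk, hu, h⟩
  · exact ((h2 1 (h5 1) (h5 2)).1 (h5 3)).elim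
  interval_cases k
  · exact cov_of_ty t ht rfl ok11111 σ u hu h
  · exact cov_of_ty t ht rfl ok2111 σ u hu h
  · exact cov_of_ty t ht rfl ok221n σ u hu h
  · have e1 : (5 : ℤ) ∣ t (σ 1) - t (σ 0) - 1 * u := h 1
    have e2 : (5 : ℤ) ∣ t (σ 2) - t (σ 0) - 1 * u := h 2
    have e3 : (5 : ℤ) ∣ t (σ 3) - t (σ 0) - (-1) * u := h 3
    have e4 : (5 : ℤ) ∣ t (σ 4) - t (σ 0) - (-1) * u := h 4
    exact (h1 σ ⟨by omega, by omega, by omega⟩).elim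
  · exact cov_of_ty t ht rfl ok311n σ u hu h
  · have e1 : (5 : ℤ) ∣ t (σ 1) - t (σ 0) - 0 * u := h 1
    have e2 : (5 : ℤ) ∣ t (σ 2) - t (σ 0) - 0 * u := h 2
    have e3 : (5 : ℤ) ∣ t (σ 3) - t (σ 0) - 1 * u := h 3
    have e4 : (5 : ℤ) ∣ t (σ 4) - t (σ 0) - (-1) * u := h 4
    exact ((h2 σ (by omega) (by omega)).2.2 (by omega)).elim
  · have e1 : (5 : ℤ) ∣ t (σ 1) - t (σ 0) - 0 * u := h 1
    have e2 : (5 : ℤ) ∣ t (σ 2) - t (σ 0) - 0 * u := h 2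
    have e3 : (5 : ℤ) ∣ t (σ 3) - t (σ 0) - 1 * u := h 3
    have e4 : (5 : ℤ) ∣ t (σ 4) - t (σ 0) - 1 * u := h 4
    exact ((h2 σ (by omega) (by omega)).2.1 (by omega)).elim
  · have e1 : (5 : ℤ) ∣ t (σ 1) - t (σ 0) - 0 * u := h 1
    have e2 : (5 : ℤ) ∣ t (σ 2) - t (σ 0) - 0 * u := h 2
    have e3 : (5 : ℤ) ∣ t (σ 3) - t (σ 0) - 0 * u := h 3
    exact ((h2 σ (by omega) (by omega)).1 (by omega)).elim

end Pool.Agent.Lib.B5
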