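import Pool.Agent.Lib.B5.VDefs

/-! Decoupling with six colours: six packings of the line with holes, and six tilings of a sun. -/

set_option autoImplicit false

namespace Pool.Agent.Lib.B5

/-- position of the copy of sign `s` whose point `j` lies at `y` -/
def pos (t : Fin 5 → ℤ) (s : Bool) (j : Fin 5) (y : ℤ) : ℤ := if s then y - t j else y + t j

/-- the copies placed at `W` cover `A` exactly once and nothing else -/
def Tile1 (t : Fin 5 → ℤ) (W : Bool → ℤ → Prop) (A : ℤ → Prop) : Prop :=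
  ∀ y, (A y → ∃! x : Bool × Fin 5, W x.1 (pos t x.1 x.2 y)) ∧
    (¬ A y → ∀ s j, ¬ W s (pos t s j y))

def Hol (t : Fin 5 → ℤ) : Prop :=
  ∃ η : ℤ → ZMod 6, ∀ c, ∃ W, Tile1 t W (fun y => η y ≠ c)

def Sun (t : Fin 5 → ℤ) : Prop :=
  ∃ χ : ℤ → Option (ZMod 6), ∀ c, ∃ W, Tile1 t W (fun x => χ x = none ∨ χ x = some c)

/-- general decoupling: rows of `A` and columns of its complement are tiled -/
def St_DEC : Prop := ∀ (t : Fin 5 → ℤ) (A : ℤ → ℤ → Prop),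
  (∀ y, ∃ W, Tile1 t W (fun x => A x y)) → (∀ x, ∃ W, Tile1 t W (fun y => ¬ A x y)) →
  Cov (fun j => (t j, 0))

def St_DEC6 : Prop := ∀ t : Fin 5 → ℤ, Sun t → Hol t → Cov (fun j => (t j, 0))

def St_S311 : Prop := ∀ (t : Fin 5 → ℤ) (u : ℤ), Function.Injective t → ¬ (5 : ℤ) ∣ u →
  (∀ j, (5 : ℤ) ∣ t j - t 0 - (![0, 0, 0, 1, 2] : Fin 5 → ℤ) j * u) → Sun t

def St_HOL60 : Prop := ∀ t : Fin 5 → ℤ,
  (∀ j, (60 : ℤ) ∣ t j - (![26, 11, 41, 0, 4] : Fin 5 → ℤ) j) → Hol t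

def St_VE4 : Prop := ∀ (s : Fin 5 → ℤ) (a : ℝ) (g k : ℤ), Function.Injective s → Par a s p32 →
  s 1 - s 0 = 2 * g → s 2 - s 0 = g * (6 * k + 1) → s 4 - s 3 = g * (6 * k + 3) →
  VStr s lam6 ∨ ∃ h j : ℤ, g = 2 * h ∧ s 3 - s 0 = h * (6 * j + 5)

end Pool.Agent.Lib.B5
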