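import Pool.Agent.Lib.B5.VDefs

/-! The column structure of the type 3-1-1. -/

set_option autoImplicit false

namespace Pool.Agent.Lib.B5

namespace H311

/-- the six points over a column carry six different colours -/
def Col (s : Fin 3 → ℤ) : Prop := ∃ Φ : Bool → ℤ → ZMod 2 × ZMod 3, ∀ x : ℤ,
  Function.Injective fun p : Bool × Fin 3 => Φ p.1 (if p.1 then x - s p.2 else x + s p.2)

theorem col_perm (s : Fin 3 → ℤ) (σ : Equiv.Perm (Fin 3)) (h : Col (fun j => s (σ j))) :
    Col s := by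
  obtain ⟨Φ, hΦ⟩ := h
  refine ⟨Φ, fun x p q hpq => ?_⟩
  have h1 := hΦ x (a₁ := (p.1, σ.symm p.2)) (a₂ := (q.1, σ.symm q.2)) (by simpa using hpq)
  obtain ⟨h2, h3⟩ := Prod.mk.inj h1
  exact Prod.ext h2 (σ.symm.injective h3)

def tab (p : ZMod 2) (A G : ZMod 3) (q : Bool × Fin 3) : ZMod 2 × ZMod 3 :=
  if q.1 then ![(p, A), (p, A - 1), (p + 1, G)] q.2
  else ![(p + 1, G + 1), (p + 1, G + 2), (p, A + 1)] q.2

theorem tab_inj : ∀ (p : ZMod 2) (A G : ZMod 3), Function.Injective (tab p A G) := by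
  unfold Function.Injective
  decide

theorem col_fun (r δ ρ : ℤ) (π : ℤ → ZMod 2) (F : ℤ → ZMod 3) (h1 : ∀ z, π (z + δ) = π z)
    (h2 : ∀ z, π (z + ρ) = π z + 1) (h3 : ∀ z, F (z + δ) = F z + 1) :
    Col ![r, r + δ, r + ρ] := by
  refine ⟨fun s u => if s then (π (u + r), F (u + r)) else (π (u - r) + 1, F (u - r - ρ) + 1),
    fun x => ?_⟩
  have a1 : π (x - δ) = π x := by rw [← h1 (x - δ), sub_add_cancel]
  have a2 : π (x - ρ) = π x + 1 := by
    have h := h2 (x - ρ)
    rw [sub_add_cancel] at h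
    rw [h]
    generalize π (x - ρ) = y
    revert y
    decide
  have a3 : F (x - δ) = F x - 1 := by
    have h := h3 (x - δ)
    rw [sub_add_cancel] at h
    rw [h, add_sub_cancel_right]
  have a4 : F (x + δ - ρ) + 1 = F (x - ρ) + 2 := by
    rw [show x + δ - ρ = x - ρ + δ by ring, h3]
    ring
  have a5 : π (x + ρ) + 1 = π x := by
    rw [h2]
    generalize π x = y
    revert y
    decide
  convert tab_inj (π x) (F x) (F (x - ρ)) using 1
  funext q
  obtain ⟨s, j⟩ := q
  cases s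
  · fin_cases j
    · simp [tab]
    · simp only [tab, Bool.false_eq_true, if_false]
      show (π (x + (r + δ) - r) + 1, F (x + (r + δ) - r - ρ) + 1) = (π x + 1, F (x - ρ) + 2)
      rw [show x + (r + δ) - r = x + δ by ring, h1, a4]
    · simp only [tab, Bool.false_eq_true, if_false]
      show (π (x + (r + ρ) - r) + 1, F (x + (r + ρ) - r - ρ) + 1) = (π x, F x + 1)
      rw [show x + (r + ρ) - r = x + ρ by ring, a5, add_sub_cancel_right]
  · fin_cases j
    · simp [tab]
    · simp only [tab, if_true]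
      show (π (x - (r + δ) + r), F (x - (r + δ) + r)) = (π x, F x - 1)
      rw [show x - (r + δ) + r = x - δ by ring, a1, a3]
    · simp only [tab, if_true]
      show (π (x - (r + ρ) + r), F (x - (r + ρ) + r)) = (π x + 1, F (x - ρ))
      rw [show x - (r + ρ) + r = x - ρ by ring, a2]

theorem col_core (r g d e : ℤ) (hg : g ≠ 0) (hd : d ≠ 0) (hde : Even d) (he : Odd e) :
    Col ![r, r + g * d, r + g * e] := by
  refine col_fun r (g * d) (g * e) (fun z => ((z / g : ℤ) : ZMod 2))
    (fun z => ((z / (g * d) : ℤ) : ZMod 3)) (fun z => ?_) (fun z => ?_) (fun z => ?_)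
  · obtain ⟨k, rfl⟩ := hde
    simp only [Int.add_mul_ediv_left z (k + k) hg]
    push_cast
    generalize ((z / g : ℤ) : ZMod 2) = y
    generalize ((k : ℤ) : ZMod 2) = w
    revert y w
    decide
  · obtain ⟨k, rfl⟩ := he
    simp only [Int.add_mul_ediv_left z (2 * k + 1) hg]
    push_cast
    generalize ((z / g : ℤ) : ZMod 2) = y
    generalize ((k : ℤ) : ZMod 2) = w
    revert y w
    decide
  · have h := Int.add_mul_ediv_left z 1 (mul_ne_zero hg hd)
    rw [mul_one] at h
    simp only [h]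
    push_cast
    rfl

theorem col_all (s : Fin 3 → ℤ) (hs : Function.Injective s) : Col s := by
  have n1 : s 1 - s 0 ≠ 0 := sub_ne_zero.2 (hs.ne (by decide))
  have n2 : s 2 - s 0 ≠ 0 := sub_ne_zero.2 (hs.ne (by decide))
  have n3 : s 2 - s 1 ≠ 0 := sub_ne_zero.2 (hs.ne (by decide))
  obtain ⟨g, a, b, hg, hab, ha, hb⟩ := Int.exists_gcd_one' (Int.gcd_pos_of_ne_zero_left (s 2 - s 0) n1)
  have hg' : (g : ℤ) ≠ 0 := by exact_mod_cast hg.ne'
  have a0 : a ≠ 0 := by rintro rfl; exact n1 (by simpa using ha)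
  have b0 : b ≠ 0 := by rintro rfl; exact n2 (by simpa using hb)
  rcases Int.even_or_odd a with ea | oa
  · have ob : Odd b := by
      rw [← Int.not_even_iff_odd]
      intro eb
      have := Int.dvd_gcd (show ((2 : ℕ) : ℤ) ∣ a from even_iff_two_dvd.1 ea)
        (show ((2 : ℕ) : ℤ) ∣ b from even_iff_two_dvd.1 eb)
      rw [hab] at this
      omega
    convert col_core (s 0) g a b hg' a0 ea ob using 1
    funext j
    fin_cases j
    · rfl
    · show s 1 = s 0 + g * a
      linarith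
    · show s 2 = s 0 + g * b
      linarith
  · rcases Int.even_or_odd b with eb | ob
    · refine col_perm s (Equiv.swap 1 2) ?_
      convert col_core (s 0) g b a hg' b0 eb oa using 1
      funext j
      fin_cases j
      · rfl
      · show s 2 = s 0 + g * b
        linarith
      · show s 1 = s 0 + g * a
        linarith
    · refine col_perm s (Equiv.swap 0 2) ?_
      have c0 : a - b ≠ 0 := fun h => n3 (by
        have : a = b := by linarith
        rw [this] at ha
        linarith)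
      convert col_core (s 2) g (a - b) (-b) hg' c0 (oa.sub_odd ob) ob.neg using 1
      funext j
      fin_cases j
      · rfl
      · show s 1 = s 2 + g * (a - b)
        linarith
      · show s 0 = s 2 + g * (-b)
        linarith

theorem cases5 (x u : ℤ) (hu : ¬ (5 : ℤ) ∣ u) (hx : ¬ (5 : ℤ) ∣ x) :
    (5 : ℤ) ∣ x - u ∨ (5 : ℤ) ∣ x - 2 * u ∨ (5 : ℤ) ∣ x + u ∨ (5 : ℤ) ∣ x + 2 * u := by
  have h1 : u % 5 = 1 ∨ u % 5 = 2 ∨ u % 5 = 3 ∨ u % 5 = 4 := by omega
  have h2 : x % 5 = 1 ∨ x % 5 = 2 ∨ x % 5 = 3 ∨ x % 5 = 4 := by omega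
  rcases h1 with h1 | h1 | h1 | h1 <;> rcases h2 with h2 | h2 | h2 | h2 <;> omega

theorem lam6_one : lam6 1 = 1 / 6 := by
  simp only [lam6, lamF]
  norm_num

end H311

open H311 in
theorem stH311 : St_H311 := by
  intro t u ht hu h5
  obtain ⟨Φ, hΦ⟩ := col_all (fun j => t (Fin.castLE (by norm_num) j))
    (ht.comp (Fin.castLE_injective (by norm_num)))
  let ι : ZMod 2 × ZMod 3 ≃ Fin 6 := Fintype.equivFinOfCardEq (by simp)
  refine ⟨fun f => decide (f = 0), fun _ => 1,
    fun f z => (f = 0 ∧ (5 : ℤ) ∣ z + t 0) ∨ (f = 1 ∧ (5 : ℤ) ∣ z - t 0),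
    fun f z => ((ι (Φ (decide (f = 0)) z) : ℕ) : ℝ) / 6, fun x => ?_⟩
  have one : ∀ (f0 : ℕ) (j0 : Fin 5), (∀ (f : ℕ) (j : Fin 5),
      ((f = 0 ∧ (5 : ℤ) ∣ (if decide (f = 0) = true then x - t j else x + t j) + t 0) ∨
        (f = 1 ∧ (5 : ℤ) ∣ (if decide (f = 0) = true then x - t j else x + t j) - t 0)) ↔
        (f0, j0) = (f, j)) →
      ∃ (n : ℕ) (e : Fin (n + 1) → ℕ × Fin 5) (c : Fin (n + 1) → ℤ),
      Function.Injective e ∧
      (∀ (f : ℕ) (j : Fin 5),
        ((f = 0 ∧ (5 : ℤ) ∣ (if decide (f = 0) = true then x - t j else x + t j) + t 0) ∨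
        (f = 1 ∧ (5 : ℤ) ∣ (if decide (f = 0) = true then x - t j else x + t j) - t 0)) ↔
          ∃ i, e i = (f, j)) ∧
      (∀ _i : Fin (n + 1), 0 < 1 ∧ 1 < 5) ∧
      ∑ i, ((((1 : ℕ) : ℕ) : ℤ) + 5 * c i) = 1 ∧
      ∀ i, ((ι (Φ (decide ((e i).1 = 0)) (if decide ((e i).1 = 0) = true then x - t (e i).2
          else x + t (e i).2)) : ℕ) : ℝ) / 6 - lam6 1 ≤
        ((ι (Φ (decide ((e (i + 1)).1 = 0)) (if decide ((e (i + 1)).1 = 0) = true then
          x - t (e (i + 1)).2 else x + t (e (i + 1)).2)) : ℕ) : ℝ) / 6 + c i := by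
    intro f0 j0 h
    refine ⟨0, fun _ => (f0, j0), fun _ => 0, fun i k _ => Subsingleton.elim (α := Fin 1) i k,
      fun f j => ?_, fun _ => by norm_num, by simp, fun i => ?_⟩
    · rw [h]
      simp
    · rw [lam6_one]
      simp
  have key : ∀ (f : ℕ) (j : Fin 5),
      ((f = 0 ∧ (5 : ℤ) ∣ (if decide (f = 0) = true then x - t j else x + t j) + t 0) ∨
        (f = 1 ∧ (5 : ℤ) ∣ (if decide (f = 0) = true then x - t j else x + t j) - t 0)) ↔
      ((f = 0 ∧ (5 : ℤ) ∣ x - (![0, 0, 0, 1, 2] : Fin 5 → ℤ) j * u) ∨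
        (f = 1 ∧ (5 : ℤ) ∣ x + (![0, 0, 0, 1, 2] : Fin 5 → ℤ) j * u)) := by
    intro f j
    have h := h5 j
    generalize (![0, 0, 0, 1, 2] : Fin 5 → ℤ) j * u = v at h ⊢
    by_cases h0 : f = 0
    · subst h0
      simp only [decide_true, if_true, true_and, zero_ne_one, false_and, or_false]
      omega
    · simp only [h0, decide_false, Bool.false_eq_true, if_false, false_and, false_or]
      refine and_congr_right fun _ => ?_
      omega
  by_cases c0 : (5 : ℤ) ∣ x
  · let ψ : Bool × Fin 3 → Fin 6 := fun p => ι (Φ p.1 (if p.1 then x - t (Fin.castLE (by norm_num) p.2)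
      else x + t (Fin.castLE (by norm_num) p.2)))
    have hψ : Function.Bijective ψ :=
      (Fintype.bijective_iff_injective_and_card ψ).2 ⟨ι.injective.comp (hΦ x), by simp⟩
    let E := Equiv.ofBijective ψ hψ
    let em : Bool × Fin 3 → ℕ × Fin 5 := fun p =>
      (if p.1 then 0 else 1, Fin.castLE (by norm_num) p.2)
    have hem : Function.Injective em := by
      unfold Function.Injective
      decide
    have hval : ∀ p : Bool × Fin 3, ι (Φ (decide ((em p).1 = 0)) (if decide ((em p).1 = 0) = true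
        then x - t (em p).2 else x + t (em p).2)) = E p := by
      rintro ⟨s, j⟩
      cases s <;> rfl
    refine ⟨5, fun i => em (E.symm i.rev), fun i => if i = 5 then -1 else 0,
      hem.comp (E.symm.injective.comp Fin.rev_injective), fun f j => ?_, fun _ => by norm_num,
      (by decide : ∑ i : Fin 6, (((1 : ℕ) : ℤ) + 5 * if i = 5 then -1 else 0) = 1), fun i => ?_⟩
    · refine (key f j).trans ?_
      have h : (∃ i : Fin 6, em (E.symm i.rev) = (f, j)) ↔ ∃ p, em p = (f, j) :=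
        ⟨fun ⟨_, h⟩ => ⟨_, h⟩, fun ⟨p, h⟩ => ⟨(E p).rev, by simpa using h⟩⟩
      refine Iff.trans ?_ h.symm
      constructor
      · rintro (⟨rfl, h1⟩ | ⟨rfl, h1⟩)
        · fin_cases j
          · exact ⟨(true, 0), rfl⟩
          · exact ⟨(true, 1), rfl⟩
          · exact ⟨(true, 2), rfl⟩
          · exact absurd (show (5 : ℤ) ∣ x - 1 * u from h1) (by omega)
          · exact absurd (show (5 : ℤ) ∣ x - 2 * u from h1) (by omega)
        · fin_cases j
          · exact ⟨(false, 0), rfl⟩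
          · exact ⟨(false, 1), rfl⟩
          · exact ⟨(false, 2), rfl⟩
          · exact absurd (show (5 : ℤ) ∣ x + 1 * u from h1) (by omega)
          · exact absurd (show (5 : ℤ) ∣ x + 2 * u from h1) (by omega)
      · rintro ⟨⟨s, k⟩, h1⟩
        obtain ⟨h2, h3⟩ := Prod.mk.inj h1
        subst h2 h3
        have hz : (![0, 0, 0, 1, 2] : Fin 5 → ℤ) (Fin.castLE (by norm_num) k) = 0 := by
          fin_cases k <;> rfl
        rw [hz]
        cases s <;> simp [c0]
    · simp only [hval, Equiv.apply_symm_apply, lam6_one]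
      fin_cases i <;> simp [Fin.rev] <;> norm_num
  · have sel : ∀ (f0 : ℕ) (j0 : Fin 5), (∀ (f : ℕ) (j : Fin 5),
        ((f = 0 ∧ (5 : ℤ) ∣ x - (![0, 0, 0, 1, 2] : Fin 5 → ℤ) j * u) ∨
          (f = 1 ∧ (5 : ℤ) ∣ x + (![0, 0, 0, 1, 2] : Fin 5 → ℤ) j * u)) ↔ (f0, j0) = (f, j)) →
        _ := fun f0 j0 h => one f0 j0 fun f j => (key f j).trans (h f j)
    have cs := cases5 x u hu c0
    rcases cs with c | c | c | c
    · refine sel 0 3 fun f j => ?_
      fin_cases j <;> simp <;> omega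
    · refine sel 0 4 fun f j => ?_
      fin_cases j <;> simp <;> omega
    · refine sel 1 3 fun f j => ?_
      fin_cases j <;> simp <;> omega
    · refine sel 1 4 fun f j => ?_
      fin_cases j <;> simp <;> omega

end Pool.Agent.Lib.B5
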