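import Pool.Agent.Lib.B5.DDefs
import Pool.Agent.Lib.B5.H311

/-! Decoupling of rows and columns, the sun of the type 3-1-1 and a holed packing modulo sixty. -/

set_option autoImplicit false

namespace Pool.Agent.Lib.B5

theorem stDEC : St_DEC := by
  intro t A hR hC
  choose WR hWR using hR
  choose WC hWC using hC
  let S : ℕ → Set Z2 := fun k => match k with
    | 0 => {z | WR z.2 true z.1}
    | 1 => {z | WR z.2 false z.1}
    | 2 => {z | WC z.1 true z.2}
    | 3 => {z | WC z.1 false z.2}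
    | _ + 4 => ∅
  refine ⟨S, ?_⟩
  rintro ⟨x, y⟩
  have mH : ∀ (s : Bool) j, ((x, y) - act (if s then 0 else 1) (t j, 0) ∈ S (if s then 0 else 1)) ↔
      WR y s (pos t s j x) := by
    rintro (_ | _) j <;> simp [act, S, pos]
  have mV : ∀ (s : Bool) j, ((x, y) - act (if s then 2 else 3) (t j, 0) ∈ S (if s then 2 else 3)) ↔
      WC x s (pos t s j y) := by
    rintro (_ | _) j <;> simp [act, S, pos]
  by_cases h : A x y
  · obtain ⟨⟨s, j⟩, h1, h2⟩ := (hWR y x).1 h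
    refine ⟨(if s then 0 else 1, j), (mH s j).2 h1, ?_⟩
    rintro ⟨k, i⟩ hk
    rcases k with _ | _ | _ | _ | k
    · obtain ⟨rfl, rfl⟩ := Prod.mk.inj (h2 (true, i) ((mH true i).1 hk))
      rfl
    · obtain ⟨rfl, rfl⟩ := Prod.mk.inj (h2 (false, i) ((mH false i).1 hk))
      rfl
    · exact absurd ((mV true i).1 hk) ((hWC x y).2 (not_not.2 h) true i)
    · exact absurd ((mV false i).1 hk) ((hWC x y).2 (not_not.2 h) false i)
    · exact absurd hk (Set.notMem_empty _)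
  · obtain ⟨⟨s, j⟩, h1, h2⟩ := (hWC x y).1 h
    refine ⟨(if s then 2 else 3, j), (mV s j).2 h1, ?_⟩
    rintro ⟨k, i⟩ hk
    rcases k with _ | _ | _ | _ | k
    · exact absurd ((mH true i).1 hk) ((hWR y x).2 h true i)
    · exact absurd ((mH false i).1 hk) ((hWR y x).2 h false i)
    · obtain ⟨rfl, rfl⟩ := Prod.mk.inj (h2 (true, i) ((mV true i).1 hk))
      rfl
    · obtain ⟨rfl, rfl⟩ := Prod.mk.inj (h2 (false, i) ((mV false i).1 hk))
      rfl
    · exact absurd hk (Set.notMem_empty _)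

theorem stDEC6 : St_DEC6 := by
  rintro t ⟨χ, hχ⟩ ⟨η, hη⟩
  refine stDEC t (fun x y => χ x = none ∨ χ x = some (η y)) (fun y => hχ (η y)) fun x => ?_
  rcases hx : χ x with _ | c
  · exact ⟨fun _ _ => False, fun y => ⟨fun h => absurd (Or.inl rfl) h, fun _ _ _ h => h⟩⟩
  · obtain ⟨W, hW⟩ := hη c
    have e : ∀ y, ¬ (some c = none ∨ some c = some (η y)) ↔ η y ≠ c := fun y => by
      simp [eq_comm]
    exact ⟨W, fun y => ⟨fun h => (hW y).1 ((e y).1 h), fun h => (hW y).2 fun h' => h ((e y).2 h')⟩⟩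

open H311 in
theorem stS311 : St_S311 := by
  intro t u ht hu h5
  obtain ⟨Φ, hΦ⟩ := col_all (fun j => t (Fin.castLE (by norm_num) j))
    (ht.comp (Fin.castLE_injective (by norm_num)))
  let ι : ZMod 2 × ZMod 3 ≃ ZMod 6 := Fintype.equivOfCardEq (by simp)
  let B : Bool → ℤ → Prop := fun s z => (5 : ℤ) ∣ if s then z + t 0 else z - t 0
  have key : ∀ (x : ℤ) (s : Bool) (j : Fin 5), B s (pos t s j x) ↔
      (5 : ℤ) ∣ if s then x - (![0, 0, 0, 1, 2] : Fin 5 → ℤ) j * u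
        else x + (![0, 0, 0, 1, 2] : Fin 5 → ℤ) j * u := by
    intro x s j
    have h := h5 j
    generalize (![0, 0, 0, 1, 2] : Fin 5 → ℤ) j * u = v at h ⊢
    cases s
    · simp only [B, pos, Bool.false_eq_true, if_false]
      omega
    · simp only [B, pos, if_true]
      omega
  have one : ∀ x : ℤ, ∃ p : Bool × Fin 5, ¬ (5 : ℤ) ∣ x →
      ∀ s j, B s (pos t s j x) ↔ (s, j) = p := by
    intro x
    by_cases c0 : (5 : ℤ) ∣ x
    · exact ⟨(true, 0), fun h => absurd c0 h⟩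
    rcases cases5 x u hu c0 with c | c | c | c
    · refine ⟨(true, 3), fun _ s j => (key x s j).trans ?_⟩
      cases s <;> fin_cases j <;> simp <;> omega
    · refine ⟨(true, 4), fun _ s j => (key x s j).trans ?_⟩
      cases s <;> fin_cases j <;> simp <;> omega
    · refine ⟨(false, 3), fun _ s j => (key x s j).trans ?_⟩
      cases s <;> fin_cases j <;> simp <;> omega
    · refine ⟨(false, 4), fun _ s j => (key x s j).trans ?_⟩
      cases s <;> fin_cases j <;> simp <;> omega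
  choose p hp using one
  refine ⟨fun x => if (5 : ℤ) ∣ x then none else some (ι (Φ (p x).1 (pos t (p x).1 (p x).2 x))),
    fun c => ⟨fun s z => B s z ∧ ι (Φ s z) = c, fun x => ?_⟩⟩
  by_cases c0 : (5 : ℤ) ∣ x
  · refine ⟨fun _ => ?_, fun h => absurd (Or.inl (if_pos c0)) h⟩
    let ψ : Bool × Fin 3 → ZMod 6 := fun q => ι (Φ q.1 (pos t q.1 (Fin.castLE (by norm_num) q.2) x))
    have hψ : Function.Bijective ψ :=
      (Fintype.bijective_iff_injective_and_card ψ).2 ⟨ι.injective.comp (hΦ x), by simp⟩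
    obtain ⟨⟨s, k⟩, hq⟩ := hψ.2 c
    refine ⟨(s, Fin.castLE (by norm_num) k), ⟨(key x _ _).2 ?_, hq⟩, ?_⟩
    · have hz : (![0, 0, 0, 1, 2] : Fin 5 → ℤ) (Fin.castLE (by norm_num) k) = 0 := by
        fin_cases k <;> rfl
      simp only [hz]
      cases s <;> simp [c0]
    · rintro ⟨s', j⟩ ⟨h1, h2⟩
      have h3 := (key x s' j).1 h1
      obtain ⟨k', rfl⟩ : ∃ k' : Fin 3, Fin.castLE (by norm_num) k' = j := by
        fin_cases j
        · exact ⟨0, rfl⟩
        · exact ⟨1, rfl⟩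
        · exact ⟨2, rfl⟩
        · exfalso
          cases s' <;> simp at h3 <;> omega
        · exfalso
          cases s' <;> simp at h3 <;> omega
      obtain ⟨rfl, rfl⟩ := Prod.mk.inj (hψ.1 (a₁ := (s', k')) (a₂ := (s, k)) (h2.trans hq.symm))
      rfl
  · simp only [if_neg c0, reduceCtorEq, false_or, Option.some.injEq]
    refine ⟨fun h => ⟨p x, ⟨(hp x c0 _ _).2 rfl, h⟩, fun q hq => (hp x c0 _ _).1 hq.1⟩, ?_⟩
    rintro h s j ⟨h1, h2⟩
    rw [← (hp x c0 s j).1 h1] at h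
    exact h h2

namespace DEC

def eta (r : ZMod 60) : ZMod 6 :=
  ([0, 1, 3, 1, 5, 1, 0, 4, 3, 2, 5, 4, 4, 4, 3, 1, 5, 4, 1, 5, 3, 1, 4, 3, 2, 2, 4, 4, 5, 2,
    1, 1, 3, 0, 2, 1, 0, 5, 2, 0, 5, 3, 0, 4, 3, 0, 5, 4, 0, 2, 3, 1, 5, 2, 0, 2, 3, 0, 5, 2] :
      List (ZMod 6)).getD r.val 0

def lst (c : ZMod 6) (s : Bool) : List ℕ :=
  (if s then [[17, 20, 23, 26, 59], [2, 8, 16, 41, 44], [2, 4, 10, 35, 56], [1, 7, 25, 34, 43],
      [44, 50, 52, 53, 58], [3, 21, 30, 39, 57]]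
    else [[13, 16, 19, 22, 55], [4, 37, 40, 50, 58], [23, 31, 44, 52, 58], [3, 21, 30, 39, 57],
      [32, 40, 41, 46, 49], [17, 26, 35, 53, 59]] : List (List ℕ)).getD c.val []

def hit (c : ZMod 6) (r : ZMod 60) (s : Bool) (j : Fin 5) : Prop :=
  (if s then r - (![26, 11, 41, 0, 4] : Fin 5 → ZMod 60) j
    else r + (![26, 11, 41, 0, 4] : Fin 5 → ZMod 60) j).val ∈ lst c s

instance (c : ZMod 6) (r : ZMod 60) (s : Bool) (j : Fin 5) : Decidable (hit c r s j) := by
  unfold hit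
  infer_instance

theorem hit_all : ∀ (c : ZMod 6) (r : ZMod 60),
    (eta r ≠ c → ∃ x : Bool × Fin 5, hit c r x.1 x.2 ∧
      ∀ y : Bool × Fin 5, hit c r y.1 y.2 → y = x) ∧
    (¬ eta r ≠ c → ∀ s j, ¬ hit c r s j) := by
  decide +kernel

end DEC

open DEC in
theorem stHOL60 : St_HOL60 := by
  intro t ht
  refine ⟨fun y => eta (y : ZMod 60), fun c => ⟨fun s z => (z : ZMod 60).val ∈ lst c s, fun y => ?_⟩⟩
  have e : ∀ j, ((t j : ℤ) : ZMod 60) = (![26, 11, 41, 0, 4] : Fin 5 → ZMod 60) j := fun j => by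
    have h := (ZMod.intCast_eq_intCast_iff_dvd_sub _ _ 60).2 (ht j)
    rw [← h]
    fin_cases j <;> rfl
  have k : ∀ s j, ((pos t s j y : ℤ) : ZMod 60).val ∈ lst c s ↔ hit c (y : ZMod 60) s j := by
    rintro (_ | _) j
    · simp only [pos, hit, Bool.false_eq_true, if_false, Int.cast_add, e]
    · simp only [pos, hit, if_true, Int.cast_sub, e]
  simp only [k]
  exact hit_all c y

end Pool.Agent.Lib.B5
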