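import Mathlib

/-! Five-blocks: exact covers of the grid, formal phases, tower certificates, case trees. -/

set_option autoImplicit false

namespace Pool.Agent.Lib.B5

abbrev Z2 := ℤ × ℤ

/-- The eight symmetries of the square lattice (0,..,3 rotations; every other index is the identity). -/
def act : ℕ → Z2 → Z2
  | 1, z => (-z.1, -z.2)
  | 2, z => (-z.2, z.1)
  | 3, z => (z.2, -z.1)
  | 4, z => (z.1, -z.2)
  | 5, z => (-z.1, z.2)
  | 6, z => (z.2, z.1)
  | 7, z => (-z.2, -z.1)
  | _, z => z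

/-- Exact cover of the grid by placed copies: `A g` is the set of positions of the copy `act g T`. -/
def Cov (T : Fin 5 → Z2) : Prop :=
  ∃ A : ℕ → Set Z2, ∀ z : Z2, ∃! x : ℕ × Fin 5, z - act x.1 (T x.2) ∈ A x.1

/-- The conclusion of the frozen statement for the cell set `S`. -/
def Tiles (S : Finset (ℤ × ℤ)) : Prop :=
  ∃ 𝒯 : Set (Set ℂ),
    (∀ t ∈ 𝒯, ∃ g : ℂ ≃ᵢ ℂ,
        t = g '' (⋃ c ∈ S, {p : ℂ | (c.1 : ℝ) ≤ p.re ∧ p.re ≤ (c.1 : ℝ) + 1 ∧
                                    (c.2 : ℝ) ≤ p.im ∧ p.im ≤ (c.2 : ℝ) + 1})) ∧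
    ⋃₀ 𝒯 = Set.univ ∧
    𝒯.Pairwise (fun s t => Disjoint (interior s) (interior t))

/-! ### Integer lists -/

def dot {R : Type} [Ring R] : List ℤ → (ℕ → R) → R
  | [], _ => 0
  | x :: a, w => (x : R) * w 0 + dot a (fun i => w (i + 1))

def ladd : List ℤ → List ℤ → List ℤ
  | [], b => b
  | x :: a, [] => x :: a
  | x :: a, y :: b => (x + y) :: ladd a b

def lsmul (c : ℤ) : List ℤ → List ℤ
  | [] => []
  | x :: a => (c * x) :: lsmul c a

def lz : List ℤ → Bool
  | [] => true
  | x :: a => x == 0 && lz a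

/-- equality up to trailing zeros -/
def leq : List ℤ → List ℤ → Bool
  | [], b => lz b
  | x :: a, [] => lz (x :: a)
  | x :: a, y :: b => x == y && leq a b

/-- `∑ k, a k • r k` -/
def comb : List ℤ → List (List ℤ) → List ℤ
  | x :: a, r :: rs => ladd (lsmul x r) (comb a rs)
  | _, _ => []

/-- Value of a formal phase: the head is a numerator over `q`, the tail the coefficients of `w`. -/
noncomputable def ev (q : ℕ) (w : ℕ → ℝ) : List ℤ → ℝ
  | [] => 0
  | x :: a => (x : ℝ) / q + dot a w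

/-- `act` on coefficient lists -/
def actL : ℕ → List ℤ × List ℤ → List ℤ × List ℤ
  | 1, z => (lsmul (-1) z.1, lsmul (-1) z.2)
  | 2, z => (lsmul (-1) z.2, z.1)
  | 3, z => (z.2, lsmul (-1) z.1)
  | 4, z => (z.1, lsmul (-1) z.2)
  | 5, z => (lsmul (-1) z.1, z.2)
  | 6, z => (z.2, z.1)
  | 7, z => (lsmul (-1) z.2, lsmul (-1) z.1)
  | _, z => z

/-! ### States -/

/-- `n` integer unknowns `b`, the five points as linear forms in `b`, and for each real multiplier
`α c` the formal value of `α c * b k` modulo one. -/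
structure St where
  n : ℕ
  ch : List (List ℤ × List ℤ)
  tab : List (List (List ℤ))

def St.pt (S : St) (j : ℕ) : List ℤ × List ℤ := S.ch.getD j ([], [])

def St.row (S : St) (c : ℕ) : List (List ℤ) := S.tab.getD c []

def St.Holds (q : ℕ) (S : St) (T : Fin 5 → Z2) : Prop :=
  ∃ (o : Z2) (b : ℕ → ℤ) (α w : ℕ → ℝ), (∀ k, S.n ≤ k → b k = 0) ∧
    (∀ j : Fin 5, T j = o + (dot (S.pt j).1 b, dot (S.pt j).2 b)) ∧
    ∀ c k, ∃ m : ℤ, α c * b k = ev q w ((S.row c).getD k []) + m

def Good (q : ℕ) (S : St) : Prop :=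
  ∀ T : Fin 5 → Z2, Function.Injective T → S.Holds q T → Cov T

/-! ### Tower certificates -/

/-- Levels `(p, terms)`, a term `(c, u, v)` being the map `(x, y) ↦ α c * (u * x + v * y)`;
tiles `(g, offsets)`, one formal offset per level. -/
structure Cert where
  lv : List (ℕ × List (ℕ × ℤ × ℤ))
  tl : List (ℕ × List (List ℤ))

/-- formal value of a level at the point with coefficient lists `z` -/
def lvPh (S : St) (z : List ℤ × List ℤ) : List (ℕ × ℤ × ℤ) → List ℤ
  | [] => []
  | t :: ts => ladd (comb (ladd (lsmul t.2.1 z.1) (lsmul t.2.2 z.2)) (S.row t.1)) (lvPh S z ts)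

def cellPh (S : St) (z : List ℤ × List ℤ) :
    List (ℕ × List (ℕ × ℤ × ℤ)) → List (List ℤ) → List (List ℤ)
  | [], _ => []
  | l :: ls, os => ladd (os.headD []) (lvPh S z l.2) :: cellPh S z ls os.tail

def cells (S : St) (lv : List (ℕ × List (ℕ × ℤ × ℤ))) :
    List (ℕ × List (List ℤ)) → List (List (List ℤ))
  | [] => []
  | t :: ts => cellPh S (actL t.1 (S.pt 0)) lv t.2 :: cellPh S (actL t.1 (S.pt 1)) lv t.2 ::
      cellPh S (actL t.1 (S.pt 2)) lv t.2 :: cellPh S (actL t.1 (S.pt 3)) lv t.2 ::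
      cellPh S (actL t.1 (S.pt 4)) lv t.2 :: cells S lv ts

/-- the two phases differ by `k / p` modulo one with `p` not dividing `k` -/
def sepAt (q p : ℕ) (a b : List ℤ) : Bool :=
  ((p : ℤ) * (a.headD 0 - b.headD 0)) % q == 0 &&
    !(((p : ℤ) * (a.headD 0 - b.headD 0)) / q % p == 0) && leq a.tail b.tail

def sepAny (q : ℕ) : List (ℕ × List (ℕ × ℤ × ℤ)) → List (List ℤ) → List (List ℤ) → Bool
  | l :: ls, a :: as, b :: bs => sepAt q l.1 a b || sepAny q ls as bs
  | _, _, _ => false

def sepAll (q : ℕ) (lv : List (ℕ × List (ℕ × ℤ × ℤ))) (c : List (List ℤ)) :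
    List (List (List ℤ)) → Bool
  | [] => true
  | d :: ds => sepAny q lv c d && sepAll q lv c ds

def allPairs (q : ℕ) (lv : List (ℕ × List (ℕ × ℤ × ℤ))) : List (List (List ℤ)) → Bool
  | [] => true
  | c :: cs => sepAll q lv c cs && allPairs q lv cs

def prodP : List (ℕ × List (ℕ × ℤ × ℤ)) → ℕ
  | [] => 1
  | l :: ls => l.1 * prodP ls

def chkCert (q : ℕ) (S : St) (C : Cert) : Bool :=
  decide (0 < q) && decide (0 < prodP C.lv) && (5 * C.tl.length == prodP C.lv) &&
    allPairs q C.lv (cells S C.lv C.tl)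

/-! ### Case trees -/

def unitPh : ℕ → List ℤ
  | 0 => [0, 1]
  | i + 1 => 0 :: unitPh i

/-- row of a new multiplier: known numerators, fresh free reals from index `F` on elsewhere -/
def newRow : List (Option ℤ) → ℕ → List (List ℤ)
  | [], _ => []
  | some x :: r, F => [x] :: newRow r F
  | none :: r, F => unitPh F :: newRow r (F + 1)

def consAll (x : Option ℤ) : List (List (Option ℤ)) → List (List (Option ℤ))
  | [] => []
  | a :: l => (x :: a) :: consAll x l

def consUpTo (s : ℤ) (l : List (List (Option ℤ))) : ℕ → List (List (Option ℤ))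
  | 0 => []
  | i + 1 => consUpTo s l i ++ consAll (some ((i : ℤ) * s)) l

/-- all assignments of `0, s, .., (p-1) s` to the marked places -/
def allA (p : ℕ) (s : ℤ) : List Bool → List (List (Option ℤ))
  | [] => [[]]
  | false :: m => consAll none (allA p s m)
  | true :: m => consUpTo s (allA p s m) p

/-- the assignments whose first non-zero marked place holds `s` -/
def nzA (p : ℕ) (s : ℤ) : List Bool → List (List (Option ℤ))
  | [] => []
  | false :: m => consAll none (nzA p s m)
  | true :: m => consAll (some 0) (nzA p s m) ++ consAll (some s) (allA p s m)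

def zeroL : List Bool → List ℤ → List ℤ
  | true :: m, _ :: a => 0 :: zeroL m a
  | false :: m, x :: a => x :: zeroL m a
  | _, a => a

def zeroCh (m : List Bool) : List (List ℤ × List ℤ) → List (List ℤ × List ℤ)
  | [] => []
  | z :: l => (zeroL m z.1, zeroL m z.2) :: zeroCh m l

def St.zero (S : St) (m : List Bool) : St := ⟨S.n, zeroCh m S.ch, S.tab⟩

def St.add (S : St) (F : ℕ) (a : List (Option ℤ)) : St := ⟨S.n, S.ch, S.tab ++ [newRow a F]⟩

def addAll (S : St) (F : ℕ) : List (List (Option ℤ)) → List St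
  | [] => []
  | a :: l => S.add F a :: addAll S F l

def rowShort (F : ℕ) : List (List ℤ) → Bool
  | [] => true
  | a :: l => decide (a.length ≤ F + 1) && rowShort F l

def tabShort (F : ℕ) : List (List (List ℤ)) → Bool
  | [] => true
  | r :: l => rowShort F r && tabShort F l

def combRows (r : List (List ℤ)) : List (List ℤ) → List (List ℤ)
  | [] => []
  | a :: M => comb a r :: combRows r M

def combTab (M : List (List ℤ)) : List (List (List ℤ)) → List (List (List ℤ))
  | [] => []
  | r :: l => combRows r M :: combTab M l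

/-- new unknowns `dot (M k) b`, new point list `ch` -/
def St.re (S : St) (M : List (List ℤ)) (ch : List (List ℤ × List ℤ)) : St :=
  ⟨M.length, ch, combTab M S.tab⟩

/-- point `j` of the new state is point `π j` minus point `π 0` of the old one -/
def reAt (S : St) (π : List ℕ) (M : List (List ℤ)) (ch : List (List ℤ × List ℤ)) (j : ℕ) : Bool :=
  leq (S.pt (π.getD j 0)).1 (ladd (S.pt (π.getD 0 0)).1 (comb (ch.getD j ([], [])).1 M)) &&
  leq (S.pt (π.getD j 0)).2 (ladd (S.pt (π.getD 0 0)).2 (comb (ch.getD j ([], [])).2 M))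

def permOK (π : List ℕ) : Bool :=
  π.length == 5 && π.all (fun x => decide (x < 5)) && π.contains 0 && π.contains 1 &&
    π.contains 2 && π.contains 3 && π.contains 4

def reOK (S : St) (π : List ℕ) (M : List (List ℤ)) (ch : List (List ℤ × List ℤ)) : Bool :=
  permOK π && reAt S π M ch 0 && reAt S π M ch 1 && reAt S π M ch 2 && reAt S π M ch 3 &&
    reAt S π M ch 4

/-- equal phases modulo one -/
def phEq (q : ℕ) (a b : List ℤ) : Bool := (a.headD 0 - b.headD 0) % q == 0 && leq a.tail b.tail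

def rowEq (q : ℕ) (u : ℤ) (r s : List (List ℤ)) : ℕ → Bool
  | 0 => true
  | k + 1 => phEq q (lsmul u (r.getD k [])) (s.getD k []) && rowEq q u r s k

/-- row `i` of the target is `u` times row `c` of `S`, where `(c, u)` is entry `i` of the list -/
def tabEq (q : ℕ) (S : St) : List (ℕ × ℤ) → List (List (List ℤ)) → Bool
  | e :: es, s :: l => rowEq q e.2 (S.row e.1) s S.n && decide (s.length ≤ S.n) && tabEq q S es l
  | _, [] => true
  | [], _ :: _ => false

def ptEq (S H : St) (j : ℕ) : Bool := leq (S.pt j).1 (H.pt j).1 && leq (S.pt j).2 (H.pt j).2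

def holeOK (q : ℕ) (S H : St) (es : List (ℕ × ℤ)) : Bool :=
  decide (0 < q) && S.n == H.n && ptEq S H 0 && ptEq S H 1 && ptEq S H 2 && ptEq S H 3 &&
    ptEq S H 4 && tabEq q S es H.tab

def maskAt : ℕ → ℕ → List Bool
  | 0, _ => []
  | n + 1, 0 => true :: List.replicate n false
  | n + 1, k + 1 => false :: maskAt n k

def optAt (s : ℤ) : ℕ → ℕ → List (Option ℤ)
  | 0, _ => []
  | n + 1, 0 => some s :: List.replicate n none
  | n + 1, k + 1 => none :: optAt s n k

/-- at the marked places the row is a pure numerator divisible by `r` -/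
def divOK (r : ℕ) : List Bool → List (List ℤ) → Bool
  | [], _ => true
  | false :: m, e => divOK r m e.tail
  | true :: m, e => lz (e.headD []).tail && ((e.headD []).headD 0) % r == 0 && divOK r m e.tail

def divRow (r : ℕ) : List (Option ℤ) → List (List ℤ) → List (Option ℤ)
  | [], _ => []
  | none :: a, e => none :: divRow r a e.tail
  | some y :: a, e => some (((e.headD []).headD 0) / r + y) :: divRow r a e.tail

def divAll (r : ℕ) (e : List (List ℤ)) : List (List (Option ℤ)) → List (List (Option ℤ))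
  | [] => []
  | a :: l => divRow r a e :: divAll r e l

inductive Tr where
  | leaf : Cert → Tr
  | dead : ℕ → ℕ → Tr
  | hole : ℕ → List (ℕ × ℤ) → Tr
  | re : List ℕ → List (List ℤ) → List (List ℤ × List ℤ) → Tr → Tr
  | step : ℕ → List Bool → ℕ → Tr → Tr → Tr
  | free : ℕ → ℕ → ℕ → Tr → Tr → Tr
  | div : ℕ → ℕ → List Bool → ℕ → Tr → Tr
  | nil : Tr
  | cons : Tr → Tr → Tr

def Tr.chain : Tr → Bool
  | .nil => true
  | .cons _ _ => true
  | _ => false

/-- `chk q Hs t S l`: for a chain `t` every state of `l` is closed, otherwise `S` is closed. -/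
def chk (q : ℕ) (Hs : List St) : Tr → St → List St → Bool
  | .leaf C, S, _ => chkCert q S C
  | .dead i j, S, _ => decide (i < 5) && decide (j < 5) && !(i == j) &&
      leq (S.pt i).1 (S.pt j).1 && leq (S.pt i).2 (S.pt j).2
  | .hole i es, S, _ => decide (i < Hs.length) && holeOK q S (Hs.getD i S) es
  | .re π M ch t, S, _ => reOK S π M ch && !t.chain && chk q Hs t (S.re M ch) []
  | .step p m F z k, S, _ => (p == 2 || p == 3 || p == 5) && decide (0 < q) && q % p == 0 &&
      m.length == S.n && tabShort F S.tab && !z.chain && k.chain && chk q Hs z (S.zero m) [] &&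
      chk q Hs k S (addAll S F (nzA p ((q / p : ℕ) : ℤ) m))
  | .free r i F z k, S, _ => decide (0 < q) && q % r == 0 && decide (i < S.n) &&
      tabShort F S.tab && !z.chain && !k.chain && chk q Hs z (S.zero (maskAt S.n i)) [] &&
      chk q Hs k (S.add F (optAt ((q / r : ℕ) : ℤ) S.n i)) []
  | .div c r m F k, S, _ => decide (0 < q) && q % r == 0 && m.length == S.n &&
      tabShort F S.tab && divOK r m (S.row c) && k.chain &&
      chk q Hs k S (addAll S F (divAll r (S.row c) (allA r ((q / r : ℕ) : ℤ) m)))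
  | .nil, _, l => l.isEmpty
  | .cons _ _, _, [] => false
  | .cons a t, S, c :: l => !a.chain && t.chain && chk q Hs a c [] && chk q Hs t S l

/-- horizontal five points `0, b 0, b 1, b 2, b 3` -/
def chH : List (List ℤ × List ℤ) :=
  [([], []), ([1], []), ([0, 1], []), ([0, 0, 1], []), ([0, 0, 0, 1], [])]

/-! ### Blocks -/

def St_GEOM : Prop := ∀ (S : Finset (ℤ × ℤ)) (T : Fin 5 → Z2),
  (∀ c, c ∈ S ↔ ∃ j, T j = c) → Cov T → Tiles S

def St_SHIFT : Prop := ∀ (T : Fin 5 → Z2) (o : Z2), Cov T → Cov (fun j => o + T j)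

def St_PERM : Prop := ∀ (T : Fin 5 → Z2) (σ : Equiv.Perm (Fin 5)), Cov (fun j => T (σ j)) → Cov T

def St_COL : Prop := ∀ (t : Fin 5 → ℤ) (o v : Z2), v ≠ 0 →
  Cov (fun j => (t j, 0)) → Cov (fun j => o + t j • v)

def St_CNT : Prop := ∀ (t : Fin 5 → ℤ) (A B C D : Z2 → ℕ),
  (∀ z : Z2, ∑ j, A (z - (t j, 0)) + ∑ j, B (z + (t j, 0)) + ∑ j, C (z - (0, t j)) +
    ∑ j, D (z + (0, t j)) = 1) → Cov (fun j => (t j, 0))

def St_KEL : Prop := ∀ (T : Fin 5 → Z2) (m r : ℕ) (p : Fin r → ℕ) (a b : Fin r → ℝ)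
  (g : Fin m → ℕ) (θ : Fin m → Fin r → ℝ), (∀ l, 0 < p l) → 5 * m = ∏ l, p l →
  (∀ x y : Fin m × Fin 5, x ≠ y → ∃ l, ∃ k : ℤ, ¬ ((p l : ℤ) ∣ k) ∧
    (p l : ℝ) * ((θ x.1 l + (a l * (act (g x.1) (T x.2)).1 + b l * (act (g x.1) (T x.2)).2)) -
      (θ y.1 l + (a l * (act (g y.1) (T y.2)).1 + b l * (act (g y.1) (T y.2)).2))) = k) → Cov T

def St_LEAF : Prop := ∀ (q : ℕ) (S : St) (C : Cert), chkCert q S C = true → Good q S

def St_DEAD : Prop := ∀ (q : ℕ) (S : St) (i j : ℕ), i < 5 → j < 5 → i ≠ j →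
  leq (S.pt i).1 (S.pt j).1 = true → leq (S.pt i).2 (S.pt j).2 = true → Good q S

def St_HOLE : Prop := ∀ (q : ℕ) (S H : St) (es : List (ℕ × ℤ)),
  holeOK q S H es = true → Good q H → Good q S

def St_RE : Prop := ∀ (q : ℕ) (S : St) (π : List ℕ) (M : List (List ℤ))
  (ch : List (List ℤ × List ℤ)), reOK S π M ch = true → Good q (S.re M ch) → Good q S

def St_STEP : Prop := ∀ (q p F : ℕ) (S : St) (m : List Bool), p.Prime → 0 < q → p ∣ q →
  m.length = S.n → tabShort F S.tab = true → Good q (S.zero m) →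
  (∀ c ∈ addAll S F (nzA p ((q / p : ℕ) : ℤ) m), Good q c) → Good q S

def St_FREE : Prop := ∀ (q r i F : ℕ) (S : St), 0 < q → r ∣ q → i < S.n →
  tabShort F S.tab = true → Good q (S.zero (maskAt S.n i)) →
  Good q (S.add F (optAt ((q / r : ℕ) : ℤ) S.n i)) → Good q S

def St_DIV : Prop := ∀ (q c r F : ℕ) (S : St) (m : List Bool), 0 < q → r ∣ q →
  m.length = S.n → tabShort F S.tab = true → divOK r m (S.row c) = true →
  (∀ c' ∈ addAll S F (divAll r (S.row c) (allA r ((q / r : ℕ) : ℤ) m)), Good q c') → Good q S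

def St_TREE : Prop := ∀ (q : ℕ) (Hs : List St) (t : Tr) (S : St), (∀ H ∈ Hs, Good q H) →
  t.chain = false → chk q Hs t S [] = true → Good q S

end Pool.Agent.Lib.B5
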