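import Pool.Agent.Lib.B5.HDefs
import Pool.Agent.Lib.B5.ST1

/-! Exceptions closed as sub-states; game nodes. -/

set_option autoImplicit false

namespace Pool.Agent.Lib.B5

namespace EXC

theorem dot_zeroL (m : List Bool) (a : List ℤ) (v : ℕ → ℤ)
    (h : ∀ k, m.getD k false = true → v k = 0) : dot (zeroL m a) v = dot a v := by
  induction m generalizing a v with
  | nil => cases a <;> rfl
  | cons x m ih =>
    cases a with
    | nil => cases x <;> rfl
    | cons y a =>
      have h' := ih a (fun i => v (i + 1)) fun k hk => h (k + 1) hk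
      cases x with
      | false => simp only [zeroL, dot_cons, h']
      | true => simp only [zeroL, dot_cons, h', h 0 rfl, mul_zero]

theorem zeroCh_getD (m : List Bool) (l : List (List ℤ × List ℤ)) (j : ℕ) :
    (zeroCh m l).getD j ([], []) =
      (zeroL m (l.getD j ([], [])).1, zeroL m (l.getD j ([], [])).2) := by
  induction l generalizing j with
  | nil =>
    have : zeroL m [] = [] := by
      cases m with
      | nil => rfl
      | cons x m => cases x <;> rfl
    simp [zeroCh, this]
  | cons z l ih =>
    cases j with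
    | zero => rfl
    | succ j => exact ih j

theorem dot_zero_fun (a : List ℤ) : dot a (fun _ => (0 : ℤ)) = 0 := by
  induction a with
  | nil => rfl
  | cons y a ih => simp [ih]

theorem dot_rel (rel : List (List ℤ)) (b : ℕ → ℤ) (h : ∀ r ∈ rel, dot r b = 0) (u : List ℤ) :
    dot (comb u rel) b = 0 := by
  rw [dot_comb, ← dot_zero_fun u]
  refine congrArg _ (funext fun k => ?_)
  rcases lt_or_ge k rel.length with hk | hk
  · rw [List.getD_eq_getElem _ _ hk]
    exact h _ (List.getElem_mem _)
  · rw [List.getD_eq_default _ _ hk, dot_nil]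

theorem relOK_spec (rel : List (List ℤ)) (b : ℕ → ℤ) (h : ∀ r ∈ rel, dot r b = 0)
    (m : List Bool) (M : List (List ℤ)) (us : List (ℤ × List ℤ))
    (hk : relOK rel m M us = true) (k : ℕ) (hm : m.getD k false = true) :
    dot (M.getD k []) b = 0 := by
  induction m generalizing M us k with
  | nil => simp at hm
  | cons x m ih =>
    cases x with
    | false =>
      cases k with
      | zero => simp at hm
      | succ k =>
        have h1 : relOK rel m M.tail us = true := by simpa only [relOK] using hk
        have h2 := ih M.tail us h1 k hm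
        cases M with
        | nil => rfl
        | cons a M => exact h2
    | true =>
      cases M with
      | nil => simp [relOK] at hk
      | cons a M =>
        cases us with
        | nil => simp [relOK] at hk
        | cons u us =>
          simp only [relOK, Bool.and_eq_true, Bool.not_eq_true', beq_eq_false_iff_ne] at hk
          cases k with
          | zero =>
            have h1 := dot_leq hk.1.2 b
            rw [dot_lsmul, dot_rel rel b h] at h1
            exact (mul_eq_zero.1 h1).resolve_left hk.1.1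
          | succ k => exact ih M us hk.2 k hm

theorem one (hT : St_TREE) (hP : St_PERM) (q : ℕ) (Hs : List St) (S : St) (rel : List (List ℤ))
    (X : Exc) (hH : ∀ H ∈ Hs, Good q H) (h : chkExc q Hs S rel X = true) : GoodRel q S rel := by
  simp only [chkExc, Bool.and_eq_true, Bool.not_eq_true'] at h
  obtain ⟨⟨⟨h1, h2⟩, h3⟩, h4⟩ := h
  have hG := hT q Hs X.tr _ hH h3 h4
  intro T o b α w hi _ g1 g2 g3
  simp only [reOK, reAt, Bool.and_eq_true] at h1
  obtain ⟨⟨⟨⟨⟨hπ, p0⟩, p1⟩, p2⟩, p3⟩, p4⟩ := h1
  obtain ⟨σ, hσ⟩ := permOK_spec hπ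
  have hz := relOK_spec rel b g3 _ _ _ h2
  refine hP T σ (hG _ (hi.comp σ.injective) ⟨T (σ 0), fun k => dot (X.M.getD k []) b, α, w,
    fun k hk => ?_, fun j => ?_, fun c k => ?_⟩)
  · beta_reduce
    rw [List.getD_eq_default _ _ hk, dot_nil]
  · have : leq (S.pt (X.π.getD j 0)).1 (ladd (S.pt (X.π.getD 0 0)).1
        (comb (X.ch.getD j ([], [])).1 X.M)) = true ∧ leq (S.pt (X.π.getD j 0)).2
        (ladd (S.pt (X.π.getD 0 0)).2 (comb (X.ch.getD j ([], [])).2 X.M)) = true := by
      fin_cases j
      exacts [p0, p1, p2, p3, p4]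
    have e : ((S.re X.M X.ch).zero X.mask).pt j = (zeroL X.mask (X.ch.getD j ([], [])).1,
        zeroL X.mask (X.ch.getD j ([], [])).2) := zeroCh_getD _ _ _
    beta_reduce
    rw [e, dot_zeroL _ _ _ hz, dot_zeroL _ _ _ hz, g1, g1, hσ, hσ, dot_leq this.1, dot_leq this.2,
      dot_ladd, dot_ladd, dot_comb, dot_comb, add_assoc]
    rfl
  · change ∃ m : ℤ, _ = ev q w (((combTab X.M S.tab).getD c []).getD k []) + m
    rw [combTab_getD]
    exact ev_comb q w (α c) _ _ b (g2 c)

theorem mem_combRows (N e : List (List ℤ)) (r : List ℤ) (h : r ∈ combRows N e) :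
    ∃ a ∈ e, r = comb a N := by
  induction e with
  | nil => simp [combRows] at h
  | cons a e ih =>
    rcases List.mem_cons.1 h with h | h
    · exact ⟨a, List.mem_cons_self, h⟩
    · obtain ⟨c, h1, h2⟩ := ih h
      exact ⟨c, List.mem_cons_of_mem _ h1, h2⟩

theorem rel_of (N e : List (List ℤ)) (b : ℕ → ℤ)
    (h : ∀ r ∈ e, dot r (fun i => dot (N.getD i []) b) = 0) : ∀ r ∈ combRows N e, dot r b = 0 := by
  intro r hr
  obtain ⟨a, h1, rfl⟩ := mem_combRows N e r hr
  rw [dot_comb]
  exact h a h1

theorem dot_unit (i : ℕ) (b : ℕ → ℤ) : dot (List.replicate i 0 ++ [1]) b = b i := by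
  induction i generalizing b with
  | zero => simp
  | succ i ih => simp [List.replicate_succ, ih]

theorem idRows_get (n s i : ℕ) (h : i < n) (b : ℕ → ℤ) :
    dot ((idRows n s).getD i []) b = b (s + i) := by
  induction n generalizing s i with
  | zero => exact absurd h (Nat.not_lt_zero _)
  | succ n ih =>
    cases i with
    | zero => exact dot_unit s b
    | succ i =>
      have := ih (s + 1) i (Nat.lt_of_succ_lt_succ h)
      rw [show s + (i + 1) = s + 1 + i by omega]
      exact this

end EXC

theorem stEXC (hT : St_TREE) (hP : St_PERM) : St_EXC := by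
  intro q Hs S N es Xs hH h
  induction es generalizing Xs with
  | nil => exact fun e he => absurd he List.not_mem_nil
  | cons e es ih =>
    cases Xs with
    | nil => simp [chkExcs] at h
    | cons X Xs =>
      simp only [chkExcs, Bool.and_eq_true] at h
      intro e' he
      rcases List.mem_cons.1 he with rfl | he
      exacts [EXC.one hT hP q Hs S _ X hH h.1, ih Xs h.2 e' he]

theorem stGNODE (hG : St_GAME) (hH : St_HALL) (hV : St_VALL) (hS : St_SHIFT) : St_GNODE := by
  rintro q lam S c four π F d D Ps Cs EV EH h1 h2 h3 h4 h5 h6 cV cH eV eH T hT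
    ⟨o, b, α, w, g0, g1, g2⟩
  rcases cV (fun i => dot ((vForms S four π).getD i []) b) with kV | ⟨e, he, k⟩
  swap
  · exact eV e he T o b α w hT g0 g1 g2 (EXC.rel_of _ e b k)
  rcases cH (fun i => dot ((idRows d 0).getD i []) b) with kH | ⟨e, he, k⟩
  swap
  · exact eH e he T o b α w hT g0 g1 g2 (EXC.rel_of _ e b k)
  have kH' : Hit d q Ps b := by
    obtain ⟨β, z, k1, k2⟩ := kH
    refine ⟨β, z, fun i hi => ?_, k2⟩
    have := k1 i hi
    beta_reduce at this
    rwa [EXC.idRows_get d 0 i hi, zero_add] at this
  have hD : S.Data q (fun j => (T j).1) o.1 b α w := ⟨g0, fun j => congrArg Prod.fst (g1 j), g2⟩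
  have hC := hS _ (0, o.2) (hG _ _ (hH q lam S F d D Ps Cs _ _ b α w h3 h4 h5 h6 hD kH')
    (hV q lam S c four π _ _ b α w h2 hD kV))
  have e : T = fun j => ((0, o.2) : Z2) + ((T j).1, 0) := funext fun j => by
    simp only [flatOK, Bool.and_eq_true] at h1
    have : lz (S.pt j).2 = true := by
      fin_cases j
      exacts [h1.1.1.1.1, h1.1.1.1.2, h1.1.1.2, h1.1.2, h1.2]
    refine Prod.ext (zero_add _).symm ?_
    rw [g1 j, dot_lz this]
    rfl
  rw [e]
  exact hC

end Pool.Agent.Lib.B5
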