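import Pool.Agent.Lib.B5.GDefs

/-! Five-blocks: the product-phase (game) lemma. -/

set_option autoImplicit false

namespace Pool.Agent.Lib.B5

namespace GAME

lemma exists_prim (f : ℤ → ℤ) : ∃ a : ℤ → ℤ, ∀ s, a (s + 1) = a s + f s := by
  refine ⟨fun s => ∑ k ∈ Finset.range s.toNat, f k -
    ∑ k ∈ Finset.range (-s).toNat, f (-(k : ℤ) - 1), fun s => ?_⟩
  rcases le_or_gt 0 s with h | h
  · obtain ⟨k, rfl⟩ := Int.eq_ofNat_of_zero_le h
    have e1 : ((k : ℤ) + 1).toNat = k + 1 := by omega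
    have e2 : (-((k : ℤ) + 1)).toNat = 0 := by omega
    have e3 : (-(k : ℤ)).toNat = 0 := by omega
    simp only [e1, e2, e3, Int.toNat_natCast, Finset.sum_range_succ, Finset.sum_range_zero]
    ring
  · obtain ⟨k, rfl⟩ : ∃ k : ℕ, s = -(k : ℤ) - 1 := ⟨(-s - 1).toNat, by omega⟩
    have e1 : (-(k : ℤ) - 1 + 1).toNat = 0 := by omega
    have e2 : (-(-(k : ℤ) - 1 + 1)).toNat = k := by omega
    have e3 : (-(k : ℤ) - 1).toNat = 0 := by omega
    have e4 : (-(-(k : ℤ) - 1)).toNat = k + 1 := by omega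
    simp only [e1, e2, e3, e4, Finset.sum_range_succ, Finset.sum_range_zero]
    ring

lemma exists_walk (n : ℕ) (w : Fin (n + 1) → ℤ) (hw : ∑ i, w i = 1) :
    ∃ (ι : ℤ → Fin (n + 1)) (a : ℤ → ℤ), (∀ s, ι (s + 1) = ι s + 1) ∧
      (∀ s, a (s + 1) = a s + w (ι s)) ∧
      (∀ s k : ℤ, ι (s + k * (n + 1)) = ι s ∧ a (s + k * (n + 1)) = a s + k) ∧
      ∀ i, ∃ s, ι s = i := by
  let ι : ℤ → Fin (n + 1) := fun s => (s : ZMod (n + 1))
  have h1 : ∀ s, ι (s + 1) = ι s + 1 := fun s => by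
    change ((s + 1 : ℤ) : ZMod (n + 1)) = (s : ZMod (n + 1)) + 1
    push_cast; rfl
  have h2 : ∀ s k : ℤ, ι (s + k * (n + 1)) = ι s := fun s k => by
    change ((s + k * (n + 1) : ℤ) : ZMod (n + 1)) = (s : ZMod (n + 1))
    have : ((n : ZMod (n + 1)) + 1) = 0 := by exact_mod_cast ZMod.natCast_self (n + 1)
    push_cast; rw [this]; ring
  have h3 : ∀ i : Fin (n + 1), ι (i : ℕ) = i := fun i => by
    change (((i : ℕ) : ℤ) : ZMod (n + 1)) = (show ZMod (n + 1) from i)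
    rw [Int.cast_natCast]
    exact ZMod.natCast_zmod_val (n := n + 1) i
  obtain ⟨a, ha⟩ := exists_prim fun s => w (ι s)
  have h4 : ∀ m : ℕ, a m = a 0 + ∑ k ∈ Finset.range m, w (ι k) := fun m => by
    induction m with
    | zero => simp
    | succ m ih => rw [Finset.sum_range_succ, ← add_assoc, ← ih]; push_cast; exact ha m
  have h5 : a (0 + (n + 1)) = a 0 + 1 := by
    have := h4 (n + 1)
    rw [← Fin.sum_univ_eq_sum_range (fun k => w (ι k))] at this
    simp only [h3, hw] at this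
    rw [← this]; push_cast; rw [zero_add]
  have h6 : ∀ s : ℤ, a (s + (n + 1)) = a s + 1 := fun s => by
    have key : ∀ s : ℤ, a (s + 1 + (n + 1)) - a (s + 1) = a (s + (n + 1)) - a s := fun s => by
      have e := h2 s 1
      rw [one_mul] at e
      rw [show s + 1 + (n + 1) = s + (n + 1) + 1 by ring, ha, ha, e]; ring
    induction s using Int.induction_on with
    | zero => exact h5
    | succ k ih => have := key k; omega
    | pred k ih =>
      have := key (-(k : ℤ) - 1)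
      rw [show -(k : ℤ) - 1 + 1 = -k by ring] at this
      omega
  refine ⟨ι, a, h1, ha, fun s k => ⟨h2 s k, ?_⟩, fun i => ⟨_, h3 i⟩⟩
  induction k using Int.induction_on with
  | zero => simp
  | succ k ih => rw [show s + (k + 1 : ℤ) * (n + 1) = s + k * (n + 1) + (n + 1) by ring, h6, ih]; ring
  | pred k ih =>
    have := h6 (s + (-(k : ℤ) - 1) * (n + 1))
    rw [show s + (-(k : ℤ) - 1) * (n + 1) + (n + 1) = s + -(k : ℤ) * (n + 1) by ring, ih] at this
    omega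

lemma per {B : ℤ → ℝ} (hB : ∀ a, B (a + 5) = B a + 1) (a m : ℤ) : B (a + 5 * m) = B a + m := by
  induction m using Int.induction_on with
  | zero => simp
  | succ k ih => rw [show a + 5 * (k + 1 : ℤ) = a + 5 * k + 5 by ring, hB, ih]; push_cast; ring
  | pred k ih =>
    have := hB (a + 5 * (-(k : ℤ) - 1))
    rw [show a + 5 * (-(k : ℤ) - 1) + 5 = a + 5 * -(k : ℤ) by ring, ih] at this
    push_cast at this ⊢; linarith

/-- One cell: exactly one of the events through the cell happens. -/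
theorem core (n : ℕ) (K : Fin (n + 1) → ℕ) (c : Fin (n + 1) → ℤ) (g : Fin (n + 1) → ℝ)
    (B : ℤ → ℝ) (lam : ℕ → ℝ) (hs : ∑ i, ((K i : ℤ) + 5 * c i) = 1)
    (hg : ∀ i, g i - lam (K i) ≤ g (i + 1) + c i) (hB : ∀ a, B (a + 5) = B a + 1)
    (hl : ∀ i a, lam (K i) ≤ B (a + K i) - B a) :
    ∃! x : Fin (n + 1) ⊕ Fin 5, Sum.elim
      (fun i : Fin (n + 1) => ∃ a : ℤ, g i + B a ≤ 0 ∧ 0 < g i + B (a + K i) - lam (K i))
      (fun r : Fin 5 => ∃ (i : Fin (n + 1)) (m : ℤ), g i - lam (K i) + B (r : ℕ) + m ≤ 0 ∧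
        0 < g (i + 1) + c i + B (r : ℕ) + m) x := by
  obtain ⟨ι, a, h1, h2, h3, h4⟩ := exists_walk n _ hs
  have hsur : ∀ i b, ∃ s, ι s = i ∧ a s = b := fun i b => by
    obtain ⟨s, rfl⟩ := h4 i
    exact ⟨s + (b - a s) * (n + 1), (h3 s _).1, by rw [(h3 s _).2]; ring⟩
  let X : ℤ → ℝ := fun s => g (ι s) + B (a s)
  let Y : ℤ → ℝ := fun s => g (ι s) + B (a s + K (ι s)) - lam (K (ι s))
  have hX : ∀ s, X (s + 1) = g (ι s + 1) + c (ι s) + B (a s + K (ι s)) := fun s => by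
    simp only [X]
    rw [h1, h2, ← add_assoc (a s), per hB]; ring
  have xy : ∀ s, X s ≤ Y s := fun s => by
    have := hl (ι s) (a s); simp only [X, Y]; linarith
  have yx : ∀ s, Y s ≤ X (s + 1) := fun s => by
    have := hg (ι s); rw [hX]; simp only [Y]; linarith
  have mono : Monotone X := monotone_int_of_le_succ fun s => (xy s).trans (yx s)
  have hp : ∀ k : ℤ, X (0 + 5 * k * (n + 1)) = X 0 + k := fun k => by
    simp only [X]
    rw [(h3 0 _).1, (h3 0 _).2, per hB]; ring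
  obtain ⟨s0, p0, q0⟩ : ∃ s0, X s0 ≤ 0 ∧ ∀ s, X s ≤ 0 → s ≤ s0 := by
    refine Int.exists_greatest_of_bdd ⟨0 + 5 * (⌊-X 0⌋ + 1) * (n + 1), fun s h => ?_⟩
      ⟨0 + 5 * ⌊-X 0⌋ * (n + 1), ?_⟩
    · by_contra hn
      have := mono (not_le.1 hn).le
      rw [hp] at this
      have := Int.lt_floor_add_one (-X 0)
      push_cast at *; linarith
    · rw [hp]; have := Int.floor_le (-X 0); linarith
  have r0 : 0 < X (s0 + 1) := not_le.1 fun h => by have := q0 _ h; omega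
  have uq : ∀ s, X s ≤ 0 → 0 < X (s + 1) → s = s0 := fun s h h' => by
    refine le_antisymm (q0 s h) (not_lt.1 fun hn => ?_)
    have := mono (show s + 1 ≤ s0 by omega)
    linarith
  have cH : ∀ i b, g i + B b ≤ 0 → 0 < g i + B (b + K i) - lam (K i) → i = ι s0 ∧ 0 < Y s0 := by
    intro i b u v
    obtain ⟨s, rfl, rfl⟩ := hsur i b
    obtain rfl := uq s u (v.trans_le (yx s))
    exact ⟨rfl, v⟩
  have cV : ∀ (r : Fin 5) i (m : ℤ), g i - lam (K i) + B (r : ℕ) + m ≤ 0 →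
      0 < g (i + 1) + c i + B (r : ℕ) + m →
      ((r : ℕ) : ℤ) = (a s0 + K (ι s0)) % 5 ∧ Y s0 ≤ 0 := by
    intro r i m u v
    obtain ⟨s, rfl, e⟩ := hsur i ((r : ℕ) + 5 * m - K i)
    have e' : a s + K (ι s) = (r : ℕ) + 5 * m := by omega
    have u' : Y s ≤ 0 := by simp only [Y]; rw [e', per hB]; linarith
    have v' : 0 < X (s + 1) := by rw [hX, e', per hB]; linarith
    obtain rfl := uq s ((xy s).trans u') v'
    have := r.2
    exact ⟨by omega, u'⟩
  rcases lt_or_ge 0 (Y s0) with h | h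
  · refine ⟨Sum.inl (ι s0), ⟨a s0, p0, h⟩, ?_⟩
    rintro (i | r)
    · rintro ⟨b, u, v⟩
      rw [(cH i b u v).1]
    · rintro ⟨i, m, u, v⟩
      exact absurd (cV r i m u v).2 (not_le.2 h)
  · have e : a s0 + K (ι s0) = (((a s0 + K (ι s0)) % 5).toNat : ℤ) + 5 * ((a s0 + K (ι s0)) / 5) := by
      omega
    refine ⟨Sum.inr ⟨((a s0 + K (ι s0)) % 5).toNat, by omega⟩,
      ⟨ι s0, (a s0 + K (ι s0)) / 5, ?_, ?_⟩, ?_⟩
    · simp only [Y] at h
      rw [e, per hB] at h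
      linarith
    · rw [hX, e, per hB] at r0
      linarith
    · rintro (i | r)
      · rintro ⟨b, u, v⟩
        exact absurd (cH i b u v).2 (not_lt.2 h)
      · rintro ⟨i, m, u, v⟩
        have := (cV r i m u v).1
        exact congrArg Sum.inr (Fin.ext (by simp only; omega))

end GAME

open GAME in
theorem stGAME : St_GAME := by
  rintro t lam ⟨sg, K, P, γ, hH⟩ ⟨Q, ω, hV⟩
  choose n e c e_inj hP hK hs hg using hH
  choose e' B e'_inj hQ hB hω hl using hV
  let g : ∀ x, Fin (n x + 1) → ℝ := fun x i =>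
    γ (e x i).1 (if sg (e x i).1 then x - t (e x i).2 else x + t (e x i).2)
  let HA : Bool → Set Z2 := fun s => {z | ∃ f, sg f = s ∧ P f z.1 ∧ ∃ a : ℤ,
    γ f z.1 + B z.2 a ≤ 0 ∧ 0 < γ f z.1 + B z.2 (a + K f) - lam (K f)}
  let VA : Bool → Set Z2 := fun s => {z | Q s z.2 ∧ ∃ (i : Fin (n z.1 + 1)) (m : ℤ),
    g z.1 i - lam (K (e z.1 i).1) + ω s z.2 + m ≤ 0 ∧
      0 < g z.1 (i + 1) + c z.1 i + ω s z.2 + m}
  let A : ℕ → Set Z2 := fun k => match k with
    | 0 => HA true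
    | 1 => HA false
    | 2 => VA true
    | 3 => VA false
    | _ + 4 => ∅
  refine ⟨A, ?_⟩
  rintro ⟨x, y⟩
  obtain ⟨u, hu, uq⟩ := core (n x) (fun i => K (e x i).1) (c x) (g x) (B y) lam (hs x) (hg x)
    (hB y) fun i a => hl y _ (hK x i).1 (hK x i).2 a
  let ψ : Fin (n x + 1) ⊕ Fin 5 → ℕ × Fin 5 := Sum.elim
    (fun i => (if sg (e x i).1 then 0 else 1, (e x i).2))
    (fun r => (if (e' y r).1 then 2 else 3, (e' y r).2))
  have mH : ∀ (s : Bool) j, ((x, y) - act (if s then 0 else 1) (t j, 0) ∈ A (if s then 0 else 1)) ↔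
      ((if s then x - t j else x + t j, y) : Z2) ∈ HA s := by
    rintro (_ | _) j <;> simp [act, A]
  have mV : ∀ (s : Bool) j, ((x, y) - act (if s then 2 else 3) (t j, 0) ∈ A (if s then 2 else 3)) ↔
      ((x, if s then y - t j else y + t j) : Z2) ∈ VA s := by
    rintro (_ | _) j <;> simp [act, A]
  have kH : ∀ (s : Bool) j, ((if s then x - t j else x + t j, y) : Z2) ∈ HA s →
      u.isLeft ∧ ψ u = (if s then 0 else 1, j) := by
    rintro s j ⟨f, rfl, hf, a, h1, h2⟩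
    obtain ⟨i, hi⟩ := (hP x f j).1 hf
    obtain rfl : Sum.inl i = u := uq _ ⟨a, by simp only [g, hi]; exact h1,
      by simp only [g, hi]; exact h2⟩
    exact ⟨rfl, by simp only [ψ, Sum.elim_inl, hi]⟩
  have kV : ∀ (s : Bool) j, ((x, if s then y - t j else y + t j) : Z2) ∈ VA s →
      ψ u = (if s then 2 else 3, j) := by
    rintro s j ⟨hf, i, m, h1, h2⟩
    obtain ⟨r, hr⟩ := (hQ y s j).1 hf
    obtain ⟨m', hm⟩ := hω y r
    simp only [hr] at hm
    obtain rfl : Sum.inr r = u := uq _ ⟨i, m - m', by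
      rw [hm]; push_cast; simp only at h1 ⊢; linarith, by
      rw [hm]; push_cast; simp only at h2 ⊢; linarith⟩
    simp only [ψ, Sum.elim_inr, hr]
  refine ⟨ψ u, ?_, ?_⟩
  · rcases u with i | r
    · obtain ⟨a, h1, h2⟩ := hu
      exact (mH _ _).2 ⟨(e x i).1, rfl, (hP x _ _).2 ⟨i, rfl⟩, a, h1, h2⟩
    · obtain ⟨i, m, h1, h2⟩ := hu
      obtain ⟨m', hm⟩ := hω y r
      refine (mV (e' y r).1 (e' y r).2).2 ⟨(hQ y _ _).2 ⟨r, rfl⟩, i, m' + m, ?_, ?_⟩
      · rw [hm] at h1; push_cast; linarith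
      · rw [hm] at h2; push_cast; linarith
  · rintro ⟨k, j⟩ h
    rcases k with _ | _ | _ | _ | k
    · exact (kH true j ((mH true j).1 h)).2.symm
    · exact (kH false j ((mH false j).1 h)).2.symm
    · exact (kV true j ((mV true j).1 h)).symm
    · exact (kV false j ((mV false j).1 h)).symm
    · exact absurd h (Set.notMem_empty _)

end Pool.Agent.Lib.B5
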