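import Pool.Agent.Lib.B5.Basic

/-! Product-phase tilings: a five-fold covering of the rows, a weighted covering of the columns. -/

set_option autoImplicit false

namespace Pool.Agent.Lib.B5

/-- Rows: every row lies in exactly five of the chosen translates of `±t`, whose phases,
read cyclically, have `k`-step gaps at least `lam k`. -/
def VStr (t : Fin 5 → ℤ) (lam : ℕ → ℝ) : Prop :=
  ∃ (P : Bool → ℤ → Prop) (ω : Bool → ℤ → ℝ), ∀ y : ℤ,
    ∃ (e : Fin 5 → Bool × Fin 5) (B : ℤ → ℝ), Function.Injective e ∧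
      (∀ s j, P s (if s then y - t j else y + t j) ↔ ∃ i, e i = (s, j)) ∧
      (∀ a, B (a + 5) = B a + 1) ∧
      (∀ i : Fin 5, ∃ m : ℤ, B (i : ℕ) =
        ω (e i).1 (if (e i).1 then y - t (e i).2 else y + t (e i).2) + m) ∧
      ∀ k : ℕ, 0 < k → k < 5 → ∀ a, lam k ≤ B (a + k) - B a

/-- Columns: families `f` of translates of `±t` with jump `K f` and phases `γ f`; the points lying
over a column are arranged in one cycle of total jump one, each step being at most `lam (K f)`. -/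
def HStr (t : Fin 5 → ℤ) (lam : ℕ → ℝ) : Prop :=
  ∃ (sg : ℕ → Bool) (K : ℕ → ℕ) (P : ℕ → ℤ → Prop) (γ : ℕ → ℤ → ℝ),
    ∀ x : ℤ, ∃ (n : ℕ) (e : Fin (n + 1) → ℕ × Fin 5) (c : Fin (n + 1) → ℤ),
      Function.Injective e ∧
      (∀ f j, P f (if sg f then x - t j else x + t j) ↔ ∃ i, e i = (f, j)) ∧
      (∀ i, 0 < K (e i).1 ∧ K (e i).1 < 5) ∧
      ∑ i, ((K (e i).1 : ℤ) + 5 * c i) = 1 ∧
      ∀ i, γ (e i).1 (if sg (e i).1 then x - t (e i).2 else x + t (e i).2) - lam (K (e i).1) ≤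
        γ (e (i + 1)).1 (if sg (e (i + 1)).1 then x - t (e (i + 1)).2 else x + t (e (i + 1)).2) +
          c i

def St_GAME : Prop := ∀ (t : Fin 5 → ℤ) (lam : ℕ → ℝ), HStr t lam → VStr t lam →
  Cov (fun j => (t j, 0))

/-- parity gauge: plus copies on one class of rows, minus copies on the other -/
def St_VPAR : Prop := ∀ (t : Fin 5 → ℤ) (lam : ℕ → ℝ) (par : Fin 5 → Bool) (a β c : ℝ)
  (B : ℤ → ℝ) (σ : Equiv.Perm (Fin 5)),
  (∀ j, ∃ m : ℤ, a * ((t j - t 0 : ℤ) : ℝ) = (if par j then 1 / 2 else 0) + m) →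
  (∀ i, B (i + 5) = B i + 1) →
  (∀ i : Fin 5, ∃ m : ℤ, B (i : ℕ) = (if par (σ i) then c - β * ((t (σ i) - t 0 : ℤ) : ℝ)
    else β * ((t (σ i) - t 0 : ℤ) : ℝ)) + m) →
  (∀ k : ℕ, 0 < k → k < 5 → ∀ i, lam k ≤ B (i + k) - B i) → VStr t lam

/-! ### Lines hitting a periodic union of polyhedra -/

/-- A polyhedron is a list of rows `(a, c)` meaning `dot a z ≤ c / M`. The first `d` coordinates
of `z` are `β * v i` modulo one, the others are free. -/
def Hit (d M : ℕ) (Ps : List (List (List ℤ × ℤ))) (v : ℕ → ℤ) : Prop :=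
  ∃ (β : ℝ) (z : ℕ → ℝ), (∀ i, i < d → ∃ m : ℤ, β * v i = z i + m) ∧
    ∃ P ∈ Ps, ∀ r ∈ P, dot r.1 z ≤ (r.2 : ℝ) / M

/-- every integer vector hits, or satisfies all relations of one of the listed exceptions -/
def Covers (d M : ℕ) (Ps : List (List (List ℤ × ℤ))) (Exc : List (List (List ℤ))) : Prop :=
  ∀ v : ℕ → ℤ, Hit d M Ps v ∨ ∃ e ∈ Exc, ∀ r ∈ e, dot r v = 0

end Pool.Agent.Lib.B5
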