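import Pool.Agent.Lib.B5.HDefs

/-! From a hit polyhedron to a column structure. -/

set_option autoImplicit false

namespace Pool.Agent.Lib.B5

namespace HALL

theorem dot_split (n : ℕ) (a : List ℤ) (u : ℕ → ℝ) :
    dot a u = dot (a.take n) u + dot (a.drop n) (fun i => u (n + i)) := by
  induction n generalizing a u with
  | zero => simp
  | succ n ih =>
    cases a with
    | nil => simp
    | cons x a =>
      simp only [List.take_succ_cons, List.drop_succ_cons, dot_cons]
      rw [ih a (fun i => u (i + 1))]
      have : (fun i => u (n + i + 1)) = fun i => u (n + 1 + i) := by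
        funext i
        rw [show n + i + 1 = n + 1 + i by omega]
      rw [this]
      ring

theorem ev_unit (q : ℕ) (w : ℕ → ℝ) (i : ℕ) : ev q w (unitPh i) = w i := by
  have h : ∀ (i : ℕ) (u : ℕ → ℝ), dot (unitPh i) u = u (i + 1) := by
    intro i
    induction i with
    | zero => intro u; simp [unitPh]
    | succ i ih => intro u; simp [unitPh, ih]
  cases i with
  | zero => simp [unitPh, ev]
  | succ i => simp [unitPh, ev, h]

theorem new_len (n F : ℕ) : (newRow (List.replicate n none) F).length = n := by
  induction n generalizing F with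
  | zero => rfl
  | succ n ih => simp [List.replicate_succ, newRow, ih]

theorem new_get (n F k : ℕ) (h : k < n) :
    (newRow (List.replicate n none) F).getD k [] = unitPh (F + k) := by
  induction n generalizing F k with
  | zero => omega
  | succ n ih =>
    cases k with
    | zero => simp [List.replicate_succ, newRow]
    | succ k =>
      simp only [List.replicate_succ, newRow, List.getD_cons_succ]
      rw [ih (F + 1) k (by omega), show F + 1 + k = F + (k + 1) by omega]

theorem row_short {F : ℕ} {r : List (List ℤ)} (h : rowShort F r = true) (k : ℕ) :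
    (r.getD k []).length ≤ F + 1 := by
  induction r generalizing k with
  | nil => simp
  | cons a r ih =>
    simp only [rowShort, Bool.and_eq_true, decide_eq_true_eq] at h
    cases k with
    | zero => simpa using h.1
    | succ k => simpa using ih h.2 k

theorem tab_short {F : ℕ} {T : List (List (List ℤ))} (h : tabShort F T = true) (c : ℕ) :
    rowShort F (T.getD c []) = true := by
  induction T generalizing c with
  | nil => simp [rowShort]
  | cons a r ih =>
    simp only [tabShort, Bool.and_eq_true] at h
    cases c with
    | zero => simpa using h.1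
    | succ c => simpa using ih h.2 c

theorem pick_cert {q : ℕ} {lam : List ℤ} {S : St} {F D : ℕ} {Ps : List (List (List ℤ × ℤ))}
    {Cs : List HCert} (h : hAll q lam S F D Ps Cs = true) {P : List (List ℤ × ℤ)} (hP : P ∈ Ps) :
    ∃ C : HCert, chkH q S C = true ∧ rowsFrom F D P (allRows q lam S C C.leaves) = true := by
  induction Ps generalizing Cs with
  | nil => simp at hP
  | cons Q Ps ih =>
    cases Cs with
    | nil => simp [hAll] at h
    | cons C Cs =>
      simp only [hAll, Bool.and_eq_true] at h
      rcases List.mem_cons.1 hP with rfl | hP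
      · exact ⟨C, h.1.1, h.1.2⟩
      · exact ih h.2 hP

theorem row_from {F : ℕ} {r : List ℤ × ℤ} {P : List (List ℤ × ℤ)} (h : rowFrom F r P = true) :
    ∃ s ∈ P, leq s.1 (r.1.tail.drop F) = true ∧ s.2 + r.1.headD 0 ≤ r.2 := by
  induction P with
  | nil => simp [rowFrom] at h
  | cons s P ih =>
    simp only [rowFrom, Bool.or_eq_true, Bool.and_eq_true, decide_eq_true_eq] at h
    rcases h with h | h
    · exact ⟨s, List.mem_cons_self, h⟩
    · obtain ⟨s', hs, h'⟩ := ih h
      exact ⟨s', List.mem_cons_of_mem _ hs, h'⟩

theorem rows_from {F D : ℕ} {P R : List (List ℤ × ℤ)} (h : rowsFrom F D P R = true) :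
    ∀ r ∈ R, rowIn F D r = true ∧
      ((lz (r.1.tail.drop F) = true ∧ r.1.headD 0 ≤ r.2) ∨ rowFrom F r P = true) := by
  induction R with
  | nil => simp
  | cons r R ih =>
    simp only [rowsFrom, Bool.and_eq_true, Bool.or_eq_true, decide_eq_true_eq] at h
    intro r' hr'
    rcases List.mem_cons.1 hr' with rfl | hr'
    · exact h.1
    · exact ih h.2 r' hr'

theorem ev_row {q F D : ℕ} {r : List ℤ × ℤ} (h : rowIn F D r = true) (u z : ℕ → ℝ)
    (hu : ∀ i, i < D → u (F + i) = z i) :
    ev q u r.1 = (r.1.headD 0 : ℤ) / (q : ℝ) + dot (r.1.tail.drop F) z := by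
  simp only [rowIn, Bool.and_eq_true] at h
  have h2 : lz ((r.1.tail.drop F).drop D) = true := by
    rw [List.drop_drop]
    exact h.2
  rw [ev_eq, dot_split F r.1.tail u, dot_lz h.1, dot_split D (r.1.tail.drop F) (fun i => u (F + i)),
    dot_split D (r.1.tail.drop F) z, dot_lz h2, dot_lz h2,
    dot_congr ((r.1.tail.drop F).take D) (w := fun i => u (F + i)) (w' := z)
      (fun i hi => hu i (lt_of_lt_of_le hi (List.length_take_le _ _)))]
  ring

end HALL

open HALL in
theorem stHALL (h : St_HCERT) : St_HALL := by
  intro q lam S F d D Ps Cs t o b α w hdn hdD hsh hall hdat hit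
  obtain ⟨β, z, hz, P, hP, hrows⟩ := hit
  obtain ⟨C, hC, hR⟩ := pick_cert hall hP
  have hq : (0 : ℝ) < q := by
    simp only [chkH, Bool.and_eq_true, decide_eq_true_eq] at hC
    exact_mod_cast hC.1.1.1.1
  let α' : ℕ → ℝ := fun c => if c = S.tab.length then β else α c
  let w' : ℕ → ℝ := fun i =>
    if i < F then w i else if i < F + D then z (i - F) else β * b (d + (i - F - D))
  have hw1 : ∀ i, i < F → w' i = w i := fun i hi => if_pos hi
  have hw2 : ∀ i, i < D → w' (F + i) = z i := by
    intro i hi
    show (if F + i < F then _ else if F + i < F + D then z (F + i - F) else _) = _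
    rw [if_neg (by omega), if_pos (by omega), Nat.add_sub_cancel_left]
  have hw3 : ∀ i, w' (F + D + i) = β * b (d + i) := by
    intro i
    show (if F + D + i < F then _ else if F + D + i < F + D then _ else
      β * b (d + (F + D + i - F - D))) = _
    rw [if_neg (by omega), if_neg (by omega), show F + D + i - F - D = i by omega]
  refine h q lam (S.addZ F d D) C t o b α' w' hC ⟨hdat.1, hdat.2.1, ?_⟩ ?_
  · intro c k
    by_cases hc : c = S.tab.length
    · have e1 : α' c = β := if_pos hc
      have e2 : (S.addZ F d D).row c = newRow (List.replicate d none) F ++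
          newRow (List.replicate (S.n - d) none) (F + D) := by
        simp [St.row, St.addZ, hc]
      rw [e1, e2]
      by_cases hk : k < d
      · rw [List.getD_append _ _ _ _ (by rw [new_len]; exact hk), new_get _ _ _ hk, ev_unit,
          hw2 k (by omega)]
        exact hz k hk
      · rw [List.getD_append_right _ _ _ _ (by rw [new_len]; omega), new_len]
        by_cases hk2 : k < S.n
        · rw [new_get _ _ _ (by omega), ev_unit, hw3, show d + (k - d) = k by omega]
          exact ⟨0, by simp⟩
        · rw [List.getD_eq_default _ _ (by rw [new_len]; omega), hdat.1 k (by omega)]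
          exact ⟨0, by simp [ev]⟩
    · have e1 : α' c = α c := if_neg hc
      have e2 : (S.addZ F d D).row c = S.row c := by
        simp only [St.row, St.addZ]
        by_cases hc2 : c < S.tab.length
        · exact List.getD_append _ _ _ _ hc2
        · rw [List.getD_eq_default _ _ (by simp; omega), List.getD_eq_default _ _ (by omega)]
      obtain ⟨m, hm⟩ := hdat.2.2 c k
      refine ⟨m, ?_⟩
      have hl : ((S.row c).getD k []).length ≤ F + 1 := row_short (tab_short hsh c) k
      rw [e1, e2, hm, ev_eq, ev_eq, dot_congr _ (w := w) (w' := w')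
        (fun i hi => (hw1 i (by rw [List.length_tail] at hi; omega)).symm)]
  · intro r hr
    obtain ⟨hin, hcase⟩ := rows_from hR r hr
    rw [ev_row hin w' z hw2]
    rcases hcase with ⟨h0, hle⟩ | hf
    · rw [dot_lz h0, add_zero]
      exact div_le_div_of_nonneg_right (by exact_mod_cast hle) hq.le
    · obtain ⟨s, hs, he, hle⟩ := row_from hf
      have h1 := hrows s hs
      rw [dot_leq he] at h1
      have h2 : ((s.2 : ℝ) + (r.1.headD 0 : ℤ)) / q ≤ (r.2 : ℝ) / q :=
        div_le_div_of_nonneg_right (by exact_mod_cast hle) hq.le
      rw [add_div] at h2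
      linarith

end Pool.Agent.Lib.B5
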