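import Pool.Agent.Lib.B5.HDefs
import Pool.Agent.Lib.B5.LEAF
import Pool.Agent.Lib.B5.KEL

/-! Soundness of the column certificates. -/

set_option autoImplicit false

namespace Pool.Agent.Lib.B5

namespace HCERT

open LEAF

abbrev En : Type := ℕ × ℕ × ℤ

theorem phEq_ev {q : ℕ} (hq : 0 < q) (w : ℕ → ℝ) {a b : List ℤ} (h : phEq q a b = true) :
    ∃ m : ℤ, ev q w a = ev q w b + m := by
  simp only [phEq, Bool.and_eq_true, beq_iff_eq] at h
  obtain ⟨h1, h3⟩ := h
  obtain ⟨k, hk⟩ := Int.dvd_of_emod_eq_zero h1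
  have hq2 : (q : ℝ) ≠ 0 := by exact_mod_cast hq.ne'
  have h4 : ((a.headD 0 : ℤ) : ℝ) - (b.headD 0 : ℤ) = q * k := by exact_mod_cast hk
  refine ⟨k, ?_⟩
  rw [ev_eq, ev_eq, dot_leq h3]
  field_simp
  linarith

theorem inside_all {q : ℕ} {S : St} {z : List ℤ × List ℤ} :
    ∀ (ls : List Lv) (os : List (Option (List ℤ))) (a : List (List ℤ)),
      inside q S z ls os a = true → ∀ l < ls.length, ∀ o, os.getD l none = some o →
        phEq q (ladd o (lvPh S z (ls.getD l (0, [])).2)) (a.getD l []) = true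
  | [], _, _, _, l, hl, _, _ => absurd hl (by simp)
  | _ :: _, [], _, _, l, _, o, ho => by simp at ho
  | x :: ls, some o' :: os, a, h, 0, _, o, ho => by
    rw [inside, Bool.and_eq_true] at h
    simp only [List.getD_cons_zero, Option.some.injEq] at ho
    subst ho
    have := h.1
    cases a <;> exact this
  | x :: ls, some o' :: os, a, h, l + 1, hl, o, ho => by
    rw [inside, Bool.and_eq_true] at h
    have := inside_all ls os a.tail h.2 l (by simpa using hl) o (by simpa using ho)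
    cases a <;> exact this
  | x :: ls, none :: os, a, h, 0, _, o, ho => by simp at ho
  | x :: ls, none :: os, a, h, l + 1, hl, o, ho => by
    rw [inside] at h
    have := inside_all ls os a.tail h l (by simpa using hl) o (by simpa using ho)
    cases a <;> exact this

theorem outside_ex {q : ℕ} {S : St} {z : List ℤ × List ℤ} :
    ∀ (ls : List Lv) (os : List (Option (List ℤ))) (a : List (List ℤ)),
      outside q S z ls os a = true → ∃ l < ls.length, ∃ o, os.getD l none = some o ∧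
        sepAt q (ls.getD l (0, [])).1 (ladd o (lvPh S z (ls.getD l (0, [])).2))
          (a.getD l []) = true
  | [], _, _, h => by simp [outside] at h
  | _ :: _, [], _, h => by simp [outside] at h
  | x :: ls, some o' :: os, a, h => by
    rw [outside, Bool.or_eq_true] at h
    rcases h with h | h
    · refine ⟨0, by simp, o', rfl, ?_⟩
      cases a <;> exact h
    · obtain ⟨l, h1, o, h2, h3⟩ := outside_ex ls os a.tail h
      refine ⟨l + 1, by simpa using h1, o, by simpa using h2, ?_⟩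
      cases a <;> exact h3
  | x :: ls, none :: os, a, h => by
    rw [outside] at h
    obtain ⟨l, h1, o, h2, h3⟩ := outside_ex ls os a.tail h
    refine ⟨l + 1, by simpa using h1, o, by simpa using h2, ?_⟩
    cases a <;> exact h3

theorem listed_iff (f j : ℕ) : ∀ l : List En, listed f j l = true ↔
    ∃ i < l.length, (l.getD i (0, 0, 0)).1 = f ∧ (l.getD i (0, 0, 0)).2.1 = j
  | [] => by simp [listed]
  | e :: l => by
    rw [listed, Bool.or_eq_true, listed_iff f j l, Bool.and_eq_true, beq_iff_eq, beq_iff_eq]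
    constructor
    · rintro (h | ⟨i, hi, h⟩)
      · exact ⟨0, by simp, h⟩
      · exact ⟨i + 1, by simpa using hi, h⟩
    · rintro ⟨i, hi, h⟩
      cases i with
      | zero => exact Or.inl h
      | succ i => exact Or.inr ⟨i, by simpa using hi, h⟩

theorem colOK_at {fam : List Fam} : ∀ l : List En, colOK fam l = true → ∀ i < l.length,
    (l.getD i (0, 0, 0)).1 < fam.length ∧ (l.getD i (0, 0, 0)).2.1 < 5 ∧
      0 < (famAt fam (l.getD i (0, 0, 0)).1).K ∧ (famAt fam (l.getD i (0, 0, 0)).1).K < 5 ∧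
      ∀ k < l.length, i < k → ¬ ((l.getD k (0, 0, 0)).1 = (l.getD i (0, 0, 0)).1 ∧
        (l.getD k (0, 0, 0)).2.1 = (l.getD i (0, 0, 0)).2.1)
  | [], _, i, hi => absurd hi (by simp)
  | e :: l, h, i, hi => by
    simp only [colOK, Bool.and_eq_true, decide_eq_true_eq, Bool.not_eq_true'] at h
    obtain ⟨⟨⟨⟨⟨h1, h2⟩, h3⟩, h4⟩, h5⟩, h6⟩ := h
    cases i with
    | zero =>
      refine ⟨h1, h2, h3, h4, fun k hk h0 hh => ?_⟩
      obtain ⟨k, rfl⟩ := Nat.exists_eq_succ_of_ne_zero h0.ne'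
      have := (listed_iff e.1 e.2.1 l).2 ⟨k, by simpa using hk, hh⟩
      rw [h5] at this
      exact absurd this (by simp)
    | succ i =>
      obtain ⟨a1, a2, a3, a4, a5⟩ := colOK_at l h6 i (by simpa using hi)
      refine ⟨a1, a2, a3, a4, fun k hk h0 => ?_⟩
      obtain ⟨k, rfl⟩ := Nat.exists_eq_succ_of_ne_zero (show k ≠ 0 by omega)
      exact a5 k (by simpa using hk) (by omega)

theorem colSum_eq (fam : List Fam) : ∀ l : List En, colSum fam l =
    ∑ i ∈ Finset.range l.length,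
      (((famAt fam (l.getD i (0, 0, 0)).1).K : ℤ) + 5 * (l.getD i (0, 0, 0)).2.2)
  | [] => by simp [colSum]
  | e :: l => by
    rw [colSum, colSum_eq fam l, List.length_cons, Finset.sum_range_succ']
    simp only [List.getD_cons_succ, List.getD_cons_zero]
    ring

theorem colRows_mem (q : ℕ) (lam : List ℤ) (S : St) (C : HCert) (e0 : En) :
    ∀ (l : List En) (i : ℕ), i < l.length →
      stepRow q lam S C (l.getD i (0, 0, 0))
        (if i + 1 < l.length then l.getD (i + 1) (0, 0, 0) else e0) ∈ colRows q lam S C e0 l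
  | [], i, hi => absurd hi (by simp)
  | [e], i, hi => by
    have : i = 0 := by simpa using hi
    subst this
    simp [colRows]
  | e :: e' :: l, 0, _ => by simp [colRows]
  | e :: e' :: l, i + 1, hi => by
    have := colRows_mem q lam S C e0 (e' :: l) i (by simpa using hi)
    rw [colRows]
    refine List.mem_cons_of_mem _ ?_
    simpa using this

theorem allRows_mem {q : ℕ} {lam : List ℤ} {S : St} {C : HCert} :
    ∀ (Ls : List (List (List ℤ) × List En)), ∀ L ∈ Ls,
      ∀ r ∈ colRows q lam S C (L.2.headD (0, 0, 0)) L.2, r ∈ allRows q lam S C Ls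
  | [], _, h, _, _ => absurd h (by simp)
  | L' :: Ls, L, h, r, hr => by
    rw [allRows, List.mem_append]
    rcases List.mem_cons.1 h with rfl | h
    · exact Or.inl hr
    · exact Or.inr (allRows_mem Ls L h r hr)

theorem leavesOK_mem {q : ℕ} {S : St} {C : HCert} :
    ∀ (Ls : List (List (List ℤ) × List En)), leavesOK q S C Ls = true → ∀ L ∈ Ls,
      famsOK q S C.lv L 0 C.fam = true ∧ colOK C.fam L.2 = true ∧ colSum C.fam L.2 = 1
  | [], _, _, h => absurd h (by simp)
  | L' :: Ls, h0, L, h => by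
    simp only [leavesOK, Bool.and_eq_true, beq_iff_eq] at h0
    rcases List.mem_cons.1 h with rfl | h
    · exact ⟨h0.1.1.1, h0.1.1.2, h0.1.2⟩
    · exact leavesOK_mem Ls h0.2 L h

theorem famsOK_at {q : ℕ} {S : St} {lv : List Lv} {L : List (List ℤ) × List En} :
    ∀ (r : List Fam) (f0 : ℕ), famsOK q S lv L f0 r = true → ∀ f < r.length, ∀ j < 5,
      ptOK q S lv L (f0 + f) (famAt r f) j = true
  | [], _, _, f, hf, _, _ => absurd hf (by simp)
  | φ :: r, f0, h, f, hf, j, hj => by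
    simp only [famsOK, Bool.and_eq_true] at h
    obtain ⟨⟨⟨⟨⟨h0, h1⟩, h2⟩, h3⟩, h4⟩, h5⟩ := h
    cases f with
    | zero => interval_cases j <;> assumption
    | succ f =>
      have := famsOK_at r (f0 + 1) h5 f (by simpa using hf) j hj
      rw [show f0 + (f + 1) = f0 + 1 + f by ring]
      exact this

theorem leafPh_length : ∀ Ls : List (List (List ℤ) × List En), (leafPh Ls).length = Ls.length
  | [] => rfl
  | L :: Ls => by simp [leafPh, leafPh_length Ls]

theorem leafPh_getD : ∀ (Ls : List (List (List ℤ) × List En)) (i : ℕ),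
    (leafPh Ls).getD i [] = (Ls.getD i ([], [])).1
  | [], _ => by simp [leafPh]
  | L :: Ls, 0 => rfl
  | L :: Ls, i + 1 => by
    rw [leafPh, List.getD_cons_succ, List.getD_cons_succ, leafPh_getD Ls i]

/-- one leaf has all digits zero -/
theorem exists_leaf {q : ℕ} (hq : 0 < q) (w : ℕ → ℝ) {lv : List Lv}
    {Ls : List (List (List ℤ) × List En)} (hp : 0 < prodP lv) (hm : Ls.length = prodP lv)
    (hpair : allPairs q lv (leafPh Ls) = true) (ψ : ℕ → ℝ) :
    ∃ L ∈ Ls, ∀ l < lv.length, ((lv.getD l (0, [])).1 : ℤ) ∣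
      ⌊((lv.getD l (0, [])).1 : ℝ) * (ψ l - ev q w (L.1.getD l []))⌋ := by
  rw [← prod_eq] at hp hm
  have pw := List.pairwise_iff_getElem.1 (allPairs_pw _ hpair)
  have key : ∀ x y : Fin Ls.length, x.1 < y.1 → ∃ l : Fin lv.length, ∃ k : ℤ,
      ¬(((lv.getD l (0, [])).1 : ℤ) ∣ k) ∧ ((lv.getD l (0, [])).1 : ℝ) *
        (ev q w ((Ls.getD x ([], [])).1.getD l []) - ev q w ((Ls.getD y ([], [])).1.getD l [])) =
        k := by
    intro x y hxy
    have hy : y.1 < (leafPh Ls).length := by rw [leafPh_length]; exact y.2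
    have h1 := pw _ _ (hxy.trans hy) hy hxy
    rw [← List.getD_eq_getElem _ [], ← List.getD_eq_getElem _ [], leafPh_getD, leafPh_getD] at h1
    obtain ⟨l, hl, h2⟩ := sepAny_ex _ _ _ h1
    obtain ⟨k, h3, h4⟩ := sepAt_ev hq w h2
    exact ⟨⟨l, hl⟩, k, h3, h4⟩
  obtain ⟨x, hx, -⟩ := kel_unique (ι := Fin Ls.length) lv.length
    (fun l => (lv.getD l (0, [])).1)
    (fun l => Nat.pos_of_ne_zero (Finset.prod_ne_zero_iff.1 hp.ne' l (Finset.mem_univ _)))
    (by rw [Fintype.card_fin]; exact hm)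
    (fun x l => ((lv.getD l (0, [])).1 : ℝ) * (ψ l - ev q w ((Ls.getD x ([], [])).1.getD l [])))
    (fun x y hxy => by
      rcases lt_or_gt_of_ne (fun e => hxy (Fin.ext e)) with h1 | h1
      · obtain ⟨l, k, h2, h3⟩ := key x y h1
        exact ⟨l, k, h2, by linarith⟩
      · obtain ⟨l, k, h2, h3⟩ := key y x h1
        refine ⟨l, -k, fun hd => h2 (dvd_neg.1 hd), ?_⟩
        push_cast
        linarith)
  refine ⟨Ls.getD x ([], []), ?_, fun l hl => hx ⟨l, hl⟩⟩
  rw [List.getD_eq_getElem _ _ x.2]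
  exact List.getElem_mem _

/-- a level read at a point over the column `x` -/
theorem level_pt {q : ℕ} {S : St} {t : Fin 5 → ℤ} {o : ℤ} {b : ℕ → ℤ} {α w : ℕ → ℝ}
    (hD : S.Data q t o b α w) (s : Bool) (j : Fin 5) (ts : List (ℕ × ℤ × ℤ)) :
    ∃ m : ℤ, ∀ x : ℤ, la α ts *
        (((if s then x - t j else x + t j) + (if s then o else -o) : ℤ) : ℝ) =
      la α ts * x - ev q w (lvPh S (sgPt S s j) ts) - m := by
  obtain ⟨m, hm⟩ := lvPh_ev hD.2.2 (sgPt S s j) ts
  refine ⟨m, fun x => ?_⟩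
  have ht := hD.2.1 j
  cases s
  · simp only [sgPt, Bool.false_eq_true, if_false, dot_lsmul, dot_nil] at hm ⊢
    rw [ht]
    push_cast at hm ⊢
    linarith
  · simp only [sgPt, if_true, dot_nil] at hm ⊢
    rw [ht]
    push_cast at hm ⊢
    linarith

end HCERT

open LEAF HCERT in
theorem stHCERT : St_HCERT := by
  intro q lam S C t o b α w hc hD hR
  simp only [chkH, Bool.and_eq_true, decide_eq_true_eq, beq_iff_eq] at hc
  obtain ⟨⟨⟨⟨hq, hp⟩, hm⟩, hpair⟩, hL⟩ := hc
  have hq2 : (q : ℝ) ≠ 0 := by exact_mod_cast hq.ne'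
  choose N hN using fun (s : Bool) (j : Fin 5) => level_pt hD s j C.th
  refine ⟨fun f => (famAt C.fam f).sg, fun f => (famAt C.fam f).K,
    fun f x0 => f < C.fam.length ∧ ∀ l < C.lv.length, ∀ o', (famAt C.fam f).off.getD l none =
      some o' → ((C.lv.getD l (0, [])).1 : ℤ) ∣ ⌊((C.lv.getD l (0, [])).1 : ℝ) *
        (la α (C.lv.getD l (0, [])).2 *
          ((x0 + (if (famAt C.fam f).sg then o else -o) : ℤ) : ℝ) - ev q w o')⌋,
    fun f x0 => ev q w (famAt C.fam f).G -
      la α C.th * ((x0 + (if (famAt C.fam f).sg then o else -o) : ℤ) : ℝ), fun x => ?_⟩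
  obtain ⟨L, hLm, hx⟩ := exists_leaf hq w hp hm hpair
    (fun l => la α (C.lv.getD l (0, [])).2 * x)
  obtain ⟨hF, hC, hS⟩ := leavesOK_mem _ hL L hLm
  have hne : L.2.length ≠ 0 := fun h0 => by
    rw [List.length_eq_zero_iff.1 h0] at hS
    simp [colSum] at hS
  obtain ⟨n, hn⟩ := Nat.exists_eq_succ_of_ne_zero hne
  have hlt : ∀ i : Fin (n + 1), i.1 < L.2.length := fun i => by rw [hn]; exact i.2
  let e : Fin (n + 1) → ℕ × Fin 5 := fun i =>
    ((L.2.getD i (0, 0, 0)).1, ⟨(L.2.getD i (0, 0, 0)).2.1, (colOK_at _ hC i (hlt i)).2.1⟩)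
  let nn : Fin (n + 1) → ℤ := fun i => N (famAt C.fam (e i).1).sg (e i).2
  refine ⟨n, e, fun i => (L.2.getD i (0, 0, 0)).2.2 + nn i - nn (i + 1), ?_, ?_, ?_, ?_, ?_⟩
  · intro i k hik
    have h1 : (L.2.getD i (0, 0, 0)).1 = (L.2.getD k (0, 0, 0)).1 :=
      congrArg (fun z : ℕ × Fin 5 => z.1) hik
    have h2 : (L.2.getD i (0, 0, 0)).2.1 = (L.2.getD k (0, 0, 0)).2.1 :=
      congrArg (fun z : ℕ × Fin 5 => z.2.1) hik
    rcases lt_trichotomy i.1 k.1 with h | h | h
    · exact absurd ⟨h1.symm, h2.symm⟩ ((colOK_at _ hC i (hlt i)).2.2.2.2 k (hlt k) h)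
    · exact Fin.ext h
    · exact absurd ⟨h1, h2⟩ ((colOK_at _ hC k (hlt k)).2.2.2.2 i (hlt i) h)
  · intro f j
    have hl : listed f j L.2 = true ↔ ∃ i, e i = (f, j) := by
      rw [listed_iff]
      constructor
      · rintro ⟨i, hi, h1, h2⟩
        exact ⟨⟨i, by omega⟩, Prod.ext h1 (Fin.ext h2)⟩
      · rintro ⟨i, hi⟩
        exact ⟨i, hlt i, congrArg Prod.fst hi, congrArg (fun z : ℕ × Fin 5 => z.2.1) hi⟩
    rw [← hl]
    constructor
    · rintro ⟨hf, hP⟩
      by_contra hnl
      have h1 := famsOK_at _ _ hF f hf j j.2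
      rw [zero_add, ptOK, if_neg hnl] at h1
      obtain ⟨l, hl', o', h2, h3⟩ := outside_ex _ _ _ h1
      obtain ⟨k, h4, h5⟩ := sepAt_ev hq w h3
      obtain ⟨m, hm'⟩ := level_pt hD (famAt C.fam f).sg j (C.lv.getD l (0, [])).2
      have h6 := hP l hl' o' h2
      rw [hm' x] at h6
      rw [ev_ladd] at h5
      have h7 : ((C.lv.getD l (0, [])).1 : ℝ) * (la α (C.lv.getD l (0, [])).2 * x -
          ev q w (lvPh S (sgPt S (famAt C.fam f).sg j) (C.lv.getD l (0, [])).2) - m - ev q w o') =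
          ((C.lv.getD l (0, [])).1 : ℝ) * (la α (C.lv.getD l (0, [])).2 * x -
            ev q w (L.1.getD l [])) + ((-k - (C.lv.getD l (0, [])).1 * m : ℤ) : ℝ) := by
        push_cast
        linarith
      rw [h7, Int.floor_add_intCast] at h6
      have h8 := (dvd_add_right (hx l hl')).1 h6
      exact h4 (dvd_neg.1 ((dvd_sub_left (dvd_mul_right _ m)).1 h8))
    · intro hli
      obtain ⟨i, hi, h1, h2⟩ := (listed_iff _ _ _).1 hli
      have hf : f < C.fam.length := h1 ▸ (colOK_at _ hC i hi).1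
      refine ⟨hf, fun l hl' o' ho => ?_⟩
      have h3 := famsOK_at _ _ hF f hf j j.2
      rw [zero_add, ptOK, if_pos hli] at h3
      obtain ⟨k, hk⟩ := phEq_ev hq w (inside_all _ _ _ h3 l hl' o' ho)
      obtain ⟨m, hm'⟩ := level_pt hD (famAt C.fam f).sg j (C.lv.getD l (0, [])).2
      rw [hm' x]
      rw [ev_ladd] at hk
      have h7 : ((C.lv.getD l (0, [])).1 : ℝ) * (la α (C.lv.getD l (0, [])).2 * x -
          ev q w (lvPh S (sgPt S (famAt C.fam f).sg j) (C.lv.getD l (0, [])).2) - m - ev q w o') =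
          ((C.lv.getD l (0, [])).1 : ℝ) * (la α (C.lv.getD l (0, [])).2 * x -
            ev q w (L.1.getD l [])) + (((C.lv.getD l (0, [])).1 * (-k - m) : ℤ) : ℝ) := by
        push_cast
        linear_combination (-((C.lv.getD l (0, [])).1 : ℝ)) * hk
      rw [h7, Int.floor_add_intCast]
      exact dvd_add (hx l hl') (dvd_mul_right _ _)
  · intro i
    exact ⟨(colOK_at _ hC i (hlt i)).2.2.1, (colOK_at _ hC i (hlt i)).2.2.2.1⟩
  · have h1 : ∑ i, nn (i + 1) = ∑ i, nn i := Equiv.sum_comp (Equiv.addRight 1) nn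
    rw [colSum_eq, hn, ← Fin.sum_univ_eq_sum_range (fun i =>
      (((famAt C.fam (L.2.getD i (0, 0, 0)).1).K : ℤ) + 5 * (L.2.getD i (0, 0, 0)).2.2))] at hS
    have h2 : ∀ i : Fin (n + 1), (((famAt C.fam (e i).1).K : ℤ) +
        5 * ((L.2.getD i (0, 0, 0)).2.2 + nn i - nn (i + 1))) =
        (((famAt C.fam (L.2.getD i (0, 0, 0)).1).K : ℤ) + 5 * (L.2.getD i (0, 0, 0)).2.2) +
          5 * nn i - 5 * nn (i + 1) := fun i => by
      simp only [e]
      ring
    simp only [h2]
    rw [Finset.sum_sub_distrib, Finset.sum_add_distrib, ← Finset.mul_sum, ← Finset.mul_sum, h1]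
    erw [hS]
    ring
  · intro i
    have h1 := colRows_mem q lam S C (L.2.headD (0, 0, 0)) L.2 i (hlt i)
    have h2 : (if i.1 + 1 < L.2.length then L.2.getD (i.1 + 1) (0, 0, 0)
        else L.2.headD (0, 0, 0)) = L.2.getD (i + 1 : Fin (n + 1)) (0, 0, 0) := by
      rw [Fin.val_add_one]
      by_cases h : i = Fin.last n
      · rw [if_pos h, if_neg (by rw [h, hn]; simp)]
        cases L.2 <;> rfl
      · rw [if_neg h, if_pos (by
          have := Fin.val_lt_last h
          omega)]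
    rw [h2] at h1
    have h3 := hR _ (allRows_mem _ L hLm _ h1)
    simp only [stepRow, ptPh, ev_ladd, ev_lsmul] at h3
    have h4 := hN (famAt C.fam (e i).1).sg (e i).2 x
    have h5 := hN (famAt C.fam (e (i + 1)).1).sg (e (i + 1)).2 x
    dsimp only
    rw [h4, h5]
    simp only [lamF, nn, e]
    push_cast at h3 ⊢
    rw [add_div, mul_div_cancel_right₀ _ hq2] at h3
    linarith

end Pool.Agent.Lib.B5
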