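import Pool.Agent.Lib.B5.GDefs

/-! Certificates for column structures, polyhedra of row structures, game nodes. -/

set_option autoImplicit false

namespace Pool.Agent.Lib.B5

/-- the data behind `St.Holds` for a horizontal set -/
def St.Data (q : ℕ) (S : St) (t : Fin 5 → ℤ) (o : ℤ) (b : ℕ → ℤ) (α w : ℕ → ℝ) : Prop :=
  (∀ k, S.n ≤ k → b k = 0) ∧ (∀ j : Fin 5, t j = o + dot (S.pt j).1 b) ∧
    ∀ c k, ∃ m : ℤ, α c * b k = ev q w ((S.row c).getD k []) + m

noncomputable def lamF (q : ℕ) (lam : List ℤ) : ℕ → ℝ := fun k => (lam.getD k 0 : ℝ) / q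

/-! ### Column certificates -/

/-- a family: sign, jump, optional offset on each level, phase -/
structure Fam where
  sg : Bool
  K : ℕ
  off : List (Option (List ℤ))
  G : List ℤ

structure HCert where
  lv : List (ℕ × List (ℕ × ℤ × ℤ))
  th : List (ℕ × ℤ × ℤ)
  fam : List Fam
  leaves : List (List (List ℤ) × List (ℕ × ℕ × ℤ))

def sgPt (S : St) (s : Bool) (j : ℕ) : List ℤ × List ℤ :=
  (if s then (S.pt j).1 else lsmul (-1) (S.pt j).1, [])

def inside (q : ℕ) (S : St) (z : List ℤ × List ℤ) :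
    List (ℕ × List (ℕ × ℤ × ℤ)) → List (Option (List ℤ)) → List (List ℤ) → Bool
  | l :: ls, some o :: os, a => phEq q (ladd o (lvPh S z l.2)) (a.headD []) &&
      inside q S z ls os a.tail
  | _ :: ls, none :: os, a => inside q S z ls os a.tail
  | _, _, _ => true

def outside (q : ℕ) (S : St) (z : List ℤ × List ℤ) :
    List (ℕ × List (ℕ × ℤ × ℤ)) → List (Option (List ℤ)) → List (List ℤ) → Bool
  | l :: ls, some o :: os, a => sepAt q l.1 (ladd o (lvPh S z l.2)) (a.headD []) ||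
      outside q S z ls os a.tail
  | _ :: ls, none :: os, a => outside q S z ls os a.tail
  | _, _, _ => false

def listed (f j : ℕ) : List (ℕ × ℕ × ℤ) → Bool
  | [] => false
  | e :: l => (e.1 == f && e.2.1 == j) || listed f j l

def ptOK (q : ℕ) (S : St) (lv : List (ℕ × List (ℕ × ℤ × ℤ)))
    (L : List (List ℤ) × List (ℕ × ℕ × ℤ)) (f : ℕ) (φ : Fam) (j : ℕ) : Bool :=
  if listed f j L.2 then inside q S (sgPt S φ.sg j) lv φ.off L.1
  else outside q S (sgPt S φ.sg j) lv φ.off L.1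

def famsOK (q : ℕ) (S : St) (lv : List (ℕ × List (ℕ × ℤ × ℤ)))
    (L : List (List ℤ) × List (ℕ × ℕ × ℤ)) : ℕ → List Fam → Bool
  | _, [] => true
  | f, φ :: r => ptOK q S lv L f φ 0 && ptOK q S lv L f φ 1 && ptOK q S lv L f φ 2 &&
      ptOK q S lv L f φ 3 && ptOK q S lv L f φ 4 && famsOK q S lv L (f + 1) r

def famAt (fam : List Fam) (f : ℕ) : Fam := fam.getD f ⟨true, 0, [], []⟩

def colOK (fam : List Fam) : List (ℕ × ℕ × ℤ) → Bool
  | [] => true
  | e :: l => decide (e.1 < fam.length) && decide (e.2.1 < 5) && decide (0 < (famAt fam e.1).K) &&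
      decide ((famAt fam e.1).K < 5) && !listed e.1 e.2.1 l && colOK fam l

def colSum (fam : List Fam) : List (ℕ × ℕ × ℤ) → ℤ
  | [] => 0
  | e :: l => ((famAt fam e.1).K : ℤ) + 5 * e.2.2 + colSum fam l

/-- formal phase of a point over a column -/
def ptPh (S : St) (C : HCert) (e : ℕ × ℕ × ℤ) : List ℤ :=
  ladd (famAt C.fam e.1).G (lvPh S (sgPt S (famAt C.fam e.1).sg e.2.1) C.th)

/-- the step from `e` to `e'` as a pair (difference of the phases, bound) -/
def stepRow (q : ℕ) (lam : List ℤ) (S : St) (C : HCert) (e e' : ℕ × ℕ × ℤ) : List ℤ × ℤ :=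
  (ladd (ptPh S C e) (lsmul (-1) (ptPh S C e')),
    lam.getD (famAt C.fam e.1).K 0 + e.2.2 * q)

def colRows (q : ℕ) (lam : List ℤ) (S : St) (C : HCert) (e0 : ℕ × ℕ × ℤ) :
    List (ℕ × ℕ × ℤ) → List (List ℤ × ℤ)
  | [] => []
  | [e] => [stepRow q lam S C e e0]
  | e :: e' :: l => stepRow q lam S C e e' :: colRows q lam S C e0 (e' :: l)

def allRows (q : ℕ) (lam : List ℤ) (S : St) (C : HCert) :
    List (List (List ℤ) × List (ℕ × ℕ × ℤ)) → List (List ℤ × ℤ)
  | [] => []
  | L :: r => colRows q lam S C (L.2.headD (0, 0, 0)) L.2 ++ allRows q lam S C r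

def leavesOK (q : ℕ) (S : St) (C : HCert) : List (List (List ℤ) × List (ℕ × ℕ × ℤ)) → Bool
  | [] => true
  | L :: r => famsOK q S C.lv L 0 C.fam && colOK C.fam L.2 && colSum C.fam L.2 == 1 &&
      leavesOK q S C r

def leafPh : List (List (List ℤ) × List (ℕ × ℕ × ℤ)) → List (List (List ℤ))
  | [] => []
  | L :: r => L.1 :: leafPh r

def chkH (q : ℕ) (S : St) (C : HCert) : Bool :=
  decide (0 < q) && decide (0 < prodP C.lv) && (C.leaves.length == prodP C.lv) &&
    allPairs q C.lv (leafPh C.leaves) && leavesOK q S C C.leaves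

def St_HCERT : Prop := ∀ (q : ℕ) (lam : List ℤ) (S : St) (C : HCert) (t : Fin 5 → ℤ) (o : ℤ)
  (b : ℕ → ℤ) (α w : ℕ → ℝ), chkH q S C = true → S.Data q t o b α w →
  (∀ r ∈ allRows q lam S C C.leaves, ev q w r.1 ≤ (r.2 : ℝ) / q) → HStr t (lamF q lam)

/-! ### From formal rows to polyhedra -/

/-- the state with one more multiplier: free reals `F, .., F+d-1` on the first `d` unknowns,
fresh ones from `F+D` on for the others -/
def St.addZ (S : St) (F d D : ℕ) : St :=
  ⟨S.n, S.ch, S.tab ++ [newRow (List.replicate d none) F ++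
    newRow (List.replicate (S.n - d) none) (F + D)]⟩

/-- the row only involves the free reals `F, .., F+D-1` -/
def rowIn (F D : ℕ) (r : List ℤ × ℤ) : Bool := lz (r.1.tail.take F) && lz (r.1.tail.drop (F + D))

/-- the formal row `r` follows from one row of `P` -/
def rowFrom (F : ℕ) (r : List ℤ × ℤ) : List (List ℤ × ℤ) → Bool
  | [] => false
  | s :: P => (leq s.1 (r.1.tail.drop F) && decide (s.2 + r.1.headD 0 ≤ r.2)) || rowFrom F r P

def rowsFrom (F D : ℕ) (P : List (List ℤ × ℤ)) : List (List ℤ × ℤ) → Bool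
  | [] => true
  | r :: l => rowIn F D r && ((lz (r.1.tail.drop F) && decide (r.1.headD 0 ≤ r.2)) ||
      rowFrom F r P) && rowsFrom F D P l

/-- every polyhedron comes with a column certificate whose rows it implies -/
def hAll (q : ℕ) (lam : List ℤ) (S : St) (F D : ℕ) :
    List (List (List ℤ × ℤ)) → List HCert → Bool
  | [], _ => true
  | _ :: _, [] => false
  | P :: Ps, C :: Cs => chkH q S C && rowsFrom F D P (allRows q lam S C C.leaves) &&
      hAll q lam S F D Ps Cs

def St_HALL : Prop := ∀ (q : ℕ) (lam : List ℤ) (S : St) (F d D : ℕ)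
  (Ps : List (List (List ℤ × ℤ))) (Cs : List HCert) (t : Fin 5 → ℤ) (o : ℤ) (b : ℕ → ℤ)
  (α w : ℕ → ℝ), d ≤ S.n → d ≤ D → tabShort F S.tab = true →
  hAll q lam (S.addZ F d D) F D Ps Cs = true → S.Data q t o b α w → Hit d q Ps b →
  HStr t (lamF q lam)

/-! ### Row polyhedra -/

/-- `B i - B (i + k) ≤ -lam k` for the cyclic arrangement `E` -/
def vRow (q : ℕ) (lam : List ℤ) (E : List (List ℤ)) (i k : ℕ) : List ℤ × ℤ :=
  if i + k < 5 then (ladd (E.getD i []) (lsmul (-1) (E.getD (i + k) [])), -lam.getD k 0)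
  else (ladd (E.getD i []) (lsmul (-1) (E.getD (i + k - 5) [])), q - lam.getD k 0)

def vRows (q : ℕ) (lam : List ℤ) (E : List (List ℤ)) (k : ℕ) : List (List ℤ × ℤ) :=
  [vRow q lam E 0 k, vRow q lam E 1 k, vRow q lam E 2 k, vRow q lam E 3 k, vRow q lam E 4 k]

def vPoly (q : ℕ) (lam : List ℤ) (E : List (List ℤ)) : List (List ℤ × ℤ) :=
  vRows q lam E 1 ++ vRows q lam E 2 ++ vRows q lam E 3 ++ vRows q lam E 4

def pick (E : List (List ℤ)) : List ℕ → List (List ℤ)
  | [] => []
  | i :: σ => E.getD i [] :: pick E σ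

def vPolys (q : ℕ) (lam : List ℤ) (E : List (List ℤ)) : List (List ℕ) → List (List (List ℤ × ℤ))
  | [] => []
  | σ :: l => vPoly q lam (pick E σ) :: vPolys q lam E l

/-- the 24 cyclic orders -/
def ords : List (List ℕ) :=
  [[0,1,2,3,4],[0,1,2,4,3],[0,1,3,2,4],[0,1,3,4,2],[0,1,4,2,3],[0,1,4,3,2],
   [0,2,1,3,4],[0,2,1,4,3],[0,2,3,1,4],[0,2,3,4,1],[0,2,4,1,3],[0,2,4,3,1],
   [0,3,1,2,4],[0,3,1,4,2],[0,3,2,1,4],[0,3,2,4,1],[0,3,4,1,2],[0,3,4,2,1],
   [0,4,1,2,3],[0,4,1,3,2],[0,4,2,1,3],[0,4,2,3,1],[0,4,3,1,2],[0,4,3,2,1]]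

def E41 : List (List ℤ) := [[], [1], [0, 1], [0, 0, 1], [0, 0, 0, 1]]

def E32 : List (List ℤ) := [[], [1], [0, 1], [0, 0, 0, 1], [0, 0, -1, 1]]

def ptDiff (S : St) (i j : ℕ) : List ℤ := ladd (S.pt i).1 (lsmul (-1) (S.pt j).1)

/-- the three differences used by the row structure; `π` lists first the points of the class of
`π 0`; `four = true` for the pattern 4-1, `false` for 3-2 -/
def vForms (S : St) (four : Bool) (π : List ℕ) : List (List ℤ) :=
  [ptDiff S (π.getD 1 0) (π.getD 0 0), ptDiff S (π.getD 2 0) (π.getD 0 0),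
    if four then ptDiff S (π.getD 3 0) (π.getD 0 0) else ptDiff S (π.getD 4 0) (π.getD 3 0)]

/-- multiplier `c` is zero or one half on the differences, as the pattern demands -/
def parOK (q : ℕ) (S : St) (c : ℕ) (four : Bool) (π : List ℕ) : Bool :=
  decide (0 < q) && q % 2 == 0 && permOK π &&
  phEq q (comb (ptDiff S (π.getD 1 0) (π.getD 0 0)) (S.row c)) [] &&
  phEq q (comb (ptDiff S (π.getD 2 0) (π.getD 0 0)) (S.row c)) [] &&
  phEq q (comb (ptDiff S (π.getD 3 0) (π.getD 0 0)) (S.row c))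
    (if four then [] else [((q / 2 : ℕ) : ℤ)]) &&
  phEq q (comb (ptDiff S (π.getD 4 0) (π.getD 0 0)) (S.row c)) [((q / 2 : ℕ) : ℤ)]

def St_VALL : Prop := ∀ (q : ℕ) (lam : List ℤ) (S : St) (c : ℕ) (four : Bool) (π : List ℕ)
  (t : Fin 5 → ℤ) (o : ℤ) (b : ℕ → ℤ) (α w : ℕ → ℝ), parOK q S c four π = true →
  S.Data q t o b α w →
  Hit 3 q (vPolys q lam (if four then E41 else E32) ords)
    (fun i => dot ((vForms S four π).getD i []) b) → VStr t (lamF q lam)

/-! ### Exceptions -/

/-- the state is closed whenever the unknowns satisfy the relations -/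
def GoodRel (q : ℕ) (S : St) (rel : List (List ℤ)) : Prop :=
  ∀ (T : Fin 5 → Z2) (o : Z2) (b : ℕ → ℤ) (α w : ℕ → ℝ), Function.Injective T →
    (∀ k, S.n ≤ k → b k = 0) →
    (∀ j : Fin 5, T j = o + (dot (S.pt j).1 b, dot (S.pt j).2 b)) →
    (∀ c k, ∃ m : ℤ, α c * b k = ev q w ((S.row c).getD k []) + m) →
    (∀ r ∈ rel, dot r b = 0) → Cov T

/-- a non-zero multiple of each marked row of `M` is a combination of the relations -/
def relOK (rel : List (List ℤ)) : List Bool → List (List ℤ) → List (ℤ × List ℤ) → Bool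
  | true :: m, a :: M, u :: us => !(u.1 == 0) && leq (lsmul u.1 a) (comb u.2 rel) &&
      relOK rel m M us
  | true :: _, _, _ => false
  | false :: m, M, us => relOK rel m M.tail us
  | [], _, _ => true

structure Exc where
  π : List ℕ
  M : List (List ℤ)
  ch : List (List ℤ × List ℤ)
  mask : List Bool
  us : List (ℤ × List ℤ)
  tr : Tr

def chkExc (q : ℕ) (Hs : List St) (S : St) (rel : List (List ℤ)) (X : Exc) : Bool :=
  reOK S X.π X.M X.ch && relOK rel X.mask X.M X.us && !X.tr.chain &&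
    chk q Hs X.tr ((S.re X.M X.ch).zero X.mask) []

/-- the exceptions, given in the forms `N`, are closed one by one -/
def chkExcs (q : ℕ) (Hs : List St) (S : St) (N : List (List ℤ)) :
    List (List (List ℤ)) → List Exc → Bool
  | [], _ => true
  | _ :: _, [] => false
  | e :: es, X :: Xs => chkExc q Hs S (combRows N e) X && chkExcs q Hs S N es Xs

def St_EXC : Prop := ∀ (q : ℕ) (Hs : List St) (S : St) (N : List (List ℤ))
  (es : List (List (List ℤ))) (Xs : List Exc), (∀ H ∈ Hs, Good q H) →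
  chkExcs q Hs S N es Xs = true → ∀ e ∈ es, GoodRel q S (combRows N e)

def flatOK (S : St) : Bool :=
  lz (S.pt 0).2 && lz (S.pt 1).2 && lz (S.pt 2).2 && lz (S.pt 3).2 && lz (S.pt 4).2

def idRows : ℕ → ℕ → List (List ℤ)
  | 0, _ => []
  | n + 1, i => (List.replicate i 0 ++ [1]) :: idRows n (i + 1)

/-- a game node: rows by the parity gauge, columns by certificates, exceptions closed apart -/
def St_GNODE : Prop := ∀ (q : ℕ) (lam : List ℤ) (S : St) (c : ℕ) (four : Bool) (π : List ℕ)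
  (F d D : ℕ) (Ps : List (List (List ℤ × ℤ))) (Cs : List HCert)
  (EV EH : List (List (List ℤ))), flatOK S = true → parOK q S c four π = true →
  d ≤ S.n → d ≤ D → tabShort F S.tab = true → hAll q lam (S.addZ F d D) F D Ps Cs = true →
  Covers 3 q (vPolys q lam (if four then E41 else E32) ords) EV → Covers d q Ps EH →
  (∀ e ∈ EV, GoodRel q S (combRows (vForms S four π) e)) →
  (∀ e ∈ EH, GoodRel q S (combRows (idRows d 0) e)) → Good q S

end Pool.Agent.Lib.B5
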