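import Pool.Agent.Lib.B5.All

/-! Sets that are determined modulo sixty and tile a finite torus. -/

set_option autoImplicit false

namespace Pool.Agent.Lib.B5

def modSt (a b c d : ℤ) : St :=
  ⟨5, [([], []), ([a, 1], []), ([b, 0, 1], []), ([c, 0, 0, 1], []), ([d, 0, 0, 0, 1], [])],
    [[[1], [0], [0], [0], [0]]]⟩

theorem cov_mod (N : ℕ) (hN : 0 < N) (a b c d : ℤ) (h : Good N (modSt a b c d)) (t : Fin 5 → ℤ)
    (ht : Function.Injective t) (h1 : (N : ℤ) ∣ t 1 - t 0 - a) (h2 : (N : ℤ) ∣ t 2 - t 0 - b)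
    (h3 : (N : ℤ) ∣ t 3 - t 0 - c) (h4 : (N : ℤ) ∣ t 4 - t 0 - d) : Cov (fun j => (t j, 0)) := by
  obtain ⟨m1, e1⟩ := h1
  obtain ⟨m2, e2⟩ := h2
  obtain ⟨m3, e3⟩ := h3
  obtain ⟨m4, e4⟩ := h4
  have hN' : (N : ℝ) ≠ 0 := by exact_mod_cast hN.ne'
  refine h _ (inj_h ht) ⟨(t 0, 0), fun k => [1, N * m1, N * m2, N * m3, N * m4].getD k 0,
    fun c => if c = 0 then 1 / (N : ℝ) else 0, fun _ => 0, ?_, ?_, ?_⟩
  · intro k hk
    obtain ⟨k, rfl⟩ : ∃ i, k = i + 5 := ⟨k - 5, by simp only [modSt] at hk; omega⟩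
    simp
  · intro j
    fin_cases j <;> simp [modSt, St.pt] <;> omega
  · intro c k
    match c, k with
    | 0, 0 => exact ⟨0, by simp [modSt, St.row, ev]⟩
    | 0, 1 => exact ⟨m1, by simp [modSt, St.row, ev]; field_simp⟩
    | 0, 2 => exact ⟨m2, by simp [modSt, St.row, ev]; field_simp⟩
    | 0, 3 => exact ⟨m3, by simp [modSt, St.row, ev]; field_simp⟩
    | 0, 4 => exact ⟨m4, by simp [modSt, St.row, ev]; field_simp⟩
    | 0, k + 5 => exact ⟨0, by simp [modSt, St.row, ev]⟩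
    | c + 1, k => exact ⟨0, by simp [modSt, St.row, ev]⟩

theorem m60_2_29 : Good 60 (modSt 4 2 29 35) :=
  stLEAF stKEL stSHIFT 60 _ ⟨[(10, [(0, 6, 42)])], [(0, [[]]), (2, [[18]])]⟩ (by decide +kernel)

theorem m60_2_59 : Good 60 (modSt 4 2 59 65) :=
  stLEAF stKEL stSHIFT 60 _ ⟨[(10, [(0, 6, 42)])], [(0, [[]]), (2, [[18]])]⟩ (by decide +kernel)

theorem m60_14_11 : Good 60 (modSt 4 14 11 29) :=
  stLEAF stKEL stSHIFT 60 _ ⟨[(20, [(0, 3, 51)])], [(0, [[12]]), (1, [[42]]), (2, [[27]]), (3, [[57]])]⟩ (by decide +kernel)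

theorem m60_14_17 : Good 60 (modSt 4 14 17 35) :=
  stLEAF stKEL stSHIFT 60 _ ⟨[(60, [(0, 2, 19)])], [(0, [[10]]), (0, [[45]]), (0, [[58]]), (1, [[31]]), (1, [[43]]), (1, [[56]]), (2, [[24]]), (2, [[36]]), (2, [[11]]), (3, [[30]]), (3, [[5]]), (3, [[17]])]⟩ (by decide +kernel)

theorem m60_14_29 : Good 60 (modSt 4 14 29 47) :=
  stLEAF stKEL stSHIFT 60 _ ⟨[(20, [(0, 3, 51)])], [(0, [[54]]), (1, [[51]]), (2, [[48]]), (3, [[57]])]⟩ (by decide +kernel)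

theorem m60_14_41 : Good 60 (modSt 4 14 41 59) :=
  stLEAF stKEL stSHIFT 60 _ ⟨[(20, [(0, 3, 51)])], [(0, [[42]]), (1, [[12]]), (2, [[27]]), (3, [[57]])]⟩ (by decide +kernel)

theorem m60_14_47 : Good 60 (modSt 4 14 47 65) :=
  stLEAF stKEL stSHIFT 60 _ ⟨[(60, [(0, 2, 19)])], [(0, [[45]]), (0, [[28]]), (0, [[40]]), (1, [[31]]), (1, [[43]]), (1, [[26]]), (2, [[6]]), (2, [[11]]), (2, [[54]]), (3, [[]]), (3, [[5]]), (3, [[17]])]⟩ (by decide +kernel)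

theorem m60_14_59 : Good 60 (modSt 4 14 59 77) :=
  stLEAF stKEL stSHIFT 60 _ ⟨[(20, [(0, 3, 51)])], [(0, [[24]]), (1, [[51]]), (2, [[18]]), (3, [[57]])]⟩ (by decide +kernel)

theorem m60_26_29 : Good 60 (modSt 4 26 29 59) :=
  stLEAF stKEL stSHIFT 60 _ ⟨[(60, [(0, 1, 53)])], [(0, [[4]]), (0, [[6]]), (0, [[19]]), (0, [[21]]), (1, [[40]]), (1, [[42]]), (1, [[55]]), (1, [[57]]), (2, [[2]]), (2, [[17]]), (3, [[44]]), (3, [[59]])]⟩ (by decide +kernel)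

theorem m60_26_59 : Good 60 (modSt 4 26 59 89) :=
  stLEAF stKEL stSHIFT 60 _ ⟨[(60, [(0, 1, 53)])], [(0, [[4]]), (0, [[6]]), (0, [[19]]), (0, [[21]]), (1, [[40]]), (1, [[42]]), (1, [[55]]), (1, [[57]]), (2, [[2]]), (2, [[17]]), (3, [[44]]), (3, [[59]])]⟩ (by decide +kernel)

theorem m60_38_23 : Good 60 (modSt 4 38 23 65) :=
  stLEAF stKEL stSHIFT 60 _ ⟨[(10, [(0, 6, 42)])], [(0, [[]]), (2, [[6]])]⟩ (by decide +kernel)

theorem m60_38_53 : Good 60 (modSt 4 38 53 95) :=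
  stLEAF stKEL stSHIFT 60 _ ⟨[(10, [(0, 6, 42)])], [(0, [[]]), (2, [[6]])]⟩ (by decide +kernel)

theorem m60_50_5 : Good 60 (modSt 4 50 5 59) :=
  stLEAF stKEL stSHIFT 60 _ ⟨[(30, [(0, 2, 46)])], [(0, [[]]), (0, [[4]]), (1, [[26]]), (1, [[30]]), (2, [[34]]), (3, [[56]])]⟩ (by decide +kernel)

theorem m60_50_11 : Good 60 (modSt 4 50 11 65) :=
  stLEAF stKEL stSHIFT 60 _ ⟨[(20, [(0, 3, 51)])], [(0, [[39]]), (1, [[18]]), (2, [[]]), (3, [[57]])]⟩ (by decide +kernel)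

theorem m60_50_35 : Good 60 (modSt 4 50 35 89) :=
  stLEAF stKEL stSHIFT 60 _ ⟨[(30, [(0, 2, 46)])], [(0, [[]]), (0, [[4]]), (1, [[26]]), (1, [[30]]), (2, [[34]]), (3, [[56]])]⟩ (by decide +kernel)

theorem m60_50_41 : Good 60 (modSt 4 50 41 95) :=
  stLEAF stKEL stSHIFT 60 _ ⟨[(20, [(0, 3, 51)])], [(0, [[39]]), (1, [[48]]), (2, [[30]]), (3, [[57]])]⟩ (by decide +kernel)

end Pool.Agent.Lib.B5
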