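import Pool.Agent.Lib.B5.NCc

/-! Non-collinear five-point sets outside five explicit patterns cover the grid. -/

set_option autoImplicit false

namespace Pool.Agent.Lib.B5

namespace NC

theorem opt_of {c1 c2 c3 c4 : ℤ} {n s : ℕ} {c : Fin 5 → Z2} {i0 i1 i2 i3 i4 : Fin 5}
    (h : OptAt c1 c2 c3 c4 n s c i0 i1 i2 i3 i4) :
    Opt c1 c2 c3 c4 (fun j => c (![i0, i1, i2, i3, i4] j)) := ⟨_, _, h⟩

theorem core {y c : Fin 5 → Z2} {u w : Z2} (hy : Function.Injective y) (hr : Rel y c u w)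
    {n : ℕ} (hc : Chk c n)
    (hw : ∀ σ : Fin 5 → Fin 5, Function.Injective σ → ¬ Win0 (fun j => y (σ j))) :
    ∃ σ : Fin 5 → Fin 5, Function.Injective σ ∧ Exc0 C5 (fun j => y (σ j)) := by
  obtain ⟨hσ, hc⟩ := hc
  have hσ' := hσ.inj
  have hr1 := hr.comp (fn n 1)
  have hy1 : Function.Injective (fun j => y (fn n 1 j)) := hy.comp hσ'
  have b1 : ∀ {s : ℕ} {i0 i1 i2 i3 i4 : Fin 5}, Inj ![i0, i1, i2, i3, i4] →
      OptAt 1 1 2 3 n s (fun j => c (fn n 1 j)) i0 i1 i2 i3 i4 →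
      B1 (fun j => y (fn n 1 j)) i0 i1 i2 i3 i4 := by
    intro s i0 i1 i2 i3 i4 hi ho
    by_contra hb
    exact hw (fun j => fn n 1 (![i0, i1, i2, i3, i4] j)) (hσ'.comp hi.inj)
      (Or.inr (Or.inl ⟨(hr1.comp _).opt (opt_of ho), hb⟩))
  have b2 : ∀ {s : ℕ} {i0 i1 i2 i3 i4 : Fin 5}, Inj ![i0, i1, i2, i3, i4] →
      OptAt 1 1 2 2 n s (fun j => c (fn n 1 j)) i0 i1 i2 i3 i4 →
      B2 (fun j => y (fn n 1 j)) i1 i2 i3 i4 := by
    intro s i0 i1 i2 i3 i4 hi ho
    by_contra hb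
    exact hw (fun j => fn n 1 (![i0, i1, i2, i3, i4] j)) (hσ'.comp hi.inj)
      (Or.inr (Or.inr ⟨(hr1.comp _).opt (opt_of ho), hb⟩))
  have mt : ∀ i j, Mt u w (y (fn n 1 i) - y (fn n 1 j)) (c (fn n 1 i) - c (fn n 1 j)) :=
    fun i j => hr1.2 i j
  have dd : ∀ i j, (5 : ℤ) ∣ DD (fun j => y (fn n 1 j)) i j -
      DD (fun j => c (fn n 1 j)) i j * det u w := fun i j => (mt i 0).det (mt j 0)
  have par : ∀ (σ : Fin 5 → Fin 5) (t s : ℕ), Function.Injective σ →
      OptAt 1 1 2 (lastL t) n s (fun j => c (σ j)) 0 1 2 3 4 →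
      det (y (σ (pb t)) - y (σ (pa t))) (eta t (fun j => y (σ j))) = 0 ∧
        Mt u w (eta t (fun j => y (σ j))) (eta t (fun j => c (σ j))) := by
    intro σ t s hσ ho
    have ho' : Opt 1 1 2 (lastL t) (fun j => y (σ j)) := (hr.comp σ).opt ⟨_, _, ho⟩
    by_cases h0 : t = 0
    · subst h0
      refine ⟨bad_det ?_, Mt.add (hr.2 _ _) (hr.2 _ _)⟩
      by_contra hb
      exact hw σ hσ (Or.inr (Or.inl ⟨ho', hb⟩))
    · have hl : lastL t = 2 := if_neg h0
      rw [hl] at ho'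
      have hb : Bad (y (σ 2) - y (σ 1)) (y (σ 2) - y (σ 1) - (y (σ 4) - y (σ 3))) := by
        by_contra hb
        exact hw σ hσ (Or.inr (Or.inr ⟨ho', hb⟩))
      have hb' := bad_det hb
      by_cases h2 : t = 2
      · subst h2
        refine ⟨?_, hr.2 _ _⟩
        change det (y (σ 4) - y (σ 3)) (y (σ 2) - y (σ 1)) = 0
        simp only [det, Prod.fst_sub, Prod.snd_sub] at hb' ⊢
        linear_combination hb'
      · simp only [pa, pb, eta, if_neg h0, if_neg h2]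
        refine ⟨?_, hr.2 _ _⟩
        simp only [det, Prod.fst_sub, Prod.snd_sub] at hb' ⊢
        linear_combination -hb'
  rcases hc with ⟨-, h⟩ | ⟨-, hτ, h1, h2, e1, e2, hd⟩ | ⟨-, h1, h2⟩ | ⟨-, h1, h2, h3⟩ |
    ⟨-, h1, h2, h3⟩ | ⟨-, h1, h2, h3, h4, h5⟩ | ⟨-, h1, h2, h3, h4, h5, h6⟩ |
    ⟨-, h1, h2, h3, h4, h5⟩ | ⟨-, h1, h2, h3⟩ | ⟨-, h1, h2, h3, h4, h5, h6⟩
  · exact absurd (Or.inl (hr1.opt ⟨_, _, h⟩)) (hw _ hσ')
  · exfalso
    obtain ⟨p1, m1⟩ := par _ _ _ hσ' h1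
    obtain ⟨p2, m2⟩ := par _ _ _ hτ.inj h2
    rw [← e1, ← e2] at p2
    have hne : pb (dg n 11) ≠ pa (dg n 11) := by
      unfold pa pb
      split <;> decide
    exact ne_of hr.1 hd (m1.det m2)
      (par_trans (sub_ne_zero.2 fun h => hne (hσ' (hy h))) p1 p2)
  · refine ⟨_, hσ', ?_⟩
    rcases h2 with h2 | h2
    · exact Or.inl ⟨(mt 1 0).c5 h1, (mt 2 0).c5 h2⟩
    · exact Or.inr (Or.inl ⟨(mt 1 0).c5 h1, (((mt 2 0).add (mt 3 0)).add (mt 4 0)).c5 h2⟩)
  · exact ⟨_, hσ', Or.inr (Or.inr (Or.inl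
      ⟨(mt 1 0).c5 h1, (mt 3 2).c5 h2, b2 (by decide) h3⟩))⟩
  · exact ⟨_, hσ', Or.inr (Or.inr (Or.inr (Or.inl
      ⟨(mt 1 0).c5 h1, ((mt 3 2).add (mt 4 2)).c5 h2, b1 (by decide) h3⟩)))⟩
  · exact (alg5 (b1 (by decide) h1) (b1 (by decide) h2) (b1 (by decide) h3) (b2 (by decide) h4)
      (ne_of hr.1 h5 (dd 1 3))).elim
  · refine ⟨_, hσ', Or.inr (Or.inr (Or.inr (Or.inr
      (alg6 (b1 (by decide) h1) (b1 (by decide) h2) (b1 (by decide) h3) (b1 (by decide) h4)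
        (ne_of hr.1 h5 (dd 1 3)) (ne_of hr.1 h6 ?_)))))⟩
    have := dvd_sub ((dd 2 4).mul_left 2) (dd 3 4)
    rwa [show ∀ a b c d e : ℤ, 2 * (a - b * e) - (c - d * e) = 2 * a - c - (2 * b - d) * e from
      fun _ _ _ _ _ => by ring] at this
  · exact (alg7 hy1 (b1 (by decide) h1) (b1 (by decide) h2) (b1 (by decide) h3)
      (b1 (by decide) h4) (ne_of hr.1 h5 (dd 2 4))).elim
  · exact (alg8 hy1 (b2 (by decide) h1) (b2 (by decide) h2) (ne_of hr.1 h3 (dd 3 4))).elim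
  · refine (alg9 hy1 (b1 (by decide) h1) (b1 (by decide) h2) (b2 (by decide) h3)
      (b2 (by decide) h4) (ne_of hr.1 h5 (dd 1 2)) (ne_of hr.1 h6 ?_)).elim
    have := dvd_sub (dd 2 4) (dd 3 4)
    rwa [show ∀ a b c d e : ℤ, a - b * e - (c - d * e) = a - c - (b - d) * e from
      fun _ _ _ _ _ => by ring] at this

/-- the lattice spanned by the differences -/
def span (T : Fin 5 → Z2) : AddSubgroup Z2 := AddSubgroup.closure {v | ∃ i j, v = T i - T j}

/-- five times a vector of the lattice -/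
def Five (T : Fin 5 → Z2) (v : Z2) : Prop := ∃ z ∈ span T, v = (5 : ℤ) • z

theorem res5 {E : ℤ} (hE : ¬ (5 : ℤ) ∣ E) (P : ℤ) : ∃ p : ℕ, p < 5 ∧ (5 : ℤ) ∣ P - p * E := by
  obtain ⟨e, he⟩ := pow4 hE
  refine ⟨(P * E ^ 3 % 5).toNat, by omega, ?_⟩
  rw [Int.toNat_of_nonneg (by omega)]
  refine ⟨P * E ^ 3 / 5 * E - P * e, ?_⟩
  have := Int.emod_add_mul_ediv (P * E ^ 3) 5
  linear_combination (-E) * this - P * he

/-- the model in the basis of a triangle whose area has the least power of five -/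
theorem main0 (T : Fin 5 → Z2) (hT : Function.Injective T) (g : ℤ) (hg : g ≠ 0)
    (hall : ∀ i j, g ∣ det (T i - T 0) (T j - T 0))
    (hmin : ¬ 5 * g ∣ det (T 1 - T 0) (T 2 - T 0)) :
    Cov T ∨ ∃ σ : Fin 5 → Fin 5, Function.Injective σ ∧ Exc0 (Five T) (fun j => T (σ j)) := by
  choose D hD using hall
  have hE : ¬ (5 : ℤ) ∣ D 1 2 := fun ⟨k, hk⟩ => hmin ⟨k, by rw [hD, hk]; ring⟩
  have hE0 : D 1 2 ≠ 0 := fun h => hE (by rw [h]; simp)
  have hdet : det (T 1 - T 0) (T 2 - T 0) ≠ 0 := by rw [hD]; exact mul_ne_zero hg hE0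
  let y : Fin 5 → Z2 := fun j => (D j 2, D 1 j)
  let M : Z2 → Z2 := fun z => z.1 • (T 1 - T 0) + z.2 • (T 2 - T 0)
  have Madd : ∀ a b, M (a + b) = M a + M b := fun a b => by
    simp only [M, Prod.fst_add, Prod.snd_add]; module
  have Msub : ∀ a b, M (a - b) = M a - M b := fun a b => by
    simp only [M, Prod.fst_sub, Prod.snd_sub]; module
  have Msm : ∀ (k : ℤ) a, M (k • a) = k • M a := fun k a => by
    simp only [M, Prod.smul_fst, Prod.smul_snd, smul_eq_mul]; module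
  have h0 : ∀ j, D 1 2 • (T j - T 0) = M (y j) := fun j => by
    apply canc hg
    have := cram (T 1 - T 0) (T j - T 0) (T 2 - T 0)
    rw [hD, hD, hD] at this
    simp only [M, y, smul_add, smul_smul]
    exact this
  have hm : ∀ i j, D 1 2 • (T i - T j) = M (y i - y j) := fun i j => by
    rw [Msub, ← h0, ← h0, ← smul_sub]
    congr 1
    abel
  have hy : Function.Injective y := fun i j h => by
    have := hm i j
    rw [h, Msub, sub_self, smul_eq_zero] at this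
    exact hT (sub_eq_zero.1 (this.resolve_left hE0))
  have z0 : ∀ j, D 0 j = 0 := fun j => by
    have := hD 0 j
    rw [sub_self] at this
    exact (mul_eq_zero.1 (this.symm.trans (by simp [det]))).resolve_left hg
  have z0' : D 1 0 = 0 := by
    have := hD 1 0
    rw [sub_self] at this
    exact (mul_eq_zero.1 (this.symm.trans (by simp [det]))).resolve_left hg
  have zz : ∀ j, D j j = 0 := fun j => by
    have := hD j j
    exact (mul_eq_zero.1 (this.symm.trans (by unfold det; ring))).resolve_left hg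
  obtain ⟨p, hp, ep⟩ := res5 hE (D 3 2)
  obtain ⟨q, hq, eq⟩ := res5 hE (D 1 3)
  obtain ⟨r, hr, er⟩ := res5 hE (D 4 2)
  obtain ⟨s, hs, es⟩ := res5 hE (D 1 4)
  obtain ⟨n, hn⟩ := chk_all p q r s hp hq hr hs
  have hrel : Rel y (nf p q r s) (D 1 2, 0) (0, D 1 2) := by
    refine ⟨?_, ?_⟩
    · intro h
      simp only [det, mul_zero, sub_zero] at h
      rcases (Nat.prime_iff_prime_int.1 Nat.prime_five).dvd_or_dvd h with h | h <;> exact hE h
    · have one : ∀ j, (5 : ℤ) ∣ (y j).1 - (nf p q r s j).1 * D 1 2 ∧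
          (5 : ℤ) ∣ (y j).2 - (nf p q r s j).2 * D 1 2 := by
        intro j
        fin_cases j
        · simp [y, nf, z0, z0']
        · simp [y, nf, zz]
        · simp [y, nf, zz]
        · exact ⟨ep, eq⟩
        · exact ⟨er, es⟩
      intro i j
      refine ⟨?_, ?_⟩
      · have := dvd_sub (one i).1 (one j).1
        simp only [mp, Prod.fst_sub, Prod.snd_sub]
        rwa [show ∀ a b c d e f : ℤ, a - b - ((c - d) * e + f * 0) = a - c * e - (b - d * e) from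
          fun _ _ _ _ _ _ => by ring]
      · have := dvd_sub (one i).2 (one j).2
        simp only [mp, Prod.fst_sub, Prod.snd_sub]
        rwa [show ∀ a b c d e f : ℤ, a - b - (f * 0 + (c - d) * e) = a - c * e - (b - d * e) from
          fun _ _ _ _ _ _ => by ring]
  have hpull : Pull T y := by
    intro a' b'
    obtain ⟨a, b, ha, hb⟩ := solve _ _ hdet (D 1 2 * a') (D 1 2 * b')
    refine ⟨a, b, fun i j => ?_⟩
    have h := congrArg (ph a b) (hm i j)
    simp only [M] at h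
    rw [ph_smul, ph_add, ph_smul, ph_smul, ha, hb] at h
    have hE' : (D 1 2 : ℝ) ≠ 0 := by exact_mod_cast hE0
    apply mul_left_cancel₀ hE'
    rw [h]
    unfold ph
    ring
  by_cases hw : ∀ σ : Fin 5 → Fin 5, Function.Injective σ → ¬ Win0 (fun j => y (σ j))
  · right
    obtain ⟨σ, hσ, he⟩ := core hy hrel hn hw
    refine ⟨σ, hσ, ?_⟩
    have mem : ∀ i j, T i - T j ∈ span T := fun i j => AddSubgroup.subset_closure ⟨i, j, rfl⟩
    have five : ∀ v z : Z2, v ∈ span T → D 1 2 • v = M z → C5 z → Five T v := by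
      rintro v z hv h ⟨⟨k, hk⟩, ⟨l, hl⟩⟩
      obtain ⟨e, he⟩ := pow4 hE
      refine ⟨D 1 2 ^ 3 • (k • (T 1 - T 0) + l • (T 2 - T 0)) - e • v, ?_, ?_⟩
      · exact sub_mem (zsmul_mem (add_mem (zsmul_mem (mem 1 0) _) (zsmul_mem (mem 2 0) _)) _)
          (zsmul_mem hv _)
      · have h1 : v = (D 1 2 ^ 3) • (D 1 2 • v) - (5 * e) • v := by
          rw [smul_smul, ← sub_smul, show D 1 2 ^ 3 * D 1 2 - 5 * e = 1 by linear_combination he,
            one_smul]
        simp only [M] at h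
        rw [h, hk, hl] at h1
        rw [smul_sub, smul_smul (5 : ℤ) e]
        refine h1.trans ?_
        module
    have bad : ∀ d e d' e' : Z2, D 1 2 • d = M d' → D 1 2 • e = M e' → Bad d' e' → Bad d e := by
      rintro d e d' e' h1 h2 ⟨m, k, hm', h⟩
      refine ⟨m, k, hm', canc hE0 ?_⟩
      rw [smul_comm, h1, smul_comm, h2, ← Msm, ← Msm, h]
    have lin : ∀ (k : ℤ) (d e d' e' : Z2), D 1 2 • d = M d' → D 1 2 • e = M e' → d' = k • e' →
        d = k • e := by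
      intro k d e d' e' h1 h2 h
      apply canc hE0
      rw [h1, smul_comm, h2, ← Msm, h]
    rcases he with ⟨h1, h2⟩ | ⟨h1, h2⟩ | ⟨h1, h2, h3⟩ | ⟨h1, h2, h3⟩ | ⟨h1, h2⟩
    · exact Or.inl ⟨five _ _ (mem _ _) (hm _ _) h1, five _ _ (mem _ _) (hm _ _) h2⟩
    · refine Or.inr (Or.inl ⟨five _ _ (mem _ _) (hm _ _) h1,
        five _ _ (add_mem (add_mem (mem _ _) (mem _ _)) (mem _ _)) ?_ h2⟩)
      rw [Madd, Madd, smul_add, smul_add, hm, hm, hm]
    · refine Or.inr (Or.inr (Or.inl ⟨five _ _ (mem _ _) (hm _ _) h1,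
        five _ _ (mem _ _) (hm _ _) h2, bad _ _ _ _ (hm _ _) ?_ h3⟩))
      rw [Msub, smul_sub (D 1 2) (T (σ 1) - T (σ 0)), hm, hm]
    · have e : D 1 2 • (T (σ 3) - T (σ 2) + (T (σ 4) - T (σ 2))) =
          M (y (σ 3) - y (σ 2) + (y (σ 4) - y (σ 2))) := by rw [Madd, smul_add, hm, hm]
      exact Or.inr (Or.inr (Or.inr (Or.inl ⟨five _ _ (mem _ _) (hm _ _) h1,
        five _ _ (add_mem (mem _ _) (mem _ _)) e h2, bad _ _ _ _ (hm _ _) e h3⟩)))
    · exact Or.inr (Or.inr (Or.inr (Or.inr ⟨lin _ _ _ _ _ (hm _ _) (hm _ _) h1,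
        lin _ _ _ _ _ (hm _ _) (hm _ _) h2⟩)))
  · left
    push Not at hw
    obtain ⟨σ, hσ, h⟩ := hw
    refine stPERM T (Equiv.ofBijective σ (Finite.injective_iff_bijective.1 hσ)) ?_
    refine win0 (y := fun j => y (σ j)) (fun a' b' => ?_) h
    obtain ⟨a, b, hab⟩ := hpull a' b'
    exact ⟨a, b, fun i j => hab _ _⟩

theorem span_perm (T : Fin 5 → Z2) (σ : Equiv.Perm (Fin 5)) :
    span (fun j => T (σ j)) = span T := by
  unfold span
  congr 1
  ext v
  constructor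
  · rintro ⟨i, j, h⟩
    exact ⟨σ i, σ j, h⟩
  · rintro ⟨i, j, h⟩
    exact ⟨σ.symm i, σ.symm j, by simpa using h⟩

theorem ext3 : ∀ i j k : Fin 5, i ≠ j → i ≠ k → j ≠ k →
    ∃ l m : Fin 5, Inj ![i, j, k, l, m] := by decide

end NC

open NC in
/-- a non-collinear set covers the grid or shows one of the five patterns -/
theorem nc0 (T : Fin 5 → Z2) (hT : Function.Injective T)
    (hnc : ∃ i j k, det (T j - T i) (T k - T i) ≠ 0) :
    Cov T ∨ ∃ σ : Fin 5 → Fin 5, Function.Injective σ ∧ Exc0 (Five T) (fun j => T (σ j)) := by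
  classical
  have hex : ∃ n : ℕ, ∃ i j k, ¬ (5 : ℤ) ^ n ∣ det (T j - T i) (T k - T i) := by
    obtain ⟨i, j, k, h⟩ := hnc
    refine ⟨(det (T j - T i) (T k - T i)).natAbs, i, j, k, fun hd => ?_⟩
    have h1 := Int.natAbs_le_of_dvd_ne_zero hd h
    rw [Int.natAbs_pow] at h1
    exact absurd h1 (not_le.2 (Nat.lt_pow_self (by norm_num)))
  obtain ⟨i, j, k, hk⟩ := Nat.find_spec hex
  have hpos : Nat.find hex ≠ 0 := fun h => hk (by rw [h]; simp)
  obtain ⟨n, hn⟩ := Nat.exists_eq_succ_of_ne_zero hpos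
  have hlt := Nat.find_min hex (m := n) (by omega)
  push Not at hlt
  rw [hn] at hk
  have hne : det (T j - T i) (T k - T i) ≠ 0 := fun h => hk (by rw [h]; simp)
  obtain ⟨l, m, hI⟩ := ext3 i j k (by rintro rfl; simp [det] at hne)
    (by rintro rfl; simp [det] at hne) (by rintro rfl; exact hne (by unfold det; ring))
  let σ : Equiv.Perm (Fin 5) := Equiv.ofBijective _ (Finite.injective_iff_bijective.1 hI.inj)
  rcases main0 (fun a => T (σ a)) (hT.comp σ.injective) (5 ^ n) (by positivity)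
    (fun a b => hlt _ _ _) (by rw [← pow_succ']; exact hk) with h | ⟨τ, hτ, h⟩
  · exact Or.inl (stPERM T σ h)
  · refine Or.inr ⟨fun a => σ (τ a), σ.injective.comp hτ, ?_⟩
    have e : Five (fun a => T (σ a)) = Five T := by
      funext v
      unfold Five
      rw [span_perm]
    rwa [e] at h

end Pool.Agent.Lib.B5
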