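import Pool.Agent.Lib.B5.KEL
import Pool.Agent.Lib.B5.COL

/-! Covers by a set and its point reflection from a label modulo five and one half-turn phase. -/

set_option autoImplicit false

namespace Pool.Agent.Lib.B5

namespace NC

def det (u w : Z2) : ℤ := u.1 * w.2 - u.2 * w.1

/-- an odd multiple of `d` is a multiple of `e` -/
def Bad (d e : Z2) : Prop := ∃ m n : ℤ, Odd m ∧ m • d = n • e

noncomputable def ph (a b : ℝ) (z : Z2) : ℝ := a * z.1 + b * z.2

theorem ph_sub (a b : ℝ) (u w : Z2) : ph a b (u - w) = ph a b u - ph a b w := by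
  simp only [ph, Prod.fst_sub, Prod.snd_sub]; push_cast; ring

theorem ph_add (a b : ℝ) (u w : Z2) : ph a b (u + w) = ph a b u + ph a b w := by
  simp only [ph, Prod.fst_add, Prod.snd_add]; push_cast; ring

theorem ph_smul (a b : ℝ) (k : ℤ) (u : Z2) : ph a b (k • u) = k * ph a b u := by
  simp only [ph, Prod.smul_fst, Prod.smul_snd, smul_eq_mul]; push_cast; ring

theorem solve (u w : Z2) (h : det u w ≠ 0) (s t : ℝ) :
    ∃ a b : ℝ, ph a b u = s ∧ ph a b w = t := by
  have h' : (u.1 : ℝ) * w.2 - u.2 * w.1 ≠ 0 := by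
    unfold det at h
    exact_mod_cast h
  refine ⟨(s * w.2 - t * u.2) / (u.1 * w.2 - u.2 * w.1),
    (t * u.1 - s * w.1) / (u.1 * w.2 - u.2 * w.1), ?_, ?_⟩
  · unfold ph
    rw [div_mul_eq_mul_div, div_mul_eq_mul_div, ← add_div, div_eq_iff h']
    ring
  · unfold ph
    rw [div_mul_eq_mul_div, div_mul_eq_mul_div, ← add_div, div_eq_iff h']
    ring

theorem half (d e : Z2) (h : ¬ Bad d e) :
    ∃ (a b : ℝ) (k l : ℤ), Odd k ∧ 2 * ph a b d = k ∧ ph a b e = l := by
  by_cases hd : det d e = 0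
  · have hq : 0 < d.1 * d.1 + d.2 * d.2 := by
      by_contra hq
      have h1 : d.1 = 0 := by nlinarith [mul_self_nonneg d.1, mul_self_nonneg d.2]
      have h2 : d.2 = 0 := by nlinarith [mul_self_nonneg d.1, mul_self_nonneg d.2]
      exact h ⟨1, 0, odd_one, by ext <;> simp [h1, h2]⟩
    obtain ⟨g, p, q, hg, hpq, hp, hq'⟩ := Int.exists_gcd_one'
      (m := e.1 * d.1 + e.2 * d.2) (n := d.1 * d.1 + d.2 * d.2)
      (Int.gcd_pos_of_ne_zero_right _ hq.ne')
    have hg' : (g : ℤ) ≠ 0 := by exact_mod_cast hg.ne'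
    unfold det at hd
    have he : p • d = q • e := by
      ext
      · simp only [Prod.smul_fst, smul_eq_mul]
        apply mul_right_cancel₀ hg'
        linear_combination (-d.1) * hp + e.1 * hq' + d.2 * hd
      · simp only [Prod.smul_snd, smul_eq_mul]
        apply mul_right_cancel₀ hg'
        linear_combination (-d.2) * hp + e.2 * hq' - d.1 * hd
    have hpe : Even p := by
      rcases Int.even_or_odd p with h1 | h1
      · exact h1
      · exact absurd ⟨p, q, h1, he⟩ h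
    have hqo : Odd q := by
      rcases Int.even_or_odd q with h1 | h1
      · exfalso
        have : (2 : ℤ) ∣ (Int.gcd p q : ℤ) := Int.dvd_coe_gcd hpe.two_dvd h1.two_dvd
        rw [hpq] at this
        omega
      · exact h1
    obtain ⟨a, b, ha, -⟩ := solve d (-d.2, d.1) (by unfold det; simp only; linarith) (q / 2) 0
    obtain ⟨l, hl⟩ := hpe
    have hq0 : (q : ℝ) ≠ 0 := by
      have : q ≠ 0 := by rintro rfl; simp at hqo
      exact_mod_cast this
    refine ⟨a, b, q, l, hqo, by rw [ha]; ring, ?_⟩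
    have h3 := congrArg (ph a b) he
    rw [ph_smul, ph_smul, ha, hl] at h3
    apply mul_left_cancel₀ hq0
    push_cast at h3
    linarith
  · obtain ⟨a, b, ha, hb⟩ := solve d e hd (1 / 2) 0
    exact ⟨a, b, 1, 0, odd_one, by rw [ha]; norm_num, by rw [hb]; simp⟩

theorem kel1 (T : Fin 5 → Z2) (a b : ℝ) (n : Fin 5 → ℤ)
    (h5 : ∀ j, 5 * ph a b (T j - T 0) = n j) (hn : ∀ i j, i ≠ j → ¬ (5 : ℤ) ∣ n i - n j) :
    Cov T := by
  refine stKEL T 1 1 (fun _ => 5) (fun _ => a) (fun _ => b) (fun _ => 0) (fun _ _ => 0)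
    (fun _ => by norm_num) (by simp) ?_
  rintro ⟨i, j⟩ ⟨i', j'⟩ hne
  have hj : j ≠ j' := fun h => hne (by rw [h, Subsingleton.elim i i'])
  refine ⟨0, n j - n j', hn j j' hj, ?_⟩
  have h1 := h5 j
  have h2 := h5 j'
  simp only [ph_sub] at h1 h2
  simp only [act]
  unfold ph at h1 h2
  push_cast
  linarith

theorem kel2 (T : Fin 5 → Z2) (a b a' b' : ℝ) (n : Fin 5 → ℤ) (f : Fin 5 → ℝ)
    (h5 : ∀ j, 5 * ph a b (T j - T 0) = n j) (h2 : ∀ j, ph a' b' (T j - T 0) = f j)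
    (hd : ∀ i j, i ≠ j → ¬ (5 : ℤ) ∣ n i - n j ∨ ∃ k : ℤ, Odd k ∧ 2 * (f i - f j) = k)
    (hs : ∀ i j, ¬ (5 : ℤ) ∣ n i + n j ∨ ∃ k : ℤ, f i + f j = k) : Cov T := by
  have odd2 : ∀ k : ℤ, Odd k → ¬ ((2 : ℕ) : ℤ) ∣ k := fun k hk h => by
    obtain ⟨c, hc⟩ := hk
    push_cast at h
    omega
  refine stKEL T 2 2 ![5, 2] ![a, a'] ![b, b'] ![0, 1]
    ![![-ph a b (T 0), -ph a' b' (T 0)], ![ph a b (T 0), ph a' b' (T 0) + 1 / 2]]
    (fun l => by fin_cases l <;> simp) (by simp [Fin.prod_univ_two]) ?_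
  rintro ⟨i, j⟩ ⟨i', j'⟩ hne
  have e1 := h5 j
  have e2 := h5 j'
  have e3 := h2 j
  have e4 := h2 j'
  simp only [ph_sub] at e1 e2 e3 e4
  have u1 : ph a b (T j) = a * (T j).1 + b * (T j).2 := rfl
  have u2 : ph a b (T j') = a * (T j').1 + b * (T j').2 := rfl
  have u3 : ph a' b' (T j) = a' * (T j).1 + b' * (T j).2 := rfl
  have u4 : ph a' b' (T j') = a' * (T j').1 + b' * (T j').2 := rfl
  fin_cases i <;> fin_cases i'
  · have hj : j ≠ j' := fun h => hne (by rw [h])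
    rcases hd j j' hj with h | ⟨k, hk, h⟩
    · refine ⟨0, n j - n j', h, ?_⟩
      simp [act]
      linarith
    · refine ⟨1, k, odd2 k hk, ?_⟩
      simp [act]
      linarith
  · rcases hs j j' with h | ⟨k, h⟩
    · refine ⟨0, n j + n j', h, ?_⟩
      simp [act]
      linarith
    · refine ⟨1, 2 * k - 1, odd2 _ ⟨k - 1, by ring⟩, ?_⟩
      simp [act]
      linarith
  · rcases hs j j' with h | ⟨k, h⟩
    · refine ⟨0, -(n j + n j'), fun h' => h ((dvd_neg).1 h'), ?_⟩
      simp [act]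
      linarith
    · refine ⟨1, 1 - 2 * k, odd2 _ ⟨-k, by ring⟩, ?_⟩
      simp [act]
      linarith
  · have hj : j ≠ j' := fun h => hne (by rw [h])
    rcases hd j j' hj with h | ⟨k, hk, h⟩
    · refine ⟨0, -(n j - n j'), fun h' => h ((dvd_neg).1 h'), ?_⟩
      simp [act]
      linarith
    · refine ⟨1, -k, odd2 _ hk.neg, ?_⟩
      simp [act]
      linarith

/-- integer label -/
def lab (A B : ℤ) (z : Z2) : ℤ := A * z.1 + B * z.2

/-- the labels of the five points relative to the first are `c1, .., c4` modulo five -/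
def Opt (c1 c2 c3 c4 : ℤ) (y : Fin 5 → Z2) : Prop :=
  ∃ A B : ℤ, (5 : ℤ) ∣ lab A B (y 1 - y 0) - c1 ∧ (5 : ℤ) ∣ lab A B (y 2 - y 0) - c2 ∧
    (5 : ℤ) ∣ lab A B (y 3 - y 0) - c3 ∧ (5 : ℤ) ∣ lab A B (y 4 - y 0) - c4

def Win0 (y : Fin 5 → Z2) : Prop :=
  Opt 1 2 3 4 y ∨ (Opt 1 1 2 3 y ∧ ¬ Bad (y 2 - y 1) (y 3 - y 0 + (y 4 - y 0))) ∨
    (Opt 1 1 2 2 y ∧ ¬ Bad (y 2 - y 1) (y 2 - y 1 - (y 4 - y 3)))

/-- every real phase on the model `y` is a real phase on `T` -/
def Pull (T y : Fin 5 → Z2) : Prop :=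
  ∀ a' b' : ℝ, ∃ a b : ℝ, ∀ i j, ph a b (T i - T j) = ph a' b' (y i - y j)

theorem lab_ph (A B : ℤ) (z : Z2) : 5 * ph ((A : ℝ) / 5) ((B : ℝ) / 5) z = (lab A B z : ℤ) := by
  unfold ph lab
  push_cast
  ring

theorem win0 {T y : Fin 5 → Z2} (hp : Pull T y) (h : Win0 y) : Cov T := by
  have z0 : ∀ A B : ℤ, lab A B (y 0 - y 0) = 0 := fun A B => by simp [lab]
  rcases h with ⟨A, B, h1, h2, h3, h4⟩ | ⟨⟨A, B, h1, h2, h3, h4⟩, hb⟩ |
    ⟨⟨A, B, h1, h2, h3, h4⟩, hb⟩
  · obtain ⟨a, b, hab⟩ := hp ((A : ℝ) / 5) ((B : ℝ) / 5)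
    refine kel1 T a b (fun j => lab A B (y j - y 0)) (fun j => by rw [hab, lab_ph]) ?_
    have h0 := z0 A B
    intro i j hij
    fin_cases i <;> fin_cases j <;> first | exact absurd rfl hij | (simp only [Fin.reduceFinMk]; omega)
  · obtain ⟨a, b, hab⟩ := hp ((A : ℝ) / 5) ((B : ℝ) / 5)
    obtain ⟨c', d', k, l, hk, hk1, hl⟩ := half _ _ hb
    obtain ⟨c, d, hcd⟩ := hp c' d'
    have h0 := z0 A B
    have f0 : ph c' d' (y 0 - y 0) = 0 := by simp [ph]
    rw [ph_add] at hl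
    have f12 : 2 * (ph c' d' (y 2 - y 0) - ph c' d' (y 1 - y 0)) = k := by
      rw [← hk1]; simp only [ph_sub]; ring
    refine kel2 T a b c d (fun j => lab A B (y j - y 0)) (fun j => ph c' d' (y j - y 0))
      (fun j => by rw [hab, lab_ph]) (fun j => hcd j 0) ?_ ?_
    · intro i j hij
      fin_cases i <;> fin_cases j <;> first
        | exact absurd rfl hij
        | (left; simp only [Fin.reduceFinMk]; omega)
        | exact Or.inr ⟨k, hk, f12⟩
        | exact Or.inr ⟨-k, hk.neg, by simp only [Fin.reduceFinMk]; push_cast; linarith⟩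
    · intro i j
      fin_cases i <;> fin_cases j <;> first
        | (left; simp only [Fin.reduceFinMk]; omega)
        | exact Or.inr ⟨l, hl⟩
        | exact Or.inr ⟨l, by simp only [Fin.reduceFinMk]; linarith⟩
        | exact Or.inr ⟨0, by simp only [Fin.reduceFinMk]; push_cast; linarith⟩
  · obtain ⟨a, b, hab⟩ := hp ((A : ℝ) / 5) ((B : ℝ) / 5)
    obtain ⟨c', d', k, l, hk, hk1, hl⟩ := half _ _ hb
    obtain ⟨c, d, hcd⟩ := hp c' d'
    have h0 := z0 A B
    have f0 : ph c' d' (y 0 - y 0) = 0 := by simp [ph]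
    have f12 : 2 * (ph c' d' (y 2 - y 0) - ph c' d' (y 1 - y 0)) = k := by
      rw [← hk1]; simp only [ph_sub]; ring
    have hk' : Odd (k - 2 * l) := hk.sub_even (even_two_mul l)
    have f34 : 2 * (ph c' d' (y 4 - y 0) - ph c' d' (y 3 - y 0)) = ((k - 2 * l : ℤ) : ℝ) := by
      push_cast
      rw [← hk1, ← hl]; simp only [ph_sub]; ring
    refine kel2 T a b c d (fun j => lab A B (y j - y 0)) (fun j => ph c' d' (y j - y 0))
      (fun j => by rw [hab, lab_ph]) (fun j => hcd j 0) ?_ ?_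
    · intro i j hij
      fin_cases i <;> fin_cases j <;> first
        | exact absurd rfl hij
        | (left; simp only [Fin.reduceFinMk]; omega)
        | exact Or.inr ⟨k, hk, f12⟩
        | exact Or.inr ⟨_, hk', f34⟩
        | exact Or.inr ⟨-k, hk.neg, by simp only [Fin.reduceFinMk]; push_cast; linarith⟩
        | exact Or.inr ⟨_, hk'.neg, by
            simp only [Fin.reduceFinMk]; rw [Int.cast_neg]; linarith⟩
    · intro i j
      fin_cases i <;> fin_cases j <;> first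
        | (left; simp only [Fin.reduceFinMk]; omega)
        | exact Or.inr ⟨0, by simp only [Fin.reduceFinMk]; push_cast; linarith⟩

end NC

end Pool.Agent.Lib.B5
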