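import Pool.Agent.Lib.B5.NCa

/-! Five points without a congruent pair: the parallelism conditions and their solutions. -/

set_option autoImplicit false

namespace Pool.Agent.Lib.B5

namespace NC

theorem bad_det {d e : Z2} (h : Bad d e) : det d e = 0 := by
  obtain ⟨m, n, hm, h⟩ := h
  have hm0 : m ≠ 0 := by rintro rfl; simp at hm
  have h1 := congrArg Prod.fst h
  have h2 := congrArg Prod.snd h
  simp only [Prod.smul_fst, Prod.smul_snd, smul_eq_mul] at h1 h2
  apply mul_left_cancel₀ hm0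
  unfold det
  linear_combination e.2 * h1 - e.1 * h2

theorem not_bad {d e : Z2} (k : ℤ) (hd : d ≠ 0) (he : e = (2 * k) • d) : ¬ Bad d e := by
  rintro ⟨m, n, ⟨c, hc⟩, h⟩
  rw [he, smul_smul, ← sub_eq_zero, ← sub_smul, smul_eq_zero] at h
  rcases h with h | h
  · have : m = 2 * (n * k) := by linear_combination h
    omega
  · exact hd h

theorem par_trans {d e f : Z2} (hd : d ≠ 0) (h1 : det d e = 0) (h2 : det d f = 0) :
    det e f = 0 := by
  unfold det at *
  by_cases h : d.1 = 0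
  · have h' : d.2 ≠ 0 := fun h' => hd (Prod.ext h h')
    apply mul_left_cancel₀ h'
    linear_combination e.2 * h2 - f.2 * h1
  · apply mul_left_cancel₀ h
    linear_combination e.1 * h2 - f.1 * h1

theorem plk (a b c d : Z2) : det a b * det c d - det a c * det b d + det a d * det b c = 0 := by
  unfold det; ring

theorem cram (a b c : Z2) : det a c • b = det b c • a + det a b • c := by
  ext <;> simp only [det, Prod.smul_fst, Prod.smul_snd, Prod.fst_add, Prod.snd_add, smul_eq_mul] <;>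
    ring

theorem canc {k : ℤ} (hk : k ≠ 0) {a b : Z2} (h : k • a = k • b) : a = b :=
  smul_right_injective Z2 hk h

section
variable (y : Fin 5 → Z2)

/-- the half-turn condition fails for the order `i0; i1, i2; i3, i4` of the first kind -/
def B1 (i0 i1 i2 i3 i4 : Fin 5) : Prop := Bad (y i2 - y i1) (y i3 - y i0 + (y i4 - y i0))

/-- the same for the second kind -/
def B2 (i1 i2 i3 i4 : Fin 5) : Prop := Bad (y i2 - y i1) (y i2 - y i1 - (y i4 - y i3))

def DD (i j : Fin 5) : ℤ := det (y i - y 0) (y j - y 0)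

variable {y}

theorem alg5 (h1 : B1 y 0 1 3 2 4) (h2 : B1 y 1 3 4 2 0) (h3 : B1 y 3 2 4 1 0)
    (h4 : B2 y 1 4 0 3) (n1 : DD y 1 3 ≠ 0) : False := by
  have p := plk (y 1 - y 0) (y 2 - y 0) (y 3 - y 0) (y 4 - y 0)
  have e1 : DD y 1 2 + DD y 1 4 + DD y 2 3 - DD y 3 4 = 0 := by
    have := bad_det h1
    simp only [DD, det, Prod.fst_sub, Prod.snd_sub, Prod.fst_add, Prod.snd_add] at this ⊢
    linear_combination -this
  have e2 : 2 * DD y 1 3 - 2 * DD y 1 4 - DD y 2 3 + DD y 2 4 = 0 := by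
    have := bad_det h2
    simp only [DD, det, Prod.fst_sub, Prod.snd_sub, Prod.fst_add, Prod.snd_add] at this ⊢
    linear_combination -this
  have e3 : -DD y 1 2 + DD y 1 4 - 2 * DD y 2 3 - 2 * DD y 3 4 = 0 := by
    have := bad_det h3
    simp only [DD, det, Prod.fst_sub, Prod.snd_sub, Prod.fst_add, Prod.snd_add] at this ⊢
    linear_combination -this
  have e4 : DD y 1 3 + DD y 3 4 = 0 := by
    have := bad_det h4
    simp only [DD, det, Prod.fst_sub, Prod.snd_sub] at this ⊢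
    linear_combination this
  change DD y 1 2 * DD y 3 4 - DD y 1 3 * DD y 2 4 + DD y 1 4 * DD y 2 3 = 0 at p
  generalize DD y 1 2 = a, DD y 1 3 = b, DD y 1 4 = c, DD y 2 3 = d, DD y 2 4 = l,
    DD y 3 4 = m at *
  have f1 : 4 * a = -3 * l + 13 * m := by omega
  have f2 : b = -m := by omega
  have f3 : 4 * c = l + m := by omega
  have f4 : 2 * d = l - 5 * m := by omega
  have g : (l - m) ^ 2 + 20 * m ^ 2 = 0 := by
    linear_combination 8 * p - 2 * m * f1 + 8 * l * f2 - 2 * d * f3 - (l + m) * f4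
  have : m = 0 := by nlinarith [sq_nonneg (l - m), sq_nonneg m]
  omega

theorem alg6 (h1 : B1 y 0 1 3 2 4) (h2 : B1 y 0 2 3 4 1) (h3 : B1 y 2 0 4 3 1)
    (h4 : B1 y 2 1 4 0 3) (n1 : DD y 1 3 ≠ 0) (n2 : 2 * DD y 2 4 - DD y 3 4 ≠ 0) :
    y 2 - y 0 = (2 : ℤ) • (y 1 - y 0) ∧ y 3 - y 4 = (3 : ℤ) • (y 1 - y 0) := by
  have p := plk (y 1 - y 0) (y 2 - y 0) (y 3 - y 0) (y 4 - y 0)
  have e1 : DD y 1 2 + DD y 1 4 + DD y 2 3 - DD y 3 4 = 0 := by
    have := bad_det h1
    simp only [DD, det, Prod.fst_sub, Prod.snd_sub, Prod.fst_add, Prod.snd_add] at this ⊢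
    linear_combination -this
  have e2 : -DD y 1 2 + DD y 1 3 + DD y 2 4 - DD y 3 4 = 0 := by
    have := bad_det h2
    simp only [DD, det, Prod.fst_sub, Prod.snd_sub, Prod.fst_add, Prod.snd_add] at this ⊢
    linear_combination -this
  have e3 : DD y 1 4 - 2 * DD y 2 4 + DD y 3 4 = 0 := by
    have := bad_det h3
    simp only [DD, det, Prod.fst_sub, Prod.snd_sub, Prod.fst_add, Prod.snd_add] at this ⊢
    linear_combination -this
  have e4 : -2 * DD y 1 2 + DD y 1 3 - 2 * DD y 2 4 + DD y 3 4 = 0 := by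
    have := bad_det h4
    simp only [DD, det, Prod.fst_sub, Prod.snd_sub, Prod.fst_add, Prod.snd_add] at this ⊢
    linear_combination -this
  have c2 := cram (y 1 - y 0) (y 2 - y 0) (y 3 - y 0)
  have c4 := cram (y 1 - y 0) (y 3 - y 0) (y 4 - y 0)
  change DD y 1 2 * DD y 3 4 - DD y 1 3 * DD y 2 4 + DD y 1 4 * DD y 2 3 = 0 at p
  change DD y 1 3 • _ = DD y 2 3 • _ + DD y 1 2 • _ at c2
  change DD y 1 4 • _ = DD y 3 4 • _ + DD y 1 3 • _ at c4
  generalize DD y 1 2 = a, DD y 1 3 = b, DD y 1 4 = c, DD y 2 3 = d, DD y 2 4 = l,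
    DD y 3 4 = m at *
  have f1 : a = -3 * l + 2 * m := by omega
  have f2 : b = -4 * l + 3 * m := by omega
  have f3 : c = 2 * l - m := by omega
  have f4 : d = l := by omega
  have g : (2 * l - m) * (3 * l - 2 * m) = 0 := by
    subst f1 f2 f3 f4
    linear_combination p
  have g' : 3 * l - 2 * m = 0 := (mul_eq_zero.1 g).resolve_left n2
  have a0 : a = 0 := by omega
  have d0 : d = b * 2 := by omega
  have c0 : c = b := by omega
  have m0 : m = b * 3 := by omega
  rw [a0, d0, zero_smul, add_zero, mul_smul] at c2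
  rw [c0, m0, mul_smul, ← smul_add] at c4
  refine ⟨canc n1 c2, ?_⟩
  have := canc n1 c4
  rw [← sub_eq_iff_eq_add] at this
  rw [← this]
  abel

theorem alg7 (hy : Function.Injective y) (h1 : B1 y 0 2 4 3 1) (h2 : B1 y 2 0 4 3 1)
    (h3 : B1 y 4 0 3 1 2) (h4 : B1 y 4 2 3 1 0) (n1 : DD y 2 4 ≠ 0) : False := by
  have p := plk (y 1 - y 0) (y 2 - y 0) (y 3 - y 0) (y 4 - y 0)
  have e1 : -DD y 1 2 + DD y 1 4 + DD y 2 3 + DD y 3 4 = 0 := by
    have := bad_det h1
    simp only [DD, det, Prod.fst_sub, Prod.snd_sub, Prod.fst_add, Prod.snd_add] at this ⊢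
    linear_combination -this
  have e2 : DD y 1 4 - 2 * DD y 2 4 + DD y 3 4 = 0 := by
    have := bad_det h2
    simp only [DD, det, Prod.fst_sub, Prod.snd_sub, Prod.fst_add, Prod.snd_add] at this ⊢
    linear_combination -this
  have e3 : DD y 1 3 + DD y 2 3 + 2 * DD y 3 4 = 0 := by
    have := bad_det h3
    simp only [DD, det, Prod.fst_sub, Prod.snd_sub, Prod.fst_add, Prod.snd_add] at this ⊢
    linear_combination -this
  have e4 : -DD y 1 2 + DD y 1 3 - 2 * DD y 2 4 + 2 * DD y 3 4 = 0 := by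
    have := bad_det h4
    simp only [DD, det, Prod.fst_sub, Prod.snd_sub, Prod.fst_add, Prod.snd_add] at this ⊢
    linear_combination -this
  have c2 := cram (y 1 - y 0) (y 2 - y 0) (y 4 - y 0)
  have c3 := cram (y 1 - y 0) (y 3 - y 0) (y 4 - y 0)
  change DD y 1 2 * DD y 3 4 - DD y 1 3 * DD y 2 4 + DD y 1 4 * DD y 2 3 = 0 at p
  change DD y 1 4 • _ = DD y 2 4 • _ + DD y 1 2 • _ at c2
  change DD y 1 4 • _ = DD y 3 4 • _ + DD y 1 3 • _ at c3
  generalize DD y 1 2 = a, DD y 1 3 = b, DD y 1 4 = c, DD y 2 3 = d, DD y 2 4 = l,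
    DD y 3 4 = m at *
  have f1 : a = 0 := by omega
  have f2 : b = 2 * l - 2 * m := by omega
  have f3 : c = 2 * l - m := by omega
  have f4 : d = -2 * l := by omega
  have g : l * (2 * (3 * l - 2 * m)) = 0 := by
    subst f1 f2 f3 f4
    linear_combination -p
  have g' : 2 * (3 * l - 2 * m) = 0 := (mul_eq_zero.1 g).resolve_left n1
  have c0 : c ≠ 0 := by omega
  have l0 : l = c * 2 := by omega
  have m0 : m = c * 3 := by omega
  have b0 : b = c * (-2) := by omega
  rw [f1, l0, zero_smul, add_zero, mul_smul] at c2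
  rw [m0, b0, mul_smul, mul_smul, ← smul_add] at c3
  have k2 := canc c0 c2
  have k3 := canc c0 c3
  refine not_bad (-1) (sub_ne_zero.2 fun h => absurd (hy h) (by decide)) ?_ h2
  have : y 3 - y 2 + (y 1 - y 2) = (y 3 - y 0) + (y 1 - y 0) - (2 : ℤ) • (y 2 - y 0) := by
    module
  rw [this, k2, k3]
  module

theorem alg8 (hy : Function.Injective y) (h3 : B2 y 1 3 0 4) (h4 : B2 y 1 4 0 3)
    (n1 : DD y 3 4 ≠ 0) : False := by
  have e3 : DD y 1 4 - DD y 3 4 = 0 := by
    have := bad_det h3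
    simp only [DD, det, Prod.fst_sub, Prod.snd_sub] at this ⊢
    linear_combination this
  have e4 : DD y 1 3 + DD y 3 4 = 0 := by
    have := bad_det h4
    simp only [DD, det, Prod.fst_sub, Prod.snd_sub] at this ⊢
    linear_combination this
  have c4 := cram (y 1 - y 0) (y 3 - y 0) (y 4 - y 0)
  change DD y 1 4 • _ = DD y 3 4 • _ + DD y 1 3 • _ at c4
  generalize DD y 1 3 = b, DD y 1 4 = c, DD y 3 4 = m at *
  have f2 : b = m * (-1) := by omega
  have f3 : c = m := by omega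
  rw [f2, f3, mul_smul, ← smul_add] at c4
  have k4 := canc n1 c4
  refine not_bad 1 (sub_ne_zero.2 fun h => absurd (hy h) (by decide)) ?_ h3
  have : y 3 - y 1 = (y 3 - y 0) - (y 1 - y 0) := by abel
  rw [this, k4]
  module

theorem alg9 (hy : Function.Injective y) (h1 : B1 y 2 3 4 0 1) (h2 : B1 y 3 2 4 1 0)
    (h3 : B2 y 0 3 1 4) (h4 : B2 y 1 2 0 4) (n1 : DD y 1 2 ≠ 0)
    (n2 : DD y 2 4 - DD y 3 4 ≠ 0) : False := by
  have p := plk (y 1 - y 0) (y 2 - y 0) (y 3 - y 0) (y 4 - y 0)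
  have e1 : -DD y 1 3 + DD y 1 4 + 2 * DD y 2 3 - 2 * DD y 2 4 = 0 := by
    have := bad_det h1
    simp only [DD, det, Prod.fst_sub, Prod.snd_sub, Prod.fst_add, Prod.snd_add] at this ⊢
    linear_combination -this
  have e2 : -DD y 1 2 + DD y 1 4 - 2 * DD y 2 3 - 2 * DD y 3 4 = 0 := by
    have := bad_det h2
    simp only [DD, det, Prod.fst_sub, Prod.snd_sub, Prod.fst_add, Prod.snd_add] at this ⊢
    linear_combination -this
  have e3 : DD y 1 3 + DD y 3 4 = 0 := by
    have := bad_det h3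
    simp only [DD, det, Prod.fst_sub, Prod.snd_sub] at this ⊢
    linear_combination -this
  have e4 : DD y 1 4 - DD y 2 4 = 0 := by
    have := bad_det h4
    simp only [DD, det, Prod.fst_sub, Prod.snd_sub] at this ⊢
    linear_combination this
  have c3 := cram (y 1 - y 0) (y 2 - y 0) (y 3 - y 0)
  have c4 := cram (y 1 - y 0) (y 2 - y 0) (y 4 - y 0)
  change DD y 1 2 * DD y 3 4 - DD y 1 3 * DD y 2 4 + DD y 1 4 * DD y 2 3 = 0 at p
  change DD y 1 3 • _ = DD y 2 3 • _ + DD y 1 2 • _ at c3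
  change DD y 1 4 • _ = DD y 2 4 • _ + DD y 1 2 • _ at c4
  generalize DD y 1 2 = a, DD y 1 3 = b, DD y 1 4 = c, DD y 2 3 = d, DD y 2 4 = l,
    DD y 3 4 = m at *
  have f1 : a = -m := by omega
  have f2 : b = -m := by omega
  have f3 : c = l := by omega
  have f4 : 2 * d = l - m := by omega
  have g : (l - m) * (l + 2 * m) = 0 := by
    subst f1 f2 f3
    linear_combination 2 * p - c * f4
  have g' : l + 2 * m = 0 := (mul_eq_zero.1 g).resolve_left n2
  obtain ⟨k, hk⟩ : ∃ k, m = k * 2 := ⟨m / 2, by omega⟩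
  have k0 : k ≠ 0 := by omega
  have a0 : a = k * (-2) := by omega
  have b0 : b = k * (-2) := by omega
  have c0 : c = k * (-4) := by omega
  have d0 : d = k * (-3) := by omega
  have l0 : l = k * (-4) := by omega
  rw [a0, b0, d0, mul_smul, mul_smul, mul_smul, ← smul_add] at c3
  rw [a0, c0, l0, mul_smul, mul_smul, mul_smul, ← smul_add] at c4
  have k3 := canc k0 c3
  have k4 := canc k0 c4
  refine not_bad (-1) (sub_ne_zero.2 fun h => absurd (hy h) (by decide)) ?_ h1
  have : (2 * -1 : ℤ) • (y 4 - y 3) = (-2 : ℤ) • (y 4 - y 0) - (-2 : ℤ) • (y 3 - y 0) := by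
    module
  rw [this, eq_sub_of_add_eq' k3.symm, eq_sub_of_add_eq' k4.symm]
  module

end

end NC

end Pool.Agent.Lib.B5
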