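import Pool.Agent.Lib.B5.Basic

/-! Tie steps: two new multipliers linked by one linear relation. -/

set_option autoImplicit false

namespace Pool.Agent.Lib.B5

/-- data of a tie: `c` the level row, `m` its exact places, `s1 s2` whether the two new
multipliers copy that row there, forms `n1 n2`, value `κ`, correction vectors, comparison row `c0`,
first fresh real `F` -/
structure Tie where
  c : ℕ
  m : List Bool
  s1 : Bool
  s2 : Bool
  n1 : List ℤ
  n2 : List ℤ
  κ : ℤ
  e1 : List ℤ
  e2 : List ℤ
  c0 : ℕ
  F : ℕ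

def tieOpt (s : Bool) : List Bool → List (List ℤ) → List (Option ℤ)
  | [], _ => []
  | false :: m, e => none :: tieOpt s m e.tail
  | true :: m, e => some (if s then (e.headD []).headD 0 else 0) :: tieOpt s m e.tail

/-- add `x` times `d` to each entry -/
def addMul (d : List ℤ) : List ℤ → List (List ℤ) → List (List ℤ)
  | x :: e, a :: r => ladd a (lsmul x d) :: addMul d e r
  | _, r => r

def Tie.r1 (X : Tie) (S : St) : List (List ℤ) := newRow (tieOpt X.s1 X.m (S.row X.c)) X.F

def Tie.r2 (X : Tie) (S : St) : List (List ℤ) := newRow (tieOpt X.s2 X.m (S.row X.c)) (X.F + S.n)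

/-- the formal value of `κ - α n1 - α' n2` -/
def Tie.d (X : Tie) (S : St) : List ℤ :=
  ladd [X.κ] (lsmul (-1) (ladd (comb X.n1 (X.r1 S)) (comb X.n2 (X.r2 S))))

def St.tie (S : St) (X : Tie) : St :=
  ⟨S.n, S.ch, S.tab ++ [addMul (X.d S) X.e1 (X.r1 S), addMul (X.d S) X.e2 (X.r2 S)]⟩

/-- at the marked places the first row is zero or one half and the second row is zero -/
def tieMark (q : ℕ) : List Bool → List (List ℤ) → List (List ℤ) → Bool
  | [], _, _ => true
  | false :: m, e, f => tieMark q m e.tail f.tail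
  | true :: m, e, f => (phEq q (e.headD []) [] || phEq q (e.headD []) [((q / 2 : ℕ) : ℤ)]) &&
      phEq q (f.headD []) [] && tieMark q m e.tail f.tail

/-- some marked place holds one half -/
def tieSome (q : ℕ) : List Bool → List (List ℤ) → Bool
  | [], _ => false
  | false :: m, e => tieSome q m e.tail
  | true :: m, e => phEq q (e.headD []) [((q / 2 : ℕ) : ℤ)] || tieSome q m e.tail

def tieOK (q : ℕ) (S : St) (X : Tie) : Bool :=
  decide (0 < q) && q % 2 == 0 && X.m.length == S.n && tabShort X.F S.tab &&
    tieMark q X.m (S.row X.c) (S.row X.c0) && tieSome q X.m (S.row X.c) && (X.s1 || X.s2) &&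
    phEq q (comb X.n1 (S.row X.c0)) (if X.s2 then [((q / 2 : ℕ) : ℤ)] else []) &&
    phEq q (comb X.n2 (S.row X.c0)) (if X.s1 then [((q / 2 : ℕ) : ℤ)] else []) &&
    (2 * X.κ) % q == 0

def St_TIE : Prop := ∀ (q : ℕ) (S : St) (X : Tie), tieOK q S X = true → Good q (S.tie X) → Good q S

/-- ties applied one after the other -/
def tieAll (S : St) : List Tie → St
  | [] => S
  | X :: l => tieAll (S.tie X) l

def tiesOK (q : ℕ) : St → List Tie → Bool
  | _, [] => true
  | S, X :: l => tieOK q S X && tiesOK q (S.tie X) l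

/-- each listed state is closed by ties followed by a tree -/
def chkTies (q : ℕ) (Hs : List St) : List (St × List Tie × Tr) → Bool
  | [] => true
  | e :: l => tiesOK q e.1 e.2.1 && !e.2.2.chain && chk q Hs e.2.2 (tieAll e.1 e.2.1) [] &&
      chkTies q Hs l

def fstAll : List (St × List Tie × Tr) → List St
  | [] => []
  | e :: l => e.1 :: fstAll l

def St_TIES : Prop := ∀ (q : ℕ) (Hs : List St) (l : List (St × List Tie × Tr)),
  (∀ H ∈ Hs, Good q H) → chkTies q Hs l = true → ∀ H ∈ fstAll l, Good q H

end Pool.Agent.Lib.B5
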