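import Pool.Agent.Lib.B5.All

/-! From closed type states to residue types; the classification of residues modulo five. -/

set_option autoImplicit false

namespace Pool.Agent.Lib.B5

def tySt (n : ℕ) (ch : List (List ℤ × List ℤ)) : St := ⟨4, ch, [[[(n : ℤ)], [0], [0], [0]]]⟩

def tyCh1 (a b c : ℤ) : List (List ℤ × List ℤ) :=
  [([], []), ([1], []), ([a, 1], []), ([b, 0, 1], []), ([c, 0, 0, 1], [])]

def tyCh2 (b c : ℤ) : List (List ℤ × List ℤ) :=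
  [([], []), ([0, 1], []), ([1], []), ([b, 0, 1], []), ([c, 0, 0, 1], [])]

def tyCh3 (c : ℤ) : List (List ℤ × List ℤ) :=
  [([], []), ([0, 1], []), ([0, 0, 1], []), ([1], []), ([c, 0, 0, 1], [])]

def tyCh4 : List (List ℤ × List ℤ) :=
  [([], []), ([0, 1], []), ([0, 0, 1], []), ([0, 0, 0, 1], []), ([1], [])]

theorem dv_aux {x y a u : ℤ} (h : (5 : ℤ) ∣ x - a * u) (g : (5 : ℤ) ∣ y - 1 * u) :
    (5 : ℤ) ∣ x - a * y := by
  have e : x - a * y = (x - a * u) - a * (y - 1 * u) := by ring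
  rw [e]
  exact dvd_sub h (g.mul_left a)

theorem ty1 (n : ℕ) (hn : 0 < n) (a b c : ℤ) (h : Good (5 * n) (tySt n (tyCh1 a b c))) :
    TypeOK ![0, 1, a, b, c] := by
  intro t u ht hu e
  have e1 : (5 : ℤ) ∣ t 1 - t 0 - 1 * u := e 1
  have e2 : (5 : ℤ) ∣ t 2 - t 0 - a * u := e 2
  have e3 : (5 : ℤ) ∣ t 3 - t 0 - b * u := e 3
  have e4 : (5 : ℤ) ∣ t 4 - t 0 - c * u := e 4
  refine h _ (inj_h ht) (holds_type n hn _ _ (t 0, 0) (t 1 - t 0) (t 2 - t 0 - a * (t 1 - t 0))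
    (t 3 - t 0 - b * (t 1 - t 0)) (t 4 - t 0 - c * (t 1 - t 0)) (by omega) ?_ ?_ ?_ ?_)
  · exact dv_aux e2 e1
  · exact dv_aux e3 e1
  · exact dv_aux e4 e1
  · intro j; fin_cases j <;> simp [tyCh1]

theorem ty2 (n : ℕ) (hn : 0 < n) (b c : ℤ) (h : Good (5 * n) (tySt n (tyCh2 b c))) :
    TypeOK ![0, 0, 1, b, c] := by
  intro t u ht hu e
  have e1 : (5 : ℤ) ∣ t 1 - t 0 - 0 * u := e 1
  have e2 : (5 : ℤ) ∣ t 2 - t 0 - 1 * u := e 2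
  have e3 : (5 : ℤ) ∣ t 3 - t 0 - b * u := e 3
  have e4 : (5 : ℤ) ∣ t 4 - t 0 - c * u := e 4
  refine h _ (inj_h ht) (holds_type n hn _ _ (t 0, 0) (t 2 - t 0) (t 1 - t 0)
    (t 3 - t 0 - b * (t 2 - t 0)) (t 4 - t 0 - c * (t 2 - t 0)) (by omega) (by omega) ?_ ?_ ?_)
  · exact dv_aux e3 e2
  · exact dv_aux e4 e2
  · intro j; fin_cases j <;> simp [tyCh2]

theorem ty3 (n : ℕ) (hn : 0 < n) (c : ℤ) (h : Good (5 * n) (tySt n (tyCh3 c))) :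
    TypeOK ![0, 0, 0, 1, c] := by
  intro t u ht hu e
  have e1 : (5 : ℤ) ∣ t 1 - t 0 - 0 * u := e 1
  have e2 : (5 : ℤ) ∣ t 2 - t 0 - 0 * u := e 2
  have e3 : (5 : ℤ) ∣ t 3 - t 0 - 1 * u := e 3
  have e4 : (5 : ℤ) ∣ t 4 - t 0 - c * u := e 4
  refine h _ (inj_h ht) (holds_type n hn _ _ (t 0, 0) (t 3 - t 0) (t 1 - t 0) (t 2 - t 0)
    (t 4 - t 0 - c * (t 3 - t 0)) (by omega) (by omega) (by omega) ?_ ?_)
  · exact dv_aux e4 e3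
  · intro j; fin_cases j <;> simp [tyCh3]

theorem ty4 (n : ℕ) (hn : 0 < n) (h : Good (5 * n) (tySt n tyCh4)) : TypeOK ![0, 0, 0, 0, 1] := by
  intro t u ht hu e
  have e1 : (5 : ℤ) ∣ t 1 - t 0 - 0 * u := e 1
  have e2 : (5 : ℤ) ∣ t 2 - t 0 - 0 * u := e 2
  have e3 : (5 : ℤ) ∣ t 3 - t 0 - 0 * u := e 3
  have e4 : (5 : ℤ) ∣ t 4 - t 0 - 1 * u := e 4
  refine h _ (inj_h ht) (holds_type n hn _ _ (t 0, 0) (t 4 - t 0) (t 1 - t 0) (t 2 - t 0)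
    (t 3 - t 0) (by omega) (by omega) (by omega) (by omega) ?_)
  intro j; fin_cases j <;> simp [tyCh4]

end Pool.Agent.Lib.B5
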