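import Pool.Agent.Lib.B5.VDefs

/-! Six-colourings for the split two plus two, and for three exceptional lines. -/

set_option autoImplicit false

namespace Pool.Agent.Lib.B5

namespace V22

theorem c3 {r : ℝ} (h0 : r ≠ 0) (h1 : |r| ≤ 1) :
    ∃ i m : ℤ, 1 ≤ r * (1 + 3 * i) - 3 * m ∧ r * (1 + 3 * i) - 3 * m ≤ 2 := by
  obtain ⟨h2, h3⟩ := abs_le.1 h1
  have h4 : r * r⁻¹ = 1 := mul_inv_cancel₀ h0
  rcases lt_or_gt_of_ne h0 with h | h
  · by_cases a1 : r ≤ -1 / 2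
    · exact ⟨-1, 0, by push_cast; linarith, by push_cast; linarith⟩
    by_cases a2 : r ≤ -1 / 3
    · exact ⟨1, -1, by push_cast; linarith, by push_cast; linarith⟩
    have b1 := Int.floor_le ((r⁻¹ - 1) / 3)
    have b2 := Int.lt_floor_add_one ((r⁻¹ - 1) / 3)
    exact ⟨⌊(r⁻¹ - 1) / 3⌋, 0, by push_cast; nlinarith, by push_cast; nlinarith⟩
  · by_cases a1 : 1 / 2 ≤ r
    · exact ⟨-1, -1, by push_cast; linarith, by push_cast; linarith⟩
    by_cases a2 : 1 / 3 ≤ r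
    · exact ⟨1, 0, by push_cast; linarith, by push_cast; linarith⟩
    have b1 := Int.le_ceil ((r⁻¹ - 1) / 3)
    have b2 := Int.ceil_lt_add_one ((r⁻¹ - 1) / 3)
    exact ⟨⌈(r⁻¹ - 1) / 3⌉, 0, by push_cast; nlinarith, by push_cast; nlinarith⟩

theorem core (h : St_VCOL) (t : Fin 5 → ℤ) (a a2 : ℝ) (ht : Function.Injective t)
    (hp : Par a t p41) (h1 : ∃ m : ℤ, a2 * ((t 1 - t 0 : ℤ) : ℝ) = m)
    (h2 : ∃ m : ℤ, a2 * ((t 2 - t 0 : ℤ) : ℝ) = 1 / 2 + m)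
    (h3 : ∃ m : ℤ, a2 * ((t 3 - t 0 : ℤ) : ℝ) = 1 / 2 + m)
    (hle : |((t 3 - t 2 : ℤ) : ℝ)| ≤ |((t 1 - t 0 : ℤ) : ℝ)|) : VStr t lam6 := by
  obtain ⟨m1, h1⟩ := h1
  obtain ⟨m2, h2⟩ := h2
  obtain ⟨m3, h3⟩ := h3
  have d1 : ((t 1 - t 0 : ℤ) : ℝ) ≠ 0 := Int.cast_ne_zero.2 (sub_ne_zero.2 (ht.ne (by decide)))
  have d2 : ((t 3 - t 2 : ℤ) : ℝ) ≠ 0 := Int.cast_ne_zero.2 (sub_ne_zero.2 (ht.ne (by decide)))
  obtain ⟨i, m, c1, c2⟩ := c3 (div_ne_zero d2 d1) (by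
    rw [abs_div]; exact div_le_one_of_le₀ hle (abs_nonneg _))
  obtain ⟨θ, e1, e2⟩ : ∃ θ : ℝ, θ * ((t 1 - t 0 : ℤ) : ℝ) = 1 + 3 * i ∧
      θ * ((t 3 - t 2 : ℤ) : ℝ) = ((t 3 - t 2 : ℤ) : ℝ) / ((t 1 - t 0 : ℤ) : ℝ) * (1 + 3 * i) :=
    ⟨(1 + 3 * i) / ((t 1 - t 0 : ℤ) : ℝ), by field_simp, by field_simp⟩
  rw [← e2] at c1 c2
  obtain ⟨col, hcol⟩ : ∃ col : ℤ → ZMod 6, ∀ w, col w =
    ((3 * ⌊2 * a2 * w⌋ + 2 * ⌊θ * w⌋ : ℤ) : ZMod 6) := ⟨_, fun _ => rfl⟩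
  have six : (6 : ZMod 6) = 0 := by decide
  have fl : ∀ (b : ℝ) (w d n : ℤ), b * d = n → ⌊b * ((w + d : ℤ) : ℝ)⌋ = ⌊b * w⌋ + n :=
    fun b w d n e => by rw [Int.cast_add, mul_add, e, Int.floor_add_intCast]
  have k1 : ∀ w, col (w + (t 1 - t 0)) = col w + 2 := fun w => by
    rw [hcol, hcol, fl _ w _ (2 * m1) (by rw [mul_assoc, h1]; push_cast; ring),
      fl _ w _ (1 + 3 * i) (by rw [e1]; push_cast; ring)]
    push_cast
    linear_combination ((m1 : ZMod 6) + i) * six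
  have k2 : ∀ w, ∃ e : ZMod 6, col (w + (t 2 - t 0)) = col w + 3 + 2 * e := fun w => by
    refine ⟨((⌊θ * ((w + (t 2 - t 0) : ℤ) : ℝ)⌋ - ⌊θ * w⌋ : ℤ) : ZMod 6), ?_⟩
    rw [hcol, hcol, fl _ w _ (1 + 2 * m2) (by rw [mul_assoc, h2]; push_cast; ring)]
    generalize ⌊θ * ((w + (t 2 - t 0) : ℤ) : ℝ)⌋ = A
    push_cast
    linear_combination (m2 : ZMod 6) * six
  have k3 : ∀ w, col (w + (t 3 - t 2)) = col w + 2 ∨ col (w + (t 3 - t 2)) = col w + 4 :=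
    fun w => by
      have g1 : ⌊θ * ((w + (t 3 - t 2) : ℤ) : ℝ)⌋ = ⌊θ * w⌋ + 3 * m + 1 ∨
          ⌊θ * ((w + (t 3 - t 2) : ℤ) : ℝ)⌋ = ⌊θ * w⌋ + 3 * m + 2 := by
        have g2 : ⌊θ * w⌋ + 3 * m + 1 ≤ ⌊θ * ((w + (t 3 - t 2) : ℤ) : ℝ)⌋ := by
          rw [Int.le_floor, Int.cast_add w, mul_add]
          push_cast at c1 ⊢
          linarith [Int.floor_le (θ * w)]
        have g3 : ⌊θ * ((w + (t 3 - t 2) : ℤ) : ℝ)⌋ < ⌊θ * w⌋ + 3 * m + 3 := by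
          rw [Int.floor_lt, Int.cast_add w, mul_add]
          push_cast at c2 ⊢
          linarith [Int.lt_floor_add_one (θ * w)]
        omega
      rw [hcol, hcol, fl _ w _ (2 * (m3 - m2)) (by
        push_cast at h2 h3 ⊢; linear_combination 2 * h3 - 2 * h2)]
      rcases g1 with g1 | g1 <;> rw [g1] <;> push_cast
      · left
        linear_combination ((m3 : ZMod 6) - m2 + m) * six
      · right
        linear_combination ((m3 : ZMod 6) - m2 + m) * six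
  have fA : ∀ X e s : ZMod 6, s = 2 ∨ s = 4 →
      Function.Injective ![X + s + 3 + 2 * e, X + s + 3 + 2 * e - 2, X + s, X,
        X + s + 3 + 2 * e + 2] := by
    decide
  have fB : ∀ X e s : ZMod 6, s = 2 ∨ s = 4 →
      Function.Injective ![X + 2, X + 2 + 2, X + 3 + 2 * e + 2, X + 3 + 2 * e + s + 2, X] := by
    decide
  refine h t a p41 (fun ρ => col (ρ + t 0)) (fun w => col (w - t 4) + 2) hp (fun y => ?_)
    (fun y => ?_)
  · obtain ⟨s, hs, q3⟩ : ∃ s : ZMod 6, (s = 2 ∨ s = 4) ∧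
        col (y - t 2 + t 0) = col (y - t 3 + t 0) + s := by
      have := k3 (y - t 3 + t 0)
      rw [show y - t 3 + t 0 + (t 3 - t 2) = y - t 2 + t 0 by ring] at this
      exact this.elim (fun h => ⟨2, Or.inl rfl, h⟩) fun h => ⟨4, Or.inr rfl, h⟩
    obtain ⟨e, q2⟩ := k2 (y - t 2 + t 0)
    have q1 := k1 (y - t 1 + t 0)
    rw [show y - t 2 + t 0 + (t 2 - t 0) = y by ring, q3] at q2
    rw [show y - t 1 + t 0 + (t 1 - t 0) = y by ring, q2] at q1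
    have := fA (col (y - t 3 + t 0)) e s hs
    refine (congrArg Function.Injective (funext fun j => ?_)).mp this
    fin_cases j
    · simp [p41, q2]
    · simp [p41, q1]
    · simp [p41, q3]
    · simp [p41]
    · simp [p41, q2]
  · obtain ⟨s, hs, q3⟩ : ∃ s : ZMod 6, (s = 2 ∨ s = 4) ∧
        col (y + t 3 - t 4) = col (y + t 2 - t 4) + s := by
      have := k3 (y + t 2 - t 4)
      rw [show y + t 2 - t 4 + (t 3 - t 2) = y + t 3 - t 4 by ring] at this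
      exact this.elim (fun h => ⟨2, Or.inl rfl, h⟩) fun h => ⟨4, Or.inr rfl, h⟩
    obtain ⟨e, q2⟩ := k2 (y + t 0 - t 4)
    have q1 := k1 (y + t 0 - t 4)
    rw [show y + t 0 - t 4 + (t 2 - t 0) = y + t 2 - t 4 by ring] at q2
    rw [show y + t 0 - t 4 + (t 1 - t 0) = y + t 1 - t 4 by ring] at q1
    rw [q2] at q3
    have := fB (col (y + t 0 - t 4)) e s hs
    refine (congrArg Function.Injective (funext fun j => ?_)).mp this
    fin_cases j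
    · simp [p41]
    · simp [p41, q1]
    · simp [p41, q2]
    · simp [p41, q3]
    · simp [p41, show y - t 4 + t 0 = y + t 0 - t 4 by ring]

theorem lin (h : St_VCOL) {N : ℕ} (f H : ZMod N → ZMod 6) (q1 q2 q3 : ℤ)
    (hA : ∀ y : ZMod N, Function.Injective ![f y, f (y - q1), f (y - q2), f (y - q3), H y])
    (hB : ∀ y : ZMod N, Function.Injective ![H y, H (y + q1), H (y + q2), H (y + q3), f y])
    {t : Fin 5 → ℤ} {a : ℝ} {g : ℤ} (hg : g ≠ 0) (hp : Par a t p41) (h1 : t 1 - t 0 = q1 * g)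
    (h2 : t 2 - t 0 = q2 * g) (h3 : t 3 - t 0 = q3 * g) : VStr t lam6 := by
  have k : ∀ y z q : ℤ, z = y + q * g → ((z / g : ℤ) : ZMod N) = ((y / g : ℤ) : ZMod N) + q :=
    fun y z q e => by rw [e, Int.add_mul_ediv_right _ _ hg, Int.cast_add]
  refine h t a p41 (fun ρ => f (((ρ + t 0) / g : ℤ) : ZMod N))
    (fun w => H (((w - t 4) / g : ℤ) : ZMod N)) hp (fun y => ?_) (fun y => ?_)
  · refine (congrArg Function.Injective (funext fun j => ?_)).mp (hA ((y / g : ℤ) : ZMod N))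
    have e1 := k (y - t 1 + t 0) y q1 (by linarith)
    have e2 := k (y - t 2 + t 0) y q2 (by linarith)
    have e3 := k (y - t 3 + t 0) y q3 (by linarith)
    fin_cases j
    · simp [p41]
    · simp [p41, e1]
    · simp [p41, e2]
    · simp [p41, e3]
    · simp [p41]
  · refine (congrArg Function.Injective (funext fun j => ?_)).mp
      (hB (((y + t 0 - t 4) / g : ℤ) : ZMod N))
    have e1 := k (y + t 0 - t 4) (y + t 1 - t 4) q1 (by linarith)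
    have e2 := k (y + t 0 - t 4) (y + t 2 - t 4) q2 (by linarith)
    have e3 := k (y + t 0 - t 4) (y + t 3 - t 4) q3 (by linarith)
    fin_cases j
    · simp [p41]
    · simp [p41, e1]
    · simp [p41, e2]
    · simp [p41, e3]
    · simp [p41, show y - t 4 + t 0 = y + t 0 - t 4 by ring]

end V22

theorem stV22 (h : St_VCOL) (hp : St_VPERM) : St_V22 := by
  rintro t a a2 ht hP ⟨m1, h1⟩ ⟨m2, h2⟩ ⟨m3, h3⟩
  rcases le_total |((t 3 - t 2 : ℤ) : ℝ)| |((t 1 - t 0 : ℤ) : ℝ)| with hle | hle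
  · exact V22.core h t a a2 ht hP ⟨m1, h1⟩ ⟨m2, h2⟩ ⟨m3, h3⟩ hle
  · let σ : Equiv.Perm (Fin 5) := Equiv.swap 0 2 * Equiv.swap 1 3
    have s0 : σ 0 = 2 := by decide
    have s1 : σ 1 = 3 := by decide
    have s2 : σ 2 = 0 := by decide
    have s3 : σ 3 = 1 := by decide
    have s4 : ∀ j, p41 (σ j) = p41 j := by decide
    refine hp t lam6 σ (V22.core h _ a a2 (ht.comp σ.injective) (fun j => ?_) ⟨m3 - m2, ?_⟩
      ⟨-1 - m2, ?_⟩ ⟨m1 - 1 - m2, ?_⟩ (by simpa only [s0, s1, s2, s3] using hle))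
    · obtain ⟨n1, g1⟩ := hP (σ j)
      obtain ⟨n2, g2⟩ := hP 2
      refine ⟨n1 - n2, ?_⟩
      rw [s4] at g1
      rw [if_neg (by decide)] at g2
      simp only [s0]
      push_cast at g1 g2 ⊢
      linear_combination g1 - g2
    all_goals
      simp only [s0, s1, s2, s3]
      push_cast at h1 h2 h3 ⊢
      linarith

theorem stVLIN (h : St_VCOL) : St_VLIN := by
  rintro t a g hg hp (⟨h1, h2, h3⟩ | ⟨h1, h2, h3⟩ | ⟨h1, h2, h3⟩)
  · exact V22.lin h (N := 12) ![0, 1, 2, 0, 1, 2, 3, 4, 5, 3, 4, 5]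
      ![2, 3, 4, 5, 3, 4, 5, 0, 1, 2, 0, 1] 1 6 8 (by decide) (by decide) hg hp
      (by rw [h1, one_mul]) h2 h3
  · exact V22.lin h (N := 23)
      ![5, 1, 4, 0, 5, 1, 3, 0, 2, 2, 3, 4, 4, 5, 5, 1, 0, 0, 2, 3, 3, 4, 2]
      ![1, 0, 0, 2, 3, 3, 4, 2, 5, 1, 4, 0, 5, 1, 3, 0, 2, 2, 3, 4, 4, 5, 5] 3 5 11
      (by decide) (by decide) hg hp h1 h2 h3
  · exact V22.lin h (N := 12) ![0, 1, 2, 0, 1, 2, 3, 4, 5, 3, 4, 5]
      ![1, 2, 0, 1, 2, 3, 4, 5, 3, 4, 5, 0] 5 6 22 (by decide) (by decide) hg hp h1 h2 h3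

end Pool.Agent.Lib.B5
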