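import Pool.Agent.Lib.B5.HDefs
import Pool.Agent.Lib.B5.ST1

/-! Row structures from the parity pattern and a hit of one of the 24 row polyhedra. -/

set_option autoImplicit false

namespace Pool.Agent.Lib.B5

namespace VALL

theorem vstr_perm {t : Fin 5 → ℤ} {lam : ℕ → ℝ} (τ : Equiv.Perm (Fin 5))
    (h : VStr (fun j => t (τ j)) lam) : VStr t lam := by
  obtain ⟨P, ω, h⟩ := h
  refine ⟨P, ω, fun y => ?_⟩
  obtain ⟨e, B, h1, h2, h3, h4, h5⟩ := h y
  refine ⟨fun i => ((e i).1, τ (e i).2), B, fun i j hij => h1 ?_, fun s j => ?_, h3, h4, h5⟩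
  · simp only [Prod.mk.injEq] at hij
    exact Prod.ext hij.1 (τ.injective hij.2)
  · obtain ⟨j', rfl⟩ := τ.surjective j
    rw [h2 s j']
    refine exists_congr fun i => ⟨fun hi => by simp [hi], fun hi => ?_⟩
    simp only [Prod.mk.injEq] at hi
    exact Prod.ext hi.1 (τ.injective hi.2)

theorem mem_vPolys {q : ℕ} {lam : List ℤ} {E : List (List ℤ)} {l : List (List ℕ)}
    {P : List (List ℤ × ℤ)} (h : P ∈ vPolys q lam E l) :
    ∃ σ ∈ l, P = vPoly q lam (pick E σ) := by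
  induction l with
  | nil => simp [vPolys] at h
  | cons σ l ih =>
    simp only [vPolys, List.mem_cons] at h
    rcases h with h | h
    · exact ⟨σ, List.mem_cons_self, h⟩
    · obtain ⟨σ', h1, h2⟩ := ih h
      exact ⟨σ', List.mem_cons_of_mem _ h1, h2⟩

theorem pick_getD (E : List (List ℤ)) (σ : List ℕ) (i : ℕ) (hi : i < σ.length) :
    (pick E σ).getD i [] = E.getD (σ.getD i 0) [] := by
  induction σ generalizing i with
  | nil => simp at hi
  | cons x σ ih =>
    cases i with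
    | zero => rfl
    | succ i =>
      simp only [pick, List.getD_cons_succ]
      exact ih i (by simpa using hi)

theorem ords_ok : ∀ σ ∈ ords, permOK σ = true := by decide

theorem mem_vPoly (q : ℕ) (lam : List ℤ) (E : List (List ℤ)) {i k : ℕ} (hi : i < 5)
    (h0 : 0 < k) (hk : k < 5) : vRow q lam E i k ∈ vPoly q lam E := by
  have h1 : vRow q lam E i k ∈ vRows q lam E k := by
    interval_cases i <;> simp [vRows]
  simp only [vPoly, List.mem_append]
  interval_cases k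
  · exact Or.inl (Or.inl (Or.inl h1))
  · exact Or.inl (Or.inl (Or.inr h1))
  · exact Or.inl (Or.inr h1)
  · exact Or.inr h1

/-- the periodic extension of five values -/
noncomputable def ext5 (g : ℕ → ℝ) (a : ℤ) : ℝ := g (a % 5).toNat + ((a / 5 : ℤ) : ℝ)

theorem ext5_add (g : ℕ → ℝ) (a : ℤ) : ext5 g (a + 5) = ext5 g a + 1 := by
  have h1 : (a + 5) % 5 = a % 5 := by omega
  have h2 : (a + 5) / 5 = a / 5 + 1 := by omega
  simp only [ext5, h1, h2]
  push_cast
  ring

theorem ext5_fin (g : ℕ → ℝ) (i : Fin 5) : ext5 g (i : ℕ) = g i := by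
  have h0 := i.2
  have h1 : (((i : ℕ) : ℤ) % 5).toNat = i := by omega
  have h2 : ((i : ℕ) : ℤ) / 5 = 0 := by omega
  simp [ext5, h1, h2]

theorem ext5_gap (q : ℕ) (hq : 0 < q) (lam : List ℤ) (E : List (List ℤ)) (z : ℕ → ℝ)
    (h : ∀ r ∈ vPoly q lam E, dot r.1 z ≤ (r.2 : ℝ) / q) (k : ℕ) (h0 : 0 < k) (hk : k < 5)
    (a : ℤ) : lamF q lam k ≤ ext5 (fun i => dot (E.getD i []) z) (a + k) -
      ext5 (fun i => dot (E.getD i []) z) a := by
  have hi : (a % 5).toNat < 5 := by omega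
  have h1 := h _ (mem_vPoly q lam E hi h0 hk)
  have hq' : (q : ℝ) ≠ 0 := by positivity
  unfold vRow at h1
  split_ifs at h1 with hc
  · have e1 : ((a + k) % 5).toNat = (a % 5).toNat + k := by omega
    have e2 : (a + k) / 5 = a / 5 := by omega
    simp only [dot_ladd, dot_lsmul] at h1
    simp only [ext5, e1, e2, lamF]
    push_cast at h1
    rw [neg_div] at h1
    linarith
  · have e1 : ((a + k) % 5).toNat = (a % 5).toNat + k - 5 := by omega
    have e2 : (a + k) / 5 = a / 5 + 1 := by omega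
    simp only [dot_ladd, dot_lsmul] at h1
    simp only [ext5, e1, e2, lamF]
    push_cast at h1 ⊢
    rw [sub_div, div_self hq'] at h1
    linarith

theorem ev_half (q : ℕ) (hq : 0 < q) (h2 : q % 2 = 0) (w : ℕ → ℝ) :
    ev q w [((q / 2 : ℕ) : ℤ)] = 1 / 2 := by
  obtain ⟨m, rfl⟩ : ∃ m, q = 2 * m := ⟨q / 2, by omega⟩
  have h1 : 2 * m / 2 = m := by omega
  have h3 : (m : ℝ) ≠ 0 := by
    have : 0 < m := by omega
    positivity
  simp only [ev, h1, dot_nil]
  push_cast
  field_simp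
  ring

end VALL

open VALL in
theorem stVALL (h : St_VPAR) : St_VALL := by
  intro q lam S c four π t o b α w hp hD hH
  simp only [parOK, Bool.and_eq_true, decide_eq_true_eq, beq_iff_eq] at hp
  obtain ⟨⟨⟨⟨⟨⟨hq, h2⟩, hπ⟩, p1⟩, p2⟩, p3⟩, p4⟩ := hp
  obtain ⟨-, ht, hα⟩ := hD
  obtain ⟨τ, hτ⟩ := permOK_spec hπ
  obtain ⟨β, z, hz, P, hP, hr⟩ := hH
  obtain ⟨σ, hσ, rfl⟩ := mem_vPolys hP
  have hσ' := ords_ok σ hσ
  obtain ⟨s, hs⟩ := permOK_spec hσ'
  have hlen : σ.length = 5 := by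
    simp only [permOK, Bool.and_eq_true, beq_iff_eq] at hσ'
    exact hσ'.1.1.1.1.1.1
  have hd : ∀ i j : Fin 5, dot (ptDiff S (π.getD i 0) (π.getD j 0)) b = t (τ i) - t (τ j) := by
    intro i j
    rw [ht, ht, hτ, hτ, ptDiff, dot_ladd, dot_lsmul]
    push_cast
    ring
  have hph : ∀ (i : Fin 5) (x : List ℤ),
      phEq q (comb (ptDiff S (π.getD i 0) (π.getD 0 0)) (S.row c)) x = true →
      ∃ m : ℤ, α c * ((t (τ i) - t (τ 0) : ℤ) : ℝ) = ev q w x + m := by
    intro i x hx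
    obtain ⟨m, hm⟩ := ev_comb q w (α c) (ptDiff S (π.getD i 0) (π.getD 0 0)) (S.row c) b (hα c)
    obtain ⟨m', hm'⟩ := phEq_spec hq hx w
    refine ⟨m + m', ?_⟩
    have e := hd i 0
    simp only [Fin.val_zero] at e
    rw [← e, hm, hm']
    push_cast
    ring
  have e0 : ev q w [] = 0 := rfl
  have eh := ev_half q hq h2 w
  obtain ⟨m0, z0⟩ := hz 0 (by norm_num)
  obtain ⟨m1, z1⟩ := hz 1 (by norm_num)
  obtain ⟨m2, z2⟩ := hz 2 (by norm_num)
  have d1 : dot (ptDiff S (π.getD 1 0) (π.getD 0 0)) b = t (τ 1) - t (τ 0) := hd 1 0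
  have d2 : dot (ptDiff S (π.getD 2 0) (π.getD 0 0)) b = t (τ 2) - t (τ 0) := hd 2 0
  have d3 : dot (ptDiff S (π.getD 3 0) (π.getD 0 0)) b = t (τ 3) - t (τ 0) := hd 3 0
  have d4 : dot (ptDiff S (π.getD 4 0) (π.getD 3 0)) b = t (τ 4) - t (τ 3) := hd 4 3
  simp only [vForms, List.getD_cons_zero, List.getD_cons_succ, d1, d2] at z0 z1 z2
  obtain ⟨a1, b1⟩ := hph 1 _ p1
  obtain ⟨a2, b2⟩ := hph 2 _ p2
  obtain ⟨a3, b3⟩ := hph 3 _ p3
  obtain ⟨a4, b4⟩ := hph 4 _ p4
  refine vstr_perm τ ?_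
  cases four with
  | true =>
    simp only [if_true, d3] at z2 hr b3
    refine h (fun j => t (τ j)) _ (fun j => decide (j = 4)) (α c) β
      (z 3 + β * ((t (τ 4) - t (τ 0) : ℤ) : ℝ)) (ext5 fun i => dot ((pick E41 σ).getD i []) z) s
      (fun j => ?_) (ext5_add _) (fun i => ?_) (ext5_gap q hq lam _ z hr)
    · fin_cases j
      · exact ⟨0, by simp⟩
      · exact ⟨a1, by simpa [e0] using b1⟩
      · exact ⟨a2, by simpa [e0] using b2⟩
      · exact ⟨a3, by simpa [e0] using b3⟩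
      · exact ⟨a4, by rw [eh] at b4; simpa using b4⟩
    · rw [ext5_fin, pick_getD _ _ _ (i.2.trans_eq hlen.symm), ← hs]
      generalize s i = j
      fin_cases j
      · exact ⟨0, by simp [E41]⟩
      · exact ⟨-m0, by simp [E41]; push_cast at z0; linarith⟩
      · exact ⟨-m1, by simp [E41]; push_cast at z1; linarith⟩
      · exact ⟨-m2, by simp [E41]; push_cast at z2; linarith⟩
      · exact ⟨0, by simp [E41]⟩
  | false =>
    simp only [Bool.false_eq_true, if_false, d4] at z2 hr b3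
    refine h (fun j => t (τ j)) _ (fun j => decide (j = 3 ∨ j = 4)) (α c) β
      (z 3 + β * ((t (τ 3) - t (τ 0) : ℤ) : ℝ)) (ext5 fun i => dot ((pick E32 σ).getD i []) z) s
      (fun j => ?_) (ext5_add _) (fun i => ?_) (ext5_gap q hq lam _ z hr)
    · fin_cases j
      · exact ⟨0, by simp⟩
      · exact ⟨a1, by simpa [e0] using b1⟩
      · exact ⟨a2, by simpa [e0] using b2⟩
      · exact ⟨a3, by rw [eh] at b3; simpa using b3⟩
      · exact ⟨a4, by rw [eh] at b4; simpa using b4⟩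
    · rw [ext5_fin, pick_getD _ _ _ (i.2.trans_eq hlen.symm), ← hs]
      generalize s i = j
      fin_cases j
      · exact ⟨0, by simp [E32]⟩
      · exact ⟨-m0, by simp [E32]; push_cast at z0; linarith⟩
      · exact ⟨-m1, by simp [E32]; push_cast at z1; linarith⟩
      · exact ⟨0, by simp [E32]⟩
      · exact ⟨m2, by simp [E32]; push_cast at z2; linarith⟩

end Pool.Agent.Lib.B5
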