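import Pool.Agent.Lib.B5.VDefs
import Pool.Agent.Lib.B5.VPAR
import Pool.Agent.Lib.B5.VALL
import Pool.Agent.Lib.B5.CVV41a
import Pool.Agent.Lib.B5.CVV32a

/-! Row structures with gaps `k / 6` for all five-point sets outside two families. -/

set_option autoImplicit false

namespace Pool.Agent.Lib.B5

namespace V6

theorem two_adic {n : ℕ} (d : Fin n → ℤ) (i : Fin n) (hi : d i ≠ 0) :
    ∃ (a : ℝ) (e : Fin n → ℤ), (∃ j, e j % 2 = 1) ∧ ∀ j, a * (d j : ℝ) = (e j : ℝ) / 2 := by
  obtain ⟨e, h1, h2⟩ := Finset.extract_gcd (s := Finset.univ) d ⟨i, Finset.mem_univ i⟩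
  have hg : Finset.univ.gcd d ≠ 0 := fun h => hi (Finset.gcd_eq_zero_iff.1 h i (Finset.mem_univ i))
  have hg' : ((Finset.univ.gcd d : ℤ) : ℝ) ≠ 0 := Int.cast_ne_zero.2 hg
  refine ⟨1 / (2 * ((Finset.univ.gcd d : ℤ) : ℝ)), e, ?_, fun j => ?_⟩
  · by_contra h
    have : (2 : ℤ) ∣ Finset.univ.gcd e := Finset.dvd_gcd fun j _ => by
      have : ¬ e j % 2 = 1 := fun h' => h ⟨j, h'⟩
      omega
    rw [h2] at this
    omega
  · have := congrArg (fun x : ℤ => (x : ℝ)) (h1 j (Finset.mem_univ j))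
    simp only [Int.cast_mul] at this
    rw [this]
    field_simp

theorem half_odd {x : ℝ} {e : ℤ} (h : x = (e : ℝ) / 2) (he : e % 2 = 1) :
    ∃ m : ℤ, x = 1 / 2 + m := by
  obtain ⟨m, rfl⟩ : ∃ m, e = 2 * m + 1 := ⟨e / 2, by omega⟩
  exact ⟨m, by rw [h]; push_cast; ring⟩

theorem half_even {x : ℝ} {e : ℤ} (h : x = (e : ℝ) / 2) (he : e % 2 = 0) : ∃ m : ℤ, x = m := by
  obtain ⟨m, rfl⟩ : ∃ m, e = 2 * m := ⟨e / 2, by omega⟩
  exact ⟨m, by rw [h]; push_cast; ring⟩

theorem par_perm {a : ℝ} {s : Fin 5 → ℤ} {p p' : Fin 5 → Bool} (h : Par a s p)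
    (f : Fin 5 → Fin 5) (hf : ∀ j, (p (f j) ^^ p (f 0)) = p' j) :
    Par a (fun j => s (f j)) p' := by
  intro j
  obtain ⟨m, hm⟩ := h (f j)
  obtain ⟨m', hm'⟩ := h (f 0)
  rw [← hf j]
  push_cast at hm hm' ⊢
  cases h1 : p (f j) <;> cases h2 : p (f 0) <;>
    simp only [h1, h2, Bool.false_eq_true, if_false, if_true, Bool.xor_false, Bool.xor_true,
      Bool.not_false, Bool.not_true] at hm hm' ⊢
  · exact ⟨m - m', by push_cast; linarith⟩
  · exact ⟨m - m' - 1, by push_cast; linarith⟩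
  · exact ⟨m - m', by push_cast; linarith⟩
  · exact ⟨m - m', by push_cast; linarith⟩

def Goal (s : Fin 5 → ℤ) : Prop :=
  VStr s lam6 ∨ ∃ σ : Equiv.Perm (Fin 5), VEx (fun j => s (σ j))

theorem Goal.perm (hp : St_VPERM) {s : Fin 5 → ℤ} (f : Fin 5 → Fin 5)
    (hf : Function.Injective f) (h : Goal fun j => s (f j)) : Goal s := by
  let τ : Equiv.Perm (Fin 5) := Equiv.ofBijective f (Finite.injective_iff_bijective.1 hf)
  rcases h with h | ⟨σ, h⟩
  · exact Or.inl (hp s lam6 τ h)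
  · exact Or.inr ⟨σ.trans τ, h⟩

/-- `f` is a permutation that keeps the pattern `p` -/
def Ok (p : Fin 5 → Bool) (f : Fin 5 → Fin 5) : Prop :=
  Function.Injective f ∧ ∀ j, (p (f j) ^^ p (f 0)) = p j

instance (p : Fin 5 → Bool) (f : Fin 5 → Fin 5) : Decidable (Ok p f) := by
  unfold Ok; infer_instance

def okb (i j k l : Fin 5) : Bool :=
  i != j && i != k && i != l && j != k && j != l && k != l && i != 4 && j != 4 && k != 4 && l != 4

theorem okb_spec : ∀ i j k l : Fin 5, okb i j k l = true → Ok p41 ![i, j, k, l, 4] := by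
  decide +kernel

theorem dot3 (a b c : ℤ) (v : ℕ → ℤ) : dot [a, b, c] v = a * v 0 + b * v 1 + c * v 2 := by
  simp only [dot_cons, dot_nil, Int.cast_id]
  ring

/-- the state with one multiplier -/
def S0 (x : List ℤ) : St := ⟨4, chH, [[[], [], x, [1800]]]⟩

def bOf (s : Fin 5 → ℤ) (k : ℕ) : ℤ := [s 1 - s 0, s 2 - s 0, s 3 - s 0, s 4 - s 0].getD k 0

theorem data (s : Fin 5 → ℤ) (a : ℝ) (x : List ℤ) (c : Bool)
    (hx : ev 3600 (fun _ => 0) x = if c then 1 / 2 else 0)
    (h : Par a s ![false, false, false, c, true]) :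
    (S0 x).Data 3600 s (s 0) (bOf s) (fun c => if c = 0 then a else 0) fun _ => 0 := by
  refine ⟨fun k hk => ?_, fun j => ?_, fun c k => ?_⟩
  · exact List.getD_eq_default _ _ hk
  · fin_cases j <;> simp [S0, St.pt, chH, bOf]
  · rcases c with _ | c
    · have e0 : ev 3600 (fun _ => 0) [] = 0 := rfl
      have eh : ev 3600 (fun _ => 0) [1800] = 1 / 2 := by simp only [ev, dot_nil]; norm_num
      rcases k with _ | _ | _ | _ | k
      · simpa [S0, St.row, bOf, e0] using h 1
      · simpa [S0, St.row, bOf, e0] using h 2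
      · simpa [S0, St.row, bOf, hx] using h 3
      · simpa [S0, St.row, bOf, eh] using h 4
      · exact ⟨0, by simp [S0, St.row, bOf, e0]⟩
    · exact ⟨0, by simp [S0, St.row, ev]⟩

theorem cov41 (s : Fin 5 → ℤ) (a : ℝ) (h : Par a s p41) : VStr s lam6 ∨
    ∃ v : ℕ → ℤ, v 0 = s 1 - s 0 ∧ v 1 = s 2 - s 0 ∧ v 2 = s 3 - s 0 ∧
      ∃ e ∈ CV.V41a.El, ∀ r ∈ e, dot r v = 0 := by
  rcases CV.V41a.covE (fun i => dot ((vForms (S0 []) true [0, 1, 2, 3, 4]).getD i []) (bOf s))
    with hh | hh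
  · exact Or.inl (stVALL stVPAR 3600 _ (S0 []) 0 true [0, 1, 2, 3, 4] s _ _ _ _ (by decide)
      (data s a [] false (by simp [ev]) h) hh)
  · refine Or.inr ⟨_, ?_, ?_, ?_, hh⟩ <;>
      simp [vForms, ptDiff, S0, St.pt, chH, ladd, lsmul, bOf]

theorem cov32 (s : Fin 5 → ℤ) (a : ℝ) (h : Par a s p32) : VStr s lam6 ∨
    ∃ v : ℕ → ℤ, v 0 = s 1 - s 0 ∧ v 1 = s 2 - s 0 ∧ v 2 = s 4 - s 3 ∧
      ∃ e ∈ CV.V32a.El, ∀ r ∈ e, dot r v = 0 := by
  rcases CV.V32a.covE
    (fun i => dot ((vForms (S0 [1800]) false [0, 1, 2, 3, 4]).getD i []) (bOf s)) with hh | hh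
  · exact Or.inl (stVALL stVPAR 3600 _ (S0 [1800]) 0 false [0, 1, 2, 3, 4] s _ _ _ _ (by decide)
      (data s a [1800] true (by simp only [ev, dot_nil]; norm_num) h) hh)
  · refine Or.inr ⟨_, ?_, ?_, ?_, hh⟩ <;>
      simp [vForms, ptDiff, S0, St.pt, chH, ladd, lsmul, bOf]

theorem lin0 (h2 : St_VLIN) {s : Fin 5 → ℤ} {a : ℝ} (hs : Function.Injective s)
    (hpar : Par a s p41) {p q r : ℤ} (hp : p = s 1 - s 0) (hq : q = s 2 - s 0)
    (hr : r = s 3 - s 0)
    (h : (q = 6 * p ∧ r = 8 * p) ∨ (p = 3 * (2 * p - q) ∧ r = 11 * (2 * p - q)) ∨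
      (p = 5 * (q - p) ∧ r = 22 * (q - p)) ∨ (q = 4 * p ∧ r = 6 * p)) : Goal s := by
  have h0 : s 1 ≠ s 0 := fun h => absurd (hs h) (by decide)
  rcases h with h | h | h | h
  · exact Or.inl (h2 s a p (by omega) hpar (Or.inl (by omega)))
  · exact Or.inl (h2 s a (2 * p - q) (by omega) hpar (Or.inr (Or.inl (by omega))))
  · exact Or.inl (h2 s a (q - p) (by omega) hpar (Or.inr (Or.inr (by omega))))
  · exact Or.inr ⟨1, a, p, Or.inl ⟨hpar, by simp only [Equiv.Perm.coe_one, id]; omega⟩⟩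

theorem v22 (h1 : St_V22) (hp : St_VPERM) {s : Fin 5 → ℤ} {a a2 : ℝ} (hs : Function.Injective s)
    (hpar : Par a s p41) (i j k : Fin 5) (hf : Ok p41 ![0, i, j, k, 4])
    (e1 : ∃ m : ℤ, a2 * ((s i - s 0 : ℤ) : ℝ) = m)
    (e2 : ∃ m : ℤ, a2 * ((s j - s 0 : ℤ) : ℝ) = 1 / 2 + m)
    (e3 : ∃ m : ℤ, a2 * ((s k - s 0 : ℤ) : ℝ) = 1 / 2 + m) : Goal s :=
  Goal.perm hp _ hf.1 (Or.inl (h1 _ a a2 (hs.comp hf.1) (par_perm hpar _ hf.2) e1 e2 e3))

theorem cen (h1 : St_V22) (hp : St_VPERM) {s : Fin 5 → ℤ} {a : ℝ} (hs : Function.Injective s)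
    (hpar : Par a s p41) {x y z : ℤ} (hx : x % 2 = 1) (hy : y % 2 = 1) (hz : z % 2 = 1)
    (h : x * (s 1 - s 0) + y * (s 2 - s 0) + z * (s 3 - s 0) = 0) : Goal s := by
  have h0 : s 1 ≠ s 0 := fun h => absurd (hs h) (by decide)
  obtain ⟨a2, e, ⟨j, hj⟩, he⟩ := two_adic ![s 1 - s 0, s 2 - s 0, s 3 - s 0] 0 (sub_ne_zero.2 h0)
  have q0 : a2 * ((s 1 - s 0 : ℤ) : ℝ) = (e 0 : ℝ) / 2 := he 0
  have q1 : a2 * ((s 2 - s 0 : ℤ) : ℝ) = (e 1 : ℝ) / 2 := he 1
  have q2 : a2 * ((s 3 - s 0 : ℤ) : ℝ) = (e 2 : ℝ) / 2 := he 2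
  have hr : x * e 0 + y * e 1 + z * e 2 = 0 := by
    have h' := congrArg (fun u : ℤ => (u : ℝ)) h
    simp only [Int.cast_add, Int.cast_mul, Int.cast_zero] at h'
    have : ((x * e 0 + y * e 1 + z * e 2 : ℤ) : ℝ) = 0 := by
      simp only [Int.cast_add, Int.cast_mul]
      linear_combination 2 * a2 * h' - 2 * x * q0 - 2 * y * q1 - 2 * z * q2
    exact_mod_cast this
  have hpar2 : (e 0 + e 1 + e 2) % 2 = 0 := by
    obtain ⟨x', rfl⟩ : ∃ m, x = 2 * m + 1 := ⟨x / 2, by omega⟩
    obtain ⟨y', rfl⟩ : ∃ m, y = 2 * m + 1 := ⟨y / 2, by omega⟩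
    obtain ⟨z', rfl⟩ : ∃ m, z = 2 * m + 1 := ⟨z / 2, by omega⟩
    have : e 0 + e 1 + e 2 = 2 * -(x' * e 0 + y' * e 1 + z' * e 2) := by linear_combination hr
    omega
  have hj' : e 0 % 2 = 1 ∨ e 1 % 2 = 1 ∨ e 2 % 2 = 1 := by
    fin_cases j
    · exact Or.inl hj
    · exact Or.inr (Or.inl hj)
    · exact Or.inr (Or.inr hj)
  rcases Int.emod_two_eq_zero_or_one (e 0) with p0 | p0
  · exact v22 h1 hp hs hpar 1 2 3 (by decide) (half_even q0 p0) (half_odd q1 (by omega))
      (half_odd q2 (by omega))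
  · rcases Int.emod_two_eq_zero_or_one (e 1) with p1 | p1
    · exact v22 h1 hp hs hpar 2 1 3 (by decide) (half_even q1 p1) (half_odd q0 p0)
        (half_odd q2 (by omega))
    · exact v22 h1 hp hs hpar 3 1 2 (by decide) (half_even q2 (by omega)) (half_odd q0 p0)
        (half_odd q1 p1)

theorem main41 (h1 : St_V22) (h2 : St_VLIN) (hp : St_VPERM) {s : Fin 5 → ℤ} {a : ℝ}
    (hs : Function.Injective s) (hpar : Par a s p41) : Goal s := by
  rcases cov41 s a hpar with h | ⟨v, v0, v1, v2, e, he, h⟩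
  · exact Or.inl h
  have n10 : s 1 ≠ s 0 := fun h => absurd (hs h) (by decide)
  have n20 : s 2 ≠ s 0 := fun h => absurd (hs h) (by decide)
  have n30 : s 3 ≠ s 0 := fun h => absurd (hs h) (by decide)
  have n21 : s 2 ≠ s 1 := fun h => absurd (hs h) (by decide)
  have n31 : s 3 ≠ s 1 := fun h => absurd (hs h) (by decide)
  have n32 : s 3 ≠ s 2 := fun h => absurd (hs h) (by decide)
  have one : ∀ {x y z : ℤ}, (∀ r ∈ [[x, y, z]], dot r v = 0) →
      x * (s 1 - s 0) + y * (s 2 - s 0) + z * (s 3 - s 0) = 0 := fun h => by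
    rw [← v0, ← v1, ← v2, ← dot3]
    exact h _ List.mem_cons_self
  have two : ∀ {x y z x' y' z' : ℤ}, (∀ r ∈ [[x, y, z], [x', y', z']], dot r v = 0) →
      x * (s 1 - s 0) + y * (s 2 - s 0) + z * (s 3 - s 0) = 0 ∧
      x' * (s 1 - s 0) + y' * (s 2 - s 0) + z' * (s 3 - s 0) = 0 := fun h => by
    rw [← v0, ← v1, ← v2, ← dot3, ← dot3]
    exact ⟨h _ List.mem_cons_self, h _ (List.mem_cons_of_mem _ List.mem_cons_self)⟩
  have L : ∀ i j k l : Fin 5, okb i j k l = true →
      ((s k - s i = 6 * (s j - s i) ∧ s l - s i = 8 * (s j - s i)) ∨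
      (s j - s i = 3 * (2 * (s j - s i) - (s k - s i)) ∧
        s l - s i = 11 * (2 * (s j - s i) - (s k - s i))) ∨
      (s j - s i = 5 * ((s k - s i) - (s j - s i)) ∧
        s l - s i = 22 * ((s k - s i) - (s j - s i))) ∨
      (s k - s i = 4 * (s j - s i) ∧ s l - s i = 6 * (s j - s i))) → Goal s :=
    fun i j k l hb hh => Goal.perm hp _ (okb_spec i j k l hb).1
      (lin0 h2 (hs.comp (okb_spec i j k l hb).1) (par_perm hpar _ (okb_spec i j k l hb).2)
        rfl rfl rfl hh)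
  simp only [CV.V41a.El, List.mem_cons, List.not_mem_nil, or_false] at he
  rcases he with rfl | rfl | rfl | rfl | rfl | rfl | rfl | rfl | rfl | rfl | rfl | rfl | rfl | rfl |
    rfl | rfl | rfl | rfl | rfl | rfl | rfl | rfl | rfl | rfl | rfl | rfl | rfl | rfl |
    rfl | rfl | rfl | rfl | rfl | rfl | rfl | rfl | rfl | rfl | rfl | rfl | rfl | rfl |
    rfl | rfl | rfl | rfl | rfl | rfl | rfl | rfl | rfl | rfl | rfl | rfl | rfl | rfl |
    rfl | rfl | rfl | rfl | rfl | rfl | rfl | rfl | rfl | rfl | rfl | rfl | rfl | rfl |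
    rfl | rfl | rfl | rfl | rfl | rfl | rfl | rfl | rfl | rfl | rfl | rfl | rfl | rfl |
    rfl | rfl | rfl | rfl | rfl | rfl | rfl | rfl | rfl | rfl | rfl | rfl | rfl | rfl |
    rfl | rfl | rfl | rfl | rfl | rfl | rfl | rfl
  · exact absurd (one h) (by omega)
  · exact absurd (one h) (by omega)
  · exact absurd (one h) (by omega)
  · exact absurd (one h) (by omega)
  · exact absurd (one h) (by omega)
  · exact absurd (one h) (by omega)
  · exact cen h1 hp hs hpar (by decide) (by decide) (by decide) (one h)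
  · exact cen h1 hp hs hpar (by decide) (by decide) (by decide) (one h)
  · exact cen h1 hp hs hpar (by decide) (by decide) (by decide) (one h)
  · exact cen h1 hp hs hpar (by decide) (by decide) (by decide) (one h)
  all_goals clear n10 n20 n30 n21 n31 n32 v0 v1 v2 one
  · exact L 1 0 3 2 rfl (.inr (.inr (.inr (by have := two h; omega))))
  · exact L 1 0 2 3 rfl (.inr (.inr (.inr (by have := two h; omega))))
  · exact L 2 3 0 1 rfl (.inr (.inr (.inr (by have := two h; omega))))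
  · exact L 3 2 0 1 rfl (.inr (.inr (.inr (by have := two h; omega))))
  · exact L 3 1 0 2 rfl (.inr (.inr (.inr (by have := two h; omega))))
  · exact L 2 0 1 3 rfl (.inr (.inr (.inr (by have := two h; omega))))
  · exact L 2 1 0 3 rfl (.inr (.inr (.inr (by have := two h; omega))))
  · exact L 3 0 1 2 rfl (.inr (.inr (.inr (by have := two h; omega))))
  · exact L 1 3 0 2 rfl (.inr (.inr (.inr (by have := two h; omega))))
  · exact L 1 2 0 3 rfl (.inr (.inr (.inr (by have := two h; omega))))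
  · exact L 2 0 3 1 rfl (.inr (.inr (.inr (by have := two h; omega))))
  · exact L 3 0 2 1 rfl (.inr (.inr (.inr (by have := two h; omega))))
  · exact L 0 1 2 3 rfl (.inr (.inr (.inr (by have := two h; omega))))
  · exact L 0 1 3 2 rfl (.inr (.inr (.inr (by have := two h; omega))))
  · exact L 0 2 1 3 rfl (.inr (.inr (.inr (by have := two h; omega))))
  · exact L 0 3 1 2 rfl (.inr (.inr (.inr (by have := two h; omega))))
  · exact L 0 2 3 1 rfl (.inr (.inr (.inr (by have := two h; omega))))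
  · exact L 0 3 2 1 rfl (.inr (.inr (.inr (by have := two h; omega))))
  · exact L 1 0 3 2 rfl (.inl (by have := two h; omega))
  · exact L 1 0 2 3 rfl (.inl (by have := two h; omega))
  · exact L 2 3 0 1 rfl (.inl (by have := two h; omega))
  · exact L 3 1 0 2 rfl (.inr (.inl (by have := two h; omega)))
  · exact L 3 2 0 1 rfl (.inl (by have := two h; omega))
  · exact L 2 0 1 3 rfl (.inr (.inl (by have := two h; omega)))
  · exact L 2 1 0 3 rfl (.inr (.inl (by have := two h; omega)))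
  · exact L 3 2 1 0 rfl (.inr (.inr (.inr (by have := two h; omega))))
  · exact L 2 3 1 0 rfl (.inr (.inr (.inr (by have := two h; omega))))
  · exact L 3 0 1 2 rfl (.inr (.inl (by have := two h; omega)))
  · exact L 1 0 3 2 rfl (.inr (.inl (by have := two h; omega)))
  · exact L 1 0 2 3 rfl (.inr (.inl (by have := two h; omega)))
  · exact L 1 3 0 2 rfl (.inr (.inl (by have := two h; omega)))
  · exact L 3 1 0 2 rfl (.inl (by have := two h; omega))
  · exact L 2 0 1 3 rfl (.inl (by have := two h; omega))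
  · exact L 1 2 0 3 rfl (.inr (.inl (by have := two h; omega)))
  · exact L 3 1 2 0 rfl (.inr (.inr (.inr (by have := two h; omega))))
  · exact L 2 1 0 3 rfl (.inl (by have := two h; omega))
  · exact L 2 1 3 0 rfl (.inr (.inr (.inr (by have := two h; omega))))
  · exact L 3 0 1 2 rfl (.inl (by have := two h; omega))
  · exact L 2 3 0 1 rfl (.inr (.inl (by have := two h; omega)))
  · exact L 3 2 0 1 rfl (.inr (.inl (by have := two h; omega)))
  · exact L 1 3 0 2 rfl (.inl (by have := two h; omega))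
  · exact L 1 3 2 0 rfl (.inr (.inr (.inr (by have := two h; omega))))
  · exact L 1 2 0 3 rfl (.inl (by have := two h; omega))
  · exact L 1 2 3 0 rfl (.inr (.inr (.inr (by have := two h; omega))))
  · exact L 2 0 3 1 rfl (.inl (by have := two h; omega))
  · exact L 3 0 2 1 rfl (.inl (by have := two h; omega))
  · exact L 2 0 3 1 rfl (.inr (.inl (by have := two h; omega)))
  · exact L 3 0 2 1 rfl (.inr (.inl (by have := two h; omega)))
  · exact L 0 1 2 3 rfl (.inl (by have := two h; omega))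
  · exact L 0 1 3 2 rfl (.inl (by have := two h; omega))
  · exact L 0 2 1 3 rfl (.inl (by have := two h; omega))
  · exact L 0 3 1 2 rfl (.inl (by have := two h; omega))
  · exact L 0 2 3 1 rfl (.inl (by have := two h; omega))
  · exact L 0 3 2 1 rfl (.inl (by have := two h; omega))
  · exact L 3 2 1 0 rfl (.inl (by have := two h; omega))
  · exact L 2 3 1 0 rfl (.inl (by have := two h; omega))
  · exact L 3 1 2 0 rfl (.inl (by have := two h; omega))
  · exact L 2 1 3 0 rfl (.inl (by have := two h; omega))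
  · exact L 1 3 2 0 rfl (.inl (by have := two h; omega))
  · exact L 1 2 3 0 rfl (.inl (by have := two h; omega))
  · exact L 0 1 2 3 rfl (.inr (.inl (by have := two h; omega)))
  · exact L 0 1 3 2 rfl (.inr (.inl (by have := two h; omega)))
  · exact L 0 2 1 3 rfl (.inr (.inl (by have := two h; omega)))
  · exact L 0 3 1 2 rfl (.inr (.inl (by have := two h; omega)))
  · exact L 0 2 3 1 rfl (.inr (.inl (by have := two h; omega)))
  · exact L 0 3 2 1 rfl (.inr (.inl (by have := two h; omega)))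
  · exact L 3 1 0 2 rfl (.inr (.inr (.inl (by have := two h; omega))))
  · exact L 2 0 1 3 rfl (.inr (.inr (.inl (by have := two h; omega))))
  · exact L 2 1 0 3 rfl (.inr (.inr (.inl (by have := two h; omega))))
  · exact L 3 0 1 2 rfl (.inr (.inr (.inl (by have := two h; omega))))
  · exact L 1 0 3 2 rfl (.inr (.inr (.inl (by have := two h; omega))))
  · exact L 1 0 2 3 rfl (.inr (.inr (.inl (by have := two h; omega))))
  · exact L 1 3 0 2 rfl (.inr (.inr (.inl (by have := two h; omega))))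
  · exact L 1 2 0 3 rfl (.inr (.inr (.inl (by have := two h; omega))))
  · exact L 2 3 0 1 rfl (.inr (.inr (.inl (by have := two h; omega))))
  · exact L 3 2 0 1 rfl (.inr (.inr (.inl (by have := two h; omega))))
  · exact L 2 0 3 1 rfl (.inr (.inr (.inl (by have := two h; omega))))
  · exact L 3 0 2 1 rfl (.inr (.inr (.inl (by have := two h; omega))))
  · exact L 3 2 1 0 rfl (.inr (.inl (by have := two h; omega)))
  · exact L 2 3 1 0 rfl (.inr (.inl (by have := two h; omega)))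
  · exact L 3 1 2 0 rfl (.inr (.inl (by have := two h; omega)))
  · exact L 2 1 3 0 rfl (.inr (.inl (by have := two h; omega)))
  · exact L 1 3 2 0 rfl (.inr (.inl (by have := two h; omega)))
  · exact L 1 2 3 0 rfl (.inr (.inl (by have := two h; omega)))
  · exact L 0 1 2 3 rfl (.inr (.inr (.inl (by have := two h; omega))))
  · exact L 0 1 3 2 rfl (.inr (.inr (.inl (by have := two h; omega))))
  · exact L 0 2 1 3 rfl (.inr (.inr (.inl (by have := two h; omega))))
  · exact L 0 3 1 2 rfl (.inr (.inr (.inl (by have := two h; omega))))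
  · exact L 0 2 3 1 rfl (.inr (.inr (.inl (by have := two h; omega))))
  · exact L 0 3 2 1 rfl (.inr (.inr (.inl (by have := two h; omega))))
  · exact L 3 2 1 0 rfl (.inr (.inr (.inl (by have := two h; omega))))
  · exact L 2 3 1 0 rfl (.inr (.inr (.inl (by have := two h; omega))))
  · exact L 3 1 2 0 rfl (.inr (.inr (.inl (by have := two h; omega))))
  · exact L 2 1 3 0 rfl (.inr (.inr (.inl (by have := two h; omega))))
  · exact L 1 3 2 0 rfl (.inr (.inr (.inl (by have := two h; omega))))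
  · exact L 1 2 3 0 rfl (.inr (.inr (.inl (by have := two h; omega))))

theorem pl0 (h3 : St_VPL) (hp : St_VPERM) {s : Fin 5 → ℤ} {a : ℝ} (hs : Function.Injective s)
    (hpar : Par a s p32) (h : s 4 - s 3 = s 1 + s 2 - 2 * s 0) : Goal s := by
  rcases h3 s a hs hpar h with hv | ⟨g, k, ⟨e1, e2⟩ | ⟨e1, e2⟩⟩
  · exact Or.inl hv
  · refine Or.inr ⟨1, a, g, Or.inr ⟨hpar, k, e1, e2, ?_⟩⟩
    simp only [Equiv.Perm.coe_one, id]
    linear_combination h + e1 + e2
  · have hf : Ok p32 ![0, 2, 1, 3, 4] := by decide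
    refine Goal.perm hp _ hf.1
      (Or.inr ⟨1, a, g, Or.inr ⟨par_perm hpar _ hf.2, k, e1, e2, ?_⟩⟩)
    change s 4 - s 3 = _
    linear_combination h + e1 + e2

theorem main32 (h3 : St_VPL) (hp : St_VPERM) {s : Fin 5 → ℤ} {a : ℝ}
    (hs : Function.Injective s) (hpar : Par a s p32) : Goal s := by
  rcases cov32 s a hpar with h | ⟨v, v0, v1, v2, e, he, h⟩
  · exact Or.inl h
  have n10 : s 1 ≠ s 0 := fun h => absurd (hs h) (by decide)
  have n20 : s 2 ≠ s 0 := fun h => absurd (hs h) (by decide)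
  have n21 : s 2 ≠ s 1 := fun h => absurd (hs h) (by decide)
  have n43 : s 4 ≠ s 3 := fun h => absurd (hs h) (by decide)
  have one : ∀ {x y z : ℤ}, (∀ r ∈ [[x, y, z]], dot r v = 0) →
      x * (s 1 - s 0) + y * (s 2 - s 0) + z * (s 4 - s 3) = 0 := fun h => by
    rw [← v0, ← v1, ← v2, ← dot3]
    exact h _ List.mem_cons_self
  have L : ∀ i j k l m : Fin 5, Ok p32 ![i, j, k, l, m] → s m - s l = s j + s k - 2 * s i →
      Goal s := fun i j k l m hf hh => Goal.perm hp _ hf.1
        (pl0 h3 hp (hs.comp hf.1) (par_perm hpar _ hf.2) hh)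
  simp only [CV.V32a.El, List.mem_cons, List.not_mem_nil, or_false] at he
  rcases he with rfl | rfl | rfl | rfl | rfl | rfl | rfl | rfl | rfl | rfl
  · exact absurd (one h) (by omega)
  · exact absurd (one h) (by omega)
  · exact absurd (one h) (by omega)
  · exact absurd (one h) (by omega)
  · exact L 0 1 2 3 4 (by decide) (by have := one h; omega)
  · exact L 0 1 2 4 3 (by decide) (by have := one h; omega)
  · exact L 2 0 1 3 4 (by decide) (by have := one h; omega)
  · exact L 2 0 1 4 3 (by decide) (by have := one h; omega)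
  · exact L 1 0 2 4 3 (by decide) (by have := one h; omega)
  · exact L 1 0 2 3 4 (by decide) (by have := one h; omega)

theorem sort : ∀ c : Fin 5 → Bool, c 0 = false → (∃ j, c j = true) → ∃ i j k l : Fin 5,
    (∀ x, (c ((Equiv.swap i j * Equiv.swap k l) x) ^^ c ((Equiv.swap i j * Equiv.swap k l) 0)) =
      p41 x) ∨
    ∀ x, (c ((Equiv.swap i j * Equiv.swap k l) x) ^^ c ((Equiv.swap i j * Equiv.swap k l) 0)) =
      p32 x := by decide +kernel

end V6

open V6 in
theorem stV6 (h1 : St_V22) (h2 : St_VLIN) (h3 : St_VPL) (hp : St_VPERM) : St_V6 := by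
  intro t ht
  have h0 : t 1 ≠ t 0 := fun h => absurd (ht h) (by decide)
  obtain ⟨a, e, ⟨j, hj⟩, he⟩ := two_adic (fun j => t j - t 0) 1 (sub_ne_zero.2 h0)
  have hpar : Par a t fun j => decide (e j % 2 = 1) := fun j => by
    rcases Int.emod_two_eq_zero_or_one (e j) with p | p
    · simpa [p] using half_even (he j) p
    · simpa [p] using half_odd (he j) p
  have e0 : e 0 = 0 := by
    have := he 0
    simp only [sub_self, Int.cast_zero, mul_zero] at this
    exact_mod_cast (by linarith : (e 0 : ℝ) = 0)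
  obtain ⟨i, j, k, l, h | h⟩ := sort (fun j => decide (e j % 2 = 1)) (by simp [e0])
    ⟨j, by simp [hj]⟩
  · exact Goal.perm hp _ (Equiv.injective _)
      (main41 h1 h2 hp (ht.comp (Equiv.injective _)) (par_perm hpar _ h))
  · exact Goal.perm hp _ (Equiv.injective _)
      (main32 h3 hp (ht.comp (Equiv.injective _)) (par_perm hpar _ h))

end Pool.Agent.Lib.B5
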