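import Pool.Agent.Lib.B5.M60
import Pool.Agent.Lib.B5.ColA
import Pool.Agent.Lib.B5.DEC
import Pool.Agent.Lib.B5.V6
import Pool.Agent.Lib.B5.V22
import Pool.Agent.Lib.B5.VPL
import Pool.Agent.Lib.B5.VCOL
import Pool.Agent.Lib.B5.GAME

/-! Every five-point set has a six-colouring of its row coverings, or is covered, or lies in one
of two thin families; the residue type 3-1-1 without midpoint. -/

set_option autoImplicit false

namespace Pool.Agent.Lib.B5

/-- the two families that remain -/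
def VRes (s : Fin 5 → ℤ) : Prop :=
  (∃ (a : ℝ) (g : ℤ), Par a s p41 ∧ (5 : ℤ) ∣ g ∧ s 1 - s 0 = g ∧ s 2 - s 0 = 4 * g ∧
    s 3 - s 0 = 6 * g) ∨
  ∃ h x y : ℤ, x % 60 = 26 ∧ y % 30 = 5 ∧ s 1 - s 0 = h * 4 ∧ s 2 - s 0 = h * x ∧
    s 3 - s 0 = h * y ∧ s 4 - s 0 = h * (x + y + 4)

def dis5 (i j k l m : Fin 5) : Bool :=
  i != j && i != k && i != l && i != m && j != k && j != l && j != m && k != l && k != m && l != m

theorem dis5_perm (σ : Equiv.Perm (Fin 5)) : dis5 (σ 0) (σ 1) (σ 2) (σ 3) (σ 4) = true := by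
  simp [dis5]

theorem colRes (t : Fin 5 → ℤ) (ht : Function.Injective t) (r : Fin 5 → ℤ)
    (hr : ∀ j, (5 : ℤ) ∣ t j - t 0 - r j)
    (h3 : ∀ i j k : Fin 5, i ≠ j → i ≠ k → j ≠ k → ¬ ((r i - r j) % 5 = 0 ∧ (r i - r k) % 5 = 0))
    (hm : ∀ i j k l m : Fin 5, dis5 i j k l m = true →
      ¬ ((r j - r k) % 5 = 0 ∧ (r l - r m) % 5 = 0 ∧ (r j + r l - 2 * r i) % 5 = 0)) :
    Cov (fun j => (t j, 0)) := by
  refine colA t ht (fun i j k a b c h => h3 i j k a b c ?_) (fun σ h => hm (σ 0) (σ 1) (σ 2) (σ 3)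
    (σ 4) (dis5_perm σ) ?_)
  · have e1 := (Int.modEq_iff_dvd).1 h.1
    have e2 := (Int.modEq_iff_dvd).1 h.2
    have := hr i; have := hr j; have := hr k
    constructor <;> omega
  · have e1 := (Int.modEq_iff_dvd).1 h.1
    have e2 := (Int.modEq_iff_dvd).1 h.2.1
    have e3 := (Int.modEq_iff_dvd).1 h.2.2
    have := hr (σ 0); have := hr (σ 1); have := hr (σ 2); have := hr (σ 3); have := hr (σ 4)
    refine ⟨?_, ?_, ?_⟩ <;> omega

theorem hol26 (t : Fin 5 → ℤ) (ht : Function.Injective t) (f : Fin 5 → Fin 5)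
    (hf : Function.Bijective f)
    (h : ∀ j, (60 : ℤ) ∣ t (f j) - (![26, 11, 41, 0, 4] : Fin 5 → ℤ) j) :
    Cov (fun j => (t j, 0)) := by
  refine stPERM (fun j => (t j, 0)) (Equiv.ofBijective f hf) ?_
  refine stDEC6 (fun j => t (f j)) (stS311 _ 4 (ht.comp hf.1) (by norm_num) fun j => ?_)
    (stHOL60 _ h)
  have h0 := h 0
  have h1 := h j
  fin_cases j <;> simp at h0 h1 ⊢ <;> omega

theorem e4one (x y : ℤ) (hx : x % 12 = 2) (hy : y % 6 = 5)
    (hi : Function.Injective (![0, 4, x, y, x + y + 4] : Fin 5 → ℤ)) :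
    Cov (fun j => ((![0, 4, x, y, x + y + 4] : Fin 5 → ℤ) j, 0)) ∨
      (x % 60 = 26 ∧ y % 30 = 5) := by
  have h1 : x % 60 = 2 ∨ x % 60 = 14 ∨ x % 60 = 26 ∨ x % 60 = 38 ∨ x % 60 = 50 := by omega
  have h2 : y % 60 = 5 ∨ y % 60 = 11 ∨ y % 60 = 17 ∨ y % 60 = 23 ∨ y % 60 = 29 ∨ y % 60 = 35 ∨
      y % 60 = 41 ∨ y % 60 = 47 ∨ y % 60 = 53 ∨ y % 60 = 59 := by omega
  rcases h1 with h1 | h1 | h1 | h1 | h1 <;>
    rcases h2 with h2 | h2 | h2 | h2 | h2 | h2 | h2 | h2 | h2 | h2
  · exact .inl (colRes _ hi ![0, 4, 2, 0, 1] (fun j => by fin_cases j <;> simp <;> omega)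
      (by decide +kernel) (by decide +kernel))
  · exact .inl (colRes _ hi ![0, 4, 2, 1, 2] (fun j => by fin_cases j <;> simp <;> omega)
      (by decide +kernel) (by decide +kernel))
  · exact .inl (colRes _ hi ![0, 4, 2, 2, 3] (fun j => by fin_cases j <;> simp <;> omega)
      (by decide +kernel) (by decide +kernel))
  · exact .inl (colRes _ hi ![0, 4, 2, 3, 4] (fun j => by fin_cases j <;> simp <;> omega)
      (by decide +kernel) (by decide +kernel))
  · exact .inl (cov_mod 60 (by norm_num) 4 2 29 35 m60_2_29 _ hi (by simp) (by simp; omega)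
      (by simp; omega) (by simp; omega))
  · exact .inl (colRes _ hi ![0, 4, 2, 0, 1] (fun j => by fin_cases j <;> simp <;> omega)
      (by decide +kernel) (by decide +kernel))
  · exact .inl (colRes _ hi ![0, 4, 2, 1, 2] (fun j => by fin_cases j <;> simp <;> omega)
      (by decide +kernel) (by decide +kernel))
  · exact .inl (colRes _ hi ![0, 4, 2, 2, 3] (fun j => by fin_cases j <;> simp <;> omega)
      (by decide +kernel) (by decide +kernel))
  · exact .inl (colRes _ hi ![0, 4, 2, 3, 4] (fun j => by fin_cases j <;> simp <;> omega)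
      (by decide +kernel) (by decide +kernel))
  · exact .inl (cov_mod 60 (by norm_num) 4 2 59 65 m60_2_59 _ hi (by simp) (by simp; omega)
      (by simp; omega) (by simp; omega))
  · exact .inl (colRes _ hi ![0, 4, 4, 0, 3] (fun j => by fin_cases j <;> simp <;> omega)
      (by decide +kernel) (by decide +kernel))
  · exact .inl (cov_mod 60 (by norm_num) 4 14 11 29 m60_14_11 _ hi (by simp) (by simp; omega)
      (by simp; omega) (by simp; omega))
  · exact .inl (cov_mod 60 (by norm_num) 4 14 17 35 m60_14_17 _ hi (by simp) (by simp; omega)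
      (by simp; omega) (by simp; omega))
  · exact .inl (colRes _ hi ![0, 4, 4, 3, 1] (fun j => by fin_cases j <;> simp <;> omega)
      (by decide +kernel) (by decide +kernel))
  · exact .inl (cov_mod 60 (by norm_num) 4 14 29 47 m60_14_29 _ hi (by simp) (by simp; omega)
      (by simp; omega) (by simp; omega))
  · exact .inl (colRes _ hi ![0, 4, 4, 0, 3] (fun j => by fin_cases j <;> simp <;> omega)
      (by decide +kernel) (by decide +kernel))
  · exact .inl (cov_mod 60 (by norm_num) 4 14 41 59 m60_14_41 _ hi (by simp) (by simp; omega)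
      (by simp; omega) (by simp; omega))
  · exact .inl (cov_mod 60 (by norm_num) 4 14 47 65 m60_14_47 _ hi (by simp) (by simp; omega)
      (by simp; omega) (by simp; omega))
  · exact .inl (colRes _ hi ![0, 4, 4, 3, 1] (fun j => by fin_cases j <;> simp <;> omega)
      (by decide +kernel) (by decide +kernel))
  · exact .inl (cov_mod 60 (by norm_num) 4 14 59 77 m60_14_59 _ hi (by simp) (by simp; omega)
      (by simp; omega) (by simp; omega))
  · exact .inr ⟨by omega, by omega⟩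
  · exact .inl (hol26 _ hi ![2, 3, 4, 0, 1] (by decide) (fun j => by fin_cases j <;> simp <;> omega))
  · exact .inl (colRes _ hi ![0, 4, 1, 2, 2] (fun j => by fin_cases j <;> simp <;> omega)
      (by decide +kernel) (by decide +kernel))
  · exact .inl (colRes _ hi ![0, 4, 1, 3, 3] (fun j => by fin_cases j <;> simp <;> omega)
      (by decide +kernel) (by decide +kernel))
  · exact .inl (cov_mod 60 (by norm_num) 4 26 29 59 m60_26_29 _ hi (by simp) (by simp; omega)
      (by simp; omega) (by simp; omega))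
  · exact .inr ⟨by omega, by omega⟩
  · exact .inl (hol26 _ hi ![2, 4, 3, 0, 1] (by decide) (fun j => by fin_cases j <;> simp <;> omega))
  · exact .inl (colRes _ hi ![0, 4, 1, 2, 2] (fun j => by fin_cases j <;> simp <;> omega)
      (by decide +kernel) (by decide +kernel))
  · exact .inl (colRes _ hi ![0, 4, 1, 3, 3] (fun j => by fin_cases j <;> simp <;> omega)
      (by decide +kernel) (by decide +kernel))
  · exact .inl (cov_mod 60 (by norm_num) 4 26 59 89 m60_26_59 _ hi (by simp) (by simp; omega)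
      (by simp; omega) (by simp; omega))
  · exact .inl (colRes _ hi ![0, 4, 3, 0, 2] (fun j => by fin_cases j <;> simp <;> omega)
      (by decide +kernel) (by decide +kernel))
  · exact .inl (colRes _ hi ![0, 4, 3, 1, 3] (fun j => by fin_cases j <;> simp <;> omega)
      (by decide +kernel) (by decide +kernel))
  · exact .inl (colRes _ hi ![0, 4, 3, 2, 4] (fun j => by fin_cases j <;> simp <;> omega)
      (by decide +kernel) (by decide +kernel))
  · exact .inl (cov_mod 60 (by norm_num) 4 38 23 65 m60_38_23 _ hi (by simp) (by simp; omega)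
      (by simp; omega) (by simp; omega))
  · exact .inl (colRes _ hi ![0, 4, 3, 4, 1] (fun j => by fin_cases j <;> simp <;> omega)
      (by decide +kernel) (by decide +kernel))
  · exact .inl (colRes _ hi ![0, 4, 3, 0, 2] (fun j => by fin_cases j <;> simp <;> omega)
      (by decide +kernel) (by decide +kernel))
  · exact .inl (colRes _ hi ![0, 4, 3, 1, 3] (fun j => by fin_cases j <;> simp <;> omega)
      (by decide +kernel) (by decide +kernel))
  · exact .inl (colRes _ hi ![0, 4, 3, 2, 4] (fun j => by fin_cases j <;> simp <;> omega)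
      (by decide +kernel) (by decide +kernel))
  · exact .inl (cov_mod 60 (by norm_num) 4 38 53 95 m60_38_53 _ hi (by simp) (by simp; omega)
      (by simp; omega) (by simp; omega))
  · exact .inl (colRes _ hi ![0, 4, 3, 4, 1] (fun j => by fin_cases j <;> simp <;> omega)
      (by decide +kernel) (by decide +kernel))
  · exact .inl (cov_mod 60 (by norm_num) 4 50 5 59 m60_50_5 _ hi (by simp) (by simp; omega)
      (by simp; omega) (by simp; omega))
  · exact .inl (cov_mod 60 (by norm_num) 4 50 11 65 m60_50_11 _ hi (by simp) (by simp; omega)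
      (by simp; omega) (by simp; omega))
  · exact .inl (colRes _ hi ![0, 4, 0, 2, 1] (fun j => by fin_cases j <;> simp <;> omega)
      (by decide +kernel) (by decide +kernel))
  · exact .inl (colRes _ hi ![0, 4, 0, 3, 2] (fun j => by fin_cases j <;> simp <;> omega)
      (by decide +kernel) (by decide +kernel))
  · exact .inl (colRes _ hi ![0, 4, 0, 4, 3] (fun j => by fin_cases j <;> simp <;> omega)
      (by decide +kernel) (by decide +kernel))
  · exact .inl (cov_mod 60 (by norm_num) 4 50 35 89 m60_50_35 _ hi (by simp) (by simp; omega)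
      (by simp; omega) (by simp; omega))
  · exact .inl (cov_mod 60 (by norm_num) 4 50 41 95 m60_50_41 _ hi (by simp) (by simp; omega)
      (by simp; omega) (by simp; omega))
  · exact .inl (colRes _ hi ![0, 4, 0, 2, 1] (fun j => by fin_cases j <;> simp <;> omega)
      (by decide +kernel) (by decide +kernel))
  · exact .inl (colRes _ hi ![0, 4, 0, 3, 2] (fun j => by fin_cases j <;> simp <;> omega)
      (by decide +kernel) (by decide +kernel))
  · exact .inl (colRes _ hi ![0, 4, 0, 4, 3] (fun j => by fin_cases j <;> simp <;> omega)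
      (by decide +kernel) (by decide +kernel))

def sE3 (c : ℤ) : St :=
  ⟨2, [([], []), ([0, 1], []), ([0, 4], []), ([0, 6], []), ([1], [])], [[[4 * c], [4]], [[10], [0]]]⟩

theorem gE3a : Good 20 (sE3 1) :=
  goodTree 20 [] (.step 2 [false, true] 0 (.dead 1 0) (.cons (.leaf
    ⟨[(5, [(0, 1, 2)]), (2, [(1, 1, 1)]), (2, [(2, -1, -1)])], [(0, [[], [], []]),
      (1, [[], [10], [10, -1]]), (2, [[], [], [10]]), (3, [[], [10], [0, -1]])]⟩) .nil)) _
    (by simp) rfl (by decide +kernel)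

theorem gE3b : Good 20 (sE3 4) :=
  goodTree 20 [] (.step 2 [false, true] 0 (.dead 1 0) (.cons (.leaf
    ⟨[(5, [(0, 1, 2)]), (2, [(1, 1, 1)]), (2, [(2, -1, 1)])], [(0, [[], [], []]),
      (2, [[4], [10], [10, -1]]), (3, [[], [], [10]]), (1, [[4], [10], [0, -1]])]⟩) .nil)) _
    (by simp) rfl (by decide +kernel)

theorem holdsE3 (c : ℤ) (s : Fin 5 → ℤ) (a : ℝ) (g : ℤ) (hp : Par a s p41) (hg : ¬ (5 : ℤ) ∣ g)
    (h1 : s 1 - s 0 = g) (h2 : s 2 - s 0 = 4 * g) (h3 : s 3 - s 0 = 6 * g)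
    (h4 : (5 : ℤ) ∣ s 4 - s 0 - c * g) : (sE3 c).Holds 20 (fun j => (s j, 0)) := by
  have hf : (5 : ℤ) ∣ g ^ 4 - 1 := by
    have : g % 5 = 1 ∨ g % 5 = 2 ∨ g % 5 = 3 ∨ g % 5 = 4 := by omega
    rw [Int.dvd_iff_emod_eq_zero]
    rcases this with h | h | h | h <;> simp [Int.sub_emod, pow_succ, Int.mul_emod, h]
  obtain ⟨m0, e0⟩ := hf
  obtain ⟨m1, e1⟩ := h4
  obtain ⟨n1, f1⟩ := hp 1
  obtain ⟨n4, f4⟩ := hp 4
  have e0' : (g : ℝ) ^ 4 - 1 = 5 * m0 := by exact_mod_cast e0
  have e1' : ((s 4 - s 0 : ℤ) : ℝ) - c * g = 5 * m1 := by exact_mod_cast e1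
  rw [h1] at f1
  refine ⟨(s 0, 0), fun k => [s 4 - s 0, g].getD k 0,
    fun i => if i = 0 then (g : ℝ) ^ 3 / 5 else if i = 1 then a else 0, fun _ => 0, ?_, ?_, ?_⟩
  · intro k hk
    obtain ⟨k, rfl⟩ : ∃ i, k = i + 2 := ⟨k - 2, by simp only [sE3] at hk; omega⟩
    simp
  · intro j
    fin_cases j <;> simp [sE3, St.pt] <;> omega
  · intro i k
    match i, k with
    | 0, 0 =>
      refine ⟨c * m0 + g ^ 3 * m1, ?_⟩
      simp only [sE3, St.row, List.getD_cons_zero, ev, dot_nil, if_true]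
      push_cast at e1' ⊢
      linear_combination (c : ℝ) / 5 * e0' + (g : ℝ) ^ 3 / 5 * e1'
    | 0, 1 =>
      refine ⟨m0, ?_⟩
      simp only [sE3, St.row, List.getD_cons_zero, List.getD_cons_succ, ev, dot_nil, if_true]
      push_cast
      linear_combination (1 : ℝ) / 5 * e0'
    | 0, k + 2 => exact ⟨0, by simp [sE3, St.row, ev]⟩
    | 1, 0 =>
      refine ⟨n4, ?_⟩
      simp [p41] at f4
      simp [sE3, St.row, ev]
      linear_combination f4
    | 1, 1 =>
      refine ⟨n1, ?_⟩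
      simp [p41] at f1
      simp [sE3, St.row, ev, f1]
    | 1, k + 2 => exact ⟨0, by simp [sE3, St.row, ev]⟩
    | i + 2, k => exact ⟨0, by simp [sE3, St.row, ev]⟩

theorem e3cov (s : Fin 5 → ℤ) (hs : Function.Injective s) (a : ℝ) (g : ℤ) (hp : Par a s p41)
    (hg : ¬ (5 : ℤ) ∣ g) (h1 : s 1 - s 0 = g) (h2 : s 2 - s 0 = 4 * g) (h3 : s 3 - s 0 = 6 * g) :
    Cov (fun j => (s j, 0)) := by
  have key : ∃ c : ℤ, 0 ≤ c ∧ c < 5 ∧ (5 : ℤ) ∣ s 4 - s 0 - c * g := by
    generalize s 4 - s 0 = z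
    by_contra hc
    push Not at hc
    have := hc 0 (by norm_num) (by norm_num)
    have := hc 1 (by norm_num) (by norm_num)
    have := hc 2 (by norm_num) (by norm_num)
    have := hc 3 (by norm_num) (by norm_num)
    have := hc 4 (by norm_num) (by norm_num)
    have a1 : g % 5 = 1 ∨ g % 5 = 2 ∨ g % 5 = 3 ∨ g % 5 = 4 := by omega
    have a2 : z % 5 = 0 ∨ z % 5 = 1 ∨ z % 5 = 2 ∨ z % 5 = 3 ∨ z % 5 = 4 := by omega
    rcases a1 with a1 | a1 | a1 | a1 <;> rcases a2 with a2 | a2 | a2 | a2 | a2 <;> omega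
  obtain ⟨c, c0, c1, hc⟩ := key
  interval_cases c
  · refine cov_perm s (Equiv.ofBijective ![1, 3, 0, 4, 2] (by decide)) _ ok221n (-g) hs
      (by omega) fun j => ?_
    fin_cases j <;> simp <;> omega
  · exact gE3a _ (inj_h hs) (holdsE3 1 s a g hp hg h1 h2 h3 hc)
  · refine cov_perm s (Equiv.ofBijective ![1, 3, 0, 2, 4] (by decide)) _ ok2111 (-g) hs
      (by omega) fun j => ?_
    fin_cases j <;> simp <;> omega
  · refine cov_perm s (Equiv.ofBijective ![1, 3, 4, 0, 2] (by decide)) _ ok2111 (2 * g) hs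
      (by omega) fun j => ?_
    fin_cases j <;> simp <;> omega
  · exact gE3b _ (inj_h hs) (holdsE3 4 s a g hp hg h1 h2 h3 hc)

theorem vOr (hE : St_VE4) (t : Fin 5 → ℤ) (ht : Function.Injective t) :
    VStr t lam6 ∨ Cov (fun j => (t j, 0)) ∨ ∃ σ : Equiv.Perm (Fin 5), VRes (fun j => t (σ j)) := by
  rcases stV6 (stV22 stVCOL stVPERM) (stVLIN stVCOL) (stVPL stVCOL stVPERM) stVPERM t ht with
    h | ⟨σ, a, g, h | ⟨hp, k, h1, h2, h3⟩⟩
  · exact .inl h
  · by_cases hg : (5 : ℤ) ∣ g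
    · exact .inr (.inr ⟨σ, .inl ⟨a, g, h.1, hg, h.2⟩⟩)
    · exact .inr (.inl (stPERM (fun j => (t j, 0)) σ
        (e3cov _ (ht.comp σ.injective) a g h.1 hg h.2.1 h.2.2.1 h.2.2.2)))
  · have hs : Function.Injective fun j => t (σ j) := ht.comp σ.injective
    rcases hE _ a g k hs hp h1 h2 h3 with h | ⟨h, j, rfl, h4⟩
    · exact .inl (stVPERM t lam6 σ h)
    · have e : ∀ i, t (σ i) = t (σ 0) +
          (![0, 4, 12 * k + 2, 6 * j + 5, 12 * k + 2 + (6 * j + 5) + 4] : Fin 5 → ℤ) i * h := by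
        intro i
        fin_cases i
        · simp
        · simp; linear_combination h1
        · simp; linear_combination h2
        · simp; linear_combination h4
        · simp; linear_combination h3 + h4
      have h0 : h ≠ 0 := by
        rintro rfl
        have : σ 1 = σ 0 := ht (by rw [e 1]; simp)
        exact absurd (σ.injective this) (by decide)
      have hi : Function.Injective
          (![0, 4, 12 * k + 2, 6 * j + 5, 12 * k + 2 + (6 * j + 5) + 4] : Fin 5 → ℤ) := by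
        intro i i' e'
        exact hs (by simp only; rw [e i, e i', e'])
      rcases e4one _ _ (by omega) (by omega) hi with hc | hc
      · refine .inr (.inl (stPERM (fun j => (t j, 0)) σ ?_))
        have := stCOL _ (t (σ 0), 0) (h, 0) (by simp [h0]) hc
        convert this using 2 with i
        rw [e i]
        ext <;> simp
      · refine .inr (.inr ⟨σ, .inr ⟨h, 12 * k + 2, 6 * j + 5, hc.1, hc.2, ?_, ?_, ?_, ?_⟩⟩)
        · linear_combination h1
        · linear_combination h2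
        · linear_combination h4
        · linear_combination h3 + h4

theorem res_mod (s : Fin 5 → ℤ) (h : VRes s) :
    ((5 : ℤ) ∣ s 1 - s 0 ∧ (5 : ℤ) ∣ s 2 - s 0 ∧ (5 : ℤ) ∣ s 3 - s 0) ∨
    ((5 : ℤ) ∣ s 3 - s 0 ∧ (5 : ℤ) ∣ s 4 - s 0 ∧ (5 : ℤ) ∣ s 1 + s 2 - 2 * s 0) := by
  rcases h with ⟨a, g, -, hg, h1, h2, h3⟩ | ⟨h, x, y, hx, hy, h1, h2, h3, h4⟩
  · exact .inl ⟨by omega, by omega, by omega⟩
  · obtain ⟨p, rfl⟩ : ∃ p, x = 5 * p + 1 := ⟨x / 5, by omega⟩
    obtain ⟨q, rfl⟩ : ∃ q, y = 5 * q := ⟨y / 5, by omega⟩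
    exact .inr ⟨⟨h * q, by linear_combination h3⟩, ⟨h * (p + q + 1), by linear_combination h4⟩,
      ⟨h * (p + 1), by linear_combination h1 + h2⟩⟩

/-- a residue type with column structure for six colours, not met by the two families -/
theorem typeOK_of_H (hE : St_VE4) (f : Fin 5 → ℤ)
    (hH : ∀ (t : Fin 5 → ℤ) (u : ℤ), Function.Injective t → ¬ (5 : ℤ) ∣ u →
      (∀ j, (5 : ℤ) ∣ t j - t 0 - f j * u) → HStr t lam6 ∨ Cov (fun j => (t j, 0)))
    (h1 : ∀ i j k l m : Fin 5, dis5 i j k l m = true →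
      ¬ ((f j - f i) % 5 = 0 ∧ (f k - f i) % 5 = 0 ∧ (f l - f i) % 5 = 0))
    (h2 : ∀ i j k l m : Fin 5, dis5 i j k l m = true →
      ¬ ((f l - f i) % 5 = 0 ∧ (f m - f i) % 5 = 0 ∧ (f j + f k - 2 * f i) % 5 = 0)) :
    TypeOK f := by
  intro t u ht hu e
  rcases hH t u ht hu e with hH | hH
  swap
  · exact hH
  rcases vOr hE t ht with h | h | ⟨σ, h⟩
  · exact stGAME t lam6 hH h
  · exact h
  have p5 : Prime (5 : ℤ) := Int.prime_iff_natAbs_prime.2 (by norm_num)
  have cancel : ∀ z : ℤ, (5 : ℤ) ∣ z * u → z % 5 = 0 := fun z hz =>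
    Int.emod_eq_zero_of_dvd ((p5.dvd_or_dvd hz).resolve_right hu)
  have dif : ∀ i j, (5 : ℤ) ∣ t j - t i → (f j - f i) % 5 = 0 := fun i j hd => by
    refine cancel _ ?_
    have : (f j - f i) * u = (t j - t i) - (t j - t 0 - f j * u) + (t i - t 0 - f i * u) := by ring
    rw [this]
    exact dvd_add (dvd_sub hd (e j)) (e i)
  exfalso
  rcases res_mod _ h with ⟨a, b, c⟩ | ⟨a, b, c⟩
  · exact h1 (σ 0) (σ 1) (σ 2) (σ 3) (σ 4) (dis5_perm σ) ⟨dif _ _ a, dif _ _ b, dif _ _ c⟩
  · refine h2 (σ 0) (σ 1) (σ 2) (σ 3) (σ 4) (dis5_perm σ) ⟨dif _ _ a, dif _ _ b, cancel _ ?_⟩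
    have : (f (σ 1) + f (σ 2) - 2 * f (σ 0)) * u = (t (σ 1) + t (σ 2) - 2 * t (σ 0)) -
        (t (σ 1) - t 0 - f (σ 1) * u) - (t (σ 2) - t 0 - f (σ 2) * u) +
        2 * (t (σ 0) - t 0 - f (σ 0) * u) := by ring
    rw [this]
    exact dvd_add (dvd_sub (dvd_sub c (e _)) (e _)) ((e _).mul_left 2)

theorem ok311n_of (hE : St_VE4) : TypeOK ![0, 0, 0, 1, 2] :=
  typeOK_of_H hE _ (fun t u ht hu e => .inl (stH311 t u ht hu e)) (by decide +kernel)
    (by decide +kernel)

end Pool.Agent.Lib.B5
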