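import Pool.Agent.Lib.B5.HDefs

/-! Six-colourings of five-fold row coverings, and the column structure of the type 3-1-1. -/

set_option autoImplicit false

namespace Pool.Agent.Lib.B5

noncomputable def lam6 : ℕ → ℝ := lamF 3600 [0, 600, 1200, 1800, 2400]

/-- the multiplier `a` is one half on the differences marked by `par`, zero on the others -/
def Par (a : ℝ) (t : Fin 5 → ℤ) (par : Fin 5 → Bool) : Prop :=
  ∀ j, ∃ m : ℤ, a * ((t j - t 0 : ℤ) : ℝ) = (if par j then 1 / 2 else 0) + m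

def p41 : Fin 5 → Bool := ![false, false, false, false, true]

def p32 : Fin 5 → Bool := ![false, false, false, true, true]

def St_H311 : Prop := ∀ (t : Fin 5 → ℤ) (u : ℤ), Function.Injective t → ¬ (5 : ℤ) ∣ u →
  (∀ j, (5 : ℤ) ∣ t j - t 0 - (![0, 0, 0, 1, 2] : Fin 5 → ℤ) j * u) → HStr t lam6

def St_VCOL : Prop := ∀ (t : Fin 5 → ℤ) (a : ℝ) (par : Fin 5 → Bool) (F G : ℤ → ZMod 6),
  Par a t par →
  (∀ y, Function.Injective fun j => if par j then G (y + t j) else F (y - t j)) →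
  (∀ y, Function.Injective fun j => if par j then F (y - t j) else G (y + t j)) → VStr t lam6

def St_VPERM : Prop := ∀ (t : Fin 5 → ℤ) (lam : ℕ → ℝ) (σ : Equiv.Perm (Fin 5)),
  VStr (fun j => t (σ j)) lam → VStr t lam

def St_V22 : Prop := ∀ (t : Fin 5 → ℤ) (a a2 : ℝ), Function.Injective t → Par a t p41 →
  (∃ m : ℤ, a2 * ((t 1 - t 0 : ℤ) : ℝ) = m) → (∃ m : ℤ, a2 * ((t 2 - t 0 : ℤ) : ℝ) = 1 / 2 + m) →
  (∃ m : ℤ, a2 * ((t 3 - t 0 : ℤ) : ℝ) = 1 / 2 + m) → VStr t lam6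

def St_VLIN : Prop := ∀ (t : Fin 5 → ℤ) (a : ℝ) (g : ℤ), g ≠ 0 → Par a t p41 →
  ((t 1 - t 0 = g ∧ t 2 - t 0 = 6 * g ∧ t 3 - t 0 = 8 * g) ∨
    (t 1 - t 0 = 3 * g ∧ t 2 - t 0 = 5 * g ∧ t 3 - t 0 = 11 * g) ∨
    (t 1 - t 0 = 5 * g ∧ t 2 - t 0 = 6 * g ∧ t 3 - t 0 = 22 * g)) → VStr t lam6

def St_VPL : Prop := ∀ (t : Fin 5 → ℤ) (a : ℝ), Function.Injective t → Par a t p32 →
  t 4 - t 3 = t 1 + t 2 - 2 * t 0 → VStr t lam6 ∨ ∃ g k : ℤ,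
    (t 1 - t 0 = 2 * g ∧ t 2 - t 0 = g * (6 * k + 1)) ∨
    (t 2 - t 0 = 2 * g ∧ t 1 - t 0 = g * (6 * k + 1))

/-- the two families without a six-colouring in the parity gauge -/
def VEx (s : Fin 5 → ℤ) : Prop := ∃ (a : ℝ) (g : ℤ),
  (Par a s p41 ∧ s 1 - s 0 = g ∧ s 2 - s 0 = 4 * g ∧ s 3 - s 0 = 6 * g) ∨
  (Par a s p32 ∧ ∃ k : ℤ, s 1 - s 0 = 2 * g ∧ s 2 - s 0 = g * (6 * k + 1) ∧
    s 4 - s 3 = g * (6 * k + 3))

def St_V6 : Prop := ∀ t : Fin 5 → ℤ, Function.Injective t →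
  VStr t lam6 ∨ ∃ σ : Equiv.Perm (Fin 5), VEx (fun j => t (σ j))

end Pool.Agent.Lib.B5
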